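import Pool.Agent.Lib.MP_610fe3_an.Abstract

/-!
# Conformal Anosov diffeomorphisms: abstract definitions

All statements are about a homeomorphism `f` of a compact metric space `M`, isometrically embedded
(`E : Emb M W`), with a splitting `s : Split E f`.  Stable objects belong to `s`, unstable objects
are the stable objects of `s.swap`.
-/

open Set Filter Function MeasureTheory
open scoped Topology

namespace Pool.Agent.Lib.MP610fe3

variable {M W : Type*} [MetricSpace M] [NormedAddCommGroup W] [NormedSpace ℝ W]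
  {E : Emb M W} {f : M ≃ₜ M}

/-- The same splitting for the inverse homeomorphism; stable and unstable are exchanged. -/
def Split.swap (s : Split E f) : Split E f.symm where
  D := s.Di
  Di := s.D
  hD := s.hDi
  hDi := s.hD
  inv1 := fun x => s.inv2 x
  inv2 := fun x => s.inv1 x
  S := s.U
  U := s.S
  add := fun x => by rw [add_comm]; exact s.add x
  SS := s.UU
  UU := s.SS
  SU := s.US
  US := s.SU
  PS := s.PU
  SP := s.UP
  PU := s.PS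
  UP := s.SP
  DS := fun x => s.DiU x
  DU := fun x => s.DiS x
  bdd := by
    obtain ⟨K, hK⟩ := s.bdd
    exact ⟨K, fun x => ⟨(hK x).2, (hK x).1⟩⟩

@[simp] theorem Split.swap_D (s : Split E f) : s.swap.D = s.Di := rfl
@[simp] theorem Split.swap_Di (s : Split E f) : s.swap.Di = s.D := rfl
@[simp] theorem Split.swap_S (s : Split E f) : s.swap.S = s.U := rfl
@[simp] theorem Split.swap_U (s : Split E f) : s.swap.U = s.S := rfl

theorem Split.Hyperbolic.swap {s : Split E f} (hs : s.Hyperbolic) : s.swap.Hyperbolic := by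
  obtain ⟨C, l, hC, hl, hl1, H⟩ := hs
  exact ⟨C, l, hC, hl, hl1, fun k x w => ⟨(H k x w).2, (H k x w).1⟩⟩

namespace Cf

/-- The local stable set of `x` of size `ε`. The local unstable set is `Wl f.symm ε x`. -/
def Wl (f : M ≃ₜ M) (ε : ℝ) (x : M) : Set M := {z | ∀ k : ℕ, dist (f^[k] z) (f^[k] x) ≤ ε}

/-- Second order estimates: `f` is of class `C^2` (or `C^{1,1}`). -/
structure Sq (s : Split E f) (C : ℝ) : Prop where
  fwd : ∀ x z, ‖E.e (f z) - E.e (f x) - s.D x (E.e z - E.e x)‖ ≤ C * dist z x ^ 2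
  bwd : ∀ x z, ‖E.e (f.symm z) - E.e (f.symm x) - s.Di x (E.e z - E.e x)‖ ≤ C * dist z x ^ 2
  tan : ∀ x z, ‖E.e z - E.e x - E.P x (E.e z - E.e x)‖ ≤ C * dist z x ^ 2
  lipD : ∀ x z, ‖s.D z - s.D x‖ ≤ C * dist z x
  lipDi : ∀ x z, ‖s.Di z - s.Di x‖ ≤ C * dist z x

theorem Sq.swap {s : Split E f} {C : ℝ} (h : Sq s C) : Sq s.swap C :=
  ⟨h.bwd, h.fwd, h.tan, h.lipDi, h.lipD⟩

/-- The derivative is conformal on the stable bundle for a continuous Euclidean metric `B` of the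
bundle; `a x` is the conformal factor. -/
structure Conf (s : Split E f) where
  B : M → W →L[ℝ] W →L[ℝ] ℝ
  a : M → ℝ
  K : ℝ
  K_pos : 0 < K
  cont : Continuous B
  symm : ∀ x v w, B x v w = B x w v
  proj : ∀ x v w, B x (s.S x v) w = B x v w
  lower : ∀ x w, ‖s.S x w‖ ^ 2 ≤ K * B x w w
  a_pos : ∀ x, 0 < a x
  conf : ∀ x v w, B (f x) (s.D x v) (s.D x w) = a x ^ 2 * B x v w

variable {s : Split E f}

/-- The norm on the stable bundle (a seminorm on `W`). -/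
noncomputable def Conf.g (c : Conf s) (x : M) (w : W) : ℝ := Real.sqrt (c.B x w w)

/-- The conformal factor of the `n`-th iterate on the stable bundle. -/
noncomputable def Conf.an (c : Conf s) (n : ℕ) (x : M) : ℝ := ∏ k ∈ Finset.range n, c.a (f^[k] x)

/-- Growth estimates for pairs in local stable sets. -/
structure Grow (c : Conf s) (ε C l : ℝ) : Prop where
  ε_pos : 0 < ε
  one_le : 1 ≤ C
  l_pos : 0 < l
  l_lt : l < 1
  an_le : ∀ n x, c.an n x ≤ C * l ^ n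
  upper : ∀ x, ∀ z ∈ Wl f ε x, ∀ n, dist (f^[n] z) (f^[n] x) ≤ C * c.an n x * dist z x
  lower : ∀ x, ∀ z ∈ Wl f ε x, ∀ n, c.an n x * dist z x ≤ C * dist (f^[n] z) (f^[n] x)
  cone : ∀ x, ∀ z ∈ Wl f ε x, ‖E.e z - E.e x - s.S x (E.e z - E.e x)‖ ≤ C * dist z x ^ 2

/-- `ψ x` is the nonstationary linearization of the local stable set of `x`, `Q` is the linear
part of the (affine) transition, `q` its conformal factor. -/
structure Flat (c : Conf s) (ε C : ℝ) (ψ : M → M → W) (Q : M → M → W →L[ℝ] W)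
    (q : M → M → ℝ) : Prop where
  ε_pos : 0 < ε
  one_le : 1 ≤ C
  mem : ∀ x, ∀ z ∈ Wl f ε x, s.S x (ψ x z) = ψ x z
  approx : ∀ x, ∀ z ∈ Wl f ε x, ‖ψ x z - (E.e z - E.e x)‖ ≤ C * dist z x ^ 2
  upper : ∀ x, ∀ z ∈ Wl f ε x, ‖ψ x z‖ ≤ 2 * dist z x
  lower : ∀ x, ∀ z ∈ Wl f ε x, dist z x ≤ 2 * ‖ψ x z‖
  equiv : ∀ x, ∀ z ∈ Wl f ε x, ψ (f x) (f z) = s.D x (ψ x z)
  inj : ∀ x, ∀ z ∈ Wl f ε x, ∀ z' ∈ Wl f ε x, ψ x z = ψ x z' → z = z'
  cont : ContinuousOn (fun p : M × M => ψ p.1 p.2) {p | p.2 ∈ Wl f ε p.1}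
  trans : ∀ x, ∀ z ∈ Wl f ε x, ∀ z' ∈ Wl f ε x, z' ∈ Wl f ε z →
    ψ z z' = Q x z (ψ x z' - ψ x z)
  Q_self : ∀ x, Q x x = s.S x
  Q_S : ∀ x, ∀ z ∈ Wl f ε x, Q x z ∘L s.S x = Q x z
  S_Q : ∀ x, ∀ z ∈ Wl f ε x, s.S z ∘L Q x z = Q x z
  Q_conf : ∀ x, ∀ z ∈ Wl f ε x, ∀ v w, c.B z (Q x z v) (Q x z w) = q x z ^ 2 * c.B x v w
  Q_cont : ContinuousOn (fun p : M × M => Q p.1 p.2) {p | p.2 ∈ Wl f ε p.1}
  q_pos : ∀ x, ∀ z ∈ Wl f ε x, 0 < q x z
  q_self : ∀ x, q x x = 1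
  q_comp : ∀ x, ∀ z ∈ Wl f ε x, ∀ z' ∈ Wl f ε x, z' ∈ Wl f ε z → q z z' * q x z = q x z'
  q_equiv : ∀ x, ∀ z ∈ Wl f ε x, q (f x) (f z) * c.a x = q x z * c.a z
  q_cont : ContinuousOn (fun p : M × M => q p.1 p.2) {p | p.2 ∈ Wl f ε p.1}

/-- Surjectivity of the linearization onto small balls of the stable space. -/
def Surj (s : Split E f) (ψ : M → M → W) : Prop :=
  ∀ ε' : ℝ, 0 < ε' → ∃ r : ℝ, 0 < r ∧ ∀ x w, s.S x w = w → ‖w‖ ≤ r → ∃ z ∈ Wl f ε' x, ψ x z = w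

/-- `P x y` is the linear holonomy of the stable bundle along the unstable set (from `x` to
`y ∈ Wl f.symm ε x`), `p` its conformal factor. -/
structure LinHol (c : Conf s) (ε C : ℝ) (P : M → M → W →L[ℝ] W) (p : M → M → ℝ) : Prop where
  ε_pos : 0 < ε
  one_le : 1 ≤ C
  P_self : ∀ x, P x x = s.S x
  P_S : ∀ x, ∀ y ∈ Wl f.symm ε x, P x y ∘L s.S x = P x y
  S_P : ∀ x, ∀ y ∈ Wl f.symm ε x, s.S y ∘L P x y = P x y
  P_conf : ∀ x, ∀ y ∈ Wl f.symm ε x, ∀ v w,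
    c.B y (P x y v) (P x y w) = p x y ^ 2 * c.B x v w
  P_comp : ∀ x, ∀ y ∈ Wl f.symm ε x, ∀ z ∈ Wl f.symm ε x, z ∈ Wl f.symm ε y →
    P y z ∘L P x y = P x z
  P_equiv : ∀ x, ∀ y ∈ Wl f.symm ε x, f y ∈ Wl f.symm ε (f x) →
    P (f x) (f y) ∘L s.D x = s.D y ∘L P x y
  P_cont : ContinuousOn (fun p : M × M => P p.1 p.2) {p | p.2 ∈ Wl f.symm ε p.1}
  p_pos : ∀ x, ∀ y ∈ Wl f.symm ε x, 0 < p x y
  p_self : ∀ x, p x x = 1
  p_comp : ∀ x, ∀ y ∈ Wl f.symm ε x, ∀ z ∈ Wl f.symm ε x, z ∈ Wl f.symm ε y →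
    p y z * p x y = p x z
  p_equiv : ∀ x, ∀ y ∈ Wl f.symm ε x, f y ∈ Wl f.symm ε (f x) →
    p (f x) (f y) * c.a x = p x y * c.a y
  p_cont : ContinuousOn (fun q : M × M => p q.1 q.2) {q | q.2 ∈ Wl f.symm ε q.1}
  /-- bounded distortion of the conformal factors -/
  dist_le : ∀ x, ∀ y ∈ Wl f.symm ε x, ∀ n,
    c.an n (f.symm^[n] y) ≤ C * c.an n (f.symm^[n] x)

/-- The local product structure. -/
structure Br (f : M ≃ₜ M) (ε C : ℝ) : Prop where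
  ε_pos : 0 < ε
  one_le : 1 ≤ C
  exist : ∀ ε' : ℝ, 0 < ε' → ∃ δ : ℝ, 0 < δ ∧ ∀ x y, dist x y < δ →
    ∃ z, z ∈ Wl f ε' x ∧ z ∈ Wl f.symm ε' y
  unique : ∀ x y z z', z ∈ Wl f ε x → z ∈ Wl f.symm ε y → z' ∈ Wl f ε x →
    z' ∈ Wl f.symm ε y → z = z'
  left : ∀ x y z, z ∈ Wl f ε x → z ∈ Wl f.symm ε y → dist z x ≤ C * dist x y
  right : ∀ x y z, z ∈ Wl f ε x → z ∈ Wl f.symm ε y → dist z y ≤ C * dist x y

/-- The logarithm of the cross ratio like invariant of a rectangle with corners `x`,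
`y` (unstable side), `z` (stable side) and `z'`. -/
noncomputable def RR (p q : M → M → ℝ) (x y z z' : M) : ℝ :=
  Real.log (p z z') + Real.log (q x z) - Real.log (p x y) - Real.log (q y z')

/-- The backward Bowen ball. -/
def Box (f : M ≃ₜ M) (δ : ℝ) (n : ℕ) (w : M) : Set M :=
  {x | ∀ k ≤ n, dist (f.symm^[k] x) (f.symm^[k] w) ≤ δ}

end Cf

end Pool.Agent.Lib.MP610fe3
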