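import Pool.Agent.Lib.MP_610fe3_an.Cf.Assembly4

/-!
# The main theorem of the fourth phase, in terms of the modules
-/

open Set Filter Function MeasureTheory Bundle
open scoped Topology Manifold ContDiff

namespace Pool.Agent.Lib.MP610fe3.Cf

universe u v

/-- The rank of the stable bundle is constant. -/
theorem exists_rank {M W : Type*} [MetricSpace M] [CompactSpace M] [ConnectedSpace M]
    [NormedAddCommGroup W] [NormedSpace ℝ W] [FiniteDimensional ℝ W] {E : Emb M W} {f : M ≃ₜ M}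
    (s : Split E f) (hs : s.Hyperbolic) : ∃ d : ℕ, ∀ x, Module.finrank ℝ (s.S x).range = d := by
  have hp : ∀ x, LinearMap.IsProj (s.S x).range (s.S x).toLinearMap := fun x => by
    refine ⟨fun w => ⟨w, rfl⟩, ?_⟩
    rintro _ ⟨w, rfl⟩
    exact s.SS_apply x w
  have htr : ∀ x, LinearMap.trace ℝ W (s.S x).toLinearMap =
      (Module.finrank ℝ (s.S x).range : ℝ) := fun x => (hp x).trace
  have hc : Continuous fun x => LinearMap.trace ℝ W (s.S x).toLinearMap := by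
    have h1 : Continuous ((LinearMap.trace ℝ W) ∘ₗ
        (ContinuousLinearMap.coeLM ℝ : (W →L[ℝ] W) →ₗ[ℝ] W →ₗ[ℝ] W)) :=
      LinearMap.continuous_of_finiteDimensional _
    exact h1.comp (s.contS hs)
  simp only [htr] at hc
  have hc' : Continuous fun x => Module.finrank ℝ (s.S x).range :=
    (Nat.isClosedEmbedding_coe_real.isInducing.continuous_iff).2 hc
  obtain ⟨x₀⟩ : Nonempty M := inferInstance
  exact ⟨Module.finrank ℝ (s.S x₀).range, fun x =>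
    PreconnectedSpace.constant inferInstance hc'⟩

/-- The dimension of the stable bundle is constant. -/
theorem exists_dim
    {V : Type v} [NormedAddCommGroup V] [NormedSpace ℝ V]
    [FiniteDimensional ℝ V] {M : Type u} [MetricSpace M] [CompactSpace M]
    [ConnectedSpace M] [ChartedSpace V M] [IsManifold 𝓘(ℝ, V) ∞ M]
    [RiemannianBundle (fun x : M => TangentSpace 𝓘(ℝ, V) x)]
    [IsContinuousRiemannianBundle V (fun x : M => TangentSpace 𝓘(ℝ, V) x)]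
    {N : ℕ} (e : M → EuclideanSpace ℝ (Fin N)) (hiso : Isometry e)
    (he : ContMDiff 𝓘(ℝ, V) (𝓡 N) ∞ e)
    (hinj : ∀ x, Injective (mfderiv 𝓘(ℝ, V) (𝓡 N) e x))
    (f : M ≃ₘ^1⟮𝓘(ℝ, V), 𝓘(ℝ, V)⟯ M)
    (Es Eu : ∀ x : M, Submodule ℝ (TangentSpace 𝓘(ℝ, V) x)) (hA : Gen.IsAnosovSplitting f Es Eu) :
    ∃ d : ℕ, ∀ x, Module.finrank ℝ (Es x) = d := by
  obtain ⟨E, hE, hEP, hr⟩ := Gen.exists_emb e hiso he hinj
  subst hE
  obtain ⟨s, hs, hsS, hsU⟩ := Gen.exists_split E he hinj hr f Es Eu hA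
  obtain ⟨d, hd⟩ := exists_rank s hs
  refine ⟨d, fun x => ?_⟩
  have h1 := congrArg (fun G : Submodule ℝ (EuclideanSpace ℝ (Fin N)) => Module.finrank ℝ G)
    (hsS x)
  have h3 := h1.trans
    (finrank_map_aux (mfderiv 𝓘(ℝ, V) (𝓡 N) E.e x).toLinearMap (hinj x) (Es x))
  exact h3.symm.trans (hd x)

/-- The manifold theorem, without constant dimensions. -/
theorem mfd_main4' (H4 : Mods4.{u, 0})
    {V : Type v} [NormedAddCommGroup V] [NormedSpace ℝ V]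
    [FiniteDimensional ℝ V] {M : Type u} [TopologicalSpace M] [CompactSpace M] [T2Space M]
    [ConnectedSpace M] [ChartedSpace V M] [IsManifold 𝓘(ℝ, V) ∞ M]
    [RiemannianBundle (fun x : M => TangentSpace 𝓘(ℝ, V) x)]
    [IsContinuousRiemannianBundle V (fun x : M => TangentSpace 𝓘(ℝ, V) x)]
    (f : M ≃ₘ^1⟮𝓘(ℝ, V), 𝓘(ℝ, V)⟯ M) (hf : ContMDiff 𝓘(ℝ, V) 𝓘(ℝ, V) 2 f)
    (hf' : ContMDiff 𝓘(ℝ, V) 𝓘(ℝ, V) 2 f.symm)
    (Es Eu : ∀ x : M, Submodule ℝ (TangentSpace 𝓘(ℝ, V) x)) (hA : Gen.IsAnosovSplitting f Es Eu)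
    (hcs : ConformalOn f Es)
    (h2 : ∀ x, 2 ≤ Module.finrank ℝ (Es x)) (hu : ∀ x, 2 ≤ Module.finrank ℝ (Eu x)) :
    TopTransitive f := by
  obtain ⟨N, e, he, hemb, hinj⟩ := exists_embedding_euclidean_of_compact (I := 𝓘(ℝ, V)) (M := M)
  let : MetricSpace M := hemb.isEmbedding.comapMetricSpace e
  have hiso : Isometry e := hemb.isEmbedding.to_isometry
  obtain ⟨d, hd⟩ := exists_dim e hiso he hinj f Es Eu hA
  obtain ⟨x₀⟩ : Nonempty M := inferInstance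
  have hd2 : 2 ≤ d := by
    rw [← hd x₀]
    exact h2 x₀
  exact mfd_aux4 H4 e hiso he hinj f hf hf' Es Eu hA hd2 hcs hd hu

/-- The manifold theorem, one of the two bundles being conformal. -/
theorem mfd_main4'' (H4 : Mods4.{u, 0})
    {V : Type v} [NormedAddCommGroup V] [NormedSpace ℝ V]
    [FiniteDimensional ℝ V] {M : Type u} [TopologicalSpace M] [CompactSpace M] [T2Space M]
    [ConnectedSpace M] [ChartedSpace V M] [IsManifold 𝓘(ℝ, V) ∞ M]
    [RiemannianBundle (fun x : M => TangentSpace 𝓘(ℝ, V) x)]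
    [IsContinuousRiemannianBundle V (fun x : M => TangentSpace 𝓘(ℝ, V) x)]
    (f : M ≃ₘ^1⟮𝓘(ℝ, V), 𝓘(ℝ, V)⟯ M) (hf : ContMDiff 𝓘(ℝ, V) 𝓘(ℝ, V) 2 f)
    (hf' : ContMDiff 𝓘(ℝ, V) 𝓘(ℝ, V) 2 f.symm)
    (Es Eu : ∀ x : M, Submodule ℝ (TangentSpace 𝓘(ℝ, V) x)) (hA : Gen.IsAnosovSplitting f Es Eu)
    (hc : ConformalOn f Es ∨ ConformalOn f Eu)
    (h2 : ∀ x, 2 ≤ Module.finrank ℝ (Es x)) (hu : ∀ x, 2 ≤ Module.finrank ℝ (Eu x)) :
    TopTransitive f := by
  have : IsManifold 𝓘(ℝ, V) 1 M := IsManifold.of_le (m := 1) (n := ∞) (by norm_num)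
  rcases hc with hc | hc
  · exact mfd_main4' H4 f hf hf' Es Eu hA hc h2 hu
  · exact topTransitive_symm f.toHomeomorph (mfd_main4' H4 f.symm hf' hf Eu Es
      (IsAnosovSplitting.symm hA) (hc.symm hA.map_u) hu h2)

end Pool.Agent.Lib.MP610fe3.Cf
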