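import Pool.Agent.Lib.MP_610fe3_an.Cf.Basic
import Pool.Agent.Lib.MP_610fe3_an.Shadow

/-!
# Module BR: the local product structure
-/

open Set Filter Function
open scoped Topology

namespace Pool.Agent.Lib.MP610fe3.Cf

universe u v

section

variable {M W : Type*} [MetricSpace M] [CompactSpace M] [NormedAddCommGroup W] [NormedSpace ℝ W]
  {E : Emb M W} {f : M ≃ₜ M}

/-- The cone statement. -/
theorem br_cone (s : Split E f) (hs : s.Hyperbolic) {η : ℝ} (hη : 0 < η) :
    ∃ ε : ℝ, 0 < ε ∧ ∀ x, ∀ z ∈ Wl f ε x,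
      ‖E.e z - E.e x - s.S x (E.e z - E.e x)‖ ≤ η * dist z x := by
  set ρ : ℝ := min (1 / 8) (η / 2) with hρ
  have hρpos : 0 < ρ := lt_min (by norm_num) (by positivity)
  obtain ⟨k, r, hr, h⟩ := s.exists_forward hs hρpos (min_le_left _ _)
  obtain ⟨r₂, hr₂, h₂⟩ := E.tangent (η / 2) (by positivity)
  have hm : 0 < min r r₂ := lt_min hr hr₂
  refine ⟨min r r₂ / 2, by positivity, fun x z hz => ?_⟩
  have h1 := (h x z (fun m => (hz m).trans_lt (by linarith [min_le_left r r₂]))).1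
  have h2 := h₂ x z ((hz 0).trans_lt (by linarith [min_le_right r r₂]))
  have h3 : E.e z - E.e x - s.S x (E.e z - E.e x)
      = (E.e z - E.e x - E.P x (E.e z - E.e x)) + s.U x (E.e z - E.e x) := by
    rw [← s.add_apply']; abel
  rw [h3]
  refine (norm_add_le _ _).trans ?_
  have h4 : ρ ≤ η / 2 := min_le_right _ _
  have h5 : ρ * dist z x ≤ η / 2 * dist z x := mul_le_mul_of_nonneg_right h4 dist_nonneg
  linarith

/-- The linear bounds for the local product. -/
theorem br_lin (s : Split E f) (hs : s.Hyperbolic) :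
    ∃ ε C : ℝ, 0 < ε ∧ 1 ≤ C ∧ ∀ x y z, z ∈ Wl f ε x → z ∈ Wl f.symm ε y →
      dist z x ≤ C * dist x y ∧ dist z y ≤ C * dist x y := by
  obtain ⟨K, hK1, hK⟩ := s.exists_bdd
  have hK0 : 0 < K + 2 := by linarith
  set η : ℝ := 1 / (2 * (K + 2)) with hη
  have hηpos : 0 < η := by positivity
  have hηK : η * (K + 2) = 1 / 2 := by rw [hη]; field_simp
  obtain ⟨ε₁, hε₁, h₁⟩ := br_cone s hs hηpos
  obtain ⟨ε₂, hε₂, h₂⟩ := br_cone s.swap hs.swap hηpos
  obtain ⟨r, hr, h₃⟩ := s.exists_mixed hs hηpos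
  have hm : 0 < min ε₁ (min ε₂ (r / 4)) := lt_min hε₁ (lt_min hε₂ (by positivity))
  refine ⟨min ε₁ (min ε₂ (r / 4)), 2 * K + 3, hm, by linarith, fun x y z hx hy => ?_⟩
  have c1 := h₁ x z (Wl_mono (min_le_left _ _) hx)
  have c2 := h₂ y z (Wl_mono ((min_le_right _ _).trans (min_le_left _ _)) hy)
  simp only [Split.swap_S] at c2
  have hd : dist y x < r := by
    have e1 : dist z x ≤ r / 4 := (hx 0).trans ((min_le_right _ _).trans (min_le_right _ _))
    have e2 : dist z y ≤ r / 4 := (hy 0).trans ((min_le_right _ _).trans (min_le_right _ _))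
    calc dist y x ≤ dist y z + dist z x := dist_triangle _ _ _
      _ = dist z y + dist z x := by rw [dist_comm y z]
      _ < r := by linarith
  have c3 := (h₃ x y hd).2 (E.e z - E.e y)
  set v := E.e z - E.e x with hv
  set w := E.e z - E.e y with hw
  have hvd : dist z x = ‖v‖ := E.dist_eq z x
  have hwd : dist z y = ‖w‖ := E.dist_eq z y
  have hud : dist x y = ‖w - v‖ := by
    rw [E.dist_eq x y]; congr 1; rw [hv, hw]; abel
  rw [hvd, hwd, hud]
  rw [hvd] at c1
  rw [hwd] at c2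
  have d1 : ‖v‖ ≤ ‖s.S x v‖ + η * ‖v‖ := by
    calc ‖v‖ = ‖(v - s.S x v) + s.S x v‖ := by rw [sub_add_cancel]
      _ ≤ ‖v - s.S x v‖ + ‖s.S x v‖ := norm_add_le _ _
      _ ≤ _ := by linarith
  have d2 : s.S x v = s.S x (w - s.U y w) + s.S x (s.U y w) - s.S x (w - v) := by
    rw [← map_add, ← map_sub]; congr 1; abel
  have d3 : ‖s.S x v‖ ≤ K * (η * ‖w‖) + η * ‖w‖ + K * ‖w - v‖ := by
    rw [d2]
    refine (norm_sub_le _ _).trans (add_le_add ((norm_add_le _ _).trans (add_le_add ?_ c3)) ?_)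
    · exact ((s.S x).le_of_opNorm_le (hK x).1 _).trans
        (mul_le_mul_of_nonneg_left c2 (by linarith))
    · exact (s.S x).le_of_opNorm_le (hK x).1 _
  have d4 : ‖w‖ ≤ ‖v‖ + ‖w - v‖ := by
    calc ‖w‖ = ‖v + (w - v)‖ := by congr 1; abel
      _ ≤ _ := norm_add_le _ _
  have hn0 : 0 ≤ ‖v‖ := norm_nonneg _
  have hn1 : 0 ≤ ‖w - v‖ := norm_nonneg _
  have d5 : K * (η * ‖w‖) + η * ‖w‖ ≤ (K * η + η) * (‖v‖ + ‖w - v‖) := by
    calc K * (η * ‖w‖) + η * ‖w‖ = (K * η + η) * ‖w‖ := by ring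
      _ ≤ _ := mul_le_mul_of_nonneg_left d4 (by positivity)
  have d6 : ‖v‖ ≤ 1 / 2 * ‖v‖ + (1 / 2 + K) * ‖w - v‖ := by
    have e1 : (K * η + 2 * η) = 1 / 2 := by rw [← hηK]; ring
    have e2 : ‖v‖ ≤ (K * η + 2 * η) * ‖v‖ + (K * η + η + K) * ‖w - v‖ := by
      nlinarith
    have e3 : (K * η + η + K) * ‖w - v‖ ≤ (1 / 2 + K) * ‖w - v‖ := by
      apply mul_le_mul_of_nonneg_right _ hn1
      linarith
    rw [e1] at e2
    linarith
  have d7 : ‖v‖ ≤ (2 * K + 1) * ‖w - v‖ := by linarith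
  constructor <;> nlinarith

/-- Existence of the local product. -/
theorem br_exist (s : Split E f) (hs : s.Hyperbolic) {ε : ℝ} (hε : 0 < ε) :
    ∃ δ : ℝ, 0 < δ ∧ ∀ x y, dist x y < δ → ∃ z, z ∈ Wl f ε x ∧ z ∈ Wl f.symm ε y := by
  obtain ⟨δ, hδ, h⟩ := s.shadowing hs (ε / 2) (by positivity)
  refine ⟨min δ (ε / 2), lt_min hδ (by positivity), fun x y hxy => ?_⟩
  have h1 := hxy.trans_le (min_le_left _ _)
  have h2 := hxy.trans_le (min_le_right _ _)
  obtain ⟨Y, hY, hYd⟩ := h (fun k => if 0 ≤ k then orb f x k else orb f y k) (fun k => by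
    rcases lt_trichotomy k (-1) with hk | rfl | hk
    · have e1 : ¬ (0 ≤ k) := by omega
      have e2 : ¬ (0 ≤ k + 1) := by omega
      simp only [if_neg e1, if_neg e2, orb_succ, dist_self]
      exact hδ
    · have e1 : ¬ ((0 : ℤ) ≤ -1) := by omega
      have e2 : (0 : ℤ) ≤ -1 + 1 := by omega
      simp only [if_neg e1, if_pos e2, orb_succ]
      simp only [Int.reduceNeg, neg_add_cancel, orb_zero]
      rw [dist_comm]
      exact h1
    · have e1 : (0 : ℤ) ≤ k := by omega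
      have e2 : (0 : ℤ) ≤ k + 1 := by omega
      simp only [if_pos e1, if_pos e2, orb_succ, dist_self]
      exact hδ)
  have hpos : ∀ n : ℕ, Y n = f^[n] (Y 0) := by
    intro n
    induction n with
    | zero => simp
    | succ n ih =>
      rw [iterate_succ_apply', ← ih, hY]
      push_cast
      rfl
  have hneg : ∀ n : ℕ, Y (-n) = f.symm^[n] (Y 0) := by
    intro n
    induction n with
    | zero => simp
    | succ n ih =>
      rw [iterate_succ_apply', ← ih]
      have e := hY (-((n + 1 : ℕ) : ℤ))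
      rw [show (-((n + 1 : ℕ) : ℤ) + 1) = -(n : ℤ) by push_cast; ring] at e
      rw [← e, f.symm_apply_apply]
  refine ⟨Y 0, fun k => ?_, fun k => ?_⟩
  · have e := hYd k
    rw [if_pos (Int.natCast_nonneg k), orb_nat, hpos] at e
    linarith
  · rcases Nat.eq_zero_or_pos k with rfl | hk
    · have e := hYd 0
      rw [if_pos le_rfl, orb_zero] at e
      simp only [iterate_zero, id_eq]
      calc dist (Y 0) y ≤ dist (Y 0) x + dist x y := dist_triangle _ _ _
        _ ≤ ε := by linarith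
    · have e := hYd (-k)
      rw [if_neg (by omega), orb_neg, hneg] at e
      linarith

end

/-- Module BR. -/
theorem br : SpecBr.{u, v} := by
  intro M W _ _ _ _ E f s hs
  obtain ⟨ε₁, C, hε₁, hC, h₁⟩ := br_lin s hs
  obtain ⟨c, hc, h₂⟩ := s.expansive hs
  have hm : 0 < min ε₁ (c / 2) := lt_min hε₁ (by positivity)
  refine ⟨min ε₁ (c / 2), C, hm, hC, fun ε' hε' => br_exist s hs hε', ?_, ?_, ?_⟩
  · intro x y z z' hz hz2 hz' hz2'
    have hle : min ε₁ (c / 2) ≤ c / 2 := min_le_right _ _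
    refine h₂ z z' (fun k => ?_) (fun k => ?_)
    · calc dist (f^[k] z) (f^[k] z') ≤ dist (f^[k] z) (f^[k] x) + dist (f^[k] x) (f^[k] z') :=
            dist_triangle _ _ _
        _ = dist (f^[k] z) (f^[k] x) + dist (f^[k] z') (f^[k] x) := by
            rw [dist_comm (f^[k] x)]
        _ ≤ c := by linarith [hz k, hz' k]
    · calc dist (f.symm^[k] z) (f.symm^[k] z')
          ≤ dist (f.symm^[k] z) (f.symm^[k] y) + dist (f.symm^[k] y) (f.symm^[k] z') :=
            dist_triangle _ _ _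
        _ = dist (f.symm^[k] z) (f.symm^[k] y) + dist (f.symm^[k] z') (f.symm^[k] y) := by
            rw [dist_comm (f.symm^[k] y)]
        _ ≤ c := by linarith [hz2 k, hz2' k]
  · intro x y z hz hz'
    exact (h₁ x y z (Wl_mono (min_le_left _ _) hz) (Wl_mono (min_le_left _ _) hz')).1
  · intro x y z hz hz'
    exact (h₁ x y z (Wl_mono (min_le_left _ _) hz) (Wl_mono (min_le_left _ _) hz')).2

end Pool.Agent.Lib.MP610fe3.Cf
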