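import Pool.Agent.Lib.MP_610fe3_an.Cf.Basic
import Pool.Agent.Lib.MP_610fe3_an.ExpClose

/-!
# Module DEC: exponential decay in local stable sets
-/

open Set Filter Function MeasureTheory
open scoped Topology

namespace Pool.Agent.Lib.MP610fe3.Cf

universe u v

theorem exists_dec {M : Type u} {W : Type v} [MetricSpace M] [CompactSpace M]
    [NormedAddCommGroup W] [NormedSpace ℝ W] {E : Emb M W} {f : M ≃ₜ M} (s : Split E f)
    (hs : s.Hyperbolic) : ∃ ε C l : ℝ, Dec f ε C l := by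
  obtain ⟨k₀, r, hr, h⟩ := s.exists_forward hs (show (0 : ℝ) < 1 / 8 by norm_num) le_rfl
  obtain ⟨L, r', hL1, hr', hlip⟩ := s.hD.exists_lip
  set N := k₀ + 1 with hN
  have hNpos : 0 < N := Nat.succ_pos _
  set θ : ℝ := (1 / 2 : ℝ) ^ (1 / (N : ℝ)) with hθ
  have hNR : (0 : ℝ) < N := by exact_mod_cast hNpos
  have hθpos : 0 < θ := Real.rpow_pos_of_pos (by norm_num) _
  have hθ1 : θ < 1 := Real.rpow_lt_one (by norm_num) (by norm_num) (by positivity)
  have hθN : θ ^ N = 1 / 2 := by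
    rw [hθ, ← Real.rpow_natCast, ← Real.rpow_mul (by norm_num), one_div_mul_cancel hNR.ne',
      Real.rpow_one]
  refine ⟨min (r / 2) (r' / 2), 2 * L ^ N, θ, lt_min (by positivity) (by positivity), ?_, hθpos,
    hθ1, fun x z hz n => ?_⟩
  · nlinarith [one_le_pow₀ hL1 (n := N)]
  have hz1 : ∀ m, dist (f^[m] z) (f^[m] x) < r := fun m =>
    lt_of_le_of_lt ((hz m).trans (min_le_left _ _)) (by linarith)
  have hz2 : ∀ m, dist (f^[m] z) (f^[m] x) < r' := fun m =>
    lt_of_le_of_lt ((hz m).trans (min_le_right _ _)) (by linarith)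
  have hdec := (h x z hz1).2
  have hLip : ∀ i j, dist (f^[i + j] z) (f^[i + j] x) ≤ L ^ j * dist (f^[i] z) (f^[i] x) := by
    intro i j
    induction j with
    | zero => simp
    | succ j ih =>
      have h2 := hlip (f^[i + j] z) (f^[i + j] x) (hz2 _)
      rw [← add_assoc, iterate_succ_apply', iterate_succ_apply']
      calc _ ≤ L * dist (f^[i + j] z) (f^[i + j] x) := h2
        _ ≤ L * (L ^ j * dist (f^[i] z) (f^[i] x)) := by gcongr
        _ = L ^ (j + 1) * dist (f^[i] z) (f^[i] x) := by ring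
  set q := n / N with hq
  set j := n % N with hj
  have hkq : N * q + j = n := Nat.div_add_mod n N
  have hjN : j < N := Nat.mod_lt _ hNpos
  have h1 := hLip (N * q) j
  rw [hkq] at h1
  have h2 := hdec q
  have h3 : (1 : ℝ) / 2 ^ q ≤ 2 * θ ^ n := by
    have e : (1 : ℝ) / 2 ^ q = θ ^ (N * q) := by
      rw [pow_mul, hθN, one_div_pow]
    rw [e]
    have e2 : θ ^ (N * q + N) ≤ θ ^ n := pow_le_pow_of_le_one hθpos.le hθ1.le (by omega)
    rw [pow_add, hθN] at e2
    linarith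
  have hLj : L ^ j ≤ L ^ N := pow_le_pow_right₀ hL1 hjN.le
  have hL0 : 0 ≤ L ^ N := by positivity
  calc dist (f^[n] z) (f^[n] x) ≤ L ^ j * dist (f^[N * q] z) (f^[N * q] x) := h1
    _ ≤ L ^ N * (dist z x / 2 ^ q) := mul_le_mul hLj h2 dist_nonneg hL0
    _ = L ^ N * (dist z x * (1 / 2 ^ q)) := by ring
    _ ≤ L ^ N * (dist z x * (2 * θ ^ n)) := by gcongr
    _ = 2 * L ^ N * θ ^ n * dist z x := by ring

theorem exists_cone {M : Type u} {W : Type v} [MetricSpace M] [CompactSpace M]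
    [NormedAddCommGroup W] [NormedSpace ℝ W] {E : Emb M W} {f : M ≃ₜ M} (s : Split E f)
    (hs : s.Hyperbolic) {η : ℝ} (hη : 0 < η) : ∃ ε : ℝ, 0 < ε ∧ ∀ x, ∀ z ∈ Wl f ε x,
      ‖E.e z - E.e x - s.S x (E.e z - E.e x)‖ ≤ η * dist z x := by
  obtain ⟨k, r, hr, h⟩ := s.exists_forward hs (ρ := min (η / 2) (1 / 8))
    (lt_min (by positivity) (by norm_num)) (min_le_right _ _)
  obtain ⟨r', hr', h'⟩ := E.tangent (η / 2) (by positivity)
  refine ⟨min (r / 2) (r' / 2), lt_min (by positivity) (by positivity), fun x z hz => ?_⟩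
  have hz1 : ∀ m, dist (f^[m] z) (f^[m] x) < r := fun m =>
    lt_of_le_of_lt ((hz m).trans (min_le_left _ _)) (by linarith)
  have hz2 : dist z x < r' := lt_of_le_of_lt ((hz 0).trans (min_le_right _ _)) (by linarith)
  have h1 := (h x z hz1).1
  have h2 := h' x z hz2
  have h3 : E.e z - E.e x - s.S x (E.e z - E.e x)
      = (E.e z - E.e x - E.P x (E.e z - E.e x)) + s.U x (E.e z - E.e x) := by
    rw [← s.add_apply']; abel
  rw [h3]
  refine (norm_add_le _ _).trans ?_
  have h4 : min (η / 2) (1 / 8) * dist z x ≤ η / 2 * dist z x :=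
    mul_le_mul_of_nonneg_right (min_le_left _ _) dist_nonneg
  linarith

theorem specDec : SpecDec.{u, v} := fun _ _ _ _ _ _ _ _ s hs =>
  ⟨exists_dec s hs, fun _ hη => exists_cone s hs hη⟩

end Pool.Agent.Lib.MP610fe3.Cf
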