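import Pool.Agent.Lib.MP_610fe3_an.Cf.Spec2
import Pool.Agent.Lib.MP_610fe3_an.Cf.Br
import Pool.Agent.Lib.MP_610fe3_an.Cf.Dec

/-!
# Module CRD: coordinates of local stable sets by projection to the stable space
-/

open Set Filter Function
open scoped Topology

namespace Pool.Agent.Lib.MP610fe3.Cf

universe u v

section

variable {M W : Type*} [MetricSpace M] [CompactSpace M] [NormedAddCommGroup W] [NormedSpace ℝ W]
  {E : Emb M W} {f : M ≃ₜ M}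

/-- The projection to the stable space is bilipschitz on local stable sets. -/
theorem crd_lower (s : Split E f) (hs : s.Hyperbolic) :
    ∃ ε : ℝ, 0 < ε ∧ ∀ x, ∀ z ∈ Wl f ε x, ∀ z' ∈ Wl f ε x,
      dist z z' ≤ 2 * ‖s.S x (E.e z - E.e z')‖ := by
  obtain ⟨ε₁, hε₁, h₁⟩ := br_cone s hs (η := 1 / 4) (by norm_num)
  obtain ⟨r₂, hr₂, h₂⟩ := s.swap.exists_unifU hs.swap (η := 1 / 4) (by norm_num)
  have hm : 0 < min (ε₁ / 2) (r₂ / 2) := lt_min (by positivity) (by positivity)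
  refine ⟨min (ε₁ / 2) (r₂ / 2), hm, fun x z hz z' hz' => ?_⟩
  have hzz : z ∈ Wl f ε₁ z' := by
    refine Wl_mono ?_ (Wl_trans (Wl_comm hz') hz)
    linarith [min_le_left (ε₁ / 2) (r₂ / 2)]
  have hd : dist z' x < r₂ := (hz' 0).trans_lt (by linarith [min_le_right (ε₁ / 2) (r₂ / 2)])
  have c1 := h₁ z' z hzz
  have c2 := h₂ x z' hd (E.e z - E.e z')
  simp only [Split.swap_U] at c2
  rw [E.dist_eq z z'] at c1 ⊢
  set v := E.e z - E.e z' with hv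
  have key : ‖v‖ ≤ ‖v - s.S z' v‖ + ‖s.S z' v - s.S x v‖ + ‖s.S x v‖ := by
    calc ‖v‖ = ‖(v - s.S z' v) + (s.S z' v - s.S x v) + s.S x v‖ := by congr 1; abel
      _ ≤ _ := norm_add₃_le
  linarith

/-- One step of the construction of points with prescribed coordinates. -/
theorem crd_step (s : Split E f) (hs : s.Hyperbolic) {θ ε' : ℝ} (hθ : 0 < θ) (hε' : 0 < ε') :
    ∃ r : ℝ, 0 < r ∧ ∀ x w, s.S x w = w → ‖w‖ ≤ r →
      ∃ z ∈ Wl f ε' x, ‖E.e z - E.e x - w‖ ≤ θ * ‖w‖ := by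
  obtain ⟨ε, C, hB⟩ := br M W E f s hs
  obtain ⟨K, hK1, hK⟩ := s.exists_bdd
  have hC1 := hB.one_le
  have hC0 : 0 < C := by linarith
  have hK0 : 0 < K := by linarith
  set T : ℝ := 2 * C + K + 2 * C * K + 2 * C with hT
  have hTpos : 0 < T := by positivity
  set η : ℝ := min 1 (θ / T) with hη
  have hηpos : 0 < η := lt_min one_pos (by positivity)
  have hη1 : η ≤ 1 := min_le_left _ _
  have hηT : η * T ≤ θ := by
    have : η ≤ θ / T := min_le_right _ _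
    calc η * T ≤ θ / T * T := mul_le_mul_of_nonneg_right this hTpos.le
      _ = θ := by field_simp
  obtain ⟨ε₁, hε₁, h₁⟩ := br_cone s hs hηpos
  obtain ⟨ε₂, hε₂, h₂⟩ := br_cone s.swap hs.swap hηpos
  obtain ⟨r₃, hr₃, h₃⟩ := s.exists_mixed hs hηpos
  obtain ⟨r₄, hr₄, h₄⟩ := E.exists_pt η hηpos
  set ε₀ : ℝ := min (min ε' ε) (min ε₁ ε₂) with hε₀
  have hε₀pos : 0 < ε₀ := lt_min (lt_min hε' hB.ε_pos) (lt_min hε₁ hε₂)
  have hε₀' : ε₀ ≤ ε' := (min_le_left _ _).trans (min_le_left _ _)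
  have hε₀ε : ε₀ ≤ ε := (min_le_left _ _).trans (min_le_right _ _)
  have hε₀₁ : ε₀ ≤ ε₁ := (min_le_right _ _).trans (min_le_left _ _)
  have hε₀₂ : ε₀ ≤ ε₂ := (min_le_right _ _).trans (min_le_right _ _)
  obtain ⟨δ, hδ, h₅⟩ := hB.exist ε₀ hε₀pos
  set r : ℝ := min (min (r₃ / 4) (r₄ / 2)) (δ / 4) with hr
  have hrpos : 0 < r := lt_min (lt_min (by positivity) (by positivity)) (by positivity)
  have hr3 : r ≤ r₃ / 4 := (min_le_left _ _).trans (min_le_left _ _)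
  have hr4 : r ≤ r₄ / 2 := (min_le_left _ _).trans (min_le_right _ _)
  have hrδ : r ≤ δ / 4 := min_le_right _ _
  refine ⟨r, hrpos, fun x w hSw hw => ?_⟩
  have hPw : E.P x w = w := by
    rw [← hSw, s.PS_apply]
  have hn : 0 ≤ ‖w‖ := norm_nonneg _
  obtain ⟨z₀, hz₀⟩ := h₄ x w (by linarith)
  rw [hPw] at hz₀
  have hd₀ : dist z₀ x ≤ 2 * ‖w‖ := by
    rw [E.dist_eq]
    calc ‖E.e z₀ - E.e x‖ = ‖(E.e z₀ - E.e x - w) + w‖ := by rw [sub_add_cancel]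
      _ ≤ η * ‖w‖ + ‖w‖ := (norm_add_le _ _).trans (add_le_add hz₀ le_rfl)
      _ ≤ 2 * ‖w‖ := by nlinarith
  have hd₀' : dist x z₀ ≤ 2 * ‖w‖ := by rw [dist_comm]; exact hd₀
  obtain ⟨z, hzx, hz0⟩ := h₅ x z₀ (by linarith)
  refine ⟨z, Wl_mono hε₀' hzx, ?_⟩
  have e1 : dist z x ≤ 2 * C * ‖w‖ := by
    refine (hB.left x z₀ z (Wl_mono hε₀ε hzx) (Wl_mono hε₀ε hz0)).trans ?_
    calc C * dist x z₀ ≤ C * (2 * ‖w‖) := mul_le_mul_of_nonneg_left hd₀' hC0.le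
      _ = _ := by ring
  have e2 : dist z z₀ ≤ 2 * C * ‖w‖ := by
    refine (hB.right x z₀ z (Wl_mono hε₀ε hzx) (Wl_mono hε₀ε hz0)).trans ?_
    calc C * dist x z₀ ≤ C * (2 * ‖w‖) := mul_le_mul_of_nonneg_left hd₀' hC0.le
      _ = _ := by ring
  have c1 := h₁ x z (Wl_mono hε₀₁ hzx)
  have c2 := h₂ z₀ z (Wl_mono hε₀₂ hz0)
  simp only [Split.swap_S] at c2
  have c3 := (h₃ x z₀ (by linarith)).2 (E.e z - E.e z₀)
  set v := E.e z - E.e x with hv
  set t := E.e z - E.e z₀ with ht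
  have htd : ‖t‖ = dist z z₀ := (E.dist_eq z z₀).symm
  have hvt : E.e z₀ - E.e x = v - t := by rw [hv, ht]; abel
  rw [hvt] at hz₀
  have d1 : ‖v - s.S x v‖ ≤ η * (2 * C * ‖w‖) := c1.trans (mul_le_mul_of_nonneg_left e1 hηpos.le)
  have d2 : ‖s.S x (t - s.U z₀ t)‖ ≤ K * (η * (2 * C * ‖w‖)) :=
    ((s.S x).le_of_opNorm_le (hK x).1 _).trans
      (mul_le_mul_of_nonneg_left (c2.trans (mul_le_mul_of_nonneg_left e2 hηpos.le)) hK0.le)
  have d3 : ‖s.S x (s.U z₀ t)‖ ≤ η * (2 * C * ‖w‖) := by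
    refine c3.trans (mul_le_mul_of_nonneg_left ?_ hηpos.le)
    rw [htd]; exact e2
  have d4 : ‖s.S x (v - t - w)‖ ≤ K * (η * ‖w‖) :=
    ((s.S x).le_of_opNorm_le (hK x).1 _).trans (mul_le_mul_of_nonneg_left hz₀ hK0.le)
  have key : v - w = (v - s.S x v)
      + (s.S x (v - t - w) + s.S x (t - s.U z₀ t) + s.S x (s.U z₀ t)) := by
    have k1 : s.S x (v - t - w) + s.S x (t - s.U z₀ t) + s.S x (s.U z₀ t) = s.S x v - w := by
      rw [← map_add, ← map_add]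
      have : v - t - w + (t - s.U z₀ t) + s.U z₀ t = v - w := by abel
      rw [this, map_sub, hSw]
    rw [k1]; abel
  rw [key]
  calc _ ≤ η * (2 * C * ‖w‖)
        + (K * (η * ‖w‖) + K * (η * (2 * C * ‖w‖)) + η * (2 * C * ‖w‖)) := by
        refine (norm_add_le _ _).trans (add_le_add d1 ?_)
        exact (norm_add_le _ _).trans (add_le_add ((norm_add_le _ _).trans (add_le_add d4 d2)) d3)
    _ = (η * T) * ‖w‖ := by rw [hT]; ring
    _ ≤ θ * ‖w‖ := mul_le_mul_of_nonneg_right hηT hn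

/-- The coordinate is onto small balls. -/
theorem crd_surj (s : Split E f) (hs : s.Hyperbolic) {ε' : ℝ} (hε' : 0 < ε') :
    ∃ r : ℝ, 0 < r ∧ ∀ x w, s.S x w = w → ‖w‖ ≤ r →
      ∃ z ∈ Wl f ε' x, s.S x (E.e z - E.e x) = w := by
  obtain ⟨ε, hε, hlow⟩ := crd_lower s hs
  obtain ⟨εD, C, l, hD⟩ := exists_dec s hs
  obtain ⟨K, hK1, hK⟩ := s.exists_bdd
  have hC1 := hD.one_le
  have hC0 : 0 < C := by linarith
  have hK0 : 0 < K := by linarith
  set ε₁ : ℝ := min ε' (min ε εD) with hε₁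
  have hε₁pos : 0 < ε₁ := lt_min hε' (lt_min hε hD.ε_pos)
  have hε₁' : ε₁ ≤ ε' := min_le_left _ _
  have hε₁ε : ε₁ ≤ ε := (min_le_right _ _).trans (min_le_left _ _)
  have hε₁D : ε₁ ≤ εD := (min_le_right _ _).trans (min_le_right _ _)
  obtain ⟨r₀, hr₀, hstep⟩ := crd_step s hs (θ := 1 / (4 * K ^ 2)) (ε' := ε₁ / 2)
    (by positivity) (by positivity)
  obtain ⟨r₂, hr₂, hunif⟩ := s.swap.exists_unifU hs.swap (η := 1 / (4 * K)) (by positivity)
  set r : ℝ := min (min (r₀ / K) (r₂ / 8)) (ε₁ / (8 * C)) with hr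
  have hrpos : 0 < r := lt_min (lt_min (by positivity) (by positivity)) (by positivity)
  have hr1 : K * r ≤ r₀ := by
    have : r ≤ r₀ / K := (min_le_left _ _).trans (min_le_left _ _)
    rw [le_div_iff₀ hK0] at this
    linarith
  have hr3 : r ≤ r₂ / 8 := (min_le_left _ _).trans (min_le_right _ _)
  have hr2 : 4 * C * r ≤ ε₁ / 2 := by
    have : r ≤ ε₁ / (8 * C) := min_le_right _ _
    rw [le_div_iff₀ (by positivity)] at this
    linarith
  refine ⟨r, hrpos, fun x w hSw hw => ?_⟩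
  -- minimize
  have hcont : ContinuousOn (fun z => ‖s.S x (E.e z - E.e x) - w‖) (Wl f ε₁ x) := by
    refine Continuous.continuousOn ?_
    exact (((s.S x).continuous.comp (E.isom.continuous.sub continuous_const)).sub
      continuous_const).norm
  obtain ⟨z, hz, hmin⟩ := (isClosed_Wl f ε₁ x).isCompact.exists_isMinOn
    ⟨x, mem_Wl_self hε₁pos.le⟩ hcont
  have hmin' : ∀ z' ∈ Wl f ε₁ x,
      ‖s.S x (E.e z - E.e x) - w‖ ≤ ‖s.S x (E.e z' - E.e x) - w‖ := fun z' hz' => hmin hz'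
  refine ⟨z, Wl_mono hε₁' hz, ?_⟩
  by_contra hne
  have hzε := Wl_mono hε₁ε hz
  have hm : 0 < ‖s.S x (E.e z - E.e x) - w‖ := norm_pos_iff.2 (sub_ne_zero.2 hne)
  have hmw : ‖s.S x (E.e z - E.e x) - w‖ ≤ ‖w‖ := by
    have := hmin' x (mem_Wl_self hε₁pos.le)
    rwa [sub_self, map_zero, zero_sub, norm_neg] at this
  have hψ : ‖s.S x (E.e z - E.e x)‖ ≤ 2 * ‖w‖ := by
    calc ‖s.S x (E.e z - E.e x)‖ = ‖(s.S x (E.e z - E.e x) - w) + w‖ := by rw [sub_add_cancel]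
      _ ≤ ‖w‖ + ‖w‖ := (norm_add_le _ _).trans (add_le_add hmw le_rfl)
      _ = _ := by ring
  have hdz : dist z x ≤ 4 * r := by
    have := hlow x z hzε x (mem_Wl_self hε.le)
    linarith
  -- `z` is well inside
  have hz2 : z ∈ Wl f (ε₁ / 2) x := by
    intro n
    have h1 := hD.dec x z (Wl_mono hε₁D hz) n
    have h3 : l ^ n ≤ 1 := pow_le_one₀ hD.l_pos.le hD.l_lt.le
    have hd0 : 0 ≤ dist z x := dist_nonneg
    calc dist (f^[n] z) (f^[n] x) ≤ C * l ^ n * dist z x := h1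
      _ ≤ C * 1 * (4 * r) := by gcongr
      _ = 4 * C * r := by ring
      _ ≤ ε₁ / 2 := hr2
  -- the new vector
  set w₁ : W := w - s.S x (E.e z - E.e x) with hw₁
  have hSw₁ : s.S x w₁ = w₁ := by rw [hw₁, map_sub, hSw, s.SS_apply]
  have hnw₁ : ‖w₁‖ = ‖s.S x (E.e z - E.e x) - w‖ := norm_sub_rev _ _
  have hSw'' : s.S z (s.S z w₁) = s.S z w₁ := s.SS_apply z w₁
  have hnw'' : ‖s.S z w₁‖ ≤ K * ‖w₁‖ := (s.S z).le_of_opNorm_le (hK z).1 _
  have hnw3 : ‖s.S z w₁‖ ≤ r₀ := by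
    refine hnw''.trans ?_
    calc K * ‖w₁‖ ≤ K * r := by
          rw [hnw₁]
          exact mul_le_mul_of_nonneg_left (hmw.trans hw) hK0.le
      _ ≤ r₀ := hr1
  obtain ⟨z', hz', hstep'⟩ := hstep z (s.S z w₁) hSw'' hnw3
  have hz'x : z' ∈ Wl f ε₁ x := by
    have := Wl_trans hz2 hz'
    rwa [add_halves] at this
  have hmin2 := hmin' z' hz'x
  have hu := hunif x z (by linarith) w₁
  simp only [Split.swap_U] at hu
  have hid : s.S x (E.e z' - E.e x) - w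
      = s.S x (E.e z' - E.e z - s.S z w₁) + s.S x (s.S z w₁ - s.S x w₁) := by
    have k1 : s.S x (s.S z w₁ - s.S x w₁) = s.S x (s.S z w₁) - w₁ := by
      rw [map_sub, s.SS_apply, hSw₁]
    have k2 : s.S x (E.e z' - E.e z - s.S z w₁)
        = s.S x (E.e z' - E.e x) - s.S x (E.e z - E.e x) - s.S x (s.S z w₁) := by
      rw [← map_sub, ← map_sub]; congr 1; abel
    rw [k1, k2, hw₁]; abel
  have e1 : ‖s.S x (E.e z' - E.e z - s.S z w₁)‖ ≤ K * (1 / (4 * K ^ 2) * (K * ‖w₁‖)) := by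
    refine ((s.S x).le_of_opNorm_le (hK x).1 _).trans (mul_le_mul_of_nonneg_left ?_ hK0.le)
    exact hstep'.trans (mul_le_mul_of_nonneg_left hnw'' (by positivity))
  have e2 : ‖s.S x (s.S z w₁ - s.S x w₁)‖ ≤ K * (1 / (4 * K) * ‖w₁‖) :=
    ((s.S x).le_of_opNorm_le (hK x).1 _).trans (mul_le_mul_of_nonneg_left hu hK0.le)
  have e3 : K * (1 / (4 * K ^ 2) * (K * ‖w₁‖)) = ‖w₁‖ / 4 := by field_simp
  have e4 : K * (1 / (4 * K) * ‖w₁‖) = ‖w₁‖ / 4 := by field_simp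
  have e5 : ‖s.S x (E.e z' - E.e x) - w‖ ≤ ‖w₁‖ / 2 := by
    rw [hid]
    refine (norm_add_le _ _).trans ?_
    linarith
  rw [← hnw₁] at hmin2 hm
  linarith

end

/-- Module CRD. -/
theorem specCrd : SpecCrd.{u, v} := by
  intro M W _ _ _ _ _ E f s hs
  obtain ⟨ε, hε, h⟩ := crd_lower s hs
  exact ⟨ε, 2, hε, by norm_num, h, fun ε' hε' => crd_surj s hs hε'⟩

end Pool.Agent.Lib.MP610fe3.Cf
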