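import Pool.Agent.Lib.MP_610fe3_an.Cf.Defs

/-!
# Elementary properties of the local stable sets (helper1)
-/

open Set Filter Function
open scoped Topology

namespace Pool.Agent.Lib.MP610fe3.Cf.H1

variable {M : Type*} [MetricSpace M] {f : M ≃ₜ M} {ε ε' : ℝ} {x y z : M}

theorem wl_self (hε : 0 ≤ ε) (x : M) : x ∈ Wl f ε x := fun k => by rw [dist_self]; exact hε

theorem wl_mono (h : z ∈ Wl f ε x) (hε : ε ≤ ε') : z ∈ Wl f ε' x := fun k => (h k).trans hε

theorem wl_symm (h : z ∈ Wl f ε x) : x ∈ Wl f ε z := fun k => by rw [dist_comm]; exact h k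

theorem wl_trans (h1 : z ∈ Wl f ε y) (h2 : y ∈ Wl f ε' x) : z ∈ Wl f (ε + ε') x := fun k =>
  (dist_triangle _ _ _).trans (add_le_add (h1 k) (h2 k))

theorem wl_dist (h : z ∈ Wl f ε x) : dist z x ≤ ε := h 0

theorem wl_image (h : z ∈ Wl f ε x) : f z ∈ Wl f ε (f x) := fun k => by
  have := h (k + 1)
  rwa [iterate_succ_apply, iterate_succ_apply] at this

theorem wl_iter (h : z ∈ Wl f ε x) (n : ℕ) : f^[n] z ∈ Wl f ε (f^[n] x) := fun k => by
  have := h (k + n)
  rwa [iterate_add_apply, iterate_add_apply] at this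

theorem wl_back (h : y ∈ Wl f.symm ε x) (hd : dist (f y) (f x) ≤ ε) :
    f y ∈ Wl f.symm ε (f x) := fun k => by
  cases k with
  | zero => exact hd
  | succ k =>
    rw [iterate_succ_apply, iterate_succ_apply, f.symm_apply_apply, f.symm_apply_apply]
    exact h k

/-- Points which are close in the past and during `n` steps in the future. -/
theorem wl_back_iter (h : y ∈ Wl f.symm ε x) {n : ℕ}
    (hd : ∀ k ≤ n, dist (f^[k] y) (f^[k] x) ≤ ε) : f^[n] y ∈ Wl f.symm ε (f^[n] x) := by
  induction n with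
  | zero => exact h
  | succ n ih =>
    rw [iterate_succ_apply', iterate_succ_apply']
    refine wl_back (ih fun k hk => hd k (by omega)) ?_
    rw [← iterate_succ_apply' f, ← iterate_succ_apply' f]
    exact hd (n + 1) le_rfl

theorem isClosed_wl (f : M ≃ₜ M) (ε : ℝ) : IsClosed {p : M × M | p.2 ∈ Wl f ε p.1} := by
  have : {p : M × M | p.2 ∈ Wl f ε p.1}
      = ⋂ k : ℕ, {p : M × M | dist (f^[k] p.2) (f^[k] p.1) ≤ ε} := by
    ext p
    simp [Wl]
  rw [this]
  refine isClosed_iInter fun k => isClosed_le ?_ continuous_const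
  exact ((f.continuous.iterate k).comp continuous_snd).dist
    ((f.continuous.iterate k).comp continuous_fst)

theorem an_pos {W : Type*} [NormedAddCommGroup W] [NormedSpace ℝ W] {E : Emb M W}
    {s : Split E f} (c : Conf s) (n : ℕ) (x : M) : 0 < c.an n x :=
  Finset.prod_pos fun _ _ => c.a_pos _

theorem symm_iter_iter (f : M ≃ₜ M) (n : ℕ) (x : M) : f.symm^[n] (f^[n] x) = x :=
  Function.LeftInverse.iterate f.symm_apply_apply n x

theorem iter_symm_iter (f : M ≃ₜ M) (n : ℕ) (x : M) : f^[n] (f.symm^[n] x) = x :=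
  Function.LeftInverse.iterate f.apply_symm_apply n x

end Pool.Agent.Lib.MP610fe3.Cf.H1
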