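import Pool.Agent.Lib.MP_610fe3_an.Gen.Public
import Pool.Agent.Lib.MP_610fe3_an.Defs

/-!
# Conformal Anosov diffeomorphisms: definition
-/

open Set Filter Function Bundle
open scoped Manifold ContDiff Topology

namespace Pool.Agent.Lib.MP610fe3.Cf

/-- The derivative of `f` is conformal on the family of subspaces `F`: at every point `x` it
multiplies the Riemannian norm of the vectors of `F x` by a positive factor depending only on
`x`. -/
def ConformalOn {V : Type*} [NormedAddCommGroup V] [NormedSpace ℝ V]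
    {M : Type*} [TopologicalSpace M] [ChartedSpace V M]
    [RiemannianBundle (fun x : M => TangentSpace 𝓘(ℝ, V) x)]
    (f : M → M) (F : ∀ x : M, Submodule ℝ (TangentSpace 𝓘(ℝ, V) x)) : Prop :=
  ∀ x, ∃ a : ℝ, 0 < a ∧ ∀ v ∈ F x, ‖mfderiv 𝓘(ℝ, V) 𝓘(ℝ, V) f x v‖ = a * ‖v‖

end Pool.Agent.Lib.MP610fe3.Cf
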