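import Pool.Agent.Lib.MP_610fe3_an.Cf.Assembly
import Pool.Agent.Lib.MP_610fe3_an.Cf.Public

/-!
# Assembly of the modules: manifolds
-/

open Set Filter Function MeasureTheory Bundle
open scoped Topology Manifold ContDiff

namespace Pool.Agent.Lib.MP610fe3.Cf

universe u v

section Symm

variable {V : Type v} [NormedAddCommGroup V] [NormedSpace ℝ V] {M : Type u} [TopologicalSpace M]
  [ChartedSpace V M] [RiemannianBundle (fun x : M => TangentSpace 𝓘(ℝ, V) x)]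

theorem norm_transport {x x' : M} (h : x' = x) (v : V) :
    ‖(show TangentSpace 𝓘(ℝ, V) x' from v)‖ = ‖(show TangentSpace 𝓘(ℝ, V) x from v)‖ := by
  subst h; rfl

omit [RiemannianBundle (fun x : M => TangentSpace 𝓘(ℝ, V) x)] in
theorem mem_transport (F : ∀ x : M, Submodule ℝ (TangentSpace 𝓘(ℝ, V) x)) {x x' : M}
    (h : x' = x) (v : V) :
    (show TangentSpace 𝓘(ℝ, V) x' from v) ∈ F x' ↔ (show TangentSpace 𝓘(ℝ, V) x from v) ∈ F x := by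
  subst h; rfl

omit [RiemannianBundle (fun x : M => TangentSpace 𝓘(ℝ, V) x)] in
theorem mfderiv_symm_apply [IsManifold 𝓘(ℝ, V) 1 M] (f : M ≃ₘ^1⟮𝓘(ℝ, V), 𝓘(ℝ, V)⟯ M) (x : M)
    (v : V) :
    (show V from mfderiv 𝓘(ℝ, V) 𝓘(ℝ, V) f.symm (f x)
      (mfderiv 𝓘(ℝ, V) 𝓘(ℝ, V) f x (show TangentSpace 𝓘(ℝ, V) x from v))) = v := by
  have h1 : MDifferentiableAt 𝓘(ℝ, V) 𝓘(ℝ, V) f.symm (f x) :=
    f.symm.contMDiff.mdifferentiable (by norm_num) _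
  have h2 : MDifferentiableAt 𝓘(ℝ, V) 𝓘(ℝ, V) f x := f.contMDiff.mdifferentiable (by norm_num) _
  have h3 := mfderiv_comp x h1 h2
  have h4 : (f.symm : M → M) ∘ f = id := by
    funext y; exact f.symm_apply_apply y
  rw [h4, mfderiv_id] at h3
  have h5 := congrArg (fun L : V →L[ℝ] V => L v) h3
  exact h5.symm

theorem IsAnosovSplitting.symm [IsManifold 𝓘(ℝ, V) 1 M] {f : M ≃ₘ^1⟮𝓘(ℝ, V), 𝓘(ℝ, V)⟯ M}
    {Es Eu : ∀ x : M, Submodule ℝ (TangentSpace 𝓘(ℝ, V) x)}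
    (h : Gen.IsAnosovSplitting f Es Eu) : Gen.IsAnosovSplitting f.symm Eu Es := by
  have key : ∀ F : ∀ x : M, Submodule ℝ (TangentSpace 𝓘(ℝ, V) x),
      (∀ x, (F x).map (mfderiv 𝓘(ℝ, V) 𝓘(ℝ, V) f x).toLinearMap = F (f x)) →
      ∀ x, (F x).map (mfderiv 𝓘(ℝ, V) 𝓘(ℝ, V) f.symm x).toLinearMap = F (f.symm x) := by
    intro F hF y
    obtain ⟨x, hx⟩ : ∃ x, f x = y := ⟨f.symm y, f.apply_symm_apply y⟩
    subst hx
    rw [← hF x]
    ext w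
    have h1 : w ∈ F (f.symm (f x)) ↔ (show TangentSpace 𝓘(ℝ, V) x from w) ∈ F x :=
      mem_transport F (f.symm_apply_apply x) w
    rw [h1]
    constructor
    · rintro ⟨_, ⟨v, hv, rfl⟩, rfl⟩
      have h2 := mfderiv_symm_apply f x v
      have h3 : (show TangentSpace 𝓘(ℝ, V) x from
          (mfderiv 𝓘(ℝ, V) 𝓘(ℝ, V) f.symm (f x)) (mfderiv 𝓘(ℝ, V) 𝓘(ℝ, V) f x v)) = v := h2
      show (show TangentSpace 𝓘(ℝ, V) x from
          (mfderiv 𝓘(ℝ, V) 𝓘(ℝ, V) f.symm (f x)) (mfderiv 𝓘(ℝ, V) 𝓘(ℝ, V) f x v)) ∈ F x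
      rw [h3]
      exact hv
    · intro hw
      refine ⟨mfderiv 𝓘(ℝ, V) 𝓘(ℝ, V) f x (show TangentSpace 𝓘(ℝ, V) x from w),
        ⟨(show TangentSpace 𝓘(ℝ, V) x from w), hw, rfl⟩, ?_⟩
      exact mfderiv_symm_apply f x w
  refine ⟨fun x => (h.isCompl x).symm, key Eu h.map_u, key Es h.map_s, ?_⟩
  obtain ⟨C, l, hC, hl, hl1, H⟩ := h.estimate
  exact ⟨C, l, hC, hl, hl1, fun k x => ⟨(H k x).2, (H k x).1⟩⟩

theorem ConformalOn.symm [IsManifold 𝓘(ℝ, V) 1 M] {f : M ≃ₘ^1⟮𝓘(ℝ, V), 𝓘(ℝ, V)⟯ M}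
    {F : ∀ x : M, Submodule ℝ (TangentSpace 𝓘(ℝ, V) x)}
    (h : ConformalOn f F)
    (hF : ∀ x, (F x).map (mfderiv 𝓘(ℝ, V) 𝓘(ℝ, V) f x).toLinearMap = F (f x)) :
    ConformalOn f.symm F := by
  intro y
  obtain ⟨x, hx⟩ : ∃ x, f x = y := ⟨f.symm y, f.apply_symm_apply y⟩
  subst hx
  obtain ⟨a, ha, hc⟩ := h x
  refine ⟨a⁻¹, inv_pos.2 ha, fun w hw => ?_⟩
  rw [← hF x] at hw
  obtain ⟨v, hv, rfl⟩ := hw
  have h1 := hc v hv
  have h2 := mfderiv_symm_apply f x v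
  have h3 := norm_transport (V := V) (f.symm_apply_apply x)
    (show V from mfderiv 𝓘(ℝ, V) 𝓘(ℝ, V) f.symm (f x)
      (mfderiv 𝓘(ℝ, V) 𝓘(ℝ, V) f x (show TangentSpace 𝓘(ℝ, V) x from v)))
  have h4 : ‖mfderiv 𝓘(ℝ, V) 𝓘(ℝ, V) f.symm (f x) (mfderiv 𝓘(ℝ, V) 𝓘(ℝ, V) f x v)‖ = ‖v‖ := by
    refine Eq.trans h3 ?_
    congr 1
  show ‖mfderiv 𝓘(ℝ, V) 𝓘(ℝ, V) f.symm (f x) (mfderiv 𝓘(ℝ, V) 𝓘(ℝ, V) f x v)‖
    = a⁻¹ * ‖mfderiv 𝓘(ℝ, V) 𝓘(ℝ, V) f x v‖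
  rw [h4, h1, inv_mul_cancel_left₀ ha.ne']

end Symm

theorem topTransitive_symm {X : Type*} [TopologicalSpace X] (f : X ≃ₜ X)
    (h : TopTransitive f.symm) : TopTransitive f := by
  intro U V hU hV hUne hVne
  obtain ⟨k, z, ⟨y, hy, rfl⟩, hz⟩ := h V U hV hU hVne hUne
  refine ⟨k, f^[k] (f.symm^[k] y), ⟨f.symm^[k] y, hz, rfl⟩, ?_⟩
  have h1 : ∀ (k : ℕ) (y : X), f^[k] (f.symm^[k] y) = y := by
    intro k
    induction k with
    | zero => intro y; rfl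
    | succ n ih =>
      intro y
      rw [iterate_succ_apply, iterate_succ_apply', f.apply_symm_apply, ih]
  rw [h1]
  exact hy

theorem finrank_map_aux {A B : Type*} [AddCommGroup A] [Module ℝ A] [AddCommGroup B] [Module ℝ B]
    (L : A →ₗ[ℝ] B) (hL : Injective L) (F : Submodule ℝ A) :
    Module.finrank ℝ (F.map L) = Module.finrank ℝ F :=
  (LinearEquiv.finrank_eq (Submodule.equivMapOfInjective L hL F)).symm

theorem finrank_compl_aux {T : Type*} {_ : AddCommGroup T} {_ : Module ℝ T}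
    {F G : Submodule ℝ T} (h : IsCompl F G) (_ : FiniteDimensional ℝ T) :
    Module.finrank ℝ F + Module.finrank ℝ G = Module.finrank ℝ T :=
  Submodule.finrank_add_eq_of_isCompl h

/-- The manifold theorem in the case where the stable dimension is two, with a given embedding. -/
theorem mfd_aux (hFlat : SpecFlat.{u, 0}) (hBr : SpecBr.{u, 0}) (hSurj : SpecSurj.{u, 0})
    (hLin : SpecLinHol.{u, 0}) (hHolo : SpecHolo.{u, 0}) (hBox : SpecBox.{u, 0})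
    (hSum : SpecSum.{u}) (hLen : SpecLen.{u, 0}) (hVan : SpecVanish.{u, 0})
    (hFin : SpecFinal.{u, 0}) (hSq : SpecSq.{u, v}) (hCo : SpecConf.{u, v})
    (hMe : SpecMeas.{u, v})
    {V : Type v} [NormedAddCommGroup V] [NormedSpace ℝ V]
    [FiniteDimensional ℝ V] {M : Type u} [MetricSpace M] [CompactSpace M]
    [ConnectedSpace M] [ChartedSpace V M] [IsManifold 𝓘(ℝ, V) ∞ M]
    [RiemannianBundle (fun x : M => TangentSpace 𝓘(ℝ, V) x)]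
    [IsContinuousRiemannianBundle V (fun x : M => TangentSpace 𝓘(ℝ, V) x)]
    {N : ℕ} (e : M → EuclideanSpace ℝ (Fin N)) (hiso : Isometry e)
    (he : ContMDiff 𝓘(ℝ, V) (𝓡 N) ∞ e)
    (hinj : ∀ x, Injective (mfderiv 𝓘(ℝ, V) (𝓡 N) e x))
    (f : M ≃ₘ^1⟮𝓘(ℝ, V), 𝓘(ℝ, V)⟯ M) (hf : ContMDiff 𝓘(ℝ, V) 𝓘(ℝ, V) 2 f)
    (hf' : ContMDiff 𝓘(ℝ, V) 𝓘(ℝ, V) 2 f.symm)
    (Es Eu : ∀ x : M, Submodule ℝ (TangentSpace 𝓘(ℝ, V) x)) (hA : Gen.IsAnosovSplitting f Es Eu)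
    (hcs : ConformalOn f Es) (hcu : ConformalOn f Eu)
    (h2 : ∀ x, Module.finrank ℝ (Es x) = 2) (hu : ∀ x, 2 ≤ Module.finrank ℝ (Eu x)) :
    TopTransitive f := by
  let : MeasurableSpace M := borel M
  have : BorelSpace M := ⟨rfl⟩
  obtain ⟨E, hE, hEP, hr⟩ := Gen.exists_emb e hiso he hinj
  subst hE
  obtain ⟨s, hs, hsS, hsU⟩ := Gen.exists_split E he hinj hr f Es Eu hA
  obtain ⟨C₀, hsq⟩ := hSq V N M E he hinj hEP f.toHomeomorph hf hf' s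
  obtain ⟨c⟩ := hCo V N M E he hinj hEP f.toHomeomorph f.contMDiff s hs Es hsS hcs
  have hcu' : ConformalOn f.symm Eu := hcu.symm hA.map_u
  obtain ⟨cu⟩ := hCo V N M E he hinj hEP f.toHomeomorph.symm f.symm.contMDiff s.swap hs.swap Eu
    hsU hcu'
  obtain ⟨μ, κ, hμf, hκ, hμ⟩ := hMe V N M E.e hiso he hinj
  have hdim : ∀ x, Module.finrank ℝ (Eu x) = Module.finrank ℝ V - 2 := by
    intro x
    have h3 : Module.finrank ℝ (Es x) + Module.finrank ℝ (Eu x) = Module.finrank ℝ V :=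
      finrank_compl_aux (hA.isCompl x) ‹FiniteDimensional ℝ V›
    have := h2 x
    omega
  have hrank : ∀ (F : ∀ x : M, Submodule ℝ (TangentSpace 𝓘(ℝ, V) x)) (x : M)
      (G : Submodule ℝ (EuclideanSpace ℝ (Fin N))),
      G = (F x).map (mfderiv 𝓘(ℝ, V) (𝓡 N) E.e x).toLinearMap →
      Module.finrank ℝ G = Module.finrank ℝ (F x) := by
    intro F x G hG
    have h1 := congrArg (fun G : Submodule ℝ (EuclideanSpace ℝ (Fin N)) => Module.finrank ℝ G) hG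
    exact h1.trans (finrank_map_aux (mfderiv 𝓘(ℝ, V) (𝓡 N) E.e x).toLinearMap (hinj x) (F x))
  set u := Module.finrank ℝ V - 2 with hudef
  obtain ⟨x₀⟩ : Nonempty M := inferInstance
  have hu2 : 2 ≤ u := by rw [← hdim x₀]; exact hu x₀
  have hV : Module.finrank ℝ V = 2 + u := by omega
  have hct := abstract_main hFlat hBr hSurj hLin hHolo hBox hSum hLen hVan hFin μ s hs hsq c cu u
    (fun x => (hrank Es x _ (hsS x)).trans (h2 x)) (fun x => (hrank Eu x _ (hsU x)).trans (hdim x))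
    hu2 hκ
    (by rw [← hV]; exact hμ)
  exact topTransitive_of_shadowing (s.shadowing hs) hct

/-- The manifold theorem in the case where the stable dimension is two. -/
theorem mfd_main (hFlat : SpecFlat.{u, 0}) (hBr : SpecBr.{u, 0}) (hSurj : SpecSurj.{u, 0})
    (hLin : SpecLinHol.{u, 0}) (hHolo : SpecHolo.{u, 0}) (hBox : SpecBox.{u, 0})
    (hSum : SpecSum.{u}) (hLen : SpecLen.{u, 0}) (hVan : SpecVanish.{u, 0})
    (hFin : SpecFinal.{u, 0}) (hSq : SpecSq.{u, v}) (hCo : SpecConf.{u, v})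
    (hMe : SpecMeas.{u, v})
    {V : Type v} [NormedAddCommGroup V] [NormedSpace ℝ V]
    [FiniteDimensional ℝ V] {M : Type u} [TopologicalSpace M] [CompactSpace M] [T2Space M]
    [ConnectedSpace M] [ChartedSpace V M] [IsManifold 𝓘(ℝ, V) ∞ M]
    [RiemannianBundle (fun x : M => TangentSpace 𝓘(ℝ, V) x)]
    [IsContinuousRiemannianBundle V (fun x : M => TangentSpace 𝓘(ℝ, V) x)]
    (f : M ≃ₘ^1⟮𝓘(ℝ, V), 𝓘(ℝ, V)⟯ M) (hf : ContMDiff 𝓘(ℝ, V) 𝓘(ℝ, V) 2 f)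
    (hf' : ContMDiff 𝓘(ℝ, V) 𝓘(ℝ, V) 2 f.symm)
    (Es Eu : ∀ x : M, Submodule ℝ (TangentSpace 𝓘(ℝ, V) x)) (hA : Gen.IsAnosovSplitting f Es Eu)
    (hcs : ConformalOn f Es) (hcu : ConformalOn f Eu)
    (h2 : ∀ x, Module.finrank ℝ (Es x) = 2) (hu : ∀ x, 2 ≤ Module.finrank ℝ (Eu x)) :
    TopTransitive f := by
  obtain ⟨N, e, he, hemb, hinj⟩ := exists_embedding_euclidean_of_compact (I := 𝓘(ℝ, V)) (M := M)
  let : MetricSpace M := hemb.isEmbedding.comapMetricSpace e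
  have hiso : Isometry e := hemb.isEmbedding.to_isometry
  exact mfd_aux hFlat hBr hSurj hLin hHolo hBox hSum hLen hVan hFin hSq hCo hMe e hiso he hinj f
    hf hf' Es Eu hA hcs hcu h2 hu

/-- The manifold theorem. -/
theorem mfd_full (hFlat : SpecFlat.{u, 0}) (hBr : SpecBr.{u, 0}) (hSurj : SpecSurj.{u, 0})
    (hLin : SpecLinHol.{u, 0}) (hHolo : SpecHolo.{u, 0}) (hBox : SpecBox.{u, 0})
    (hSum : SpecSum.{u}) (hLen : SpecLen.{u, 0}) (hVan : SpecVanish.{u, 0})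
    (hFin : SpecFinal.{u, 0}) (hSq : SpecSq.{u, v}) (hCo : SpecConf.{u, v})
    (hMe : SpecMeas.{u, v})
    {V : Type v} [NormedAddCommGroup V] [NormedSpace ℝ V]
    [FiniteDimensional ℝ V] {M : Type u} [TopologicalSpace M] [CompactSpace M] [T2Space M]
    [ConnectedSpace M] [ChartedSpace V M] [IsManifold 𝓘(ℝ, V) ∞ M]
    [RiemannianBundle (fun x : M => TangentSpace 𝓘(ℝ, V) x)]
    [IsContinuousRiemannianBundle V (fun x : M => TangentSpace 𝓘(ℝ, V) x)]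
    (f : M ≃ₘ^1⟮𝓘(ℝ, V), 𝓘(ℝ, V)⟯ M) (hf : ContMDiff 𝓘(ℝ, V) 𝓘(ℝ, V) 2 f)
    (hf' : ContMDiff 𝓘(ℝ, V) 𝓘(ℝ, V) 2 f.symm)
    (Es Eu : ∀ x : M, Submodule ℝ (TangentSpace 𝓘(ℝ, V) x)) (hA : Gen.IsAnosovSplitting f Es Eu)
    (hcs : ConformalOn f Es) (hcu : ConformalOn f Eu)
    (hdim : (∀ x, Module.finrank ℝ (Es x) = 2 ∧ 2 ≤ Module.finrank ℝ (Eu x)) ∨
      (∀ x, Module.finrank ℝ (Eu x) = 2 ∧ 2 ≤ Module.finrank ℝ (Es x))) :
    TopTransitive f := by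
  have : IsManifold 𝓘(ℝ, V) 1 M := IsManifold.of_le (m := 1) (n := ∞) (by norm_num)
  rcases hdim with h | h
  · exact mfd_main hFlat hBr hSurj hLin hHolo hBox hSum hLen hVan hFin hSq hCo hMe f
      hf hf' Es Eu hA hcs hcu (fun x => (h x).1) (fun x => (h x).2)
  · have h1 := mfd_main hFlat hBr hSurj hLin hHolo hBox hSum hLen hVan hFin hSq hCo hMe f.symm
      hf' hf Eu Es (IsAnosovSplitting.symm hA) (hcu.symm hA.map_u) (hcs.symm hA.map_s)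
      (fun x => (h x).1) (fun x => (h x).2)
    exact topTransitive_symm f.toHomeomorph h1

end Pool.Agent.Lib.MP610fe3.Cf
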