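import Pool.Agent.Lib.MP_610fe3_an.Cf.Spec
import Pool.Agent.Lib.MP_610fe3_an.Commute

/-!
# Module MFD1: second order estimates for `C^2` diffeomorphisms (helper4)
-/

open Set Filter Function Bundle
open scoped Manifold ContDiff Topology

namespace Pool.Agent.Lib.MP610fe3.Cf.Mfd

open Gen

lemma two_le_infty : (2 : WithTop ℕ∞) ≤ ∞ := by
  change ((2 : ℕ∞) : WithTop ℕ∞) ≤ ((⊤ : ℕ∞) : WithTop ℕ∞)
  exact WithTop.coe_le_coe.2 le_top

/-- uniform constants on a compact space -/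
lemma unif_const {X : Type*} [TopologicalSpace X] [CompactSpace X] {Φ Ψ : X → ℝ}
    (hΨ : ∀ p, 0 ≤ Ψ p) (h : ∀ p0, ∃ C : ℝ, ∀ᶠ p in 𝓝 p0, Φ p ≤ C * Ψ p) :
    ∃ C : ℝ, ∀ p, Φ p ≤ C * Ψ p := by
  choose C hC using h
  obtain ⟨t, -, ht⟩ := isCompact_univ.elim_nhds_subcover (fun p0 => {p | Φ p ≤ C p0 * Ψ p})
    (fun p _ => hC p)
  refine ⟨∑ p0 ∈ t, |C p0|, fun p => ?_⟩
  have h1 := ht (mem_univ p)
  rw [mem_iUnion₂] at h1
  obtain ⟨p0, hp0, hp⟩ := h1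
  have h2 : C p0 ≤ ∑ p0 ∈ t, |C p0| :=
    (le_abs_self _).trans
      (Finset.single_le_sum (f := fun p => |C p|) (fun i _ => abs_nonneg _) hp0)
  exact le_trans hp (mul_le_mul_of_nonneg_right h2 (hΨ p))

/-- estimates near the diagonal are global estimates -/
lemma unif_pairs {M : Type*} [MetricSpace M] [CompactSpace M] {Φ : M × M → ℝ} (hΦ : Continuous Φ)
    (k : ℕ) (h : ∀ x0 : M, ∃ C : ℝ, ∀ᶠ p : M × M in 𝓝 (x0, x0), Φ p ≤ C * dist p.1 p.2 ^ k) :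
    ∃ C : ℝ, ∀ p : M × M, Φ p ≤ C * dist p.1 p.2 ^ k := by
  apply unif_const (fun p => by positivity)
  rintro ⟨a, b⟩
  by_cases hab : a = b
  · subst hab
    exact h a
  · have hpos : 0 < dist a b ^ k := by
      have := dist_pos.2 hab
      positivity
    have c1 : Continuous fun p : M × M => dist p.1 p.2 ^ k := by fun_prop
    refine ⟨(|Φ (a, b)| + 1) / (dist a b ^ k / 2), ?_⟩
    have e1 : ∀ᶠ p in 𝓝 (a, b), Φ p < |Φ (a, b)| + 1 := by
      refine hΦ.continuousAt.eventually_lt continuousAt_const ?_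
      linarith [le_abs_self (Φ (a, b))]
    have e2 : ∀ᶠ p : M × M in 𝓝 (a, b), dist a b ^ k / 2 < dist p.1 p.2 ^ k := by
      refine continuousAt_const.eventually_lt c1.continuousAt ?_
      simp only
      linarith
    filter_upwards [e1, e2] with p h1 h2
    have h3 : 0 ≤ (|Φ (a, b)| + 1) / (dist a b ^ k / 2) := by positivity
    calc Φ p ≤ |Φ (a, b)| + 1 := h1.le
      _ = (|Φ (a, b)| + 1) / (dist a b ^ k / 2) * (dist a b ^ k / 2) := by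
          field_simp
      _ ≤ (|Φ (a, b)| + 1) / (dist a b ^ k / 2) * dist p.1 p.2 ^ k :=
          mul_le_mul_of_nonneg_left h2.le h3

/-- Taylor formula of second order, locally uniform -/
lemma taylor2 {V F : Type*} [NormedAddCommGroup V] [NormedSpace ℝ V] [NormedAddCommGroup F]
    [NormedSpace ℝ F] {g : V → F} {v0 : V} (hg : ContDiffAt ℝ 2 g v0) :
    ∃ C : ℝ, 0 ≤ C ∧ ∀ᶠ p : V × V in 𝓝 (v0, v0),
      ‖g p.1 - g p.2 - fderiv ℝ g p.2 (p.1 - p.2)‖ ≤ C * ‖p.1 - p.2‖ ^ 2 := by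
  have h1 : ContDiffAt ℝ 1 (fderiv ℝ g) v0 := hg.fderiv_right (by norm_num)
  obtain ⟨K, t, ht, hK⟩ := h1.exists_lipschitzOnWith
  have h2 : ∀ᶠ v in 𝓝 v0, DifferentiableAt ℝ g v :=
    (hg.eventually (by norm_num)).mono fun v hv => hv.differentiableAt (by norm_num)
  obtain ⟨r, hr, hball⟩ := Metric.mem_nhds_iff.1 (inter_mem ht h2)
  refine ⟨K, K.2, ?_⟩
  have e : Metric.ball v0 r ×ˢ Metric.ball v0 r ∈ 𝓝 (v0, v0) :=
    prod_mem_nhds (Metric.ball_mem_nhds _ hr) (Metric.ball_mem_nhds _ hr)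
  filter_upwards [e] with p hp
  have hs : segment ℝ p.2 p.1 ⊆ Metric.ball v0 r := (convex_ball v0 r).segment_subset hp.2 hp.1
  have h3 := (convex_segment p.2 p.1).norm_image_sub_le_of_norm_fderiv_le' (𝕜 := ℝ) (f := g)
    (φ := fderiv ℝ g p.2) (C := K * ‖p.1 - p.2‖) (fun c hc => (hball (hs hc)).2)
    (fun c hc => by
      have h4 := hK.norm_sub_le (hball (hs hc)).1 (hball hp.2).1
      refine h4.trans ?_
      exact mul_le_mul_of_nonneg_left (norm_sub_le_of_mem_segment hc) K.2)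
    (left_mem_segment ℝ _ _) (right_mem_segment ℝ _ _)
  calc _ ≤ _ := h3
    _ = K * ‖p.1 - p.2‖ ^ 2 := by ring

section pinv

variable {N : ℕ} {V : Type*} [NormedAddCommGroup V] [NormedSpace ℝ V] [FiniteDimensional ℝ V]

lemma contDiffAt_pinv (A : V →L[ℝ] EE N) (hA : Injective A) : ContDiffAt ℝ 1 pinv A := by
  have : CompleteSpace V := FiniteDimensional.complete ℝ V
  obtain ⟨G, hG⟩ := gram_equiv A hA
  have h1 : ContDiff ℝ 1 (fun B : V →L[ℝ] EE N => tr B) := by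
    have key : ∀ L : (V →L[ℝ] EE N) →L[ℝ] ((EE N →L[ℝ] ℝ) →L[ℝ] (V →L[ℝ] ℝ)),
        ContDiff ℝ 1 L := by
      intro L
      exact ContinuousLinearMap.contDiff (𝕜 := ℝ) (E := V →L[ℝ] EE N)
        (F := (EE N →L[ℝ] ℝ) →L[ℝ] (V →L[ℝ] ℝ)) L
    have a2 : ContDiff ℝ 1
        (fun _ : V →L[ℝ] EE N => (innerSL ℝ : EE N →L[ℝ] EE N →L[ℝ] ℝ)) := contDiff_const
    exact (key _).clm_comp a2
  have h2 : ContDiff ℝ 1 (fun B : V →L[ℝ] EE N => tr B ∘L B) := h1.clm_comp contDiff_id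
  have h3 : ContDiffAt ℝ 1
      (ContinuousLinearMap.inverse : (V →L[ℝ] (V →L[ℝ] ℝ)) → ((V →L[ℝ] ℝ) →L[ℝ] V))
      (tr A ∘L A) := by
    rw [← hG]
    exact contDiffAt_map_inverse G
  have h4 : ContDiffAt ℝ 1 (fun B : V →L[ℝ] EE N => ContinuousLinearMap.inverse (tr B ∘L B)) A :=
    ContDiffAt.comp (f := fun B : V →L[ℝ] EE N => tr B ∘L B) A h3 h2.contDiffAt
  exact h4.clm_comp h1.contDiffAt

end pinv

section local_

variable {N N' : ℕ} {V : Type*} [NormedAddCommGroup V] [NormedSpace ℝ V] [FiniteDimensional ℝ V]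
  {M : Type*} [MetricSpace M]
  [ChartedSpace V M] [IsManifold 𝓘(ℝ, V) ∞ M]

omit [FiniteDimensional ℝ V] in
lemma contDiffAt_loc2 {F : M → EE N} (hF : ContMDiff 𝓘(ℝ, V) (𝓡 N) 2 F) (x0 x : M)
    (hx : x ∈ (extChartAt 𝓘(ℝ, V) x0).source) :
    ContDiffAt ℝ 2 (loc F x0) (extChartAt 𝓘(ℝ, V) x0 x) := by
  have : IsManifold 𝓘(ℝ, V) 2 M := IsManifold.of_le (n := ∞) two_le_infty
  have h1 : ContMDiffOn 𝓘(ℝ, V) 𝓘(ℝ, V) 2 (extChartAt 𝓘(ℝ, V) x0).symm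
      (extChartAt 𝓘(ℝ, V) x0).target := contMDiffOn_extChartAt_symm x0
  have h2 : ContMDiffOn 𝓘(ℝ, V) (𝓡 N) 2 (F ∘ (extChartAt 𝓘(ℝ, V) x0).symm)
      (extChartAt 𝓘(ℝ, V) x0).target := hF.comp_contMDiffOn h1
  exact (contMDiffOn_iff_contDiffOn.1 h2).contDiffAt
    ((isOpen_extChartAt_target x0).mem_nhds ((extChartAt 𝓘(ℝ, V) x0).map_source hx))

/-- The chart distance is bounded by a multiple of the embedded distance near `x0`. -/
lemma chart_le {e : M → EE N}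
    (he : ContMDiff 𝓘(ℝ, V) (𝓡 N) 1 e) (hiso : Isometry e) (hinj : ∀ x, Injective (dF V e x))
    (x0 : M) : ∃ c : ℝ, 0 ≤ c ∧ ∀ᶠ p : M × M in 𝓝 (x0, x0),
      ‖extChartAt 𝓘(ℝ, V) x0 p.1 - extChartAt 𝓘(ℝ, V) x0 p.2‖ ≤ c * dist p.1 p.2 := by
  have h0 : x0 ∈ (extChartAt 𝓘(ℝ, V) x0).source := mem_extChartAt_source x0
  set A0 := fderiv ℝ (loc e x0) (extChartAt 𝓘(ℝ, V) x0 x0) with hA0
  have hA0inj : Injective A0 := fderiv_loc_inj he hinj x0 x0 h0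
  set L := pinv A0 with hL
  have hLA : ∀ v, L (A0 v) = v := pinv_apply A0 hA0inj
  set c := ‖L‖ with hc
  have hc0 : 0 ≤ c := norm_nonneg _
  set ε : ℝ := 1 / (2 * (c + 1)) with hε
  have hεpos : 0 < ε := by positivity
  have hε1 : c * ε ≤ 1 / 2 := by
    rw [hε, mul_one_div, div_le_div_iff₀ (by positivity) (by norm_num)]
    linarith
  refine ⟨2 * c, by positivity, ?_⟩
  have e1 := (tendsto_chart_prod (V := V) x0).eventually (strict_loc he x0 hεpos)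
  have e3 : ∀ᶠ p : M × M in 𝓝 (x0, x0), p.1 ∈ (extChartAt 𝓘(ℝ, V) x0).source :=
    (continuous_fst.tendsto (x0, x0)).eventually (extChartAt_source_mem_nhds (I := 𝓘(ℝ, V)) x0)
  have e4 : ∀ᶠ p : M × M in 𝓝 (x0, x0), p.2 ∈ (extChartAt 𝓘(ℝ, V) x0).source :=
    (continuous_snd.tendsto (x0, x0)).eventually (extChartAt_source_mem_nhds (I := 𝓘(ℝ, V)) x0)
  filter_upwards [e1, e3, e4] with p h1 h3 h4
  rw [loc_apply x0 _ h3, loc_apply x0 _ h4] at h1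
  set a := extChartAt 𝓘(ℝ, V) x0 p.2
  set b := extChartAt 𝓘(ℝ, V) x0 p.1
  have hd : ‖e p.1 - e p.2‖ = dist p.1 p.2 := by rw [← dist_eq_norm, hiso.dist_eq]
  have h6 : b - a = L (e p.1 - e p.2) - L (e p.1 - e p.2 - A0 (b - a)) := by
    rw [← map_sub]
    have : e p.1 - e p.2 - (e p.1 - e p.2 - A0 (b - a)) = A0 (b - a) := by abel
    rw [this, hLA]
  have h7 : ‖b - a‖ ≤ c * dist p.1 p.2 + c * (ε * ‖b - a‖) := by
    calc ‖b - a‖ = ‖L (e p.1 - e p.2) - L (e p.1 - e p.2 - A0 (b - a))‖ := congrArg _ h6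
      _ ≤ ‖L (e p.1 - e p.2)‖ + ‖L (e p.1 - e p.2 - A0 (b - a))‖ := norm_sub_le _ _
      _ ≤ c * ‖e p.1 - e p.2‖ + c * ‖e p.1 - e p.2 - A0 (b - a)‖ :=
        add_le_add (L.le_opNorm _) (L.le_opNorm _)
      _ ≤ c * dist p.1 p.2 + c * (ε * ‖b - a‖) := by
        rw [hd]
        have := mul_le_mul_of_nonneg_left h1 hc0
        linarith
  have h8 : c * (ε * ‖b - a‖) ≤ 1 / 2 * ‖b - a‖ := by
    have := mul_le_mul_of_nonneg_right hε1 (norm_nonneg (b - a))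
    linarith
  have : 2 * c * dist p.1 p.2 = 2 * (c * dist p.1 p.2) := by ring
  rw [this]
  linarith

/-- `KF` is locally Lipschitz -/
lemma local_lip_KF {e : M → EE N} {F : M → EE N'} (he : ContMDiff 𝓘(ℝ, V) (𝓡 N) 2 e)
    (hF : ContMDiff 𝓘(ℝ, V) (𝓡 N') 2 F) (hiso : Isometry e) (hinj : ∀ x, Injective (dF V e x))
    (x0 : M) : ∃ C : ℝ, ∀ᶠ p : M × M in 𝓝 (x0, x0),
      ‖KF V e F p.1 - KF V e F p.2‖ ≤ C * dist p.1 p.2 ^ 1 := by
  have he1 : ContMDiff 𝓘(ℝ, V) (𝓡 N) 1 e := he.of_le (by norm_num)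
  have hF1 : ContMDiff 𝓘(ℝ, V) (𝓡 N') 1 F := hF.of_le (by norm_num)
  have h0 : x0 ∈ (extChartAt 𝓘(ℝ, V) x0).source := mem_extChartAt_source x0
  obtain ⟨c, hc0, hc⟩ := chart_le he1 hiso hinj x0
  have d1 : ContDiffAt ℝ 1 (fderiv ℝ (loc (V := V) e x0)) (extChartAt 𝓘(ℝ, V) x0 x0) :=
    (contDiffAt_loc2 he x0 x0 h0).fderiv_right (by norm_num)
  have d2 : ContDiffAt ℝ 1 (fderiv ℝ (loc (V := V) F x0)) (extChartAt 𝓘(ℝ, V) x0 x0) :=
    (contDiffAt_loc2 hF x0 x0 h0).fderiv_right (by norm_num)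
  have d3 : ContDiffAt ℝ 1 (fun v => pinv (fderiv ℝ (loc (V := V) e x0) v))
      (extChartAt 𝓘(ℝ, V) x0 x0) :=
    ContDiffAt.comp (g := pinv) (extChartAt 𝓘(ℝ, V) x0 x0)
      (contDiffAt_pinv _ (fderiv_loc_inj he1 hinj x0 x0 h0)) d1
  have d4 : ContDiffAt ℝ 1 (fun v => fderiv ℝ (loc (V := V) F x0) v ∘L
      pinv (fderiv ℝ (loc (V := V) e x0) v)) (extChartAt 𝓘(ℝ, V) x0 x0) := d2.clm_comp d3
  obtain ⟨K, t, ht, hK⟩ := d4.exists_lipschitzOnWith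
  refine ⟨K * c, ?_⟩
  have e0 := (tendsto_chart_prod (V := V) x0).eventually (prod_mem_nhds ht ht)
  have e3 : ∀ᶠ p : M × M in 𝓝 (x0, x0), p.1 ∈ (extChartAt 𝓘(ℝ, V) x0).source :=
    (continuous_fst.tendsto (x0, x0)).eventually (extChartAt_source_mem_nhds (I := 𝓘(ℝ, V)) x0)
  have e4 : ∀ᶠ p : M × M in 𝓝 (x0, x0), p.2 ∈ (extChartAt 𝓘(ℝ, V) x0).source :=
    (continuous_snd.tendsto (x0, x0)).eventually (extChartAt_source_mem_nhds (I := 𝓘(ℝ, V)) x0)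
  filter_upwards [e0, e3, e4, hc] with p h1 h3 h4 h5
  rw [KF_eq he1 hF1 hinj x0 _ h3, KF_eq he1 hF1 hinj x0 _ h4, pow_one]
  refine (hK.norm_sub_le h1.1 h1.2).trans ?_
  rw [mul_assoc]
  exact mul_le_mul_of_nonneg_left h5 K.2

/-- second order approximation, locally -/
lemma local_second {e : M → EE N} {F : M → EE N'} (he : ContMDiff 𝓘(ℝ, V) (𝓡 N) 2 e)
    (hF : ContMDiff 𝓘(ℝ, V) (𝓡 N') 2 F) (hiso : Isometry e) (hinj : ∀ x, Injective (dF V e x))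
    (x0 : M) : ∃ C : ℝ, ∀ᶠ p : M × M in 𝓝 (x0, x0),
      ‖F p.1 - F p.2 - KF V e F p.2 (e p.1 - e p.2)‖ ≤ C * dist p.1 p.2 ^ 2 := by
  have he1 : ContMDiff 𝓘(ℝ, V) (𝓡 N) 1 e := he.of_le (by norm_num)
  have hF1 : ContMDiff 𝓘(ℝ, V) (𝓡 N') 1 F := hF.of_le (by norm_num)
  have h0 : x0 ∈ (extChartAt 𝓘(ℝ, V) x0).source := mem_extChartAt_source x0
  obtain ⟨c, hc0, hc⟩ := chart_le he1 hiso hinj x0
  obtain ⟨C1, hC1, t1⟩ := taylor2 (contDiffAt_loc2 he x0 x0 h0)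
  obtain ⟨C2, hC2, t2⟩ := taylor2 (contDiffAt_loc2 hF x0 x0 h0)
  have e1 := (tendsto_chart_prod (V := V) x0).eventually t1
  have e2 := (tendsto_chart_prod (V := V) x0).eventually t2
  have e3 : ∀ᶠ p : M × M in 𝓝 (x0, x0), p.1 ∈ (extChartAt 𝓘(ℝ, V) x0).source :=
    (continuous_fst.tendsto (x0, x0)).eventually (extChartAt_source_mem_nhds (I := 𝓘(ℝ, V)) x0)
  have e4 : ∀ᶠ p : M × M in 𝓝 (x0, x0), p.2 ∈ (extChartAt 𝓘(ℝ, V) x0).source :=
    (continuous_snd.tendsto (x0, x0)).eventually (extChartAt_source_mem_nhds (I := 𝓘(ℝ, V)) x0)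
  set k := ‖KF V e F x0‖ + 1 with hk
  have e5 : ∀ᶠ p : M × M in 𝓝 (x0, x0), ‖KF V e F p.2‖ < k := by
    have h1 : Tendsto (fun p : M × M => ‖KF V e F p.2‖) (𝓝 (x0, x0)) (𝓝 ‖KF V e F x0‖) :=
      ((continuous_KF he1 hF1 hinj).norm.tendsto x0).comp (continuous_snd.tendsto (x0, x0))
    exact h1.eventually_lt_const (by linarith)
  have hk0 : 0 ≤ k := by positivity
  refine ⟨(C2 + k * C1) * c ^ 2, ?_⟩
  filter_upwards [e1, e2, e3, e4, e5, hc] with p h1 h2 h3 h4 h5 h6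
  rw [loc_apply x0 _ h3, loc_apply x0 _ h4] at h1 h2
  set a := extChartAt 𝓘(ℝ, V) x0 p.2
  set b := extChartAt 𝓘(ℝ, V) x0 p.1
  have hKA : KF V e F p.2 (fderiv ℝ (loc e x0) a (b - a)) = fderiv ℝ (loc F x0) a (b - a) := by
    rw [KF_eq he1 hF1 hinj x0 _ h4, ContinuousLinearMap.comp_apply,
      pinv_apply _ (fderiv_loc_inj he1 hinj x0 _ h4)]
  have h9 : F p.1 - F p.2 - KF V e F p.2 (e p.1 - e p.2)
      = (F p.1 - F p.2 - fderiv ℝ (loc F x0) a (b - a))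
        - KF V e F p.2 (e p.1 - e p.2 - fderiv ℝ (loc e x0) a (b - a)) := by
    rw [map_sub (KF V e F p.2) (e p.1 - e p.2), hKA]
    abel
  rw [h9]
  have h10 : ‖b - a‖ ^ 2 ≤ c ^ 2 * dist p.1 p.2 ^ 2 := by
    rw [← mul_pow]
    exact pow_le_pow_left₀ (norm_nonneg _) h6 2
  calc ‖(F p.1 - F p.2 - fderiv ℝ (loc F x0) a (b - a))
        - KF V e F p.2 (e p.1 - e p.2 - fderiv ℝ (loc e x0) a (b - a))‖
      ≤ ‖F p.1 - F p.2 - fderiv ℝ (loc F x0) a (b - a)‖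
        + ‖KF V e F p.2 (e p.1 - e p.2 - fderiv ℝ (loc e x0) a (b - a))‖ := norm_sub_le _ _
    _ ≤ C2 * ‖b - a‖ ^ 2 + k * (C1 * ‖b - a‖ ^ 2) := by
        refine add_le_add h2 ?_
        refine ((KF V e F p.2).le_of_opNorm_le h5.le _).trans ?_
        exact mul_le_mul_of_nonneg_left h1 hk0
    _ = (C2 + k * C1) * ‖b - a‖ ^ 2 := by ring
    _ ≤ (C2 + k * C1) * (c ^ 2 * dist p.1 p.2 ^ 2) :=
        mul_le_mul_of_nonneg_left h10 (by positivity)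
    _ = (C2 + k * C1) * c ^ 2 * dist p.1 p.2 ^ 2 := by ring

variable [CompactSpace M]

lemma lip_KF {e : M → EE N} {F : M → EE N'} (he : ContMDiff 𝓘(ℝ, V) (𝓡 N) 2 e)
    (hF : ContMDiff 𝓘(ℝ, V) (𝓡 N') 2 F) (hiso : Isometry e) (hinj : ∀ x, Injective (dF V e x)) :
    ∃ C : ℝ, ∀ x z : M, ‖KF V e F z - KF V e F x‖ ≤ C * dist z x := by
  have he1 : ContMDiff 𝓘(ℝ, V) (𝓡 N) 1 e := he.of_le (by norm_num)
  have hF1 : ContMDiff 𝓘(ℝ, V) (𝓡 N') 1 F := hF.of_le (by norm_num)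
  have hcont : Continuous fun p : M × M => ‖KF V e F p.1 - KF V e F p.2‖ := by
    have := continuous_KF he1 hF1 hinj
    exact ((this.comp continuous_fst).sub (this.comp continuous_snd)).norm
  obtain ⟨C, hC⟩ := unif_pairs hcont 1 (fun x0 => local_lip_KF he hF hiso hinj x0)
  exact ⟨C, fun x z => by simpa using hC (z, x)⟩

lemma second_KF {e : M → EE N} {F : M → EE N'} (he : ContMDiff 𝓘(ℝ, V) (𝓡 N) 2 e)
    (hF : ContMDiff 𝓘(ℝ, V) (𝓡 N') 2 F) (hiso : Isometry e) (hinj : ∀ x, Injective (dF V e x)) :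
    ∃ C : ℝ, ∀ x z : M, ‖F z - F x - KF V e F x (e z - e x)‖ ≤ C * dist z x ^ 2 := by
  have he1 : ContMDiff 𝓘(ℝ, V) (𝓡 N) 1 e := he.of_le (by norm_num)
  have hF1 : ContMDiff 𝓘(ℝ, V) (𝓡 N') 1 F := hF.of_le (by norm_num)
  have hcont : Continuous fun p : M × M =>
      ‖F p.1 - F p.2 - KF V e F p.2 (e p.1 - e p.2)‖ := by
    have h1 := continuous_KF he1 hF1 hinj
    have h2 := hF.continuous
    have h3 := he.continuous
    exact (((h2.comp continuous_fst).sub (h2.comp continuous_snd)).sub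
      ((h1.comp continuous_snd).clm_apply
        ((h3.comp continuous_fst).sub (h3.comp continuous_snd)))).norm
  obtain ⟨C, hC⟩ := unif_pairs hcont 2 (fun x0 => local_second he hF hiso hinj x0)
  exact ⟨C, fun x z => hC (z, x)⟩

end local_

section main

variable {V : Type*} [NormedAddCommGroup V] [NormedSpace ℝ V] [FiniteDimensional ℝ V] {N : ℕ}
  {M : Type*} [MetricSpace M] [CompactSpace M] [ChartedSpace V M] [IsManifold 𝓘(ℝ, V) ∞ M]
  (E : Emb M (EuclideanSpace ℝ (Fin N)))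

/-- the derivative of a `C^1` map is `KF` -/
lemma HasD_eq_KF (he : ContMDiff 𝓘(ℝ, V) (𝓡 N) ∞ E.e)
    (hinj : ∀ x, Injective (mfderiv 𝓘(ℝ, V) (𝓡 N) E.e x))
    (hP : ∀ x, E.P x = Gen.KF V E.e E.e x)
    {h : M → M} (hh : ContMDiff 𝓘(ℝ, V) 𝓘(ℝ, V) 1 h)
    {D : M → EuclideanSpace ℝ (Fin N) →L[ℝ] EuclideanSpace ℝ (Fin N)} (H : HasD E h D) (x : M) :
    D x = KF V E.e (E.e ∘ h) x := by
  have hinj' : ∀ x, Injective (dF V E.e x) := hinj
  have hrange : ∀ x, (E.P x).range = (mfderiv 𝓘(ℝ, V) (𝓡 N) E.e x).range := by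
    intro x
    rw [hP x]
    exact range_KF E.e hinj' x
  obtain ⟨D', hD', hD'2⟩ := exists_hasD (V := V) E he hinj hrange h hh
  rw [H.unique hD' x]
  have he1 : ContMDiff 𝓘(ℝ, V) (𝓡 N) 1 E.e := he.of_le (by exact_mod_cast le_top)
  ext1 w
  have h1 := congrArg (fun L => L w) (hD'.right x)
  simp only [ContinuousLinearMap.comp_apply] at h1
  rw [← h1, hP x]
  have h2 : KF V E.e E.e x w = mfderiv 𝓘(ℝ, V) (𝓡 N) E.e x (pinv (dF V E.e x) w) := rfl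
  rw [h2, hD'2]
  have h3 := mfderiv_comp (I := 𝓘(ℝ, V)) (I' := 𝓘(ℝ, V)) (I'' := 𝓡 N) (f := h) x
      (he1.mdifferentiable (by norm_num) (h x)) (hh.mdifferentiable (by norm_num) x)
  unfold KF dF
  rw [h3]
  rfl

end main

end Pool.Agent.Lib.MP610fe3.Cf.Mfd

namespace Pool.Agent.Lib.MP610fe3.Cf

open Gen Mfd

universe u v

theorem specSq : SpecSq.{u, v} := by
  intro V _ _ _ N M _ _ _ _ E he hinj hP f hf hfs s
  have hinj' : ∀ x, Injective (dF V E.e x) := hinj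
  have he2 : ContMDiff 𝓘(ℝ, V) (𝓡 N) 2 E.e := he.of_le two_le_infty
  have hf1 : ContMDiff 𝓘(ℝ, V) 𝓘(ℝ, V) 1 f := hf.of_le (by norm_num)
  have hfs1 : ContMDiff 𝓘(ℝ, V) 𝓘(ℝ, V) 1 f.symm := hfs.of_le (by norm_num)
  have hD : ∀ x, s.D x = KF V E.e (E.e ∘ f) x := HasD_eq_KF E he hinj hP hf1 s.hD
  have hDi : ∀ x, s.Di x = KF V E.e (E.e ∘ f.symm) x := HasD_eq_KF E he hinj hP hfs1 s.hDi
  have hF : ContMDiff 𝓘(ℝ, V) (𝓡 N) 2 (E.e ∘ f) := he2.comp hf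
  have hFi : ContMDiff 𝓘(ℝ, V) (𝓡 N) 2 (E.e ∘ f.symm) := he2.comp hfs
  obtain ⟨C1, h1⟩ := second_KF he2 hF E.isom hinj'
  obtain ⟨C2, h2⟩ := second_KF he2 hFi E.isom hinj'
  obtain ⟨C3, h3⟩ := second_KF he2 he2 E.isom hinj'
  obtain ⟨C4, h4⟩ := lip_KF he2 hF E.isom hinj'
  obtain ⟨C5, h5⟩ := lip_KF he2 hFi E.isom hinj'
  set C := |C1| + |C2| + |C3| + |C4| + |C5| with hC
  have a1 : C1 ≤ C := by
    have := le_abs_self C1
    have := abs_nonneg C2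
    have := abs_nonneg C3
    have := abs_nonneg C4
    have := abs_nonneg C5
    linarith
  have a2 : C2 ≤ C := by
    have := le_abs_self C2
    have := abs_nonneg C1
    have := abs_nonneg C3
    have := abs_nonneg C4
    have := abs_nonneg C5
    linarith
  have a3 : C3 ≤ C := by
    have := le_abs_self C3
    have := abs_nonneg C1
    have := abs_nonneg C2
    have := abs_nonneg C4
    have := abs_nonneg C5
    linarith
  have a4 : C4 ≤ C := by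
    have := le_abs_self C4
    have := abs_nonneg C1
    have := abs_nonneg C2
    have := abs_nonneg C3
    have := abs_nonneg C5
    linarith
  have a5 : C5 ≤ C := by
    have := le_abs_self C5
    have := abs_nonneg C1
    have := abs_nonneg C2
    have := abs_nonneg C3
    have := abs_nonneg C4
    linarith
  refine ⟨C, ⟨?_, ?_, ?_, ?_, ?_⟩⟩
  · intro x z
    rw [hD x]
    exact (h1 x z).trans (mul_le_mul_of_nonneg_right a1 (by positivity))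
  · intro x z
    rw [hDi x]
    exact (h2 x z).trans (mul_le_mul_of_nonneg_right a2 (by positivity))
  · intro x z
    rw [hP x]
    exact (h3 x z).trans (mul_le_mul_of_nonneg_right a3 (by positivity))
  · intro x z
    rw [hD x, hD z]
    exact (h4 x z).trans (mul_le_mul_of_nonneg_right a4 dist_nonneg)
  · intro x z
    rw [hDi x, hDi z]
    exact (h5 x z).trans (mul_le_mul_of_nonneg_right a5 dist_nonneg)

end Pool.Agent.Lib.MP610fe3.Cf
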