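import Pool.Agent.Lib.MP_610fe3_an.Cf.Dec

/-!
# Module GROW: growth of pairs in local stable sets
-/

open Set Filter Function MeasureTheory
open scoped Topology

namespace Pool.Agent.Lib.MP610fe3.Cf

universe u v

theorem geom_sum_le_inv {l : ℝ} (h0 : 0 ≤ l) (h1 : l < 1) (n : ℕ) :
    ∑ k ∈ Finset.range n, l ^ k ≤ (1 - l)⁻¹ := by
  have h2 : (∑ k ∈ Finset.range n, l ^ k) * (1 - l) = 1 - l ^ n := geom_sum_mul_neg l n
  have h3 : 0 < 1 - l := by linarith
  rw [← one_div, le_div_iff₀ h3, h2]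
  have : 0 ≤ l ^ n := pow_nonneg h0 n
  linarith

/-- a real sequence with multiplicative errors -/
theorem real_growth {g a β : ℕ → ℝ} (hg : ∀ k, 0 ≤ g k) (ha : ∀ k, 0 ≤ a k)
    (hβ : ∀ k, 0 ≤ β k) (h : ∀ k, |g (k + 1) - a k * g k| ≤ a k * g k * β k)
    (hs : ∀ n, ∑ k ∈ Finset.range n, β k ≤ 1 / 2) (n : ℕ) :
    (∏ k ∈ Finset.range n, a k) * g 0 ≤ 2 * g n ∧
    g n ≤ 2 * ((∏ k ∈ Finset.range n, a k) * g 0) := by
  have hp : ∀ n, 0 ≤ ∏ k ∈ Finset.range n, a k := fun n => Finset.prod_nonneg fun k _ => ha k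
  have h1 : ∀ n, (∏ k ∈ Finset.range n, a k) * g 0 * (1 - ∑ k ∈ Finset.range n, β k) ≤ g n := by
    intro n
    induction n with
    | zero => simp
    | succ n ih =>
      rw [Finset.prod_range_succ, Finset.sum_range_succ]
      have h2 := (abs_le.1 (h n)).1
      have h3 := hs n
      have h3' := hs (n + 1)
      rw [Finset.sum_range_succ] at h3'
      have h4 : 0 ≤ ∑ k ∈ Finset.range n, β k := Finset.sum_nonneg fun k _ => hβ k
      have h5 : a n * g n * (1 - β n) ≤ g (n + 1) := by linarith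
      have h6 : 0 ≤ 1 - β n := by linarith
      have h7 := mul_le_mul_of_nonneg_left ih (mul_nonneg (ha n) h6)
      have h8 : 0 ≤ (∏ k ∈ Finset.range n, a k) * g 0 := mul_nonneg (hp n) (hg 0)
      have h9 : (∏ k ∈ Finset.range n, a k) * a n * g 0
          * (1 - (∑ k ∈ Finset.range n, β k + β n))
          ≤ a n * (1 - β n) * ((∏ k ∈ Finset.range n, a k) * g 0
            * (1 - ∑ k ∈ Finset.range n, β k)) := by
        have h10 : 1 - (∑ k ∈ Finset.range n, β k + β n)
            ≤ (1 - β n) * (1 - ∑ k ∈ Finset.range n, β k) := by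
          nlinarith [mul_nonneg (hβ n) h4]
        have h11 := mul_le_mul_of_nonneg_left h10 (mul_nonneg (ha n) h8)
        linarith
      linarith
  have h2 : ∀ n, (1 - ∑ k ∈ Finset.range n, β k) * g n
      ≤ (∏ k ∈ Finset.range n, a k) * g 0 := by
    intro n
    induction n with
    | zero => simp
    | succ n ih =>
      rw [Finset.prod_range_succ, Finset.sum_range_succ]
      have h2 := (abs_le.1 (h n)).2
      have h3 := hs (n + 1)
      rw [Finset.sum_range_succ] at h3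
      have h4 : 0 ≤ ∑ k ∈ Finset.range n, β k := Finset.sum_nonneg fun k _ => hβ k
      have h5 : g (n + 1) ≤ a n * g n * (1 + β n) := by linarith
      have h6 : 0 ≤ 1 - (∑ k ∈ Finset.range n, β k + β n) := by linarith
      have h7 := mul_le_mul_of_nonneg_left h5 h6
      have h8 : (1 - (∑ k ∈ Finset.range n, β k + β n)) * (1 + β n)
          ≤ 1 - ∑ k ∈ Finset.range n, β k := by
        nlinarith [mul_nonneg (hβ n) h4, mul_nonneg (hβ n) (hβ n)]
      have h9 := mul_le_mul_of_nonneg_right h8 (mul_nonneg (ha n) (hg n))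
      have h10 := mul_le_mul_of_nonneg_left ih (ha n)
      linarith
  have h3 := h1 n
  have h4 := h2 n
  have h5 := hs n
  have h6 : 0 ≤ (∏ k ∈ Finset.range n, a k) * g 0 := mul_nonneg (hp n) (hg 0)
  constructor
  · nlinarith
  · nlinarith [hg n]

/-- second order estimate for the unstable component -/
theorem exists_cone_sq {M : Type u} {W : Type v} [MetricSpace M] [CompactSpace M]
    [NormedAddCommGroup W] [NormedSpace ℝ W] {E : Emb M W} {f : M ≃ₜ M} (s : Split E f)
    (hs : s.Hyperbolic) {C₀ : ℝ} (hsq : Sq s C₀) {ε C l : ℝ} (hd : Dec f ε C l) :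
    ∃ C' : ℝ, 1 ≤ C' ∧ ∀ x, ∀ z ∈ Wl f ε x,
      ‖E.e z - E.e x - s.S x (E.e z - E.e x)‖ ≤ C' * dist z x ^ 2 := by
  obtain ⟨K, hK1, hK⟩ := s.exists_bdd
  obtain ⟨Ch, lh, hCh, hlh, hlh1, H⟩ := hs
  have hC := hd.one_le
  have hl := hd.l_pos
  have hl1 := hd.l_lt
  set A : ℝ := |C₀| with hA
  have hA0 : 0 ≤ A := abs_nonneg _
  refine ⟨A + Ch * (A * C ^ 2) * (1 - lh)⁻¹ + 1, ?_, fun x z hz => ?_⟩
  · have : 0 < (1 - lh)⁻¹ := inv_pos.2 (by linarith)
    have h1 : 0 ≤ Ch * (A * C ^ 2) * (1 - lh)⁻¹ := by positivity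
    linarith
  set v : ℕ → W := fun k => E.e (f^[k] z) - E.e (f^[k] x) with hv
  set d := dist z x with hdd
  have hd0 : 0 ≤ d := dist_nonneg
  have hvn : ∀ k, ‖v k‖ ≤ C * l ^ k * d := by
    intro k
    rw [hv]
    simp only
    rw [← E.dist_eq]
    exact hd.dec x z hz k
  -- backward recursion
  have hrec : ∀ k, ‖s.U (f^[k] x) (v k)
      - s.Di (f^[k + 1] x) (s.U (f^[k + 1] x) (v (k + 1)))‖ ≤ 0 + K * (A * (C * d) ^ 2) := by
    intro k
    have h1 := hsq.bwd (f^[k + 1] x) (f^[k + 1] z)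
    rw [iterate_succ_apply', iterate_succ_apply', f.symm_apply_apply, f.symm_apply_apply] at h1
    have h2 := s.DiU_apply (f^[k + 1] x) (v (k + 1))
    have h3 : f.symm (f^[k + 1] x) = f^[k] x := by
      rw [iterate_succ_apply', f.symm_apply_apply]
    rw [h2, h3, ← map_sub, zero_add]
    refine ((s.U _).le_of_opNorm_le (hK _).2 _).trans ?_
    refine mul_le_mul_of_nonneg_left ?_ (by linarith)
    have h4 : v k - s.Di (f^[k + 1] x) (v (k + 1)) = E.e (f^[k] z) - E.e (f^[k] x)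
        - s.Di (f (f^[k] x)) (E.e (f (f^[k] z)) - E.e (f (f^[k] x))) := by
      simp only [hv, iterate_succ_apply']
    rw [h4]
    refine h1.trans ?_
    have h5 : dist (f (f^[k] z)) (f (f^[k] x)) ≤ C * d := by
      have h6 := hd.dec x z hz (k + 1)
      rw [iterate_succ_apply', iterate_succ_apply'] at h6
      refine h6.trans ?_
      have h7 : l ^ (k + 1) ≤ 1 := pow_le_one₀ hl.le hl1.le
      have : C * l ^ (k + 1) ≤ C * 1 := mul_le_mul_of_nonneg_left h7 (by linarith)
      rw [mul_one] at this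
      exact mul_le_mul_of_nonneg_right this hd0
    have h8 : C₀ ≤ A := le_abs_self _
    calc C₀ * dist (f (f^[k] z)) (f (f^[k] x)) ^ 2
        ≤ A * dist (f (f^[k] z)) (f (f^[k] x)) ^ 2 := by gcongr
      _ ≤ A * (C * d) ^ 2 := by gcongr
  -- the partial sums, estimated with the hyperbolic estimate
  have hsum : ∀ n, ‖s.U x (v 0) - iterD s.Di f.symm n (f^[n] x) (s.U (f^[n] x) (v n))‖
      ≤ ∑ k ∈ Finset.range n, Ch * lh ^ k * (A * (C * d) ^ 2) := by
    intro n
    induction n with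
    | zero => simp [iterD]
    | succ n ih =>
      rw [Finset.sum_range_succ]
      have h1 : iterD s.Di f.symm (n + 1) (f^[n + 1] x) (s.U (f^[n + 1] x) (v (n + 1)))
          = iterD s.Di f.symm n (f^[n] x)
            (s.Di (f^[n + 1] x) (s.U (f^[n + 1] x) (v (n + 1)))) := by
        show iterD s.Di f.symm n (f.symm (f^[n + 1] x))
          (s.Di (f^[n + 1] x) (s.U (f^[n + 1] x) (v (n + 1)))) = _
        rw [iterate_succ_apply', f.symm_apply_apply]
      have h2 : s.U x (v 0)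
          - iterD s.Di f.symm (n + 1) (f^[n + 1] x) (s.U (f^[n + 1] x) (v (n + 1)))
          = (s.U x (v 0) - iterD s.Di f.symm n (f^[n] x) (s.U (f^[n] x) (v n)))
            + iterD s.Di f.symm n (f^[n] x) (s.U (f^[n] x)
              (v n - s.Di (f^[n + 1] x) (v (n + 1)))) := by
        have h3 : s.U (f^[n] x) (s.Di (f^[n + 1] x) (v (n + 1)))
            = s.Di (f^[n + 1] x) (s.U (f^[n + 1] x) (v (n + 1))) := by
          rw [s.DiU_apply]
          congr 2
          rw [iterate_succ_apply', f.symm_apply_apply]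
        have h4 : s.U (f^[n] x) (v n - s.Di (f^[n + 1] x) (v (n + 1)))
            = s.U (f^[n] x) (v n) - s.Di (f^[n + 1] x) (s.U (f^[n + 1] x) (v (n + 1))) := by
          rw [← h3]
          exact map_sub (s.U (f^[n] x)) _ _
        have h5 : iterD s.Di f.symm n (f^[n] x) (s.U (f^[n] x) (v n)
            - s.Di (f^[n + 1] x) (s.U (f^[n + 1] x) (v (n + 1))))
            = iterD s.Di f.symm n (f^[n] x) (s.U (f^[n] x) (v n))
              - iterD s.Di f.symm n (f^[n] x)
                (s.Di (f^[n + 1] x) (s.U (f^[n + 1] x) (v (n + 1)))) :=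
          map_sub (iterD s.Di f.symm n (f^[n] x)) _ _
        rw [h1, h4, h5]
        abel
      rw [h2]
      refine (norm_add_le _ _).trans (add_le_add ih ?_)
      refine (H n (f^[n] x) _).2.trans ?_
      refine mul_le_mul_of_nonneg_left ?_ (by positivity)
      have h1 := hsq.bwd (f^[n + 1] x) (f^[n + 1] z)
      rw [iterate_succ_apply', iterate_succ_apply', f.symm_apply_apply, f.symm_apply_apply] at h1
      have h4 : v n - s.Di (f^[n + 1] x) (v (n + 1)) = E.e (f^[n] z) - E.e (f^[n] x)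
          - s.Di (f (f^[n] x)) (E.e (f (f^[n] z)) - E.e (f (f^[n] x))) := by
        simp only [hv, iterate_succ_apply']
      rw [h4]
      refine h1.trans ?_
      have h5 : dist (f (f^[n] z)) (f (f^[n] x)) ≤ C * d := by
        have h6 := hd.dec x z hz (n + 1)
        rw [iterate_succ_apply', iterate_succ_apply'] at h6
        refine h6.trans ?_
        have h7 : l ^ (n + 1) ≤ 1 := pow_le_one₀ hl.le hl1.le
        have : C * l ^ (n + 1) ≤ C * 1 := mul_le_mul_of_nonneg_left h7 (by linarith)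
        rw [mul_one] at this
        exact mul_le_mul_of_nonneg_right this hd0
      have h8 : C₀ ≤ A := le_abs_self _
      calc C₀ * dist (f (f^[n] z)) (f (f^[n] x)) ^ 2
          ≤ A * dist (f (f^[n] z)) (f (f^[n] x)) ^ 2 := by gcongr
        _ ≤ A * (C * d) ^ 2 := by gcongr
  have hU : ‖s.U x (v 0)‖ ≤ Ch * (A * (C * d) ^ 2) * (1 - lh)⁻¹ := by
    have hlim : Tendsto (fun n : ℕ => Ch * lh ^ n * (C * d)
        + Ch * (A * (C * d) ^ 2) * (1 - lh)⁻¹) atTop
        (𝓝 (Ch * 0 * (C * d) + Ch * (A * (C * d) ^ 2) * (1 - lh)⁻¹)) :=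
      (((tendsto_pow_atTop_nhds_zero_of_lt_one hlh.le hlh1).const_mul Ch).mul_const _).add_const _
    rw [mul_zero, zero_mul, zero_add] at hlim
    refine ge_of_tendsto' hlim fun n => ?_
    have h1 := hsum n
    have h2 := (H n (f^[n] x) (v n)).2
    have h3 : ‖v n‖ ≤ C * d := by
      refine (hvn n).trans ?_
      have h7 : l ^ n ≤ 1 := pow_le_one₀ hl.le hl1.le
      have : C * l ^ n ≤ C * 1 := mul_le_mul_of_nonneg_left h7 (by linarith)
      rw [mul_one] at this
      exact mul_le_mul_of_nonneg_right this hd0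
    have h4 : ∑ k ∈ Finset.range n, Ch * lh ^ k * (A * (C * d) ^ 2)
        ≤ Ch * (A * (C * d) ^ 2) * (1 - lh)⁻¹ := by
      have h5 : ∑ k ∈ Finset.range n, Ch * lh ^ k * (A * (C * d) ^ 2)
          = Ch * (A * (C * d) ^ 2) * ∑ k ∈ Finset.range n, lh ^ k := by
        rw [Finset.mul_sum]
        exact Finset.sum_congr rfl fun k _ => by ring
      rw [h5]
      exact mul_le_mul_of_nonneg_left (geom_sum_le_inv hlh.le hlh1 n) (by positivity)
    have h6 : s.U x (v 0) = (s.U x (v 0) - iterD s.Di f.symm n (f^[n] x) (s.U (f^[n] x) (v n)))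
        + iterD s.Di f.symm n (f^[n] x) (s.U (f^[n] x) (v n)) := by abel
    rw [h6]
    refine (norm_add_le _ _).trans ?_
    have h7 : Ch * lh ^ n * ‖v n‖ ≤ Ch * lh ^ n * (C * d) := by gcongr
    linarith
  have htan := hsq.tan x z
  have h3 : E.e z - E.e x - s.S x (E.e z - E.e x)
      = (E.e z - E.e x - E.P x (E.e z - E.e x)) + s.U x (E.e z - E.e x) := by
    rw [← s.add_apply']; abel
  rw [h3]
  refine (norm_add_le _ _).trans ?_
  have hv0 : v 0 = E.e z - E.e x := rfl
  rw [hv0] at hU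
  have h8 : C₀ * d ^ 2 ≤ A * d ^ 2 := mul_le_mul_of_nonneg_right (le_abs_self _) (sq_nonneg _)
  have h9 : Ch * (A * (C * d) ^ 2) * (1 - lh)⁻¹ = Ch * (A * C ^ 2) * (1 - lh)⁻¹ * d ^ 2 := by ring
  rw [h9] at hU
  nlinarith [sq_nonneg d]

theorem exists_grow {M : Type u} {W : Type v} [MetricSpace M] [CompactSpace M]
    [NormedAddCommGroup W] [NormedSpace ℝ W] {E : Emb M W} {f : M ≃ₜ M} {s : Split E f}
    (c : Conf s) (hs : s.Hyperbolic) {C₀ : ℝ} (hsq : Sq s C₀) (hne : ∀ x, s.S x ≠ 0) :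
    ∃ ε C l : ℝ, Grow c ε C l := by
  obtain ⟨ε₀, C₁, l₁, hd⟩ := exists_dec s hs
  obtain ⟨Cc, hCc, hcone⟩ := exists_cone_sq s hs hsq hd
  obtain ⟨K, hK, hb⟩ := c.exists_bound
  obtain ⟨Ka, hKa, ha⟩ := c.exists_a_bound hne
  obtain ⟨C₂, l₂, hC₂, hl₂, hl₂1, han⟩ := c.exists_an_le hs hne
  have hC1 := hd.one_le
  have hl := hd.l_pos
  have hl1 := hd.l_lt
  set A : ℝ := |C₀| + 1 with hA
  have hA0 : 0 < A := by positivity
  have hinv : 0 < (1 - l₁)⁻¹ := inv_pos.2 (by linarith)
  set b : ℝ := 2 * K ^ 2 * A * Ka * C₁ with hbdef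
  have hb0 : 0 < b := by positivity
  set ε : ℝ := min ε₀ (min (1 / (2 * Cc * C₁)) (1 / (2 * b * (1 - l₁)⁻¹))) with hε
  have hε0 : 0 < ε := lt_min hd.ε_pos (lt_min (by positivity) (by positivity))
  have hεε₀ : ε ≤ ε₀ := min_le_left _ _
  have hε1 : Cc * C₁ * ε ≤ 1 / 2 := by
    have h1 : ε ≤ 1 / (2 * Cc * C₁) := (min_le_right _ _).trans (min_le_left _ _)
    calc Cc * C₁ * ε ≤ Cc * C₁ * (1 / (2 * Cc * C₁)) := by gcongr
      _ = 1 / 2 := by field_simp
  have hε2 : b * (1 - l₁)⁻¹ * ε ≤ 1 / 2 := by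
    have h1 : ε ≤ 1 / (2 * b * (1 - l₁)⁻¹) := (min_le_right _ _).trans (min_le_right _ _)
    calc b * (1 - l₁)⁻¹ * ε ≤ b * (1 - l₁)⁻¹ * (1 / (2 * b * (1 - l₁)⁻¹)) := by gcongr
      _ = 1 / 2 := by
        have : (1 - l₁) ≠ 0 := by linarith
        field_simp
  -- comparison of norms
  have hcmp : ∀ x, ∀ z ∈ Wl f ε x, dist z x ≤ 2 * K * c.g x (E.e z - E.e x) ∧
      c.g x (E.e z - E.e x) ≤ K * dist z x := by
    intro x z hz
    have h1 := hcone x z (Wl_mono hεε₀ hz)
    have h2 := (hb x (E.e z - E.e x)).1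
    have h3 := (hb x (E.e z - E.e x)).2.2
    rw [← E.dist_eq] at h3
    refine ⟨?_, h3⟩
    have hd0 : 0 ≤ dist z x := dist_nonneg
    have h4 : dist z x ≤ ε := Wl_dist hz
    have h5 : dist z x ≤ ‖s.S x (E.e z - E.e x)‖ + Cc * dist z x ^ 2 := by
      rw [E.dist_eq z x] at h1 ⊢
      have h6 : E.e z - E.e x = s.S x (E.e z - E.e x)
        + (E.e z - E.e x - s.S x (E.e z - E.e x)) := by abel
      calc ‖E.e z - E.e x‖ ≤ ‖s.S x (E.e z - E.e x)‖
            + ‖E.e z - E.e x - s.S x (E.e z - E.e x)‖ := by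
            conv_lhs => rw [h6]
            exact norm_add_le _ _
        _ ≤ _ := by linarith
    have h6 : Cc * dist z x ^ 2 ≤ 1 / 2 * dist z x := by
      have h7 : Cc * dist z x ≤ 1 / 2 := by
        calc Cc * dist z x ≤ Cc * ε := by gcongr
          _ ≤ Cc * ε * C₁ := le_mul_of_one_le_right (by positivity) hC1
          _ = Cc * C₁ * ε := by ring
          _ ≤ 1 / 2 := hε1
      calc Cc * dist z x ^ 2 = Cc * dist z x * dist z x := by ring
        _ ≤ 1 / 2 * dist z x := by gcongr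
    nlinarith
  -- growth
  have hgr : ∀ x, ∀ z ∈ Wl f ε x, ∀ n,
      c.an n x * c.g x (E.e z - E.e x) ≤ 2 * c.g (f^[n] x) (E.e (f^[n] z) - E.e (f^[n] x)) ∧
      c.g (f^[n] x) (E.e (f^[n] z) - E.e (f^[n] x))
        ≤ 2 * (c.an n x * c.g x (E.e z - E.e x)) := by
    intro x z hz n
    set d := dist z x with hdd
    have hdε : d ≤ ε := Wl_dist hz
    have hd0 : 0 ≤ d := dist_nonneg
    have key := real_growth (g := fun k => c.g (f^[k] x) (E.e (f^[k] z) - E.e (f^[k] x)))
      (a := fun k => c.a (f^[k] x)) (β := fun k => b * ε * l₁ ^ k)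
      (fun k => c.g_nonneg _ _) (fun k => (c.a_pos _).le) (fun k => by positivity)
      (fun k => ?_) (fun m => ?_) n
    · exact key
    · -- one step
      have hzk := Wl_iter hz k
      set xk := f^[k] x with hxk
      set zk := f^[k] z with hzk'
      simp only [iterate_succ_apply']
      rw [← hxk, ← hzk']
      have h1 := hsq.fwd xk zk
      set w := E.e zk - E.e xk with hw
      set r := E.e (f zk) - E.e (f xk) - s.D xk w with hr
      have h2 : E.e (f zk) - E.e (f xk) = s.D xk w + r := by rw [hr]; abel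
      rw [h2]
      have h3 : |c.g (f xk) (s.D xk w + r) - c.a xk * c.g xk w| ≤ c.g (f xk) r := by
        rw [← c.g_map, abs_le]
        constructor
        · linarith [c.le_g_add (f xk) (s.D xk w) r]
        · linarith [c.g_add_le (f xk) (s.D xk w) r]
      refine h3.trans ?_
      have h4 : c.g (f xk) r ≤ K * (A * dist zk xk ^ 2) := by
        refine (hb (f xk) r).2.2.trans ?_
        refine mul_le_mul_of_nonneg_left (h1.trans ?_) (by linarith)
        have : C₀ ≤ A := by rw [hA]; linarith [le_abs_self C₀]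
        gcongr
      refine h4.trans ?_
      have h5 := (hcmp xk zk hzk).1
      have h6 : dist zk xk ≤ C₁ * l₁ ^ k * ε := by
        refine (hd.dec x z (Wl_mono hεε₀ hz) k).trans ?_
        gcongr
      have h7 : 1 ≤ Ka * c.a xk := (ha xk).2
      have hg0 := c.g_nonneg xk w
      have hdk : 0 ≤ dist zk xk := dist_nonneg
      calc K * (A * dist zk xk ^ 2) = K * A * dist zk xk * dist zk xk := by ring
        _ ≤ K * A * (C₁ * l₁ ^ k * ε) * (2 * K * c.g xk w) := by gcongr
        _ = (K * A * (C₁ * l₁ ^ k * ε) * (2 * K * c.g xk w)) * 1 := by ring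
        _ ≤ (K * A * (C₁ * l₁ ^ k * ε) * (2 * K * c.g xk w)) * (Ka * c.a xk) := by gcongr
        _ = c.a xk * c.g xk w * (b * ε * l₁ ^ k) := by rw [hbdef]; ring
    · rw [← Finset.mul_sum]
      calc b * ε * ∑ k ∈ Finset.range m, l₁ ^ k ≤ b * ε * (1 - l₁)⁻¹ :=
            mul_le_mul_of_nonneg_left (geom_sum_le_inv hl.le hl1 m) (by positivity)
        _ = b * (1 - l₁)⁻¹ * ε := by ring
        _ ≤ 1 / 2 := hε2
  refine ⟨ε, max (4 * K ^ 2) (max Cc C₂), l₂, hε0, ?_, hl₂, hl₂1, ?_, ?_, ?_, ?_⟩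
  · exact hCc.trans ((le_max_left _ _).trans (le_max_right _ _))
  · intro n x
    refine (han n x).trans ?_
    gcongr
    exact (le_max_right _ _).trans (le_max_right _ _)
  · intro x z hz n
    have h1 := (hcmp _ _ (Wl_iter hz n)).1
    have h2 := (hgr x z hz n).2
    have h3 := (hcmp x z hz).2
    have h4 := c.an_pos n x
    have hd0 : 0 ≤ dist z x := dist_nonneg
    calc dist (f^[n] z) (f^[n] x)
        ≤ 2 * K * c.g (f^[n] x) (E.e (f^[n] z) - E.e (f^[n] x)) := h1
      _ ≤ 2 * K * (2 * (c.an n x * c.g x (E.e z - E.e x))) := by gcongr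
      _ ≤ 2 * K * (2 * (c.an n x * (K * dist z x))) := by gcongr
      _ = 4 * K ^ 2 * c.an n x * dist z x := by ring
      _ ≤ _ := by
          gcongr
          exact le_max_left _ _
  · intro x z hz n
    have h1 := (hcmp _ _ (Wl_iter hz n)).2
    have h2 := (hgr x z hz n).1
    have h3 := (hcmp x z hz).1
    have h4 := c.an_pos n x
    have hd0 : 0 ≤ dist (f^[n] z) (f^[n] x) := dist_nonneg
    calc c.an n x * dist z x ≤ c.an n x * (2 * K * c.g x (E.e z - E.e x)) := by gcongr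
      _ = 2 * K * (c.an n x * c.g x (E.e z - E.e x)) := by ring
      _ ≤ 2 * K * (2 * c.g (f^[n] x) (E.e (f^[n] z) - E.e (f^[n] x))) := by gcongr
      _ ≤ 2 * K * (2 * (K * dist (f^[n] z) (f^[n] x))) := by gcongr
      _ = 4 * K ^ 2 * dist (f^[n] z) (f^[n] x) := by ring
      _ ≤ _ := by
          gcongr
          exact le_max_left _ _
  · intro x z hz
    refine (hcone x z (Wl_mono hεε₀ hz)).trans ?_
    gcongr
    exact (le_max_left _ _).trans (le_max_right _ _)

theorem specGrow : SpecGrow.{u, v} := fun _ _ _ _ _ _ _ _ _ _ _ c hs hsq hne =>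
  exists_grow c hs hsq hne

end Pool.Agent.Lib.MP610fe3.Cf
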