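import Pool.Agent.Lib.MP_610fe3_an.Cf.Diff
import Pool.Agent.Lib.MP_610fe3_an.Cf.Grow
import Pool.Agent.Lib.MP_610fe3_an.Transitive
import Pool.Agent.Lib.MP_610fe3_an.Gen.Split
import Pool.Agent.Lib.MP_610fe3_an.Shadow

/-!
# Assembly of the modules
-/

open Set Filter Function MeasureTheory Bundle
open scoped Topology Manifold ContDiff

namespace Pool.Agent.Lib.MP610fe3.Cf

universe u v

/-- The abstract theorem. -/
theorem abstract_main (hFlat : SpecFlat.{u, v}) (hBr : SpecBr.{u, v}) (hSurj : SpecSurj.{u, v})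
    (hLin : SpecLinHol.{u, v}) (hHolo : SpecHolo.{u, v}) (hBox : SpecBox.{u, v})
    (hSum : SpecSum.{u}) (hLen : SpecLen.{u, v}) (hVan : SpecVanish.{u, v})
    (hFin : SpecFinal.{u, v})
    {M : Type u} {W : Type v} [MetricSpace M] [CompactSpace M] [ConnectedSpace M]
    [MeasurableSpace M] [BorelSpace M]
    [NormedAddCommGroup W] [NormedSpace ℝ W] [FiniteDimensional ℝ W]
    (μ : Measure M) [IsFiniteMeasure μ] {E : Emb M W} {f : M ≃ₜ M} (s : Split E f)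
    (hs : s.Hyperbolic) {C₀ : ℝ} (hsq : Sq s C₀) (c : Conf s) (cu : Conf s.swap)
    (u : ℕ) (hS : ∀ x, Module.finrank ℝ (s.S x).range = 2)
    (hU : ∀ x, Module.finrank ℝ (s.U x).range = u) (hu : 2 ≤ u) {κ : ℝ} (hκ : 0 < κ)
    (hμ : ∀ x, ∀ r : ℝ, 0 < r → r ≤ 1 → κ * r ^ (2 + u) ≤ μ.real (Metric.ball x r)) :
    ChainTransitive f := by
  have hSne : ∀ x, s.S x ≠ 0 := by
    intro x h0
    have h1 := hS x
    have h2 : (s.S x).range = ⊥ := by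
      rw [h0]; ext w; simp [eq_comm]
    rw [h2, finrank_bot] at h1
    exact absurd h1 (by norm_num)
  have hUne : ∀ x, s.swap.S x ≠ 0 := by
    intro x h0
    have h1 := hU x
    have h2 : (s.U x).range = ⊥ := by
      have h3 : s.U x = 0 := h0
      rw [h3]; ext w; simp [eq_comm]
    rw [h2, finrank_bot] at h1
    omega
  obtain ⟨e1, C1, l1, hG⟩ := exists_grow c hs hsq hSne
  obtain ⟨e2, C2, l2, hGu⟩ := exists_grow cu hs.swap hsq.swap hUne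
  obtain ⟨e3, C3, ψ, Q, q, hF⟩ := hFlat M W E f s C₀ c e1 C1 l1 hs hsq hSne hG
  obtain ⟨e4, C4, ψu, Qu, qu, hFu⟩ :=
    hFlat M W E f.symm s.swap C₀ cu e2 C2 l2 hs.swap hsq.swap hUne hGu
  obtain ⟨e5, C5, hB⟩ := hBr M W E f s hs
  obtain ⟨e6, C6, hBu⟩ := hBr M W E f.symm s.swap hs.swap
  obtain ⟨e7, C7, P, p, hL⟩ := hLin M W E f s C₀ c hs hsq hSne
  obtain ⟨e8, C8, l8, hD⟩ := exists_dec s.swap hs.swap
  -- common constants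
  obtain ⟨ε, hε, g1, g2, g3, g4, g5, g6, g7, g8⟩ : ∃ ε : ℝ, 0 < ε ∧ ε ≤ e1 ∧ ε ≤ e2 ∧ ε ≤ e3 ∧
      ε ≤ e4 ∧ ε ≤ e5 ∧ ε ≤ e6 ∧ ε ≤ e7 ∧ ε ≤ e8 := by
    refine ⟨min e1 (min e2 (min e3 (min e4 (min e5 (min e6 (min e7 e8)))))), ?_, ?_, ?_, ?_, ?_,
      ?_, ?_, ?_, ?_⟩
    · simp only [lt_min_iff]
      exact ⟨hG.ε_pos, hGu.ε_pos, hF.ε_pos, hFu.ε_pos, hB.ε_pos, hBu.ε_pos, hL.ε_pos, hD.ε_pos⟩
    all_goals simp
  obtain ⟨C, k1, k2, k3, k4, k5, k6, k7, k8⟩ : ∃ C : ℝ, C1 ≤ C ∧ C2 ≤ C ∧ C3 ≤ C ∧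
      C4 ≤ C ∧ C5 ≤ C ∧ C6 ≤ C ∧ C7 ≤ C ∧ C8 ≤ C := by
    refine ⟨max C1 (max C2 (max C3 (max C4 (max C5 (max C6 (max C7 C8)))))), ?_, ?_, ?_, ?_,
      ?_, ?_, ?_, ?_⟩
    all_goals simp
  obtain ⟨l, m1, m2, m8, hl1⟩ : ∃ l : ℝ, l1 ≤ l ∧ l2 ≤ l ∧ l8 ≤ l ∧ l < 1 := by
    refine ⟨max l1 (max l2 l8), ?_, ?_, ?_, ?_⟩
    · simp
    · simp
    · simp
    · simp only [max_lt_iff]
      exact ⟨hG.l_lt, hGu.l_lt, hD.l_lt⟩
  have hG' := hG.mono hε g1 k1 m1 hl1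
  have hGu' := hGu.mono hε g2 k2 m2 hl1
  have hF' := hF.mono hε g3 k3
  have hFu' := hFu.mono hε g4 k4
  have hB' := hB.mono hε g5 k5
  have hBu' := hBu.mono hε g6 k6
  have hL' := hL.mono hε g7 k7
  have hD' := hD.mono hε g8 k8 m8 hl1
  have hSj := hSurj M W E f s c ε C l ψ Q q hs hG' hF' hB'
  have hSju := hSurj M W E f.symm s.swap cu ε C l ψu Qu qu hs.swap hGu' hFu' hBu'
  have hP : Pack c ε C l ψ Q q P p := ⟨hs, hSne, hG', hD', hF', hSj, hL', hB'⟩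
  have hUP : UPack cu ε C l ψu Qu qu := ⟨hGu', hFu', hSju⟩
  obtain ⟨ε', -, hDif⟩ := exists_dif hP
  obtain ⟨ε₁, ε₂, ε₃, C', hε₁, hH⟩ := hHolo M W E f s c ε C l ε' ψ Q q P p hP hDif hS
  have hbox := hBox M W μ E f s C₀ c cu ε C l ψ Q q P p ψu Qu qu κ (2 + u) u hsq hP hUP hU
    (by omega) hκ hμ
  rw [Nat.add_sub_cancel] at hbox
  have hsum := hSum M μ f c.an 2 (fun n y => (c.an_pos n y).le) hbox
  have hlen := hLen M W E f s cu ε C l ψu Qu qu u 2 hs hUP hU hu (by omega)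
  have hvan := hVan M W E f s c ε C l ψ Q q P p ε₁ ε₂ ε₃ C' 2 hP hε₁ hH hsum hlen
  exact hFin M W E f s c cu ε C l ψ Q q P p ψu Qu qu ε₁ ε₂ ε₃ C' hP hUP hε₁ hH hvan

end Pool.Agent.Lib.MP610fe3.Cf
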