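import Pool.Agent.Lib.MP_610fe3_an.Cf.CocMk

/-!
# Module FLAT: the nonstationary linearization
-/

open Set Filter Function
open scoped Topology

namespace Pool.Agent.Lib.MP610fe3.Cf

universe u v

namespace FlatAux

variable {M W : Type*} [MetricSpace M] [NormedAddCommGroup W] [NormedSpace ℝ W]
  {E : Emb M W} {f : M ≃ₜ M} {s : Split E f} {c : Conf s} {K : ℝ} (h : Bd s c K)

/-- approximations of the linearization -/
noncomputable def t (n : ℕ) (x z : M) : W :=
  (cocF h).I n x (s.S (f^[n] x) (E.e (f^[n] z) - E.e (f^[n] x)))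

/-- the linearization -/
noncomputable def psi (x z : M) : W := lim' (fun n => t h n x z)

include h in
theorem K_pos : 0 < K := one_pos.trans_le h.one_le

variable {ε C l : ℝ}

theorem t_incr (hg : Grow c ε C l) {x z : M} (hz : z ∈ Wl f ε x) (n : ℕ) :
    ‖t h (n + 1) x z - t h n x z‖ ≤ (K ^ 7 * C ^ 3 * dist z x ^ 2) * l ^ n := by
  have hK := K_pos h
  have hC : 0 < C := one_pos.trans_le hg.one_le
  have hl := hg.l_pos
  set k := cocF h with hk
  set v := E.e (f^[n] z) - E.e (f^[n] x) with hv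
  set v' := E.e (f^[n + 1] z) - E.e (f^[n + 1] x) with hv'
  have e1 : t h (n + 1) x z - t h n x z
      = k.I (n + 1) x (k.S (f^[n + 1] x) (v' - k.D (f^[n] x) v)) := by
    rw [map_sub, map_sub, k.I_succ_S]
    rfl
  have h1 := k.I_upper (n + 1) x (v' - k.D (f^[n] x) v)
  rw [← e1] at h1
  have h2 := k.S_le (f^[n + 1] x) (v' - k.D (f^[n] x) v)
  have h3 : ‖v' - k.D (f^[n] x) v‖ ≤ K * dist (f^[n] z) (f^[n] x) ^ 2 := by
    have := h.sq.fwd (f^[n] x) (f^[n] z)
    rw [← iterate_succ_apply' (⇑f), ← iterate_succ_apply' (⇑f)] at this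
    exact this
  have h4 := hg.upper x z hz n
  have h5 := k.an_le_succ n x
  have ha := k.an_pos n x
  have ha1 := k.an_pos (n + 1) x
  have h6 : k.an n x ≤ C * l ^ n := hg.an_le n x
  have hkk : k.K = K := rfl
  rw [hkk] at h1 h2 h5
  have h4' : dist (f^[n] z) (f^[n] x) ≤ C * k.an n x * dist z x := h4
  have hln : 0 < l ^ n := pow_pos hl n
  have h7 : k.an n x * ‖t h (n + 1) x z - t h n x z‖
      ≤ k.an n x * ((K ^ 7 * C ^ 3 * dist z x ^ 2) * l ^ n) := by
    calc k.an n x * ‖t h (n + 1) x z - t h n x z‖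
        ≤ (K ^ 3 * k.an (n + 1) x) * ‖t h (n + 1) x z - t h n x z‖ := by gcongr
      _ = K ^ 3 * (k.an (n + 1) x * ‖t h (n + 1) x z - t h n x z‖) := by ring
      _ ≤ K ^ 3 * (K ^ 2 * (K * (K * (C * k.an n x * dist z x) ^ 2))) := by
          refine mul_le_mul_of_nonneg_left (h1.trans ?_) (by positivity)
          refine mul_le_mul_of_nonneg_left (h2.trans ?_) (by positivity)
          refine mul_le_mul_of_nonneg_left (h3.trans ?_) (by positivity)
          gcongr
      _ = K ^ 7 * C ^ 2 * dist z x ^ 2 * k.an n x * k.an n x := by ring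
      _ ≤ K ^ 7 * C ^ 2 * dist z x ^ 2 * (C * l ^ n) * k.an n x := by gcongr
      _ = _ := by ring
  exact le_of_mul_le_mul_left h7 ha

theorem psi_tendsto [CompleteSpace W] (hg : Grow c ε C l) {x z : M} (hz : z ∈ Wl f ε x) :
    Tendsto (fun n => t h n x z) atTop (𝓝 (psi h x z)) :=
  lim'_tendsto hg.l_pos.le hg.l_lt (t_incr h hg hz)

theorem psi_sub_le (hg : Grow c ε C l) {x z : M} (hz : z ∈ Wl f ε x) :
    ‖psi h x z - (E.e z - E.e x)‖ ≤ (K ^ 7 * C ^ 3 * (1 - l)⁻¹ + C) * dist z x ^ 2 := by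
  have h1 : ‖psi h x z - t h 0 x z‖ ≤ K ^ 7 * C ^ 3 * dist z x ^ 2 * (1 - l)⁻¹ :=
    lim'_sub_le hg.l_pos.le hg.l_lt (t_incr h hg hz)
  have h2 := hg.cone x z hz
  have h3 : t h 0 x z = s.S x (E.e z - E.e x) := rfl
  rw [h3] at h1
  calc ‖psi h x z - (E.e z - E.e x)‖
      = ‖(psi h x z - s.S x (E.e z - E.e x))
          - (E.e z - E.e x - s.S x (E.e z - E.e x))‖ := by congr 1; abel
    _ ≤ K ^ 7 * C ^ 3 * dist z x ^ 2 * (1 - l)⁻¹ + C * dist z x ^ 2 :=
        (norm_sub_le _ _).trans (add_le_add h1 h2)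
    _ = _ := by ring

theorem psi_mem [CompleteSpace W] (hg : Grow c ε C l) {x z : M} (hz : z ∈ Wl f ε x) :
    s.S x (psi h x z) = psi h x z := by
  have h1 := psi_tendsto h hg hz
  have h2 := ((s.S x).continuous.tendsto _).comp h1
  refine tendsto_nhds_unique h2 (h1.congr fun n => ?_)
  exact ((cocF h).S_I n x _).symm

theorem psi_equiv [CompleteSpace W] (hg : Grow c ε C l) {x z : M} (hz : z ∈ Wl f ε x) :
    psi h (f x) (f z) = s.D x (psi h x z) := by
  have h1 := psi_tendsto h hg (Coc.Wl_map hz)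
  have h2 := ((s.D x).continuous.tendsto _).comp
    ((psi_tendsto h hg hz).comp (tendsto_add_atTop_nat 1))
  refine tendsto_nhds_unique h1 (h2.congr fun n => ?_)
  set k := cocF h with hk
  change k.D x (k.I (n + 1) x (k.S (f^[n + 1] x) (E.e (f^[n + 1] z) - E.e (f^[n + 1] x))))
    = k.I n (f x) (k.S (f^[n] (f x)) (E.e (f^[n] (f z)) - E.e (f^[n] (f x))))
  rw [k.I_succ', iterate_succ_apply, iterate_succ_apply, ← k.S_I n (f x)]
  have h3 := k.inv2 (f x) (k.I n (f x) (k.S (f^[n] (f x))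
    (E.e (f^[n] (f z)) - E.e (f^[n] (f x)))))
  rw [f.symm_apply_apply] at h3
  exact h3

theorem t_cont (n : ℕ) : Continuous (fun p : M × M => t h n p.1 p.2) := by
  unfold t
  have he : Continuous E.e := E.isom.continuous
  have hf : Continuous (f^[n]) := f.continuous.iterate n
  refine (((cocF h).I_cont n).comp continuous_fst).clm_apply ?_
  refine ((h.S_cont.comp hf).comp continuous_fst).clm_apply ?_
  exact ((he.comp hf).comp continuous_snd).sub ((he.comp hf).comp continuous_fst)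

theorem psi_cont [CompleteSpace W] (hg : Grow c ε C l) :
    ContinuousOn (fun p : M × M => psi h p.1 p.2) {p | p.2 ∈ Wl f ε p.1} := by
  have hK := K_pos h
  have hC : 0 < C := one_pos.trans_le hg.one_le
  refine lim'_continuousOn (K := K ^ 7 * C ^ 3 * ε ^ 2) hg.l_pos.le hg.l_lt
    (fun n => (t_cont h n).continuousOn) (fun n p hp => (t_incr h hg hp n).trans ?_)
  have h1 : dist p.2 p.1 ≤ ε := hp 0
  have hl := hg.l_pos
  gcongr

theorem psi_trans [CompleteSpace W] (hg : Grow c ε C l) (hd : Dec f ε (C ^ 2) l)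
    (hS : (cocF h).Small ε) {x z z' : M} (hz : z ∈ Wl f ε x) (hz' : z' ∈ Wl f ε x)
    (hzz : z' ∈ Wl f ε z) :
    psi h z z' = (cocF h).Q x z (psi h x z' - psi h x z) := by
  set k := cocF h with hk
  have hK := K_pos h
  have hC : 0 < C := one_pos.trans_le hg.one_le
  have hl := hg.l_pos
  have hε := hg.ε_pos
  have hR := k.R_one_le hd
  have h1 := psi_tendsto h hg hz
  have h2 := psi_tendsto h hg hz'
  have h3 := psi_tendsto h hg hzz
  have h4 := k.Q_tendsto hd hS hz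
  have h5 := tendsto_clm_apply h4 (h2.sub h1)
  refine tendsto_nhds_unique h3 ?_
  have h6 : Tendsto (fun n => t h n z z' - k.T n x z (t h n x z' - t h n x z)) atTop (𝓝 0) := by
    have h7 : Tendsto (fun n : ℕ => (2 * K ^ 3 * C ^ 4 * ε ^ 2 * k.R ε (C ^ 2) l) * l ^ n) atTop
        (𝓝 0) := by
      have := (tendsto_pow_atTop_nhds_zero_of_lt_one hg.l_pos.le hg.l_lt).const_mul
        (2 * K ^ 3 * C ^ 4 * ε ^ 2 * k.R ε (C ^ 2) l)
      simpa using this
    refine squeeze_zero_norm (fun n => ?_) h7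
    have hS_x : k.S x (t h n x z' - t h n x z) = t h n x z' - t h n x z := by
      rw [map_sub]
      have e1 : k.S x (t h n x z') = t h n x z' := k.S_I n x _
      have e2 : k.S x (t h n x z) = t h n x z := k.S_I n x _
      rw [e1, e2]
    have hA : k.A n x (t h n x z' - t h n x z)
        = k.S (f^[n] x) (E.e (f^[n] z') - E.e (f^[n] z)) := by
      rw [map_sub]
      have e1 : k.A n x (t h n x z') = k.S (f^[n] x) (E.e (f^[n] z') - E.e (f^[n] x)) :=
        k.A_I n x _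
      have e2 : k.A n x (t h n x z) = k.S (f^[n] x) (E.e (f^[n] z) - E.e (f^[n] x)) :=
        k.A_I n x _
      rw [e1, e2, ← map_sub]
      congr 1
      abel
    set y := (E.e (f^[n] z') - E.e (f^[n] z))
      - k.S (f^[n] x) (E.e (f^[n] z') - E.e (f^[n] z)) with hy
    have e3 : t h n z z' - k.T n x z (t h n x z' - t h n x z) = k.I n z (k.S (f^[n] z) y) := by
      have e6 : t h n z z' = k.I n z (k.S (f^[n] z) (E.e (f^[n] z') - E.e (f^[n] z))) := rfl
      rw [k.T_apply, hS_x, hA, e6, ← map_sub, ← map_sub]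
    rw [e3]
    have ha := k.an_pos n z
    have hax := k.an_pos n x
    have hyn : ‖y‖ ≤ 2 * C * (C * k.an n x * ε) ^ 2 := by
      have c1 := hg.cone (f^[n] x) (f^[n] z') (Coc.Wl_iter hz' n)
      have c2 := hg.cone (f^[n] x) (f^[n] z) (Coc.Wl_iter hz n)
      have d1 : dist (f^[n] z') (f^[n] x) ≤ C * k.an n x * ε := by
        have h0 : dist z' x ≤ ε := hz' 0
        refine (hg.upper x z' hz' n).trans ?_
        have : c.an n x = k.an n x := rfl
        rw [this]
        gcongr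
      have d2 : dist (f^[n] z) (f^[n] x) ≤ C * k.an n x * ε := by
        have h0 : dist z x ≤ ε := hz 0
        refine (hg.upper x z hz n).trans ?_
        have : c.an n x = k.an n x := rfl
        rw [this]
        gcongr
      have e4 : y = (E.e (f^[n] z') - E.e (f^[n] x)
            - s.S (f^[n] x) (E.e (f^[n] z') - E.e (f^[n] x)))
          - (E.e (f^[n] z) - E.e (f^[n] x)
            - s.S (f^[n] x) (E.e (f^[n] z) - E.e (f^[n] x))) := by
        have e5 : k.S (f^[n] x) = s.S (f^[n] x) := rfl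
        rw [hy, e5, map_sub, map_sub, map_sub]
        abel
      rw [e4]
      calc _ ≤ C * dist (f^[n] z') (f^[n] x) ^ 2 + C * dist (f^[n] z) (f^[n] x) ^ 2 :=
            (norm_sub_le _ _).trans (add_le_add c1 c2)
        _ ≤ C * (C * k.an n x * ε) ^ 2 + C * (C * k.an n x * ε) ^ 2 := by gcongr
        _ = _ := by ring
    have h8 := k.I_upper n z y
    have h9 := k.S_le (f^[n] z) y
    have hkk : k.K = K := rfl
    rw [hkk] at h8 h9
    have h10 := k.ratio hd hS hz n
    have h11 : k.an n x ≤ C * l ^ n := hg.an_le n x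
    have hln : 0 < l ^ n := pow_pos hl n
    have h12 : k.an n z * ‖k.I n z (k.S (f^[n] z) y)‖
        ≤ k.an n z * ((2 * K ^ 3 * C ^ 4 * ε ^ 2 * k.R ε (C ^ 2) l) * l ^ n) := by
      calc _ ≤ K ^ 2 * (K * (2 * C * (C * k.an n x * ε) ^ 2)) := by
            refine h8.trans (mul_le_mul_of_nonneg_left (h9.trans ?_) (by positivity))
            exact mul_le_mul_of_nonneg_left hyn hK.le
        _ = 2 * K ^ 3 * C ^ 3 * ε ^ 2 * k.an n x * k.an n x := by ring
        _ ≤ 2 * K ^ 3 * C ^ 3 * ε ^ 2 * (C * l ^ n) * (k.R ε (C ^ 2) l * k.an n z) := by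
            gcongr
        _ = _ := by ring
    exact le_of_mul_le_mul_left h12 ha
  have h13 := h6.add h5
  rw [zero_add] at h13
  refine h13.congr fun n => ?_
  abel

end FlatAux

section

variable {M W : Type*} [MetricSpace M] [NormedAddCommGroup W] [NormedSpace ℝ W]
  {E : Emb M W} {f : M ≃ₜ M} {s : Split E f}

theorem Coc.grow_mono {c : Conf s} {ε ε' C l : ℝ} (h : Grow c ε C l) (h0 : 0 < ε') (h1 : ε' ≤ ε) :
    Grow c ε' C l :=
  ⟨h0, h.one_le, h.l_pos, h.l_lt, h.an_le, fun x z hz => h.upper x z (Coc.Wl_mono h1 x hz),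
    fun x z hz => h.lower x z (Coc.Wl_mono h1 x hz),
    fun x z hz => h.cone x z (Coc.Wl_mono h1 x hz)⟩

theorem Coc.grow_dec {c : Conf s} {ε C l : ℝ} (h : Grow c ε C l) : Dec f ε (C ^ 2) l := by
  have hC := h.one_le
  refine ⟨h.ε_pos, one_le_pow₀ hC, h.l_pos, h.l_lt, fun x z hz n => ?_⟩
  have h1 := h.upper x z hz n
  have h2 := h.an_le n x
  calc _ ≤ C * c.an n x * dist z x := h1
    _ ≤ C * (C * l ^ n) * dist z x := by gcongr
    _ = _ := by ring

theorem flat_of_grow [CompactSpace M] [CompleteSpace W] (c : Conf s) (hs : s.Hyperbolic)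
    {C₀ : ℝ} (hq : Sq s C₀) (hne : ∀ x, s.S x ≠ 0) {ε C l : ℝ} (hg : Grow c ε C l) :
    ∃ (ε' C' : ℝ) (ψ : M → M → W) (Q : M → M → W →L[ℝ] W) (q : M → M → ℝ),
      Flat c ε' C' ψ Q q := by
  obtain ⟨K, h⟩ := exists_Bd c hs hq hne
  set k := cocF h with hk
  obtain ⟨ε₀, hε₀, hsm⟩ := k.exists_small
  have hK := FlatAux.K_pos h
  have hC : 0 < C := one_pos.trans_le hg.one_le
  have hl1 : 0 < 1 - l := sub_pos.2 hg.l_lt
  set C₁ := K ^ 7 * C ^ 3 * (1 - l)⁻¹ + C with hC₁
  have hC₁pos : 0 < C₁ := by positivity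
  have hC₁one : 1 ≤ C₁ := by
    have : 0 < K ^ 7 * C ^ 3 * (1 - l)⁻¹ := by positivity
    have := hg.one_le
    linarith
  set ε₁ := min ε (min ε₀ (1 / (2 * C₁))) with hε₁
  have hε₁pos : 0 < ε₁ := lt_min hg.ε_pos (lt_min hε₀ (by positivity))
  have hg1 : Grow c ε₁ C l := Coc.grow_mono hg hε₁pos (min_le_left _ _)
  have hd1 : Dec f ε₁ (C ^ 2) l := Coc.grow_dec hg1
  have hS : k.Small ε₁ := hsm _ ((min_le_right _ _).trans (min_le_left _ _))
  have hsmall : C₁ * ε₁ ≤ 1 / 2 := by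
    have : ε₁ ≤ 1 / (2 * C₁) := (min_le_right _ _).trans (min_le_right _ _)
    calc C₁ * ε₁ ≤ C₁ * (1 / (2 * C₁)) := by gcongr
      _ = 1 / 2 := by field_simp
  set ε' := ε₁ / 2 with hε'
  have hε'pos : 0 < ε' := half_pos hε₁pos
  have hle : ε' ≤ ε₁ := half_le_self hε₁pos.le
  have hmem : ∀ {x z : M}, z ∈ Wl f ε' x → z ∈ Wl f ε₁ x := fun hz => Coc.Wl_mono hle _ hz
  have happ : ∀ x, ∀ z ∈ Wl f ε₁ x,
      ‖FlatAux.psi h x z - (E.e z - E.e x)‖ ≤ C₁ * dist z x ^ 2 :=
    fun x z hz => FlatAux.psi_sub_le h hg1 hz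
  have happ2 : ∀ x, ∀ z ∈ Wl f ε₁ x,
      ‖FlatAux.psi h x z - (E.e z - E.e x)‖ ≤ 1 / 2 * dist z x := fun x z hz => by
    refine (happ x z hz).trans ?_
    have h0 : dist z x ≤ ε₁ := hz 0
    calc C₁ * dist z x ^ 2 = (C₁ * dist z x) * dist z x := by ring
      _ ≤ (C₁ * ε₁) * dist z x := by gcongr
      _ ≤ 1 / 2 * dist z x := by gcongr
  have hlow : ∀ x, ∀ z ∈ Wl f ε₁ x, dist z x ≤ 2 * ‖FlatAux.psi h x z‖ := fun x z hz => by
    have h1 := happ2 x z hz
    have h2 : dist z x ≤ ‖FlatAux.psi h x z‖ + ‖FlatAux.psi h x z - (E.e z - E.e x)‖ := by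
      rw [E.dist_eq]
      calc ‖E.e z - E.e x‖
          = ‖FlatAux.psi h x z - (FlatAux.psi h x z - (E.e z - E.e x))‖ := by congr 1; abel
        _ ≤ _ := norm_sub_le _ _
    linarith
  have hup : ∀ x, ∀ z ∈ Wl f ε₁ x, ‖FlatAux.psi h x z‖ ≤ 2 * dist z x := fun x z hz => by
    have h1 := happ2 x z hz
    have h2 : ‖FlatAux.psi h x z‖ ≤ ‖FlatAux.psi h x z - (E.e z - E.e x)‖ + dist z x := by
      rw [E.dist_eq]
      calc ‖FlatAux.psi h x z‖
          = ‖(FlatAux.psi h x z - (E.e z - E.e x)) + (E.e z - E.e x)‖ := by congr 1; abel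
        _ ≤ _ := norm_add_le _ _
    have h3 : 0 ≤ dist z x := dist_nonneg
    linarith
  have hsub : {p : M × M | p.2 ∈ Wl f ε' p.1} ⊆ {p : M × M | p.2 ∈ Wl f ε₁ p.1} :=
    fun p hp => hmem hp
  refine ⟨ε', C₁, FlatAux.psi h, k.Q, k.q, ?_⟩
  refine ⟨hε'pos, hC₁one, fun x z hz => FlatAux.psi_mem h hg1 (hmem hz),
    fun x z hz => happ x z (hmem hz), fun x z hz => hup x z (hmem hz),
    fun x z hz => hlow x z (hmem hz), fun x z hz => FlatAux.psi_equiv h hg1 (hmem hz), ?_,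
    (FlatAux.psi_cont h hg1).mono hsub, ?_, fun x => k.Q_self hd1 hS x, ?_, ?_, ?_,
    (k.Q_cont hd1 hS).mono hsub, fun x z hz => k.q_pos hd1 hS (hmem hz),
    fun x => k.q_self hd1 hS x, ?_, fun x z hz => k.q_equiv hd1 hS (hmem hz),
    (k.q_cont hd1 hS).mono hsub⟩
  · intro x z hz z' hz' heq
    have hzz : z' ∈ Wl f ε₁ z := by
      have := Coc.Wl_trans (Coc.Wl_symm hz) hz'
      rwa [hε', add_halves] at this
    have h1 := FlatAux.psi_trans h hg1 hd1 hS (hmem hz) (hmem hz') hzz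
    rw [heq, sub_self, map_zero] at h1
    have h2 := hlow z z' hzz
    rw [h1, norm_zero, mul_zero] at h2
    exact (dist_le_zero.1 h2).symm
  · intro x z hz z' hz' hzz
    exact FlatAux.psi_trans h hg1 hd1 hS (hmem hz) (hmem hz') (hmem hzz)
  · intro x z hz
    ext w
    exact k.Q_S_apply hd1 hS (hmem hz) w
  · intro x z hz
    ext w
    exact k.S_Q_apply hd1 hS (hmem hz) w
  · intro x z hz v w
    exact k.Q_conf hd1 hS (hmem hz) v w
  · intro x z hz z' hz' hzz
    exact k.q_comp hd1 hS (hmem hz) (hmem hz') (hmem hzz)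

end

theorem specFlat : SpecFlat.{u, v} := by
  intro M W _ _ _ _ _ E f s C₀ c ε C l hs hq hne hg
  have : CompleteSpace W := FiniteDimensional.complete ℝ W
  exact flat_of_grow c hs hq hne hg

end Pool.Agent.Lib.MP610fe3.Cf
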