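import Pool.Agent.Lib.MP_610fe3_an.Cf.HoloFrame

/-!
# Module HOLO: holonomies between stable sets are holomorphic
-/

open Set Filter Function Metric
open scoped Topology

namespace Pool.Agent.Lib.MP610fe3.Cf

universe u v

namespace Holo

variable {M W : Type*} [MetricSpace M] [NormedAddCommGroup W] [NormedSpace ℝ W]
  {E : Emb M W} {f : M ≃ₜ M} {s : Split E f} {c : Conf s} {ε C l ε' : ℝ} {ψ : M → M → W}
  {Q : M → M → W →L[ℝ] W} {q : M → M → ℝ} {P : M → M → W →L[ℝ] W} {p : M → M → ℝ}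

theorem psi_self (hF : Flat c ε C ψ Q q) (x : M) : ψ x x = 0 := by
  have h1 := hF.upper x x (mem_Wl_self hF.ε_pos.le)
  rw [dist_self, mul_zero] at h1
  exact norm_le_zero_iff.1 h1

theorem g_Q (hF : Flat c ε C ψ Q q) {x z : M} (hz : z ∈ Wl f ε x) (w : W) :
    c.g z (Q x z w) = q x z * c.g x w := by
  unfold Conf.g
  rw [hF.Q_conf x z hz, Real.sqrt_mul (sq_nonneg _), Real.sqrt_sq (hF.q_pos x z hz).le]

theorem g_P (hL : LinHol c ε C P p) {x y : M} (hy : y ∈ Wl f.symm ε x) (w : W) :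
    c.g y (P x y w) = p x y * c.g x w := by
  unfold Conf.g
  rw [hL.P_conf x y hy, Real.sqrt_mul (sq_nonneg _), Real.sqrt_sq (hL.p_pos x y hy).le]

/-- Change of the base point. -/
theorem psi_sub (hF : Flat c ε C ψ Q q) {x z z' : M} (h1 : z ∈ Wl f ε x) (h2 : z' ∈ Wl f ε x)
    (h3 : z' ∈ Wl f ε z) : ψ x z' - ψ x z = Q z x (ψ z z') := by
  have h4 := hF.trans z x (Wl_comm h1) z' h3 h2
  have h5 := hF.trans z x (Wl_comm h1) z (mem_Wl_self hF.ε_pos.le) h1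
  rw [h4, h5, ← map_sub, psi_self hF z]
  congr 1
  abel

theorem q_inv (hF : Flat c ε C ψ Q q) {x z : M} (h1 : z ∈ Wl f ε x) : q z x * q x z = 1 := by
  rw [hF.q_comp x z h1 x (mem_Wl_self hF.ε_pos.le) (Wl_comm h1), hF.q_self]

section Local

/-- The holonomy in the coordinates of the frames. -/
theorem core (hP : Pack c ε C l ψ Q q P p) (hD : Dif f ψ P ε')
    {K Kc Kq m Mx r ε₁ ε₂ : ℝ} (hK : 1 ≤ K) (hKb : ∀ x w, ‖s.S x w‖ ≤ K * c.g x w)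
    (hKc : 1 ≤ Kc) (hKc' : ∀ x, ∀ y ∈ Wl f ε x, ∀ t ∈ Wl f ε x, t ∈ Wl f ε y →
      ‖ψ x t - ψ x y‖ ≤ Kc * dist t y ∧ dist t y ≤ Kc * ‖ψ x t - ψ x y‖)
    (hKq : 1 ≤ Kq) (hKq' : ∀ x, ∀ z ∈ Wl f ε x, ‖Q x z‖ ≤ Kq)
    (hm : 0 < m)
    (hb : ∀ x, ∀ z ∈ Wl f ε x, ∀ y ∈ Wl f.symm ε x, ∀ z' ∈ Wl f ε y, z' ∈ Wl f.symm ε z →
      m ≤ q z' y * p z z' * q x z ∧ q z' y * p z z' * q x z ≤ Mx)
    (h1ε : ε₁ ≤ ε) (h1ε' : ε₁ ≤ ε') (h2 : 0 < ε₂) (h21 : 4 * ε₂ ≤ ε₁) (hr : 0 < r)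
    (hsurj : ∀ x w, s.S x w = w → ‖w‖ ≤ r → ∃ z ∈ Wl f ε₂ x, ψ x z = w)
    (hex : ∀ x, ∀ y ∈ Wl f.symm ε₂ x, ∀ z ∈ Wl f ε₂ x,
      ∃ z', z' ∈ Wl f (ε₁ / 4) y ∧ z' ∈ Wl f.symm (ε₁ / 4) z)
    {x y : M} (hy : y ∈ Wl f.symm ε₂ x) (Fx : Frame c x) (Fy : Frame c y) :
    (∀ z ∈ Wl f ε₂ x, ‖Fx.R (ψ x z)‖ < r / K → ∀ z', z' ∈ Wl f ε₁ y → z' ∈ Wl f.symm ε₁ z →
      |RR p q x y z z'| ≤ 2 * Mx / (m * (r / K)) * ‖Fx.R (ψ x z)‖) ∧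
    ((∀ z ∈ Wl f ε₂ x, ∀ z', z' ∈ Wl f ε₁ y → z' ∈ Wl f.symm ε₁ z → RR p q x y z z' = 0) →
      ∀ z ∈ Wl f ε₂ x, ‖Fx.R (ψ x z)‖ < r / K → ∀ z', z' ∈ Wl f ε₁ y → z' ∈ Wl f.symm ε₁ z →
        ψ y z' = P x y (ψ x z)) := by
  classical
  have hF := hP.flat
  have hLn := hP.lin
  have hε := hF.ε_pos
  have hK0 : 0 < K := by linarith
  have hrK : 0 < r / K := by positivity
  have h2ε : ε₂ ≤ ε := by linarith
  have hyε : y ∈ Wl f.symm ε x := Wl_mono h2ε hy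
  -- the point with coordinate `ζ`
  have hTn : ∀ (a : M) (Fa : Frame c a) ζ, ‖Fa.T ζ‖ ≤ K * ‖ζ‖ := by
    intro a Fa ζ
    have h1 := hKb a (Fa.T ζ)
    rwa [Fa.ST, Fa.gT] at h1
  have hpt : ∀ ζ : ℂ, ∃ z, ‖ζ‖ < r / K → z ∈ Wl f ε₂ x ∧ ψ x z = Fx.T ζ := by
    intro ζ
    by_cases hζ : ‖ζ‖ < r / K
    · have h1 : ‖Fx.T ζ‖ ≤ r := by
        refine (hTn x Fx ζ).trans ?_
        rw [lt_div_iff₀ hK0] at hζ
        linarith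
      obtain ⟨z, hz, h⟩ := hsurj x (Fx.T ζ) (Fx.ST ζ) h1
      exact ⟨z, fun _ => ⟨hz, h⟩⟩
    · exact ⟨x, fun h => absurd h hζ⟩
  choose zz hzz using hpt
  have hpt' : ∀ ζ : ℂ, ∃ z', ‖ζ‖ < r / K → z' ∈ Wl f (ε₁ / 4) y ∧ z' ∈ Wl f.symm (ε₁ / 4) (zz ζ) := by
    intro ζ
    by_cases hζ : ‖ζ‖ < r / K
    · obtain ⟨z', h⟩ := hex x y hy (zz ζ) (hzz ζ hζ).1
      exact ⟨z', fun _ => h⟩
    · exact ⟨x, fun h => absurd h hζ⟩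
  choose zp hzp using hpt'
  -- memberships
  have mz : ∀ ζ : ℂ, ‖ζ‖ < r / K → zz ζ ∈ Wl f ε x := fun ζ hζ => Wl_mono h2ε (hzz ζ hζ).1
  have mzz : ∀ {δ : ℝ}, ε₁ ≤ δ → ∀ ζ ζ₁ : ℂ, ‖ζ‖ < r / K → ‖ζ₁‖ < r / K →
      zz ζ ∈ Wl f δ (zz ζ₁) := fun hδ ζ ζ₁ hζ hζ₁ =>
    Wl_mono (by linarith : ε₂ + ε₂ ≤ _) (Wl_trans (Wl_comm (hzz ζ₁ hζ₁).1) (hzz ζ hζ).1)
  have mpy : ∀ {δ : ℝ}, ε₁ ≤ δ → ∀ ζ : ℂ, ‖ζ‖ < r / K → zp ζ ∈ Wl f δ y := fun hδ ζ hζ =>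
    Wl_mono (by linarith) (hzp ζ hζ).1
  have mpz : ∀ {δ : ℝ}, ε₁ ≤ δ → ∀ ζ : ℂ, ‖ζ‖ < r / K → zp ζ ∈ Wl f.symm δ (zz ζ) :=
    fun hδ ζ hζ => Wl_mono (by linarith) (hzp ζ hζ).2
  have mpp : ∀ {δ : ℝ}, ε₁ ≤ δ → ∀ ζ ζ₁ : ℂ, ‖ζ‖ < r / K → ‖ζ₁‖ < r / K →
      zp ζ ∈ Wl f δ (zp ζ₁) := fun hδ ζ ζ₁ hζ hζ₁ =>
    Wl_mono (by linarith : ε₁ / 4 + ε₁ / 4 ≤ _) (Wl_trans (Wl_comm (hzp ζ₁ hζ₁).1) (hzp ζ hζ).1)
  -- the maps
  let H : ℂ → ℂ := fun ζ => Fy.R (ψ y (zp ζ))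
  let L : ℂ → ℂ →L[ℝ] ℂ := fun ζ =>
    Fy.R ∘L (Q (zp ζ) y ∘L (P (zz ζ) (zp ζ) ∘L (Q x (zz ζ) ∘L Fx.T)))
  let lam : ℂ → ℝ := fun ζ => q (zp ζ) y * p (zz ζ) (zp ζ) * q x (zz ζ)
  have hball : ∀ ζ : ℂ, ζ ∈ ball (0 : ℂ) (r / K) ↔ ‖ζ‖ < r / K := fun ζ => by
    rw [mem_ball, dist_zero_right]
  have hSQ : ∀ {a b : M}, b ∈ Wl f ε a → ∀ w, s.S b (Q a b w) = Q a b w := fun hb w =>
    congrArg (fun A => A w) (hF.S_Q _ _ hb)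
  -- distances
  have hdz : ∀ ζ ζ₁ : ℂ, ‖ζ‖ < r / K → ‖ζ₁‖ < r / K →
      dist (zz ζ) (zz ζ₁) ≤ Kc * K * ‖ζ - ζ₁‖ := by
    intro ζ ζ₁ hζ hζ₁
    have h1 := (hKc' x (zz ζ₁) (mz ζ₁ hζ₁) (zz ζ) (mz ζ hζ) (mzz h1ε ζ ζ₁ hζ hζ₁)).2
    rw [(hzz ζ hζ).2, (hzz ζ₁ hζ₁).2, ← map_sub] at h1
    calc dist (zz ζ) (zz ζ₁) ≤ Kc * ‖Fx.T (ζ - ζ₁)‖ := h1
      _ ≤ Kc * (K * ‖ζ - ζ₁‖) := by
          gcongr
          exact hTn x Fx _
      _ = _ := by ring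
  have hHd : ∀ ζ ∈ ball (0 : ℂ) (r / K), HasFDerivAt H (L ζ) ζ := by
    intro ζ₁ hζ₁
    rw [hball] at hζ₁
    refine HasFDerivAt.of_isLittleO (Asymptotics.isLittleO_iff.2 fun η hη => ?_)
    set N : ℝ := (‖Fy.R‖ + 1) * Kq * (Kq * K) with hN
    have hN0 : 0 < N := by
      have := norm_nonneg Fy.R
      positivity
    obtain ⟨ρ, hρ, hdif⟩ := hD.2 (η / N) (by positivity)
    have ev1 : ∀ᶠ ζ in 𝓝 ζ₁, ‖ζ‖ < r / K :=
      continuous_norm.continuousAt.eventually (gt_mem_nhds hζ₁)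
    have ev2 : ∀ᶠ ζ in 𝓝 ζ₁, Kc * K * ‖ζ - ζ₁‖ < ρ := by
      have h1 : Continuous fun ζ : ℂ => Kc * K * ‖ζ - ζ₁‖ := by fun_prop
      have h2 := h1.tendsto ζ₁
      rw [sub_self, norm_zero, mul_zero] at h2
      exact h2.eventually (gt_mem_nhds hρ)
    filter_upwards [ev1, ev2] with ζ hζ hd
    have hd' : dist (zz ζ) (zz ζ₁) ≤ ρ := (hdz ζ ζ₁ hζ hζ₁).trans hd.le
    have h3 := hdif (zz ζ₁) (zp ζ₁) (mpz h1ε' ζ₁ hζ₁) (zz ζ) (mzz h1ε' ζ ζ₁ hζ hζ₁) hd'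
      (zp ζ) (mpp h1ε' ζ ζ₁ hζ hζ₁) (mpz h1ε' ζ hζ)
    have h4 : H ζ - H ζ₁ = Fy.R (Q (zp ζ₁) y (ψ (zp ζ₁) (zp ζ))) := by
      simp only [H]
      rw [← map_sub, psi_sub hF (mpy h1ε ζ₁ hζ₁) (mpy h1ε ζ hζ) (mpp h1ε ζ ζ₁ hζ hζ₁)]
    have h5 : Q x (zz ζ₁) (Fx.T (ζ - ζ₁)) = ψ (zz ζ₁) (zz ζ) := by
      rw [hF.trans x (zz ζ₁) (mz ζ₁ hζ₁) (zz ζ) (mz ζ hζ) (mzz h1ε ζ ζ₁ hζ hζ₁),
        (hzz ζ hζ).2, (hzz ζ₁ hζ₁).2, ← map_sub]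
    have h6 : H ζ - H ζ₁ - L ζ₁ (ζ - ζ₁) = Fy.R (Q (zp ζ₁) y
        (ψ (zp ζ₁) (zp ζ) - P (zz ζ₁) (zp ζ₁) (ψ (zz ζ₁) (zz ζ)))) := by
      rw [h4]
      simp only [L, ContinuousLinearMap.comp_apply]
      rw [h5, map_sub, map_sub]
    have h7 : ‖ψ (zz ζ₁) (zz ζ)‖ ≤ Kq * K * ‖ζ - ζ₁‖ := by
      rw [← h5]
      refine ((Q x (zz ζ₁)).le_of_opNorm_le (hKq' x _ (mz ζ₁ hζ₁)) _).trans ?_
      have := hTn x Fx (ζ - ζ₁)
      calc Kq * ‖Fx.T (ζ - ζ₁)‖ ≤ Kq * (K * ‖ζ - ζ₁‖) := by gcongr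
        _ = _ := by ring
    rw [h6]
    have hR1 : ‖Fy.R‖ ≤ ‖Fy.R‖ + 1 := by linarith
    calc ‖Fy.R (Q (zp ζ₁) y (ψ (zp ζ₁) (zp ζ) - P (zz ζ₁) (zp ζ₁) (ψ (zz ζ₁) (zz ζ))))‖
        ≤ (‖Fy.R‖ + 1) * ‖Q (zp ζ₁) y
            (ψ (zp ζ₁) (zp ζ) - P (zz ζ₁) (zp ζ₁) (ψ (zz ζ₁) (zz ζ)))‖ :=
          Fy.R.le_of_opNorm_le hR1 _
      _ ≤ (‖Fy.R‖ + 1) * (Kq * ‖ψ (zp ζ₁) (zp ζ) - P (zz ζ₁) (zp ζ₁) (ψ (zz ζ₁) (zz ζ))‖) := by
          have h8 := (Q (zp ζ₁) y).le_of_opNorm_le (hKq' _ y (Wl_comm (mpy h1ε ζ₁ hζ₁)))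
            (ψ (zp ζ₁) (zp ζ) - P (zz ζ₁) (zp ζ₁) (ψ (zz ζ₁) (zz ζ)))
          have := norm_nonneg Fy.R
          gcongr
      _ ≤ (‖Fy.R‖ + 1) * (Kq * (η / N * (Kq * K * ‖ζ - ζ₁‖))) := by
          have := norm_nonneg Fy.R
          have h9 : η / N * ‖ψ (zz ζ₁) (zz ζ)‖ ≤ η / N * (Kq * K * ‖ζ - ζ₁‖) := by gcongr
          have h10 := h3.trans h9
          gcongr
      _ = N * (η / N) * ‖ζ - ζ₁‖ := by rw [hN]; ring
      _ = η * ‖ζ - ζ₁‖ := by rw [mul_div_cancel₀ η hN0.ne']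
  have hHc : ContinuousOn H (ball (0 : ℂ) (r / K)) := fun ζ hζ =>
    (hHd ζ hζ).continuousAt.continuousWithinAt
  have hzc : ContinuousOn zz (ball (0 : ℂ) (r / K)) := by
    rw [Metric.continuousOn_iff]
    intro ζ₁ hζ₁ η hη
    rw [hball] at hζ₁
    refine ⟨η / (Kc * K), by positivity, fun ζ hζ hd => ?_⟩
    rw [hball] at hζ
    rw [dist_eq_norm, lt_div_iff₀ (by positivity)] at hd
    calc dist (zz ζ) (zz ζ₁) ≤ Kc * K * ‖ζ - ζ₁‖ := hdz ζ ζ₁ hζ hζ₁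
      _ = ‖ζ - ζ₁‖ * (Kc * K) := by ring
      _ < η := hd
  have hpc : ContinuousOn zp (ball (0 : ℂ) (r / K)) := by
    rw [Metric.continuousOn_iff]
    intro ζ₁ hζ₁ η hη
    obtain ⟨δ, hδ, hcont⟩ := Metric.continuousOn_iff.1 hHc ζ₁ hζ₁ (η / (Kc * K)) (by positivity)
    refine ⟨δ, hδ, fun ζ hζ hd => ?_⟩
    have h1 := hcont ζ hζ hd
    rw [hball] at hζ hζ₁
    rw [dist_eq_norm, lt_div_iff₀ (by positivity)] at h1
    have h2 := (hKc' y (zp ζ₁) (mpy h1ε ζ₁ hζ₁) (zp ζ) (mpy h1ε ζ hζ) (mpp h1ε ζ ζ₁ hζ hζ₁)).2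
    have h3 : ψ y (zp ζ) - ψ y (zp ζ₁) = Fy.T (H ζ - H ζ₁) := by
      rw [map_sub]
      simp only [H]
      rw [Fy.TR _ (hF.mem y _ (mpy h1ε ζ hζ)), Fy.TR _ (hF.mem y _ (mpy h1ε ζ₁ hζ₁))]
    rw [h3] at h2
    calc dist (zp ζ) (zp ζ₁) ≤ Kc * ‖Fy.T (H ζ - H ζ₁)‖ := h2
      _ ≤ Kc * (K * ‖H ζ - H ζ₁‖) := by
          gcongr
          exact hTn y Fy _
      _ = ‖H ζ - H ζ₁‖ * (Kc * K) := by ring
      _ < η := h1
  have hLc : ContinuousOn L (ball (0 : ℂ) (r / K)) := by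
    have c1 : ContinuousOn (fun ζ => Q (zp ζ) y) (ball (0 : ℂ) (r / K)) :=
      hF.Q_cont.comp (hpc.prodMk continuousOn_const) (fun ζ hζ =>
        Wl_comm (mpy h1ε ζ ((hball ζ).1 hζ)))
    have c2 : ContinuousOn (fun ζ => P (zz ζ) (zp ζ)) (ball (0 : ℂ) (r / K)) :=
      hLn.P_cont.comp (hzc.prodMk hpc) (fun ζ hζ => mpz h1ε ζ ((hball ζ).1 hζ))
    have c3 : ContinuousOn (fun ζ => Q x (zz ζ)) (ball (0 : ℂ) (r / K)) :=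
      hF.Q_cont.comp (continuousOn_const.prodMk hzc) (fun ζ hζ => mz ζ ((hball ζ).1 hζ))
    exact continuousOn_const.clm_comp (c1.clm_comp (c2.clm_comp (c3.clm_comp continuousOn_const)))
  have hsim : ∀ ζ ∈ ball (0 : ℂ) (r / K), ∀ v, ‖L ζ v‖ = lam ζ * ‖v‖ := by
    intro ζ hζ v
    rw [hball] at hζ
    have hz'y : y ∈ Wl f ε (zp ζ) := Wl_comm (mpy h1ε ζ hζ)
    simp only [L, lam, ContinuousLinearMap.comp_apply]
    rw [Fy.gR (hSQ hz'y _), g_Q hF hz'y, g_P hLn (mpz h1ε ζ hζ), g_Q hF (mz ζ hζ), Fx.gT]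
    ring
  have hlam : ∀ ζ ∈ ball (0 : ℂ) (r / K), m ≤ lam ζ ∧ lam ζ ≤ Mx := by
    intro ζ hζ
    rw [hball] at hζ
    exact hb x (zz ζ) (mz ζ hζ) y hyε (zp ζ) (mpy h1ε ζ hζ) (mpz h1ε ζ hζ)
  obtain ⟨hA, hB⟩ := hc_core hrK hm H L lam hHd hLc hsim hlam
  -- the base point
  have h00 : ‖(0 : ℂ)‖ < r / K := by rw [norm_zero]; exact hrK
  have hz0 : zz 0 = x := by
    refine hF.inj x _ (mz 0 h00) x (mem_Wl_self hε.le) ?_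
    rw [(hzz 0 h00).2, psi_self hF, map_zero]
  have hp0 : zp 0 = y := by
    have h1 := mpz h1ε 0 h00
    rw [hz0] at h1
    exact hP.br.unique y x (zp 0) y (mpy h1ε 0 h00) h1 (mem_Wl_self hε.le) hyε
  have hlam0 : lam 0 = p x y := by
    simp only [lam]
    rw [hz0, hp0, hF.q_self, hF.q_self]
    ring
  have hL0 : ∀ v, L 0 v = Fy.R (P x y (Fx.T v)) := by
    intro v
    simp only [L, ContinuousLinearMap.comp_apply]
    rw [hz0, hp0, hF.Q_self, hF.Q_self]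
    have h1 : s.S y (P x y (s.S x (Fx.T v))) = P x y (s.S x (Fx.T v)) :=
      congrArg (fun A => A (s.S x (Fx.T v))) (hLn.S_P x y hyε)
    rw [h1, Fx.ST]
  have hH0 : H 0 = 0 := by
    simp only [H]
    rw [hp0, psi_self hF, map_zero]
  -- identification of the points
  have hid : ∀ z ∈ Wl f ε₂ x, ‖Fx.R (ψ x z)‖ < r / K → ∀ z', z' ∈ Wl f ε₁ y →
      z' ∈ Wl f.symm ε₁ z → zz (Fx.R (ψ x z)) = z ∧ zp (Fx.R (ψ x z)) = z' := by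
    intro z hz hn z' hz'1 hz'2
    have hz1 : zz (Fx.R (ψ x z)) = z := by
      refine hF.inj x _ (mz _ hn) z (Wl_mono h2ε hz) ?_
      rw [(hzz _ hn).2, Fx.TR _ (hF.mem x z (Wl_mono h2ε hz))]
    refine ⟨hz1, ?_⟩
    have h1 := mpz h1ε _ hn
    rw [hz1] at h1
    exact hP.br.unique y z _ z' (mpy h1ε _ hn) h1 (Wl_mono h1ε hz'1) (Wl_mono h1ε hz'2)
  have hRR : ∀ ζ : ℂ, ‖ζ‖ < r / K →
      RR p q x y (zz ζ) (zp ζ) = Real.log (lam ζ) - Real.log (lam 0) := by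
    intro ζ hζ
    have hz'y : y ∈ Wl f ε (zp ζ) := Wl_comm (mpy h1ε ζ hζ)
    have h1 := hF.q_pos (zp ζ) y hz'y
    have h2 := hF.q_pos y (zp ζ) (mpy h1ε ζ hζ)
    have h3 := hLn.p_pos (zz ζ) (zp ζ) (mpz h1ε ζ hζ)
    have h4 := hF.q_pos x (zz ζ) (mz ζ hζ)
    have h5 : Real.log (q (zp ζ) y) = - Real.log (q y (zp ζ)) := by
      have h6 := q_inv hF (mpy h1ε ζ hζ)
      have h7 := congrArg Real.log h6
      rw [Real.log_mul h1.ne' h2.ne', Real.log_one] at h7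
      linarith
    rw [hlam0]
    simp only [lam]
    unfold RR
    rw [Real.log_mul (mul_pos h1 h3).ne' h4.ne', Real.log_mul h1.ne' h3.ne', h5]
    ring
  constructor
  · intro z hz hn z' hz'1 hz'2
    obtain ⟨e1, e2⟩ := hid z hz hn z' hz'1 hz'2
    have h1 := hA (Fx.R (ψ x z)) ((hball _).2 hn)
    rw [← hRR _ hn, e1, e2] at h1
    exact h1
  · intro hzero z hz hn z' hz'1 hz'2
    obtain ⟨e1, e2⟩ := hid z hz hn z' hz'1 hz'2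
    have hconst : ∀ ζ ∈ ball (0 : ℂ) (r / K), lam ζ = lam 0 := by
      intro ζ hζ
      have hζ' := (hball ζ).1 hζ
      have h1 := hRR ζ hζ'
      rw [hzero (zz ζ) (hzz ζ hζ').1 (zp ζ) (mpy le_rfl ζ hζ') (mpz le_rfl ζ hζ')] at h1
      refine Real.log_injOn_pos ?_ ?_ (by linarith)
      · exact hm.trans_le (hlam ζ hζ).1
      · exact hm.trans_le (hlam 0 ((hball 0).2 h00)).1
    have h1 := hB hconst (Fx.R (ψ x z)) ((hball _).2 hn)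
    rw [hH0, zero_add, hL0, Fx.TR _ (hF.mem x z (Wl_mono h2ε hz))] at h1
    simp only [H] at h1
    rw [e2] at h1
    have h2 := congrArg Fy.T h1
    rw [Fy.TR _ (hF.mem y z' (Wl_mono h1ε hz'1))] at h2
    rw [h2]
    refine Fy.TR _ ?_
    exact congrArg (fun A => A (ψ x z)) (hLn.S_P x y hyε)

end Local

/-- A positive continuous function on a compact set is bounded above and below. -/
theorem pos_bound {X : Type*} [TopologicalSpace X] {A : Set X} (hA : IsCompact A) {g : X → ℝ}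
    (hg : ContinuousOn g A) (hpos : ∀ a ∈ A, 0 < g a) :
    ∃ B : ℝ, 1 ≤ B ∧ ∀ a ∈ A, B⁻¹ ≤ g a ∧ g a ≤ B ∧ |Real.log (g a)| ≤ Real.log B := by
  obtain ⟨B₁, h1⟩ := hA.exists_bound_of_continuousOn hg
  obtain ⟨B₂, h2⟩ := hA.exists_bound_of_continuousOn (hg.inv₀ fun a ha => (hpos a ha).ne')
  set B : ℝ := max (max B₁ B₂) 1 with hB
  have hB1 : 1 ≤ B := le_max_right _ _
  have hB0 : 0 < B := by linarith
  refine ⟨B, hB1, fun a ha => ?_⟩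
  have hp := hpos a ha
  have h3 : g a ≤ B := by
    have := h1 a ha
    rw [Real.norm_eq_abs, abs_of_pos hp] at this
    exact this.trans ((le_max_left _ _).trans (le_max_left _ _))
  have h4 : (g a)⁻¹ ≤ B := by
    have := h2 a ha
    rw [Pi.inv_apply, Real.norm_eq_abs, abs_of_pos (inv_pos.2 hp)] at this
    exact this.trans ((le_max_right _ _).trans (le_max_left _ _))
  refine ⟨inv_le_of_inv_le₀ hp h4, h3, ?_⟩
  rw [abs_le]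
  constructor
  · have h5 := Real.log_le_log (inv_pos.2 hp) h4
    rw [Real.log_inv] at h5
    linarith
  · exact Real.log_le_log hp h3

end Holo

theorem holo : SpecHolo.{u, v} := by
  intro M W _ _ _ _ _ E f s c ε C l ε' ψ Q q P p hP hD hrank
  have hF := hP.flat
  have hLn := hP.lin
  have hε := hF.ε_pos
  obtain ⟨K, hK, hKb⟩ := c.exists_bound
  obtain ⟨Kc, hKc, hKc'⟩ := Len.coord_dist hF
  have hc1 : IsCompact {p : M × M | p.2 ∈ Wl f ε p.1} := (isClosed_Wl_prod f ε).isCompact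
  have hc2 : IsCompact {p : M × M | p.2 ∈ Wl f.symm ε p.1} := (isClosed_Wl_prod f.symm ε).isCompact
  obtain ⟨Kq₀, hKq₀⟩ := hc1.exists_bound_of_continuousOn hF.Q_cont
  obtain ⟨Bq, hBq, hq⟩ := Holo.pos_bound hc1 hF.q_cont (fun a ha => hF.q_pos a.1 a.2 ha)
  obtain ⟨Bp, hBp, hp⟩ := Holo.pos_bound hc2 hLn.p_cont (fun a ha => hLn.p_pos a.1 a.2 ha)
  have hK0 : 0 < K := by linarith
  have hBq0 : 0 < Bq := by linarith
  have hBp0 : 0 < Bp := by linarith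
  set m : ℝ := Bq⁻¹ * Bp⁻¹ * Bq⁻¹ with hm
  have hm0 : 0 < m := by positivity
  set Mx : ℝ := Bq * Bp * Bq with hMx
  have hMx0 : 0 < Mx := by positivity
  have hb : ∀ x, ∀ z ∈ Wl f ε x, ∀ y ∈ Wl f.symm ε x, ∀ z' ∈ Wl f ε y, z' ∈ Wl f.symm ε z →
      m ≤ q z' y * p z z' * q x z ∧ q z' y * p z z' * q x z ≤ Mx := by
    intro x z hz y hy z' hz' hz'2
    obtain ⟨a1, a2, _⟩ := hq (z', y) (Wl_comm hz')
    obtain ⟨b1, b2, _⟩ := hp (z, z') hz'2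
    obtain ⟨c1, c2, _⟩ := hq (x, z) hz
    have a0 : 0 < q z' y := hF.q_pos z' y (Wl_comm hz')
    have b0 : 0 < p z z' := hLn.p_pos z z' hz'2
    have c0 : 0 < q x z := hF.q_pos x z hz
    constructor
    · rw [hm]
      gcongr
    · rw [hMx]
      gcongr
  set ε₁ : ℝ := min ε ε' with hε₁
  have hε₁0 : 0 < ε₁ := lt_min hε hD.1
  obtain ⟨δ₀, hδ₀, hbr⟩ := hP.br.exist (ε₁ / 4) (by positivity)
  set ε₂ : ℝ := min (ε₁ / 4) (δ₀ / 3) with hε₂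
  have hε₂0 : 0 < ε₂ := lt_min (by positivity) (by positivity)
  have h21 : 4 * ε₂ ≤ ε₁ := by
    have := min_le_left (ε₁ / 4) (δ₀ / 3)
    rw [← hε₂] at this
    linarith
  have hex : ∀ x, ∀ y ∈ Wl f.symm ε₂ x, ∀ z ∈ Wl f ε₂ x,
      ∃ z', z' ∈ Wl f (ε₁ / 4) y ∧ z' ∈ Wl f.symm (ε₁ / 4) z := by
    intro x y hy z hz
    refine hbr y z ?_
    have h1 := Wl_dist hy
    have h2 := Wl_dist hz
    have h3 : dist y z ≤ dist y x + dist z x := dist_triangle_right _ _ _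
    have h4 := min_le_right (ε₁ / 4) (δ₀ / 3)
    rw [← hε₂] at h4
    linarith
  obtain ⟨r, hr, hsurj⟩ := hP.surj ε₂ hε₂0
  have hrK : 0 < r / K := by positivity
  set ε₃ : ℝ := min ε₂ (r / K / (4 * K)) with hε₃
  set Ch : ℝ := 2 * Mx / (m * (r / K)) with hCh
  have hCh0 : 0 ≤ Ch := by positivity
  set Bl : ℝ := 2 * Real.log Bq + 2 * Real.log Bp with hBl
  have hBl0 : 0 ≤ Bl := by
    have h1 := Real.log_nonneg hBq
    have h2 := Real.log_nonneg hBp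
    linarith
  have hcore := fun (x y : M) (hy : y ∈ Wl f.symm ε₂ x) (Fx : Frame c x) (Fy : Frame c y) =>
    Holo.core hP hD hK (fun x w => (hKb x w).1) hKc hKc' (le_max_right Kq₀ 1)
      (fun x z hz => (hKq₀ (x, z) hz).trans (le_max_left Kq₀ 1)) hm0 hb (min_le_left _ _)
      (min_le_right _ _) hε₂0 h21 hr hsurj hex hy Fx Fy
  have hεε₂ : ε₂ ≤ ε := by
    have := min_le_left ε ε'
    linarith
  have hRn : ∀ x (Fx : Frame c x), ∀ z ∈ Wl f ε₂ x, ‖Fx.R (ψ x z)‖ ≤ 2 * K * dist z x := by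
    intro x Fx z hz
    have hz' := Wl_mono hεε₂ hz
    rw [Fx.gR (hF.mem x z hz')]
    have h1 := hF.upper x z hz'
    calc c.g x (ψ x z) ≤ K * ‖ψ x z‖ := (hKb x _).2.2
      _ ≤ K * (2 * dist z x) := by gcongr
      _ = _ := by ring
  refine ⟨ε₁, ε₂, ε₃, max 1 (max (Ch * (2 * K)) (Bl / (r / K) * (2 * K))), min_le_left _ _, ?_⟩
  refine ⟨lt_min hε₂0 (by positivity), min_le_left _ _, h21, le_max_left _ _, hex, ?_, ?_⟩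
  · intro x y hy z hz z' hz'1 hz'2
    obtain ⟨Fx⟩ := exists_frame c x (hrank x)
    obtain ⟨Fy⟩ := exists_frame c y (hrank y)
    have hn := hRn x Fx z hz
    have hd : 0 ≤ dist z x := dist_nonneg
    rcases lt_or_ge ‖Fx.R (ψ x z)‖ (r / K) with h | h
    · have h1 := (hcore x y hy Fx Fy).1 z hz h z' hz'1 hz'2
      calc |RR p q x y z z'| ≤ Ch * ‖Fx.R (ψ x z)‖ := h1
        _ ≤ Ch * (2 * K * dist z x) := by gcongr
        _ = Ch * (2 * K) * dist z x := by ring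
        _ ≤ _ := by
            gcongr
            exact (le_max_left _ _).trans (le_max_right _ _)
    · have hz'ε := Wl_mono (min_le_left _ _ : ε₁ ≤ ε) hz'1
      have hz'ε2 := Wl_mono (min_le_left _ _ : ε₁ ≤ ε) hz'2
      have l1 := (hp (z, z') hz'ε2).2.2
      have l2 := (hq (x, z) (Wl_mono hεε₂ hz)).2.2
      have l3 := (hp (x, y) (Wl_mono hεε₂ hy)).2.2
      have l4 := (hq (y, z') hz'ε).2.2
      have h1 : |RR p q x y z z'| ≤ Bl := by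
        rw [abs_le] at l1 l2 l3 l4 ⊢
        simp only at l1 l2 l3 l4
        unfold RR
        constructor
        · linarith [l1.1, l2.1, l3.2, l4.2]
        · linarith [l1.2, l2.2, l3.1, l4.1]
      calc |RR p q x y z z'| ≤ Bl := h1
        _ = Bl / (r / K) * (r / K) := by field_simp
        _ ≤ Bl / (r / K) * (2 * K * dist z x) := by
            gcongr
            exact h.trans hn
        _ = Bl / (r / K) * (2 * K) * dist z x := by ring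
        _ ≤ _ := by
            gcongr
            exact (le_max_right _ _).trans (le_max_right _ _)
  · intro x y hy hzero z hz z' hz'1 hz'2
    obtain ⟨Fx⟩ := exists_frame c x (hrank x)
    obtain ⟨Fy⟩ := exists_frame c y (hrank y)
    have hz2 : z ∈ Wl f ε₂ x := Wl_mono (min_le_left _ _) hz
    have hn := hRn x Fx z hz2
    have hd : dist z x ≤ r / K / (4 * K) := (Wl_dist hz).trans (min_le_right _ _)
    have h : ‖Fx.R (ψ x z)‖ < r / K := by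
      calc ‖Fx.R (ψ x z)‖ ≤ 2 * K * dist z x := hn
        _ ≤ 2 * K * (r / K / (4 * K)) := by gcongr
        _ = (r / K) / 2 := by field_simp; norm_num
        _ < r / K := half_lt_self hrK
    exact (hcore x y hy Fx Fy).2 hzero z hz2 h z' hz'1 hz'2

end Pool.Agent.Lib.MP610fe3.Cf
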