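import Pool.Agent.Lib.MP_610fe3_an.Cf.CocMk
import Pool.Agent.Lib.MP_610fe3_an.Cf.Dec

/-!
# Module LINHOL: the linear holonomy of the stable bundle
-/

open Set Filter Function
open scoped Topology

namespace Pool.Agent.Lib.MP610fe3.Cf

universe u v

section

variable {M W : Type*} [MetricSpace M] [NormedAddCommGroup W] [NormedSpace ℝ W]
  {E : Emb M W} {f : M ≃ₜ M} {s : Split E f}

theorem cocB_an {c : Conf s} {K : ℝ} (h : Bd s c K) (n : ℕ) (y : M) :
    c.an n (f.symm^[n] y) = ((cocB h).an n y)⁻¹ := by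
  induction n with
  | zero => simp [Conf.an]
  | succ n ih =>
    have h1 : c.an (n + 1) (f.symm^[n + 1] y)
        = c.a (f.symm^[n + 1] y) * c.an n (f (f.symm^[n + 1] y)) := by
      simp [Conf.an, Finset.prod_range_succ', mul_comm]
    have h2 : f (f.symm^[n + 1] y) = f.symm^[n] y := by
      rw [iterate_succ_apply', f.apply_symm_apply]
    rw [h1, h2, ih, Coc.an_succ, mul_inv, mul_comm]
    congr 1
    change _ = ((c.a (f.symm (f.symm^[n] y)))⁻¹)⁻¹
    rw [inv_inv, iterate_succ_apply']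

theorem linHol_of_dec [CompactSpace M] [CompleteSpace W] (c : Conf s) (hs : s.Hyperbolic)
    {C₀ : ℝ} (hq : Sq s C₀) (hne : ∀ x, s.S x ≠ 0) {ε C l : ℝ} (hd : Dec f.symm ε C l) :
    ∃ (ε C : ℝ) (P : M → M → W →L[ℝ] W) (p : M → M → ℝ), LinHol c ε C P p := by
  obtain ⟨K, hK⟩ := exists_Bd c hs hq hne
  set k := cocB hK with hk
  obtain ⟨ε₀, hε₀, hsm⟩ := k.exists_small
  set ε₁ := min ε ε₀ with hε₁
  have hd1 : Dec f.symm ε₁ C l :=
    Coc.dec_mono hd (lt_min hd.ε_pos hε₀) (min_le_left _ _)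
  have hS : k.Small ε₁ := hsm _ (min_le_right _ _)
  have hPS : ∀ x w, s.S x (E.P x w) = s.S x w := fun x w => congrArg (fun L => L w) (s.SP x)
  have hSP : ∀ x w, E.P x (s.S x w) = s.S x w := fun x w => congrArg (fun L => L w) (s.PS x)
  refine ⟨ε₁, k.R ε₁ C l, k.Q, k.q, ?_⟩
  refine ⟨hd1.ε_pos, k.R_one_le hd1, fun x => k.Q_self hd1 hS x, ?_, ?_, ?_, ?_, ?_,
    k.Q_cont hd1 hS, fun x y hy => k.q_pos hd1 hS hy, fun x => k.q_self hd1 hS x, ?_, ?_,
    k.q_cont hd1 hS, ?_⟩
  · intro x y hy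
    ext w
    exact k.Q_S_apply hd1 hS hy w
  · intro x y hy
    ext w
    exact k.S_Q_apply hd1 hS hy w
  · intro x y hy v w
    exact k.Q_conf hd1 hS hy v w
  · intro x y hy z hz hyz
    ext w
    exact k.Q_comp_apply hd1 hS hy hz hyz w
  · intro x y hy hfy
    ext w
    have h1 := k.Q_equiv_apply hd1 hS hfy (s.D x w)
    rw [f.symm_apply_apply, f.symm_apply_apply] at h1
    have h2 : k.D (f x) (s.D x w) = E.P x w := congrArg (fun L => L w) (s.inv1 x)
    rw [h2] at h1
    have h3 : k.Q x y (E.P x w) = k.Q x y w := by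
      rw [← k.Q_S_apply hd1 hS hy]
      have : k.S x (E.P x w) = k.S x w := hPS x w
      rw [this, k.Q_S_apply hd1 hS hy]
    rw [h3] at h1
    change k.Q (f x) (f y) (s.D x w) = s.D y (k.Q x y w)
    rw [h1]
    have h4 : ∀ v, s.D y (k.D (f y) v) = E.P (f y) v := fun v => by
      have h5 : s.D (f.symm (f y)) (s.Di (f y) v) = E.P (f y) v :=
        congrArg (fun L => L v) (s.inv2 (f y))
      rw [f.symm_apply_apply] at h5
      exact h5
    rw [h4, ← k.S_Q_apply hd1 hS hfy]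
    exact (hSP (f y) _).symm
  · intro x y hy z hz hyz
    exact k.q_comp hd1 hS hy hz hyz
  · intro x y hy hfy
    have h1 := k.q_equiv hd1 hS hfy
    have h2 : ∀ y, k.a (f y) = (c.a y)⁻¹ := fun y => by
      change (c.a (f.symm (f y)))⁻¹ = _
      rw [f.symm_apply_apply]
    rw [f.symm_apply_apply, f.symm_apply_apply, h2, h2] at h1
    have h3 := (c.a_pos x).ne'
    have h4 := (c.a_pos y).ne'
    field_simp at h1
    linarith
  · intro x y hy n
    rw [cocB_an hK, cocB_an hK]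
    have h1 := k.ratio hd1 hS hy n
    have hx := k.an_pos n x
    have hy' := k.an_pos n y
    rw [← hk, ← div_eq_mul_inv, le_div_iff₀ hx, inv_mul_le_iff₀ hy']
    linarith

end

theorem specLinHol_of_dec (h : SpecDec.{u, v}) : SpecLinHol.{u, v} := by
  intro M W _ _ _ _ _ E f s C₀ c hs hq hne
  have : CompleteSpace W := FiniteDimensional.complete ℝ W
  obtain ⟨⟨ε, C, l, hd⟩, -⟩ := h M W E f.symm s.swap hs.swap
  exact linHol_of_dec c hs hq hne hd

theorem specLinHol : SpecLinHol.{u, v} := specLinHol_of_dec specDec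

end Pool.Agent.Lib.MP610fe3.Cf
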