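import Pool.Agent.Lib.MP_610fe3_an.Cf.Mfd1
import Pool.Agent.Lib.MP_610fe3_an.Gen.Norm

/-!
# Module MFD2: conformal structures from a continuous Riemannian metric (helper4)
-/

open Set Filter Function Bundle
open scoped Manifold ContDiff Topology

namespace Pool.Agent.Lib.MP610fe3.Cf.Mfd

open Gen

section section_

variable {V : Type*} [NormedAddCommGroup V] [NormedSpace ℝ V] [FiniteDimensional ℝ V] {N : ℕ}
  {M : Type*} [MetricSpace M] [ChartedSpace V M] [IsManifold 𝓘(ℝ, V) ∞ M]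

/-- The tangent vector with image the projection of `w`. -/
noncomputable def tv (V : Type*) [NormedAddCommGroup V] [NormedSpace ℝ V] {N : ℕ}
    {M : Type*} [MetricSpace M] [ChartedSpace V M] (e : M → EE N) (x : M) (w : EE N) :
    TangentSpace 𝓘(ℝ, V) x := (pinv (dF V e x) w : V)

/-- the coordinates of the tangent vector in a trivialization -/
lemma coord_tv {e : M → EE N}
    (hinj : ∀ x, Injective (mfderiv 𝓘(ℝ, V) (𝓡 N) e x)) {x₀ y : M}
    (hy : y ∈ (trivializationAt V (fun x : M => TangentSpace 𝓘(ℝ, V) x) x₀).baseSet) (w : EE N) :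
    (trivializationAt V (fun x : M => TangentSpace 𝓘(ℝ, V) x) x₀).continuousLinearMapAt ℝ y
      (tv V e y w) = pinv (locD V e x₀ y) w := by
  have hlinj := locD_injective V hinj hy
  let C : V ≃L[ℝ] V := (trivializationAt V
    (fun x : M => TangentSpace 𝓘(ℝ, V) x) x₀).continuousLinearEquivAt ℝ y hy
  have hC : ∀ v : V, C v = (trivializationAt V
    (fun x : M => TangentSpace 𝓘(ℝ, V) x) x₀).continuousLinearMapAt ℝ y v := by
    intro v
    exact congrFun (Trivialization.coe_continuousLinearEquivAt_eq _ hy) v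
  have h1 : dF V e y = locD V e x₀ y ∘L (C : V →L[ℝ] V) := by
    ext1 v
    exact (mfderiv_eq_locD V (e := e) hy v).trans
      (congrArg (fun u => locD V e x₀ y u) (hC v).symm)
  have h2 := pinv_comp_equiv (locD V e x₀ y) hlinj C
  rw [← h1] at h2
  have h3 : pinv (dF V e y) w = C.symm (pinv (locD V e x₀ y) w) := by
    rw [h2]
    rfl
  refine (hC (pinv (dF V e y) w)).symm.trans ?_
  rw [h3, C.apply_symm_apply]

lemma continuous_tv {e : M → EE N} (he : ContMDiff 𝓘(ℝ, V) (𝓡 N) ∞ e)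
    (hinj : ∀ x, Injective (mfderiv 𝓘(ℝ, V) (𝓡 N) e x)) {g : M → EE N} (hg : Continuous g) :
    Continuous (fun x => (⟨x, tv V e x (g x)⟩ : TotalSpace V (fun x : M => TangentSpace 𝓘(ℝ, V) x))) := by
  rw [continuous_iff_continuousAt]
  intro x₀
  rw [FiberBundle.continuousAt_totalSpace]
  refine ⟨continuousAt_id, ?_⟩
  have hb : (trivializationAt V
      (fun x : M => TangentSpace 𝓘(ℝ, V) x) x₀).baseSet ∈ 𝓝 x₀ :=
    (Trivialization.open_baseSet _).mem_nhds (FiberBundle.mem_baseSet_trivializationAt' x₀)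
  have h1 : (fun y => pinv (locD V e x₀ y) (g y)) =ᶠ[𝓝 x₀] fun y =>
      ((trivializationAt V (fun x : M => TangentSpace 𝓘(ℝ, V) x) x₀)
        ⟨y, tv V e y (g y)⟩).2 := by
    filter_upwards [hb] with y hy
    rw [← coord_tv hinj hy, Trivialization.continuousLinearMapAt_apply,
      Trivialization.coe_linearMapAt_of_mem _ hy]
  refine ContinuousAt.congr ?_ h1
  have h2 : ContinuousAt (fun y => pinv (locD V e x₀ y)) x₀ :=
    ContinuousAt.comp (f := fun y => locD V e x₀ y)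
      (continuousAt_pinv _ (locD_injective V hinj (FiberBundle.mem_baseSet_trivializationAt' x₀)))
      (locD_continuousAt V he x₀)
  exact h2.clm_apply hg.continuousAt

end section_

section bilin

variable {V : Type*} [NormedAddCommGroup V] [NormedSpace ℝ V] [FiniteDimensional ℝ V] {N : ℕ}
  {M : Type*} [MetricSpace M] [ChartedSpace V M] [IsManifold 𝓘(ℝ, V) ∞ M]

omit [FiniteDimensional ℝ V] [IsManifold 𝓘(ℝ, V) ∞ M] in
lemma tv_add (e : M → EE N) (x : M) (v w : EE N) : tv V e x (v + w) = tv V e x v + tv V e x w :=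
  map_add (pinv (dF V e x)) v w

omit [FiniteDimensional ℝ V] [IsManifold 𝓘(ℝ, V) ∞ M] in
lemma tv_smul (e : M → EE N) (x : M) (c : ℝ) (w : EE N) : tv V e x (c • w) = c • tv V e x w :=
  map_smul (pinv (dF V e x)) c w

omit [IsManifold 𝓘(ℝ, V) ∞ M] in
lemma tv_dE {e : M → EE N} (hinj : ∀ x, Injective (mfderiv 𝓘(ℝ, V) (𝓡 N) e x)) (x : M)
    (u : TangentSpace 𝓘(ℝ, V) x) : tv V e x (mfderiv 𝓘(ℝ, V) (𝓡 N) e x u) = u :=
  pinv_apply (dF V e x) (hinj x) u

variable [RiemannianBundle (fun x : M => TangentSpace 𝓘(ℝ, V) x)]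

/-- the bilinear form -/
noncomputable def Bl (V : Type*) [NormedAddCommGroup V] [NormedSpace ℝ V] {N : ℕ}
    {M : Type*} [MetricSpace M] [ChartedSpace V M]
    [RiemannianBundle (fun x : M => TangentSpace 𝓘(ℝ, V) x)]
    (e : M → EE N) (S : M → EE N →L[ℝ] EE N) (x : M) :
    EE N →L[ℝ] EE N →L[ℝ] ℝ :=
  LinearMap.toContinuousLinearMap
    ((LinearMap.toContinuousLinearMap (𝕜 := ℝ) (E := EE N) (F' := ℝ)).toLinearMap ∘ₗ
      LinearMap.mk₂ ℝ (fun v w => inner ℝ (tv V e x (S x v)) (tv V e x (S x w)))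
        (fun v v' w => by rw [map_add, tv_add, inner_add_left])
        (fun c v w => by rw [map_smul, tv_smul, real_inner_smul_left]; rfl)
        (fun v w w' => by rw [map_add, tv_add, inner_add_right])
        (fun c v w => by rw [map_smul, tv_smul, real_inner_smul_right]; rfl))

omit [FiniteDimensional ℝ V] [IsManifold 𝓘(ℝ, V) ∞ M] in
lemma Bl_apply (e : M → EE N) (S : M → EE N →L[ℝ] EE N) (x : M) (v w : EE N) :
    Bl V e S x v w = inner ℝ (tv V e x (S x v)) (tv V e x (S x w)) := rfl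

lemma continuous_Bl [IsContinuousRiemannianBundle V (fun x : M => TangentSpace 𝓘(ℝ, V) x)]
    {e : M → EE N} (he : ContMDiff 𝓘(ℝ, V) (𝓡 N) ∞ e)
    (hinj : ∀ x, Injective (mfderiv 𝓘(ℝ, V) (𝓡 N) e x)) {S : M → EE N →L[ℝ] EE N}
    (hS : Continuous S) : Continuous (Bl V e S) := by
  rw [continuous_clm_apply]
  intro v
  rw [continuous_clm_apply]
  intro w
  simp only [Bl_apply]
  exact (continuous_tv he hinj (hS.clm_apply continuous_const)).inner_bundle
    (continuous_tv he hinj (hS.clm_apply continuous_const))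

end bilin

end Pool.Agent.Lib.MP610fe3.Cf.Mfd

namespace Pool.Agent.Lib.MP610fe3.Cf

open Gen Mfd

universe u v

theorem specConf : SpecConf.{u, v} := by
  intro V _ _ _ N M _ _ _ _ _ _ E he hinj hP f hf s hs F hF ha
  have hinj' : ∀ x, Injective (dF V E.e x) := hinj
  choose a ha0 ha using ha
  obtain ⟨c, C, hc, hC, hn⟩ := exists_norm_bounds E.e he hinj
  -- apply the derivative of the embedding
  have hSS : ∀ x w, s.S x (s.S x w) = s.S x w := fun x w => congrArg (fun L => L w) (s.SS x)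
  have hPS : ∀ x w, E.P x (s.S x w) = s.S x w := fun x w => congrArg (fun L => L w) (s.PS x)
  have hDS : ∀ x w, s.D x (s.S x w) = s.S (f x) (s.D x w) :=
    fun x w => congrArg (fun L => L w) (s.DS x)
  have htS : ∀ x w, mfderiv 𝓘(ℝ, V) (𝓡 N) E.e x (tv V E.e x (s.S x w)) = s.S x w := by
    intro x w
    have h1 := hPS x w
    rw [hP x] at h1
    exact h1
  have htF : ∀ x w, tv V E.e x (s.S x w) ∈ F x := by
    intro x w
    have h1 : s.S x w ∈ (s.S x).range := ⟨w, rfl⟩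
    rw [hF x] at h1
    obtain ⟨u₀, hu₀, h2⟩ := h1
    have h3 : mfderiv 𝓘(ℝ, V) (𝓡 N) E.e x u₀ = s.S x w := h2
    rw [← h3, tv_dE hinj]
    exact hu₀
  have hDd : ∀ x (u : TangentSpace 𝓘(ℝ, V) x), s.D x (mfderiv 𝓘(ℝ, V) (𝓡 N) E.e x u) =
      mfderiv 𝓘(ℝ, V) (𝓡 N) E.e (f x) (mfderiv 𝓘(ℝ, V) 𝓘(ℝ, V) f x u) := by
    intro x u
    have he1 : ContMDiff 𝓘(ℝ, V) (𝓡 N) 1 E.e := he.of_le (by exact_mod_cast le_top)
    have h3 := mfderiv_comp (I := 𝓘(ℝ, V)) (I' := 𝓘(ℝ, V)) (I'' := 𝓡 N) (f := f) x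
      (he1.mdifferentiable (by norm_num) (f x)) (hf.mdifferentiable (by norm_num) x)
    rw [HasD_eq_KF E he hinj hP hf s.hD x]
    refine (KF_apply hinj' x u).trans ?_
    unfold dF
    rw [h3]
    rfl
  have hkey : ∀ x w, tv V E.e (f x) (s.S (f x) (s.D x w)) =
      mfderiv 𝓘(ℝ, V) 𝓘(ℝ, V) f x (tv V E.e x (s.S x w)) := by
    intro x w
    rw [← hDS]
    conv_lhs => rw [← htS x w]
    rw [hDd, tv_dE hinj]
  have hpol : ∀ x, ∀ u ∈ F x, ∀ u' ∈ F x,
      inner ℝ (mfderiv 𝓘(ℝ, V) 𝓘(ℝ, V) f x u) (mfderiv 𝓘(ℝ, V) 𝓘(ℝ, V) f x u') =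
        a x ^ 2 * inner ℝ u u' := by
    intro x u hu u' hu'
    have h1 := ha x u hu
    have h2 := ha x u' hu'
    have h3 := ha x (u + u') ((F x).add_mem hu hu')
    rw [map_add] at h3
    rw [real_inner_eq_norm_add_mul_self_sub_norm_mul_self_sub_norm_mul_self_div_two,
      real_inner_eq_norm_add_mul_self_sub_norm_mul_self_sub_norm_mul_self_div_two, h1, h2, h3]
    ring
  refine ⟨⟨Bl V E.e s.S, a, C ^ 2, by positivity, continuous_Bl he hinj (s.continuous_S hs),
    ?_, ?_, ?_, ha0, ?_⟩⟩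
  · intro x v w
    rw [Bl_apply, Bl_apply, real_inner_comm]
  · intro x v w
    rw [Bl_apply, Bl_apply, hSS]
  · intro x w
    rw [Bl_apply, real_inner_self_eq_norm_sq, ← mul_pow]
    refine pow_le_pow_left₀ (norm_nonneg _) ?_ 2
    have h1 := (hn x (tv V E.e x (s.S x w))).2
    rw [norm_tangentSpace_vectorSpace] at h1
    exact (le_of_eq (congrArg (fun y : EuclideanSpace ℝ (Fin N) => ‖y‖) (htS x w).symm)).trans h1
  · intro x v w
    rw [Bl_apply, Bl_apply, hkey, hkey]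
    exact hpol x _ (htF x v) _ (htF x w)

end Pool.Agent.Lib.MP610fe3.Cf
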