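import Pool.Agent.Lib.MP_610fe3_an.Cf.Public

/-!
# Determinant pinching: definition
-/

open Set Filter Function Bundle
open scoped Manifold ContDiff Topology

namespace Pool.Agent.Lib.MP610fe3.Cf

/-- The power `d` of the norm of the restriction of `D f^n` to `F` is bounded by a constant times
its Jacobian (`LinearMap.normDet`: the determinant in orthonormal bases), for all `n ≥ 0` and all
points. -/
def DetPinched {V : Type*} [NormedAddCommGroup V] [NormedSpace ℝ V] [FiniteDimensional ℝ V]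
    {M : Type*} [TopologicalSpace M] [ChartedSpace V M]
    [RiemannianBundle (fun x : M => TangentSpace 𝓘(ℝ, V) x)]
    (d : ℕ) (f : M → M) (F : ∀ x : M, Submodule ℝ (TangentSpace 𝓘(ℝ, V) x)) : Prop :=
  ∃ C : ℝ, ∀ (n : ℕ) (x : M), ∀ v ∈ F x,
    ‖mfderiv 𝓘(ℝ, V) 𝓘(ℝ, V) (f^[n]) x v‖ ^ d ≤
      C * ‖v‖ ^ d * (haveI : FiniteDimensional ℝ (TangentSpace 𝓘(ℝ, V) x) :=
        inferInstanceAs (FiniteDimensional ℝ V)
      ((mfderiv 𝓘(ℝ, V) 𝓘(ℝ, V) (f^[n]) x).toLinearMap.domRestrict (F x)).normDet)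

end Pool.Agent.Lib.MP610fe3.Cf
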