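import Pool.Agent.Lib.MP_610fe3_an.Cf.Spec
import Pool.Agent.Lib.MP_610fe3_an.Cf.Public2

/-!
# Second phase: the unstable bundle is only determinant pinched

The unstable flats are replaced by the coordinates `y ↦ U x (e y - e x)` of the unstable sets,
the unstable conformality by `‖D f^n | Eu‖ ^ 2 ≤ C * det (D f^n | Eu)`.
-/

open Set Filter Function MeasureTheory Bundle
open scoped Topology Manifold ContDiff

namespace Pool.Agent.Lib.MP610fe3.Cf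

universe u v

section

variable {M W : Type*} [MetricSpace M] [NormedAddCommGroup W] [NormedSpace ℝ W]
  {E : Emb M W} {f : M ≃ₜ M}

/-- Coordinates of local stable sets by projection to the stable space (to be applied to
`s.swap`, for the unstable sets). -/
structure Crd (s : Split E f) (ε C : ℝ) : Prop where
  ε_pos : 0 < ε
  one_le : 1 ≤ C
  lower : ∀ x, ∀ z ∈ Wl f ε x, ∀ z' ∈ Wl f ε x, dist z z' ≤ C * ‖s.S x (E.e z - E.e z')‖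
  surj : ∀ ε' : ℝ, 0 < ε' → ∃ r : ℝ, 0 < r ∧ ∀ x w, s.S x w = w → ‖w‖ ≤ r →
    ∃ z ∈ Wl f ε' x, s.S x (E.e z - E.e x) = w

end

section

variable {M W : Type*} [MetricSpace M] [NormedAddCommGroup W] [InnerProductSpace ℝ W]
  [FiniteDimensional ℝ W] {E : Emb M W} {f : M ≃ₜ M}

/-- Determinant pinching of the unstable bundle, with exponent `d`. -/
def Pin (s : Split E f) (d : ℕ) (C : ℝ) : Prop :=
  ∀ (n : ℕ) (x : M) (w : W), ‖iterD s.D f n x (s.U x w)‖ ^ d ≤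
    C * ‖s.U x w‖ ^ d * ((iterD s.D f n x).toLinearMap.domRestrict (s.U x).range).normDet

/-- `Ψ` is the inverse of the coordinate of the unstable set of `x`, on the ball of radius `r`,
the unstable space being identified with a Euclidean space by `θ`. -/
structure UChart (s : Split E f) {u : ℕ} (x : M) (ρ r : ℝ)
    (θ : EuclideanSpace ℝ (Fin u) →ₗᵢ[ℝ] W) (Ψ : EuclideanSpace ℝ (Fin u) → M) : Prop where
  rng : ∀ w, s.U x (θ w) = θ w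
  mem : ∀ w, ‖w‖ ≤ r → Ψ w ∈ Wl f.symm ρ x
  eq : ∀ w, ‖w‖ ≤ r → s.U x (E.e (Ψ w) - E.e x) = θ w

/-- Integrated determinant pinching over Bowen balls of unstable sets. -/
def PinchProp (s : Split E f) (u d : ℕ) : Prop :=
  ∃ ρ₁ C₁ : ℝ, 0 < ρ₁ ∧ ∀ (x : M) (ρ r : ℝ) (θ : EuclideanSpace ℝ (Fin u) →ₗᵢ[ℝ] W)
    (Ψ : EuclideanSpace ℝ (Fin u) → M), 0 < ρ → ρ ≤ ρ₁ → UChart s x ρ r θ Ψ →
    ∀ n : ℕ, ∀ y ∈ Wl f.symm ρ x, ∀ δ : ℝ, δ ≤ ρ₁ →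
    ∫⁻ w in {w | ‖w‖ ≤ r ∧ ∀ k ≤ n, dist (f^[k] (Ψ w)) (f^[k] y) ≤ δ},
      ENNReal.ofReal (‖iterD s.D f n (Ψ w) ∘L s.U (Ψ w)‖ ^ d) ≤ ENNReal.ofReal C₁

end

/-- Conclusion of LEN2 (exponent `d`, with distortion control for `α`). -/
def LenProp2 {M : Type*} [MetricSpace M] (f : M ≃ₜ M) (d : ℕ) : Prop :=
  ∃ ρ₀ : ℝ, 0 < ρ₀ ∧ ∀ ρ : ℝ, 0 < ρ → ρ ≤ ρ₀ → ∃ ρ' : ℝ, 0 < ρ' ∧ ρ' ≤ ρ ∧
    ∀ (x : M) (α : ℕ → M → ℝ) (F : M → ℝ) (C₀ l' δ : ℝ), 0 < δ → δ ≤ ρ₀ → 0 < l' → l' < 1 →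
    (∀ n, Continuous (α n)) →
    (∀ n y, 0 ≤ α n y ∧ α n y ≤ C₀ * l' ^ n) →
    (∀ n, ∀ y ∈ Wl f.symm ρ x, ∀ y' ∈ Wl f.symm ρ x,
      (∀ k ≤ n, dist (f^[k] y) (f^[k] y') ≤ 2 * δ) → α n y ≤ C₀ * α n y') →
    (∀ᶠ n in atTop, ∀ y ∈ Wl f.symm ρ x, ∀ y' ∈ Wl f.symm ρ x,
      (∀ k ≤ n, dist (f^[k] y) (f^[k] y') ≤ δ) → |F y' - F y| ≤ C₀ * α n y) →
    (∀ η : ℝ, 0 < η → ∀ᶠ n in atTop, ∀ Y : Finset M, (∀ y ∈ Y, y ∈ Wl f.symm ρ x) →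
      Sep f δ n Y → ∑ y ∈ Y, α n y ^ d ≤ η) →
    ∀ y ∈ Wl f.symm ρ' x, F y = F x

/-! ### Statements of the modules -/

/-- CRD -/
def SpecCrd : Prop :=
  ∀ (M : Type u) (W : Type v) [MetricSpace M] [CompactSpace M] [NormedAddCommGroup W]
    [NormedSpace ℝ W] [FiniteDimensional ℝ W] (E : Emb M W) (f : M ≃ₜ M) (s : Split E f),
    s.Hyperbolic → ∃ ε C : ℝ, Crd s ε C

/-- PINCH -/
def SpecPinch : Prop :=
  ∀ (M : Type u) (W : Type v) [MetricSpace M] [CompactSpace M] [NormedAddCommGroup W]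
    [InnerProductSpace ℝ W] [FiniteDimensional ℝ W] (E : Emb M W) (f : M ≃ₜ M) (s : Split E f)
    (ε C l C' : ℝ) (u d : ℕ), s.Hyperbolic → Crd s.swap ε C → Dec f.symm ε C l →
    (∀ x, Module.finrank ℝ (s.U x).range = u) → Pin s d C' → PinchProp s u d

/-- LEN2 -/
def SpecLen2 : Prop :=
  ∀ (M : Type u) (W : Type v) [MetricSpace M] [CompactSpace M] [NormedAddCommGroup W]
    [InnerProductSpace ℝ W] [FiniteDimensional ℝ W] (E : Emb M W) (f : M ≃ₜ M) (s : Split E f)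
    (ε C l : ℝ) (u d : ℕ), s.Hyperbolic → Crd s.swap ε C → Dec f.symm ε C l →
    (∀ x, Module.finrank ℝ (s.U x).range = u) → 1 ≤ u → 1 ≤ d → PinchProp s u d → LenProp2 f d

/-- VANISH2 -/
def SpecVanish2 : Prop :=
  ∀ (M : Type u) (W : Type v) [MetricSpace M] [CompactSpace M] [NormedAddCommGroup W]
    [NormedSpace ℝ W] [FiniteDimensional ℝ W] (E : Emb M W) (f : M ≃ₜ M) (s : Split E f)
    (c : Conf s) (ε C l : ℝ) (ψ : M → M → W) (Q : M → M → W →L[ℝ] W) (q : M → M → ℝ)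
    (P : M → M → W →L[ℝ] W) (p : M → M → ℝ) (ε₁ ε₂ ε₃ C' : ℝ) (d : ℕ),
    Pack c ε C l ψ Q q P p → ε₁ ≤ ε → Hlo f ψ P p q ε₁ ε₂ ε₃ C' →
    SumProp f c.an d → LenProp2 f d → VanProp f p q ε₁ ε₂

/-- BOX2 -/
def SpecBox2 : Prop :=
  ∀ (M : Type u) (W : Type v) [MetricSpace M] [CompactSpace M] [MeasurableSpace M]
    [BorelSpace M] [NormedAddCommGroup W] [NormedSpace ℝ W] [FiniteDimensional ℝ W]
    (μ : Measure M) [IsFiniteMeasure μ] (E : Emb M W) (f : M ≃ₜ M) (s : Split E f)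
    (C₀ : ℝ) (c : Conf s) (ε C l : ℝ) (ψ : M → M → W)
    (Q : M → M → W →L[ℝ] W) (q : M → M → ℝ) (P : M → M → W →L[ℝ] W) (p : M → M → ℝ)
    (κ : ℝ) (m u : ℕ),
    Sq s C₀ → Pack c ε C l ψ Q q P p → Crd s.swap ε C →
    (∀ x, Module.finrank ℝ (s.U x).range = u) → u ≤ m → 0 < κ →
    (∀ x, ∀ r : ℝ, 0 < r → r ≤ 1 → κ * r ^ m ≤ μ.real (Metric.ball x r)) →
    BoxLe μ f c.an (m - u)

/-- FINAL2 -/
def SpecFinal2 : Prop :=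
  ∀ (M : Type u) (W : Type v) [MetricSpace M] [CompactSpace M] [ConnectedSpace M]
    [NormedAddCommGroup W] [NormedSpace ℝ W] [FiniteDimensional ℝ W] (E : Emb M W)
    (f : M ≃ₜ M) (s : Split E f)
    (c : Conf s) (ε C l : ℝ) (ψ : M → M → W)
    (Q : M → M → W →L[ℝ] W) (q : M → M → ℝ) (P : M → M → W →L[ℝ] W) (p : M → M → ℝ)
    (ε₁ ε₂ ε₃ C' : ℝ),
    Pack c ε C l ψ Q q P p → Crd s.swap ε C → ε₁ ≤ ε →
    Hlo f ψ P p q ε₁ ε₂ ε₃ C' → VanProp f p q ε₁ ε₂ → ChainTransitive f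

/-- PINM -/
def SpecPinM : Prop :=
  ∀ (V : Type v) [NormedAddCommGroup V] [NormedSpace ℝ V] [FiniteDimensional ℝ V] (N : ℕ)
    (M : Type u) [MetricSpace M] [CompactSpace M] [ChartedSpace V M] [IsManifold 𝓘(ℝ, V) ∞ M]
    [RiemannianBundle (fun x : M => TangentSpace 𝓘(ℝ, V) x)]
    [IsContinuousRiemannianBundle V (fun x : M => TangentSpace 𝓘(ℝ, V) x)]
    (E : Emb M (EuclideanSpace ℝ (Fin N))), ContMDiff 𝓘(ℝ, V) (𝓡 N) ∞ E.e →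
    (∀ x, Injective (mfderiv 𝓘(ℝ, V) (𝓡 N) E.e x)) →
    (∀ x, E.P x = Gen.KF V E.e E.e x) →
    ∀ (f : M ≃ₜ M), ContMDiff 𝓘(ℝ, V) 𝓘(ℝ, V) 1 f →
    ∀ (s : Split E f) (F : ∀ x : M, Submodule ℝ (TangentSpace 𝓘(ℝ, V) x)),
    (∀ x, (s.U x).range = (F x).map (mfderiv 𝓘(ℝ, V) (𝓡 N) E.e x).toLinearMap) →
    ∀ d : ℕ, DetPinched d f F → ∃ C : ℝ, Pin s d C

end Pool.Agent.Lib.MP610fe3.Cf
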