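import Pool.Agent.Lib.MP_610fe3_an.Cf.H1Trap

/-!
# Module SUM: sums over separated sets near a wandering point tend to zero
-/

open Set Filter Function MeasureTheory
open scoped Topology

namespace Pool.Agent.Lib.MP610fe3.Cf

universe u v

open H1

theorem isClosed_box {M : Type*} [MetricSpace M] (f : M ≃ₜ M) (δ : ℝ) (n : ℕ) (w : M) :
    IsClosed (Box f δ n w) := by
  have : Box f δ n w = ⋂ k : ℕ, ⋂ _ : k ≤ n,
      {x | dist (f.symm^[k] x) (f.symm^[k] w) ≤ δ} := by
    ext x; simp [Box]
  rw [this]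
  refine isClosed_iInter fun k => isClosed_iInter fun _ => isClosed_le ?_ continuous_const
  exact (f.symm.continuous.iterate k).dist continuous_const

theorem sum : SpecSum.{u} := by
  intro M _ _ _ _ μ _ f α sd hα hbox U hU x hxB hxA
  obtain ⟨J, hJ⟩ := hxB
  have hxA' : ∃ J' : ℕ, f.symm^[J'] x ∉ U := by
    by_contra hcon
    push Not at hcon
    exact hxA hcon
  obtain ⟨J', hJ'⟩ := hxA'
  have hcl : f.symm^[J' + 1] x ∉ closure U := by
    intro h
    have := hU.2 h
    rw [iterate_succ_apply', f.apply_symm_apply] at this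
    exact hJ' this
  -- a good neighbourhood
  have hopen : IsOpen ((f^[J]) ⁻¹' U ∩ (f.symm^[J' + 1]) ⁻¹' (closure U)ᶜ) :=
    (hU.1.preimage (f.continuous.iterate J)).inter
      (isClosed_closure.isOpen_compl.preimage (f.symm.continuous.iterate (J' + 1)))
  obtain ⟨r, hr, hrB⟩ := Metric.isOpen_iff.1 hopen x ⟨hJ, hcl⟩
  refine ⟨r / 2, by positivity, fun δ hδ hδr η hη => ?_⟩
  obtain ⟨κ, hκ, hκb⟩ := hbox (δ / 3) (by positivity)
  -- the measures of the images
  set V : ℕ → Set M := fun n => (f.symm^[n]) ⁻¹' U with hV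
  have hVanti : Antitone V := by
    intro m n hmn y hy
    exact trap_symm_le hU hmn hy
  have hVm : ∀ n, MeasurableSet (V n) := fun n =>
    (hU.1.preimage (f.symm.continuous.iterate n)).measurableSet
  have hlim : Tendsto (fun n => μ.real (V n)) atTop (𝓝 (μ.real (⋂ n, V n))) := by
    have h1 := tendsto_measure_iInter_atTop (μ := μ) (s := V)
      (fun n => (hVm n).nullMeasurableSet) hVanti ⟨0, measure_ne_top _ _⟩
    exact (ENNReal.tendsto_toReal (measure_ne_top _ _)).comp h1
  have hdiff : Tendsto (fun n => μ.real (V n) - μ.real (V (n + (J + (J' + 1))))) atTop (𝓝 0) := by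
    have h2 := (tendsto_add_atTop_iff_nat (f := fun n => μ.real (V n)) (J + (J' + 1))).2 hlim
    have h3 := hlim.sub h2
    rwa [sub_self] at h3
  have hev := hdiff.eventually (gt_mem_nhds (show 0 < κ * η by positivity))
  have hev2 : ∀ᶠ n in atTop, μ.real (V (n - J)) - μ.real (V (n + (J' + 1))) < κ * η := by
    obtain ⟨N, hN⟩ := eventually_atTop.1 hev
    refine eventually_atTop.2 ⟨N + J, fun n hn => ?_⟩
    have := hN (n - J) (by omega)
    rwa [show n - J + (J + (J' + 1)) = n + (J' + 1) by omega] at this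
  filter_upwards [hev2, eventually_ge_atTop J] with n hn hnJ Y hY hsep
  have hbn : ∀ y ∈ Y, Box f (δ / 3) n (f^[n] y) ⊆ V (n - J) \ V (n + (J' + 1)) := by
    intro y hy w hw
    have h1 := hw n le_rfl
    rw [symm_iter_iter] at h1
    have h2 : f.symm^[n] w ∈ Metric.ball x r := by
      rw [Metric.mem_ball]
      have := hY y hy
      have := dist_triangle (f.symm^[n] w) y x
      linarith
    obtain ⟨h3, h4⟩ := hrB h2
    constructor
    · have h5 : f^[J] (f.symm^[n] w) = f.symm^[n - J] w := by
        have : n = J + (n - J) := by omega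
        conv_lhs => rw [this, iterate_add_apply, iter_symm_iter]
      change f.symm^[n - J] w ∈ U
      rw [← h5]
      exact h3
    · intro h6
      apply h4
      change f.symm^[J' + 1] (f.symm^[n] w) ∈ closure U
      rw [← iterate_add_apply, add_comm (J' + 1) n]
      exact subset_closure h6
  have hdisj : Set.PairwiseDisjoint (↑Y : Set M) (fun y => Box f (δ / 3) n (f^[n] y)) := by
    intro y hy y' hy' hne
    rw [Function.onFun, Set.disjoint_left]
    intro w hw hw'
    obtain ⟨k, hk, hd⟩ := hsep y hy y' hy' hne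
    have h1 := hw (n - k) (by omega)
    have h2 := hw' (n - k) (by omega)
    have h3 : ∀ z : M, f.symm^[n - k] (f^[n] z) = f^[k] z := by
      intro z
      rw [symm_iterate_iterate f (by omega : n - k ≤ n)]
      congr 1
      congr 1
      omega
    rw [h3] at h1 h2
    have h4 := dist_triangle_left (f^[k] y) (f^[k] y') (f.symm^[n - k] w)
    linarith
  have hmeas : ∀ y ∈ Y, MeasurableSet (Box f (δ / 3) n (f^[n] y)) := fun y _ =>
    (isClosed_box f _ _ _).measurableSet
  have hsum : ∑ y ∈ Y, μ.real (Box f (δ / 3) n (f^[n] y))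
      = μ.real (⋃ y ∈ Y, Box f (δ / 3) n (f^[n] y)) :=
    (measureReal_biUnion_finset hdisj hmeas).symm
  have hle : μ.real (⋃ y ∈ Y, Box f (δ / 3) n (f^[n] y))
      ≤ μ.real (V (n - J) \ V (n + (J' + 1))) := by
    refine measureReal_mono (iUnion₂_subset hbn) (measure_ne_top _ _)
  have hdm : μ.real (V (n - J) \ V (n + (J' + 1)))
      = μ.real (V (n - J)) - μ.real (V (n + (J' + 1))) :=
    measureReal_sdiff (hVanti (by omega)) (hVm _)
  have hfin : κ * ∑ y ∈ Y, α n y ^ sd ≤ κ * η := by
    rw [Finset.mul_sum]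
    calc ∑ y ∈ Y, κ * α n y ^ sd ≤ ∑ y ∈ Y, μ.real (Box f (δ / 3) n (f^[n] y)) := by
          refine Finset.sum_le_sum fun y _ => ?_
          have := hκb n (f^[n] y)
          rwa [symm_iter_iter] at this
      _ ≤ κ * η := by rw [hsum]; exact hle.trans (by rw [hdm]; exact hn.le)
  exact le_of_mul_le_mul_left hfin hκ

end Pool.Agent.Lib.MP610fe3.Cf
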