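import Pool.Agent.Lib.MP_610fe3_an.Cf.Br

/-!
# Module SURJ: the linearization is onto small balls
-/

open Set Filter Function
open scoped Topology

namespace Pool.Agent.Lib.MP610fe3.Cf

universe u v

section

variable {M W : Type*} [MetricSpace M] [CompactSpace M] [NormedAddCommGroup W] [NormedSpace ℝ W]
  {E : Emb M W} {f : M ≃ₜ M} {s : Split E f}

theorem surj_step {c : Conf s} {ε C : ℝ} {ψ : M → M → W} {Q : M → M → W →L[ℝ] W}
    {q : M → M → ℝ} (hs : s.Hyperbolic) (hF : Flat c ε C ψ Q q) (hB : Br f ε C)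
    {θ ε' : ℝ} (hθ : 0 < θ) (hε' : 0 < ε') :
    ∃ r : ℝ, 0 < r ∧ ∀ x w, s.S x w = w → ‖w‖ ≤ r →
      ∃ z ∈ Wl f ε' x, ‖ψ x z - w‖ ≤ θ * ‖w‖ := by
  obtain ⟨K, hK1, hK⟩ := s.exists_bdd
  have hC1 := hF.one_le
  have hC0 : 0 < C := by linarith
  have hK0 : 0 < K := by linarith
  set T : ℝ := 2 * C + K + 2 * C * K + 2 * C with hT
  have hTpos : 0 < T := by positivity
  set η : ℝ := min 1 (θ / (2 * T)) with hη
  have hηpos : 0 < η := lt_min one_pos (by positivity)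
  have hη1 : η ≤ 1 := min_le_left _ _
  have hηT : η * T ≤ θ / 2 := by
    have : η ≤ θ / (2 * T) := min_le_right _ _
    calc η * T ≤ θ / (2 * T) * T := mul_le_mul_of_nonneg_right this hTpos.le
      _ = θ / 2 := by field_simp
  obtain ⟨ε₁, hε₁, h₁⟩ := br_cone s hs hηpos
  obtain ⟨ε₂, hε₂, h₂⟩ := br_cone s.swap hs.swap hηpos
  obtain ⟨r₃, hr₃, h₃⟩ := s.exists_mixed hs hηpos
  obtain ⟨r₄, hr₄, h₄⟩ := E.exists_pt η hηpos
  set ε₀ : ℝ := min (min ε' ε) (min ε₁ ε₂) with hε₀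
  have hε₀pos : 0 < ε₀ := lt_min (lt_min hε' hF.ε_pos) (lt_min hε₁ hε₂)
  have hε₀' : ε₀ ≤ ε' := (min_le_left _ _).trans (min_le_left _ _)
  have hε₀ε : ε₀ ≤ ε := (min_le_left _ _).trans (min_le_right _ _)
  have hε₀₁ : ε₀ ≤ ε₁ := (min_le_right _ _).trans (min_le_left _ _)
  have hε₀₂ : ε₀ ≤ ε₂ := (min_le_right _ _).trans (min_le_right _ _)
  obtain ⟨δ, hδ, h₅⟩ := hB.exist ε₀ hε₀pos
  set r : ℝ := min (min (r₃ / 4) (r₄ / 2)) (min (δ / 4) (θ / (2 * (4 * C ^ 3)))) with hr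
  have hrpos : 0 < r := by
    refine lt_min (lt_min (by positivity) (by positivity)) (lt_min (by positivity) (by positivity))
  have hr3 : r ≤ r₃ / 4 := (min_le_left _ _).trans (min_le_left _ _)
  have hr4 : r ≤ r₄ / 2 := (min_le_left _ _).trans (min_le_right _ _)
  have hrδ : r ≤ δ / 4 := (min_le_right _ _).trans (min_le_left _ _)
  have hrθ : 4 * C ^ 3 * r ≤ θ / 2 := by
    have : r ≤ θ / (2 * (4 * C ^ 3)) := (min_le_right _ _).trans (min_le_right _ _)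
    calc 4 * C ^ 3 * r ≤ 4 * C ^ 3 * (θ / (2 * (4 * C ^ 3))) :=
          mul_le_mul_of_nonneg_left this (by positivity)
      _ = θ / 2 := by field_simp
  refine ⟨r, hrpos, fun x w hSw hw => ?_⟩
  have hPw : E.P x w = w := by
    rw [← hSw, s.PS_apply]
  have hn : 0 ≤ ‖w‖ := norm_nonneg _
  obtain ⟨z₀, hz₀⟩ := h₄ x w (by linarith)
  rw [hPw] at hz₀
  have hd₀ : dist z₀ x ≤ 2 * ‖w‖ := by
    rw [E.dist_eq]
    calc ‖E.e z₀ - E.e x‖ = ‖(E.e z₀ - E.e x - w) + w‖ := by rw [sub_add_cancel]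
      _ ≤ η * ‖w‖ + ‖w‖ := (norm_add_le _ _).trans (add_le_add hz₀ le_rfl)
      _ ≤ 2 * ‖w‖ := by nlinarith
  have hd₀' : dist x z₀ ≤ 2 * ‖w‖ := by rw [dist_comm]; exact hd₀
  obtain ⟨z, hzx, hz0⟩ := h₅ x z₀ (by linarith)
  refine ⟨z, Wl_mono hε₀' hzx, ?_⟩
  have e1 : dist z x ≤ 2 * C * ‖w‖ := by
    refine (hB.left x z₀ z (Wl_mono hε₀ε hzx) (Wl_mono hε₀ε hz0)).trans ?_
    calc C * dist x z₀ ≤ C * (2 * ‖w‖) := mul_le_mul_of_nonneg_left hd₀' hC0.le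
      _ = _ := by ring
  have e2 : dist z z₀ ≤ 2 * C * ‖w‖ := by
    refine (hB.right x z₀ z (Wl_mono hε₀ε hzx) (Wl_mono hε₀ε hz0)).trans ?_
    calc C * dist x z₀ ≤ C * (2 * ‖w‖) := mul_le_mul_of_nonneg_left hd₀' hC0.le
      _ = _ := by ring
  have c1 := h₁ x z (Wl_mono hε₀₁ hzx)
  have c2 := h₂ z₀ z (Wl_mono hε₀₂ hz0)
  simp only [Split.swap_S] at c2
  have c3 := (h₃ x z₀ (by linarith)).2 (E.e z - E.e z₀)
  have c4 := hF.approx x z (Wl_mono hε₀ε hzx)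
  set v := E.e z - E.e x with hv
  set t := E.e z - E.e z₀ with ht
  have htd : ‖t‖ = dist z z₀ := (E.dist_eq z z₀).symm
  have hvt : E.e z₀ - E.e x = v - t := by rw [hv, ht]; abel
  rw [hvt] at hz₀
  have d1 : ‖v - s.S x v‖ ≤ η * (2 * C * ‖w‖) := c1.trans (mul_le_mul_of_nonneg_left e1 hηpos.le)
  have d2 : ‖s.S x (t - s.U z₀ t)‖ ≤ K * (η * (2 * C * ‖w‖)) :=
    ((s.S x).le_of_opNorm_le (hK x).1 _).trans
      (mul_le_mul_of_nonneg_left (c2.trans (mul_le_mul_of_nonneg_left e2 hηpos.le)) hK0.le)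
  have d3 : ‖s.S x (s.U z₀ t)‖ ≤ η * (2 * C * ‖w‖) := by
    refine c3.trans (mul_le_mul_of_nonneg_left ?_ hηpos.le)
    rw [htd]; exact e2
  have d4 : ‖s.S x (v - t - w)‖ ≤ K * (η * ‖w‖) :=
    ((s.S x).le_of_opNorm_le (hK x).1 _).trans (mul_le_mul_of_nonneg_left hz₀ hK0.le)
  have d5 : ‖ψ x z - v‖ ≤ θ / 2 * ‖w‖ := by
    refine c4.trans ?_
    have hd0 : 0 ≤ dist z x := dist_nonneg
    calc C * dist z x ^ 2 ≤ C * (2 * C * ‖w‖) ^ 2 := by gcongr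
      _ = (4 * C ^ 3 * ‖w‖) * ‖w‖ := by ring
      _ ≤ (4 * C ^ 3 * r) * ‖w‖ := by gcongr
      _ ≤ θ / 2 * ‖w‖ := mul_le_mul_of_nonneg_right hrθ hn
  have key : ψ x z - w = (ψ x z - v) + (v - s.S x v)
      + (s.S x (v - t - w) + s.S x (t - s.U z₀ t) + s.S x (s.U z₀ t)) := by
    have k1 : s.S x (v - t - w) + s.S x (t - s.U z₀ t) + s.S x (s.U z₀ t) = s.S x v - w := by
      rw [← map_add, ← map_add]
      have : v - t - w + (t - s.U z₀ t) + s.U z₀ t = v - w := by abel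
      rw [this, map_sub, hSw]
    rw [k1]; abel
  rw [key]
  calc _ ≤ θ / 2 * ‖w‖ + η * (2 * C * ‖w‖)
        + (K * (η * ‖w‖) + K * (η * (2 * C * ‖w‖)) + η * (2 * C * ‖w‖)) := by
        refine (norm_add_le _ _).trans (add_le_add ((norm_add_le _ _).trans (add_le_add d5 d1)) ?_)
        exact (norm_add_le _ _).trans (add_le_add ((norm_add_le _ _).trans (add_le_add d4 d2)) d3)
    _ = θ / 2 * ‖w‖ + (η * T) * ‖w‖ := by rw [hT]; ring
    _ ≤ θ / 2 * ‖w‖ + θ / 2 * ‖w‖ := by gcongr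
    _ = θ * ‖w‖ := by ring

end

/-- Module SURJ. -/
theorem surj : SpecSurj.{u, v} := by
  intro M W _ _ _ _ _ E f s c ε C l ψ Q q hs hG hF hB ε' hε'
  obtain ⟨K, hK1, hK⟩ := c.exists_bound
  have hC1 := hF.one_le
  have hC0 : 0 < C := by linarith
  have hK0 : 0 < K := by linarith
  have hε := hF.ε_pos
  set ε₁ : ℝ := min ε' ε with hε₁
  have hε₁pos : 0 < ε₁ := lt_min hε' hε
  have hε₁' : ε₁ ≤ ε' := min_le_left _ _
  have hε₁ε : ε₁ ≤ ε := min_le_right _ _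
  obtain ⟨r₀, hr₀, hstep⟩ := surj_step (θ := 1 / (2 * K ^ 4)) (ε' := ε₁ / 2) hs hF hB
    (by positivity) (by positivity)
  -- bound for `Q`
  obtain ⟨KQ, hKQ⟩ := (isClosed_Wl_prod f ε).isCompact.exists_bound_of_continuousOn hF.Q_cont
  set K' : ℝ := max KQ 1 with hK'
  have hK'1 : 1 ≤ K' := le_max_right _ _
  have hQ : ∀ x, ∀ z ∈ Wl f ε x, ‖Q x z‖ ≤ K' := fun x z hz =>
    (hKQ (x, z) hz).trans (le_max_left _ _)
  set r : ℝ := min (r₀ / K') (ε₁ / (8 * C ^ 2)) with hr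
  have hrpos : 0 < r := lt_min (by positivity) (by positivity)
  have hr1 : K' * r ≤ r₀ := by
    have : r ≤ r₀ / K' := min_le_left _ _
    rw [le_div_iff₀ (by linarith)] at this
    linarith
  have hr2 : 4 * C ^ 2 * r ≤ ε₁ / 2 := by
    have : r ≤ ε₁ / (8 * C ^ 2) := min_le_right _ _
    rw [le_div_iff₀ (by positivity)] at this
    linarith
  refine ⟨r, hrpos, fun x w hSw hw => ?_⟩
  have hself : ψ x x = 0 := by
    have := hF.upper x x (mem_Wl_self hε.le)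
    rw [dist_self, mul_zero] at this
    exact norm_le_zero_iff.1 this
  -- minimize
  have hcont : ContinuousOn (fun z => ‖ψ x z - w‖) (Wl f ε₁ x) := by
    refine ContinuousOn.norm (ContinuousOn.sub ?_ continuousOn_const)
    have h1 : ContinuousOn (fun z : M => (x, z)) (Wl f ε₁ x) := by fun_prop
    exact hF.cont.comp h1 (fun z hz => Wl_mono hε₁ε hz)
  obtain ⟨z, hz, hmin⟩ := (isClosed_Wl f ε₁ x).isCompact.exists_isMinOn
    ⟨x, mem_Wl_self hε₁pos.le⟩ hcont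
  have hmin' : ∀ z' ∈ Wl f ε₁ x, ‖ψ x z - w‖ ≤ ‖ψ x z' - w‖ := fun z' hz' => hmin hz'
  refine ⟨z, Wl_mono hε₁' hz, ?_⟩
  by_contra hne
  have hzε := Wl_mono hε₁ε hz
  have hm : 0 < ‖ψ x z - w‖ := norm_pos_iff.2 (sub_ne_zero.2 hne)
  have hmw : ‖ψ x z - w‖ ≤ ‖w‖ := by
    have := hmin' x (mem_Wl_self hε₁pos.le)
    rwa [hself, zero_sub, norm_neg] at this
  have hψ : ‖ψ x z‖ ≤ 2 * ‖w‖ := by
    calc ‖ψ x z‖ = ‖(ψ x z - w) + w‖ := by rw [sub_add_cancel]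
      _ ≤ ‖w‖ + ‖w‖ := (norm_add_le _ _).trans (add_le_add hmw le_rfl)
      _ = _ := by ring
  have hdz : dist z x ≤ 4 * r := by
    have := hF.lower x z hzε
    linarith
  -- `z` is well inside
  have hz2 : z ∈ Wl f (ε₁ / 2) x := by
    intro n
    have h1 := hG.upper x z hzε n
    have h2 := hG.an_le n x
    have h3 : l ^ n ≤ 1 := pow_le_one₀ hG.l_pos.le hG.l_lt.le
    have h4 : c.an n x ≤ C := h2.trans (by nlinarith)
    have hd0 : 0 ≤ dist z x := dist_nonneg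
    calc dist (f^[n] z) (f^[n] x) ≤ C * c.an n x * dist z x := h1
      _ ≤ C * C * (4 * r) := by
          have := (c.an_pos n x).le
          gcongr
      _ = 4 * C ^ 2 * r := by ring
      _ ≤ ε₁ / 2 := hr2
  -- the new vector
  set w' : W := Q x z (w - ψ x z) with hw'
  have hSw' : s.S z w' = w' := congrArg (fun L => L (w - ψ x z)) (hF.S_Q x z hzε)
  have hnw' : ‖w'‖ ≤ r₀ := by
    calc ‖w'‖ ≤ K' * ‖w - ψ x z‖ := (Q x z).le_of_opNorm_le (hQ x z hzε) _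
      _ ≤ K' * r := by
          rw [norm_sub_rev]
          exact mul_le_mul_of_nonneg_left (hmw.trans hw) (by linarith)
      _ ≤ r₀ := hr1
  obtain ⟨z', hz', hstep'⟩ := hstep z w' hSw' hnw'
  have hz'x : z' ∈ Wl f ε₁ x := by
    have := Wl_trans hz2 hz'
    rwa [add_halves] at this
  have htr := hF.trans x z hzε z' (Wl_mono hε₁ε hz'x)
    (Wl_mono ((half_le_self hε₁pos.le).trans hε₁ε) hz')
  have hmin2 := hmin' z' hz'x
  -- conformality
  have hqpos := hF.q_pos x z hzε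
  have hgQ : ∀ v, c.g z (Q x z v) = q x z * c.g x v := by
    intro v
    unfold Conf.g
    rw [hF.Q_conf x z hzε, Real.sqrt_mul (sq_nonneg _), Real.sqrt_sq hqpos.le]
  have hQd : ψ z z' - w' = Q x z (ψ x z' - w) := by
    rw [htr, hw', ← map_sub]; congr 1; abel
  have hSd : s.S x (ψ x z' - w) = ψ x z' - w := by
    rw [map_sub, hF.mem x z' (Wl_mono hε₁ε hz'x), hSw]
  have hSm : s.S x (w - ψ x z) = w - ψ x z := by
    rw [map_sub, hF.mem x z hzε, hSw]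
  have g1 : ‖ψ x z' - w‖ ≤ K * c.g x (ψ x z' - w) := by
    have := (hK x (ψ x z' - w)).1
    rwa [hSd] at this
  have g2 : q x z * c.g x (ψ x z' - w) ≤ K * (1 / (2 * K ^ 4) * ‖w'‖) := by
    rw [← hgQ, ← hQd]
    exact ((hK z _).2.2).trans (mul_le_mul_of_nonneg_left hstep' hK0.le)
  have g3 : ‖w'‖ ≤ K * (q x z * (K * ‖ψ x z - w‖)) := by
    have h1 := (hK z w').1
    rw [hSw', hw', hgQ] at h1
    refine h1.trans (mul_le_mul_of_nonneg_left (mul_le_mul_of_nonneg_left ?_ hqpos.le) hK0.le)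
    rw [norm_sub_rev]
    exact (hK x _).2.2
  have g4 : q x z * c.g x (ψ x z' - w) ≤ q x z * (‖ψ x z - w‖ / (2 * K)) := by
    refine g2.trans ?_
    calc K * (1 / (2 * K ^ 4) * ‖w'‖)
        ≤ K * (1 / (2 * K ^ 4) * (K * (q x z * (K * ‖ψ x z - w‖)))) := by gcongr
      _ = q x z * (‖ψ x z - w‖ / (2 * K)) := by field_simp
  have g5 : c.g x (ψ x z' - w) ≤ ‖ψ x z - w‖ / (2 * K) := le_of_mul_le_mul_left g4 hqpos
  have g6 : ‖ψ x z' - w‖ ≤ ‖ψ x z - w‖ / 2 := by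
    refine g1.trans ?_
    calc K * c.g x (ψ x z' - w) ≤ K * (‖ψ x z - w‖ / (2 * K)) :=
          mul_le_mul_of_nonneg_left g5 hK0.le
      _ = ‖ψ x z - w‖ / 2 := by field_simp
  linarith

end Pool.Agent.Lib.MP610fe3.Cf
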