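import Pool.Agent.Lib.MP_610fe3_an.Cf.AssemblyM
import Pool.Agent.Lib.MP_610fe3_an.Cf.Spec2
import Pool.Agent.Lib.MP_610fe3_an.Cf.Br
import Pool.Agent.Lib.MP_610fe3_an.Cf.Surj
import Pool.Agent.Lib.MP_610fe3_an.Cf.Flat
import Pool.Agent.Lib.MP_610fe3_an.Cf.LinHol
import Pool.Agent.Lib.MP_610fe3_an.Cf.Holo
import Pool.Agent.Lib.MP_610fe3_an.Cf.Sum
import Pool.Agent.Lib.MP_610fe3_an.Cf.Mfd1
import Pool.Agent.Lib.MP_610fe3_an.Cf.Mfd2
import Pool.Agent.Lib.MP_610fe3_an.Cf.Meas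

/-!
# Assembly of the modules of the second phase
-/

open Set Filter Function MeasureTheory Bundle
open scoped Topology Manifold ContDiff

namespace Pool.Agent.Lib.MP610fe3.Cf

universe u v

section Mono

variable {M W : Type*} [MetricSpace M] [NormedAddCommGroup W] [NormedSpace ℝ W]
  {E : Emb M W} {f : M ≃ₜ M}

theorem Crd.mono {s : Split E f} {ε C ε' C' : ℝ} (h : Crd s ε C) (hε : 0 < ε') (h1 : ε' ≤ ε)
    (h2 : C ≤ C') : Crd s ε' C' :=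
  ⟨hε, h.one_le.trans h2, fun x z hz z' hz' =>
    (h.lower x z (Wl_mono h1 hz) z' (Wl_mono h1 hz')).trans
      (mul_le_mul_of_nonneg_right h2 (norm_nonneg _)), h.surj⟩

/-- trivial case of LEN2: the unstable sets are points -/
theorem lenProp2_of_zero {s : Split E f} {ε C : ℝ} (h : Crd s.swap ε C)
    (h0 : ∀ x, s.U x = 0) (d : ℕ) : LenProp2 f d := by
  refine ⟨ε, h.ε_pos, fun ρ hρ hρε => ⟨ρ, hρ, le_rfl, ?_⟩⟩
  intro x α F C₀ l' δ _ _ _ _ _ _ _ _ _ y hy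
  have h1 := h.lower x y (Wl_mono hρε hy) x (mem_Wl_self h.ε_pos.le)
  have h2 : s.swap.S x = 0 := h0 x
  rw [h2, zero_apply, norm_zero, mul_zero] at h1
  rw [dist_le_zero.1 h1]

end Mono

/-- The abstract theorem of the second phase. -/
theorem abstract_main2 (hCrd : SpecCrd.{u, v}) (hPinch : SpecPinch.{u, v})
    (hLen : SpecLen2.{u, v}) (hBox : SpecBox2.{u, v}) (hVan : SpecVanish2.{u, v})
    (hFin : SpecFinal2.{u, v})
    {M : Type u} {W : Type v} [MetricSpace M] [CompactSpace M] [ConnectedSpace M]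
    [MeasurableSpace M] [BorelSpace M]
    [NormedAddCommGroup W] [InnerProductSpace ℝ W] [FiniteDimensional ℝ W]
    (μ : Measure M) [IsFiniteMeasure μ] {E : Emb M W} {f : M ≃ₜ M} (s : Split E f)
    (hs : s.Hyperbolic) {C₀ : ℝ} (hsq : Sq s C₀) (c : Conf s) {Cp : ℝ} (hpin : Pin s 2 Cp)
    (u : ℕ) (hS : ∀ x, Module.finrank ℝ (s.S x).range = 2)
    (hU : ∀ x, Module.finrank ℝ (s.U x).range = u) {κ : ℝ} (hκ : 0 < κ)
    (hμ : ∀ x, ∀ r : ℝ, 0 < r → r ≤ 1 → κ * r ^ (2 + u) ≤ μ.real (Metric.ball x r)) :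
    ChainTransitive f := by
  have hSne : ∀ x, s.S x ≠ 0 := by
    intro x h0
    have h1 := hS x
    have h2 : (s.S x).range = ⊥ := by
      rw [h0]; ext w; simp [eq_comm]
    rw [h2, finrank_bot] at h1
    exact absurd h1 (by norm_num)
  obtain ⟨e1, C1, l1, hG⟩ := exists_grow c hs hsq hSne
  obtain ⟨e3, C3, ψ, Q, q, hF⟩ := specFlat M W E f s C₀ c e1 C1 l1 hs hsq hSne hG
  obtain ⟨e4, C4, hK⟩ := hCrd M W E f.symm s.swap hs.swap
  obtain ⟨e5, C5, hB⟩ := br M W E f s hs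
  obtain ⟨e7, C7, P, p, hL⟩ := specLinHol M W E f s C₀ c hs hsq hSne
  obtain ⟨e8, C8, l8, hD⟩ := exists_dec s.swap hs.swap
  -- common constants
  obtain ⟨ε, hε, g1, g3, g4, g5, g7, g8⟩ : ∃ ε : ℝ, 0 < ε ∧ ε ≤ e1 ∧ ε ≤ e3 ∧
      ε ≤ e4 ∧ ε ≤ e5 ∧ ε ≤ e7 ∧ ε ≤ e8 := by
    refine ⟨min e1 (min e3 (min e4 (min e5 (min e7 e8)))), ?_, ?_, ?_, ?_, ?_, ?_, ?_⟩
    · simp only [lt_min_iff]
      exact ⟨hG.ε_pos, hF.ε_pos, hK.ε_pos, hB.ε_pos, hL.ε_pos, hD.ε_pos⟩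
    all_goals simp
  obtain ⟨C, k1, k3, k4, k5, k7, k8⟩ : ∃ C : ℝ, C1 ≤ C ∧ C3 ≤ C ∧
      C4 ≤ C ∧ C5 ≤ C ∧ C7 ≤ C ∧ C8 ≤ C := by
    refine ⟨max C1 (max C3 (max C4 (max C5 (max C7 C8)))), ?_, ?_, ?_, ?_, ?_, ?_⟩
    all_goals simp
  obtain ⟨l, m1, m8, hl1⟩ : ∃ l : ℝ, l1 ≤ l ∧ l8 ≤ l ∧ l < 1 := by
    refine ⟨max l1 l8, ?_, ?_, ?_⟩
    · simp
    · simp
    · simp only [max_lt_iff]
      exact ⟨hG.l_lt, hD.l_lt⟩
  have hG' := hG.mono hε g1 k1 m1 hl1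
  have hF' := hF.mono hε g3 k3
  have hK' := hK.mono hε g4 k4
  have hB' := hB.mono hε g5 k5
  have hL' := hL.mono hε g7 k7
  have hD' := hD.mono hε g8 k8 m8 hl1
  have hSj := surj M W E f s c ε C l ψ Q q hs hG' hF' hB'
  have hP : Pack c ε C l ψ Q q P p := ⟨hs, hSne, hG', hD', hF', hSj, hL', hB'⟩
  obtain ⟨ε', -, hDif⟩ := exists_dif hP
  obtain ⟨ε₁, ε₂, ε₃, C', hε₁, hH⟩ := holo M W E f s c ε C l ε' ψ Q q P p hP hDif hS
  have hbox := hBox M W μ E f s C₀ c ε C l ψ Q q P p κ (2 + u) u hsq hP hK' hU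
    (by omega) hκ hμ
  rw [Nat.add_sub_cancel] at hbox
  have hsum := sum M μ f c.an 2 (fun n y => (c.an_pos n y).le) hbox
  have hlen : LenProp2 f 2 := by
    rcases Nat.eq_zero_or_pos u with hu | hu
    · refine lenProp2_of_zero hK' (fun x => ?_) 2
      have h1 := hU x
      rw [hu] at h1
      have h2 : (s.U x).range = ⊥ := Submodule.finrank_eq_zero.1 h1
      ext w
      have h3 : s.U x w ∈ (s.U x).range := ⟨w, rfl⟩
      rw [h2, Submodule.mem_bot] at h3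
      exact h3
    · have hpp : PinchProp s u 2 := hPinch M W E f s ε C l Cp u 2 hs hK' hD' hU hpin
      exact hLen M W E f s ε C l u 2 hs hK' hD' hU hu (by norm_num) hpp
  have hvan := hVan M W E f s c ε C l ψ Q q P p ε₁ ε₂ ε₃ C' 2 hP hε₁ hH hsum hlen
  exact hFin M W E f s c ε C l ψ Q q P p ε₁ ε₂ ε₃ C' hP hK' hε₁ hH hvan

/-- The manifold theorem in the case where the stable dimension is two, with a given embedding. -/
theorem mfd_aux2 (hCrd : SpecCrd.{u, 0}) (hPinch : SpecPinch.{u, 0})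
    (hLen : SpecLen2.{u, 0}) (hBox : SpecBox2.{u, 0}) (hVan : SpecVanish2.{u, 0})
    (hFin : SpecFinal2.{u, 0}) (hPM : SpecPinM.{u, v})
    {V : Type v} [NormedAddCommGroup V] [NormedSpace ℝ V]
    [FiniteDimensional ℝ V] {M : Type u} [MetricSpace M] [CompactSpace M]
    [ConnectedSpace M] [ChartedSpace V M] [IsManifold 𝓘(ℝ, V) ∞ M]
    [RiemannianBundle (fun x : M => TangentSpace 𝓘(ℝ, V) x)]
    [IsContinuousRiemannianBundle V (fun x : M => TangentSpace 𝓘(ℝ, V) x)]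
    {N : ℕ} (e : M → EuclideanSpace ℝ (Fin N)) (hiso : Isometry e)
    (he : ContMDiff 𝓘(ℝ, V) (𝓡 N) ∞ e)
    (hinj : ∀ x, Injective (mfderiv 𝓘(ℝ, V) (𝓡 N) e x))
    (f : M ≃ₘ^1⟮𝓘(ℝ, V), 𝓘(ℝ, V)⟯ M) (hf : ContMDiff 𝓘(ℝ, V) 𝓘(ℝ, V) 2 f)
    (hf' : ContMDiff 𝓘(ℝ, V) 𝓘(ℝ, V) 2 f.symm)
    (Es Eu : ∀ x : M, Submodule ℝ (TangentSpace 𝓘(ℝ, V) x)) (hA : Gen.IsAnosovSplitting f Es Eu)
    (hcs : ConformalOn f Es) (hcu : DetPinched 2 f Eu)
    (h2 : ∀ x, Module.finrank ℝ (Es x) = 2) :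
    TopTransitive f := by
  let : MeasurableSpace M := borel M
  have : BorelSpace M := ⟨rfl⟩
  obtain ⟨E, hE, hEP, hr⟩ := Gen.exists_emb e hiso he hinj
  subst hE
  obtain ⟨s, hs, hsS, hsU⟩ := Gen.exists_split E he hinj hr f Es Eu hA
  obtain ⟨C₀, hsq⟩ := specSq V N M E he hinj hEP f.toHomeomorph hf hf' s
  obtain ⟨c⟩ := specConf V N M E he hinj hEP f.toHomeomorph f.contMDiff s hs Es hsS hcs
  obtain ⟨Cp, hpin⟩ := hPM V N M E he hinj hEP f.toHomeomorph f.contMDiff s Eu hsU 2 hcu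
  obtain ⟨μ, κ, hμf, hκ, hμ⟩ := specMeas V N M E.e hiso he hinj
  have hdim : ∀ x, Module.finrank ℝ (Eu x) = Module.finrank ℝ V - 2 := by
    intro x
    have h3 : Module.finrank ℝ (Es x) + Module.finrank ℝ (Eu x) = Module.finrank ℝ V :=
      finrank_compl_aux (hA.isCompl x) ‹FiniteDimensional ℝ V›
    have := h2 x
    omega
  have hrank : ∀ (F : ∀ x : M, Submodule ℝ (TangentSpace 𝓘(ℝ, V) x)) (x : M)
      (G : Submodule ℝ (EuclideanSpace ℝ (Fin N))),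
      G = (F x).map (mfderiv 𝓘(ℝ, V) (𝓡 N) E.e x).toLinearMap →
      Module.finrank ℝ G = Module.finrank ℝ (F x) := by
    intro F x G hG
    have h1 := congrArg (fun G : Submodule ℝ (EuclideanSpace ℝ (Fin N)) => Module.finrank ℝ G) hG
    exact h1.trans (finrank_map_aux (mfderiv 𝓘(ℝ, V) (𝓡 N) E.e x).toLinearMap (hinj x) (F x))
  set u := Module.finrank ℝ V - 2 with hudef
  obtain ⟨x₀⟩ : Nonempty M := inferInstance
  have hV : Module.finrank ℝ V = 2 + u := by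
    have h3 : Module.finrank ℝ (Es x₀) + Module.finrank ℝ (Eu x₀) = Module.finrank ℝ V :=
      finrank_compl_aux (hA.isCompl x₀) ‹FiniteDimensional ℝ V›
    have := h2 x₀
    omega
  have hct := abstract_main2 hCrd hPinch hLen hBox hVan hFin μ s hs hsq c hpin u
    (fun x => (hrank Es x _ (hsS x)).trans (h2 x)) (fun x => (hrank Eu x _ (hsU x)).trans (hdim x))
    hκ (by rw [← hV]; exact hμ)
  exact topTransitive_of_shadowing (s.shadowing hs) hct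

/-- The manifold theorem in the case where the stable dimension is two. -/
theorem mfd_main2 (hCrd : SpecCrd.{u, 0}) (hPinch : SpecPinch.{u, 0})
    (hLen : SpecLen2.{u, 0}) (hBox : SpecBox2.{u, 0}) (hVan : SpecVanish2.{u, 0})
    (hFin : SpecFinal2.{u, 0}) (hPM : SpecPinM.{u, v})
    {V : Type v} [NormedAddCommGroup V] [NormedSpace ℝ V]
    [FiniteDimensional ℝ V] {M : Type u} [TopologicalSpace M] [CompactSpace M] [T2Space M]
    [ConnectedSpace M] [ChartedSpace V M] [IsManifold 𝓘(ℝ, V) ∞ M]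
    [RiemannianBundle (fun x : M => TangentSpace 𝓘(ℝ, V) x)]
    [IsContinuousRiemannianBundle V (fun x : M => TangentSpace 𝓘(ℝ, V) x)]
    (f : M ≃ₘ^1⟮𝓘(ℝ, V), 𝓘(ℝ, V)⟯ M) (hf : ContMDiff 𝓘(ℝ, V) 𝓘(ℝ, V) 2 f)
    (hf' : ContMDiff 𝓘(ℝ, V) 𝓘(ℝ, V) 2 f.symm)
    (Es Eu : ∀ x : M, Submodule ℝ (TangentSpace 𝓘(ℝ, V) x)) (hA : Gen.IsAnosovSplitting f Es Eu)
    (hcs : ConformalOn f Es) (hcu : DetPinched 2 f Eu)
    (h2 : ∀ x, Module.finrank ℝ (Es x) = 2) :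
    TopTransitive f := by
  obtain ⟨N, e, he, hemb, hinj⟩ := exists_embedding_euclidean_of_compact (I := 𝓘(ℝ, V)) (M := M)
  let : MetricSpace M := hemb.isEmbedding.comapMetricSpace e
  have hiso : Isometry e := hemb.isEmbedding.to_isometry
  exact mfd_aux2 hCrd hPinch hLen hBox hVan hFin hPM e hiso he hinj f
    hf hf' Es Eu hA hcs hcu h2

/-- The manifold theorem. -/
theorem mfd_full2 (hCrd : SpecCrd.{u, 0}) (hPinch : SpecPinch.{u, 0})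
    (hLen : SpecLen2.{u, 0}) (hBox : SpecBox2.{u, 0}) (hVan : SpecVanish2.{u, 0})
    (hFin : SpecFinal2.{u, 0}) (hPM : SpecPinM.{u, v})
    {V : Type v} [NormedAddCommGroup V] [NormedSpace ℝ V]
    [FiniteDimensional ℝ V] {M : Type u} [TopologicalSpace M] [CompactSpace M] [T2Space M]
    [ConnectedSpace M] [ChartedSpace V M] [IsManifold 𝓘(ℝ, V) ∞ M]
    [RiemannianBundle (fun x : M => TangentSpace 𝓘(ℝ, V) x)]
    [IsContinuousRiemannianBundle V (fun x : M => TangentSpace 𝓘(ℝ, V) x)]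
    (f : M ≃ₘ^1⟮𝓘(ℝ, V), 𝓘(ℝ, V)⟯ M) (hf : ContMDiff 𝓘(ℝ, V) 𝓘(ℝ, V) 2 f)
    (hf' : ContMDiff 𝓘(ℝ, V) 𝓘(ℝ, V) 2 f.symm)
    (Es Eu : ∀ x : M, Submodule ℝ (TangentSpace 𝓘(ℝ, V) x)) (hA : Gen.IsAnosovSplitting f Es Eu)
    (h : ((∀ x, Module.finrank ℝ (Es x) = 2) ∧ ConformalOn f Es ∧ DetPinched 2 f Eu) ∨
      ((∀ x, Module.finrank ℝ (Eu x) = 2) ∧ ConformalOn f Eu ∧ DetPinched 2 f.symm Es)) :
    TopTransitive f := by
  have : IsManifold 𝓘(ℝ, V) 1 M := IsManifold.of_le (m := 1) (n := ∞) (by norm_num)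
  rcases h with ⟨h2, hc, hp⟩ | ⟨h2, hc, hp⟩
  · exact mfd_main2 hCrd hPinch hLen hBox hVan hFin hPM f hf hf' Es Eu hA hc hp h2
  · have h1 := mfd_main2 hCrd hPinch hLen hBox hVan hFin hPM f.symm
      hf' hf Eu Es (IsAnosovSplitting.symm hA) (hc.symm hA.map_u) hp h2
    exact topTransitive_symm f.toHomeomorph h1

end Pool.Agent.Lib.MP610fe3.Cf
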