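import Pool.Agent.Lib.MP_610fe3_an.Cf.Basic

/-!
# Module BOX: lower bound for the measure of backward Bowen balls (helper35)
-/

open Set Filter Function MeasureTheory
open scoped Topology

namespace Pool.Agent.Lib.MP610fe3.Cf

universe u v

namespace BoxAux

section Sep

variable {F : Type*} [NormedAddCommGroup F] [NormedSpace ℝ F] [FiniteDimensional ℝ F]

/-- Separated sets in balls of a finite-dimensional space. -/
theorem exists_sep {r ρ : ℝ} (hr : 0 < r) (hρ : 0 < ρ) (k : ℕ)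
    (hk : (k : ℝ) - 1 < (r / ρ) ^ (Module.finrank ℝ F)) :
    ∃ T : Finset F, T.card = k ∧ (∀ v ∈ T, ‖v‖ < r) ∧
      ∀ v ∈ T, ∀ v' ∈ T, v ≠ v' → ρ ≤ ‖v - v'‖ := by
  classical
  induction k with
  | zero => exact ⟨∅, by simp, by simp, by simp⟩
  | succ k ih =>
    have hk' : (k : ℝ) < (r / ρ) ^ (Module.finrank ℝ F) := by
      have : ((k + 1 : ℕ) : ℝ) - 1 = k := by push_cast; ring
      rwa [this] at hk
    obtain ⟨T, hT, hT1, hT2⟩ := ih (by linarith)
    let _ : MeasurableSpace F := borel F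
    have _ : BorelSpace F := ⟨rfl⟩
    set lam : Measure F := Measure.addHaar with hlam
    obtain ⟨v, hv, hvT⟩ : ∃ v ∈ Metric.ball (0 : F) r, v ∉ ⋃ v' ∈ T, Metric.ball v' ρ := by
      by_contra hcon
      push Not at hcon
      have h1 : Metric.ball (0 : F) r ⊆ ⋃ v' ∈ T, Metric.ball v' ρ := hcon
      have h2 : lam (Metric.ball (0 : F) r) ≤ ∑ v' ∈ T, lam (Metric.ball v' ρ) :=
        (measure_mono h1).trans (measure_biUnion_finset_le _ _)
      have h3 : ∀ v' ∈ T, lam (Metric.ball v' ρ)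
          = ENNReal.ofReal (ρ ^ Module.finrank ℝ F) * lam (Metric.ball 0 1) := fun v' _ =>
        Measure.addHaar_ball_of_pos _ _ hρ
      rw [Finset.sum_congr rfl h3, Finset.sum_const, hT, Measure.addHaar_ball_of_pos _ _ hr,
        nsmul_eq_mul, ← mul_assoc] at h2
      have h4 : lam (Metric.ball (0 : F) 1) ≠ 0 := (Metric.measure_ball_pos lam 0 one_pos).ne'
      have h5 : lam (Metric.ball (0 : F) 1) ≠ ⊤ := measure_ball_lt_top.ne
      rw [ENNReal.mul_le_mul_iff_left h4 h5] at h2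
      have h6 : (k : ENNReal) = ENNReal.ofReal (k : ℝ) := by simp
      rw [h6, ← ENNReal.ofReal_mul (by positivity),
        ENNReal.ofReal_le_ofReal_iff (by positivity)] at h2
      have h7 : (k : ℝ) * ρ ^ Module.finrank ℝ F < r ^ Module.finrank ℝ F := by
        have h8 := mul_lt_mul_of_pos_right hk' (pow_pos hρ (Module.finrank ℝ F))
        rwa [div_pow, div_mul_cancel₀ _ (pow_pos hρ _).ne'] at h8
      linarith
    have hvT' : ∀ v' ∈ T, ρ ≤ ‖v - v'‖ := by
      intro v' hv'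
      by_contra hcon
      push Not at hcon
      exact hvT (mem_biUnion hv' (by rw [Metric.mem_ball, dist_eq_norm]; exact hcon))
    have hnot : v ∉ T := by
      intro h
      have := hvT' v h
      rw [sub_self, norm_zero] at this
      linarith
    refine ⟨insert v T, ?_, ?_, ?_⟩
    · rw [Finset.card_insert_of_notMem hnot, hT]
    · intro v' hv'
      rcases Finset.mem_insert.1 hv' with rfl | h
      · simpa using hv
      · exact hT1 v' h
    · intro v₁ h₁ v₂ h₂ hne
      rcases Finset.mem_insert.1 h₁ with e₁ | k₁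
      · rcases Finset.mem_insert.1 h₂ with e₂ | k₂
        · exact absurd (e₁.trans e₂.symm) hne
        · rw [e₁]
          exact hvT' v₂ k₂
      · rcases Finset.mem_insert.1 h₂ with e₂ | k₂
        · rw [norm_sub_rev, e₂]
          exact hvT' v₁ k₁
        · exact hT2 v₁ k₁ v₂ k₂ hne

/-- A separated set of at least `(r / ρ) ^ dim` points. -/
theorem exists_sep' {r ρ : ℝ} (hr : 0 < r) (hρ : 0 < ρ) :
    ∃ T : Finset F, (r / ρ) ^ (Module.finrank ℝ F) ≤ T.card ∧ (∀ v ∈ T, ‖v‖ < r) ∧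
      ∀ v ∈ T, ∀ v' ∈ T, v ≠ v' → ρ ≤ ‖v - v'‖ := by
  obtain ⟨T, hT, h1, h2⟩ := exists_sep (F := F) hr hρ ⌈(r / ρ) ^ (Module.finrank ℝ F)⌉₊ (by
    have := Nat.ceil_lt_add_one (a := (r / ρ) ^ (Module.finrank ℝ F)) (by positivity)
    linarith)
  refine ⟨T, ?_, h1, h2⟩
  rw [hT]
  exact Nat.le_ceil _

end Sep

section Back

variable {M W : Type*} [MetricSpace M] [NormedAddCommGroup W] [NormedSpace ℝ W]
  {E : Emb M W} {f : M ≃ₜ M} {s : Split E f}

/-- The conformal factor along the backward orbit. -/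
noncomputable def T (c : Conf s) (i : ℕ) (y : M) : ℝ := c.an i (f.symm^[i] y)

theorem T_pos (c : Conf s) (i : ℕ) (y : M) : 0 < T c i y := c.an_pos _ _

theorem T_add (c : Conf s) (i j : ℕ) (y : M) :
    T c (j + i) y = T c j y * T c i (f.symm^[j] y) := by
  unfold T
  rw [c.an_add j i, ← iterate_add_apply, add_comm i j, iterate_symm_iterate_of_le f (by omega),
    Nat.add_sub_cancel]

theorem T_zero (c : Conf s) (y : M) : T c 0 y = 1 := by simp [T]

/-- bound for the backward cocycle -/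
theorem exists_back_bound [CompactSpace M] (c : Conf s) (hs : s.Hyperbolic)
    (hne : ∀ x, s.S x ≠ 0) :
    ∃ K : ℝ, 1 ≤ K ∧ ∀ i x w, ‖iterD s.Di f.symm i x w‖ ≤ K * (T c i x)⁻¹ * ‖w‖ := by
  obtain ⟨K₁, hK₁, H₁⟩ := c.exists_iter_bound
  obtain ⟨C₂, l₂, hC₂, hl₂, hl₂1, H₂⟩ := c.exists_an_le hs hne
  obtain ⟨C, l, hC, hl, hl1, H⟩ := hs
  obtain ⟨K₃, H₃⟩ := s.bdd
  set K₃' : ℝ := max K₃ 0 with hK₃'
  have hK₃0 : 0 ≤ K₃' := le_max_right _ _
  have hK₁0 : 0 ≤ K₁ * K₃' := by positivity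
  have hCC : 0 < C * C₂ := by positivity
  refine ⟨K₁ * K₃' + C * C₂ + 1, by linarith, fun i x w => ?_⟩
  have hT := T_pos c i x
  have hTle : T c i x ≤ C₂ * l₂ ^ i := H₂ i _
  have hTle' : T c i x ≤ C₂ := hTle.trans (by
    have : l₂ ^ i ≤ 1 := pow_le_one₀ hl₂.le hl₂1.le
    nlinarith)
  cases i with
  | zero =>
    rw [T_zero]
    simp only [iterD, ContinuousLinearMap.id_apply, inv_one, mul_one]
    have h1 : 0 ≤ K₁ * K₃' + C * C₂ := by positivity
    nlinarith [norm_nonneg w, mul_nonneg h1 (norm_nonneg w)]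
  | succ i =>
    have h1 : iterD s.Di f.symm (i + 1) x w
        = iterD s.Di f.symm (i + 1) x (s.S x w) + iterD s.Di f.symm (i + 1) x (s.U x w) := by
      rw [← map_add, s.add_apply']
      show iterD s.Di f.symm i (f.symm x) (s.Di x w)
        = iterD s.Di f.symm i (f.symm x) (s.Di x (E.P x w))
      rw [s.Di_P_apply]
    have h2 := (H₁ (i + 1) (f.symm^[i + 1] x) w).2.2
    rw [iterate_symm_iterate] at h2
    have h3 : ‖s.S x w‖ ≤ K₃' * ‖w‖ :=
      ((s.S x).le_opNorm w).trans (mul_le_mul_of_nonneg_right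
        (((H₃ x).1).trans (le_max_left _ _)) (norm_nonneg w))
    have h4 := (H (i + 1) x w).2
    have h5 : C * l ^ (i + 1) * ‖w‖ ≤ C * C₂ * (T c (i + 1) x)⁻¹ * ‖w‖ := by
      have h6 : l ^ (i + 1) ≤ 1 := pow_le_one₀ hl.le hl1.le
      have h7 : 1 ≤ C₂ * (T c (i + 1) x)⁻¹ := by
        rw [← div_eq_mul_inv, le_div_iff₀ hT]
        linarith
      have h8 : l ^ (i + 1) ≤ C₂ * (T c (i + 1) x)⁻¹ := h6.trans h7
      calc C * l ^ (i + 1) * ‖w‖ ≤ C * (C₂ * (T c (i + 1) x)⁻¹) * ‖w‖ := by gcongr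
        _ = _ := by ring
    have hTi : 0 < (T c (i + 1) x)⁻¹ := inv_pos.2 hT
    rw [h1]
    calc _ ≤ ‖iterD s.Di f.symm (i + 1) x (s.S x w)‖ + ‖iterD s.Di f.symm (i + 1) x (s.U x w)‖ :=
          norm_add_le _ _
      _ ≤ K₁ * (T c (i + 1) x)⁻¹ * (K₃' * ‖w‖) + C * C₂ * (T c (i + 1) x)⁻¹ * ‖w‖ := by
          refine add_le_add ?_ (h4.trans h5)
          refine h2.trans ?_
          exact mul_le_mul_of_nonneg_left h3 (by positivity)
      _ ≤ (K₁ * K₃' + C * C₂ + 1) * (T c (i + 1) x)⁻¹ * ‖w‖ := by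
          have : 0 ≤ (T c (i + 1) x)⁻¹ * ‖w‖ := by positivity
          nlinarith

/-- Variation of constants. -/
theorem var_const (D : M → W →L[ℝ] W) (g : M → M) (y : M) (v : ℕ → W) (k : ℕ) :
    v k = iterD D g k y (v 0) + ∑ j ∈ Finset.range k,
      iterD D g (k - 1 - j) (g^[j + 1] y) (v (j + 1) - D (g^[j] y) (v j)) := by
  induction k with
  | zero => simp [iterD]
  | succ k ih =>
    rw [Finset.sum_range_succ, iterD_succ', ContinuousLinearMap.comp_apply]
    have h1 : ∑ j ∈ Finset.range k, iterD D g (k + 1 - 1 - j) (g^[j + 1] y)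
        (v (j + 1) - D (g^[j] y) (v j)) = D (g^[k] y) (∑ j ∈ Finset.range k,
        iterD D g (k - 1 - j) (g^[j + 1] y) (v (j + 1) - D (g^[j] y) (v j))) := by
      rw [map_sum]
      refine Finset.sum_congr rfl fun j hj => ?_
      have hj' : j < k := Finset.mem_range.1 hj
      have h2 : k + 1 - 1 - j = (k - 1 - j) + 1 := by omega
      rw [h2, iterD_succ', ContinuousLinearMap.comp_apply, ← iterate_add_apply]
      congr 3
      omega
    rw [h1, ← add_assoc, ← map_add, ← ih]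
    have h3 : k + 1 - 1 - k = 0 := by omega
    rw [h3]
    simp [iterD]

/-- Backward growth. -/
theorem exists_back_growth [CompactSpace M] (c : Conf s) (hs : s.Hyperbolic)
    (hne : ∀ x, s.S x ≠ 0) {C₀ : ℝ} (hSq : Sq s C₀) :
    ∃ c₁ K : ℝ, 0 < c₁ ∧ 1 ≤ K ∧ ∀ n y z, dist z y ≤ c₁ * T c n y → ∀ k ≤ n,
      dist (f.symm^[k] z) (f.symm^[k] y) ≤ K * dist z y * (T c k y)⁻¹ := by
  obtain ⟨K, hK, HK⟩ := exists_back_bound c hs hne
  obtain ⟨A, hA, HA⟩ := c.exists_a_bound hne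
  obtain ⟨C, l, hC, hl, hl1, H⟩ := c.exists_an_le hs hne
  set D : ℝ := max C₀ 1 with hD
  have hD1 : 1 ≤ D := le_max_right _ _
  have hl0 : 0 < 1 - l := by linarith
  set B : ℝ := 4 * K ^ 2 * D * A * C with hB
  have hBpos : 0 < B := by positivity
  refine ⟨(1 - l) / B, 2 * K, by positivity, by linarith, fun n y z hyz => ?_⟩
  set v : ℕ → W := fun k => E.e (f.symm^[k] z) - E.e (f.symm^[k] y) with hv
  have hvn : ∀ k, ‖v k‖ = dist (f.symm^[k] z) (f.symm^[k] y) := fun k => by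
    rw [hv, ← dist_eq_norm, E.isom.dist_eq]
  have hv0 : ‖v 0‖ = dist z y := by rw [hvn]; rfl
  have herr : ∀ j, ‖v (j + 1) - s.Di (f.symm^[j] y) (v j)‖ ≤ D * ‖v j‖ ^ 2 := by
    intro j
    have h1 := hSq.bwd (f.symm^[j] y) (f.symm^[j] z)
    rw [hvn j]
    rw [← iterate_succ_apply' f.symm, ← iterate_succ_apply' f.symm] at h1
    refine h1.trans ?_
    have : C₀ ≤ D := le_max_left _ _
    gcongr
  have hTn := T_pos c n y
  -- the sum of inverses
  have hinv : ∀ j ≤ n, (T c j y)⁻¹ ≤ C * l ^ (n - j) * (T c n y)⁻¹ := by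
    intro j hj
    obtain ⟨i, rfl⟩ := Nat.exists_eq_add_of_le hj
    rw [Nat.add_sub_cancel_left, T_add]
    have h1 : T c i (f.symm^[j] y) ≤ C * l ^ i := H i _
    have h2 := T_pos c i (f.symm^[j] y)
    have h3 := T_pos c j y
    have h4 : (T c j y * T c i (f.symm^[j] y))⁻¹ * T c i (f.symm^[j] y) = (T c j y)⁻¹ := by
      field_simp
    have h5 : 0 < (T c j y * T c i (f.symm^[j] y))⁻¹ := by positivity
    rw [← h4, mul_comm]
    exact mul_le_mul_of_nonneg_right h1 h5.le
  have hsum : ∀ k ≤ n, ∑ j ∈ Finset.range k, (T c j y)⁻¹ ≤ C * (1 - l)⁻¹ * (T c n y)⁻¹ := by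
    intro k hk
    calc ∑ j ∈ Finset.range k, (T c j y)⁻¹
        ≤ ∑ j ∈ Finset.range (n + 1), (T c j y)⁻¹ :=
          Finset.sum_le_sum_of_subset_of_nonneg (Finset.range_mono (by omega))
            fun j _ _ => (inv_pos.2 (T_pos c j y)).le
      _ ≤ ∑ j ∈ Finset.range (n + 1), C * l ^ (n - j) * (T c n y)⁻¹ :=
          Finset.sum_le_sum fun j hj => hinv j (by
            have := Finset.mem_range.1 hj
            omega)
      _ = C * (∑ j ∈ Finset.range (n + 1), l ^ (n - j)) * (T c n y)⁻¹ := by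
          rw [Finset.mul_sum, Finset.sum_mul]
      _ = C * (∑ j ∈ Finset.range (n + 1), l ^ j) * (T c n y)⁻¹ := by
          have := Finset.sum_range_reflect (fun j => l ^ j) (n + 1)
          rw [← this]
          congr 2
      _ ≤ C * (1 - l)⁻¹ * (T c n y)⁻¹ := by
          have h1 : ∑ j ∈ Finset.range (n + 1), l ^ j ≤ (1 - l)⁻¹ := by
            rw [← tsum_geometric_of_lt_one hl.le hl1]
            exact (summable_geometric_of_lt_one hl.le hl1).sum_le_tsum _
              fun j _ => by positivity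
          have := (inv_pos.2 hTn).le
          gcongr
  have key : ∀ k ≤ n, ‖v k‖ ≤ 2 * K * ‖v 0‖ * (T c k y)⁻¹ := by
    intro k
    induction k using Nat.strong_induction_on with
    | _ k ih =>
      intro hk
      have hTk := T_pos c k y
      have hTki := inv_pos.2 hTk
      have h1 := var_const s.Di f.symm y v k
      have h2 : ‖iterD s.Di f.symm k y (v 0)‖ ≤ K * (T c k y)⁻¹ * ‖v 0‖ := HK k y (v 0)
      have h3 : ∀ j ∈ Finset.range k,
          ‖iterD s.Di f.symm (k - 1 - j) (f.symm^[j + 1] y)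
            (v (j + 1) - s.Di (f.symm^[j] y) (v j))‖
          ≤ (K * (T c k y)⁻¹ * ‖v 0‖) * (4 * K ^ 2 * D * A * ‖v 0‖) * (T c j y)⁻¹ := by
        intro j hj
        have hj' : j < k := Finset.mem_range.1 hj
        have hTj := T_pos c j y
        have e1 := HK (k - 1 - j) (f.symm^[j + 1] y) (v (j + 1) - s.Di (f.symm^[j] y) (v j))
        have e2 : T c k y = T c (j + 1) y * T c (k - 1 - j) (f.symm^[j + 1] y) := by
          rw [← T_add]
          congr 1
          omega
        have e3 : T c (j + 1) y = T c j y * T c 1 (f.symm^[j] y) := T_add c 1 j y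
        have e4 : T c 1 (f.symm^[j] y) ≤ A := by
          unfold T
          rw [c.an_one]
          exact (HA _).1
        have e5 : (T c (k - 1 - j) (f.symm^[j + 1] y))⁻¹ = T c (j + 1) y * (T c k y)⁻¹ := by
          rw [e2, mul_inv, mul_inv_cancel_left₀ (T_pos c (j + 1) y).ne']
        have e6 := ih j hj' (by omega)
        have e7 : ‖v j‖ ^ 2 ≤ (2 * K * ‖v 0‖ * (T c j y)⁻¹) ^ 2 :=
          pow_le_pow_left₀ (norm_nonneg _) e6 2
        have e8 : T c (j + 1) y ≤ T c j y * A := by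
          rw [e3]
          exact mul_le_mul_of_nonneg_left e4 hTj.le
        calc _ ≤ K * (T c (k - 1 - j) (f.symm^[j + 1] y))⁻¹ *
              ‖v (j + 1) - s.Di (f.symm^[j] y) (v j)‖ := e1
          _ ≤ K * (T c (j + 1) y * (T c k y)⁻¹) * (D * ‖v j‖ ^ 2) := by
              rw [e5]
              have := T_pos c (j + 1) y
              exact mul_le_mul_of_nonneg_left (herr j) (by positivity)
          _ ≤ K * (T c j y * A * (T c k y)⁻¹) * (D * (2 * K * ‖v 0‖ * (T c j y)⁻¹) ^ 2) := by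
              gcongr
          _ = _ := by
              field_simp
              ring
      have h4 : ‖∑ j ∈ Finset.range k, iterD s.Di f.symm (k - 1 - j) (f.symm^[j + 1] y)
          (v (j + 1) - s.Di (f.symm^[j] y) (v j))‖ ≤ K * (T c k y)⁻¹ * ‖v 0‖ := by
        calc _ ≤ ∑ j ∈ Finset.range k,
              (K * (T c k y)⁻¹ * ‖v 0‖) * (4 * K ^ 2 * D * A * ‖v 0‖) * (T c j y)⁻¹ :=
              norm_sum_le_of_le _ h3
          _ = (K * (T c k y)⁻¹ * ‖v 0‖) * (4 * K ^ 2 * D * A * ‖v 0‖) *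
              ∑ j ∈ Finset.range k, (T c j y)⁻¹ := by rw [Finset.mul_sum]
          _ ≤ (K * (T c k y)⁻¹ * ‖v 0‖) * (4 * K ^ 2 * D * A * ‖v 0‖) *
              (C * (1 - l)⁻¹ * (T c n y)⁻¹) := by
              refine mul_le_mul_of_nonneg_left (hsum k hk) ?_
              positivity
          _ = (K * (T c k y)⁻¹ * ‖v 0‖) * (B * (1 - l)⁻¹ * (T c n y)⁻¹ * ‖v 0‖) := by
              rw [hB]; ring
          _ ≤ (K * (T c k y)⁻¹ * ‖v 0‖) * 1 := by
              refine mul_le_mul_of_nonneg_left ?_ (by positivity)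
              calc B * (1 - l)⁻¹ * (T c n y)⁻¹ * ‖v 0‖
                  ≤ B * (1 - l)⁻¹ * (T c n y)⁻¹ * ((1 - l) / B * T c n y) := by
                    refine mul_le_mul_of_nonneg_left ?_ (by positivity)
                    rw [hv0]
                    exact hyz
                _ = 1 := by field_simp
          _ = _ := mul_one _
      rw [h1]
      calc _ ≤ K * (T c k y)⁻¹ * ‖v 0‖ + K * (T c k y)⁻¹ * ‖v 0‖ :=
            (norm_add_le _ _).trans (add_le_add h2 h4)
        _ = _ := by ring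
  intro k hk
  rw [← hvn k, ← hv0]
  exact key k hk

end Back

end BoxAux

open BoxAux

/-- Module BOX -/
theorem specBox : SpecBox.{u, v} := by
  intro M W _ _ _ _ _ _ _ μ _ E f s C₀ c cu ε C l ψ Q q P p ψu Qu qu κ m u hSq hPk hUp hrank hum
    hκ hball δ hδ
  classical
  have hε := hPk.grow.ε_pos
  have hC := hPk.grow.one_le
  have hl := hPk.grow.l_pos
  have hl1 := hPk.grow.l_lt
  obtain ⟨c₁, K, hc₁, hK, hgrow⟩ := exists_back_growth c hPk.hyp hPk.S_ne hSq
  -- the scale of the points in the unstable set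
  set ε' : ℝ := min (ε / 2) (δ / 2) with hε'
  have hε'pos : 0 < ε' := lt_min (by positivity) (by positivity)
  have hε'1 : ε' ≤ ε / 2 := min_le_left _ _
  have hε'2 : ε' ≤ δ / 2 := min_le_right _ _
  obtain ⟨r, hr, hsurj⟩ := hUp.surj ε' hε'pos
  -- the radius of the small balls
  set c₂ : ℝ := min (min (c₁ / C) (δ / (2 * K * C * C))) (1 / C) with hc₂
  have hc₂pos : 0 < c₂ := by
    rw [hc₂]
    refine lt_min (lt_min ?_ ?_) ?_ <;> positivity
  have hc₂1 : c₂ * C ≤ c₁ := by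
    have : c₂ ≤ c₁ / C := (min_le_left _ _).trans (min_le_left _ _)
    rwa [le_div_iff₀ (by linarith)] at this
  have hc₂2 : K * (c₂ * C) * C ≤ δ / 2 := by
    have : c₂ ≤ δ / (2 * K * C * C) := (min_le_left _ _).trans (min_le_right _ _)
    rw [le_div_iff₀ (by positivity)] at this
    linarith
  have hc₂3 : c₂ * C ≤ 1 := by
    have : c₂ ≤ 1 / C := min_le_right _ _
    rwa [le_div_iff₀ (by linarith)] at this
  -- small balls are in the box
  have hbox : ∀ (n : ℕ) (w y : M), y ∈ Wl f.symm ε' w → ∀ z,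
      dist z y < c₂ * c.an n (f.symm^[n] w) → z ∈ Box f δ n w := by
    intro n w y hy z hz k hk
    have hwy : w ∈ Wl f.symm ε y := Wl_comm (Wl_mono (by linarith) hy)
    have h1 : c.an n (f.symm^[n] w) ≤ C * T c n y := hPk.lin.dist_le y w hwy n
    have hTn := T_pos c n y
    have h2 : dist z y ≤ c₂ * C * T c n y := by
      calc dist z y ≤ c₂ * c.an n (f.symm^[n] w) := hz.le
        _ ≤ c₂ * (C * T c n y) := by gcongr
        _ = _ := by ring
    have h3 : dist z y ≤ c₁ * T c n y := h2.trans (mul_le_mul_of_nonneg_right hc₂1 hTn.le)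
    have h4 := hgrow n y z h3 k hk
    have hTk := T_pos c k y
    have h5 : T c n y * (T c k y)⁻¹ ≤ C := by
      obtain ⟨i, rfl⟩ := Nat.exists_eq_add_of_le hk
      rw [T_add]
      have h6 : T c i (f.symm^[k] y) ≤ C * l ^ i := hPk.grow.an_le i _
      have h7 : l ^ i ≤ 1 := pow_le_one₀ hl.le hl1.le
      calc T c k y * T c i (f.symm^[k] y) * (T c k y)⁻¹ = T c i (f.symm^[k] y) := by
            field_simp
        _ ≤ C * l ^ i := h6
        _ ≤ C * 1 := by gcongr
        _ = C := mul_one C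
    have h6 : dist (f.symm^[k] z) (f.symm^[k] y) ≤ δ / 2 := by
      calc _ ≤ K * dist z y * (T c k y)⁻¹ := h4
        _ ≤ K * (c₂ * C * T c n y) * (T c k y)⁻¹ := by gcongr
        _ = K * (c₂ * C) * (T c n y * (T c k y)⁻¹) := by ring
        _ ≤ K * (c₂ * C) * C := by gcongr
        _ ≤ δ / 2 := hc₂2
    have h7 : dist (f.symm^[k] y) (f.symm^[k] w) ≤ δ / 2 := (hy k).trans hε'2
    calc dist (f.symm^[k] z) (f.symm^[k] w)
        ≤ dist (f.symm^[k] z) (f.symm^[k] y) + dist (f.symm^[k] y) (f.symm^[k] w) :=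
          dist_triangle _ _ _
      _ ≤ δ := by linarith
  -- the distance in the unstable plaque
  obtain ⟨Kg, hKg, hg⟩ := cu.exists_bound
  have hcomp : IsCompact {p : M × M | p.2 ∈ Wl f.symm ε p.1} :=
    (isClosed_Wl_prod f.symm ε).isCompact
  obtain ⟨Kq, hKq⟩ := hcomp.exists_bound_of_continuousOn (f := fun p : M × M => (qu p.1 p.2)⁻¹)
    (hUp.flat.q_cont.inv₀ fun p hp => (hUp.flat.q_pos p.1 p.2 hp).ne')
  set Kq' : ℝ := max Kq 1 with hKq'
  have hKq1 : 1 ≤ Kq' := le_max_right _ _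
  set c₃ : ℝ := 1 / (2 * Kg * Kg * Kq') with hc₃
  have hc₃pos : 0 < c₃ := by positivity
  have hdist : ∀ w, ∀ y ∈ Wl f.symm ε' w, ∀ y' ∈ Wl f.symm ε' w,
      c₃ * ‖ψu w y - ψu w y'‖ ≤ dist y y' := by
    intro w y hy y' hy'
    have hy1 : y ∈ Wl f.symm ε w := Wl_mono (by linarith) hy
    have hy'1 : y' ∈ Wl f.symm ε w := Wl_mono (by linarith) hy'
    have hyy' : y ∈ Wl f.symm ε y' :=
      Wl_mono (by linarith) (Wl_trans (Wl_comm hy') hy)
    have h1 := hUp.flat.trans w y' hy'1 y hy1 hyy'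
    set d : W := ψu w y - ψu w y' with hd
    have h2 : ‖ψu y' y‖ ≤ 2 * dist y y' := hUp.flat.upper y' y hyy'
    have hq := hUp.flat.q_pos w y' hy'1
    have h3 : cu.g y' (Qu w y' d) = qu w y' * cu.g w d := by
      unfold Conf.g
      rw [hUp.flat.Q_conf w y' hy'1, Real.sqrt_mul (sq_nonneg _), Real.sqrt_sq hq.le]
    have h4 : cu.g y' (Qu w y' d) ≤ Kg * ‖Qu w y' d‖ := (hg y' _).2.2
    have h5 : ‖d‖ ≤ Kg * cu.g w d := by
      have h6 := (hg w d).1
      have h7 : s.swap.S w d = d := by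
        rw [hd, map_sub, hUp.flat.mem w y hy1, hUp.flat.mem w y' hy'1]
      rwa [h7] at h6
    have h6 : (qu w y')⁻¹ ≤ Kq' := by
      have := hKq (w, y') hy'1
      rw [Real.norm_eq_abs, abs_of_pos (inv_pos.2 hq)] at this
      exact this.trans (le_max_left _ _)
    have h7 : cu.g w d ≤ Kq' * (Kg * (2 * dist y y')) := by
      have h8 : qu w y' * cu.g w d ≤ Kg * (2 * dist y y') := by
        rw [← h3]
        refine h4.trans ?_
        rw [← h1]
        gcongr
      calc cu.g w d = (qu w y')⁻¹ * (qu w y' * cu.g w d) := by field_simp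
        _ ≤ (qu w y')⁻¹ * (Kg * (2 * dist y y')) := by gcongr
        _ ≤ _ := by gcongr
    calc c₃ * ‖d‖ ≤ c₃ * (Kg * (Kq' * (Kg * (2 * dist y y')))) := by
          gcongr
          exact h5.trans (by gcongr)
      _ = dist y y' := by rw [hc₃]; field_simp
  -- the constant
  refine ⟨κ * (r * c₃ / (2 * c₂)) ^ u * c₂ ^ m, by positivity, fun n w => ?_⟩
  set a : ℝ := c.an n (f.symm^[n] w) with ha
  have hapos : 0 < a := c.an_pos _ _
  have haC : a ≤ C := by
    have h1 := hPk.grow.an_le n (f.symm^[n] w)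
    have h2 : l ^ n ≤ 1 := pow_le_one₀ hl.le hl1.le
    nlinarith
  set ρ : ℝ := 2 * c₂ * a / c₃ with hρ
  have hρpos : 0 < ρ := by positivity
  obtain ⟨S, hS, hS1, hS2⟩ := exists_sep' (F := (s.U w).range) hr hρpos
  rw [hrank w] at hS
  have hfix : ∀ v : (s.U w).range, s.U w (v : W) = v := by
    rintro ⟨v, v', rfl⟩
    exact s.UU_apply w v'
  have hchoice : ∀ v : (s.U w).range, ‖v‖ < r → ∃ y ∈ Wl f.symm ε' w, ψu w y = (v : W) :=
    fun v hv => hsurj w v (hfix v) (by simpa using hv.le)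
  have _ : Nonempty M := ⟨w⟩
  choose! Y hY1 hY2 using hchoice
  have hdisj : (S : Set (s.U w).range).PairwiseDisjoint fun v => Metric.ball (Y v) (c₂ * a) := by
    intro v hv v' hv' hne
    refine Metric.ball_disjoint_ball ?_
    have h1 := hdist w (Y v) (hY1 v (hS1 v hv)) (Y v') (hY1 v' (hS1 v' hv'))
    rw [hY2 v (hS1 v hv), hY2 v' (hS1 v' hv')] at h1
    have h2 : ρ ≤ ‖(v : W) - v'‖ := by
      have := hS2 v hv v' hv' hne
      simpa using this
    calc c₂ * a + c₂ * a = c₃ * ρ := by rw [hρ]; field_simp; ring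
      _ ≤ c₃ * ‖(v : W) - v'‖ := by gcongr
      _ ≤ _ := h1
  have hsub : (⋃ v ∈ S, Metric.ball (Y v) (c₂ * a)) ⊆ Box f δ n w := by
    intro z hz
    obtain ⟨v, hv, hz⟩ := mem_iUnion₂.1 hz
    exact hbox n w (Y v) (hY1 v (hS1 v hv)) z hz
  have hmeas : μ.real (⋃ v ∈ S, Metric.ball (Y v) (c₂ * a))
      = ∑ v ∈ S, μ.real (Metric.ball (Y v) (c₂ * a)) :=
    measureReal_biUnion_finset hdisj fun v _ => measurableSet_ball
  have hle1 : c₂ * a ≤ 1 := (mul_le_mul_of_nonneg_left haC hc₂pos.le).trans hc₂3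
  have hlow : (S.card : ℝ) * (κ * (c₂ * a) ^ m) ≤ μ.real (Box f δ n w) := by
    calc (S.card : ℝ) * (κ * (c₂ * a) ^ m) = ∑ v ∈ S, κ * (c₂ * a) ^ m := by
          rw [Finset.sum_const, nsmul_eq_mul]
      _ ≤ ∑ v ∈ S, μ.real (Metric.ball (Y v) (c₂ * a)) :=
          Finset.sum_le_sum fun v _ => hball _ _ (by positivity) hle1
      _ = _ := hmeas.symm
      _ ≤ _ := measureReal_mono hsub
  refine le_trans ?_ hlow
  calc κ * (r * c₃ / (2 * c₂)) ^ u * c₂ ^ m * a ^ (m - u)
      = (r / ρ) ^ u * (κ * (c₂ * a) ^ m) := by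
        have h1 : a ^ m = a ^ u * a ^ (m - u) := by rw [← pow_add]; congr 1; omega
        have h2 : r / ρ = r * c₃ / (2 * c₂) / a := by
          rw [hρ]
          field_simp
        rw [h2, div_pow _ a, mul_pow c₂, h1]
        have : a ^ u ≠ 0 := (pow_pos hapos u).ne'
        generalize (r * c₃ / (2 * c₂)) ^ u = X
        field_simp
    _ ≤ _ := by gcongr

end Pool.Agent.Lib.MP610fe3.Cf
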