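import Pool.Agent.Lib.MP_610fe3_an.Cf.Spec2
import Pool.Agent.Lib.MP_610fe3_an.Cf.Box

/-!
# Module BOX2: lower bound for the measure of backward Bowen balls
-/

open Set Filter Function MeasureTheory
open scoped Topology

namespace Pool.Agent.Lib.MP610fe3.Cf

universe u v

open BoxAux

/-- Module BOX2 -/
theorem specBox2 : SpecBox2.{u, v} := by
  intro M W _ _ _ _ _ _ _ μ _ E f s C₀ c ε C l ψ Q q P p κ m u hSq hPk hUp hrank hum
    hκ hball δ hδ
  classical
  have hε := hPk.grow.ε_pos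
  have hC := hPk.grow.one_le
  have hl := hPk.grow.l_pos
  have hl1 := hPk.grow.l_lt
  obtain ⟨c₁, K, hc₁, hK, hgrow⟩ := exists_back_growth c hPk.hyp hPk.S_ne hSq
  -- the scale of the points in the unstable set
  set ε' : ℝ := min (ε / 2) (δ / 2) with hε'
  have hε'pos : 0 < ε' := lt_min (by positivity) (by positivity)
  have hε'1 : ε' ≤ ε / 2 := min_le_left _ _
  have hε'2 : ε' ≤ δ / 2 := min_le_right _ _
  obtain ⟨r, hr, hsurj⟩ := hUp.surj ε' hε'pos
  -- the radius of the small balls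
  set c₂ : ℝ := min (min (c₁ / C) (δ / (2 * K * C * C))) (1 / C) with hc₂
  have hc₂pos : 0 < c₂ := by
    rw [hc₂]
    refine lt_min (lt_min ?_ ?_) ?_ <;> positivity
  have hc₂1 : c₂ * C ≤ c₁ := by
    have : c₂ ≤ c₁ / C := (min_le_left _ _).trans (min_le_left _ _)
    rwa [le_div_iff₀ (by linarith)] at this
  have hc₂2 : K * (c₂ * C) * C ≤ δ / 2 := by
    have : c₂ ≤ δ / (2 * K * C * C) := (min_le_left _ _).trans (min_le_right _ _)
    rw [le_div_iff₀ (by positivity)] at this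
    linarith
  have hc₂3 : c₂ * C ≤ 1 := by
    have : c₂ ≤ 1 / C := min_le_right _ _
    rwa [le_div_iff₀ (by linarith)] at this
  -- small balls are in the box
  have hbox : ∀ (n : ℕ) (w y : M), y ∈ Wl f.symm ε' w → ∀ z,
      dist z y < c₂ * c.an n (f.symm^[n] w) → z ∈ Box f δ n w := by
    intro n w y hy z hz k hk
    have hwy : w ∈ Wl f.symm ε y := Wl_comm (Wl_mono (by linarith) hy)
    have h1 : c.an n (f.symm^[n] w) ≤ C * T c n y := hPk.lin.dist_le y w hwy n
    have hTn := T_pos c n y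
    have h2 : dist z y ≤ c₂ * C * T c n y := by
      calc dist z y ≤ c₂ * c.an n (f.symm^[n] w) := hz.le
        _ ≤ c₂ * (C * T c n y) := by gcongr
        _ = _ := by ring
    have h3 : dist z y ≤ c₁ * T c n y := h2.trans (mul_le_mul_of_nonneg_right hc₂1 hTn.le)
    have h4 := hgrow n y z h3 k hk
    have hTk := T_pos c k y
    have h5 : T c n y * (T c k y)⁻¹ ≤ C := by
      obtain ⟨i, rfl⟩ := Nat.exists_eq_add_of_le hk
      rw [T_add]
      have h6 : T c i (f.symm^[k] y) ≤ C * l ^ i := hPk.grow.an_le i _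
      have h7 : l ^ i ≤ 1 := pow_le_one₀ hl.le hl1.le
      calc T c k y * T c i (f.symm^[k] y) * (T c k y)⁻¹ = T c i (f.symm^[k] y) := by
            field_simp
        _ ≤ C * l ^ i := h6
        _ ≤ C * 1 := by gcongr
        _ = C := mul_one C
    have h6 : dist (f.symm^[k] z) (f.symm^[k] y) ≤ δ / 2 := by
      calc _ ≤ K * dist z y * (T c k y)⁻¹ := h4
        _ ≤ K * (c₂ * C * T c n y) * (T c k y)⁻¹ := by gcongr
        _ = K * (c₂ * C) * (T c n y * (T c k y)⁻¹) := by ring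
        _ ≤ K * (c₂ * C) * C := by gcongr
        _ ≤ δ / 2 := hc₂2
    have h7 : dist (f.symm^[k] y) (f.symm^[k] w) ≤ δ / 2 := (hy k).trans hε'2
    calc dist (f.symm^[k] z) (f.symm^[k] w)
        ≤ dist (f.symm^[k] z) (f.symm^[k] y) + dist (f.symm^[k] y) (f.symm^[k] w) :=
          dist_triangle _ _ _
      _ ≤ δ := by linarith
  -- the distance in the unstable plaque
  obtain ⟨Kg, hKg, hg⟩ := s.exists_bdd
  set c₃ : ℝ := 1 / Kg with hc₃
  have hKg0 : 0 < Kg := by linarith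
  have hc₃pos : 0 < c₃ := by positivity
  have hdist : ∀ w y y' : M,
      c₃ * ‖s.U w (E.e y - E.e w) - s.U w (E.e y' - E.e w)‖ ≤ dist y y' := by
    intro w y y'
    have h1 : s.U w (E.e y - E.e w) - s.U w (E.e y' - E.e w) = s.U w (E.e y - E.e y') := by
      rw [← map_sub]; congr 1; abel
    have h2 : ‖s.U w (E.e y - E.e y')‖ ≤ Kg * dist y y' := by
      rw [E.dist_eq]
      exact (s.U w).le_of_opNorm_le (hg w).2 _
    rw [h1]
    calc c₃ * ‖s.U w (E.e y - E.e y')‖ ≤ c₃ * (Kg * dist y y') := by gcongr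
      _ = dist y y' := by rw [hc₃]; field_simp
  -- the constant
  refine ⟨κ * (r * c₃ / (2 * c₂)) ^ u * c₂ ^ m, by positivity, fun n w => ?_⟩
  set a : ℝ := c.an n (f.symm^[n] w) with ha
  have hapos : 0 < a := c.an_pos _ _
  have haC : a ≤ C := by
    have h1 := hPk.grow.an_le n (f.symm^[n] w)
    have h2 : l ^ n ≤ 1 := pow_le_one₀ hl.le hl1.le
    nlinarith
  set ρ : ℝ := 2 * c₂ * a / c₃ with hρ
  have hρpos : 0 < ρ := by positivity
  obtain ⟨S, hS, hS1, hS2⟩ := exists_sep' (F := (s.U w).range) hr hρpos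
  rw [hrank w] at hS
  have hfix : ∀ v : (s.U w).range, s.U w (v : W) = v := by
    rintro ⟨v, v', rfl⟩
    exact s.UU_apply w v'
  have hchoice : ∀ v : (s.U w).range, ‖v‖ < r → ∃ y ∈ Wl f.symm ε' w,
      s.U w (E.e y - E.e w) = (v : W) :=
    fun v hv => hsurj w v (hfix v) (by simpa using hv.le)
  have _ : Nonempty M := ⟨w⟩
  choose! Y hY1 hY2 using hchoice
  have hdisj : (S : Set (s.U w).range).PairwiseDisjoint fun v => Metric.ball (Y v) (c₂ * a) := by
    intro v hv v' hv' hne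
    refine Metric.ball_disjoint_ball ?_
    have h1 := hdist w (Y v) (Y v')
    rw [hY2 v (hS1 v hv), hY2 v' (hS1 v' hv')] at h1
    have h2 : ρ ≤ ‖(v : W) - v'‖ := by
      have := hS2 v hv v' hv' hne
      simpa using this
    calc c₂ * a + c₂ * a = c₃ * ρ := by rw [hρ]; field_simp; ring
      _ ≤ c₃ * ‖(v : W) - v'‖ := by gcongr
      _ ≤ _ := h1
  have hsub : (⋃ v ∈ S, Metric.ball (Y v) (c₂ * a)) ⊆ Box f δ n w := by
    intro z hz
    obtain ⟨v, hv, hz⟩ := mem_iUnion₂.1 hz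
    exact hbox n w (Y v) (hY1 v (hS1 v hv)) z hz
  have hmeas : μ.real (⋃ v ∈ S, Metric.ball (Y v) (c₂ * a))
      = ∑ v ∈ S, μ.real (Metric.ball (Y v) (c₂ * a)) :=
    measureReal_biUnion_finset hdisj fun v _ => measurableSet_ball
  have hle1 : c₂ * a ≤ 1 := (mul_le_mul_of_nonneg_left haC hc₂pos.le).trans hc₂3
  have hlow : (S.card : ℝ) * (κ * (c₂ * a) ^ m) ≤ μ.real (Box f δ n w) := by
    calc (S.card : ℝ) * (κ * (c₂ * a) ^ m) = ∑ v ∈ S, κ * (c₂ * a) ^ m := by
          rw [Finset.sum_const, nsmul_eq_mul]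
      _ ≤ ∑ v ∈ S, μ.real (Metric.ball (Y v) (c₂ * a)) :=
          Finset.sum_le_sum fun v _ => hball _ _ (by positivity) hle1
      _ = _ := hmeas.symm
      _ ≤ _ := measureReal_mono hsub
  refine le_trans ?_ hlow
  calc κ * (r * c₃ / (2 * c₂)) ^ u * c₂ ^ m * a ^ (m - u)
      = (r / ρ) ^ u * (κ * (c₂ * a) ^ m) := by
        have h1 : a ^ m = a ^ u * a ^ (m - u) := by rw [← pow_add]; congr 1; omega
        have h2 : r / ρ = r * c₃ / (2 * c₂) / a := by
          rw [hρ]
          field_simp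
        rw [h2, div_pow _ a, mul_pow c₂, h1]
        have : a ^ u ≠ 0 := (pow_pos hapos u).ne'
        generalize (r * c₃ / (2 * c₂)) ^ u = X
        field_simp
    _ ≤ _ := by gcongr

end Pool.Agent.Lib.MP610fe3.Cf
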