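import Pool.Agent.Lib.MP_610fe3_an.Cf.Spec
import Pool.Agent.Lib.MP_610fe3_an.Nested

/-!
# Conformal Anosov diffeomorphisms: common lemmas
-/

open Set Filter Function MeasureTheory
open scoped Topology

namespace Pool.Agent.Lib.MP610fe3

variable {M W : Type*} [MetricSpace M] [NormedAddCommGroup W] [NormedSpace ℝ W]

/-! ### The derivative cocycle -/

theorem iterD_add (D : M → W →L[ℝ] W) (f : M → M) (m n : ℕ) (x : M) :
    iterD D f (m + n) x = iterD D f m (f^[n] x) ∘L iterD D f n x := by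
  induction n generalizing x with
  | zero => simp [iterD]
  | succ n ih =>
    rw [show m + (n + 1) = (m + n) + 1 by ring,
      show iterD D f (m + n + 1) x = iterD D f (m + n) (f x) ∘L D x from rfl, ih (f x),
      show iterD D f (n + 1) x = iterD D f n (f x) ∘L D x from rfl, iterate_succ_apply,
      ContinuousLinearMap.comp_assoc]

theorem iterD_one (D : M → W →L[ℝ] W) (f : M → M) (x : M) : iterD D f 1 x = D x := by
  simp [iterD]

theorem continuous_iterD {D : M → W →L[ℝ] W} {f : M → M} (hD : Continuous D)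
    (hf : Continuous f) (n : ℕ) : Continuous (iterD D f n) := by
  induction n with
  | zero => exact continuous_const
  | succ n ih => exact (ih.comp hf).clm_comp hD

namespace Split

variable {E : Emb M W} {f : M ≃ₜ M} (s : Split E f)

theorem SS_apply (x : M) (w : W) : s.S x (s.S x w) = s.S x w :=
  congrArg (fun L => L w) (s.SS x)

theorem UU_apply (x : M) (w : W) : s.U x (s.U x w) = s.U x w :=
  congrArg (fun L => L w) (s.UU x)

theorem SU_apply (x : M) (w : W) : s.S x (s.U x w) = 0 :=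
  congrArg (fun L => L w) (s.SU x)

theorem US_apply (x : M) (w : W) : s.U x (s.S x w) = 0 :=
  congrArg (fun L => L w) (s.US x)

theorem PS_apply (x : M) (w : W) : E.P x (s.S x w) = s.S x w :=
  congrArg (fun L => L w) (s.PS x)

theorem SP_apply (x : M) (w : W) : s.S x (E.P x w) = s.S x w :=
  congrArg (fun L => L w) (s.SP x)

theorem PU_apply (x : M) (w : W) : E.P x (s.U x w) = s.U x w :=
  congrArg (fun L => L w) (s.PU x)

theorem UP_apply (x : M) (w : W) : s.U x (E.P x w) = s.U x w :=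
  congrArg (fun L => L w) (s.UP x)

theorem add_apply' (x : M) (w : W) : s.S x w + s.U x w = E.P x w :=
  congrArg (fun L => L w) (s.add x)

theorem DS_apply (x : M) (w : W) : s.D x (s.S x w) = s.S (f x) (s.D x w) :=
  congrArg (fun L => L w) (s.DS x)

theorem DU_apply (x : M) (w : W) : s.D x (s.U x w) = s.U (f x) (s.D x w) :=
  congrArg (fun L => L w) (s.DU x)

theorem DiS_apply (x : M) (w : W) : s.Di x (s.S x w) = s.S (f.symm x) (s.Di x w) :=
  congrArg (fun L => L w) (s.DiS x)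

theorem DiU_apply (x : M) (w : W) : s.Di x (s.U x w) = s.U (f.symm x) (s.Di x w) :=
  congrArg (fun L => L w) (s.DiU x)

theorem inv1_apply (x : M) (w : W) : s.Di (f x) (s.D x w) = E.P x w :=
  congrArg (fun L => L w) (s.inv1 x)

theorem inv2_apply (x : M) (w : W) : s.D (f.symm x) (s.Di x w) = E.P x w :=
  congrArg (fun L => L w) (s.inv2 x)

theorem D_P_apply (x : M) (w : W) : s.D x (E.P x w) = s.D x w :=
  congrArg (fun L => L w) (s.hD.right x)

theorem P_D_apply (x : M) (w : W) : E.P (f x) (s.D x w) = s.D x w :=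
  congrArg (fun L => L w) (s.hD.left x)

theorem Di_P_apply (x : M) (w : W) : s.Di x (E.P x w) = s.Di x w :=
  congrArg (fun L => L w) (s.hDi.right x)

theorem P_Di_apply (x : M) (w : W) : E.P (f.symm x) (s.Di x w) = s.Di x w :=
  congrArg (fun L => L w) (s.hDi.left x)

theorem iterDS_apply (k : ℕ) (x : M) (w : W) :
    iterD s.D f k x (s.S x w) = s.S (f^[k] x) (iterD s.D f k x w) :=
  congrArg (fun L => L w) (s.iterDS k x)

theorem iterDU_apply (k : ℕ) (x : M) (w : W) :
    iterD s.D f k x (s.U x w) = s.U (f^[k] x) (iterD s.D f k x w) :=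
  congrArg (fun L => L w) (s.iterDU k x)

/-- backward iterates -/
theorem iterDiS_apply (k : ℕ) (x : M) (w : W) :
    iterD s.Di f.symm k x (s.S x w) = s.S (f.symm^[k] x) (iterD s.Di f.symm k x w) :=
  s.swap.iterDU_apply k x w

theorem iterDiU_apply (k : ℕ) (x : M) (w : W) :
    iterD s.Di f.symm k x (s.U x w) = s.U (f.symm^[k] x) (iterD s.Di f.symm k x w) :=
  s.swap.iterDS_apply k x w

/-- going forth and back, on tangent vectors (stable part) -/
theorem iter_back (k : ℕ) (x : M) (w : W) :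
    iterD s.Di f.symm k (f^[k] x) (iterD s.D f k x (s.S x w)) = s.S x w := by
  cases k with
  | zero => simp [iterD]
  | succ k =>
    have := congrArg (fun L => L (s.S x w)) (s.iter_inv1 k x)
    simp only [ContinuousLinearMap.comp_apply] at this
    rw [this, s.PS_apply]

theorem iter_backU (k : ℕ) (x : M) (w : W) :
    iterD s.Di f.symm k (f^[k] x) (iterD s.D f k x (s.U x w)) = s.U x w := by
  cases k with
  | zero => simp [iterD]
  | succ k =>
    have := congrArg (fun L => L (s.U x w)) (s.iter_inv1 k x)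
    simp only [ContinuousLinearMap.comp_apply] at this
    rw [this, s.PU_apply]

/-- going back and forth -/
theorem iter_forth (k : ℕ) (x : M) (w : W) :
    iterD s.D f k (f.symm^[k] x) (iterD s.Di f.symm k x (s.S x w)) = s.S x w := by
  cases k with
  | zero => simp [iterD]
  | succ k =>
    have := congrArg (fun L => L (s.S x w)) (s.iter_inv2 k x)
    simp only [ContinuousLinearMap.comp_apply] at this
    rw [this, s.PS_apply]

theorem iter_forthU (k : ℕ) (x : M) (w : W) :
    iterD s.D f k (f.symm^[k] x) (iterD s.Di f.symm k x (s.U x w)) = s.U x w := by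
  cases k with
  | zero => simp [iterD]
  | succ k =>
    have := congrArg (fun L => L (s.U x w)) (s.iter_inv2 k x)
    simp only [ContinuousLinearMap.comp_apply] at this
    rw [this, s.PU_apply]

theorem contU [CompactSpace M] (hs : s.Hyperbolic) : Continuous s.U := by
  rw [Metric.continuous_iff]
  intro x η hη
  obtain ⟨r, hr, h⟩ := s.exists_unifU hs (half_pos hη)
  refine ⟨r, hr, fun z hz => ?_⟩
  rw [dist_eq_norm]
  have : ‖s.U z - s.U x‖ ≤ η / 2 :=
    ContinuousLinearMap.opNorm_le_bound _ (by positivity) (fun w => h x z hz w)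
  linarith

theorem contS [CompactSpace M] (hs : s.Hyperbolic) : Continuous s.S :=
  s.swap.contU hs.swap

end Split

namespace Cf

/-! ### Local stable sets -/

section Wl

variable {f : M ≃ₜ M} {ε ε' : ℝ} {x y z : M}

theorem Wl_mono (h : ε ≤ ε') : Wl f ε x ⊆ Wl f ε' x := fun _ hz k => (hz k).trans h

theorem mem_Wl_self (hε : 0 ≤ ε) : x ∈ Wl f ε x := fun k => by rw [dist_self]; exact hε

theorem Wl_comm (h : z ∈ Wl f ε x) : x ∈ Wl f ε z := fun k => by rw [dist_comm]; exact h k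

theorem Wl_trans (h : y ∈ Wl f ε x) (h' : z ∈ Wl f ε' y) : z ∈ Wl f (ε + ε') x := fun k =>
  (dist_triangle _ (f^[k] y) _).trans (by linarith [h k, h' k])

theorem Wl_map (h : z ∈ Wl f ε x) : f z ∈ Wl f ε (f x) := fun k => by
  rw [← iterate_succ_apply, ← iterate_succ_apply]
  exact h (k + 1)

theorem Wl_iter (h : z ∈ Wl f ε x) (n : ℕ) : f^[n] z ∈ Wl f ε (f^[n] x) := fun k => by
  rw [← iterate_add_apply, ← iterate_add_apply]
  exact h (k + n)

theorem Wl_dist (h : z ∈ Wl f ε x) : dist z x ≤ ε := h 0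

theorem Wl_nonneg (h : z ∈ Wl f ε x) : 0 ≤ ε := dist_nonneg.trans (h 0)

theorem isClosed_Wl_prod (f : M ≃ₜ M) (ε : ℝ) : IsClosed {p : M × M | p.2 ∈ Wl f ε p.1} := by
  have : {p : M × M | p.2 ∈ Wl f ε p.1} = ⋂ k : ℕ, {p : M × M | dist (f^[k] p.2) (f^[k] p.1) ≤ ε} := by
    ext p
    simp [Wl]
  rw [this]
  refine isClosed_iInter fun k => isClosed_le ?_ continuous_const
  exact ((f.continuous.iterate k).comp continuous_snd).dist
    ((f.continuous.iterate k).comp continuous_fst)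

theorem isClosed_Wl (f : M ≃ₜ M) (ε : ℝ) (x : M) : IsClosed (Wl f ε x) :=
  (isClosed_Wl_prod f ε).preimage (f := fun z => (x, z)) (by fun_prop)

/-- Going one step back in the local stable set. -/
theorem Wl_of_map (h : f z ∈ Wl f ε (f x)) (h0 : dist z x ≤ ε) : z ∈ Wl f ε x := by
  intro k
  cases k with
  | zero => exact h0
  | succ k =>
    rw [iterate_succ_apply, iterate_succ_apply]
    exact h k

/-- Going `n` steps back in the local stable set. -/
theorem Wl_of_iter {n : ℕ} (h : f^[n] z ∈ Wl f ε (f^[n] x))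
    (h0 : ∀ k < n, dist (f^[k] z) (f^[k] x) ≤ ε) : z ∈ Wl f ε x := by
  intro k
  rcases lt_or_ge k n with hk | hk
  · exact h0 k hk
  · obtain ⟨j, rfl⟩ := Nat.exists_eq_add_of_le hk
    rw [add_comm, iterate_add_apply, iterate_add_apply]
    exact h j

theorem iterate_symm_iterate (f : M ≃ₜ M) (n : ℕ) (x : M) : f^[n] (f.symm^[n] x) = x := by
  induction n generalizing x with
  | zero => rfl
  | succ n ih =>
    rw [iterate_succ_apply, iterate_succ_apply', f.apply_symm_apply, ih]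

theorem symm_iterate_iterate (f : M ≃ₜ M) (n : ℕ) (x : M) : f.symm^[n] (f^[n] x) = x :=
  iterate_symm_iterate f.symm n x

theorem iterate_symm_iterate_of_le (f : M ≃ₜ M) {k n : ℕ} (h : k ≤ n) (x : M) :
    f^[k] (f.symm^[n] x) = f.symm^[n - k] x := by
  obtain ⟨j, rfl⟩ := Nat.exists_eq_add_of_le h
  rw [iterate_add_apply, iterate_symm_iterate, Nat.add_sub_cancel_left]

theorem symm_iterate_iterate_of_le (f : M ≃ₜ M) {k n : ℕ} (h : k ≤ n) (x : M) :
    f.symm^[k] (f^[n] x) = f^[n - k] x :=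
  iterate_symm_iterate_of_le f.symm h x

end Wl

/-! ### The conformal structure -/

namespace Conf

variable {E : Emb M W} {f : M ≃ₜ M} {s : Split E f} (c : Conf s)

theorem B_nonneg (x : M) (w : W) : 0 ≤ c.B x w w := by
  have h1 := c.lower x w
  have h2 : 0 ≤ c.K * c.B x w w := (sq_nonneg _).trans h1
  exact nonneg_of_mul_nonneg_right h2 c.K_pos

theorem proj_right (x : M) (v w : W) : c.B x v (s.S x w) = c.B x v w := by
  rw [c.symm, c.proj, c.symm]

theorem proj_both (x : M) (v w : W) : c.B x (s.S x v) (s.S x w) = c.B x v w := by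
  rw [c.proj, c.proj_right]

theorem g_nonneg (x : M) (w : W) : 0 ≤ c.g x w := Real.sqrt_nonneg _

theorem g_sq (x : M) (w : W) : c.g x w ^ 2 = c.B x w w := Real.sq_sqrt (c.B_nonneg x w)

theorem gS (x : M) (w : W) : c.g x (s.S x w) = c.g x w := by
  unfold g; rw [c.proj_both]

theorem g_smul (x : M) (t : ℝ) (w : W) : c.g x (t • w) = |t| * c.g x w := by
  unfold g
  rw [map_smul, map_smul, ContinuousLinearMap.smul_apply, smul_eq_mul, smul_eq_mul, ← mul_assoc,
    Real.sqrt_mul (mul_self_nonneg t), Real.sqrt_mul_self_eq_abs]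

theorem g_zero (x : M) : c.g x 0 = 0 := by simp [g]

theorem g_neg (x : M) (w : W) : c.g x (-w) = c.g x w := by simp [g]

theorem cauchy (x : M) (v w : W) : |c.B x v w| ≤ c.g x v * c.g x w := by
  have key : c.B x v w ^ 2 ≤ c.B x v v * c.B x w w := by
    have h : ∀ t : ℝ, 0 ≤ c.B x w w * (t * t) + (2 * c.B x v w) * t + c.B x v v := by
      intro t
      have h1 := c.B_nonneg x (v + t • w)
      simp only [map_add, map_smul, ContinuousLinearMap.add_apply, ContinuousLinearMap.smul_apply,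
        smul_eq_mul] at h1
      rw [c.symm x w v] at h1
      linarith
    have h2 := discrim_le_zero h
    unfold discrim at h2
    nlinarith
  have h1 : |c.B x v w| = Real.sqrt (c.B x v w ^ 2) := (Real.sqrt_sq_eq_abs _).symm
  rw [h1]
  unfold g
  rw [← Real.sqrt_mul (c.B_nonneg x v)]
  exact Real.sqrt_le_sqrt key

theorem g_add_le (x : M) (v w : W) : c.g x (v + w) ≤ c.g x v + c.g x w := by
  have h1 : c.g x (v + w) ^ 2 ≤ (c.g x v + c.g x w) ^ 2 := by
    rw [c.g_sq, add_sq, c.g_sq, c.g_sq]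
    simp only [map_add, ContinuousLinearMap.add_apply]
    have := (abs_le.1 (c.cauchy x v w)).2
    rw [c.symm x w v]
    linarith
  exact le_of_sq_le_sq h1 (add_nonneg (c.g_nonneg x v) (c.g_nonneg x w))
  where le_of_sq_le_sq {a b : ℝ} (h : a ^ 2 ≤ b ^ 2) (hb : 0 ≤ b) : a ≤ b :=
    (abs_le_of_sq_le_sq' h hb).2

theorem g_sub_le (x : M) (v w : W) : c.g x (v - w) ≤ c.g x v + c.g x w := by
  have := c.g_add_le x v (-w)
  rwa [← sub_eq_add_neg, c.g_neg] at this

theorem le_g_add (x : M) (v w : W) : c.g x v - c.g x w ≤ c.g x (v + w) := by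
  have := c.g_sub_le x (v + w) w
  rw [add_sub_cancel_right] at this
  linarith

theorem g_map (x : M) (w : W) : c.g (f x) (s.D x w) = c.a x * c.g x w := by
  unfold g
  rw [c.conf, Real.sqrt_mul (sq_nonneg _), Real.sqrt_sq (c.a_pos x).le]

@[simp] theorem an_zero (x : M) : c.an 0 x = 1 := by simp [an]

theorem an_pos (n : ℕ) (x : M) : 0 < c.an n x := Finset.prod_pos fun _ _ => c.a_pos _

theorem an_succ (n : ℕ) (x : M) : c.an (n + 1) x = c.an n x * c.a (f^[n] x) := by
  unfold an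
  rw [Finset.prod_range_succ]

theorem an_succ' (n : ℕ) (x : M) : c.an (n + 1) x = c.an n (f x) * c.a x := by
  unfold an
  rw [Finset.prod_range_succ']
  simp only [iterate_succ_apply, iterate_zero, id_eq]

theorem an_one (x : M) : c.an 1 x = c.a x := by simp [an]

theorem an_add (m n : ℕ) (x : M) : c.an (m + n) x = c.an m (f^[n] x) * c.an n x := by
  unfold an
  rw [add_comm, Finset.prod_range_add, mul_comm]
  congr 1
  refine Finset.prod_congr rfl fun k _ => ?_
  rw [← iterate_add_apply, add_comm]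

theorem g_iter (n : ℕ) (x : M) (w : W) :
    c.g (f^[n] x) (iterD s.D f n x w) = c.an n x * c.g x w := by
  induction n with
  | zero => simp [iterD]
  | succ n ih =>
    rw [iterD_succ', iterate_succ_apply', ContinuousLinearMap.comp_apply, c.g_map, ih, an_succ]
    ring

/-- conformality of iterates -/
theorem B_iter (n : ℕ) (x : M) (v w : W) :
    c.B (f^[n] x) (iterD s.D f n x v) (iterD s.D f n x w) = c.an n x ^ 2 * c.B x v w := by
  induction n with
  | zero => simp [iterD]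
  | succ n ih =>
    rw [iterD_succ', iterate_succ_apply', ContinuousLinearMap.comp_apply,
      ContinuousLinearMap.comp_apply, c.conf, ih, an_succ]
    ring

/-- backward iterates -/
theorem g_back (n : ℕ) (x : M) (w : W) :
    c.g (f.symm^[n] x) (iterD s.Di f.symm n x w) = (c.an n (f.symm^[n] x))⁻¹ * c.g x w := by
  have h1 := c.g_iter n (f.symm^[n] x) (iterD s.Di f.symm n x (s.S x w))
  rw [iterate_symm_iterate, s.iter_forth, s.iterDiS_apply, c.gS, c.gS] at h1
  rw [h1, inv_mul_cancel_left₀ (c.an_pos _ _).ne']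

theorem g_back' (n : ℕ) (x : M) (w : W) :
    c.g x (iterD s.Di f.symm n (f^[n] x) w) = (c.an n x)⁻¹ * c.g (f^[n] x) w := by
  have := c.g_back n (f^[n] x) w
  rwa [symm_iterate_iterate] at this

theorem norm_le (x : M) (w : W) : ‖s.S x w‖ ≤ Real.sqrt c.K * c.g x w := by
  unfold g
  rw [← Real.sqrt_mul c.K_pos.le]
  exact Real.le_sqrt_of_sq_le (c.lower x w)

theorem g_pos {x : M} {w : W} (h : s.S x w ≠ 0) : 0 < c.g x w := by
  have h1 := c.norm_le x w
  have h2 : 0 < ‖s.S x w‖ := norm_pos_iff.2 h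
  have h3 : 0 < Real.sqrt c.K := Real.sqrt_pos.2 c.K_pos
  rcases (c.g_nonneg x w).eq_or_lt with h4 | h4
  · rw [← h4, mul_zero] at h1
    linarith
  · exact h4

theorem continuous_g : Continuous (fun p : M × W => c.g p.1 p.2) := by
  unfold g
  exact (((c.cont.comp continuous_fst).clm_apply continuous_snd).clm_apply
    continuous_snd).sqrt

/-- norm comparison -/
theorem exists_bound [CompactSpace M] : ∃ K : ℝ, 1 ≤ K ∧ ∀ x w, ‖s.S x w‖ ≤ K * c.g x w ∧
    c.g x w ≤ K * ‖s.S x w‖ ∧ c.g x w ≤ K * ‖w‖ := by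
  obtain ⟨K₁, hK₁, h₁⟩ : ∃ K : ℝ, 1 ≤ K ∧ ∀ x, ‖c.B x‖ ≤ K := by
    have hn : Continuous fun x => ‖c.B x‖ :=
      (continuous_norm (E := W →L[ℝ] W →L[ℝ] ℝ)).comp c.cont
    obtain ⟨C, hC⟩ := (isCompact_range hn).bddAbove
    exact ⟨max C 1, le_max_right _ _, fun x => (hC ⟨x, rfl⟩).trans (le_max_left _ _)⟩
  have key : ∀ x w, c.g x w ≤ K₁ * ‖w‖ := by
    intro x w
    unfold g
    rw [Real.sqrt_le_left (by positivity)]
    have h2 := (c.B x).le_opNorm₂ w w
    have h3 := le_abs_self (c.B x w w)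
    rw [Real.norm_eq_abs] at h2
    have h4 : ‖c.B x‖ * ‖w‖ * ‖w‖ ≤ K₁ * ‖w‖ * ‖w‖ := by
      gcongr
      exact h₁ x
    have h5 : K₁ * ‖w‖ * ‖w‖ ≤ (K₁ * ‖w‖) ^ 2 := by
      have : 0 ≤ ‖w‖ * ‖w‖ := by positivity
      nlinarith [mul_le_mul_of_nonneg_right hK₁ this]
    linarith
  refine ⟨max (Real.sqrt c.K) K₁, hK₁.trans (le_max_right _ _), fun x w => ⟨?_, ?_, ?_⟩⟩
  · exact (c.norm_le x w).trans (mul_le_mul_of_nonneg_right (le_max_left _ _) (c.g_nonneg x w))
  · rw [← c.gS]
    exact (key x _).trans (mul_le_mul_of_nonneg_right (le_max_right _ _) (norm_nonneg _))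
  · exact (key x _).trans (mul_le_mul_of_nonneg_right (le_max_right _ _) (norm_nonneg _))

/-- norm of iterates on the stable bundle -/
theorem exists_iter_bound [CompactSpace M] : ∃ K : ℝ, 1 ≤ K ∧ ∀ n x w,
    ‖iterD s.D f n x (s.S x w)‖ ≤ K * c.an n x * ‖s.S x w‖ ∧
    c.an n x * ‖s.S x w‖ ≤ K * ‖iterD s.D f n x (s.S x w)‖ ∧
    ‖iterD s.Di f.symm n (f^[n] x) (s.S (f^[n] x) w)‖
      ≤ K * (c.an n x)⁻¹ * ‖s.S (f^[n] x) w‖ := by
  obtain ⟨K, hK, h⟩ := c.exists_bound
  refine ⟨K * K, by nlinarith, fun n x w => ⟨?_, ?_, ?_⟩⟩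
  · have h1 := (h (f^[n] x) (iterD s.D f n x (s.S x w))).1
    rw [← s.iterDS_apply, s.SS_apply, c.g_iter, c.gS] at h1
    have h2 := (h x w).2.1
    calc _ ≤ K * (c.an n x * c.g x w) := h1
      _ ≤ K * (c.an n x * (K * ‖s.S x w‖)) := by
          gcongr
          exact (c.an_pos n x).le
      _ = _ := by ring
  · have h1 := (h (f^[n] x) (iterD s.D f n x (s.S x w))).2.1
    rw [← s.iterDS_apply, s.SS_apply, c.g_iter, c.gS] at h1
    have h2 := (h x w).1
    calc c.an n x * ‖s.S x w‖ ≤ c.an n x * (K * c.g x w) := by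
          gcongr
          exact (c.an_pos n x).le
      _ = K * (c.an n x * c.g x w) := by ring
      _ ≤ K * (K * ‖iterD s.D f n x (s.S x w)‖) := by gcongr
      _ = _ := by ring
  · have h1 := (h x (iterD s.Di f.symm n (f^[n] x) (s.S (f^[n] x) w))).1
    rw [c.g_back', c.gS] at h1
    have h3 : s.S x (iterD s.Di f.symm n (f^[n] x) (s.S (f^[n] x) w))
        = iterD s.Di f.symm n (f^[n] x) (s.S (f^[n] x) w) := by
      have h4 := s.iterDiS_apply n (f^[n] x) (s.S (f^[n] x) w)
      rw [s.SS_apply, symm_iterate_iterate] at h4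
      exact h4.symm
    rw [h3] at h1
    have h2 := (h (f^[n] x) w).2.1
    calc _ ≤ K * ((c.an n x)⁻¹ * c.g (f^[n] x) w) := h1
      _ ≤ K * ((c.an n x)⁻¹ * (K * ‖s.S (f^[n] x) w‖)) := by
          have := (c.an_pos n x)
          gcongr
      _ = _ := by ring

theorem exists_vec (x : M) (h : s.S x ≠ 0) : ∃ v : W, s.S x v = v ∧ v ≠ 0 := by
  by_contra hcon
  push Not at hcon
  apply h
  ext w
  have := hcon (s.S x w) (s.SS_apply x w)
  rw [this]
  rfl

/-- the conformal factor is continuous -/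
theorem continuous_a (hne : ∀ x, s.S x ≠ 0) :
    Continuous c.a := by
  rw [continuous_iff_continuousAt]
  intro x
  obtain ⟨v, hv, hv0⟩ := exists_vec (s := s) x (hne x)
  have hg : 0 < c.g x v := c.g_pos (by rw [hv]; exact hv0)
  have h1 : Continuous fun y => c.g y v :=
    c.continuous_g.comp (continuous_id.prodMk continuous_const)
  have h2 : Continuous fun y => c.g (f y) (s.D y v) :=
    c.continuous_g.comp (f.continuous.prodMk (s.hD.cont.clm_apply continuous_const))
  have h3 : ∀ᶠ y in 𝓝 x, 0 < c.g y v := h1.continuousAt.eventually (lt_mem_nhds hg)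
  have h4 : (fun y => c.g (f y) (s.D y v) / c.g y v) =ᶠ[𝓝 x] c.a := by
    filter_upwards [h3] with y hy
    rw [c.g_map]
    field_simp
  exact (h2.continuousAt.div h1.continuousAt hg.ne').congr h4

theorem continuous_an (hne : ∀ x, s.S x ≠ 0) (n : ℕ) :
    Continuous (c.an n) := by
  unfold an
  exact continuous_finsetProd _ fun k _ =>
    (c.continuous_a hne).comp (f.continuous.iterate k)

theorem exists_a_bound [CompactSpace M] (hne : ∀ x, s.S x ≠ 0) :
    ∃ K : ℝ, 1 ≤ K ∧ ∀ x, c.a x ≤ K ∧ 1 ≤ K * c.a x := by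
  have h1 := c.continuous_a hne
  obtain ⟨K₁, h₁⟩ := isCompact_univ.exists_bound_of_continuousOn h1.continuousOn
  have h2 : Continuous fun x => (c.a x)⁻¹ := h1.inv₀ fun x => (c.a_pos x).ne'
  obtain ⟨K₂, h₂⟩ := isCompact_univ.exists_bound_of_continuousOn h2.continuousOn
  refine ⟨max (max K₁ K₂) 1, le_max_right _ _, fun x => ⟨?_, ?_⟩⟩
  · have := h₁ x (mem_univ x)
    rw [Real.norm_eq_abs, abs_of_pos (c.a_pos x)] at this
    exact this.trans ((le_max_left _ _).trans (le_max_left _ _))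
  · have := h₂ x (mem_univ x)
    have h3 := c.a_pos x
    rw [Real.norm_eq_abs, abs_of_pos (inv_pos.2 h3)] at this
    have h4 : (c.a x)⁻¹ ≤ max (max K₁ K₂) 1 :=
      this.trans ((le_max_right _ _).trans (le_max_left _ _))
    have h5 := mul_le_mul_of_nonneg_right h4 h3.le
    rwa [inv_mul_cancel₀ h3.ne'] at h5

/-- exponential decay of the conformal factors -/
theorem exists_an_le [CompactSpace M] (hs : s.Hyperbolic) (hne : ∀ x, s.S x ≠ 0) :
    ∃ C l : ℝ, 1 ≤ C ∧ 0 < l ∧ l < 1 ∧ ∀ n x, c.an n x ≤ C * l ^ n := by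
  obtain ⟨C, l, hC, hl, hl1, H⟩ := hs
  obtain ⟨K, hK, h⟩ := c.exists_bound
  refine ⟨max (K * C * K) 1, l, le_max_right _ _, hl, hl1, fun n x => ?_⟩
  obtain ⟨v, hv, hv0⟩ := exists_vec (s := s) x (hne x)
  have hg : 0 < c.g x v := c.g_pos (by rw [hv]; exact hv0)
  have h1 := (h (f^[n] x) (iterD s.D f n x v)).2.2
  rw [c.g_iter] at h1
  have h2 := (H n x v).1
  rw [hv] at h2
  have h3 := (h x v).1
  rw [hv] at h3
  have h4 : c.an n x * c.g x v ≤ (K * C * K * l ^ n) * c.g x v := by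
    calc c.an n x * c.g x v ≤ K * ‖iterD s.D f n x v‖ := h1
      _ ≤ K * (C * l ^ n * ‖v‖) := by gcongr
      _ ≤ K * (C * l ^ n * (K * c.g x v)) := by gcongr
      _ = _ := by ring
  have h5 := le_of_mul_le_mul_right h4 hg
  calc c.an n x ≤ K * C * K * l ^ n := h5
    _ ≤ _ := by
        gcongr
        exact le_max_left _ _

end Conf

/-! ### Monotonicity in the scale and the constants -/

section Mono

variable {E : Emb M W} {f : M ≃ₜ M} {s : Split E f} {c : Conf s}

theorem Dec.mono {ε C l ε' C' l' : ℝ} (h : Dec f ε C l) (hε : 0 < ε') (h1 : ε' ≤ ε)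
    (h2 : C ≤ C') (h3 : l ≤ l') (h4 : l' < 1) : Dec f ε' C' l' := by
  refine ⟨hε, h.one_le.trans h2, h.l_pos.trans_le h3, h4, fun x z hz n => ?_⟩
  refine (h.dec x z (Wl_mono h1 hz) n).trans ?_
  have := h.one_le
  have := h.l_pos
  have h5 : l ^ n ≤ l' ^ n := pow_le_pow_left₀ h.l_pos.le h3 n
  have h6 : C * l ^ n ≤ C' * l' ^ n := mul_le_mul h2 h5 (by positivity) (by linarith)
  exact mul_le_mul_of_nonneg_right h6 dist_nonneg

theorem Grow.mono {ε C l ε' C' l' : ℝ} (h : Grow c ε C l) (hε : 0 < ε') (h1 : ε' ≤ ε)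
    (h2 : C ≤ C') (h3 : l ≤ l') (h4 : l' < 1) : Grow c ε' C' l' := by
  have hC := h.one_le
  have hl := h.l_pos
  refine ⟨hε, h.one_le.trans h2, h.l_pos.trans_le h3, h4, ?_, ?_, ?_, ?_⟩
  · intro n x
    refine (h.an_le n x).trans ?_
    have h5 : l ^ n ≤ l' ^ n := pow_le_pow_left₀ h.l_pos.le h3 n
    exact mul_le_mul h2 h5 (by positivity) (by linarith)
  · intro x z hz n
    refine (h.upper x z (Wl_mono h1 hz) n).trans ?_
    have := (c.an_pos n x).le
    have : 0 ≤ dist z x := dist_nonneg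
    gcongr
  · intro x z hz n
    refine (h.lower x z (Wl_mono h1 hz) n).trans ?_
    exact mul_le_mul_of_nonneg_right h2 dist_nonneg
  · intro x z hz
    refine (h.cone x z (Wl_mono h1 hz)).trans ?_
    gcongr

theorem Flat.mono {ε C ε' C' : ℝ} {ψ : M → M → W} {Q : M → M → W →L[ℝ] W} {q : M → M → ℝ}
    (h : Flat c ε C ψ Q q) (hε : 0 < ε') (h1 : ε' ≤ ε) (h2 : C ≤ C') : Flat c ε' C' ψ Q q where
  ε_pos := hε
  one_le := h.one_le.trans h2
  mem := fun x z hz => h.mem x z (Wl_mono h1 hz)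
  approx := fun x z hz => (h.approx x z (Wl_mono h1 hz)).trans (by gcongr)
  upper := fun x z hz => h.upper x z (Wl_mono h1 hz)
  lower := fun x z hz => h.lower x z (Wl_mono h1 hz)
  equiv := fun x z hz => h.equiv x z (Wl_mono h1 hz)
  inj := fun x z hz z' hz' => h.inj x z (Wl_mono h1 hz) z' (Wl_mono h1 hz')
  cont := h.cont.mono fun _ hp => Wl_mono h1 hp
  trans := fun x z hz z' hz' hz'' =>
    h.trans x z (Wl_mono h1 hz) z' (Wl_mono h1 hz') (Wl_mono h1 hz'')
  Q_self := h.Q_self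
  Q_S := fun x z hz => h.Q_S x z (Wl_mono h1 hz)
  S_Q := fun x z hz => h.S_Q x z (Wl_mono h1 hz)
  Q_conf := fun x z hz => h.Q_conf x z (Wl_mono h1 hz)
  Q_cont := h.Q_cont.mono fun _ hp => Wl_mono h1 hp
  q_pos := fun x z hz => h.q_pos x z (Wl_mono h1 hz)
  q_self := h.q_self
  q_comp := fun x z hz z' hz' hz'' =>
    h.q_comp x z (Wl_mono h1 hz) z' (Wl_mono h1 hz') (Wl_mono h1 hz'')
  q_equiv := fun x z hz => h.q_equiv x z (Wl_mono h1 hz)
  q_cont := h.q_cont.mono fun _ hp => Wl_mono h1 hp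

theorem LinHol.mono {ε C ε' C' : ℝ} {P : M → M → W →L[ℝ] W} {p : M → M → ℝ}
    (h : LinHol c ε C P p) (hε : 0 < ε') (h1 : ε' ≤ ε) (h2 : C ≤ C') : LinHol c ε' C' P p where
  ε_pos := hε
  one_le := h.one_le.trans h2
  P_self := h.P_self
  P_S := fun x y hy => h.P_S x y (Wl_mono h1 hy)
  S_P := fun x y hy => h.S_P x y (Wl_mono h1 hy)
  P_conf := fun x y hy => h.P_conf x y (Wl_mono h1 hy)
  P_comp := fun x y hy z hz hz' =>
    h.P_comp x y (Wl_mono h1 hy) z (Wl_mono h1 hz) (Wl_mono h1 hz')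
  P_equiv := fun x y hy hy' => h.P_equiv x y (Wl_mono h1 hy) (Wl_mono h1 hy')
  P_cont := h.P_cont.mono fun _ hp => Wl_mono h1 hp
  p_pos := fun x y hy => h.p_pos x y (Wl_mono h1 hy)
  p_self := h.p_self
  p_comp := fun x y hy z hz hz' =>
    h.p_comp x y (Wl_mono h1 hy) z (Wl_mono h1 hz) (Wl_mono h1 hz')
  p_equiv := fun x y hy hy' => h.p_equiv x y (Wl_mono h1 hy) (Wl_mono h1 hy')
  p_cont := h.p_cont.mono fun _ hp => Wl_mono h1 hp
  dist_le := fun x y hy n => (h.dist_le x y (Wl_mono h1 hy) n).trans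
    (mul_le_mul_of_nonneg_right h2 (c.an_pos _ _).le)

theorem Br.mono {ε C ε' C' : ℝ} (h : Br f ε C) (hε : 0 < ε') (h1 : ε' ≤ ε) (h2 : C ≤ C') :
    Br f ε' C' where
  ε_pos := hε
  one_le := h.one_le.trans h2
  exist := h.exist
  unique := fun x y z z' h₁ h₂ h₃ h₄ =>
    h.unique x y z z' (Wl_mono h1 h₁) (Wl_mono h1 h₂) (Wl_mono h1 h₃) (Wl_mono h1 h₄)
  left := fun x y z h₁ h₂ => (h.left x y z (Wl_mono h1 h₁) (Wl_mono h1 h₂)).trans
    (mul_le_mul_of_nonneg_right h2 dist_nonneg)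
  right := fun x y z h₁ h₂ => (h.right x y z (Wl_mono h1 h₁) (Wl_mono h1 h₂)).trans
    (mul_le_mul_of_nonneg_right h2 dist_nonneg)

end Mono

end Cf

end Pool.Agent.Lib.MP610fe3
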