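import Pool.Agent.Lib.MP_610fe3_an.Cf.H1Trap

/-!
# Module FINAL: chain transitivity from vanishing of the cross ratio like invariant
-/

open Set Filter Function MeasureTheory
open scoped Topology

namespace Pool.Agent.Lib.MP610fe3.Cf

universe u v

open H1

namespace H1

section Aux

variable {M : Type u} {W : Type v} [MetricSpace M] [NormedAddCommGroup W] [NormedSpace ℝ W]
  {E : Emb M W} {f : M ≃ₜ M} {s : Split E f} {c : Conf s} {ε C l : ℝ} {ψ : M → M → W}
  {Q : M → M → W →L[ℝ] W} {q : M → M → ℝ} {P : M → M → W →L[ℝ] W} {p : M → M → ℝ}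

theorem iterD_add (D : M → W →L[ℝ] W) (f : M → M) (m n : ℕ) (x : M) :
    iterD D f (m + n) x = iterD D f m (f^[n] x) ∘L iterD D f n x := by
  induction n generalizing x with
  | zero => ext w; simp [iterD]
  | succ n ih =>
    rw [← add_assoc]
    rw [show iterD D f (m + n + 1) x = iterD D f (m + n) (f x) ∘L D x from rfl, ih (f x),
      ContinuousLinearMap.comp_assoc, iterate_succ_apply]
    rfl

theorem iterD_cont {D : M → W →L[ℝ] W} {f : M → M} (hD : Continuous D) (hf : Continuous f)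
    (n : ℕ) : Continuous (iterD D f n) := by
  induction n with
  | zero => exact continuous_const
  | succ n ih =>
    change Continuous fun x => iterD D f n (f x) ∘L D x
    exact (ih.comp hf).clm_comp hD

theorem psi_iter (hk : Pack c ε C l ψ Q q P p) {x z : M} (hz : z ∈ Wl f ε x) (n : ℕ) :
    ψ (f^[n] x) (f^[n] z) = iterD s.D f n x (ψ x z) := by
  induction n generalizing x z with
  | zero => rfl
  | succ n ih =>
    rw [iterate_succ_apply, iterate_succ_apply, ih (wl_image hz), hk.flat.equiv x z hz]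
    rfl

theorem P_iter (hk : Pack c ε C l ψ Q q P p) {x y : M} {n : ℕ}
    (h : ∀ k ≤ n, f^[k] y ∈ Wl f.symm ε (f^[k] x)) :
    P (f^[n] x) (f^[n] y) ∘L iterD s.D f n x = iterD s.D f n y ∘L P x y := by
  induction n with
  | zero => ext w; simp [iterD]
  | succ n ih =>
    have h1 := h n (by omega)
    have h2 := h (n + 1) le_rfl
    rw [iterate_succ_apply', iterate_succ_apply'] at h2
    rw [iterD_succ', iterD_succ', iterate_succ_apply', iterate_succ_apply',
      ← ContinuousLinearMap.comp_assoc, hk.lin.P_equiv _ _ h1 h2,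
      ContinuousLinearMap.comp_assoc, ih (fun k hk => h k (by omega)),
      ContinuousLinearMap.comp_assoc]

theorem asymp_of_wl (hk : Pack c ε C l ψ Q q P p) {x z : M} (hz : z ∈ Wl f ε x) :
    Tendsto (fun n : ℕ => dist (f^[n] z) (f^[n] x)) atTop (𝓝 0) := by
  have hlim : Tendsto (fun n : ℕ => C * (C * l ^ n) * dist z x) atTop
      (𝓝 (C * (C * 0) * dist z x)) :=
    (((tendsto_pow_atTop_nhds_zero_of_lt_one hk.grow.l_pos.le
      hk.grow.l_lt).const_mul C).const_mul C).mul_const _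
  rw [mul_zero, mul_zero, zero_mul] at hlim
  refine squeeze_zero (fun _ => dist_nonneg) (fun n => ?_) hlim
  refine (hk.grow.upper x z hz n).trans ?_
  have hC : 0 ≤ C := zero_le_one.trans hk.grow.one_le
  have := hk.grow.an_le n x
  gcongr

theorem asymp_of_wl_symm (hk : Pack c ε C l ψ Q q P p) {x z : M} (hz : z ∈ Wl f.symm ε x) :
    Tendsto (fun n : ℕ => dist (f.symm^[n] z) (f.symm^[n] x)) atTop (𝓝 0) := by
  have hlim : Tendsto (fun n : ℕ => C * l ^ n * dist z x) atTop (𝓝 (C * 0 * dist z x)) :=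
    ((tendsto_pow_atTop_nhds_zero_of_lt_one hk.decu.l_pos.le
      hk.decu.l_lt).const_mul C).mul_const _
  rw [mul_zero, zero_mul] at hlim
  exact squeeze_zero (fun _ => dist_nonneg) (fun n => hk.decu.dec x z hz n) hlim

/-- Lifts of continuous paths are continuous. -/
theorem cont_lift [CompactSpace M] {g : M ≃ₜ M} {φ : M → M → W} {ε : ℝ}
    (hc : ContinuousOn (fun p : M × M => φ p.1 p.2) {p | p.2 ∈ Wl g ε p.1})
    (hinj : ∀ x, ∀ z ∈ Wl g ε x, ∀ z' ∈ Wl g ε x, φ x z = φ x z' → z = z')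
    {T : Type*} [TopologicalSpace T] {x a : T → M} {w : T → W} (hx : Continuous x)
    (hw : Continuous w) (ha : ∀ t, a t ∈ Wl g ε (x t)) (hφ : ∀ t, φ (x t) (a t) = w t) :
    Continuous a := by
  set A : Set (M × M) := {p | p.2 ∈ Wl g ε p.1} with hA
  have hAc : IsCompact A := (isClosed_wl g ε).isCompact
  have : CompactSpace A := isCompact_iff_compactSpace.1 hAc
  set Φ : A → M × W := fun p => (p.1.1, φ p.1.1 p.1.2) with hΦ
  have hΦc : Continuous Φ :=
    (continuous_fst.comp continuous_subtype_val).prodMk (hc.domRestrict)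
  have hΦi : Injective Φ := by
    rintro ⟨⟨x1, z1⟩, h1⟩ ⟨⟨x2, z2⟩, h2⟩ h
    simp only [hΦ, Prod.mk.injEq] at h
    obtain ⟨hx12, h12⟩ := h
    subst hx12
    have := hinj x1 z1 h1 z2 h2 h12
    subst this
    rfl
  have hemb := hΦc.isClosedEmbedding hΦi
  set G : T → A := fun t => ⟨(x t, a t), ha t⟩ with hG
  have hGc : Continuous G := by
    rw [hemb.isInducing.continuous_iff]
    have : Φ ∘ G = fun t => (x t, w t) := by
      funext t
      simp only [hΦ, hG, Function.comp_apply, hφ t]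
    rw [this]
    exact hx.prodMk hw
  exact continuous_snd.comp (continuous_subtype_val.comp hGc)

/-- Nearby points of a continuous path in an unstable set. -/
theorem eventually_wl (hk : Pack c ε C l ψ Q q P p) {γ : ℝ → M} (hγ : Continuous γ) {t : ℝ}
    (h : ∀ t', γ t' ∈ Wl f.symm ε (γ t)) (N : ℕ) {ρ : ℝ} (hρ : 0 < ρ) :
    ∀ᶠ t' in 𝓝 t, ∀ k ≤ N, f^[k] (γ t') ∈ Wl f.symm ρ (f^[k] (γ t)) := by
  have hCpos : 0 < C := lt_of_lt_of_le one_pos hk.decu.one_le
  have h1 : ∀ᶠ t' in 𝓝 t, γ t' ∈ Wl f.symm ρ (γ t) := by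
    have h2 : ∀ᶠ t' in 𝓝 t, dist (γ t') (γ t) < ρ / C :=
      hγ.continuousAt.eventually (Metric.ball_mem_nhds _ (by positivity))
    filter_upwards [h2] with t' ht' k
    refine (hk.decu.dec _ _ (h t') k).trans ?_
    have h3 : l ^ k ≤ 1 := pow_le_one₀ hk.decu.l_pos.le hk.decu.l_lt.le
    have h4 : C * dist (γ t') (γ t) < ρ := by rwa [lt_div_iff₀' hCpos] at ht'
    calc C * l ^ k * dist (γ t') (γ t) ≤ C * 1 * dist (γ t') (γ t) := by gcongr
      _ ≤ ρ := by rw [mul_one]; exact h4.le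
  have h2 : ∀ᶠ t' in 𝓝 t, ∀ k ∈ Finset.range (N + 1),
      dist (f^[k] (γ t')) (f^[k] (γ t)) < ρ := by
    rw [Filter.eventually_all_finset]
    intro k _
    exact ((f.continuous.iterate k).comp hγ).continuousAt.eventually
      (Metric.ball_mem_nhds _ hρ)
  filter_upwards [h1, h2] with t' ht1 ht2 k hk'
  exact wl_back_iter ht1 fun j hj => (ht2 j (Finset.mem_range.2 (by omega))).le

end Aux

end H1

theorem final : SpecFinal.{u, v} := by
  intro M W _ _ _ _ _ _ E f s c cu ε C l ψ Q q P p ψu Qu qu ε₁ ε₂ ε₃ C' hk hu hε₁ hh hvan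
  by_contra hcon
  obtain ⟨U, hU, hUne, hUuniv⟩ := exists_trap hcon
  have hε₃ := hh.pos
  have h32 := hh.le32
  have h21 := hh.le21
  have hε : 0 < ε := hk.grow.ε_pos
  -- a boundary point of the basin
  have hz₀ : ∃ z₀, z₀ ∈ closure (Bas f U) ∧ z₀ ∉ Bas f U := by
    by_contra hno
    push Not at hno
    have hcl : IsClosed (Bas f U) := by
      rw [← closure_subset_iff_isClosed]
      exact fun z hz => hno z hz
    rcases isClopen_iff.1 ⟨hcl, isOpen_bas hU⟩ with h | h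
    · obtain ⟨y, hy⟩ := hUne
      have : y ∈ Bas f U := ⟨0, hy⟩
      rw [h] at this
      exact this
    · exact bas_ne_univ hU hUuniv h
  obtain ⟨z₀, hz₀c, hz₀⟩ := hz₀
  -- scales
  set ρ₁ : ℝ := ε / 2 with hρ₁def
  have hρ₁ : 0 < ρ₁ := by positivity
  obtain ⟨ru, hru, hsurju⟩ := hu.surj ρ₁ hρ₁
  set r : ℝ := min ρ₁ (ru / 2) with hrdef
  have hr : 0 < r := lt_min hρ₁ (by positivity)
  have hr1 : r ≤ ρ₁ := min_le_left _ _
  have hr2 : r ≤ ru / 2 := min_le_right _ _
  obtain ⟨δ₁, hδ₁, hbr₁⟩ := hk.br.exist r hr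
  obtain ⟨x₁, hx₁, hd₁⟩ := Metric.mem_closure_iff.1 hz₀c δ₁ hδ₁
  rw [dist_comm] at hd₁
  obtain ⟨w₀, hw₀s, hw₀u⟩ := hbr₁ x₁ z₀ hd₁
  have hw₀B : w₀ ∈ Bas f U := bas_of_asymp hU hx₁ (asymp_of_wl hk (wl_mono hw₀s (by linarith)))
  -- the path
  set v₀ : W := ψu z₀ w₀ with hv₀
  have hw₀uε : w₀ ∈ Wl f.symm ε z₀ := wl_mono hw₀u (by linarith)
  have hz₀ε : z₀ ∈ Wl f.symm ε z₀ := wl_self hε.le z₀
  have hv₀U : s.swap.S z₀ v₀ = v₀ := hu.flat.mem z₀ w₀ hw₀uε
  have hv₀n : ‖v₀‖ ≤ ru := by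
    have h1 := hu.flat.upper z₀ w₀ hw₀uε
    have h2 : dist w₀ z₀ ≤ r := wl_dist hw₀u
    linarith
  set τ : ℝ → ℝ := fun t => max 0 (min 1 t) with hτ
  have hτc : Continuous τ := continuous_const.max (continuous_const.min continuous_id)
  have hτ0 : ∀ t, 0 ≤ τ t := fun t => le_max_left _ _
  have hτ1 : ∀ t, τ t ≤ 1 := fun t => max_le zero_le_one (min_le_left _ _)
  have hγex : ∀ t : ℝ, ∃ y ∈ Wl f.symm ρ₁ z₀, ψu z₀ y = (1 - τ t) • v₀ := by
    intro t
    refine hsurju z₀ ((1 - τ t) • v₀) (by rw [map_smul, hv₀U]) ?_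
    rw [norm_smul, Real.norm_of_nonneg (by linarith [hτ1 t])]
    have := hτ0 t
    have := norm_nonneg v₀
    nlinarith
  choose γ hγu hγψ using hγex
  have hγuε : ∀ t, γ t ∈ Wl f.symm ε z₀ := fun t => wl_mono (hγu t) (by linarith)
  have hγc : Continuous γ := by
    refine cont_lift (x := fun _ => z₀) (w := fun t => (1 - τ t) • v₀) hu.flat.cont
      hu.flat.inj continuous_const ?_ hγuε hγψ
    exact (continuous_const.sub hτc).smul continuous_const
  have hγ0 : γ 0 = w₀ := by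
    refine hu.flat.inj z₀ _ (hγuε 0) _ hw₀uε ?_
    rw [hγψ 0]
    simp [hτ, hv₀]
  have hγ1 : γ 1 = z₀ := by
    refine hu.flat.inj z₀ _ (hγuε 1) _ hz₀ε ?_
    have h1 := hu.flat.upper z₀ z₀ hz₀ε
    rw [dist_self, mul_zero] at h1
    have h2 : ψu z₀ z₀ = 0 := norm_le_zero_iff.1 h1
    rw [hγψ 1, h2]
    simp [hτ]
  have hγA : ∀ t, γ t ∉ Att f U := by
    intro t ht
    exact hz₀ (att_subset_bas f U (att_of_asymp hU ht
      (asymp_of_wl_symm hk (wl_symm (hγuε t)))))
  have hγγ : ∀ t t', γ t' ∈ Wl f.symm ε (γ t) := fun t t' =>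
    wl_mono (wl_trans (hγu t') (wl_symm (hγu t))) (by linarith)
  have hγw : ∀ t, γ t ∈ Wl f.symm ε w₀ := fun t => by
    rw [← hγ0]; exact hγγ 0 t
  -- first exit
  have hbad : IsCompact (Icc (0 : ℝ) 1 ∩ γ ⁻¹' (Bas f U)ᶜ) :=
    isCompact_Icc.inter_right ((isOpen_bas hU).isClosed_compl.preimage hγc)
  have hbadne : (Icc (0 : ℝ) 1 ∩ γ ⁻¹' (Bas f U)ᶜ).Nonempty :=
    ⟨1, ⟨zero_le_one, le_rfl⟩, by simpa [hγ1] using hz₀⟩
  obtain ⟨T, ⟨⟨hT0, hT1⟩, hTbad⟩, hTmin⟩ := hbad.exists_isLeast hbadne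
  have hγB : ∀ t ∈ Ico 0 T, γ t ∈ Bas f U := by
    intro t ht
    by_contra hno
    have := hTmin ⟨⟨ht.1, by linarith [ht.2]⟩, hno⟩
    linarith [ht.2]
  -- the stable set of `w₀` meets the attractor
  obtain ⟨δ₂, hδ₂, hbr₂⟩ := hk.br.exist ε hε
  have hatt : ∃ (N₀ : ℕ) (b : M), b ∈ Att f U ∧ dist (f^[N₀ + 1] w₀) b < δ₂ := by
    obtain ⟨b, -, φ, hφ, hlim⟩ := (isCompact_univ (X := M)).tendsto_subseq
      (x := fun n => f^[n] w₀) (fun _ => mem_univ _)
    have hb : b ∈ Att f U := by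
      rw [att_eq hU]
      intro k
      obtain ⟨m, hm⟩ := hw₀B
      refine mem_closure_of_tendsto (((f.symm.continuous.iterate k).tendsto b).comp hlim) ?_
      filter_upwards [eventually_ge_atTop (k + m)] with i hi
      have h1 : k + m ≤ φ i := hi.trans (hφ.id_le i)
      simp only [Function.comp_apply]
      rw [symm_iterate_iterate f (by omega : k ≤ φ i)]
      exact trap_iter_le hU (by omega) hm
    have hev := hlim.eventually (Metric.ball_mem_nhds b hδ₂)
    obtain ⟨i, hi1, hi2⟩ := (hev.and (eventually_ge_atTop 1)).exists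
    have h1 : 1 ≤ φ i := hi2.trans (hφ.id_le i)
    refine ⟨φ i - 1, b, hb, ?_⟩
    rw [show φ i - 1 + 1 = φ i by omega]
    exact hi1
  obtain ⟨N₀, b, hbA, hbd⟩ := hatt
  obtain ⟨a', ha's, ha'u⟩ := hbr₂ _ _ hbd
  have ha'A : a' ∈ Att f U := att_of_asymp hU hbA (asymp_of_wl_symm hk ha'u)
  set ω' : W := ψ (f^[N₀ + 1] w₀) a' with hω'
  have hω'S : s.S (f^[N₀ + 1] w₀) ω' = ω' := hk.flat.mem _ _ ha's
  set ω : W := iterD s.Di f.symm (N₀ + 1) (f^[N₀ + 1] w₀) ω' with hω
  have hωω' : iterD s.D f (N₀ + 1) w₀ ω = ω' := by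
    have h1 := congrArg (fun L => L ω') (s.iter_inv2 N₀ (f^[N₀ + 1] w₀))
    simp only [ContinuousLinearMap.comp_apply, symm_iter_iter] at h1
    rw [hω, h1]
    have h2 := congrArg (fun L => L ω') (s.PS (f^[N₀ + 1] w₀))
    simp only [ContinuousLinearMap.comp_apply, hω'S] at h2
    exact h2
  -- the linear holonomy is bounded
  have hPb : ∃ B : ℝ, 0 < B ∧ ∀ t, ‖P w₀ (γ t) ω‖ ≤ B := by
    obtain ⟨B, hB⟩ := ((isClosed_wl f.symm ε).isCompact).exists_bound_of_continuousOn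
      hk.lin.P_cont
    refine ⟨max B 0 * ‖ω‖ + 1, by positivity, fun t => ?_⟩
    have h1 : ‖P w₀ (γ t)‖ ≤ B := hB (w₀, γ t) (hγw t)
    have h2 := (P w₀ (γ t)).le_of_opNorm_le (h1.trans (le_max_left B 0)) ω
    linarith
  obtain ⟨B, hB, hPB⟩ := hPb
  obtain ⟨Ch, lh, hCh, hlh, hlh1, hhyp⟩ := hk.hyp
  obtain ⟨rs, hrs, hsurj⟩ := hk.surj ε₃ hε₃
  have hNex : ∃ N : ℕ, N₀ + 1 ≤ N ∧ Ch * lh ^ N * B ≤ rs := by
    have hlim : Tendsto (fun n : ℕ => Ch * lh ^ n * B) atTop (𝓝 (Ch * 0 * B)) :=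
      ((tendsto_pow_atTop_nhds_zero_of_lt_one hlh.le hlh1).const_mul Ch).mul_const _
    rw [mul_zero, zero_mul] at hlim
    obtain ⟨N, hN1, hN2⟩ := ((hlim.eventually (gt_mem_nhds hrs)).and
      (eventually_ge_atTop (N₀ + 1))).exists
    exact ⟨N, hN2, hN1.le⟩
  obtain ⟨N, hN₀, hN⟩ := hNex
  set w : ℝ → W := fun t => iterD s.D f N (γ t) (P w₀ (γ t) ω) with hw
  have hSP : ∀ t, s.S (γ t) (P w₀ (γ t) ω) = P w₀ (γ t) ω := fun t => by
    have := congrArg (fun L => L ω) (hk.lin.S_P w₀ (γ t) (hγw t))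
    simpa using this
  have hwS : ∀ t, s.S (f^[N] (γ t)) (w t) = w t := fun t => by
    have := congrArg (fun L => L (P w₀ (γ t) ω)) (s.iterDS N (γ t))
    simp only [ContinuousLinearMap.comp_apply, hSP t] at this
    exact this.symm
  have hwn : ∀ t, ‖w t‖ ≤ rs := fun t => by
    have h1 := (hhyp N (γ t) (P w₀ (γ t) ω)).1
    rw [hSP t] at h1
    refine h1.trans (le_trans ?_ hN)
    gcongr
    exact hPB t
  have hwc : Continuous w := by
    have h1 : Continuous fun t => P w₀ (γ t) := by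
      have := hk.lin.P_cont.comp_continuous (f := fun t : ℝ => (w₀, γ t))
        (continuous_const.prodMk hγc) (fun t => hγw t)
      exact this
    have h2 : Continuous fun t => iterD s.D f N (γ t) :=
      (iterD_cont s.hD.cont f.continuous N).comp hγc
    exact h2.clm_apply (h1.clm_apply continuous_const)
  have haex : ∀ t, ∃ y ∈ Wl f ε₃ (f^[N] (γ t)), ψ (f^[N] (γ t)) y = w t := fun t =>
    hsurj _ _ (hwS t) (hwn t)
  choose a ha haψ using haex
  have haε : ∀ t, a t ∈ Wl f ε (f^[N] (γ t)) := fun t => wl_mono (ha t) (by linarith)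
  have hac : Continuous a :=
    cont_lift (x := fun t => f^[N] (γ t)) (w := w) hk.flat.cont hk.flat.inj
      ((f.continuous.iterate N).comp hγc) hwc haε haψ
  -- the start
  have ha0 : a 0 ∈ Att f U := by
    obtain ⟨m, hm⟩ := Nat.exists_eq_add_of_le' hN₀
    have h1 : f^[m] (f^[N₀ + 1] w₀) = f^[N] w₀ := by
      rw [← iterate_add_apply, ← hm]
    have h2 : ψ (f^[N] w₀) (f^[m] a') = iterD s.D f m (f^[N₀ + 1] w₀) ω' := by
      rw [← h1]
      exact psi_iter hk ha's m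
    have h3 : w 0 = ψ (f^[N] w₀) (f^[m] a') := by
      simp only [hw, hγ0, hk.lin.P_self]
      have h4 := congrArg (fun L => L ω) (s.iterDS N w₀)
      simp only [ContinuousLinearMap.comp_apply] at h4
      rw [h4]
      have h5 : iterD s.D f N w₀ ω = ψ (f^[N] w₀) (f^[m] a') := by
        rw [h2, hm, iterD_add, ContinuousLinearMap.comp_apply, hωω']
      rw [h5]
      refine hk.flat.mem _ _ ?_
      rw [← h1]
      exact wl_iter ha's m
    have h6 : a 0 = f^[m] a' := by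
      refine hk.flat.inj (f^[N] w₀) _ ?_ _ ?_ ?_
      · have := haε 0
        rwa [hγ0] at this
      · rw [← h1]
        exact wl_iter ha's m
      · have := haψ 0
        rw [hγ0] at this
        rw [this, h3]
    rw [h6]
    exact (mem_att_iter hU).2 ha'A
  -- propagation
  have hall : Icc 0 T ⊆ {t | a t ∈ Att f U} := by
    refine IsClosed.Icc_subset_of_forall_mem_nhdsWithin ?_ ha0 ?_
    · exact (((isClosed_att hU).preimage hac)).inter isClosed_Icc
    · rintro t ⟨hta, ht⟩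
      have hta' : a t ∈ Att f U := hta
      refine mem_nhdsWithin_of_mem_nhds ?_
      have hxB : f^[N] (γ t) ∈ Bas f U := (mem_bas_iter hU).2 (hγB t ht)
      have hxA : f^[N] (γ t) ∉ Att f U := fun h => hγA t ((mem_att_iter hU).1 h)
      obtain ⟨ρ, hρ, hρε, hRR⟩ := hvan U hU _ hxB hxA
      have hev := eventually_wl hk hγc (hγγ t) N (lt_min hρ hε)
      filter_upwards [hev] with t' ht'
      have hy := ht' N le_rfl
      have hyρ : f^[N] (γ t') ∈ Wl f.symm ρ (f^[N] (γ t)) := wl_mono hy (min_le_left _ _)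
      have hyε₂ : f^[N] (γ t') ∈ Wl f.symm ε₂ (f^[N] (γ t)) := wl_mono hyρ hρε
      have haε₂ : a t ∈ Wl f ε₂ (f^[N] (γ t)) := wl_mono (ha t) h32
      obtain ⟨z', hz'1, hz'2⟩ := hh.exist _ _ hyε₂ _ haε₂
      have hz'A : z' ∈ Att f U := att_of_asymp hU hta'
        (asymp_of_wl_symm hk (wl_mono hz'2 (by linarith)))
      have haff := hh.affine _ _ hyε₂ (fun z hz z' h1 h2 => hRR _ hyρ z hz z' h1 h2) _ (ha t) z'
        (wl_mono hz'1 (by linarith)) (wl_mono hz'2 (by linarith))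
      have hPw : P (f^[N] (γ t)) (f^[N] (γ t')) (w t) = w t' := by
        have h1 := congrArg (fun L => L (P w₀ (γ t) ω))
          (P_iter hk (x := γ t) (y := γ t') (n := N) (fun k hk' =>
            wl_mono (ht' k hk') (min_le_right _ _)))
        simp only [ContinuousLinearMap.comp_apply] at h1
        have h2 := congrArg (fun L => L ω)
          (hk.lin.P_comp w₀ (γ t) (hγw t) (γ t') (hγw t') (hγγ t t'))
        simp only [ContinuousLinearMap.comp_apply] at h2
        rw [h2] at h1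
        exact h1
      rw [haψ t, hPw] at haff
      have heq : z' = a t' := hk.flat.inj (f^[N] (γ t')) _ (wl_mono hz'1 (by linarith)) _
        (haε t') (by rw [haff, haψ t'])
      change a t' ∈ Att f U
      rw [← heq]
      exact hz'A
  have hT : a T ∈ Att f U := hall ⟨hT0, le_rfl⟩
  have hxT : f^[N] (γ T) ∈ Bas f U := bas_of_asymp hU (att_subset_bas f U hT)
    (asymp_of_wl hk (wl_symm (haε T)))
  exact hTbad ((mem_bas_iter hU).1 hxT)

end Pool.Agent.Lib.MP610fe3.Cf
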