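import Pool.Agent.Lib.MP_610fe3_an.Cf.Spec2
import Pool.Agent.Lib.MP_610fe3_an.Cf.Final
import Pool.Agent.Lib.MP_610fe3_an.Cf.Basic

/-!
# Module FINAL2: chain transitivity from vanishing of the cross ratio like invariant
-/

open Set Filter Function MeasureTheory
open scoped Topology

namespace Pool.Agent.Lib.MP610fe3.Cf

universe u v

open H1

/-- Module FINAL2. -/
theorem specFinal2 : SpecFinal2.{u, v} := by
  intro M W _ _ _ _ _ _ E f s c ε C l ψ Q q P p ε₁ ε₂ ε₃ C' hk hu hε₁ hh hvan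
  by_contra hcon
  obtain ⟨U, hU, hUne, hUuniv⟩ := exists_trap hcon
  have hε₃ := hh.pos
  have h32 := hh.le32
  have h21 := hh.le21
  have hε : 0 < ε := hk.grow.ε_pos
  -- a boundary point of the basin
  have hz₀ : ∃ z₀, z₀ ∈ closure (Bas f U) ∧ z₀ ∉ Bas f U := by
    by_contra hno
    push Not at hno
    have hcl : IsClosed (Bas f U) := by
      rw [← closure_subset_iff_isClosed]
      exact fun z hz => hno z hz
    rcases isClopen_iff.1 ⟨hcl, isOpen_bas hU⟩ with h | h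
    · obtain ⟨y, hy⟩ := hUne
      have : y ∈ Bas f U := ⟨0, hy⟩
      rw [h] at this
      exact this
    · exact bas_ne_univ hU hUuniv h
  obtain ⟨z₀, hz₀c, hz₀⟩ := hz₀
  -- the coordinates of the unstable sets
  obtain ⟨K, hK1, hK⟩ := s.exists_bdd
  have hK0 : 0 < K := by linarith
  have hUcont : Continuous s.U := s.contU hk.hyp
  have hχcont : ContinuousOn (fun p : M × M => s.U p.1 (E.e p.2 - E.e p.1))
      {p | p.2 ∈ Wl f.symm ε p.1} := by
    refine Continuous.continuousOn ?_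
    exact (hUcont.comp continuous_fst).clm_apply
      ((E.isom.continuous.comp continuous_snd).sub (E.isom.continuous.comp continuous_fst))
  have hχinj : ∀ x, ∀ z ∈ Wl f.symm ε x, ∀ z' ∈ Wl f.symm ε x,
      s.U x (E.e z - E.e x) = s.U x (E.e z' - E.e x) → z = z' := by
    intro x z hz z' hz' h
    have h1 := hu.lower x z hz z' hz'
    have h2 : s.U x (E.e z - E.e z') = 0 := by
      have h3 : E.e z - E.e z' = (E.e z - E.e x) - (E.e z' - E.e x) := by abel
      rw [h3, map_sub, h, sub_self]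
    simp only [Split.swap_S] at h1
    rw [h2, norm_zero, mul_zero] at h1
    exact dist_le_zero.1 h1
  -- scales
  set ρ₁ : ℝ := ε / 2 with hρ₁def
  have hρ₁ : 0 < ρ₁ := by positivity
  obtain ⟨ru, hru, hsurju⟩ := hu.surj ρ₁ hρ₁
  set r : ℝ := min ρ₁ (ru / K) with hrdef
  have hr : 0 < r := lt_min hρ₁ (by positivity)
  have hr1 : r ≤ ρ₁ := min_le_left _ _
  have hr2 : K * r ≤ ru := by
    have : r ≤ ru / K := min_le_right _ _
    rwa [le_div_iff₀' hK0] at this
  obtain ⟨δ₁, hδ₁, hbr₁⟩ := hk.br.exist r hr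
  obtain ⟨x₁, hx₁, hd₁⟩ := Metric.mem_closure_iff.1 hz₀c δ₁ hδ₁
  rw [dist_comm] at hd₁
  obtain ⟨w₀, hw₀s, hw₀u⟩ := hbr₁ x₁ z₀ hd₁
  have hw₀B : w₀ ∈ Bas f U := bas_of_asymp hU hx₁ (asymp_of_wl hk (wl_mono hw₀s (by linarith)))
  -- the path
  set v₀ : W := s.U z₀ (E.e w₀ - E.e z₀) with hv₀
  have hw₀uε : w₀ ∈ Wl f.symm ε z₀ := wl_mono hw₀u (by linarith)
  have hz₀ε : z₀ ∈ Wl f.symm ε z₀ := wl_self hε.le z₀
  have hv₀U : s.swap.S z₀ v₀ = v₀ := s.UU_apply z₀ _
  have hv₀n : ‖v₀‖ ≤ ru := by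
    have h1 : ‖v₀‖ ≤ K * dist w₀ z₀ := by
      rw [E.dist_eq]
      exact (s.U z₀).le_of_opNorm_le (hK z₀).2 _
    have h2 : dist w₀ z₀ ≤ r := wl_dist hw₀u
    exact h1.trans ((mul_le_mul_of_nonneg_left h2 hK0.le).trans hr2)
  set τ : ℝ → ℝ := fun t => max 0 (min 1 t) with hτ
  have hτc : Continuous τ := continuous_const.max (continuous_const.min continuous_id)
  have hτ0 : ∀ t, 0 ≤ τ t := fun t => le_max_left _ _
  have hτ1 : ∀ t, τ t ≤ 1 := fun t => max_le zero_le_one (min_le_left _ _)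
  have hγex : ∀ t : ℝ, ∃ y ∈ Wl f.symm ρ₁ z₀,
      s.U z₀ (E.e y - E.e z₀) = (1 - τ t) • v₀ := by
    intro t
    refine hsurju z₀ ((1 - τ t) • v₀) (by rw [map_smul, hv₀U]) ?_
    rw [norm_smul, Real.norm_of_nonneg (by linarith [hτ1 t])]
    have := hτ0 t
    have := norm_nonneg v₀
    nlinarith
  choose γ hγu hγψ using hγex
  have hγuε : ∀ t, γ t ∈ Wl f.symm ε z₀ := fun t => wl_mono (hγu t) (by linarith)
  have hγc : Continuous γ := by
    refine cont_lift (φ := fun x y => s.U x (E.e y - E.e x)) (x := fun _ => z₀)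
      (w := fun t => (1 - τ t) • v₀) hχcont hχinj continuous_const ?_ hγuε hγψ
    exact (continuous_const.sub hτc).smul continuous_const
  have hγ0 : γ 0 = w₀ := by
    refine hχinj z₀ _ (hγuε 0) _ hw₀uε ?_
    rw [hγψ 0]
    simp [hτ, hv₀]
  have hγ1 : γ 1 = z₀ := by
    refine hχinj z₀ _ (hγuε 1) _ hz₀ε ?_
    rw [hγψ 1]
    simp [hτ]
  have hγA : ∀ t, γ t ∉ Att f U := by
    intro t ht
    exact hz₀ (att_subset_bas f U (att_of_asymp hU ht
      (asymp_of_wl_symm hk (wl_symm (hγuε t)))))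
  have hγγ : ∀ t t', γ t' ∈ Wl f.symm ε (γ t) := fun t t' =>
    wl_mono (wl_trans (hγu t') (wl_symm (hγu t))) (by linarith)
  have hγw : ∀ t, γ t ∈ Wl f.symm ε w₀ := fun t => by
    rw [← hγ0]; exact hγγ 0 t
  -- first exit
  have hbad : IsCompact (Icc (0 : ℝ) 1 ∩ γ ⁻¹' (Bas f U)ᶜ) :=
    isCompact_Icc.inter_right ((isOpen_bas hU).isClosed_compl.preimage hγc)
  have hbadne : (Icc (0 : ℝ) 1 ∩ γ ⁻¹' (Bas f U)ᶜ).Nonempty :=
    ⟨1, ⟨zero_le_one, le_rfl⟩, by simpa [hγ1] using hz₀⟩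
  obtain ⟨T, ⟨⟨hT0, hT1⟩, hTbad⟩, hTmin⟩ := hbad.exists_isLeast hbadne
  have hγB : ∀ t ∈ Ico 0 T, γ t ∈ Bas f U := by
    intro t ht
    by_contra hno
    have := hTmin ⟨⟨ht.1, by linarith [ht.2]⟩, hno⟩
    linarith [ht.2]
  -- the stable set of `w₀` meets the attractor
  obtain ⟨δ₂, hδ₂, hbr₂⟩ := hk.br.exist ε hε
  have hatt : ∃ (N₀ : ℕ) (b : M), b ∈ Att f U ∧ dist (f^[N₀ + 1] w₀) b < δ₂ := by
    obtain ⟨b, -, φ, hφ, hlim⟩ := (isCompact_univ (X := M)).tendsto_subseq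
      (x := fun n => f^[n] w₀) (fun _ => mem_univ _)
    have hb : b ∈ Att f U := by
      rw [att_eq hU]
      intro k
      obtain ⟨m, hm⟩ := hw₀B
      refine mem_closure_of_tendsto (((f.symm.continuous.iterate k).tendsto b).comp hlim) ?_
      filter_upwards [eventually_ge_atTop (k + m)] with i hi
      have h1 : k + m ≤ φ i := hi.trans (hφ.id_le i)
      simp only [Function.comp_apply]
      rw [symm_iterate_iterate_of_le f (by omega : k ≤ φ i)]
      exact trap_iter_le hU (by omega) hm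
    have hev := hlim.eventually (Metric.ball_mem_nhds b hδ₂)
    obtain ⟨i, hi1, hi2⟩ := (hev.and (eventually_ge_atTop 1)).exists
    have h1 : 1 ≤ φ i := hi2.trans (hφ.id_le i)
    refine ⟨φ i - 1, b, hb, ?_⟩
    rw [show φ i - 1 + 1 = φ i by omega]
    exact hi1
  obtain ⟨N₀, b, hbA, hbd⟩ := hatt
  obtain ⟨a', ha's, ha'u⟩ := hbr₂ _ _ hbd
  have ha'A : a' ∈ Att f U := att_of_asymp hU hbA (asymp_of_wl_symm hk ha'u)
  set ω' : W := ψ (f^[N₀ + 1] w₀) a' with hω'
  have hω'S : s.S (f^[N₀ + 1] w₀) ω' = ω' := hk.flat.mem _ _ ha's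
  set ω : W := iterD s.Di f.symm (N₀ + 1) (f^[N₀ + 1] w₀) ω' with hω
  have hωω' : iterD s.D f (N₀ + 1) w₀ ω = ω' := by
    have h1 := congrArg (fun L => L ω') (s.iter_inv2 N₀ (f^[N₀ + 1] w₀))
    simp only [ContinuousLinearMap.comp_apply, symm_iter_iter] at h1
    rw [hω, h1]
    have h2 := congrArg (fun L => L ω') (s.PS (f^[N₀ + 1] w₀))
    simp only [ContinuousLinearMap.comp_apply, hω'S] at h2
    exact h2
  -- the linear holonomy is bounded
  have hPb : ∃ B : ℝ, 0 < B ∧ ∀ t, ‖P w₀ (γ t) ω‖ ≤ B := by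
    obtain ⟨B, hB⟩ := ((isClosed_wl f.symm ε).isCompact).exists_bound_of_continuousOn
      hk.lin.P_cont
    refine ⟨max B 0 * ‖ω‖ + 1, by positivity, fun t => ?_⟩
    have h1 : ‖P w₀ (γ t)‖ ≤ B := hB (w₀, γ t) (hγw t)
    have h2 := (P w₀ (γ t)).le_of_opNorm_le (h1.trans (le_max_left B 0)) ω
    linarith
  obtain ⟨B, hB, hPB⟩ := hPb
  obtain ⟨Ch, lh, hCh, hlh, hlh1, hhyp⟩ := hk.hyp
  obtain ⟨rs, hrs, hsurj⟩ := hk.surj ε₃ hε₃
  have hNex : ∃ N : ℕ, N₀ + 1 ≤ N ∧ Ch * lh ^ N * B ≤ rs := by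
    have hlim : Tendsto (fun n : ℕ => Ch * lh ^ n * B) atTop (𝓝 (Ch * 0 * B)) :=
      ((tendsto_pow_atTop_nhds_zero_of_lt_one hlh.le hlh1).const_mul Ch).mul_const _
    rw [mul_zero, zero_mul] at hlim
    obtain ⟨N, hN1, hN2⟩ := ((hlim.eventually (gt_mem_nhds hrs)).and
      (eventually_ge_atTop (N₀ + 1))).exists
    exact ⟨N, hN2, hN1.le⟩
  obtain ⟨N, hN₀, hN⟩ := hNex
  set w : ℝ → W := fun t => iterD s.D f N (γ t) (P w₀ (γ t) ω) with hw
  have hSP : ∀ t, s.S (γ t) (P w₀ (γ t) ω) = P w₀ (γ t) ω := fun t => by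
    have := congrArg (fun L => L ω) (hk.lin.S_P w₀ (γ t) (hγw t))
    simpa using this
  have hwS : ∀ t, s.S (f^[N] (γ t)) (w t) = w t := fun t => by
    have := congrArg (fun L => L (P w₀ (γ t) ω)) (s.iterDS N (γ t))
    simp only [ContinuousLinearMap.comp_apply, hSP t] at this
    exact this.symm
  have hwn : ∀ t, ‖w t‖ ≤ rs := fun t => by
    have h1 := (hhyp N (γ t) (P w₀ (γ t) ω)).1
    rw [hSP t] at h1
    refine h1.trans (le_trans ?_ hN)
    gcongr
    exact hPB t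
  have hwc : Continuous w := by
    have h1 : Continuous fun t => P w₀ (γ t) := by
      have := hk.lin.P_cont.comp_continuous (f := fun t : ℝ => (w₀, γ t))
        (continuous_const.prodMk hγc) (fun t => hγw t)
      exact this
    have h2 : Continuous fun t => iterD s.D f N (γ t) :=
      (iterD_cont s.hD.cont f.continuous N).comp hγc
    exact h2.clm_apply (h1.clm_apply continuous_const)
  have haex : ∀ t, ∃ y ∈ Wl f ε₃ (f^[N] (γ t)), ψ (f^[N] (γ t)) y = w t := fun t =>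
    hsurj _ _ (hwS t) (hwn t)
  choose a ha haψ using haex
  have haε : ∀ t, a t ∈ Wl f ε (f^[N] (γ t)) := fun t => wl_mono (ha t) (by linarith)
  have hac : Continuous a :=
    cont_lift (x := fun t => f^[N] (γ t)) (w := w) hk.flat.cont hk.flat.inj
      ((f.continuous.iterate N).comp hγc) hwc haε haψ
  -- the start
  have ha0 : a 0 ∈ Att f U := by
    obtain ⟨m, hm⟩ := Nat.exists_eq_add_of_le' hN₀
    have h1 : f^[m] (f^[N₀ + 1] w₀) = f^[N] w₀ := by
      rw [← iterate_add_apply, ← hm]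
    have h2 : ψ (f^[N] w₀) (f^[m] a') = iterD s.D f m (f^[N₀ + 1] w₀) ω' := by
      rw [← h1]
      exact psi_iter hk ha's m
    have h3 : w 0 = ψ (f^[N] w₀) (f^[m] a') := by
      simp only [hw, hγ0, hk.lin.P_self]
      have h4 := congrArg (fun L => L ω) (s.iterDS N w₀)
      simp only [ContinuousLinearMap.comp_apply] at h4
      rw [h4]
      have h5 : iterD s.D f N w₀ ω = ψ (f^[N] w₀) (f^[m] a') := by
        rw [h2, hm, iterD_add, ContinuousLinearMap.comp_apply, hωω']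
      rw [h5]
      refine hk.flat.mem _ _ ?_
      rw [← h1]
      exact wl_iter ha's m
    have h6 : a 0 = f^[m] a' := by
      refine hk.flat.inj (f^[N] w₀) _ ?_ _ ?_ ?_
      · have := haε 0
        rwa [hγ0] at this
      · rw [← h1]
        exact wl_iter ha's m
      · have := haψ 0
        rw [hγ0] at this
        rw [this, h3]
    rw [h6]
    exact (mem_att_iter hU).2 ha'A
  -- propagation
  have hall : Icc 0 T ⊆ {t | a t ∈ Att f U} := by
    refine IsClosed.Icc_subset_of_forall_mem_nhdsWithin ?_ ha0 ?_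
    · exact (((isClosed_att hU).preimage hac)).inter isClosed_Icc
    · rintro t ⟨hta, ht⟩
      have hta' : a t ∈ Att f U := hta
      refine mem_nhdsWithin_of_mem_nhds ?_
      have hxB : f^[N] (γ t) ∈ Bas f U := (mem_bas_iter hU).2 (hγB t ht)
      have hxA : f^[N] (γ t) ∉ Att f U := fun h => hγA t ((mem_att_iter hU).1 h)
      obtain ⟨ρ, hρ, hρε, hRR⟩ := hvan U hU _ hxB hxA
      have hev := eventually_wl hk hγc (hγγ t) N (lt_min hρ hε)
      filter_upwards [hev] with t' ht'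
      have hy := ht' N le_rfl
      have hyρ : f^[N] (γ t') ∈ Wl f.symm ρ (f^[N] (γ t)) := wl_mono hy (min_le_left _ _)
      have hyε₂ : f^[N] (γ t') ∈ Wl f.symm ε₂ (f^[N] (γ t)) := wl_mono hyρ hρε
      have haε₂ : a t ∈ Wl f ε₂ (f^[N] (γ t)) := wl_mono (ha t) h32
      obtain ⟨z', hz'1, hz'2⟩ := hh.exist _ _ hyε₂ _ haε₂
      have hz'A : z' ∈ Att f U := att_of_asymp hU hta'
        (asymp_of_wl_symm hk (wl_mono hz'2 (by linarith)))
      have haff := hh.affine _ _ hyε₂ (fun z hz z' h1 h2 => hRR _ hyρ z hz z' h1 h2) _ (ha t) z'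
        (wl_mono hz'1 (by linarith)) (wl_mono hz'2 (by linarith))
      have hPw : P (f^[N] (γ t)) (f^[N] (γ t')) (w t) = w t' := by
        have h1 := congrArg (fun L => L (P w₀ (γ t) ω))
          (P_iter hk (x := γ t) (y := γ t') (n := N) (fun k hk' =>
            wl_mono (ht' k hk') (min_le_right _ _)))
        simp only [ContinuousLinearMap.comp_apply] at h1
        have h2 := congrArg (fun L => L ω)
          (hk.lin.P_comp w₀ (γ t) (hγw t) (γ t') (hγw t') (hγγ t t'))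
        simp only [ContinuousLinearMap.comp_apply] at h2
        rw [h2] at h1
        exact h1
      rw [haψ t, hPw] at haff
      have heq : z' = a t' := hk.flat.inj (f^[N] (γ t')) _ (wl_mono hz'1 (by linarith)) _
        (haε t') (by rw [haff, haψ t'])
      change a t' ∈ Att f U
      rw [← heq]
      exact hz'A
  have hT : a T ∈ Att f U := hall ⟨hT0, le_rfl⟩
  have hxT : f^[N] (γ T) ∈ Bas f U := bas_of_asymp hU (att_subset_bas f U hT)
    (asymp_of_wl hk (wl_symm (haε T)))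
  exact hTbad ((mem_bas_iter hU).1 hxT)

end Pool.Agent.Lib.MP610fe3.Cf
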