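import Mathlib

/-!
# Module LEN: the averaging argument in a finite dimensional normed space
-/

open Set Filter Function MeasureTheory Metric
open scoped Topology ENNReal

namespace Pool.Agent.Lib.MP610fe3.Cf

section

variable {V ι : Type*} [NormedAddCommGroup V] [NormedSpace ℝ V]

/-- A segment is covered by finitely many cells, so the variation is at most the sum of the
variations of the cells. -/
theorem seg_bound {r : ℝ} {G : V → ℝ} (hG : ContinuousOn G (closedBall 0 r)) {A : ℝ}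
    {Y : Finset ι} {p : ι → V} {α R : ι → ℝ}
    (hcov : ∀ w, ‖w‖ ≤ r → ∃ y ∈ Y, ‖w - p y‖ ≤ A * R y ∧ |G w - G (p y)| ≤ α y)
    {t v : V} (ht : ‖t‖ ≤ r / 2) (hv : ‖v‖ ≤ r / 2) (Tube : ι → Set V)
    (hTube : ∀ y ∈ Y, ∀ s ∈ Icc (0 : ℝ) 1, ‖t + s • v - p y‖ ≤ A * R y → t ∈ Tube y) :
    ENNReal.ofReal |G (t + v) - G t|
      ≤ ∑ y ∈ Y, (Tube y).indicator (fun _ => ENNReal.ofReal (2 * α y)) t := by
  classical
  have hc : ContinuousOn (fun s : ℝ => G (t + s • v)) (uIcc 0 1) := by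
    refine hG.comp (by fun_prop) ?_
    intro s hs
    rw [uIcc_of_le zero_le_one] at hs
    rw [mem_closedBall, dist_zero_right]
    calc ‖t + s • v‖ ≤ ‖t‖ + ‖s • v‖ := norm_add_le _ _
      _ ≤ r / 2 + r / 2 := by
          refine add_le_add ht ?_
          rw [norm_smul, Real.norm_eq_abs, abs_of_nonneg hs.1]
          calc s * ‖v‖ ≤ 1 * ‖v‖ := by
                exact mul_le_mul_of_nonneg_right hs.2 (norm_nonneg _)
            _ ≤ r / 2 := by rw [one_mul]; exact hv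
      _ = r := by ring
  have hi := intermediate_value_uIcc hc
  simp only [zero_smul, add_zero, one_smul] at hi
  set Y' : Finset ι := Y.filter (fun y => t ∈ Tube y) with hY'
  have hsub : uIcc (G t) (G (t + v)) ⊆ ⋃ y ∈ Y', Icc (G (p y) - α y) (G (p y) + α y) := by
    intro g hg
    obtain ⟨s, hs, rfl⟩ := hi hg
    rw [uIcc_of_le zero_le_one] at hs
    have hw : ‖t + s • v‖ ≤ r := by
      calc ‖t + s • v‖ ≤ ‖t‖ + ‖s • v‖ := norm_add_le _ _
        _ ≤ r / 2 + r / 2 := by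
            refine add_le_add ht ?_
            rw [norm_smul, Real.norm_eq_abs, abs_of_nonneg hs.1]
            calc s * ‖v‖ ≤ 1 * ‖v‖ := by
                  exact mul_le_mul_of_nonneg_right hs.2 (norm_nonneg _)
              _ ≤ r / 2 := by rw [one_mul]; exact hv
        _ = r := by ring
    obtain ⟨y, hy, h1, h2⟩ := hcov _ hw
    rw [mem_iUnion₂]
    refine ⟨y, ?_, ?_⟩
    · rw [hY', Finset.mem_filter]
      exact ⟨hy, hTube y hy s hs h1⟩
    · rw [abs_le] at h2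
      exact ⟨by linarith [h2.1], by linarith [h2.2]⟩
  have hm : volume (uIcc (G t) (G (t + v))) = ENNReal.ofReal |G (t + v) - G t| := by
    rw [Real.volume_interval]
  rw [← hm]
  calc volume (uIcc (G t) (G (t + v)))
      ≤ volume (⋃ y ∈ Y', Icc (G (p y) - α y) (G (p y) + α y)) := measure_mono hsub
    _ ≤ ∑ y ∈ Y', volume (Icc (G (p y) - α y) (G (p y) + α y)) := measure_biUnion_finset_le _ _
    _ = ∑ y ∈ Y', ENNReal.ofReal (2 * α y) := by
        refine Finset.sum_congr rfl fun y _ => ?_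
        rw [Real.volume_Icc]
        congr 1
        ring
    _ = ∑ y ∈ Y, (Tube y).indicator (fun _ => ENNReal.ofReal (2 * α y)) t := by
        rw [hY', Finset.sum_filter]
        refine Finset.sum_congr rfl fun y _ => ?_
        rw [indicator_apply]

/-- The tube around a segment is covered by few balls. -/
theorem tube_cover {v q : V} {ρ : ℝ} (hρ : 0 < ρ) {N : ℕ} (hN : 0 < N)
    (hNv : ‖v‖ ≤ N * ρ) {t : V} {s : ℝ} (hs : s ∈ Icc (0 : ℝ) 1) (h : ‖t + s • v - q‖ ≤ ρ) :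
    t ∈ ⋃ i ∈ Finset.range (N + 1), closedBall (q - ((i : ℝ) / N) • v) (2 * ρ) := by
  have hN' : (0 : ℝ) < N := by exact_mod_cast hN
  rw [mem_iUnion₂]
  refine ⟨⌊s * N⌋₊, ?_, ?_⟩
  · rw [Finset.mem_range, Nat.lt_succ_iff]
    have : s * N ≤ N := by
      calc s * N ≤ 1 * N := mul_le_mul_of_nonneg_right hs.2 hN'.le
        _ = N := one_mul _
    exact Nat.floor_le_of_le this
  · rw [mem_closedBall, dist_eq_norm]
    set i : ℕ := ⌊s * N⌋₊ with hi
    have h0 : (0 : ℝ) ≤ s * N := mul_nonneg hs.1 hN'.le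
    have h1 : (i : ℝ) ≤ s * N := Nat.floor_le h0
    have h2 : s * N < i + 1 := Nat.lt_floor_add_one _
    have h3 : |s - (i : ℝ) / N| * ‖v‖ ≤ ρ := by
      have h4 : |s - (i : ℝ) / N| ≤ 1 / N := by
        rw [abs_le]
        constructor
        · have : (i : ℝ) / N ≤ s := by rwa [div_le_iff₀ hN']
          have : 0 ≤ 1 / (N : ℝ) := by positivity
          linarith
        · have : s ≤ (i : ℝ) / N + 1 / N := by
            rw [← add_div, le_div_iff₀ hN']
            exact h2.le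
          linarith
      calc |s - (i : ℝ) / N| * ‖v‖ ≤ 1 / N * (N * ρ) :=
            mul_le_mul h4 hNv (norm_nonneg _) (by positivity)
        _ = ρ := by field_simp
    calc ‖t - (q - ((i : ℝ) / N) • v)‖
        = ‖(t + s • v - q) - (s - (i : ℝ) / N) • v‖ := by
          congr 1
          module
      _ ≤ ‖t + s • v - q‖ + ‖(s - (i : ℝ) / N) • v‖ := norm_sub_le _ _
      _ ≤ ρ + ρ := by
          refine add_le_add h ?_
          rw [norm_smul, Real.norm_eq_abs]
          exact h3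
      _ = 2 * ρ := by ring

end

section

variable {V ι : Type*} [NormedAddCommGroup V] [NormedSpace ℝ V] [FiniteDimensional ℝ V]
  [MeasurableSpace V] [BorelSpace V] (μ : Measure V) [μ.IsAddHaarMeasure]

/-- Disjoint balls in a ball. -/
theorem sum_pow_le {u : ℕ} (hV : Module.finrank ℝ V = u) {r b C₁ : ℝ} (hb : 0 < b)
    (Y : Finset ι) (p : ι → V) (R : ι → ℝ) (hp : ∀ y ∈ Y, ‖p y‖ ≤ r) (hR : ∀ y ∈ Y, 0 < R y)
    (hRC : ∀ y ∈ Y, R y ≤ C₁)
    (hsep : ∀ y ∈ Y, ∀ y' ∈ Y, y ≠ y' → b * R y ≤ ‖p y' - p y‖) :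
    (∑ y ∈ Y, R y ^ u) * ((b / 2) ^ u * μ.real (ball 0 1)) ≤ μ.real (ball 0 (r + b * C₁)) := by
  classical
  have hdis : (Y : Set ι).PairwiseDisjoint (fun y => ball (p y) (b / 2 * R y)) := by
    intro y hy y' hy' hne
    rw [Function.onFun, Set.disjoint_left]
    intro t ht ht'
    rw [mem_ball, dist_eq_norm] at ht ht'
    have h1 := hsep y hy y' hy' hne
    have h2 := hsep y' hy' y hy hne.symm
    have h3 : ‖p y' - p y‖ ≤ ‖t - p y‖ + ‖t - p y'‖ := by
      calc ‖p y' - p y‖ = ‖(t - p y) - (t - p y')‖ := by congr 1; abel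
        _ ≤ _ := norm_sub_le _ _
    rw [norm_sub_rev] at h2
    linarith
  have hsub : (⋃ y ∈ Y, ball (p y) (b / 2 * R y)) ⊆ ball 0 (r + b * C₁) := by
    intro t ht
    rw [mem_iUnion₂] at ht
    obtain ⟨y, hy, ht⟩ := ht
    rw [mem_ball, dist_eq_norm] at ht
    rw [mem_ball, dist_zero_right]
    have h1 := hp y hy
    have h2 := hRC y hy
    have h3 := hR y hy
    have h4 : ‖t‖ ≤ ‖t - p y‖ + ‖p y‖ := by
      calc ‖t‖ = ‖(t - p y) + p y‖ := by congr 1; abel
        _ ≤ _ := norm_add_le _ _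
    have h5 : b * R y ≤ b * C₁ := mul_le_mul_of_nonneg_left h2 hb.le
    have h6 : 0 < b * R y := mul_pos hb h3
    linarith
  have h1 : μ.real (⋃ y ∈ Y, ball (p y) (b / 2 * R y))
      = ∑ y ∈ Y, μ.real (ball (p y) (b / 2 * R y)) := by
    refine measureReal_biUnion_finset hdis (fun y _ => measurableSet_ball) ?_
    intro y _
    exact measure_ball_lt_top.ne
  have h2 : ∑ y ∈ Y, μ.real (ball (p y) (b / 2 * R y))
      = (∑ y ∈ Y, R y ^ u) * ((b / 2) ^ u * μ.real (ball 0 1)) := by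
    rw [Finset.sum_mul]
    refine Finset.sum_congr rfl fun y hy => ?_
    have hpos : 0 < b / 2 * R y := mul_pos (half_pos hb) (hR y hy)
    rw [measureReal_def, measureReal_def, Measure.addHaar_ball_of_pos μ (p y) hpos, hV,
      ENNReal.toReal_mul, ENNReal.toReal_ofReal (by positivity), mul_pow]
    ring
  rw [← h2, ← h1]
  exact measureReal_mono hsub measure_ball_lt_top.ne

/-- The measure of a tube. -/
theorem tube_measure {u : ℕ} (hV : Module.finrank ℝ V = u) (v q : V) {ρ : ℝ} (hρ : 0 < ρ) (N : ℕ) :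
    μ (⋃ i ∈ Finset.range (N + 1), closedBall (q - ((i : ℝ) / N) • v) (2 * ρ))
      ≤ ENNReal.ofReal ((N + 1) * (2 * ρ) ^ u * μ.real (ball 0 1)) := by
  refine (measure_biUnion_finset_le _ _).trans ?_
  have h1 : ∀ i ∈ Finset.range (N + 1), μ (closedBall (q - ((i : ℝ) / N) • v) (2 * ρ))
      = ENNReal.ofReal ((2 * ρ) ^ u * μ.real (ball 0 1)) := by
    intro i _
    rw [Measure.addHaar_closedBall μ _ (by positivity), hV,
      ENNReal.ofReal_mul (by positivity), measureReal_def,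
      ENNReal.ofReal_toReal measure_ball_lt_top.ne]
  rw [Finset.sum_congr rfl h1, Finset.sum_const, Finset.card_range, nsmul_eq_mul,
    ← ENNReal.ofReal_natCast, ← ENNReal.ofReal_mul (by positivity)]
  apply le_of_eq
  congr 1
  push_cast
  ring

/-- The averaged variation. -/
theorem avg_bound {u : ℕ} (hV : Module.finrank ℝ V = u) {r : ℝ} {G : V → ℝ}
    (hG : ContinuousOn G (closedBall 0 r)) {A : ℝ} (hA : 0 < A)
    {Y : Finset ι} {p : ι → V} {α R : ι → ℝ} (hα : ∀ y ∈ Y, 0 ≤ α y) (hR : ∀ y ∈ Y, 0 < R y)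
    (hcov : ∀ w, ‖w‖ ≤ r → ∃ y ∈ Y, ‖w - p y‖ ≤ A * R y ∧ |G w - G (p y)| ≤ α y)
    {v : V} (hv : ‖v‖ ≤ r / 2) {κ τ : ℝ} (hκ : 0 ≤ κ) (hτ : τ ≤ r / 2)
    (hlow : ∀ t, ‖t‖ < τ → κ ≤ |G (t + v) - G t|) :
    κ * μ.real (ball 0 τ) ≤ ∑ y ∈ Y, 2 * α y *
      ((‖v‖ / (A * R y) + 3) * (2 * (A * R y)) ^ u * μ.real (ball 0 1)) := by
  classical
  set N : ι → ℕ := fun y => ⌈‖v‖ / (A * R y)⌉₊ + 1 with hN
  set Tube : ι → Set V := fun y =>
    ⋃ i ∈ Finset.range (N y + 1), closedBall (p y - ((i : ℝ) / N y) • v) (2 * (A * R y))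
    with hTube
  have hmeas : ∀ y, MeasurableSet (Tube y) := fun y =>
    Finset.measurableSet_biUnion _ fun i _ => measurableSet_closedBall
  have hAR : ∀ y ∈ Y, 0 < A * R y := fun y hy => mul_pos hA (hR y hy)
  have hNv : ∀ y ∈ Y, ‖v‖ ≤ N y * (A * R y) := by
    intro y hy
    have h1 : ‖v‖ / (A * R y) ≤ (N y : ℝ) := by
      rw [hN]
      push_cast
      linarith [Nat.le_ceil (‖v‖ / (A * R y))]
    rwa [div_le_iff₀ (hAR y hy)] at h1
  have hN3 : ∀ y ∈ Y, (N y : ℝ) + 1 ≤ ‖v‖ / (A * R y) + 3 := by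
    intro y hy
    have h0 : 0 ≤ ‖v‖ / (A * R y) := div_nonneg (norm_nonneg _) (hAR y hy).le
    rw [hN]
    push_cast
    linarith [Nat.ceil_lt_add_one h0]
  have hbd : ∀ t ∈ ball (0 : V) τ, ENNReal.ofReal κ
      ≤ ∑ y ∈ Y, (Tube y).indicator (fun _ => ENNReal.ofReal (2 * α y)) t := by
    intro t ht
    rw [mem_ball, dist_zero_right] at ht
    refine (ENNReal.ofReal_le_ofReal (hlow t ht)).trans ?_
    refine seg_bound hG hcov (ht.le.trans hτ) hv Tube ?_
    intro y hy s hs h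
    exact tube_cover (hAR y hy) (Nat.succ_pos _) (hNv y hy) hs h
  have h1 : ENNReal.ofReal κ * μ (ball 0 τ)
      ≤ ∑ y ∈ Y, ENNReal.ofReal (2 * α y) * μ (Tube y) := by
    calc ENNReal.ofReal κ * μ (ball 0 τ) = ∫⁻ _ in ball (0 : V) τ, ENNReal.ofReal κ ∂μ := by
          rw [setLIntegral_const]
      _ ≤ ∫⁻ t in ball (0 : V) τ,
            ∑ y ∈ Y, (Tube y).indicator (fun _ => ENNReal.ofReal (2 * α y)) t ∂μ := by
          refine setLIntegral_mono' measurableSet_ball fun t ht => hbd t ht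
      _ ≤ ∫⁻ t, ∑ y ∈ Y, (Tube y).indicator (fun _ => ENNReal.ofReal (2 * α y)) t ∂μ :=
          setLIntegral_le_lintegral _ _
      _ = ∑ y ∈ Y, ∫⁻ t, (Tube y).indicator (fun _ => ENNReal.ofReal (2 * α y)) t ∂μ := by
          rw [lintegral_finsetSum]
          intro y _
          exact measurable_const.indicator (hmeas y)
      _ = _ := by
          refine Finset.sum_congr rfl fun y _ => ?_
          rw [lintegral_indicator_const (hmeas y)]
  have h2 : ∀ y ∈ Y, ENNReal.ofReal (2 * α y) * μ (Tube y) ≤ ENNReal.ofReal (2 * α y *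
      ((‖v‖ / (A * R y) + 3) * (2 * (A * R y)) ^ u * μ.real (ball 0 1))) := by
    intro y hy
    rw [ENNReal.ofReal_mul (p := 2 * α y) (by linarith [hα y hy])]
    have h6 : μ (Tube y) ≤ ENNReal.ofReal
        ((‖v‖ / (A * R y) + 3) * (2 * (A * R y)) ^ u * μ.real (ball 0 1)) := by
      refine (tube_measure μ hV v (p y) (hAR y hy) (N y)).trans ?_
      refine ENNReal.ofReal_le_ofReal ?_
      have := hN3 y hy
      have h5 := (hAR y hy).le
      gcongr
    gcongr
  have h3 : ENNReal.ofReal (κ * μ.real (ball 0 τ)) ≤ ENNReal.ofReal (∑ y ∈ Y, 2 * α y *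
      ((‖v‖ / (A * R y) + 3) * (2 * (A * R y)) ^ u * μ.real (ball 0 1))) := by
    rw [ENNReal.ofReal_sum_of_nonneg]
    · rw [ENNReal.ofReal_mul hκ, measureReal_def, ENNReal.ofReal_toReal measure_ball_lt_top.ne]
      exact h1.trans (Finset.sum_le_sum h2)
    · intro y hy
      have h4 := hα y hy
      have h5 := (hAR y hy).le
      positivity
  rwa [ENNReal.ofReal_le_ofReal_iff] at h3
  refine Finset.sum_nonneg fun y hy => ?_
  have h4 := hα y hy
  have h5 := (hAR y hy).le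
  positivity

end

/-- The averaging argument: `G` is locally constant. -/
theorem len_core {V ι : Type*} [NormedAddCommGroup V] [NormedSpace ℝ V] [FiniteDimensional ℝ V]
    {u : ℕ} (hu : 1 ≤ u) (hV : Module.finrank ℝ V = u) {r : ℝ} (hr : 0 < r) (G : V → ℝ)
    (hG : ContinuousOn G (closedBall 0 r)) {A b C₁ : ℝ} (hA : 0 < A) (hb : 0 < b) (hC : 0 ≤ C₁)
    (key : ∀ η : ℝ, 0 < η → ∃ (Y : Finset ι) (p : ι → V) (α R : ι → ℝ),
      (∀ y ∈ Y, ‖p y‖ ≤ r ∧ 0 ≤ α y ∧ 0 < R y ∧ R y ≤ C₁) ∧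
      (∀ y ∈ Y, ∀ y' ∈ Y, y ≠ y' → b * R y ≤ ‖p y' - p y‖) ∧
      (∀ w, ‖w‖ ≤ r → ∃ y ∈ Y, ‖w - p y‖ ≤ A * R y ∧ |G w - G (p y)| ≤ α y) ∧
      ∑ y ∈ Y, α y ^ u ≤ η) :
    ∀ v : V, ‖v‖ ≤ r / 2 → G v = G 0 := by
  classical
  intro v hv
  by_contra hne
  let _ : MeasurableSpace V := borel V
  have _ : BorelSpace V := ⟨rfl⟩
  let μ : Measure V := Measure.addHaar
  set κ : ℝ := |G v - G 0| / 2 with hκ
  have hκ0 : 0 < κ := by
    rw [hκ]
    have : 0 < |G v - G 0| := abs_pos.2 (sub_ne_zero.2 hne)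
    linarith
  -- continuity at `0` and at `v`
  have hcont : ∀ w : V, ‖w‖ ≤ r / 2 → ∃ τ : ℝ, 0 < τ ∧ ∀ t, ‖t‖ < τ → |G (t + w) - G w| ≤ κ / 2 := by
    intro w hw
    have hnh : closedBall (0 : V) r ∈ 𝓝 w := by
      refine mem_of_superset (ball_mem_nhds w (half_pos hr)) ?_
      intro t ht
      rw [mem_ball, dist_eq_norm] at ht
      rw [mem_closedBall, dist_zero_right]
      calc ‖t‖ = ‖(t - w) + w‖ := by congr 1; abel
        _ ≤ ‖t - w‖ + ‖w‖ := norm_add_le _ _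
        _ ≤ r := by linarith
    have hc : ContinuousAt G w := hG.continuousAt hnh
    rw [Metric.continuousAt_iff] at hc
    obtain ⟨τ, hτ, h⟩ := hc (κ / 2) (half_pos hκ0)
    refine ⟨τ, hτ, fun t ht => ?_⟩
    have h1 := @h (t + w) (by rw [dist_eq_norm]; simpa using ht)
    rw [Real.dist_eq] at h1
    exact h1.le
  obtain ⟨τ₁, hτ₁, h₁⟩ := hcont 0 (by rw [norm_zero]; exact (half_pos hr).le)
  obtain ⟨τ₂, hτ₂, h₂⟩ := hcont v hv
  set τ : ℝ := min (min τ₁ τ₂) (r / 2) with hτ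
  have hτ0 : 0 < τ := lt_min (lt_min hτ₁ hτ₂) (half_pos hr)
  have hlow : ∀ t, ‖t‖ < τ → κ ≤ |G (t + v) - G t| := by
    intro t ht
    have a1 := h₁ t (ht.trans_le ((min_le_left _ _).trans (min_le_left _ _)))
    have a2 := h₂ t (ht.trans_le ((min_le_left _ _).trans (min_le_right _ _)))
    rw [add_zero] at a1
    have a3 : |G v - G 0| = 2 * κ := by rw [hκ]; ring
    have a4 : |G v - G 0| ≤ |G (t + v) - G t| + |G (t + v) - G v| + |G t - G 0| := by
      calc |G v - G 0| = |(G (t + v) - G t) - (G (t + v) - G v) + (G t - G 0)| := by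
            congr 1; ring
        _ ≤ |(G (t + v) - G t) - (G (t + v) - G v)| + |G t - G 0| := abs_add_le _ _
        _ ≤ _ := by
            gcongr
            exact abs_sub _ _
    linarith
  set ω : ℝ := μ.real (ball (0 : V) 1) with hω
  have hω0 : 0 < ω := by
    rw [hω, measureReal_def]
    exact ENNReal.toReal_pos (measure_ball_pos μ 0 one_pos).ne' measure_ball_lt_top.ne
  set L : ℝ := κ * μ.real (ball (0 : V) τ) with hL
  have hL0 : 0 < L := by
    refine mul_pos hκ0 ?_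
    rw [measureReal_def]
    exact ENNReal.toReal_pos (measure_ball_pos μ 0 hτ0).ne' measure_ball_lt_top.ne
  set C₄ : ℝ := 2 * ((2 * A) ^ u * (r / A + 3 * C₁) * ω) with hC₄
  have hC₄0 : 0 < C₄ := by positivity
  set C₅ : ℝ := μ.real (ball (0 : V) (r + b * C₁)) / ((b / 2) ^ u * ω) with hC₅
  have hC₅0 : 0 ≤ C₅ := by positivity
  -- choice of `lam` and `η`
  set lam : ℝ := L / (4 * C₄ * (C₅ + 1)) with hlam
  have hlam0 : 0 < lam := by positivity
  set η : ℝ := L * lam ^ (u - 1) / (4 * C₄) with hη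
  have hη0 : 0 < η := by positivity
  obtain ⟨Y, p, α, R, hY, hsep, hcov, hsum⟩ := key η hη0
  have hmain := avg_bound μ hV hG hA (fun y hy => (hY y hy).2.1) (fun y hy => (hY y hy).2.2.1)
    hcov hv hκ0.le (min_le_right _ _ : τ ≤ r / 2) hlow
  have hRsum := sum_pow_le μ hV hb Y p R (fun y hy => (hY y hy).1) (fun y hy => (hY y hy).2.2.1)
    (fun y hy => (hY y hy).2.2.2) hsep
  have hRsum' : ∑ y ∈ Y, R y ^ u ≤ C₅ := by
    rw [hC₅, le_div_iff₀ (by positivity)]
    exact hRsum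
  have hterm : ∀ y ∈ Y, 2 * α y *
      ((‖v‖ / (A * R y) + 3) * (2 * (A * R y)) ^ u * ω)
      ≤ C₄ * (α y ^ u / lam ^ (u - 1) + lam * R y ^ u) := by
    intro y hy
    obtain ⟨_, hα, hR, hRC⟩ := hY y hy
    obtain ⟨k, rfl⟩ : ∃ k, u = k + 1 := ⟨u - 1, by omega⟩
    rw [Nat.add_sub_cancel]
    have e1 : (‖v‖ / (A * R y) + 3) * (2 * (A * R y)) ^ (k + 1)
        ≤ (2 * A) ^ (k + 1) * (r / A + 3 * C₁) * R y ^ k := by
      have : (‖v‖ / (A * R y) + 3) * (2 * (A * R y)) ^ (k + 1)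
          = (2 * A) ^ (k + 1) * (‖v‖ / A + 3 * R y) * R y ^ k := by
        have h7 : (‖v‖ / (A * R y) + 3) * R y = ‖v‖ / A + 3 * R y := by
          field_simp
        rw [← h7, show (2 * (A * R y)) = 2 * A * R y by ring, mul_pow, pow_succ (R y)]
        ring
      rw [this]
      have hvr : ‖v‖ ≤ r := hv.trans (by linarith)
      gcongr
    have e2 : α y * R y ^ k ≤ α y ^ (k + 1) / lam ^ k + lam * R y ^ (k + 1) := by
      rcases le_total (α y) (lam * R y) with h | h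
      · have : α y * R y ^ k ≤ lam * R y ^ (k + 1) := by
          calc α y * R y ^ k ≤ lam * R y * R y ^ k := by gcongr
            _ = lam * R y ^ (k + 1) := by ring
        have h0 : 0 ≤ α y ^ (k + 1) / lam ^ k := by positivity
        linarith
      · have h1 : R y ≤ α y / lam := by rwa [le_div_iff₀ hlam0, mul_comm]
        have : α y * R y ^ k ≤ α y ^ (k + 1) / lam ^ k := by
          calc α y * R y ^ k ≤ α y * (α y / lam) ^ k := by gcongr
            _ = α y ^ (k + 1) / lam ^ k := by rw [div_pow]; ring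
        have h0 : 0 ≤ lam * R y ^ (k + 1) := by positivity
        linarith
    calc 2 * α y * ((‖v‖ / (A * R y) + 3) * (2 * (A * R y)) ^ (k + 1) * ω)
        ≤ 2 * α y * ((2 * A) ^ (k + 1) * (r / A + 3 * C₁) * R y ^ k * ω) := by gcongr
      _ = C₄ * (α y * R y ^ k) := by rw [hC₄]; ring
      _ ≤ _ := by gcongr
  have hfin : L ≤ C₄ * (η / lam ^ (u - 1) + lam * C₅) := by
    calc L ≤ ∑ y ∈ Y, 2 * α y *
          ((‖v‖ / (A * R y) + 3) * (2 * (A * R y)) ^ u * ω) := hmain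
      _ ≤ ∑ y ∈ Y, C₄ * (α y ^ u / lam ^ (u - 1) + lam * R y ^ u) := Finset.sum_le_sum hterm
      _ = C₄ * ((∑ y ∈ Y, α y ^ u) / lam ^ (u - 1) + lam * ∑ y ∈ Y, R y ^ u) := by
          rw [← Finset.mul_sum, Finset.sum_add_distrib, Finset.sum_div, Finset.mul_sum]
      _ ≤ _ := by gcongr
  have h1 : C₄ * (η / lam ^ (u - 1)) = L / 4 := by
    rw [hη]; field_simp
  have h2 : C₄ * (lam * C₅) ≤ L / 4 := by
    have h3 : C₄ * (lam * (C₅ + 1)) = L / 4 := by
      rw [hlam]; field_simp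
    have h4 : C₄ * (lam * C₅) ≤ C₄ * (lam * (C₅ + 1)) := by
      gcongr
      linarith
    linarith
  have h3 : C₄ * (η / lam ^ (u - 1) + lam * C₅) = C₄ * (η / lam ^ (u - 1)) + C₄ * (lam * C₅) := by
    ring
  linarith

end Pool.Agent.Lib.MP610fe3.Cf
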