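import Pool.Agent.Lib.MP_610fe3_an.Cf.Basic
import Pool.Agent.Lib.MP_610fe3_an.Cf.LenCore

/-!
# Module LEN
-/

open Set Filter Function MeasureTheory Metric
open scoped Topology

namespace Pool.Agent.Lib.MP610fe3.Cf

universe u v

namespace Len

section General

variable {M W : Type*} [MetricSpace M] [NormedAddCommGroup W] [NormedSpace ℝ W]
  {E : Emb M W} {f : M ≃ₜ M} {s : Split E f}

/-- Pushing forward a pair of points which stay close for the times `≤ n`. -/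
theorem wl_push (f : M ≃ₜ M) {ε : ℝ} {t y : M} {n : ℕ}
    (h1 : ∀ j, dist (f.symm^[j] t) (f.symm^[j] y) ≤ ε)
    (h2 : ∀ j ≤ n, dist (f^[j] t) (f^[j] y) ≤ ε) : f^[n] t ∈ Wl f.symm ε (f^[n] y) := by
  intro k
  rcases le_total k n with h | h
  · rw [symm_iterate_iterate_of_le f h, symm_iterate_iterate_of_le f h]
    exact h2 _ (Nat.sub_le _ _)
  · obtain ⟨m, rfl⟩ := Nat.exists_eq_add_of_le h
    rw [Nat.add_comm n m, iterate_add_apply f.symm m n, iterate_add_apply f.symm m n,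
      symm_iterate_iterate, symm_iterate_iterate]
    exact h1 _

theorem wl_pair (f : M ≃ₜ M) {ρ ε : ℝ} (hρ : 2 * ρ ≤ ε) {x t y : M} (ht : t ∈ Wl f ρ x)
    (hy : y ∈ Wl f ρ x) : t ∈ Wl f ε y := by
  intro j
  have h1 := ht j
  have h2 := hy j
  calc dist (f^[j] t) (f^[j] y) ≤ dist (f^[j] t) (f^[j] x) + dist (f^[j] y) (f^[j] x) :=
        dist_triangle_right _ _ _
    _ ≤ ε := by linarith

/-- Uniform bounds for the linear part of the transitions. -/
theorem Q_bounds [CompactSpace M] {c : Conf s} {ε C : ℝ} {ψ : M → M → W}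
    {Q : M → M → W →L[ℝ] W} {q : M → M → ℝ} (hF : Flat c ε C ψ Q q) :
    ∃ K : ℝ, 1 ≤ K ∧ ∀ x, ∀ z ∈ Wl f ε x, ∀ v, s.S x v = v →
      ‖Q x z v‖ ≤ K * ‖v‖ ∧ ‖v‖ ≤ K * ‖Q x z v‖ := by
  have hcomp : IsCompact {p : M × M | p.2 ∈ Wl f ε p.1} := (isClosed_Wl_prod f ε).isCompact
  obtain ⟨K₁, hK₁⟩ := hcomp.exists_bound_of_continuousOn hF.Q_cont
  obtain ⟨K₂, hK₂⟩ : ∃ K₂ : ℝ, ∀ x, ‖c.B x‖ ≤ K₂ := by
    have hn : Continuous fun x => ‖c.B x‖ :=
      (continuous_norm (E := W →L[ℝ] W →L[ℝ] ℝ)).comp c.cont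
    obtain ⟨K, hK⟩ := (isCompact_range hn).bddAbove
    exact ⟨K, fun x => hK ⟨x, rfl⟩⟩
  obtain ⟨K₃, hK₃⟩ := hcomp.exists_bound_of_continuousOn
    (f := fun p : M × M => (q p.1 p.2)⁻¹)
    (hF.q_cont.inv₀ (fun p hp => (hF.q_pos p.1 p.2 hp).ne'))
  set K₂' := max K₂ 1 with hK₂'
  set K₃' := max K₃ 1 with hK₃'
  have hc := c.K_pos
  set T : ℝ := 1 + c.K * K₂' * K₃' ^ 2 with hT
  have hT1 : 1 ≤ T := by
    have : 0 ≤ c.K * K₂' * K₃' ^ 2 := by positivity
    linarith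
  refine ⟨max (max K₁ 1) T, (le_max_right _ _).trans (le_max_left _ _), fun x z hz v hv => ⟨?_, ?_⟩⟩
  · have h1 := hK₁ (x, z) hz
    refine ((Q x z).le_of_opNorm_le h1 v).trans ?_
    exact mul_le_mul_of_nonneg_right ((le_max_left _ _).trans (le_max_left _ _)) (norm_nonneg _)
  · have h1 := c.lower x v
    rw [hv] at h1
    have h2 := hF.Q_conf x z hz v v
    have h3 : c.B z (Q x z v) (Q x z v) ≤ K₂' * ‖Q x z v‖ ^ 2 := by
      have h4 := hK₂ z
      have h5 : ‖c.B z (Q x z v) (Q x z v)‖ ≤ ‖c.B z‖ * ‖Q x z v‖ * ‖Q x z v‖ :=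
        (c.B z).le_opNorm₂ _ _
      have h6 : ‖c.B z‖ ≤ K₂' := h4.trans (le_max_left _ _)
      calc c.B z (Q x z v) (Q x z v) ≤ ‖c.B z (Q x z v) (Q x z v)‖ := le_abs_self _
        _ ≤ ‖c.B z‖ * ‖Q x z v‖ * ‖Q x z v‖ := h5
        _ ≤ K₂' * ‖Q x z v‖ * ‖Q x z v‖ := by gcongr
        _ = _ := by ring
    have hq := hF.q_pos x z hz
    have h7 : (q x z)⁻¹ ≤ K₃' := by
      have := hK₃ (x, z) hz
      simp only [Real.norm_eq_abs] at this
      exact (le_abs_self _).trans (this.trans (le_max_left _ _))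
    have h8 : c.B x v v ≤ K₃' ^ 2 * (K₂' * ‖Q x z v‖ ^ 2) := by
      have h9 : c.B x v v = (q x z)⁻¹ ^ 2 * c.B z (Q x z v) (Q x z v) := by
        rw [h2]
        field_simp
      rw [h9]
      have h10 : 0 ≤ K₂' * ‖Q x z v‖ ^ 2 := by positivity
      have h11 : 0 ≤ (q x z)⁻¹ := by positivity
      calc (q x z)⁻¹ ^ 2 * c.B z (Q x z v) (Q x z v)
          ≤ (q x z)⁻¹ ^ 2 * (K₂' * ‖Q x z v‖ ^ 2) := by gcongr
        _ ≤ _ := by gcongr
    have h12 : ‖v‖ ^ 2 ≤ (T * ‖Q x z v‖) ^ 2 := by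
      calc ‖v‖ ^ 2 ≤ c.K * c.B x v v := h1
        _ ≤ c.K * (K₃' ^ 2 * (K₂' * ‖Q x z v‖ ^ 2)) := by gcongr
        _ = (c.K * K₂' * K₃' ^ 2) * ‖Q x z v‖ ^ 2 := by ring
        _ ≤ T ^ 2 * ‖Q x z v‖ ^ 2 := by
            refine mul_le_mul_of_nonneg_right ?_ (by positivity)
            nlinarith
        _ = _ := by ring
    have h13 : ‖v‖ ≤ T * ‖Q x z v‖ :=
      le_of_sq_le_sq h12 (by positivity)
    exact h13.trans (mul_le_mul_of_nonneg_right (le_max_right _ _) (norm_nonneg _))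

/-- Comparison of the coordinates at `x` with the distance. -/
theorem coord_dist [CompactSpace M] {c : Conf s} {ε C : ℝ} {ψ : M → M → W}
    {Q : M → M → W →L[ℝ] W} {q : M → M → ℝ} (hF : Flat c ε C ψ Q q) :
    ∃ K : ℝ, 1 ≤ K ∧ ∀ x, ∀ y ∈ Wl f ε x, ∀ t ∈ Wl f ε x, t ∈ Wl f ε y →
      ‖ψ x t - ψ x y‖ ≤ K * dist t y ∧ dist t y ≤ K * ‖ψ x t - ψ x y‖ := by
  obtain ⟨K, hK1, hK⟩ := Q_bounds hF
  refine ⟨2 * K, by linarith, fun x y hy t ht hty => ?_⟩
  have h1 := hF.trans x y hy t ht hty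
  have h2 : s.S x (ψ x t - ψ x y) = ψ x t - ψ x y := by
    rw [map_sub, hF.mem x t ht, hF.mem x y hy]
  obtain ⟨h3, h4⟩ := hK x y hy _ h2
  rw [← h1] at h3 h4
  have h5 := hF.upper y t hty
  have h6 := hF.lower y t hty
  constructor
  · calc ‖ψ x t - ψ x y‖ ≤ K * ‖ψ y t‖ := h4
      _ ≤ K * (2 * dist t y) := by gcongr
      _ = _ := by ring
  · calc dist t y ≤ 2 * ‖ψ y t‖ := h6
      _ ≤ 2 * (K * ‖ψ x t - ψ x y‖) := by gcongr
      _ = _ := by ring

/-- A maximal separated set. -/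
theorem exists_sep [CompactSpace M] (f : M ≃ₜ M) (n : ℕ) {δ : ℝ} (hδ : 0 < δ) (T : Set M) :
    ∃ Y : Finset M, (∀ y ∈ Y, y ∈ T) ∧ Sep f δ n Y ∧
      ∀ t ∈ T, ∃ y ∈ Y, ∀ k ≤ n, dist (f^[k] t) (f^[k] y) ≤ δ := by
  classical
  have hopen : ∀ c : M, IsOpen {y : M | ∀ k ∈ Finset.range (n + 1), dist (f^[k] y) (f^[k] c) < δ / 2} := by
    intro c
    have : {y : M | ∀ k ∈ Finset.range (n + 1), dist (f^[k] y) (f^[k] c) < δ / 2}
        = ⋂ k ∈ Finset.range (n + 1), {y : M | dist (f^[k] y) (f^[k] c) < δ / 2} := by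
      ext y; simp
    rw [this]
    refine isOpen_biInter_finset fun k _ => ?_
    exact isOpen_lt ((f.continuous.iterate k).dist continuous_const) continuous_const
  obtain ⟨t₀, ht₀⟩ := (isCompact_univ : IsCompact (univ : Set M)).elim_finite_subcover
    (fun c : M => {y : M | ∀ k ∈ Finset.range (n + 1), dist (f^[k] y) (f^[k] c) < δ / 2}) hopen
    (fun y _ => mem_iUnion.2 ⟨y, fun k _ => by rw [dist_self]; exact half_pos hδ⟩)
  have hcard : ∀ Y : Finset M, Sep f δ n Y → Y.card ≤ t₀.card := by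
    intro Y hY
    have hch : ∀ y : M, ∃ c ∈ t₀, ∀ k ∈ Finset.range (n + 1), dist (f^[k] y) (f^[k] c) < δ / 2 := by
      intro y
      have := ht₀ (mem_univ y)
      rw [mem_iUnion₂] at this
      obtain ⟨c, hc, h⟩ := this
      exact ⟨c, hc, h⟩
    choose g hg hg' using hch
    refine Finset.card_le_card_of_injOn g (fun y _ => hg y) ?_
    intro y hy y' hy' hgy
    by_contra hne
    obtain ⟨k, hk, h⟩ := hY y hy y' hy' hne
    have h1 := hg' y k (Finset.mem_range.2 (Nat.lt_succ_of_le hk))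
    have h2 := hg' y' k (Finset.mem_range.2 (Nat.lt_succ_of_le hk))
    rw [hgy] at h1
    have h3 : dist (f^[k] y) (f^[k] y') ≤ dist (f^[k] y) (f^[k] (g y')) + dist (f^[k] y') (f^[k] (g y')) :=
      dist_triangle_right _ _ _
    linarith
  let Pr : ℕ → Prop := fun m => ∃ Y : Finset M, (∀ y ∈ Y, y ∈ T) ∧ Sep f δ n Y ∧ Y.card = m
  have hP0 : Pr 0 := ⟨∅, by simp, by intro y hy; simp at hy, rfl⟩
  have hbd : ∀ m, Pr m → m ≤ t₀.card := by
    rintro m ⟨Y, _, hY, rfl⟩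
    exact hcard Y hY
  set m := Nat.findGreatest Pr t₀.card with hm
  have hPm : Pr m := Nat.findGreatest_spec (Nat.zero_le _) hP0
  obtain ⟨Y, hYT, hYs, hYm⟩ := hPm
  refine ⟨Y, hYT, hYs, fun t ht => ?_⟩
  by_contra hcon
  push Not at hcon
  have htY : t ∉ Y := by
    intro h
    obtain ⟨k, _, hk⟩ := hcon t h
    rw [dist_self] at hk
    linarith
  have hP1 : Pr (m + 1) := by
    refine ⟨insert t Y, ?_, ?_, ?_⟩
    · intro y hy
      rcases Finset.mem_insert.1 hy with rfl | hy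
      · exact ht
      · exact hYT y hy
    · intro y hy y' hy' hne
      rcases Finset.mem_insert.1 hy with h1 | h1
      · rcases Finset.mem_insert.1 hy' with h2 | h2
        · exact absurd (h1.trans h2.symm) hne
        · obtain ⟨k, hk, h⟩ := hcon y' h2
          rw [h1]
          exact ⟨k, hk, h⟩
      · rcases Finset.mem_insert.1 hy' with h2 | h2
        · obtain ⟨k, hk, h⟩ := hcon y h1
          rw [h2]
          exact ⟨k, hk, by rw [dist_comm]; exact h⟩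
        · exact hYs y h1 y' h2 hne
    · rw [Finset.card_insert_of_notMem htY, hYm]
  have := Nat.le_findGreatest (hbd _ hP1) hP1
  omega

/-- Pairs which are close for the times `≤ n`. -/
theorem close_of {f : M ≃ₜ M} {s : Split E f} {cu : Conf s.swap} {ε C l : ℝ}
    (hG : Grow cu ε C l) {ρ δ : ℝ} (hδ : δ ≤ ε)
    (hstep : ∀ a b : M, dist a b ≤ δ → dist (f a) (f b) ≤ ε) (hρ : 2 * ρ ≤ ε)
    {x t y : M} (ht : t ∈ Wl f.symm ρ x) (hy : y ∈ Wl f.symm ρ x) {n : ℕ}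
    (h : dist t y ≤ δ / C ^ 2 * cu.an n (f^[n] y)) :
    ∀ k ≤ n, dist (f^[k] t) (f^[k] y) ≤ δ := by
  have hC := hG.one_le
  have hC0 : 0 < C := by linarith
  have hty := wl_pair f.symm hρ ht hy
  intro k
  induction k using Nat.strong_induction_on with
  | _ k ih =>
    intro hk
    have hpush : f^[k] t ∈ Wl f.symm ε (f^[k] y) := by
      refine wl_push f hty ?_
      intro j hj
      rcases Nat.lt_or_ge j k with h1 | h1
      · exact (ih j h1 (by omega)).trans hδ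
      · have h2 : j = k := le_antisymm hj h1
        subst h2
        cases j with
        | zero => exact hty 0
        | succ j =>
          rw [iterate_succ_apply', iterate_succ_apply']
          exact hstep _ _ (ih j (Nat.lt_succ_self j) (by omega))
    have h1 := hG.lower (f^[k] y) (f^[k] t) hpush k
    rw [symm_iterate_iterate, symm_iterate_iterate] at h1
    have h2 : cu.an n (f^[n] y) = cu.an k (f^[k] y) * cu.an (n - k) (f^[n] y) := by
      have h3 := cu.an_add k (n - k) (f^[n] y)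
      rw [Nat.add_sub_cancel' hk, symm_iterate_iterate_of_le f (Nat.sub_le n k)] at h3
      rw [h3]
      congr 3
      omega
    have h4 : cu.an (n - k) (f^[n] y) ≤ C := by
      refine (hG.an_le _ _).trans ?_
      have : l ^ (n - k) ≤ 1 := pow_le_one₀ hG.l_pos.le hG.l_lt.le
      nlinarith
    have hak : 0 < cu.an k (f^[k] y) := cu.an_pos _ _
    have hδ0 : 0 ≤ δ / C ^ 2 := by
      have h5 : 0 ≤ δ / C ^ 2 * cu.an n (f^[n] y) := dist_nonneg.trans h
      exact nonneg_of_mul_nonneg_left h5 (cu.an_pos _ _)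
    have h5 : dist t y ≤ δ / C * cu.an k (f^[k] y) := by
      calc dist t y ≤ δ / C ^ 2 * cu.an n (f^[n] y) := h
        _ = δ / C ^ 2 * (cu.an k (f^[k] y) * cu.an (n - k) (f^[n] y)) := by rw [h2]
        _ ≤ δ / C ^ 2 * (cu.an k (f^[k] y) * C) := by gcongr
        _ = δ / C * cu.an k (f^[k] y) := by field_simp
    have h6 : cu.an k (f^[k] y) * dist (f^[k] t) (f^[k] y) ≤ cu.an k (f^[k] y) * δ := by
      calc cu.an k (f^[k] y) * dist (f^[k] t) (f^[k] y) ≤ C * dist t y := h1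
        _ ≤ C * (δ / C * cu.an k (f^[k] y)) := by gcongr
        _ = cu.an k (f^[k] y) * δ := by field_simp
    exact le_of_mul_le_mul_left h6 hak

/-- Pairs which are close for the times `≤ n`: upper bound for the distance. -/
theorem dist_of_close {f : M ≃ₜ M} {s : Split E f} {cu : Conf s.swap} {ε C l : ℝ}
    (hG : Grow cu ε C l) {ρ δ : ℝ} (hδ : δ ≤ ε) (hρ : 2 * ρ ≤ ε)
    {x t y : M} (ht : t ∈ Wl f.symm ρ x) (hy : y ∈ Wl f.symm ρ x) {n : ℕ}
    (h : ∀ k ≤ n, dist (f^[k] t) (f^[k] y) ≤ δ) :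
    dist t y ≤ C * cu.an n (f^[n] y) * δ := by
  have hC := hG.one_le
  have hty := wl_pair f.symm hρ ht hy
  have hpush : f^[n] t ∈ Wl f.symm ε (f^[n] y) :=
    wl_push f hty fun j hj => (h j hj).trans hδ
  have h1 := hG.upper (f^[n] y) (f^[n] t) hpush n
  rw [symm_iterate_iterate, symm_iterate_iterate] at h1
  refine h1.trans ?_
  have := cu.an_pos n (f^[n] y)
  have h2 := h n le_rfl
  gcongr

end General

end Len

theorem len : SpecLen.{u, v} := by
  classical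
  intro M W _ _ _ _ _ E f s cu ε C l ψ Q q u sd hs hU hrank hsd hu
  have hG := hU.grow
  have hF := hU.flat
  have hC := hG.one_le
  have hC0 : 0 < C := by linarith
  have hε := hG.ε_pos
  obtain ⟨K, hK1, hK⟩ := Len.coord_dist hF
  have hK0 : 0 < K := by linarith
  obtain ⟨δ₁, hδ₁, hstep⟩ : ∃ δ₁ : ℝ, 0 < δ₁ ∧ ∀ a b : M, dist a b ≤ δ₁ → dist (f a) (f b) ≤ ε := by
    have hu := CompactSpace.uniformContinuous_of_continuous f.continuous
    obtain ⟨r, hr, h⟩ := Metric.uniformContinuous_iff.1 hu ε hε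
    exact ⟨r / 2, half_pos hr, fun a b hab => (h (lt_of_le_of_lt hab (half_lt_self hr))).le⟩
  refine ⟨min (ε / 4) δ₁, lt_min (by positivity) hδ₁, fun ρ hρ hρ₀ => ?_⟩
  have hρε : 2 * ρ ≤ ε := by
    have := hρ₀.trans (min_le_left _ _)
    linarith
  have hρε' : ρ ≤ ε := by linarith
  obtain ⟨r, hr, hsurj⟩ := hU.surj ρ hρ
  refine ⟨min ρ (r / 4), lt_min hρ (by positivity), min_le_left _ _, ?_⟩
  intro x α F C₀ l' δ hδ hδρ hl' hl1' hα hFα hsum y₀ hy₀
  have hδε : δ ≤ ε := by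
    have := hδρ.trans (min_le_left _ _)
    linarith
  have hδ1 : δ ≤ δ₁ := hδρ.trans (min_le_right _ _)
  have hC₀ : 0 ≤ C₀ := by
    have h1 := hα 0 x
    rw [pow_zero, mul_one] at h1
    exact h1.1.trans h1.2
  -- the model space
  let V : Submodule ℝ W := (s.U x).range
  have hVmem : ∀ v : V, s.U x (v : W) = v := by
    rintro ⟨v, w, rfl⟩
    exact s.UU_apply x w
  have hpt : ∀ v : V, ∃ z, ‖v‖ ≤ r → z ∈ Wl f.symm ρ x ∧ ψ x z = v := by
    intro v
    by_cases hv : ‖v‖ ≤ r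
    · obtain ⟨z, hz, h⟩ := hsurj x v (hVmem v) hv
      exact ⟨z, fun _ => ⟨hz, h⟩⟩
    · exact ⟨x, fun h => absurd h hv⟩
  choose pt hpt using hpt
  have hφmem : ∀ y, y ∈ Wl f.symm ε x → ψ x y ∈ V := fun y hy => ⟨ψ x y, hF.mem x y hy⟩
  let φ : M → V := fun y => if h : y ∈ Wl f.symm ε x then ⟨ψ x y, hφmem y h⟩ else 0
  have hφ : ∀ y, y ∈ Wl f.symm ε x → ((φ y : V) : W) = ψ x y := by
    intro y hy
    simp only [φ]
    rw [dif_pos hy]
  have hφpt : ∀ v : V, ‖v‖ ≤ r → φ (pt v) = v := by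
    intro v hv
    apply Subtype.ext
    rw [hφ _ (Wl_mono hρε' (hpt v hv).1)]
    exact (hpt v hv).2
  have hφd : ∀ t ∈ Wl f.symm ρ x, ∀ y ∈ Wl f.symm ρ x,
      ‖φ t - φ y‖ ≤ K * dist t y ∧ dist t y ≤ K * ‖φ t - φ y‖ := by
    intro t ht y hy
    have h1 := hK x y (Wl_mono hρε' hy) t (Wl_mono hρε' ht) (Len.wl_pair f.symm hρε ht hy)
    have h2 : ‖φ t - φ y‖ = ‖ψ x t - ψ x y‖ := by
      rw [← hφ t (Wl_mono hρε' ht), ← hφ y (Wl_mono hρε' hy)]
      rfl
    rw [h2]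
    exact h1
  have hptφ : ∀ y ∈ Wl f.symm ρ x, ‖φ y‖ ≤ r → pt (φ y) = y := by
    intro y hy h
    have h1 := hpt (φ y) h
    refine hF.inj x _ (Wl_mono hρε' h1.1) y (Wl_mono hρε' hy) ?_
    rw [h1.2, hφ y (Wl_mono hρε' hy)]
  have hxx : x ∈ Wl f.symm ρ x := mem_Wl_self hρ.le
  have hψx : ψ x x = 0 := by
    have h1 := hF.upper x x (mem_Wl_self hε.le)
    rw [dist_self, mul_zero] at h1
    exact norm_le_zero_iff.1 h1
  have hφx : φ x = 0 := by
    apply Subtype.ext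
    rw [hφ x (mem_Wl_self hε.le), hψx]
    rfl
  have hpt0 : pt 0 = x := by
    have h1 := hptφ x hxx (by rw [hφx, norm_zero]; exact hr.le)
    rwa [hφx] at h1
  -- the function
  let G : V → ℝ := fun v => F (pt v)
  have hGcont : ContinuousOn G (closedBall 0 r) := by
    rw [Metric.continuousOn_iff]
    intro w hw η hη
    rw [mem_closedBall, dist_zero_right] at hw
    have hlim : Tendsto (fun n : ℕ => C₀ * (C₀ * l' ^ n)) atTop (𝓝 0) := by
      have h1 := ((tendsto_pow_atTop_nhds_zero_of_lt_one hl'.le hl1').const_mul C₀).const_mul C₀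
      simpa using h1
    obtain ⟨n, hn1, hn2⟩ := (hFα.and (hlim.eventually (gt_mem_nhds hη))).exists
    have hcont : ∀ᶠ t in 𝓝 (pt w), ∀ k ∈ Finset.range (n + 1), dist (f^[k] t) (f^[k] (pt w)) < δ := by
      rw [Filter.eventually_all_finset]
      intro k _
      have h1 : Continuous fun t => dist (f^[k] t) (f^[k] (pt w)) :=
        (f.continuous.iterate k).dist continuous_const
      have h2 := h1.tendsto (pt w)
      rw [dist_self] at h2
      exact h2.eventually (gt_mem_nhds hδ)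
    obtain ⟨τ, hτ, hball⟩ := Metric.eventually_nhds_iff.1 hcont
    refine ⟨τ / K, by positivity, fun w' hw' hd => ?_⟩
    rw [mem_closedBall, dist_zero_right] at hw'
    have h1 := (hφd (pt w') (hpt w' hw').1 (pt w) (hpt w hw).1).2
    rw [hφpt w' hw', hφpt w hw] at h1
    have h2 : dist (pt w') (pt w) < τ := by
      rw [dist_eq_norm, lt_div_iff₀ hK0] at hd
      calc dist (pt w') (pt w) ≤ K * ‖w' - w‖ := h1
        _ = ‖w' - w‖ * K := mul_comm _ _
        _ < τ := hd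
    have h3 := hball h2
    have h4 := hn1 (pt w) (hpt w hw).1 (pt w') (hpt w' hw').1 (fun k hk => by
      rw [dist_comm]
      exact (h3 k (Finset.mem_range.2 (Nat.lt_succ_of_le hk))).le)
    rw [Real.dist_eq]
    calc |G w' - G w| ≤ C₀ * α n (pt w) := h4
      _ ≤ C₀ * (C₀ * l' ^ n) := by
          have := (hα n (pt w)).2
          gcongr
      _ < η := hn2
  set A : ℝ := K * C * δ with hA
  have hA0 : 0 < A := by positivity
  set b : ℝ := δ / (K * C ^ 2) with hb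
  have hb0 : 0 < b := by positivity
  have hkey : ∀ η : ℝ, 0 < η → ∃ (Y : Finset M) (p : M → V) (α' R : M → ℝ),
      (∀ y ∈ Y, ‖p y‖ ≤ r ∧ 0 ≤ α' y ∧ 0 < R y ∧ R y ≤ C) ∧
      (∀ y ∈ Y, ∀ y' ∈ Y, y ≠ y' → b * R y ≤ ‖p y' - p y‖) ∧
      (∀ w : V, ‖w‖ ≤ r → ∃ y ∈ Y, ‖w - p y‖ ≤ A * R y ∧ |G w - G (p y)| ≤ α' y) ∧
      ∑ y ∈ Y, α' y ^ u ≤ η := by
    intro η hη
    set T : ℝ := C₀ ^ u * C₀ ^ (u - sd) + 1 with hT
    have hT0 : 0 < T := by positivity
    obtain ⟨n, hn1, hn2⟩ := (hFα.and (hsum (η / T) (by positivity))).exists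
    obtain ⟨Y, hY, hYs, hYm⟩ := Len.exists_sep f n hδ (pt '' closedBall 0 r)
    have hYpt : ∀ y ∈ Y, y ∈ Wl f.symm ρ x ∧ ‖φ y‖ ≤ r ∧ pt (φ y) = y := by
      intro y hy
      obtain ⟨w, hw, rfl⟩ := hY y hy
      rw [mem_closedBall, dist_zero_right] at hw
      rw [hφpt w hw]
      exact ⟨(hpt w hw).1, hw, rfl⟩
    refine ⟨Y, φ, fun y => C₀ * α n y, fun y => cu.an n (f^[n] y), ?_, ?_, ?_, ?_⟩
    · intro y hy
      refine ⟨(hYpt y hy).2.1, mul_nonneg hC₀ (hα n y).1, cu.an_pos _ _, ?_⟩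
      refine (hG.an_le _ _).trans ?_
      have : l ^ n ≤ 1 := pow_le_one₀ hG.l_pos.le hG.l_lt.le
      nlinarith
    · intro y hy y' hy' hne
      by_contra hcon
      push Not at hcon
      have h1 := (hφd y' (hYpt y' hy').1 y (hYpt y hy).1).2
      have h2 : dist y' y ≤ δ / C ^ 2 * cu.an n (f^[n] y) := by
        calc dist y' y ≤ K * ‖φ y' - φ y‖ := h1
          _ ≤ K * (b * cu.an n (f^[n] y)) := by gcongr
          _ = _ := by rw [hb]; field_simp
      have h3 := Len.close_of hG hδε (fun a b hab => hstep a b (hab.trans hδ1)) hρε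
        (hYpt y' hy').1 (hYpt y hy).1 h2
      obtain ⟨k, hk, h4⟩ := hYs y hy y' hy' hne
      have h5 := h3 k hk
      rw [dist_comm] at h5
      linarith
    · intro w hw
      have hw' : w ∈ closedBall (0 : V) r := by rw [mem_closedBall, dist_zero_right]; exact hw
      obtain ⟨y, hy, h1⟩ := hYm (pt w) (mem_image_of_mem pt hw')
      refine ⟨y, hy, ?_, ?_⟩
      · have h2 := (hφd (pt w) (hpt w hw).1 y (hYpt y hy).1).1
        rw [hφpt w hw] at h2
        have h3 := Len.dist_of_close hG hδε hρε (hpt w hw).1 (hYpt y hy).1 h1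
        calc ‖w - φ y‖ ≤ K * dist (pt w) y := h2
          _ ≤ K * (C * cu.an n (f^[n] y) * δ) := by gcongr
          _ = _ := by rw [hA]; ring
      · simp only [G]
        rw [(hYpt y hy).2.2]
        exact hn1 y (hYpt y hy).1 (pt w) (hpt w hw).1 (fun k hk => by
          rw [dist_comm]; exact h1 k hk)
    · have h1 := hn2 Y (fun y hy => (hYpt y hy).1) hYs
      have h2 : ∀ y ∈ Y, (C₀ * α n y) ^ u ≤ C₀ ^ u * C₀ ^ (u - sd) * α n y ^ sd := by
        intro y _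
        obtain ⟨ha, hb⟩ := hα n y
        have hb' : α n y ≤ C₀ := by
          refine hb.trans ?_
          have : l' ^ n ≤ 1 := pow_le_one₀ hl'.le hl1'.le
          nlinarith
        calc (C₀ * α n y) ^ u = C₀ ^ u * (α n y ^ (u - sd) * α n y ^ sd) := by
              rw [mul_pow, ← pow_add, Nat.sub_add_cancel hsd]
          _ ≤ C₀ ^ u * (C₀ ^ (u - sd) * α n y ^ sd) := by gcongr
          _ = _ := by ring
      calc ∑ y ∈ Y, (C₀ * α n y) ^ u ≤ ∑ y ∈ Y, C₀ ^ u * C₀ ^ (u - sd) * α n y ^ sd :=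
            Finset.sum_le_sum h2
        _ = C₀ ^ u * C₀ ^ (u - sd) * ∑ y ∈ Y, α n y ^ sd := by rw [Finset.mul_sum]
        _ ≤ C₀ ^ u * C₀ ^ (u - sd) * (η / T) := by gcongr
        _ ≤ T * (η / T) := by
            gcongr
            rw [hT]
            linarith
        _ = η := by field_simp
  have hmain := len_core (V := V) (ι := M) hu (hrank x) hr G hGcont hA0 hb0 hC0.le hkey
  have hy₀ρ : y₀ ∈ Wl f.symm ρ x := Wl_mono (min_le_left _ _) hy₀
  have hn : ‖φ y₀‖ ≤ r / 2 := by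
    have h1 := hF.upper x y₀ (Wl_mono hρε' hy₀ρ)
    have h2 : dist y₀ x ≤ r / 4 := (Wl_dist hy₀).trans (min_le_right _ _)
    have h3 : ‖φ y₀‖ = ‖ψ x y₀‖ := by
      rw [← hφ y₀ (Wl_mono hρε' hy₀ρ)]
      rfl
    rw [h3]
    linarith
  have h1 := hmain (φ y₀) hn
  simp only [G] at h1
  rw [hpt0, hptφ y₀ hy₀ρ (by linarith)] at h1
  exact h1

end Pool.Agent.Lib.MP610fe3.Cf
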