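import Pool.Agent.Lib.MP_610fe3_an.Cf.Spec2
import Pool.Agent.Lib.MP_610fe3_an.Cf.Dec
import Pool.Agent.Lib.MP_610fe3_an.Cf.Len

/-!
# Module LEN2
-/

open Set Filter Function MeasureTheory Metric
open scoped Topology ENNReal

namespace Pool.Agent.Lib.MP610fe3.Cf

universe u v

namespace Len2

/-! ### The averaging argument -/

theorem core {V : Type*} [NormedAddCommGroup V] [NormedSpace ℝ V] [FiniteDimensional ℝ V]
    [MeasurableSpace V] [BorelSpace V] (μ : Measure V) [μ.IsAddHaarMeasure]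
    {r : ℝ} (hr : 0 < r) {G : V → ℝ} (hG : Continuous G) {v : V} (hv : ‖v‖ ≤ r / 2) {A : ℝ}
    (hA : 0 ≤ A) {d : ℕ} (hd : 1 ≤ d)
    (key : ∀ η : ℝ, 0 < η → ∃ h : V → ℝ, Continuous h ∧ (∀ w, 0 ≤ h w) ∧
      (∀ t, ‖t‖ ≤ r / 2 → |G (t + v) - G t| ≤ A * (∫ s in (0:ℝ)..1, h (t + s • v)) + η) ∧
      ∫⁻ w in closedBall 0 r, ENNReal.ofReal (h w ^ d) ∂μ ≤ ENNReal.ofReal η) :
    G v = G 0 := by
  by_contra hne
  set κ : ℝ := |G v - G 0| / 2 with hκ
  have hκ0 : 0 < κ := by
    rw [hκ]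
    have : 0 < |G v - G 0| := abs_pos.2 (sub_ne_zero.2 hne)
    linarith
  obtain ⟨τ₀, hτ₀, hlow₀⟩ : ∃ τ : ℝ, 0 < τ ∧ ∀ t, ‖t‖ < τ → κ ≤ |G (t + v) - G t| := by
    have hc : Continuous fun t => |G (t + v) - G t| := by fun_prop
    have h1 : ∀ᶠ t in 𝓝 (0 : V), κ < |G (t + v) - G t| := by
      refine hc.continuousAt.eventually (lt_mem_nhds ?_)
      simp only [zero_add]
      linarith
    obtain ⟨τ, hτ, h⟩ := Metric.eventually_nhds_iff.1 h1
    exact ⟨τ, hτ, fun t ht => (h (by rwa [dist_zero_right])).le⟩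
  set τ : ℝ := min τ₀ (r / 2) with hτ
  have hτ0 : 0 < τ := lt_min hτ₀ (half_pos hr)
  have hlow : ∀ t, ‖t‖ < τ → κ ≤ |G (t + v) - G t| := fun t ht =>
    hlow₀ t (ht.trans_le (min_le_left _ _))
  set mτ : ℝ := μ.real (ball (0 : V) τ) with hmτ
  set mr : ℝ := μ.real (closedBall (0 : V) r) with hmr
  have hmτ0 : 0 < mτ := by
    rw [hmτ, measureReal_def]
    exact ENNReal.toReal_pos (measure_ball_pos μ 0 hτ0).ne' measure_ball_lt_top.ne
  have hmr0 : 0 ≤ mr := measureReal_nonneg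
  have hmτe : μ (ball (0 : V) τ) = ENNReal.ofReal mτ := by
    rw [hmτ, measureReal_def, ENNReal.ofReal_toReal measure_ball_lt_top.ne]
  have hmre : μ (closedBall (0 : V) r) = ENNReal.ofReal mr := by
    rw [hmr, measureReal_def, ENNReal.ofReal_toReal measure_closedBall_lt_top.ne]
  set L : ℝ := κ * mτ with hL
  have hL0 : 0 < L := mul_pos hκ0 hmτ0
  set lam : ℝ := L / (4 * (A * mr + 1)) with hlam
  have hlam0 : 0 < lam := by positivity
  set Pd : ℝ := (1 / lam) ^ (d - 1) with hPd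
  have hPd0 : 0 < Pd := by positivity
  set η : ℝ := min (κ / 4) (L / (4 * (A + 1)) / Pd) with hη
  have hη0 : 0 < η := lt_min (by positivity) (by positivity)
  obtain ⟨h, hcont, hnn, hpath, hsq⟩ := key η hη0
  -- the integral of `h`
  set J : ℝ≥0∞ := ∫⁻ w in closedBall (0 : V) r, ENNReal.ofReal (h w) ∂μ with hJ
  have hJle : J ≤ ENNReal.ofReal (lam * mr + Pd * η) := by
    have h1 : ∀ w, ENNReal.ofReal (h w)
        ≤ ENNReal.ofReal lam + ENNReal.ofReal Pd * ENNReal.ofReal (h w ^ d) := by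
      intro w
      have hw0 := hnn w
      rw [← ENNReal.ofReal_mul (by positivity), ← ENNReal.ofReal_add hlam0.le (by positivity)]
      refine ENNReal.ofReal_le_ofReal ?_
      rcases le_total (h w) lam with h2 | h2
      · have : 0 ≤ Pd * h w ^ d := by positivity
        linarith
      · have : h w ≤ Pd * h w ^ d := by
          have h3 : 1 ≤ 1 / lam * h w := by
            rw [one_div, ← div_eq_inv_mul, le_div_iff₀ hlam0]
            linarith
          have h4 : 1 ≤ (1 / lam * h w) ^ (d - 1) := one_le_pow₀ h3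
          calc h w = 1 * h w := (one_mul _).symm
            _ ≤ (1 / lam * h w) ^ (d - 1) * h w := mul_le_mul_of_nonneg_right h4 hw0
            _ = Pd * (h w ^ (d - 1) * h w) := by rw [mul_pow, hPd]; ring
            _ = Pd * h w ^ d := by rw [← pow_succ, Nat.sub_add_cancel hd]
        linarith
    calc J ≤ ∫⁻ w in closedBall (0 : V) r,
          (ENNReal.ofReal lam + ENNReal.ofReal Pd * ENNReal.ofReal (h w ^ d)) ∂μ :=
          lintegral_mono fun w => h1 w
      _ = ENNReal.ofReal lam * μ (closedBall (0 : V) r)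
          + ENNReal.ofReal Pd *
            ∫⁻ w in closedBall (0 : V) r, ENNReal.ofReal (h w ^ d) ∂μ := by
          rw [lintegral_add_left measurable_const, setLIntegral_const, lintegral_const_mul]
          exact (hcont.pow d).measurable.ennreal_ofReal
      _ ≤ ENNReal.ofReal lam * ENNReal.ofReal mr + ENNReal.ofReal Pd * ENNReal.ofReal η := by
          rw [hmre]
          gcongr
      _ = ENNReal.ofReal (lam * mr + Pd * η) := by
          rw [← ENNReal.ofReal_mul hlam0.le, ← ENNReal.ofReal_mul (by positivity),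
            ← ENNReal.ofReal_add (by positivity) (by positivity)]
  -- the path integral as a lower integral
  have hpathI : ∀ t, ENNReal.ofReal (∫ s in (0:ℝ)..1, h (t + s • v))
      = ∫⁻ s in Ioc (0 : ℝ) 1, ENNReal.ofReal (h (t + s • v)) := by
    intro t
    rw [intervalIntegral.integral_of_le zero_le_one]
    rw [ofReal_integral_eq_lintegral_ofReal]
    · have hc : Continuous fun s : ℝ => h (t + s • v) := by fun_prop
      exact (hc.intervalIntegrable 0 1).1
    · exact Eventually.of_forall fun s => hnn _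
  have hJt : ∀ s ∈ Ioc (0 : ℝ) 1, ∫⁻ t in ball (0 : V) τ, ENNReal.ofReal (h (t + s • v)) ∂μ ≤ J := by
    intro s hs
    have h1 : ∀ t ∈ ball (0 : V) τ, ENNReal.ofReal (h (t + s • v))
        ≤ (closedBall (0 : V) r).indicator (fun w => ENNReal.ofReal (h w)) (t + s • v) := by
      intro t ht
      rw [indicator_of_mem]
      rw [mem_closedBall, dist_zero_right]
      rw [mem_ball, dist_zero_right] at ht
      have ht2 : ‖t‖ ≤ r / 2 := ht.le.trans (min_le_right _ _)
      calc ‖t + s • v‖ ≤ ‖t‖ + ‖s • v‖ := norm_add_le _ _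
        _ ≤ r / 2 + r / 2 := by
            refine add_le_add ht2 ?_
            rw [norm_smul, Real.norm_eq_abs, abs_of_pos hs.1]
            calc s * ‖v‖ ≤ 1 * ‖v‖ := mul_le_mul_of_nonneg_right hs.2 (norm_nonneg _)
              _ ≤ r / 2 := by rw [one_mul]; exact hv
        _ = r := by ring
    calc ∫⁻ t in ball (0 : V) τ, ENNReal.ofReal (h (t + s • v)) ∂μ
        ≤ ∫⁻ t in ball (0 : V) τ,
          (closedBall (0 : V) r).indicator (fun w => ENNReal.ofReal (h w)) (t + s • v) ∂μ :=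
          setLIntegral_mono' measurableSet_ball h1
      _ ≤ ∫⁻ t, (closedBall (0 : V) r).indicator (fun w => ENNReal.ofReal (h w)) (t + s • v) ∂μ :=
          setLIntegral_le_lintegral _ _
      _ = ∫⁻ w, (closedBall (0 : V) r).indicator (fun w => ENNReal.ofReal (h w)) w ∂μ :=
          lintegral_add_right_eq_self _ _
      _ = J := by rw [lintegral_indicator measurableSet_closedBall]
  have hmeas : Measurable fun p : V × ℝ => ENNReal.ofReal (h (p.1 + p.2 • v)) := by
    have hc : Continuous fun p : V × ℝ => h (p.1 + p.2 • v) := by fun_prop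
    exact hc.measurable.ennreal_ofReal
  have hmain : ENNReal.ofReal κ * ENNReal.ofReal mτ
      ≤ ENNReal.ofReal A * J + ENNReal.ofReal η * ENNReal.ofReal mτ := by
    calc ENNReal.ofReal κ * ENNReal.ofReal mτ
        = ∫⁻ _ in ball (0 : V) τ, ENNReal.ofReal κ ∂μ := by rw [setLIntegral_const, hmτe]
      _ ≤ ∫⁻ t in ball (0 : V) τ, (ENNReal.ofReal A *
            (∫⁻ s in Ioc (0 : ℝ) 1, ENNReal.ofReal (h (t + s • v))) + ENNReal.ofReal η) ∂μ := by
          refine setLIntegral_mono' measurableSet_ball fun t ht => ?_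
          rw [mem_ball, dist_zero_right] at ht
          rw [← hpathI t, ← ENNReal.ofReal_mul hA, ← ENNReal.ofReal_add _ hη0.le]
          · refine ENNReal.ofReal_le_ofReal ((hlow t ht).trans ?_)
            exact hpath t (ht.le.trans (min_le_right _ _))
          · refine mul_nonneg hA ?_
            exact intervalIntegral.integral_nonneg zero_le_one fun s _ => hnn _
      _ = ENNReal.ofReal A * (∫⁻ t in ball (0 : V) τ,
            (∫⁻ s in Ioc (0 : ℝ) 1, ENNReal.ofReal (h (t + s • v))) ∂μ)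
            + ENNReal.ofReal η * μ (ball (0 : V) τ) := by
          rw [lintegral_add_right _ measurable_const, setLIntegral_const, lintegral_const_mul]
          exact hmeas.lintegral_prod_right'
      _ = ENNReal.ofReal A * (∫⁻ s in Ioc (0 : ℝ) 1,
            (∫⁻ t in ball (0 : V) τ, ENNReal.ofReal (h (t + s • v)) ∂μ))
            + ENNReal.ofReal η * μ (ball (0 : V) τ) := by
          congr 2
          rw [lintegral_lintegral_swap]
          exact hmeas.aemeasurable
      _ ≤ ENNReal.ofReal A * (∫⁻ _ in Ioc (0 : ℝ) 1, J)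
            + ENNReal.ofReal η * μ (ball (0 : V) τ) := by
          exact add_le_add (mul_le_mul_of_nonneg_left
            (setLIntegral_mono' measurableSet_Ioc hJt) zero_le) le_rfl
      _ = _ := by
          rw [setLIntegral_const, Real.volume_Ioc, hmτe]
          simp
  have hfin : L ≤ A * (lam * mr + Pd * η) + η * mτ := by
    have h1 : ENNReal.ofReal L ≤ ENNReal.ofReal (A * (lam * mr + Pd * η) + η * mτ) := by
      rw [hL, ENNReal.ofReal_mul hκ0.le, ENNReal.ofReal_add (by positivity) (by positivity),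
        ENNReal.ofReal_mul hA, ENNReal.ofReal_mul hη0.le]
      refine hmain.trans ?_
      gcongr
    rwa [ENNReal.ofReal_le_ofReal_iff (by positivity)] at h1
  have e1 : A * (lam * mr) ≤ L / 4 := by
    have : (A * mr + 1) * lam = L / 4 := by rw [hlam]; field_simp
    nlinarith
  have e2 : A * (Pd * η) ≤ L / 4 := by
    have h2 : Pd * η ≤ L / (4 * (A + 1)) := by
      rw [mul_comm, ← le_div_iff₀ hPd0]
      exact min_le_right _ _
    have h3 : (A + 1) * (L / (4 * (A + 1))) = L / 4 := by field_simp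
    have h4 : A * (Pd * η) ≤ A * (L / (4 * (A + 1))) := mul_le_mul_of_nonneg_left h2 hA
    have h5 : 0 ≤ L / (4 * (A + 1)) := by positivity
    nlinarith
  have e3 : η * mτ ≤ L / 4 := by
    have h2 : η ≤ κ / 4 := min_le_left _ _
    calc η * mτ ≤ κ / 4 * mτ := mul_le_mul_of_nonneg_right h2 hmτ0.le
      _ = L / 4 := by rw [hL]; ring
  have e4 : A * (lam * mr + Pd * η) = A * (lam * mr) + A * (Pd * η) := by ring
  linarith

/-! ### The variation along a path -/

theorem path_main {M : Type*} [MetricSpace M] (g : ℕ → M → M) (n : ℕ) (hg : ∀ k, Continuous (g k))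
    {γ : ℝ → M} (hγ : Continuous γ) {F α σ : M → ℝ} (hα : Continuous α) (hσ : Continuous σ)
    (hσ0 : ∀ z, 0 ≤ σ z)
    {C₀ B Λ δ : ℝ} (hδ : 0 < δ) (hC₀ : 0 ≤ C₀) (hΛ : 0 ≤ Λ)
    (h1 : ∀ s ∈ Icc (0 : ℝ) 1, ∀ s' ∈ Icc (0 : ℝ) 1,
      (∀ k ≤ n, dist (g k (γ s)) (g k (γ s')) ≤ δ) → |F (γ s') - F (γ s)| ≤ C₀ * α (γ s))
    (h2 : ∀ s ∈ Icc (0 : ℝ) 1, ∀ s' ∈ Icc (0 : ℝ) 1,
      (∀ k ≤ n, dist (g k (γ s)) (g k (γ s')) ≤ δ) → α (γ s) ≤ C₀ * α (γ s'))
    (h3 : ∀ s ∈ Icc (0 : ℝ) 1, 0 ≤ α (γ s) ∧ α (γ s) ≤ B)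
    (h4 : ∀ a ∈ Icc (0 : ℝ) 1, ∀ b ∈ Icc (0 : ℝ) 1, a ≤ b →
      (∀ k ≤ n, dist (g k (γ a)) (g k (γ b)) ≤ δ) → ∀ k ≤ n,
        dist (g k (γ a)) (g k (γ b)) ≤ Λ * ∫ s in a..b, σ (γ s)) :
    |F (γ 1) - F (γ 0)| ≤ C₀ ^ 2 * Λ / δ * (∫ s in (0:ℝ)..1, α (γ s) * σ (γ s)) + C₀ * B := by
  have hcα : Continuous fun s => α (γ s) := hα.comp hγ
  have hcσ : Continuous fun s => σ (γ s) := hσ.comp hγ
  have hcασ : Continuous fun s => α (γ s) * σ (γ s) := hcα.mul hcσ
  -- uniform continuity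
  obtain ⟨τ, hτ, hunif⟩ : ∃ τ : ℝ, 0 < τ ∧ ∀ s ∈ Icc (0 : ℝ) 1, ∀ s' ∈ Icc (0 : ℝ) 1,
      |s - s'| < τ → ∀ k ≤ n, dist (g k (γ s)) (g k (γ s')) < δ := by
    have hk : ∀ k, ∃ τ : ℝ, 0 < τ ∧ ∀ s ∈ Icc (0 : ℝ) 1, ∀ s' ∈ Icc (0 : ℝ) 1,
        |s - s'| < τ → dist (g k (γ s)) (g k (γ s')) < δ := by
      intro k
      have hu := isCompact_Icc.uniformContinuousOn_of_continuous
        (((hg k).comp hγ).continuousOn (s := Icc (0 : ℝ) 1))
      rw [Metric.uniformContinuousOn_iff] at hu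
      obtain ⟨τ, hτ, h⟩ := hu δ hδ
      exact ⟨τ, hτ, fun s hs s' hs' hd => h s hs s' hs' (by rwa [Real.dist_eq])⟩
    choose τ hτ h using hk
    have hne : (Finset.range (n + 1)).Nonempty := ⟨0, by simp⟩
    refine ⟨(Finset.range (n + 1)).inf' hne τ, ?_, ?_⟩
    · rw [Finset.lt_inf'_iff]
      exact fun k _ => hτ k
    · intro s hs s' hs' hd k hk
      refine h k s hs s' hs' (hd.trans_le ?_)
      exact Finset.inf'_le _ (Finset.mem_range.2 (Nat.lt_succ_of_le hk))
  have hA : 0 ≤ C₀ ^ 2 * Λ / δ := by positivity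
  have key : ∀ m : ℕ, ∀ a ∈ Icc (0 : ℝ) 1, 1 - a ≤ m * τ →
      |F (γ 1) - F (γ a)| ≤ C₀ ^ 2 * Λ / δ * (∫ s in a..1, α (γ s) * σ (γ s)) + C₀ * B := by
    intro m
    induction m with
    | zero =>
      intro a ha hm
      have : a = 1 := by
        have h5 : 1 - a ≤ 0 := by simpa using hm
        linarith [ha.2]
      subst this
      simp only [sub_self, abs_zero, intervalIntegral.integral_same, mul_zero, zero_add]
      exact mul_nonneg hC₀ ((h3 1 ha).1.trans (h3 1 ha).2)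
    | succ m ih =>
      intro a ha hm
      by_cases hall : ∀ k ≤ n, ∀ s ∈ Icc a 1, dist (g k (γ a)) (g k (γ s)) < δ
      · have h5 := h1 a ha 1 ⟨zero_le_one, le_rfl⟩ (fun k hk => (hall k hk 1 ⟨ha.2, le_rfl⟩).le)
        have h6 : C₀ * α (γ a) ≤ C₀ * B := mul_le_mul_of_nonneg_left (h3 a ha).2 hC₀
        have h7 : 0 ≤ ∫ s in a..1, α (γ s) * σ (γ s) := by
          refine intervalIntegral.integral_nonneg ha.2 fun s hs => ?_
          exact mul_nonneg (h3 s ⟨ha.1.trans hs.1, hs.2⟩).1 (hσ0 _)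
        have h8 : 0 ≤ C₀ ^ 2 * Λ / δ * ∫ s in a..1, α (γ s) * σ (γ s) := mul_nonneg hA h7
        linarith
      · push Not at hall
        -- first exit
        set T : Set ℝ := {s ∈ Icc a 1 | ∃ k ∈ Finset.range (n + 1),
          δ ≤ dist (g k (γ a)) (g k (γ s))} with hT
        have hTc : IsClosed T := by
          have : T = Icc a 1 ∩ ⋃ k ∈ Finset.range (n + 1),
              {s | δ ≤ dist (g k (γ a)) (g k (γ s))} := by
            ext s
            simp [hT]
          rw [this]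
          refine isClosed_Icc.inter ?_
          refine Set.Finite.isClosed_biUnion (Finset.finite_toSet _) fun k _ => ?_
          exact isClosed_le continuous_const (continuous_const.dist ((hg k).comp hγ))
        have hTb : BddBelow T := ⟨a, fun s hs => hs.1.1⟩
        have hTn : T.Nonempty := by
          obtain ⟨k, hk, s, hs, h5⟩ := hall
          exact ⟨s, hs, k, Finset.mem_range.2 (Nat.lt_succ_of_le hk), h5⟩
        set b : ℝ := sInf T with hb
        have hbT : b ∈ T := hTc.csInf_mem hTn hTb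
        obtain ⟨hbI, k₀, hk₀, hbk⟩ := hbT
        have hk₀' : k₀ ≤ n := Nat.lt_succ_iff.1 (Finset.mem_range.1 hk₀)
        have hb01 : b ∈ Icc (0 : ℝ) 1 := ⟨ha.1.trans hbI.1, hbI.2⟩
        have hlt : ∀ s ∈ Ico a b, ∀ k ≤ n, dist (g k (γ a)) (g k (γ s)) < δ := by
          intro s hs k hk
          by_contra hcon
          push Not at hcon
          have : s ∈ T := ⟨⟨hs.1, hs.2.le.trans hbI.2⟩, k,
            Finset.mem_range.2 (Nat.lt_succ_of_le hk), hcon⟩
          exact absurd (csInf_le hTb this) (not_le.2 hs.2)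
        have hab : a + τ ≤ b := by
          by_contra hcon
          push Not at hcon
          have h5 := hunif a ha b hb01 (by
            rw [abs_sub_comm, abs_of_nonneg (by linarith [hbI.1])]
            linarith) k₀ hk₀'
          linarith
        have hab' : a < b := by linarith
        have hle : ∀ s ∈ Icc a b, ∀ k ≤ n, dist (g k (γ a)) (g k (γ s)) ≤ δ := by
          intro s hs k hk
          have hcl : IsClosed {s | dist (g k (γ a)) (g k (γ s)) ≤ δ} :=
            isClosed_le (continuous_const.dist ((hg k).comp hγ)) continuous_const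
          have hsub : Icc a b ⊆ {s | dist (g k (γ a)) (g k (γ s)) ≤ δ} := by
            rw [← closure_Ico hab'.ne]
            exact hcl.closure_subset_iff.2 fun s hs => (hlt s hs k hk).le
          exact hsub hs
        have hsub01 : ∀ s ∈ Icc a b, s ∈ Icc (0 : ℝ) 1 := fun s hs =>
          ⟨ha.1.trans hs.1, hs.2.trans hbI.2⟩
        have hbb : b ∈ Icc a b := ⟨hab'.le, le_rfl⟩
        have h5 := ih b hb01 (by push_cast at hm; linarith)
        have h6 := h1 a ha b hb01 (hle b hbb)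
        have h7 := h4 a ha b hb01 hab'.le (hle b hbb) k₀ hk₀'
        have h8 : δ ≤ Λ * ∫ s in a..b, σ (γ s) := hbk.trans h7
        have h9 : α (γ a) * (∫ s in a..b, σ (γ s)) ≤ C₀ * ∫ s in a..b, α (γ s) * σ (γ s) := by
          rw [← intervalIntegral.integral_const_mul, ← intervalIntegral.integral_const_mul]
          refine intervalIntegral.integral_mono_on hab'.le
            ((continuous_const.mul hcσ).intervalIntegrable _ _)
            ((continuous_const.mul hcασ).intervalIntegrable _ _) fun s hs => ?_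
          have h10 := h2 a ha s (hsub01 s hs) (hle s hs)
          calc α (γ a) * σ (γ s) ≤ C₀ * α (γ s) * σ (γ s) :=
                mul_le_mul_of_nonneg_right h10 (hσ0 _)
            _ = _ := by ring
        have h10 : C₀ * α (γ a) ≤ C₀ ^ 2 * Λ / δ * ∫ s in a..b, α (γ s) * σ (γ s) := by
          have hα0 := (h3 a ha).1
          rw [div_mul_eq_mul_div, le_div_iff₀ hδ]
          calc C₀ * α (γ a) * δ ≤ C₀ * α (γ a) * (Λ * ∫ s in a..b, σ (γ s)) :=
                mul_le_mul_of_nonneg_left h8 (mul_nonneg hC₀ hα0)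
            _ = C₀ * Λ * (α (γ a) * ∫ s in a..b, σ (γ s)) := by ring
            _ ≤ C₀ * Λ * (C₀ * ∫ s in a..b, α (γ s) * σ (γ s)) :=
                mul_le_mul_of_nonneg_left h9 (mul_nonneg hC₀ hΛ)
            _ = _ := by ring
        have h11 : (∫ s in a..1, α (γ s) * σ (γ s))
            = (∫ s in a..b, α (γ s) * σ (γ s)) + ∫ s in b..1, α (γ s) * σ (γ s) :=
          (intervalIntegral.integral_add_adjacent_intervals
            (hcασ.intervalIntegrable _ _) (hcασ.intervalIntegrable _ _)).symm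
        have h12 : |F (γ 1) - F (γ a)| ≤ |F (γ 1) - F (γ b)| + |F (γ b) - F (γ a)| := by
          calc |F (γ 1) - F (γ a)| = |(F (γ 1) - F (γ b)) + (F (γ b) - F (γ a))| := by
                congr 1; ring
            _ ≤ _ := abs_add_le _ _
        rw [h11, mul_add]
        linarith
  obtain ⟨m, hm⟩ := exists_nat_ge (1 / τ)
  refine key m 0 ⟨le_rfl, zero_le_one⟩ ?_
  rw [div_le_iff₀ hτ] at hm
  linarith

/-! ### Growth along a path -/

section Growth

variable {M W : Type*} [MetricSpace M] [NormedAddCommGroup W] [NormedSpace ℝ W]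
  {E : Emb M W} {f : M ≃ₜ M} {s : Split E f}

theorem hasD_iter_approx [CompactSpace M] (s : Split E f) (n : ℕ) :
    ∀ η : ℝ, 0 < η → ∃ r : ℝ, 0 < r ∧ ∀ x z, dist z x < r →
      ‖E.e (f^[n] z) - E.e (f^[n] x) - iterD s.D f n x (E.e z - E.e x)‖ ≤ η * dist z x := by
  intro η hη
  cases n with
  | zero =>
    refine ⟨1, one_pos, fun x z _ => ?_⟩
    simp only [iterate_zero, id_eq, iterD, ContinuousLinearMap.id_apply, sub_self, norm_zero]
    positivity
  | succ n => exact (HasD.iter f.continuous s.hD n).approx η hη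

/-- The upper bound for the local expansion in unstable sets. -/
theorem exists_slope [CompactSpace M] (hs : s.Hyperbolic) {ε C l : ℝ}
    (hdec : Dec f.symm ε C l) (n : ℕ) (z : M) {η : ℝ} (hη : 0 < η) :
    ∃ r : ℝ, 0 < r ∧ ∀ z' ∈ Wl f.symm ε z, dist z' z < r →
      dist (f^[n] z') (f^[n] z) ≤ (‖iterD s.D f n z ∘L s.U z‖ + η) * dist z' z := by
  set Kn : ℝ := ‖iterD s.D f n z‖ with hKn
  have hKn0 : 0 ≤ Kn := norm_nonneg _
  set η₁ : ℝ := η / (1 + Kn) with hη₁
  have hη₁0 : 0 < η₁ := by positivity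
  obtain ⟨r₁, hr₁, h₁⟩ := hasD_iter_approx s n η₁ hη₁0
  obtain ⟨ε₂, hε₂, h₂⟩ := exists_cone s.swap hs.swap hη₁0
  have hC := hdec.one_le
  have hC0 : 0 < C := by linarith
  refine ⟨min r₁ (ε₂ / C), lt_min hr₁ (by positivity), fun z' hz' hd => ?_⟩
  have hd1 : dist z' z < r₁ := hd.trans_le (min_le_left _ _)
  have hd2 : dist z' z < ε₂ / C := hd.trans_le (min_le_right _ _)
  have hmem : z' ∈ Wl f.symm ε₂ z := by
    intro k
    refine (hdec.dec z z' hz' k).trans ?_
    have h3 : l ^ k ≤ 1 := pow_le_one₀ hdec.l_pos.le hdec.l_lt.le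
    have h4 : 0 ≤ l ^ k := pow_nonneg hdec.l_pos.le k
    have h5 : C * dist z' z < ε₂ := by rwa [lt_div_iff₀' hC0] at hd2
    have h6 : (0 : ℝ) ≤ dist z' z := dist_nonneg
    calc C * l ^ k * dist z' z ≤ C * 1 * dist z' z := by gcongr
      _ ≤ ε₂ := by rw [mul_one]; exact h5.le
  have e1 := h₁ z z' hd1
  have e2 := h₂ z z' hmem
  rw [Split.swap_S] at e2
  have hsplit : E.e (f^[n] z') - E.e (f^[n] z)
      = (E.e (f^[n] z') - E.e (f^[n] z) - iterD s.D f n z (E.e z' - E.e z))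
        + iterD s.D f n z (E.e z' - E.e z - s.U z (E.e z' - E.e z))
        + (iterD s.D f n z ∘L s.U z) (E.e z' - E.e z) := by
    simp only [map_sub, ContinuousLinearMap.comp_apply]
    abel
  rw [E.dist_eq, hsplit]
  have e3 : ‖iterD s.D f n z (E.e z' - E.e z - s.U z (E.e z' - E.e z))‖
      ≤ Kn * (η₁ * dist z' z) :=
    ((iterD s.D f n z).le_opNorm _).trans (mul_le_mul_of_nonneg_left e2 hKn0)
  have e4 : ‖(iterD s.D f n z ∘L s.U z) (E.e z' - E.e z)‖
      ≤ ‖iterD s.D f n z ∘L s.U z‖ * dist z' z := by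
    rw [E.dist_eq z' z]
    exact (iterD s.D f n z ∘L s.U z).le_opNorm _
  have e5 : η₁ * (1 + Kn) = η := by rw [hη₁]; field_simp
  calc _ ≤ η₁ * dist z' z + Kn * (η₁ * dist z' z)
        + ‖iterD s.D f n z ∘L s.U z‖ * dist z' z :=
        (norm_add_le _ _).trans (add_le_add ((norm_add_le _ _).trans (add_le_add e1 e3)) e4)
    _ = (‖iterD s.D f n z ∘L s.U z‖ + η₁ * (1 + Kn)) * dist z' z := by ring
    _ = _ := by rw [e5]

/-- The length of the image of a path. -/
theorem path_len [CompactSpace M] (hs : s.Hyperbolic) {ε C l : ℝ}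
    (hdec : Dec f.symm ε C l) (n : ℕ) {γ : ℝ → M} (hγ : Continuous γ) {Λ : ℝ}
    {a b : ℝ} (hab : a ≤ b)
    (hlip : ∀ t ∈ Icc a b, ∀ t' ∈ Icc a b, dist (γ t') (γ t) ≤ Λ * |t' - t|)
    (hmem : ∀ t ∈ Icc a b, ∀ t' ∈ Icc a b, γ t' ∈ Wl f.symm ε (γ t))
    (hΛ : 0 ≤ Λ) :
    dist (f^[n] (γ b)) (f^[n] (γ a))
      ≤ Λ * ∫ t in a..b, ‖iterD s.D f n (γ t) ∘L s.U (γ t)‖ := by
  have hσ : Continuous fun z : M => ‖iterD s.D f n z ∘L s.U z‖ :=
    ((continuous_iterD s.hD.cont f.continuous n).clm_comp (s.contU hs)).norm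
  have hσγ : Continuous fun t : ℝ => ‖iterD s.D f n (γ t) ∘L s.U (γ t)‖ := hσ.comp hγ
  have hge : Continuous fun t : ℝ => E.e (f^[n] (γ t)) - E.e (f^[n] (γ a)) := by
    have h1 : Continuous fun t : ℝ => E.e (f^[n] (γ t)) :=
      E.isom.continuous.comp ((f.continuous.iterate n).comp hγ)
    exact h1.sub continuous_const
  refine le_of_forall_pos_le_add fun η hη => ?_
  set η' : ℝ := η / (b - a + 1) with hη'
  have hba : 0 < b - a + 1 := by linarith
  have hη'0 : 0 < η' := by positivity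
  set B' : ℝ → ℝ := fun t => Λ * ‖iterD s.D f n (γ t) ∘L s.U (γ t)‖ + η' with hB'
  have hB'c : Continuous B' := by
    rw [hB']
    exact (continuous_const.mul hσγ).add continuous_const
  set B : ℝ → ℝ := fun t => ∫ t' in a..t, B' t' with hB
  have hBd : ∀ t, HasDerivAt B (B' t) t := fun t =>
    intervalIntegral.integral_hasDerivAt_right (hB'c.intervalIntegrable _ _)
      hB'c.aestronglyMeasurable.stronglyMeasurableAtFilter hB'c.continuousAt
  have key := image_norm_le_of_liminf_right_slope_norm_lt_deriv_boundary (a := a) (b := b)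
    (f := fun t => E.e (f^[n] (γ t)) - E.e (f^[n] (γ a)))
    (f' := fun t => Λ * ‖iterD s.D f n (γ t) ∘L s.U (γ t)‖) hge.continuousOn ?_
    (B := B) (B' := B') ?_ ?_ ?_ ?_ (x := b) ⟨hab, le_rfl⟩
  · rw [E.dist_eq]
    refine key.trans ?_
    rw [hB]
    simp only [hB']
    have i1 : IntervalIntegrable (fun t => Λ * ‖iterD s.D f n (γ t) ∘L s.U (γ t)‖) volume a b :=
      (continuous_const.mul hσγ).intervalIntegrable _ _
    have i2 : IntervalIntegrable (fun _ : ℝ => η') volume a b :=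
      continuous_const.intervalIntegrable _ _
    rw [intervalIntegral.integral_add i1 i2, intervalIntegral.integral_const_mul,
      intervalIntegral.integral_const, smul_eq_mul]
    have : (b - a) * η' ≤ η := by
      have h1 : (b - a + 1) * η' = η := by rw [hη']; field_simp
      nlinarith
    linarith
  · intro t ht r hr
    -- choose the constant
    have hr : Λ * ‖iterD s.D f n (γ t) ∘L s.U (γ t)‖ < r := hr
    set ζ : ℝ := (r - Λ * ‖iterD s.D f n (γ t) ∘L s.U (γ t)‖) / (2 * (Λ + 1)) with hζ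
    have hζ0 : 0 < ζ := by
      have : 0 < r - Λ * ‖iterD s.D f n (γ t) ∘L s.U (γ t)‖ := by linarith
      positivity
    obtain ⟨r₁, hr₁, h₁⟩ := exists_slope hs hdec n (γ t) hζ0
    refine Filter.Eventually.frequently ?_
    have hev : ∀ᶠ t' in 𝓝[>] t, dist (γ t') (γ t) < r₁ := by
      refine eventually_nhdsWithin_of_eventually_nhds ?_
      have hc : Continuous fun t' => dist (γ t') (γ t) := hγ.dist continuous_const
      have := hc.continuousAt (x := t)
      refine this.eventually (gt_mem_nhds ?_)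
      simpa using hr₁
    have hev2 : ∀ᶠ t' in 𝓝[>] t, t' ∈ Ioo t b := Ioo_mem_nhdsGT ht.2
    filter_upwards [hev, hev2] with t' h2 h3
    have htI : t ∈ Icc a b := ⟨ht.1, ht.2.le⟩
    have ht'I : t' ∈ Icc a b := ⟨ht.1.trans h3.1.le, h3.2.le⟩
    have h4 := h₁ (γ t') (hmem t htI t' ht'I) h2
    have h5 := hlip t htI t' ht'I
    have h6 : 0 < t' - t := sub_pos.2 h3.1
    rw [abs_of_pos h6] at h5
    rw [slope_def_field, div_lt_iff₀ h6]
    have h7 : ‖E.e (f^[n] (γ t')) - E.e (f^[n] (γ a))‖ - ‖E.e (f^[n] (γ t)) - E.e (f^[n] (γ a))‖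
        ≤ dist (f^[n] (γ t')) (f^[n] (γ t)) := by
      rw [E.dist_eq]
      refine (norm_sub_norm_le _ _).trans (le_of_eq ?_)
      congr 1
      abel
    have h8 : (‖iterD s.D f n (γ t) ∘L s.U (γ t)‖ + ζ) * dist (γ t') (γ t)
        ≤ (‖iterD s.D f n (γ t) ∘L s.U (γ t)‖ + ζ) * (Λ * (t' - t)) :=
      mul_le_mul_of_nonneg_left h5 (by positivity)
    have h9 : (‖iterD s.D f n (γ t) ∘L s.U (γ t)‖ + ζ) * Λ < r := by
      have h10 : ζ * (2 * (Λ + 1)) = r - Λ * ‖iterD s.D f n (γ t) ∘L s.U (γ t)‖ := by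
        rw [hζ]; field_simp
      nlinarith
    calc _ ≤ dist (f^[n] (γ t')) (f^[n] (γ t)) := h7
      _ ≤ (‖iterD s.D f n (γ t) ∘L s.U (γ t)‖ + ζ) * (Λ * (t' - t)) := h4.trans h8
      _ = ((‖iterD s.D f n (γ t) ∘L s.U (γ t)‖ + ζ) * Λ) * (t' - t) := by ring
      _ < r * (t' - t) := mul_lt_mul_of_pos_right h9 h6
  · simp [hB]
  · exact fun t _ => (hBd t).continuousAt.continuousWithinAt
  · exact fun t _ => (hBd t).hasDerivWithinAt
  · intro t _ _
    simp only [hB']
    linarith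

end Growth

/-- The radial retraction onto the ball of radius `r`. -/
theorem exists_ret {V : Type*} [NormedAddCommGroup V] [NormedSpace ℝ V] {r : ℝ} (hr : 0 < r) :
    ∃ ret : V → V, Continuous ret ∧ (∀ w, ‖ret w‖ ≤ r) ∧ ∀ w, ‖w‖ ≤ r → ret w = w := by
  have hm : ∀ w : V, 0 < max r ‖w‖ := fun w => lt_max_of_lt_left hr
  refine ⟨fun w => (r / max r ‖w‖) • w, ?_, ?_, ?_⟩
  · refine Continuous.smul ?_ continuous_id
    exact continuous_const.div (continuous_const.max continuous_norm) fun w => (hm w).ne'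
  · intro w
    rw [norm_smul, Real.norm_eq_abs, abs_of_nonneg (div_nonneg hr.le (hm w).le)]
    rw [div_mul_eq_mul_div, div_le_iff₀ (hm w)]
    exact mul_le_mul_of_nonneg_left (le_max_right _ _) hr.le
  · intro w hw
    simp only
    rw [max_eq_left hw, div_self hr.ne', one_smul]

end Len2

theorem len2 : SpecLen2.{u, v} := by
  classical
  intro M W _ _ _ _ _ E f s ε C l u d hs hcrd hdec hrank hu hd1 hpinch
  have hC := hcrd.one_le
  have hC0 : 0 < C := by linarith
  have hε := hcrd.ε_pos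
  obtain ⟨K, hK1, hK⟩ := s.exists_bdd
  have hK0 : 0 < K := by linarith
  obtain ⟨ρ₁, C₁, hρ₁, hP⟩ := hpinch
  refine ⟨min (ε / 4) ρ₁, lt_min (by positivity) hρ₁, fun ρ hρ hρ₀ => ?_⟩
  have hρε : 2 * ρ ≤ ε := by
    have := hρ₀.trans (min_le_left _ _)
    linarith
  have hρε' : ρ ≤ ε := by linarith
  have hρρ₁ : ρ ≤ ρ₁ := hρ₀.trans (min_le_right _ _)
  obtain ⟨r, hr, hsurj⟩ := hcrd.surj ρ hρ
  refine ⟨min ρ (r / (2 * K)), lt_min hρ (by positivity), min_le_left _ _, ?_⟩
  intro x α F C₀ l' δ hδ hδρ hl' hl1' hαc hα hdis hFα hsum y₀ hy₀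
  have hδε : δ ≤ ε := by
    have := hδρ.trans (min_le_left _ _)
    linarith
  have hδρ₁ : δ ≤ ρ₁ := hδρ.trans (min_le_right _ _)
  have hC₀ : 0 ≤ C₀ := by
    have h1 := hα 0 x
    rw [pow_zero, mul_one] at h1
    exact h1.1.trans h1.2
  -- the chart
  obtain ⟨θ, hθ, hθr⟩ : ∃ θ : EuclideanSpace ℝ (Fin u) →ₗᵢ[ℝ] W,
      (∀ w, s.U x (θ w) = θ w) ∧ ∀ w, ∃ v, θ v = s.U x w := by
    let b := (stdOrthonormalBasis ℝ ((s.U x).range)).reindex (finCongr (hrank x))
    refine ⟨((s.U x).range).subtypeₗᵢ.comp b.repr.symm.toLinearIsometry, fun w => ?_, fun w => ?_⟩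
    · obtain ⟨w', hw'⟩ := (b.repr.symm w).2
      have : ((s.U x).range).subtypeₗᵢ.comp b.repr.symm.toLinearIsometry w = s.U x w' := hw'.symm
      rw [this]
      exact s.UU_apply x w'
    · refine ⟨b.repr ⟨s.U x w, w, rfl⟩, ?_⟩
      simp
  obtain ⟨ret, hretc, hretn, hret⟩ := Len2.exists_ret (V := EuclideanSpace ℝ (Fin u)) hr
  have hpt : ∀ w : EuclideanSpace ℝ (Fin u), ∃ z,
      ‖w‖ ≤ r → z ∈ Wl f.symm ρ x ∧ s.U x (E.e z - E.e x) = θ w := by
    intro w
    by_cases hw : ‖w‖ ≤ r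
    · obtain ⟨z, hz, h⟩ := hsurj x (θ w) (hθ w) (by rw [θ.norm_map]; exact hw)
      exact ⟨z, fun _ => ⟨hz, h⟩⟩
    · exact ⟨x, fun h => absurd h hw⟩
  choose pt hpt using hpt
  have hlow : ∀ z ∈ Wl f.symm ρ x, ∀ z' ∈ Wl f.symm ρ x,
      dist z z' ≤ C * ‖s.U x (E.e z - E.e x) - s.U x (E.e z' - E.e x)‖ := by
    intro z hz z' hz'
    have h1 := hcrd.lower x z (Wl_mono hρε' hz) z' (Wl_mono hρε' hz')
    have h2 : s.U x (E.e z - E.e x) - s.U x (E.e z' - E.e x) = s.U x (E.e z - E.e z') := by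
      rw [← map_sub]
      congr 1
      abel
    rw [h2]
    exact h1
  have hptlip : ∀ w ∈ closedBall (0 : EuclideanSpace ℝ (Fin u)) r,
      ∀ w' ∈ closedBall (0 : EuclideanSpace ℝ (Fin u)) r,
      dist (pt w) (pt w') ≤ C * dist w w' := by
    intro w hw w' hw'
    rw [mem_closedBall, dist_zero_right] at hw hw'
    have h1 := hlow _ (hpt w hw).1 _ (hpt w' hw').1
    rw [(hpt w hw).2, (hpt w' hw').2, ← map_sub, θ.norm_map, ← dist_eq_norm] at h1
    exact h1
  have hptc : ContinuousOn pt (closedBall 0 r) := by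
    have : LipschitzOnWith (Real.toNNReal C) pt (closedBall 0 r) :=
      LipschitzOnWith.of_dist_le_mul fun w hw w' hw' => by
        rw [Real.coe_toNNReal C hC0.le]
        exact hptlip w hw w' hw'
    exact this.continuousOn
  set Ψ : EuclideanSpace ℝ (Fin u) → M := fun w => pt (ret w) with hΨ
  have hretm : ∀ w, ret w ∈ closedBall (0 : EuclideanSpace ℝ (Fin u)) r := fun w => by
    rw [mem_closedBall, dist_zero_right]
    exact hretn w
  have hΨc : Continuous Ψ := hptc.comp_continuous hretc hretm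
  have hΨm : ∀ w, Ψ w ∈ Wl f.symm ρ x := fun w => (hpt _ (hretn w)).1
  have hΨe : ∀ w, ‖w‖ ≤ r → s.U x (E.e (Ψ w) - E.e x) = θ w := by
    intro w hw
    have h1 := (hpt _ (hretn w)).2
    rw [hret w hw] at h1
    simp only [hΨ]
    rw [hret w hw]
    exact h1
  have hΨlip : ∀ w, ‖w‖ ≤ r → ∀ w', ‖w'‖ ≤ r → dist (Ψ w) (Ψ w') ≤ C * ‖w - w'‖ := by
    intro w hw w' hw'
    simp only [hΨ]
    rw [hret w hw, hret w' hw', ← dist_eq_norm]
    exact hptlip w (by rwa [mem_closedBall, dist_zero_right]) w'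
      (by rwa [mem_closedBall, dist_zero_right])
  have hchart : UChart s x ρ r θ Ψ := ⟨hθ, fun w _ => hΨm w, hΨe⟩
  have hxx : x ∈ Wl f.symm ρ x := mem_Wl_self hρ.le
  have hΨ0 : Ψ 0 = x := by
    have h1 := hlow _ (hΨm 0) x hxx
    rw [hΨe 0 (by rw [norm_zero]; exact hr.le), map_zero, sub_self, map_zero, sub_zero, norm_zero,
      mul_zero] at h1
    exact dist_le_zero.1 h1
  have hy₀ρ : y₀ ∈ Wl f.symm ρ x := Wl_mono (min_le_left _ _) hy₀
  obtain ⟨v₀, hv₀⟩ := hθr (E.e y₀ - E.e x)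
  have hv₀n : ‖v₀‖ ≤ r / 2 := by
    rw [← θ.norm_map, hv₀]
    have h1 := (s.U x).le_of_opNorm_le (hK x).2 (E.e y₀ - E.e x)
    rw [← E.dist_eq] at h1
    have h2 : dist y₀ x ≤ r / (2 * K) := (Wl_dist hy₀).trans (min_le_right _ _)
    calc _ ≤ K * dist y₀ x := h1
      _ ≤ K * (r / (2 * K)) := by gcongr
      _ = r / 2 := by field_simp
  have hv₀r : ‖v₀‖ ≤ r := hv₀n.trans (by linarith)
  have hΨv : Ψ v₀ = y₀ := by
    have h1 := hlow _ (hΨm v₀) y₀ hy₀ρ
    rw [hΨe v₀ hv₀r, hv₀, sub_self, norm_zero, mul_zero] at h1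
    exact dist_le_zero.1 h1
  -- the limit of the error terms
  have hlim : Tendsto (fun n : ℕ => C₀ * (C₀ * l' ^ n)) atTop (𝓝 0) := by
    have h1 := ((tendsto_pow_atTop_nhds_zero_of_lt_one hl'.le hl1').const_mul C₀).const_mul C₀
    simpa using h1
  -- continuity
  have hGc : Continuous fun w => F (Ψ w) := by
    rw [Metric.continuous_iff]
    intro w η hη
    obtain ⟨n, hn1, hn2⟩ := (hFα.and (hlim.eventually (gt_mem_nhds hη))).exists
    have hcont : ∀ᶠ w' in 𝓝 w, ∀ k ∈ Finset.range (n + 1),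
        dist (f^[k] (Ψ w')) (f^[k] (Ψ w)) < δ := by
      rw [Filter.eventually_all_finset]
      intro k _
      have h1 : Continuous fun w' => dist (f^[k] (Ψ w')) (f^[k] (Ψ w)) :=
        ((f.continuous.iterate k).comp hΨc).dist continuous_const
      have h2 := h1.tendsto w
      rw [dist_self] at h2
      exact h2.eventually (gt_mem_nhds hδ)
    obtain ⟨τ, hτ, hball⟩ := Metric.eventually_nhds_iff.1 hcont
    refine ⟨τ, hτ, fun w' hd => ?_⟩
    have h3 := hball hd
    have h4 := hn1 (Ψ w) (hΨm w) (Ψ w') (hΨm w') (fun k hk => by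
      rw [dist_comm]
      exact (h3 k (Finset.mem_range.2 (Nat.lt_succ_of_le hk))).le)
    rw [Real.dist_eq]
    calc |F (Ψ w') - F (Ψ w)| ≤ C₀ * α n (Ψ w) := h4
      _ ≤ C₀ * (C₀ * l' ^ n) := by
          have := (hα n (Ψ w)).2
          gcongr
      _ < η := hn2
  set Λ : ℝ := C * (C * ‖v₀‖) with hΛ
  have hΛ0 : 0 ≤ Λ := by positivity
  have hmain := Len2.core (volume : Measure (EuclideanSpace ℝ (Fin u))) hr (G := fun w => F (Ψ w))
    hGc hv₀n (A := C₀ ^ 2 * Λ / δ) (by positivity) hd1 ?_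
  · rw [hΨv, hΨ0] at hmain
    exact hmain
  intro η hη
  set C₁' : ℝ := max C₁ 0 with hC₁'
  have hC₁0 : 0 ≤ C₁' := le_max_right _ _
  set T : ℝ := C₀ ^ d * C₁' + 1 with hT
  have hT0 : 0 < T := by positivity
  obtain ⟨n, ⟨hn1, hn2⟩, hn3⟩ :=
    ((hFα.and (hsum (η / T) (by positivity))).and (hlim.eventually (gt_mem_nhds hη))).exists
  have hσc : Continuous fun z : M => ‖iterD s.D f n z ∘L s.U z‖ :=
    ((continuous_iterD s.hD.cont f.continuous n).clm_comp (s.contU hs)).norm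
  refine ⟨fun w => α n (Ψ w) * ‖iterD s.D f n (Ψ w) ∘L s.U (Ψ w)‖,
    ((hαc n).comp hΨc).mul (hσc.comp hΨc), fun w => mul_nonneg (hα n _).1 (norm_nonneg _), ?_, ?_⟩
  · -- the path estimate
    intro t ht
    have hγc : Continuous fun σ : ℝ => Ψ (t + σ • v₀) := hΨc.comp (by fun_prop)
    have hin : ∀ σ ∈ Icc (0 : ℝ) 1, ‖t + σ • v₀‖ ≤ r := by
      intro σ hσ
      calc ‖t + σ • v₀‖ ≤ ‖t‖ + ‖σ • v₀‖ := norm_add_le _ _
        _ ≤ r / 2 + r / 2 := by
            refine add_le_add ht ?_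
            rw [norm_smul, Real.norm_eq_abs, abs_of_nonneg hσ.1]
            calc σ * ‖v₀‖ ≤ 1 * ‖v₀‖ := mul_le_mul_of_nonneg_right hσ.2 (norm_nonneg _)
              _ ≤ r / 2 := by rw [one_mul]; exact hv₀n
        _ = r := by ring
    have hfin := Len2.path_main (fun k => f^[k]) n (fun k => f.continuous.iterate k)
      (γ := fun σ : ℝ => Ψ (t + σ • v₀)) hγc (F := F) (α := α n)
      (σ := fun z : M => ‖iterD s.D f n z ∘L s.U z‖) (hαc n) hσc (fun z => norm_nonneg _)
      (C₀ := C₀) (B := C₀ * l' ^ n) (Λ := Λ) (δ := δ) hδ hC₀ hΛ0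
      (fun a _ b _ h => hn1 _ (hΨm _) _ (hΨm _) h)
      (fun a _ b _ h => hdis n _ (hΨm _) _ (hΨm _) fun k hk => (h k hk).trans (by linarith))
      (fun a _ => hα n _) ?_
    · simp only [zero_smul, add_zero, one_smul] at hfin
      refine hfin.trans ?_
      gcongr
    · intro a ha b hb hab hclose k hk
      -- the points are close at time n, hence at all times
      have hpair : ∀ w w', Ψ w' ∈ Wl f.symm ε (Ψ w) := fun w w' =>
        Len.wl_pair f.symm hρε (hΨm w') (hΨm w)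
      have hpush : f^[n] (Ψ (t + a • v₀)) ∈ Wl f.symm ε (f^[n] (Ψ (t + b • v₀))) :=
        Len.wl_push f (hpair _ _) fun j hj => (hclose j hj).trans hδε
      have h1 := hdec.dec _ _ hpush (n - k)
      rw [symm_iterate_iterate_of_le f (Nat.sub_le n k),
        symm_iterate_iterate_of_le f (Nat.sub_le n k), Nat.sub_sub_self hk] at h1
      have h2 : l ^ (n - k) ≤ 1 := pow_le_one₀ hdec.l_pos.le hdec.l_lt.le
      have h3 : dist (f^[k] (Ψ (t + a • v₀))) (f^[k] (Ψ (t + b • v₀)))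
          ≤ C * dist (f^[n] (Ψ (t + a • v₀))) (f^[n] (Ψ (t + b • v₀))) := by
        refine h1.trans ?_
        have h4 : (0 : ℝ) ≤ dist (f^[n] (Ψ (t + a • v₀))) (f^[n] (Ψ (t + b • v₀))) := dist_nonneg
        calc _ ≤ C * 1 * dist (f^[n] (Ψ (t + a • v₀))) (f^[n] (Ψ (t + b • v₀))) := by gcongr
          _ = _ := by rw [mul_one]
      have hsub : ∀ σ ∈ Icc a b, σ ∈ Icc (0 : ℝ) 1 := fun σ hσ =>
        ⟨ha.1.trans hσ.1, hσ.2.trans hb.2⟩
      have h5 := Len2.path_len (s := s) hs hdec n (γ := fun σ : ℝ => Ψ (t + σ • v₀)) hγc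
        (Λ := C * ‖v₀‖) hab ?_ (fun _ _ _ _ => hpair _ _) (by positivity)
      · rw [dist_comm] at h5
        calc _ ≤ C * dist (f^[n] (Ψ (t + a • v₀))) (f^[n] (Ψ (t + b • v₀))) := h3
          _ ≤ C * (C * ‖v₀‖ * ∫ σ in a..b,
                ‖iterD s.D f n (Ψ (t + σ • v₀)) ∘L s.U (Ψ (t + σ • v₀))‖) :=
              mul_le_mul_of_nonneg_left h5 hC0.le
          _ = _ := by rw [hΛ]; ring
      · intro σ hσ σ' hσ'
        have h6 := hΨlip _ (hin σ' (hsub σ' hσ')) _ (hin σ (hsub σ hσ))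
        refine h6.trans (le_of_eq ?_)
        have h7 : t + σ' • v₀ - (t + σ • v₀) = (σ' - σ) • v₀ := by
          rw [sub_smul]; abel
        rw [h7, norm_smul, Real.norm_eq_abs]
        ring
  · -- the square integral
    obtain ⟨Y, hY, hYs, hYm⟩ := Len.exists_sep f n hδ (Ψ '' closedBall 0 r)
    have hYW : ∀ y ∈ Y, y ∈ Wl f.symm ρ x := by
      intro y hy
      obtain ⟨w, _, rfl⟩ := hY y hy
      exact hΨm w
    have hS := hn2 Y hYW hYs
    set Sy : M → Set (EuclideanSpace ℝ (Fin u)) := fun y =>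
      {w | ‖w‖ ≤ r ∧ ∀ k ≤ n, dist (f^[k] (Ψ w)) (f^[k] y) ≤ δ} with hSy
    have hSym : ∀ y, MeasurableSet (Sy y) := by
      intro y
      have : Sy y = {w | ‖w‖ ≤ r} ∩ ⋂ k ∈ Finset.range (n + 1),
          {w | dist (f^[k] (Ψ w)) (f^[k] y) ≤ δ} := by
        ext w
        simp [hSy]
      rw [this]
      refine IsClosed.measurableSet ?_
      refine (isClosed_le continuous_norm continuous_const).inter ?_
      refine isClosed_biInter fun k _ => ?_
      exact isClosed_le (((f.continuous.iterate k).comp hΨc).dist continuous_const)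
        continuous_const
    have hcov : closedBall (0 : EuclideanSpace ℝ (Fin u)) r ⊆ ⋃ y : Y, Sy y := by
      intro w hw
      obtain ⟨y, hy, h⟩ := hYm (Ψ w) (mem_image_of_mem _ hw)
      rw [mem_iUnion]
      rw [mem_closedBall, dist_zero_right] at hw
      exact ⟨⟨y, hy⟩, hw, h⟩
    have hterm : ∀ y : Y, ∫⁻ w in Sy y,
        ENNReal.ofReal ((α n (Ψ w) * ‖iterD s.D f n (Ψ w) ∘L s.U (Ψ w)‖) ^ d)
        ≤ ENNReal.ofReal (C₀ ^ d * α n y ^ d * C₁') := by
      intro y
      have hαy : 0 ≤ α n y := (hα n y).1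
      have hy := hYW y y.2
      have h1 := hP x ρ r θ Ψ hρ hρρ₁ hchart n y hy δ hδρ₁
      calc ∫⁻ w in Sy y, ENNReal.ofReal ((α n (Ψ w) * ‖iterD s.D f n (Ψ w) ∘L s.U (Ψ w)‖) ^ d)
          ≤ ∫⁻ w in Sy y, ENNReal.ofReal (C₀ ^ d * α n y ^ d) *
              ENNReal.ofReal (‖iterD s.D f n (Ψ w) ∘L s.U (Ψ w)‖ ^ d) := by
            refine setLIntegral_mono' (hSym y) fun w hw => ?_
            rw [← ENNReal.ofReal_mul (by positivity)]
            refine ENNReal.ofReal_le_ofReal ?_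
            have h2 := hdis n (Ψ w) (hΨm w) y hy fun k hk => (hw.2 k hk).trans (by linarith)
            have h3 := (hα n (Ψ w)).1
            calc (α n (Ψ w) * ‖iterD s.D f n (Ψ w) ∘L s.U (Ψ w)‖) ^ d
                = α n (Ψ w) ^ d * ‖iterD s.D f n (Ψ w) ∘L s.U (Ψ w)‖ ^ d := mul_pow _ _ _
              _ ≤ (C₀ * α n y) ^ d * ‖iterD s.D f n (Ψ w) ∘L s.U (Ψ w)‖ ^ d := by gcongr
              _ = _ := by rw [mul_pow]
        _ = ENNReal.ofReal (C₀ ^ d * α n y ^ d) * ∫⁻ w in Sy y,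
              ENNReal.ofReal (‖iterD s.D f n (Ψ w) ∘L s.U (Ψ w)‖ ^ d) := by
            rw [lintegral_const_mul]
            exact ((hσc.comp hΨc).pow d).measurable.ennreal_ofReal
        _ ≤ ENNReal.ofReal (C₀ ^ d * α n y ^ d) * ENNReal.ofReal C₁' := by
            gcongr
            exact h1.trans (ENNReal.ofReal_le_ofReal (le_max_left _ _))
        _ = _ := by rw [← ENNReal.ofReal_mul (by positivity)]
    calc ∫⁻ w in closedBall (0 : EuclideanSpace ℝ (Fin u)) r,
          ENNReal.ofReal ((α n (Ψ w) * ‖iterD s.D f n (Ψ w) ∘L s.U (Ψ w)‖) ^ d)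
        ≤ ∫⁻ w in ⋃ y : Y, Sy y,
          ENNReal.ofReal ((α n (Ψ w) * ‖iterD s.D f n (Ψ w) ∘L s.U (Ψ w)‖) ^ d) :=
          lintegral_mono_set hcov
      _ ≤ ∑' y : Y, ∫⁻ w in Sy y,
          ENNReal.ofReal ((α n (Ψ w) * ‖iterD s.D f n (Ψ w) ∘L s.U (Ψ w)‖) ^ d) :=
          lintegral_iUnion_le _ _
      _ ≤ ∑ y : Y, ENNReal.ofReal (C₀ ^ d * α n y ^ d * C₁') := by
          rw [tsum_fintype]
          exact Finset.sum_le_sum fun y _ => hterm y
      _ = ENNReal.ofReal (∑ y : Y, C₀ ^ d * α n y ^ d * C₁') := by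
          rw [ENNReal.ofReal_sum_of_nonneg]
          intro y _
          have hαy : 0 ≤ α n y := (hα n y).1
          positivity
      _ ≤ ENNReal.ofReal η := by
          refine ENNReal.ofReal_le_ofReal ?_
          rw [← Finset.sum_coe_sort Y (fun y => α n y ^ d)] at hS
          rw [← Finset.sum_mul, ← Finset.mul_sum]
          calc C₀ ^ d * (∑ y : Y, α n y ^ d) * C₁' ≤ C₀ ^ d * (η / T) * C₁' := by gcongr
            _ = (C₀ ^ d * C₁') * (η / T) := by ring
            _ ≤ T * (η / T) := by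
                gcongr
                rw [hT]
                linarith
            _ = η := by field_simp

end Pool.Agent.Lib.MP610fe3.Cf
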