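import Pool.Agent.Lib.MP_610fe3_an.Cf.Spec2
import Pool.Agent.Lib.MP_610fe3_an.Cf.Dec

/-!
# Module PINCH: integrated determinant pinching
-/

open Set Filter Function MeasureTheory
open scoped Topology

namespace Pool.Agent.Lib.MP610fe3.Cf

universe u v

namespace P45

/-! ### Lower bound for `normDet` -/

theorem normDet_lower {U V : Type*} [NormedAddCommGroup U] [InnerProductSpace ℝ U]
    [FiniteDimensional ℝ U] [NormedAddCommGroup V] [InnerProductSpace ℝ V]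
    [FiniteDimensional ℝ V] (f : U →ₗ[ℝ] V) {c : ℝ} (hc : 0 ≤ c)
    (h : ∀ v, c * ‖v‖ ≤ ‖f v‖) : c ^ Module.finrank ℝ U ≤ f.normDet := by
  rw [LinearMap.normDet_eq_prod_singularValues]
  have key : ∀ i ∈ Finset.range (Module.finrank ℝ U), c ≤ f.singularValues i := by
    intro i hi
    have hi' : i < Module.finrank ℝ U := Finset.mem_range.1 hi
    obtain ⟨v, hv⟩ := (f.hasEigenvalue_adjoint_comp_self_sq_singularValues hi').exists_hasEigenvector
    have hv1 := hv.apply_eq_smul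
    have hv0 : 0 < ‖v‖ := norm_pos_iff.2 hv.2
    have h1 : ‖f v‖ ^ 2 = f.singularValues i ^ 2 * ‖v‖ ^ 2 := by
      rw [← real_inner_self_eq_norm_sq, ← LinearMap.adjoint_inner_left]
      have h2 : (LinearMap.adjoint f) (f v) = (f.singularValues i ^ 2) • v := hv1
      rw [h2, real_inner_smul_left, real_inner_self_eq_norm_sq]
    have h2 : (c * ‖v‖) ^ 2 ≤ ‖f v‖ ^ 2 := by
      have := h v
      gcongr
    rw [h1, mul_pow] at h2
    have h3 : c ^ 2 ≤ f.singularValues i ^ 2 := le_of_mul_le_mul_right h2 (by positivity)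
    exact (abs_le_of_sq_le_sq' h3 (f.singularValues_nonneg i)).2
  calc c ^ Module.finrank ℝ U = ∏ _i ∈ Finset.range (Module.finrank ℝ U), c := by simp
    _ ≤ ∏ i ∈ Finset.range (Module.finrank ℝ U), f.singularValues i :=
      Finset.prod_le_prod (fun _ _ => hc) key

theorem normDet_congr_sub {U V : Type*} [NormedAddCommGroup U] [InnerProductSpace ℝ U]
    [NormedAddCommGroup V] [InnerProductSpace ℝ V] (g : U →ₗ[ℝ] V) {p q : Submodule ℝ U}
    [FiniteDimensional ℝ p] [FiniteDimensional ℝ q] (h : p = q) :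
    (g.domRestrict p).normDet = (g.domRestrict q).normDet := by
  subst h
  rfl

/-! ### Differentiability of iterates -/

section

variable {M W : Type*} [MetricSpace M] [CompactSpace M] [NormedAddCommGroup W]
  [NormedSpace ℝ W] {E : Emb M W} {f : M ≃ₜ M} (s : Split E f)

theorem approx_iter (n : ℕ) {η : ℝ} (hη : 0 < η) : ∃ r : ℝ, 0 < r ∧ ∀ x z, dist z x < r →
    ‖E.e (f^[n] z) - E.e (f^[n] x) - iterD s.D f n x (E.e z - E.e x)‖ ≤ η * dist z x := by
  cases n with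
  | zero =>
    refine ⟨1, one_pos, fun x z _ => ?_⟩
    simp only [iterate_zero, id_eq, iterD, ContinuousLinearMap.id_apply, sub_self, norm_zero]
    exact mul_nonneg hη.le dist_nonneg
  | succ n => exact (HasD.iter f.continuous s.hD n).approx η hη

end

section

variable {M W : Type*} [MetricSpace M] [CompactSpace M] [NormedAddCommGroup W]
  [InnerProductSpace ℝ W] [FiniteDimensional ℝ W] {E : Emb M W} {f : M ≃ₜ M} (s : Split E f)
  {u : ℕ}

/-- the linear coordinate change -/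
theorem exists_T {x p : M} {u : ℕ} (hdim : ∀ x, Module.finrank ℝ (s.U x).range = u)
    (θ : EuclideanSpace ℝ (Fin u) →ₗᵢ[ℝ] W) (hθ : ∀ w, s.U x (θ w) = θ w)
    (hN : ‖s.U x - s.U p‖ ≤ 1 / 2) :
    ∃ (A : W →L[ℝ] W) (T : EuclideanSpace ℝ (Fin u) →L[ℝ] W), (∀ v, ‖A v‖ ≤ 2 * ‖v‖) ∧
      (∀ w, s.U p (T w) = T w) ∧ (∀ w, s.U x (T w) = θ w) ∧
      (∀ w, T w = A (θ w)) ∧ ∀ v, s.U p v = v → v = A (s.U x v) := by
  set N := s.U x - s.U p with hNdef
  set B : W →L[ℝ] W := ContinuousLinearMap.id ℝ W + N with hB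
  have hBlow : ∀ v, ‖v‖ / 2 ≤ ‖B v‖ := by
    intro v
    have h1 : ‖N v‖ ≤ 1 / 2 * ‖v‖ := N.le_of_opNorm_le hN v
    have h2 : v = B v - N v := by
      rw [hB]; simp
    have h3 : ‖v‖ ≤ ‖B v‖ + ‖N v‖ := by
      conv_lhs => rw [h2]
      exact norm_sub_le _ _
    linarith
  have hBinj : Injective B.toLinearMap := by
    rw [injective_iff_map_eq_zero]
    intro v hv
    have h1 := hBlow v
    have h2 : B v = 0 := hv
    rw [h2, norm_zero] at h1
    have : ‖v‖ ≤ 0 := by linarith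
    exact norm_le_zero_iff.1 this
  let Be : W ≃ₗ[ℝ] W := LinearEquiv.ofInjectiveEndo B.toLinearMap hBinj
  have hBe : ∀ v, Be v = B v := fun v => rfl
  set A : W →L[ℝ] W := Be.symm.toLinearMap.toContinuousLinearMap with hA
  have hAB : ∀ v, A (B v) = v := fun v => by
    rw [← hBe]; exact Be.symm_apply_apply v
  have hBA : ∀ v, B (A v) = v := fun v => by
    rw [← hBe]; exact Be.apply_symm_apply v
  have hBU : ∀ v, s.U p v = v → B v = s.U x v := by
    intro v hv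
    rw [hB, hNdef]
    simp only [ContinuousLinearMap.add_apply, ContinuousLinearMap.id_apply,
      ContinuousLinearMap.sub_apply]
    rw [hv]; abel
  -- `Be` maps the range of `U p` onto the range of `U x`
  have hmap : (s.U p).range.map Be.toLinearMap = (s.U x).range := by
    apply Submodule.eq_of_le_of_finrank_eq
    · rintro _ ⟨v, hv, rfl⟩
      obtain ⟨w, rfl⟩ := hv
      refine ⟨s.U p w, ?_⟩
      exact (hBU _ (s.UU_apply p w)).symm
    · rw [LinearEquiv.finrank_map_eq, hdim, hdim]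
  have hAθ : ∀ w, s.U p (A (θ w)) = A (θ w) := by
    intro w
    have h1 : θ w ∈ (s.U x).range := ⟨θ w, hθ w⟩
    rw [← hmap] at h1
    obtain ⟨v, hv, hv'⟩ := h1
    obtain ⟨v0, rfl⟩ := hv
    have h2 : A (θ w) = s.U p v0 := by
      rw [← hv']
      exact hAB _
    rw [h2]
    exact s.UU_apply p v0
  refine ⟨A, A ∘L θ.toContinuousLinearMap, fun v => ?_, fun w => hAθ w, fun w => ?_,
    fun w => rfl, fun v hv => ?_⟩
  · have := hBlow (A v)
    rw [hBA] at this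
    linarith
  · change s.U x (A (θ w)) = θ w
    rw [← hBU _ (hAθ w), hBA]
  · rw [← hBU v hv, hAB]

/-- Lipschitz property of the chart and its inverse -/
theorem chart_lip {C : ℝ} {ε ρ r : ℝ} {x : M} (hc : Crd s.swap ε C) (hρ : ρ ≤ ε)
    {θ : EuclideanSpace ℝ (Fin u) →ₗᵢ[ℝ] W} {Ψ : EuclideanSpace ℝ (Fin u) → M}
    (hΨ : UChart s x ρ r θ Ψ) {w w' : EuclideanSpace ℝ (Fin u)} (hw : ‖w‖ ≤ r) (hw' : ‖w'‖ ≤ r) :
    s.U x (E.e (Ψ w) - E.e (Ψ w')) = θ (w - w') ∧ dist (Ψ w) (Ψ w') ≤ C * ‖w - w'‖ := by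
  have h1 : s.U x (E.e (Ψ w) - E.e (Ψ w')) = θ (w - w') := by
    have e : E.e (Ψ w) - E.e (Ψ w') = (E.e (Ψ w) - E.e x) - (E.e (Ψ w') - E.e x) := by abel
    rw [e, map_sub, hΨ.eq w hw, hΨ.eq w' hw', map_sub]
  refine ⟨h1, ?_⟩
  have h2 := hc.lower x (Ψ w) (Wl_mono hρ (hΨ.mem w hw)) (Ψ w') (Wl_mono hρ (hΨ.mem w' hw'))
  rw [Split.swap_S, h1, θ.norm_map] at h2
  exact h2

/-- derivative of the chart -/
theorem chart_deriv (hs : s.Hyperbolic) {C l : ℝ} {ε ρ r : ℝ} {x : M} (hc : Crd s.swap ε C)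
    (hd : Dec f.symm ε C l) (hρ : 2 * ρ ≤ ε) (hρ0 : 0 < ρ)
    {θ : EuclideanSpace ℝ (Fin u) →ₗᵢ[ℝ] W} {Ψ : EuclideanSpace ℝ (Fin u) → M}
    (hΨ : UChart s x ρ r θ Ψ) {w0 : EuclideanSpace ℝ (Fin u)} (hw0 : ‖w0‖ ≤ r)
    {A : W →L[ℝ] W} {T : EuclideanSpace ℝ (Fin u) →L[ℝ] W} (hA : ∀ v, ‖A v‖ ≤ 2 * ‖v‖)
    (hTA : ∀ w, T w = A (θ w)) (hAU : ∀ v, s.U (Ψ w0) v = v → v = A (s.U x v)) :
    HasFDerivWithinAt (fun w => E.e (Ψ w)) T {w | ‖w‖ ≤ r} w0 := by
  obtain ⟨K, hK1, hK⟩ := s.exists_bdd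
  have hC1 := hc.one_le
  rw [hasFDerivWithinAt_iff_isLittleO, Asymptotics.isLittleO_iff]
  intro c hcpos
  set η : ℝ := c / ((1 + 2 * K) * C) with hη
  have hηpos : 0 < η := by positivity
  obtain ⟨ε1, hε1, hcone⟩ := exists_cone s.swap hs.swap hηpos
  have hev : ∀ᶠ w in 𝓝[{w | ‖w‖ ≤ r}] w0, ‖w - w0‖ < ε1 / (C * C) := by
    have h1 : Tendsto (fun w => ‖w - w0‖) (𝓝[{w | ‖w‖ ≤ r}] w0) (𝓝 0) := by
      have h2 : Tendsto (fun w => ‖w - w0‖) (𝓝 w0) (𝓝 ‖w0 - w0‖) :=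
        (continuous_norm.comp (continuous_id.sub continuous_const)).tendsto w0
      rw [sub_self, norm_zero] at h2
      exact h2.mono_left nhdsWithin_le_nhds
    exact h1.eventually (gt_mem_nhds (by positivity))
  filter_upwards [hev, self_mem_nhdsWithin] with w hw hwr
  have hwr' : ‖w‖ ≤ r := hwr
  obtain ⟨hl1, hl2⟩ := chart_lip s hc (by linarith) hΨ hwr' hw0
  set z := Ψ w with hz
  set p := Ψ w0 with hp
  have hdz : dist z p ≤ C * ‖w - w0‖ := hl2
  have hmem : z ∈ Wl f.symm (ρ + ρ) p :=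
    Wl_trans (Wl_comm (hΨ.mem w0 hw0)) (hΨ.mem w hwr') |> fun h => by
      intro k
      exact h k
  have hmem' : z ∈ Wl f.symm ε p := Wl_mono (by linarith) hmem
  have hmem1 : z ∈ Wl f.symm ε1 p := by
    intro k
    have h1 := hd.dec p z hmem' k
    have h2 : C * l ^ k * dist z p ≤ C * dist z p := by
      have h3 : l ^ k ≤ 1 := pow_le_one₀ hd.l_pos.le hd.l_lt.le
      have h4 : 0 ≤ dist z p := dist_nonneg
      have h5 : C * l ^ k ≤ C * 1 := by gcongr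
      calc C * l ^ k * dist z p ≤ C * 1 * dist z p := by gcongr
        _ = C * dist z p := by ring
    have h6 : C * dist z p ≤ C * (C * ‖w - w0‖) := by gcongr
    have h7 : C * (C * ‖w - w0‖) ≤ ε1 := by
      have h8 : ‖w - w0‖ * (C * C) < ε1 := by
        rwa [lt_div_iff₀ (by positivity)] at hw
      nlinarith
    linarith
  have hR := hcone p z hmem1
  rw [Split.swap_S] at hR
  set R := E.e z - E.e p - s.U p (E.e z - E.e p) with hRdef
  have hv := hAU (s.U p (E.e z - E.e p)) (s.UU_apply p _)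
  have hUx : s.U x (s.U p (E.e z - E.e p)) = θ (w - w0) - s.U x R := by
    rw [← hl1, ← map_sub, hRdef]
    congr 1
    abel
  have hmain : E.e z - E.e p - T (w - w0) = R - A (s.U x R) := by
    have h1 : E.e z - E.e p = s.U p (E.e z - E.e p) + R := by rw [hRdef]; abel
    have hv' : s.U p (E.e z - E.e p) = T (w - w0) - A (s.U x R) := by
      rw [hUx] at hv
      rw [hTA, hv]
      exact ContinuousLinearMap.map_sub A _ _
    have h2 : E.e z - E.e p - T (w - w0) = s.U p (E.e z - E.e p) + R - T (w - w0) := by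
      rw [← h1]
    rw [h2, hv']
    abel
  change ‖E.e z - E.e p - T (w - w0)‖ ≤ c * ‖w - w0‖
  rw [hmain]
  have hK0 : 0 ≤ K := by linarith
  have h1 : ‖A (s.U x R)‖ ≤ 2 * (K * ‖R‖) :=
    (hA _).trans (by gcongr; exact (s.U x).le_of_opNorm_le (hK x).2 R)
  have h2 : ‖R‖ ≤ η * (C * ‖w - w0‖) := hR.trans (by gcongr)
  calc ‖R - A (s.U x R)‖ ≤ ‖R‖ + ‖A (s.U x R)‖ := norm_sub_le _ _
    _ ≤ ‖R‖ + 2 * (K * ‖R‖) := by gcongr
    _ = (1 + 2 * K) * ‖R‖ := by ring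
    _ ≤ (1 + 2 * K) * (η * (C * ‖w - w0‖)) := by gcongr
    _ = c * ‖w - w0‖ := by
      rw [hη]
      field_simp

/-- derivative of the chart composed with an iterate -/
theorem chart_deriv_iter {C : ℝ} {ε ρ r : ℝ} {x : M} (hc : Crd s.swap ε C) (hρ : ρ ≤ ε)
    {θ : EuclideanSpace ℝ (Fin u) →ₗᵢ[ℝ] W} {Ψ : EuclideanSpace ℝ (Fin u) → M}
    (hΨ : UChart s x ρ r θ Ψ) {w0 : EuclideanSpace ℝ (Fin u)} (hw0 : ‖w0‖ ≤ r)
    {T : EuclideanSpace ℝ (Fin u) →L[ℝ] W}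
    (hT : HasFDerivWithinAt (fun w => E.e (Ψ w)) T {w | ‖w‖ ≤ r} w0) (n : ℕ) :
    HasFDerivWithinAt (fun w => E.e (f^[n] (Ψ w))) (iterD s.D f n (Ψ w0) ∘L T)
      {w | ‖w‖ ≤ r} w0 := by
  have hC1 := hc.one_le
  have h1 : HasFDerivWithinAt (fun w => iterD s.D f n (Ψ w0) (E.e (Ψ w)))
      (iterD s.D f n (Ψ w0) ∘L T) {w | ‖w‖ ≤ r} w0 :=
    (iterD s.D f n (Ψ w0)).hasFDerivAt.comp_hasFDerivWithinAt w0 hT
  have h2 : HasFDerivWithinAt
      (fun w => E.e (f^[n] (Ψ w)) - iterD s.D f n (Ψ w0) (E.e (Ψ w)))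
      (0 : EuclideanSpace ℝ (Fin u) →L[ℝ] W) {w | ‖w‖ ≤ r} w0 := by
    rw [hasFDerivWithinAt_iff_isLittleO, Asymptotics.isLittleO_iff]
    intro c hcpos
    obtain ⟨r1, hr1, happ⟩ := approx_iter s n (show 0 < c / C by positivity)
    have hev : ∀ᶠ w in 𝓝[{w | ‖w‖ ≤ r}] w0, ‖w - w0‖ < r1 / C := by
      have h1 : Tendsto (fun w => ‖w - w0‖) (𝓝[{w | ‖w‖ ≤ r}] w0) (𝓝 0) := by
        have h2 : Tendsto (fun w => ‖w - w0‖) (𝓝 w0) (𝓝 ‖w0 - w0‖) :=
          (continuous_norm.comp (continuous_id.sub continuous_const)).tendsto w0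
        rw [sub_self, norm_zero] at h2
        exact h2.mono_left nhdsWithin_le_nhds
      exact h1.eventually (gt_mem_nhds (by positivity))
    filter_upwards [hev, self_mem_nhdsWithin] with w hw hwr
    have hwr' : ‖w‖ ≤ r := hwr
    obtain ⟨hl1, hl2⟩ := chart_lip s hc hρ hΨ hwr' hw0
    have hd1 : dist (Ψ w) (Ψ w0) < r1 := by
      rw [lt_div_iff₀ (by positivity)] at hw
      nlinarith
    have h3 := happ (Ψ w0) (Ψ w) hd1
    have e : E.e (f^[n] (Ψ w)) - iterD s.D f n (Ψ w0) (E.e (Ψ w))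
        - (E.e (f^[n] (Ψ w0)) - iterD s.D f n (Ψ w0) (E.e (Ψ w0)))
        - (0 : EuclideanSpace ℝ (Fin u) →L[ℝ] W) (w - w0)
        = E.e (f^[n] (Ψ w)) - E.e (f^[n] (Ψ w0))
          - iterD s.D f n (Ψ w0) (E.e (Ψ w) - E.e (Ψ w0)) := by
      have e2 := (iterD s.D f n (Ψ w0)).map_sub (E.e (Ψ w)) (E.e (Ψ w0))
      rw [e2, ContinuousLinearMap.zero_apply]
      abel
    rw [e]
    calc _ ≤ c / C * dist (Ψ w) (Ψ w0) := h3
      _ ≤ c / C * (C * ‖w - w0‖) := by gcongr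
      _ = c * ‖w - w0‖ := by field_simp
  have h3 := h2.add h1
  rw [zero_add] at h3
  refine h3.congr (fun w _ => ?_) ?_
  · simp
  · simp

/-- the closed set of the statement -/
theorem isClosed_set {C : ℝ} {ε ρ r : ℝ} {x : M} (hc : Crd s.swap ε C) (hρ : ρ ≤ ε)
    {θ : EuclideanSpace ℝ (Fin u) →ₗᵢ[ℝ] W} {Ψ : EuclideanSpace ℝ (Fin u) → M}
    (hΨ : UChart s x ρ r θ Ψ) (n : ℕ) (y : M) (δ : ℝ) :
    IsClosed {w | ‖w‖ ≤ r ∧ ∀ k ≤ n, dist (f^[k] (Ψ w)) (f^[k] y) ≤ δ} := by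
  have hC1 := hc.one_le
  have hcont : ContinuousOn Ψ {w | ‖w‖ ≤ r} := by
    have : LipschitzOnWith (Real.toNNReal C) Ψ {w | ‖w‖ ≤ r} := by
      refine LipschitzOnWith.of_dist_le_mul fun w hw w' hw' => ?_
      rw [Real.coe_toNNReal C (by linarith), dist_eq_norm w w']
      exact (chart_lip s hc hρ hΨ hw hw').2
    exact this.continuousOn
  have h1 : IsClosed {w : EuclideanSpace ℝ (Fin u) | ‖w‖ ≤ r} :=
    isClosed_le continuous_norm continuous_const
  have h2 : IsClosed {z : M | ∀ k ≤ n, dist (f^[k] z) (f^[k] y) ≤ δ} := by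
    have : {z : M | ∀ k ≤ n, dist (f^[k] z) (f^[k] y) ≤ δ}
        = ⋂ k ∈ Set.Iic n, {z : M | dist (f^[k] z) (f^[k] y) ≤ δ} := by
      ext z; simp
    rw [this]
    refine isClosed_biInter fun k _ => isClosed_le ?_ continuous_const
    exact (f.continuous.iterate k).dist continuous_const
  exact hcont.preimage_isClosed_of_isClosed h1 h2

theorem opNorm_pow_le {T : W →L[ℝ] W} {A : ℝ} (hA : 0 ≤ A) {d : ℕ}
    (h : ∀ v, ‖T v‖ ^ d ≤ A * ‖v‖ ^ d) : ‖T‖ ^ d ≤ A := by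
  rcases Nat.eq_zero_or_pos d with hd | hd
  · subst hd
    have := h 0
    simpa using this
  · have hd' : (d : ℝ) ≠ 0 := by exact_mod_cast hd.ne'
    have hpow : (A ^ (1 / (d : ℝ))) ^ d = A := by
      rw [← Real.rpow_natCast, ← Real.rpow_mul hA, one_div_mul_cancel hd', Real.rpow_one]
    have h0 : 0 ≤ A ^ (1 / (d : ℝ)) := Real.rpow_nonneg hA _
    have h1 : ‖T‖ ≤ A ^ (1 / (d : ℝ)) := by
      refine ContinuousLinearMap.opNorm_le_bound _ h0 fun v => ?_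
      refine le_of_pow_le_pow_left₀ hd.ne' (mul_nonneg h0 (norm_nonneg v)) ?_
      rw [mul_pow, hpow]
      exact h v
    calc ‖T‖ ^ d ≤ (A ^ (1 / (d : ℝ))) ^ d := pow_le_pow_left₀ (norm_nonneg _) h1 d
      _ = A := hpow

/-- lower bound of the determinant -/
theorem det_lower {x p y q : M} {n d : ℕ} {K C' : ℝ} (hK1 : 1 ≤ K) (hK : ∀ x, ‖s.U x‖ ≤ K)
    (hC' : 0 ≤ C') (hpin : Pin s d C')
    (hdim : ∀ x, Module.finrank ℝ (s.U x).range = u)
    (hq : q = f^[n] p)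
    {θ : EuclideanSpace ℝ (Fin u) →ₗᵢ[ℝ] W} {T : EuclideanSpace ℝ (Fin u) →L[ℝ] W}
    (hT1 : ∀ w, s.U p (T w) = T w) (hT2 : ∀ w, s.U x (T w) = θ w)
    {R : W →L[ℝ] EuclideanSpace ℝ (Fin u)} (hR : ∀ w, ‖R w‖ = ‖s.U y w‖)
    (hN : ‖s.U q - s.U y‖ ≤ 1 / 2) :
    ‖iterD s.D f n p ∘L s.U p‖ ^ d ≤
      C' * K ^ d * (2 * K) ^ u * |(R ∘L (iterD s.D f n p ∘L T)).det| := by
  have hK0 : 0 < K := by linarith
  set I := iterD s.D f n p with hI
  set nd := (I.toLinearMap.domRestrict (s.U p).range).normDet with hnd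
  have hnd0 : 0 ≤ nd := LinearMap.normDet_nonneg _
  -- operator norm
  have h1 : ‖I ∘L s.U p‖ ^ d ≤ C' * K ^ d * nd := by
    refine opNorm_pow_le (by positivity) fun v => ?_
    have h3 := hpin n p v
    rw [← hI, ← hnd] at h3
    have h4 : ‖s.U p v‖ ^ d ≤ (K * ‖v‖) ^ d := by
      have := (s.U p).le_of_opNorm_le (hK p) v
      gcongr
    calc ‖I (s.U p v)‖ ^ d ≤ C' * ‖s.U p v‖ ^ d * nd := h3
      _ ≤ C' * (K * ‖v‖) ^ d * nd := by gcongr
      _ = C' * K ^ d * nd * ‖v‖ ^ d := by rw [mul_pow]; ring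
  -- range of `T`
  have hTlow : ∀ w, K⁻¹ * ‖w‖ ≤ ‖T w‖ := by
    intro w
    have h2 : ‖s.U x (T w)‖ ≤ K * ‖T w‖ := (s.U x).le_of_opNorm_le (hK x) _
    rw [hT2, θ.norm_map] at h2
    rw [inv_mul_le_iff₀ hK0]
    exact h2
  have hTinj : Injective T.toLinearMap := by
    rw [injective_iff_map_eq_zero]
    intro w hw
    have h2 := hTlow w
    have h3 : T w = 0 := hw
    rw [h3, norm_zero] at h2
    have h4 : 0 < K⁻¹ := inv_pos.2 hK0
    have h5 : ‖w‖ ≤ 0 := by nlinarith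
    exact norm_le_zero_iff.1 h5
  have hTrange : T.toLinearMap.range = (s.U p).range := by
    apply Submodule.eq_of_le_of_finrank_eq
    · rintro _ ⟨w, rfl⟩
      exact ⟨T w, hT1 w⟩
    · rw [LinearMap.finrank_range_of_inj hTinj, hdim, finrank_euclideanSpace_fin]
  have hTnd : (K⁻¹) ^ u ≤ T.toLinearMap.normDet := by
    have := normDet_lower T.toLinearMap (c := K⁻¹) (by positivity) hTlow
    rwa [finrank_euclideanSpace_fin] at this
  have hIT : (I.toLinearMap ∘ₗ T.toLinearMap).normDet = nd * T.toLinearMap.normDet := by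
    rw [LinearMap.normDet_comp, hnd, normDet_congr_sub _ hTrange]
  -- the last factor
  have hRlow : ∀ v ∈ (I.toLinearMap ∘ₗ T.toLinearMap).range, 1 / 2 * ‖v‖ ≤ ‖R v‖ := by
    rintro _ ⟨w, rfl⟩
    set v := (I.toLinearMap ∘ₗ T.toLinearMap) w with hv
    have hv1 : v = I (T w) := rfl
    have hv2 : s.U q v = v := by
      rw [hv1, ← hT1 w, hI, s.iterDU_apply, ← hq, s.UU_apply]
    have h2 : ‖(s.U q - s.U y) v‖ ≤ 1 / 2 * ‖v‖ := (s.U q - s.U y).le_of_opNorm_le hN v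
    have h3 : v = (s.U q - s.U y) v + s.U y v := by
      rw [ContinuousLinearMap.sub_apply, hv2]; abel
    have h4 : ‖v‖ ≤ ‖(s.U q - s.U y) v‖ + ‖s.U y v‖ := by
      conv_lhs => rw [h3]
      exact norm_add_le _ _
    rw [hR]
    linarith
  have hRnd : (1 / 2 : ℝ) ^ u
      ≤ (R.toLinearMap.domRestrict (I.toLinearMap ∘ₗ T.toLinearMap).range).normDet := by
    have h2 := normDet_lower (R.toLinearMap.domRestrict (I.toLinearMap ∘ₗ T.toLinearMap).range)
      (c := 1 / 2) (by norm_num) (fun v => hRlow v v.2)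
    refine le_trans ?_ h2
    apply pow_le_pow_of_le_one (by norm_num) (by norm_num)
    have := LinearMap.finrank_range_le (I.toLinearMap ∘ₗ T.toLinearMap)
    rwa [finrank_euclideanSpace_fin] at this
  have hdet : |(R ∘L (I ∘L T)).det|
      = (R.toLinearMap.domRestrict (I.toLinearMap ∘ₗ T.toLinearMap).range).normDet
        * (nd * T.toLinearMap.normDet) := by
    rw [← hIT, ← LinearMap.normDet_comp, LinearMap.normDet_eq_abs_det]
    rfl
  have hlow : (1 / 2 : ℝ) ^ u * (nd * (K⁻¹) ^ u) ≤ |(R ∘L (I ∘L T)).det| := by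
    rw [hdet]
    exact mul_le_mul hRnd (mul_le_mul_of_nonneg_left hTnd hnd0) (by positivity)
      (LinearMap.normDet_nonneg _)
  calc ‖I ∘L s.U p‖ ^ d ≤ C' * K ^ d * nd := h1
    _ = C' * K ^ d * (2 * K) ^ u * ((1 / 2 : ℝ) ^ u * (nd * (K⁻¹) ^ u)) := by
      rw [mul_pow, inv_pow, one_div, inv_pow]
      field_simp
    _ ≤ C' * K ^ d * (2 * K) ^ u * |(R ∘L (I ∘L T)).det| := by gcongr

end

end P45

open P45 in
theorem specPinch : SpecPinch.{u, v} := by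
  intro M W _ _ _ _ _ E f s ε C l C' u d hs hc hd hdim hpin
  classical
  obtain ⟨K, hK1, hKb⟩ := s.exists_bdd
  have hK : ∀ x, ‖s.U x‖ ≤ K := fun x => (hKb x).2
  have hK0 : 0 < K := by linarith
  obtain ⟨r1, hr1, hU⟩ := exists_unif (s.contU hs) (show (0 : ℝ) < 1 / 2 by norm_num)
  have hε := hc.ε_pos
  have hC1 := hc.one_le
  set Cp := max C' 0 with hCp
  have hCp0 : 0 ≤ Cp := le_max_right _ _
  have hpin' : Pin s d Cp := by
    intro n x w
    refine (hpin n x w).trans ?_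
    have : 0 ≤ ((iterD s.D f n x).toLinearMap.domRestrict (s.U x).range).normDet :=
      LinearMap.normDet_nonneg _
    gcongr
    exact le_max_left _ _
  set ρ₁ := min (ε / 2) (r1 / 2) with hρ₁
  have hρ₁pos : 0 < ρ₁ := lt_min (by positivity) (by positivity)
  have hρ₁ε : ρ₁ ≤ ε / 2 := min_le_left _ _
  have hρ₁r : ρ₁ ≤ r1 / 2 := min_le_right _ _
  set C₂ : ℝ := Cp * K ^ d * (2 * K) ^ u with hC₂
  have hC₂0 : 0 ≤ C₂ := by positivity
  set vol : ℝ := (volume (Metric.closedBall (0 : EuclideanSpace ℝ (Fin u)) (K * ρ₁))).toReal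
    with hvol
  refine ⟨ρ₁, C₂ * vol, hρ₁pos, ?_⟩
  intro x ρ r θ Ψ hρ hρρ₁ hΨ n y hy δ hδ
  set S := {w | ‖w‖ ≤ r ∧ ∀ k ≤ n, dist (f^[k] (Ψ w)) (f^[k] y) ≤ δ} with hS
  have hSclosed : IsClosed S := isClosed_set s hc (by linarith) hΨ n y δ
  set yn := f^[n] y with hyn
  -- coordinates at `f^n y`
  let b : OrthonormalBasis (Fin u) ℝ (s.U yn).range :=
    (stdOrthonormalBasis ℝ (s.U yn).range).reindex (finCongr (hdim yn))
  let R : W →L[ℝ] EuclideanSpace ℝ (Fin u) :=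
    (b.repr.toLinearMap ∘ₗ (s.U yn).toLinearMap.rangeRestrict).toContinuousLinearMap
  have hR : ∀ w, ‖R w‖ = ‖s.U yn w‖ := fun w => b.repr.norm_map _
  -- the linear maps `T`
  have hT : ∀ w0 : EuclideanSpace ℝ (Fin u), ∃ T : EuclideanSpace ℝ (Fin u) →L[ℝ] W, ‖w0‖ ≤ r →
      (∀ w, s.U (Ψ w0) (T w) = T w) ∧ (∀ w, s.U x (T w) = θ w) ∧
      HasFDerivWithinAt (fun w => E.e (Ψ w)) T {w | ‖w‖ ≤ r} w0 := by
    intro w0
    by_cases hw0 : ‖w0‖ ≤ r
    · have hdist : dist x (Ψ w0) < r1 := by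
        have := Wl_dist (hΨ.mem w0 hw0)
        rw [dist_comm]
        linarith
      obtain ⟨A, T, hA1, hA2, hA3, hA4, hA5⟩ := exists_T s hdim θ hΨ.rng (hU (Ψ w0) x hdist)
      exact ⟨T, fun _ => ⟨hA2, hA3, chart_deriv s hs hc hd (by linarith) hρ hΨ hw0 hA1 hA4 hA5⟩⟩
    · exact ⟨0, fun h => absurd h hw0⟩
  choose T hT using hT
  set k : EuclideanSpace ℝ (Fin u) → EuclideanSpace ℝ (Fin u) :=
    fun w => R (E.e (f^[n] (Ψ w)) - E.e yn) with hk
  set k' : EuclideanSpace ℝ (Fin u) → EuclideanSpace ℝ (Fin u) →L[ℝ] EuclideanSpace ℝ (Fin u) :=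
    fun w => R ∘L (iterD s.D f n (Ψ w) ∘L T w) with hk'
  have hkd : ∀ w ∈ S, HasFDerivWithinAt k (k' w) S w := by
    intro w hw
    obtain ⟨hT1, hT2, hT3⟩ := hT w hw.1
    have h1 := chart_deriv_iter s hc (by linarith) hΨ hw.1 hT3 n
    have h2 := (R.hasFDerivAt (x := E.e (f^[n] (Ψ w)) - E.e yn)).comp_hasFDerivWithinAt w
      (h1.sub_const (E.e yn))
    exact h2.mono fun w' hw' => hw'.1
  have hkinj : InjOn k S := by
    intro w hw w' hw' hkk
    have h1 : R (E.e (f^[n] (Ψ w)) - E.e (f^[n] (Ψ w'))) = 0 := by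
      have e : E.e (f^[n] (Ψ w)) - E.e (f^[n] (Ψ w'))
          = (E.e (f^[n] (Ψ w)) - E.e yn) - (E.e (f^[n] (Ψ w')) - E.e yn) := by abel
      rw [e, map_sub, sub_eq_zero]
      exact hkk
    have hmem : ∀ v ∈ S, f^[n] (Ψ v) ∈ Wl f.symm ε yn := by
      intro v hv j
      rcases le_or_gt j n with hj | hj
      · rw [symm_iterate_iterate_of_le f hj, hyn, symm_iterate_iterate_of_le f hj]
        refine (hv.2 (n - j) (Nat.sub_le _ _)).trans ?_
        linarith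
      · obtain ⟨i, rfl⟩ := Nat.exists_eq_add_of_lt hj
        have e1 : ∀ a : M, f.symm^[n + i + 1] (f^[n] a) = f.symm^[i + 1] a := fun a => by
          rw [show n + i + 1 = (i + 1) + n by ring, iterate_add_apply f.symm (i + 1) n,
            symm_iterate_iterate]
        rw [hyn, e1, e1]
        have h2 := hΨ.mem v hv.1 (i + 1)
        have h3 := hy (i + 1)
        have h4 := dist_triangle_right (f.symm^[i + 1] (Ψ v)) (f.symm^[i + 1] y)
          (f.symm^[i + 1] x)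
        linarith
    have h2 : s.U yn (E.e (f^[n] (Ψ w)) - E.e (f^[n] (Ψ w'))) = 0 := by
      rw [← norm_eq_zero, ← hR, h1, norm_zero]
    have h3 := hc.lower yn _ (hmem w hw) _ (hmem w' hw')
    rw [Split.swap_S, h2, norm_zero, mul_zero] at h3
    have h4 : f^[n] (Ψ w) = f^[n] (Ψ w') := dist_le_zero.1 h3
    have h5 : Ψ w = Ψ w' := (f.injective.iterate n) h4
    have h6 : θ (w - w') = 0 := by
      rw [← (chart_lip s hc (by linarith) hΨ hw.1 hw'.1).1, h5, sub_self, map_zero]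
    have h7 : ‖w - w'‖ = 0 := by rw [← θ.norm_map, h6, norm_zero]
    exact sub_eq_zero.1 (norm_eq_zero.1 h7)
  have hint := lintegral_abs_det_fderiv_eq_addHaar_image volume hSclosed.measurableSet hkd hkinj
  have himage : k '' S ⊆ Metric.closedBall 0 (K * ρ₁) := by
    rintro _ ⟨w, hw, rfl⟩
    rw [mem_closedBall_zero_iff]
    have h1 : ‖k w‖ = ‖s.U yn (E.e (f^[n] (Ψ w)) - E.e yn)‖ := hR _
    rw [h1]
    refine ((s.U yn).le_of_opNorm_le (hK yn) _).trans ?_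
    have h2 : ‖E.e (f^[n] (Ψ w)) - E.e yn‖ ≤ δ := by
      rw [← E.dist_eq]
      exact hw.2 n le_rfl
    have h3 : ‖E.e (f^[n] (Ψ w)) - E.e yn‖ ≤ ρ₁ := h2.trans hδ
    gcongr
  have hbound : ∀ w ∈ S, ENNReal.ofReal (‖iterD s.D f n (Ψ w) ∘L s.U (Ψ w)‖ ^ d)
      ≤ ENNReal.ofReal C₂ * ENNReal.ofReal |(k' w).det| := by
    intro w hw
    obtain ⟨hT1, hT2, hT3⟩ := hT w hw.1
    rw [← ENNReal.ofReal_mul hC₂0]
    apply ENNReal.ofReal_le_ofReal
    have hdist : dist (f^[n] (Ψ w)) yn < r1 := by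
      have := hw.2 n le_rfl
      linarith
    exact det_lower s hK1 hK hCp0 hpin' hdim rfl hT1 hT2 hR (hU yn _ hdist)
  calc ∫⁻ w in S, ENNReal.ofReal (‖iterD s.D f n (Ψ w) ∘L s.U (Ψ w)‖ ^ d)
      ≤ ∫⁻ w in S, ENNReal.ofReal C₂ * ENNReal.ofReal |(k' w).det| :=
        setLIntegral_mono' hSclosed.measurableSet hbound
    _ = ENNReal.ofReal C₂ * ∫⁻ w in S, ENNReal.ofReal |(k' w).det| :=
        lintegral_const_mul' _ _ ENNReal.ofReal_ne_top
    _ = ENNReal.ofReal C₂ * volume (k '' S) := by rw [hint]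
    _ ≤ ENNReal.ofReal C₂ * volume (Metric.closedBall (0 : EuclideanSpace ℝ (Fin u)) (K * ρ₁)) := by
        gcongr
    _ = ENNReal.ofReal (C₂ * vol) := by
        rw [ENNReal.ofReal_mul hC₂0, hvol, ENNReal.ofReal_toReal]
        exact measure_closedBall_lt_top.ne

end Pool.Agent.Lib.MP610fe3.Cf
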