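import Pool.Agent.Lib.MP_610fe3_an.Cf.Spec2
import Pool.Agent.Lib.MP_610fe3_an.Cf.Basic
import Pool.Agent.Lib.MP_610fe3_an.Cf.Mfd2
import Pool.Agent.Lib.MP_610fe3_an.Gen.Split
import Pool.Agent.Lib.MP_610fe3_an.Cf.Pinch

/-!
# Module PINM: determinant pinching of the manifold gives determinant pinching of the splitting
-/

open Set Filter Function Bundle
open scoped Manifold ContDiff Topology

namespace Pool.Agent.Lib.MP610fe3.Cf

universe u v

namespace PinM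

theorem normDet_upper {U V : Type*} [NormedAddCommGroup U] [InnerProductSpace ℝ U]
    [FiniteDimensional ℝ U] [NormedAddCommGroup V] [InnerProductSpace ℝ V]
    [FiniteDimensional ℝ V] (f : U →ₗ[ℝ] V) {c : ℝ} (hc : 0 ≤ c)
    (h : ∀ v, ‖f v‖ ≤ c * ‖v‖) : f.normDet ≤ c ^ Module.finrank ℝ U := by
  rw [LinearMap.normDet_eq_prod_singularValues]
  have key : ∀ i ∈ Finset.range (Module.finrank ℝ U), f.singularValues i ≤ c := by
    intro i hi
    have hi' : i < Module.finrank ℝ U := Finset.mem_range.1 hi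
    obtain ⟨v, hv⟩ := (f.hasEigenvalue_adjoint_comp_self_sq_singularValues hi').exists_hasEigenvector
    have hv1 := hv.apply_eq_smul
    have hv0 : 0 < ‖v‖ := norm_pos_iff.2 hv.2
    have h1 : ‖f v‖ ^ 2 = f.singularValues i ^ 2 * ‖v‖ ^ 2 := by
      rw [← real_inner_self_eq_norm_sq, ← LinearMap.adjoint_inner_left]
      have h2 : (LinearMap.adjoint f) (f v) = (f.singularValues i ^ 2) • v := hv1
      rw [h2, real_inner_smul_left, real_inner_self_eq_norm_sq]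
    have h2 : ‖f v‖ ^ 2 ≤ (c * ‖v‖) ^ 2 := by
      have := h v
      gcongr
    rw [h1, mul_pow] at h2
    have h3 : f.singularValues i ^ 2 ≤ c ^ 2 := le_of_mul_le_mul_right h2 (by positivity)
    exact (abs_le_of_sq_le_sq' h3 hc).2
  calc ∏ i ∈ Finset.range (Module.finrank ℝ U), f.singularValues i
      ≤ ∏ _i ∈ Finset.range (Module.finrank ℝ U), c :=
        Finset.prod_le_prod (fun i _ => f.singularValues_nonneg i) key
    _ = c ^ Module.finrank ℝ U := by simp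

/-- Comparison of the Jacobians of conjugate maps. -/
theorem normDet_conj {X Y Z : Type*} [NormedAddCommGroup X] [InnerProductSpace ℝ X]
    [FiniteDimensional ℝ X] [NormedAddCommGroup Y] [InnerProductSpace ℝ Y]
    [NormedAddCommGroup Z] [InnerProductSpace ℝ Z] [FiniteDimensional ℝ Z]
    {c C : ℝ} (hc : 0 < c) (hc1 : c ≤ 1) (hC : 1 ≤ C)
    (d : X →ₗ[ℝ] Z) (hd : ∀ v, ‖d v‖ ≤ C * ‖v‖)
    (d' : Y →ₗ[ℝ] Z) (hd' : ∀ v, c * ‖v‖ ≤ ‖d' v‖) (B : X →ₗ[ℝ] Y) (A : Z →ₗ[ℝ] Z)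
    (h : ∀ v, A (d v) = d' (B v)) {m : ℕ} (hm : Module.finrank ℝ X ≤ m)
    (R : Submodule ℝ Z) (hR : R = LinearMap.range d) :
    c ^ m * B.normDet ≤ (A.domRestrict R).normDet * C ^ m := by
  subst hR
  have h1 : A ∘ₗ d = d' ∘ₗ B := LinearMap.ext h
  have h2 := LinearMap.normDet_comp d A
  have h3 := LinearMap.normDet_comp B d'
  rw [← h1, h2] at h3
  have h4 : c ^ m ≤ (d'.domRestrict (LinearMap.range B)).normDet := by
    have h5 := P45.normDet_lower (d'.domRestrict (LinearMap.range B)) (c := c) hc.le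
      (fun v => hd' v)
    refine le_trans ?_ h5
    refine pow_le_pow_of_le_one hc.le hc1 ?_
    exact (LinearMap.finrank_range_le B).trans hm
  have h6 : d.normDet ≤ C ^ m := by
    refine (normDet_upper d (by linarith) hd).trans ?_
    exact pow_le_pow_right₀ hC hm
  calc c ^ m * B.normDet ≤ (d'.domRestrict (LinearMap.range B)).normDet * B.normDet :=
        mul_le_mul_of_nonneg_right h4 (LinearMap.normDet_nonneg _)
    _ = (A.domRestrict (LinearMap.range d)).normDet * d.normDet := h3.symm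
    _ ≤ _ := mul_le_mul_of_nonneg_left h6 (LinearMap.normDet_nonneg _)

end PinM

open Gen Mfd

theorem specPinM : SpecPinM.{u, v} := by
  intro V _ _ _ N M _ _ _ _ _ _ E he hinj hP f hf s F hF d hdp
  obtain ⟨Cp, hCp⟩ := hdp
  obtain ⟨c₀, C₀, hc₀, hC₀, hn⟩ := exists_norm_bounds E.e he hinj
  have hfin : ∀ x : M, FiniteDimensional ℝ (TangentSpace 𝓘(ℝ, V) x) := fun x =>
    inferInstanceAs (FiniteDimensional ℝ V)
  have hinj' : ∀ x, Injective (dF V E.e x) := hinj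
  set c : ℝ := min c₀ 1 with hc
  set C : ℝ := max C₀ 1 with hC
  have hc0 : 0 < c := lt_min hc₀ one_pos
  have hc1 : c ≤ 1 := min_le_right _ _
  have hC1 : 1 ≤ C := le_max_right _ _
  have hn' : ∀ x (v : TangentSpace 𝓘(ℝ, V) x), c * ‖v‖ ≤ ‖dE V E.e x v‖ ∧
      ‖dE V E.e x v‖ ≤ C * ‖v‖ := by
    intro x v
    have h1 := hn x v
    rw [norm_tangentSpace_vectorSpace] at h1
    exact ⟨(mul_le_mul_of_nonneg_right (min_le_left _ _) (norm_nonneg _)).trans h1.1,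
      h1.2.trans (mul_le_mul_of_nonneg_right (le_max_left _ _) (norm_nonneg _))⟩
  have hDd : ∀ x (u : TangentSpace 𝓘(ℝ, V) x), s.D x (dE V E.e x u) =
      dE V E.e (f x) (mfderiv 𝓘(ℝ, V) 𝓘(ℝ, V) f x u) := by
    intro x u
    have he1 : ContMDiff 𝓘(ℝ, V) (𝓡 N) 1 E.e := he.of_le (by exact_mod_cast le_top)
    have h3 := mfderiv_comp (I := 𝓘(ℝ, V)) (I' := 𝓘(ℝ, V)) (I'' := 𝓡 N) (f := f) x
      (he1.mdifferentiable (by norm_num) (f x)) (hf.mdifferentiable (by norm_num) x)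
    rw [HasD_eq_KF E he hinj hP hf s.hD x]
    refine (KF_apply hinj' x u).trans ?_
    unfold dF
    rw [h3]
    rfl
  set m := Module.finrank ℝ V with hm
  refine ⟨C ^ d * max Cp 0 * (1 / c) ^ d * (C ^ m / c ^ m), fun n x w => ?_⟩
  have hw : s.U x w ∈ (s.U x).range := ⟨w, rfl⟩
  have hw' := hw
  rw [hF x] at hw'
  obtain ⟨v, hv, hvw⟩ := hw'
  have hvw' : dE V E.e x v = s.U x w := hvw
  have hit : ∀ v : TangentSpace 𝓘(ℝ, V) x, iterD s.D f n x (dE V E.e x v) =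
      dE V E.e (f^[n] x) (mfderiv 𝓘(ℝ, V) 𝓘(ℝ, V) (f^[n]) x v) :=
    fun v => iterD_dE he hf hDd n x v
  set B := (mfderiv 𝓘(ℝ, V) 𝓘(ℝ, V) (f^[n]) x).toLinearMap.domRestrict (F x) with hB
  have hnd : c ^ m * B.normDet ≤
      ((iterD s.D f n x).toLinearMap.domRestrict (s.U x).range).normDet * C ^ m := by
    refine PinM.normDet_conj hc0 hc1 hC1 ((dE V E.e x).domRestrict (F x))
      (fun v => (hn' x v).2) (dE V E.e (f^[n] x)) (fun v => (hn' _ v).1) B
      (iterD s.D f n x).toLinearMap (fun v => hit v) ?_ _ ?_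
    · exact Submodule.finrank_le (F x)
    · rw [hF x]
      ext z
      constructor
      · rintro ⟨v, hv, rfl⟩
        exact ⟨⟨v, hv⟩, rfl⟩
      · rintro ⟨⟨v, hv⟩, rfl⟩
        exact ⟨v, hv, rfl⟩
  have hcm : 0 < c ^ m := pow_pos hc0 m
  have hnd' : B.normDet ≤ (C ^ m / c ^ m) *
      ((iterD s.D f n x).toLinearMap.domRestrict (s.U x).range).normDet := by
    rw [div_mul_eq_mul_div, le_div_iff₀ hcm]
    linarith
  have h1 := hCp n x v hv
  have h2 : ‖v‖ ≤ 1 / c * ‖s.U x w‖ := by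
    rw [← hvw', one_div, inv_mul_eq_div, le_div_iff₀ hc0, mul_comm]
    exact (hn' x v).1
  have hBn : 0 ≤ B.normDet := LinearMap.normDet_nonneg _
  rw [← hvw', hit v, hvw']
  calc ‖dE V E.e (f^[n] x) (mfderiv 𝓘(ℝ, V) 𝓘(ℝ, V) (f^[n]) x v)‖ ^ d
      ≤ (C * ‖mfderiv 𝓘(ℝ, V) 𝓘(ℝ, V) (f^[n]) x v‖) ^ d := by
        have := (hn' _ (mfderiv 𝓘(ℝ, V) 𝓘(ℝ, V) (f^[n]) x v)).2
        gcongr
    _ = C ^ d * ‖mfderiv 𝓘(ℝ, V) 𝓘(ℝ, V) (f^[n]) x v‖ ^ d := mul_pow _ _ _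
    _ ≤ C ^ d * (Cp * ‖v‖ ^ d * B.normDet) := by gcongr
    _ ≤ C ^ d * (max Cp 0 * ‖v‖ ^ d * B.normDet) := by
        gcongr
        exact le_max_left _ _
    _ ≤ C ^ d * (max Cp 0 * (1 / c * ‖s.U x w‖) ^ d * ((C ^ m / c ^ m) *
      ((iterD s.D f n x).toLinearMap.domRestrict (s.U x).range).normDet)) := by
        have h3 : 0 ≤ max Cp 0 := le_max_right _ _
        gcongr
    _ = _ := by rw [mul_pow]; ring

end Pool.Agent.Lib.MP610fe3.Cf
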