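import Pool.Agent.Lib.MP_610fe3_an.Cf.Spec2

/-!
# Third phase: conformal stable bundle of any dimension at least two

The holomorphy of the holonomies (dimension two) is replaced by the rigidity of `C^1` conformal
maps in dimension at least three (Liouville). Here `EV d` is the Euclidean space.

Plan for the rigidity, for a `C^1` conformal map `H` with conformal factor `lam`:
WEAK (the components of `H` are `d`-harmonic), CACC (the derivative of `H` has difference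
quotients bounded in `L^2`), MOLL (mollification), ALG (`lam⁻¹` has weak mixed second
derivatives zero), QUAD (so `lam⁻¹` is a quadratic polynomial, in particular Lipschitz with
uniform constants), ISOM (a constant conformal factor implies that `H` is affine).
-/

open Set Filter Function MeasureTheory Bundle
open scoped Topology Manifold ContDiff InnerProductSpace

namespace Pool.Agent.Lib.MP610fe3.Cf

universe u v

/-- Euclidean space. -/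
abbrev EV (d : ℕ) : Type := EuclideanSpace ℝ (Fin d)

/-- An injective `C^1` conformal map of the ball of radius `r`, the conformal factor being between
`m` and `Mx`. -/
structure CMap (d : ℕ) (r m Mx : ℝ) (H : EV d → EV d) (H' : EV d → EV d →L[ℝ] EV d)
    (lam : EV d → ℝ) : Prop where
  r_pos : 0 < r
  m_pos : 0 < m
  deriv : ∀ z ∈ Metric.ball (0 : EV d) r, HasFDerivAt H (H' z) z
  cont : ContinuousOn H' (Metric.ball (0 : EV d) r)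
  inj : InjOn H (Metric.ball (0 : EV d) r)
  bound : ∀ z ∈ Metric.ball (0 : EV d) r, m ≤ lam z ∧ lam z ≤ Mx
  conf : ∀ z ∈ Metric.ball (0 : EV d) r, ∀ v, ‖H' z v‖ = lam z * ‖v‖

/-- Rigidity of conformal maps. -/
def ConfRig (d : ℕ) : Prop :=
  ∀ r m Mx : ℝ, 0 < r → 0 < m → ∃ C r' : ℝ, 0 < r' ∧ r' ≤ r ∧
    ∀ (H : EV d → EV d) (H' : EV d → EV d →L[ℝ] EV d) (lam : EV d → ℝ),
    CMap d r m Mx H H' lam →
    (∀ z, ‖z‖ < r' → |Real.log (lam z) - Real.log (lam 0)| ≤ C * ‖z‖) ∧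
    ((∀ z ∈ Metric.ball (0 : EV d) r, lam z = lam 0) → ∀ z, ‖z‖ < r' → H z = H 0 + H' 0 z)

/-- The components of `H` are `d`-harmonic (conclusion of WEAK). -/
def WeakEq (d : ℕ) (r : ℝ) (H' : EV d → EV d →L[ℝ] EV d) (lam : EV d → ℝ) : Prop :=
  ∀ η : EV d → ℝ, ContDiff ℝ 1 η → HasCompactSupport η → tsupport η ⊆ Metric.ball 0 r →
    ∀ e : EV d, ∫ x, lam x ^ (d - 2) * fderiv ℝ η x (ContinuousLinearMap.adjoint (H' x) e) = 0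

/-- A compactly supported `C^1` map, conformal on the ball of radius `ρ`, such that the difference
quotients of its derivative are bounded in `L^2` (conclusion of CACC). -/
structure CutMap (d : ℕ) (ρ m Mx C : ℝ) (G : EV d → EV d) (lam : EV d → ℝ) : Prop where
  ρ_pos : 0 < ρ
  m_pos : 0 < m
  contDiff : ContDiff ℝ 1 G
  supp : HasCompactSupport G
  bound : ∀ z ∈ Metric.ball (0 : EV d) ρ, m ≤ lam z ∧ lam z ≤ Mx
  conf : ∀ z ∈ Metric.ball (0 : EV d) ρ, ∀ v, ‖fderiv ℝ G z v‖ = lam z * ‖v‖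
  nik : ∀ h : EV d, ∫ x, ‖fderiv ℝ G (x + h) - fderiv ℝ G x‖ ^ 2 ≤ C * ‖h‖ ^ 2

/-- Smooth approximations (conclusion of MOLL). -/
structure Approx (d : ℕ) (ρ : ℝ) (lam : EV d → ℝ) (C : ℝ) (G : ℕ → EV d → EV d)
    (φ : ℕ → EV d → ℝ) : Prop where
  C_pos : 0 < C
  smG : ∀ k, ContDiff ℝ ∞ (G k)
  smφ : ∀ k, ContDiff ℝ ∞ (φ k)
  bφ : ∀ k, ∀ x ∈ Metric.ball (0 : EV d) ρ, C⁻¹ ≤ φ k x ∧ φ k x ≤ C
  bG : ∀ k, ∀ x ∈ Metric.ball (0 : EV d) ρ, ‖fderiv ℝ (G k) x‖ ≤ C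
  L2G : ∀ k, ∫ x in Metric.ball (0 : EV d) ρ, ‖fderiv ℝ (fderiv ℝ (G k)) x‖ ^ 2 ≤ C
  L2φ : ∀ k, ∫ x in Metric.ball (0 : EV d) ρ, ‖fderiv ℝ (φ k) x‖ ^ 2 ≤ C
  conf0 : ∀ η : ℝ, 0 < η → ∀ᶠ k in atTop, ∀ x ∈ Metric.ball (0 : EV d) ρ, ∀ u v : EV d,
    |⟪fderiv ℝ (G k) x u, fderiv ℝ (G k) x v⟫_ℝ - φ k x * ⟪u, v⟫_ℝ| ≤ η * ‖u‖ * ‖v‖
  conf1 : ∀ u v : EV d, Tendsto (fun k => ∫ x in Metric.ball (0 : EV d) ρ,
    ‖fderiv ℝ (fun y => ⟪fderiv ℝ (G k) y u, fderiv ℝ (G k) y v⟫_ℝ - φ k y * ⟪u, v⟫_ℝ) x‖ ^ 2)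
    atTop (𝓝 0)
  lim : ∀ x ∈ Metric.ball (0 : EV d) ρ, Tendsto (fun k => φ k x) atTop (𝓝 (lam x ^ 2))

/-- Weak vanishing of the mixed second derivatives on the ball of radius `ρ`. -/
def MixZero (d : ℕ) (ρ : ℝ) (w : EV d → ℝ) : Prop :=
  ∀ θ : EV d → ℝ, ContDiff ℝ ∞ θ → HasCompactSupport θ → tsupport θ ⊆ Metric.ball 0 ρ →
    ∀ a c : EV d, ‖a‖ = 1 → ‖c‖ = 1 → ⟪a, c⟫_ℝ = 0 →
    ∫ x, w x * fderiv ℝ (fderiv ℝ θ) x a c = 0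

/-! ### Statements of the modules -/

/-- WEAK -/
def SpecWeak : Prop :=
  ∀ (d : ℕ) (r m Mx : ℝ) (H : EV d → EV d) (H' : EV d → EV d →L[ℝ] EV d) (lam : EV d → ℝ),
    2 ≤ d → CMap d r m Mx H H' lam → WeakEq d r H' lam

/-- CACC -/
def SpecCacc : Prop :=
  ∀ (d : ℕ) (r m Mx ρ : ℝ) (H : EV d → EV d) (H' : EV d → EV d →L[ℝ] EV d) (lam : EV d → ℝ),
    2 ≤ d → CMap d r m Mx H H' lam → WeakEq d r H' lam → 0 < ρ → ρ < r →
    ∃ (C : ℝ) (G : EV d → EV d), CutMap d ρ m Mx C G lam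

/-- MOLL -/
def SpecMoll : Prop :=
  ∀ (d : ℕ) (ρ' ρ m Mx C : ℝ) (G : EV d → EV d) (lam : EV d → ℝ),
    1 ≤ d → CutMap d ρ' m Mx C G lam → 0 < ρ → ρ < ρ' →
    ∃ (C' : ℝ) (Gk : ℕ → EV d → EV d) (φk : ℕ → EV d → ℝ), Approx d ρ lam C' Gk φk

/-- ALG -/
def SpecAlg : Prop :=
  ∀ (d : ℕ) (ρ C : ℝ) (lam : EV d → ℝ) (G : ℕ → EV d → EV d) (φ : ℕ → EV d → ℝ),
    3 ≤ d → 0 < ρ → (∀ z ∈ Metric.ball (0 : EV d) ρ, 0 < lam z) → Approx d ρ lam C G φ →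
    MixZero d ρ (fun x => (lam x)⁻¹)

/-- QUAD -/
def SpecQuad : Prop :=
  ∀ (d : ℕ) (ρ B : ℝ), 2 ≤ d → 0 < ρ → ∃ C : ℝ, ∀ w : EV d → ℝ,
    ContinuousOn w (Metric.ball 0 ρ) → (∀ z ∈ Metric.ball (0 : EV d) ρ, |w z| ≤ B) →
    MixZero d ρ w → ∀ z, ‖z‖ < ρ / 2 → |w z - w 0| ≤ C * ‖z‖

/-- ISOM -/
def SpecIsom : Prop :=
  ∀ (d : ℕ) (r m Mx : ℝ) (H : EV d → EV d) (H' : EV d → EV d →L[ℝ] EV d) (lam : EV d → ℝ),
    CMap d r m Mx H H' lam → (∀ z ∈ Metric.ball (0 : EV d) r, lam z = lam 0) →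
    ∀ z ∈ Metric.ball (0 : EV d) r, H z = H 0 + H' 0 z

/-- HOLON -/
def SpecHoloN : Prop :=
  ∀ (M : Type u) (W : Type v) [MetricSpace M] [CompactSpace M] [NormedAddCommGroup W]
    [NormedSpace ℝ W] [FiniteDimensional ℝ W] (E : Emb M W) (f : M ≃ₜ M) (s : Split E f)
    (c : Conf s) (ε C l ε' : ℝ) (ψ : M → M → W) (Q : M → M → W →L[ℝ] W) (q : M → M → ℝ)
    (P : M → M → W →L[ℝ] W) (p : M → M → ℝ) (d : ℕ), Pack c ε C l ψ Q q P p → Dif f ψ P ε' →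
    (∀ x, Module.finrank ℝ (s.S x).range = d) → ConfRig d →
    ∃ ε₁ ε₂ ε₃ C' : ℝ, ε₁ ≤ ε ∧ Hlo f ψ P p q ε₁ ε₂ ε₃ C'

/-- `Df` commutes with the isometric complex structures `J x` of the tangent spaces. -/
structure PseudoHol {V : Type*} [NormedAddCommGroup V] [NormedSpace ℝ V]
    {M : Type*} [TopologicalSpace M] [ChartedSpace V M]
    [RiemannianBundle (fun x : M => TangentSpace 𝓘(ℝ, V) x)]
    (f : M → M) (J : ∀ x : M, TangentSpace 𝓘(ℝ, V) x →L[ℝ] TangentSpace 𝓘(ℝ, V) x) : Prop where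
  sq : ∀ x (v : TangentSpace 𝓘(ℝ, V) x), J x (J x v) = -v
  norm : ∀ x (v : TangentSpace 𝓘(ℝ, V) x), ‖J x v‖ = ‖v‖
  comm : ∀ x (v : TangentSpace 𝓘(ℝ, V) x), mfderiv 𝓘(ℝ, V) 𝓘(ℝ, V) f x (J x v) =
    J (f x) (mfderiv 𝓘(ℝ, V) 𝓘(ℝ, V) f x v)

/-- HOLPIN -/
def SpecHolPin : Prop :=
  ∀ (V : Type v) [NormedAddCommGroup V] [NormedSpace ℝ V] [FiniteDimensional ℝ V]
    (M : Type u) [TopologicalSpace M] [CompactSpace M] [T2Space M] [ChartedSpace V M]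
    [IsManifold 𝓘(ℝ, V) ∞ M]
    [RiemannianBundle (fun x : M => TangentSpace 𝓘(ℝ, V) x)]
    [IsContinuousRiemannianBundle V (fun x : M => TangentSpace 𝓘(ℝ, V) x)]
    (f : M ≃ₘ^1⟮𝓘(ℝ, V), 𝓘(ℝ, V)⟯ M)
    (Es Eu : ∀ x : M, Submodule ℝ (TangentSpace 𝓘(ℝ, V) x))
    (J : ∀ x : M, TangentSpace 𝓘(ℝ, V) x →L[ℝ] TangentSpace 𝓘(ℝ, V) x),
    Gen.IsAnosovSplitting f Es Eu → PseudoHol f J →
    ((∀ x, Module.finrank ℝ (Es x) = 2) → ConformalOn f Es) ∧ DetPinched 2 f Eu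

/-- CONFPIN -/
def SpecConfPin : Prop :=
  ∀ (V : Type v) [NormedAddCommGroup V] [NormedSpace ℝ V] [FiniteDimensional ℝ V]
    (M : Type u) [TopologicalSpace M] [CompactSpace M] [T2Space M] [ChartedSpace V M]
    [IsManifold 𝓘(ℝ, V) ∞ M]
    [RiemannianBundle (fun x : M => TangentSpace 𝓘(ℝ, V) x)]
    [IsContinuousRiemannianBundle V (fun x : M => TangentSpace 𝓘(ℝ, V) x)]
    (f : M ≃ₘ^1⟮𝓘(ℝ, V), 𝓘(ℝ, V)⟯ M)
    (Es Eu : ∀ x : M, Submodule ℝ (TangentSpace 𝓘(ℝ, V) x)) (d : ℕ),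
    Gen.IsAnosovSplitting f Es Eu → ConformalOn f Eu →
    (∀ x, d ≤ Module.finrank ℝ (Eu x)) → DetPinched d f Eu

end Pool.Agent.Lib.MP610fe3.Cf
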