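import Pool.Agent.Lib.MP_610fe3_an.Cf.Spec2
import Pool.Agent.Lib.MP_610fe3_an.Cf.Basic
import Pool.Agent.Lib.MP_610fe3_an.Cf.Vanish

/-!
# Module VANISH2: the cross ratio like invariant vanishes over wandering points
-/

open Set Filter Function MeasureTheory
open scoped Topology

namespace Pool.Agent.Lib.MP610fe3.Cf

universe u v

open H1

theorem specVanish2 : SpecVanish2.{u, v} := by
  intro M W _ _ _ _ _ E f s c ε C l ψ Q q P p ε₁ ε₂ ε₃ C' d hk hε₁ hh hsum hlen U hU x hxB hxA
  obtain ⟨ρs, hρs, hS⟩ := hsum U hU x hxB hxA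
  obtain ⟨ρ₀, hρ₀, hL⟩ := hlen
  have hε₃ := hh.pos
  have hε₂ : 0 < ε₂ := hε₃.trans_le hh.le32
  have hε₁pos : 0 < ε₁ := by linarith [hh.le21]
  have h21 : ε₂ ≤ ε₁ / 4 := by linarith [hh.le21]
  set ρ : ℝ := min (min ρ₀ ρs) (ε₂ / 2) with hρdef
  have hρ : 0 < ρ := lt_min (lt_min hρ₀ hρs) (by positivity)
  have hρ1 : ρ ≤ ρ₀ := (min_le_left _ _).trans (min_le_left _ _)
  have hρ2 : ρ ≤ ρs := (min_le_left _ _).trans (min_le_right _ _)
  have hρ3 : ρ ≤ ε₂ / 2 := min_le_right _ _
  obtain ⟨ρ', hρ', hρ'ρ, hL'⟩ := hL ρ hρ hρ1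
  refine ⟨ρ', hρ', by linarith, fun y hy z hz z' hz'1 hz'2 => ?_⟩
  -- the bracket
  classical
  have hex : ∀ y : M, ∃ w : M, y ∈ Wl f.symm ε₂ x → w ∈ Wl f (ε₁ / 4) y ∧
      w ∈ Wl f.symm (ε₁ / 4) z := by
    intro y
    by_cases hy : y ∈ Wl f.symm ε₂ x
    · obtain ⟨w, hw⟩ := hh.exist x y hy z hz
      exact ⟨w, fun _ => hw⟩
    · exact ⟨y, fun h => absurd h hy⟩
  choose b hb using hex
  set F : M → ℝ := fun y => RR p q x y z (b y) with hF
  have hzε : z ∈ Wl f ε x := wl_mono hz (by linarith)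
  have huniq : ∀ y w w' : M, w ∈ Wl f ε₁ y → w ∈ Wl f.symm ε₁ z → w' ∈ Wl f ε₁ y →
      w' ∈ Wl f.symm ε₁ z → w = w' := fun y w w' h1 h2 h3 h4 =>
    hk.br.unique y z w w' (wl_mono h1 hε₁) (wl_mono h2 hε₁) (wl_mono h3 hε₁) (wl_mono h4 hε₁)
  have hbx : b x = z := by
    obtain ⟨h1, h2⟩ := hb x (wl_self hε₂.le x)
    exact huniq x _ _ (wl_mono h1 (by linarith)) (wl_mono h2 (by linarith))
      (wl_mono hz (by linarith)) (wl_self hε₁pos.le z)
  have hFx : F x = 0 := by
    simp only [hF, hbx]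
    unfold RR
    rw [hk.lin.p_self, hk.lin.p_self]
    ring
  have hyρ : y ∈ Wl f.symm ρ x := wl_mono hy hρ'ρ
  have hyε₂ : y ∈ Wl f.symm ε₂ x := wl_mono hyρ (by linarith)
  have hby : b y = z' := by
    obtain ⟨h1, h2⟩ := hb y hyε₂
    exact huniq y _ _ (wl_mono h1 (by linarith)) (wl_mono h2 (by linarith)) hz'1 hz'2
  have hgoal : F y = F x := by
    have hCpos : 0 < C := lt_of_lt_of_le one_pos hk.grow.one_le
    have hC'pos : 0 < C' := lt_of_lt_of_le one_pos hh.one_le
    refine hL' x (fun n y => c.an n y) F (C' * C * ε₁ + C) l ρ hρ hρ1 hk.grow.l_pos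
      hk.grow.l_lt (c.continuous_an hk.S_ne) ?_ ?_ ?_ ?_ y hy
    · intro n w
      refine ⟨(an_pos c n w).le, (hk.grow.an_le n w).trans ?_⟩
      have : 0 ≤ l ^ n := pow_nonneg hk.grow.l_pos.le n
      have h2 : 0 ≤ C' * C * ε₁ := by positivity
      nlinarith
    · -- the distortion
      intro n y hy y' hy' hd
      have hyy' : y ∈ Wl f.symm (ρ + ρ) y' := wl_trans hy (wl_symm hy')
      have h1 : f^[n] y ∈ Wl f.symm (2 * ρ) (f^[n] y') :=
        wl_back_iter (wl_mono hyy' (by linarith)) hd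
      have h2 := hk.lin.dist_le (f^[n] y') (f^[n] y) (wl_mono h1 (by linarith)) n
      rw [symm_iterate_iterate, symm_iterate_iterate] at h2
      refine h2.trans ?_
      have h3 : 0 ≤ C' * C * ε₁ := by positivity
      have h4 := (c.an_pos n y').le
      gcongr
      linarith
    · -- the estimate of the variation
      have hlim : Tendsto (fun n : ℕ => C * (C * l ^ n) * (ε₁ / 4)) atTop
          (𝓝 (C * (C * 0) * (ε₁ / 4))) :=
        (((tendsto_pow_atTop_nhds_zero_of_lt_one hk.grow.l_pos.le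
          hk.grow.l_lt).const_mul C).const_mul C).mul_const _
      have hev : ∀ᶠ n : ℕ in atTop, C * (C * l ^ n) * (ε₁ / 4) < ε₂ := by
        refine hlim.eventually (gt_mem_nhds ?_)
        simpa using hε₂
      obtain ⟨n₀, hn₀⟩ := eventually_atTop.1 hev
      refine eventually_atTop.2 ⟨n₀, fun n hn y hy y' hy' hd => ?_⟩
      have hyε : y ∈ Wl f.symm ε₂ x := wl_mono hy (by linarith)
      have hy'ε : y' ∈ Wl f.symm ε₂ x := wl_mono hy' (by linarith)
      obtain ⟨hw1, hw2⟩ := hb y hyε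
      obtain ⟨hw1', hw2'⟩ := hb y' hy'ε
      set w := b y with hw
      set w' := b y' with hw'
      have hyy' : y' ∈ Wl f.symm ε₂ y := wl_mono (wl_trans hy' (wl_symm hy)) (by linarith)
      have hww' : w' ∈ Wl f.symm (ε₁ / 4 + ε₁ / 4) w := wl_trans hw2' (wl_symm hw2)
      have hdy : ∀ k ≤ n, dist (f^[k] y') (f^[k] y) ≤ ε₂ := fun k hk => by
        rw [dist_comm]; exact (hd k hk).trans (by linarith)
      have hdw : ∀ k ≤ n, dist (f^[k] w') (f^[k] w) ≤ ε₁ := fun k hk => by
        have t1 := hw1' k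
        have t2 := hw1 k
        have t3 := hdy k hk
        have t4 := dist_triangle4 (f^[k] w') (f^[k] y') (f^[k] y) (f^[k] w)
        rw [dist_comm (f^[k] y) (f^[k] w)] at t4
        linarith
      have e1 : F y' - F y = RR p q y y' w w' :=
        RR_sub hk (wl_mono hyε (by linarith)) (wl_mono hy'ε (by linarith))
          (wl_mono hyy' (by linarith)) (wl_mono hw2 (by linarith)) (wl_mono hw2' (by linarith))
          (wl_mono hww' (by linarith))
      have e2 : RR p q (f^[n] y) (f^[n] y') (f^[n] w) (f^[n] w') = RR p q y y' w w' :=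
        RR_iter hk (wl_mono hyy' (by linarith)) (wl_mono hww' (by linarith))
          (wl_mono hw1 (by linarith)) (wl_mono hw1' (by linarith)) n
          (fun k hk => (hdy k hk).trans (by linarith))
          (fun k hk => (hdw k hk).trans (by linarith))
      have hwε : w ∈ Wl f ε y := wl_mono hw1 (by linarith)
      have hup := hk.grow.upper y w hwε
      have hstab : f^[n] w ∈ Wl f ε₂ (f^[n] y) := by
        intro k
        rw [← iterate_add_apply, ← iterate_add_apply]
        refine (hup (k + n)).trans ?_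
        have t1 := hk.grow.an_le (k + n) y
        have t2 := hn₀ (k + n) (by omega)
        have t3 : dist w y ≤ ε₁ / 4 := hw1 0
        have t4 : 0 ≤ dist w y := dist_nonneg
        have t5 := (an_pos c (k + n) y).le
        have t6 : 0 ≤ C * (C * l ^ (k + n)) := by
          have := pow_nonneg hk.grow.l_pos.le (k + n)
          positivity
        calc C * c.an (k + n) y * dist w y ≤ C * (C * l ^ (k + n)) * (ε₁ / 4) := by
              gcongr
          _ ≤ ε₂ := t2.le
      have e3 := hh.bound (f^[n] y) (f^[n] y') (wl_back_iter hyy' hdy) (f^[n] w) hstab (f^[n] w')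
        (wl_mono (wl_iter hw1' n) (by linarith))
        (wl_back_iter (wl_mono hww' (by linarith)) hdw)
      rw [e2, ← e1] at e3
      refine e3.trans ?_
      have t1 := hup n
      have t3 : dist w y ≤ ε₁ / 4 := hw1 0
      have t5 := (an_pos c n y).le
      calc C' * dist (f^[n] w) (f^[n] y) ≤ C' * (C * c.an n y * (ε₁ / 4)) := by
            gcongr
            exact t1.trans (by gcongr)
        _ = (C' * C * ε₁) / 4 * c.an n y := by ring
        _ ≤ (C' * C * ε₁ + C) * c.an n y := by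
            have h2 : 0 ≤ C' * C * ε₁ := by positivity
            gcongr
            linarith
    · intro η hη
      filter_upwards [hS ρ hρ hρ2 η hη] with n hn Y hY hsep
      exact hn Y (fun y hy => (wl_dist (hY y hy)).trans hρ2) hsep
  have : F y = RR p q x y z z' := by simp only [hF, hby]
  rw [← this, hgoal, hFx]

end Pool.Agent.Lib.MP610fe3.Cf
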