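import Pool.Agent.Lib.MP_610fe3_an.Cf.Spec4
import Pool.Agent.Lib.MP_610fe3_an.Cf.Basic
import Pool.Agent.Lib.MP_610fe3_an.Cf.Final

/-!
# Module FINAL4: descent of the exponent
-/

open Set Filter Function MeasureTheory
open scoped Topology

namespace Pool.Agent.Lib.MP610fe3.Cf

universe u v

section Descent

variable {M : Type*} [MetricSpace M] {f : M ≃ₜ M} {α : ℕ → M → ℝ} {K : Set M} {δ : ℝ}

theorem SumOn.mono_set {K' : Set M} {t κ : ℝ} (h : SumOn f α K δ t κ) (hK : K' ⊆ K) :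
    SumOn f α K' δ t κ := by
  obtain ⟨C, hC⟩ := h
  exact ⟨C, fun n Y hY hs => hC n Y (fun y hy => hK (hY y hy)) hs⟩

/-- from one exponent to a smaller one -/
theorem SumOn.sub {t κ e c₁ : ℝ} (hc : 0 < c₁) (hα : ∀ n y, c₁ ^ n ≤ α n y) (he : 0 ≤ e)
    (h : SumOn f α K δ t κ) : SumOn f α K δ (t - e) (κ * c₁⁻¹ ^ e) := by
  obtain ⟨C, hC⟩ := h
  refine ⟨C, fun n Y hY hs => ?_⟩
  have hw : 0 ≤ (c₁⁻¹ ^ e) ^ n := by positivity
  have h1 : ∀ y ∈ Y, α n y ^ (t - e) ≤ (c₁⁻¹ ^ e) ^ n * α n y ^ t := by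
    intro y _
    have hn : 0 < c₁ ^ n := pow_pos hc n
    have ha : 0 < α n y := hn.trans_le (hα n y)
    rw [Real.rpow_sub ha, div_eq_mul_inv, mul_comm]
    have h2 : (α n y ^ e)⁻¹ ≤ (c₁⁻¹ ^ e) ^ n := by
      rw [Real.inv_rpow hc.le, inv_pow, ← Real.rpow_natCast, ← Real.rpow_mul hc.le, mul_comm e,
        Real.rpow_mul hc.le, Real.rpow_natCast]
      exact inv_anti₀ (Real.rpow_pos_of_pos hn _) (Real.rpow_le_rpow hn.le (hα n y) he)
    exact mul_le_mul_of_nonneg_right h2 (Real.rpow_nonneg ha.le _)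
  calc ∑ y ∈ Y, α n y ^ (t - e) ≤ ∑ y ∈ Y, (c₁⁻¹ ^ e) ^ n * α n y ^ t := Finset.sum_le_sum h1
    _ = (c₁⁻¹ ^ e) ^ n * ∑ y ∈ Y, α n y ^ t := by rw [Finset.mul_sum]
    _ ≤ (c₁⁻¹ ^ e) ^ n * (C * κ ^ n) := mul_le_mul_of_nonneg_left (hC n Y hY hs) hw
    _ = C * (κ * c₁⁻¹ ^ e) ^ n := by rw [mul_pow]; ring

theorem descent {l c₁ d : ℝ} (hl : 0 < l) (hl1 : l < 1) (hc : 0 < c₁)
    (hα : ∀ n y, c₁ ^ n ≤ α n y)
    (hstep : ∀ t κ : ℝ, 0 ≤ t → 0 < κ → κ * l < 1 → SumOn f α K δ t κ →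
      ∃ κ' : ℝ, 0 < κ' ∧ κ' < 1 ∧ SumOn f α K δ t κ') (hd : 0 ≤ d)
    (h0 : SumOn f α K δ d 1) : ∃ κ : ℝ, 0 < κ ∧ κ < 1 ∧ SumOn f α K δ 0 κ := by
  -- the number of steps
  obtain ⟨N, hN0, hN⟩ : ∃ N : ℕ, 0 < N ∧ c₁⁻¹ ^ (d / N) * l < 1 := by
    have h1 : Tendsto (fun N : ℕ => d / (N : ℝ)) atTop (𝓝 0) :=
      tendsto_const_div_atTop_nhds_zero_nat d
    have h2 : ContinuousAt (fun e : ℝ => c₁⁻¹ ^ e * l) 0 :=
      (Real.continuousAt_const_rpow (inv_pos.2 hc).ne').mul continuousAt_const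
    have h3 : Tendsto (fun N : ℕ => c₁⁻¹ ^ (d / (N : ℝ)) * l) atTop (𝓝 (c₁⁻¹ ^ (0 : ℝ) * l)) :=
      h2.tendsto.comp h1
    rw [Real.rpow_zero, one_mul] at h3
    obtain ⟨N, hN1, hN2⟩ := ((h3.eventually (gt_mem_nhds hl1)).and (eventually_gt_atTop 0)).exists
    exact ⟨N, hN2, hN1⟩
  have hN' : (0 : ℝ) < N := by exact_mod_cast hN0
  set e : ℝ := d / N with he
  have he0 : 0 ≤ e := by positivity
  have key : ∀ i : ℕ, i ≤ N → ∃ κ : ℝ, 0 < κ ∧ κ < 1 ∧ SumOn f α K δ (d - i * e) κ := by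
    intro i
    induction i with
    | zero =>
      intro _
      rw [Nat.cast_zero, zero_mul, sub_zero]
      exact hstep d 1 hd one_pos (by rw [one_mul]; exact hl1) h0
    | succ i ih =>
      intro hi
      obtain ⟨κ, hκ, hκ1, hs⟩ := ih (by omega)
      have h1 := hs.sub hc hα he0
      have h2 : d - (i : ℝ) * e - e = d - ((i + 1 : ℕ) : ℝ) * e := by push_cast; ring
      rw [h2] at h1
      have hpos : 0 < c₁⁻¹ ^ e := Real.rpow_pos_of_pos (inv_pos.2 hc) _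
      refine hstep _ _ ?_ (mul_pos hκ hpos) ?_ h1
      · have h3 : ((i + 1 : ℕ) : ℝ) ≤ N := by exact_mod_cast hi
        have h4 : ((i + 1 : ℕ) : ℝ) * e ≤ N * e := mul_le_mul_of_nonneg_right h3 he0
        have h5 : (N : ℝ) * e = d := by rw [he]; field_simp
        linarith
      · calc κ * c₁⁻¹ ^ e * l = κ * (c₁⁻¹ ^ e * l) := by ring
          _ < 1 * 1 := by
              refine mul_lt_mul'' hκ1 hN hκ.le (by positivity)
          _ = 1 := one_mul 1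
  obtain ⟨κ, h1, h2, h3⟩ := key N le_rfl
  have h5 : (N : ℝ) * e = d := by rw [he]; field_simp
  rw [h5, sub_self] at h3
  exact ⟨κ, h1, h2, h3⟩

end Descent

/-- VOL -/
theorem specVol : SpecVol.{u} := by
  intro M _ _ _ _ μ _ f α sd hα hbox δ hδ
  obtain ⟨κ, hκ, hκb⟩ := hbox (δ / 3) (by positivity)
  refine ⟨μ.real univ / κ, fun n Y _ hsep => ?_⟩
  have hcl : ∀ w, IsClosed (Box f (δ / 3) n w) := by
    intro w
    have : Box f (δ / 3) n w = ⋂ k : ℕ, ⋂ _ : k ≤ n,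
        {x | dist (f.symm^[k] x) (f.symm^[k] w) ≤ δ / 3} := by
      ext x; simp [Box]
    rw [this]
    refine isClosed_iInter fun k => isClosed_iInter fun _ => isClosed_le ?_ continuous_const
    exact (f.symm.continuous.iterate k).dist continuous_const
  have hdisj : Set.PairwiseDisjoint (↑Y : Set M) (fun y => Box f (δ / 3) n (f^[n] y)) := by
    intro y hy y' hy' hne
    rw [Function.onFun, Set.disjoint_left]
    intro w hw hw'
    obtain ⟨k, hk, hd⟩ := hsep y hy y' hy' hne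
    have h1 := hw (n - k) (by omega)
    have h2 := hw' (n - k) (by omega)
    have h3 : ∀ z : M, f.symm^[n - k] (f^[n] z) = f^[k] z := by
      intro z
      rw [symm_iterate_iterate_of_le f (by omega : n - k ≤ n)]
      congr 1
      omega
    rw [h3] at h1 h2
    have h4 := dist_triangle_left (f^[k] y) (f^[k] y') (f.symm^[n - k] w)
    linarith
  have hmeas : ∀ y ∈ Y, MeasurableSet (Box f (δ / 3) n (f^[n] y)) := fun y _ =>
    (hcl _).measurableSet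
  have hsum : ∑ y ∈ Y, μ.real (Box f (δ / 3) n (f^[n] y))
      = μ.real (⋃ y ∈ Y, Box f (δ / 3) n (f^[n] y)) :=
    (measureReal_biUnion_finset hdisj hmeas).symm
  rw [one_pow, mul_one, le_div_iff₀ hκ, mul_comm, Finset.mul_sum]
  calc ∑ y ∈ Y, κ * α n y ^ ((sd : ℕ) : ℝ) ≤ ∑ y ∈ Y, μ.real (Box f (δ / 3) n (f^[n] y)) := by
        refine Finset.sum_le_sum fun y _ => ?_
        have h1 := hκb n (f^[n] y)
        rw [symm_iterate_iterate] at h1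
        rw [Real.rpow_natCast]
        exact h1
    _ ≤ μ.real univ := by
        rw [hsum]
        exact measureReal_mono (subset_univ _) (measure_ne_top _ _)

/-- The core of the fourth phase. -/
theorem core4 (hTr : SpecTrans.{u, v}) (hAcc : SpecAcc.{u, v}) (hExit : SpecExit.{u, v})
    (hPath : SpecPath.{u, v}) (hNsum : SpecNsum.{u, v}) (hSpr : SpecSpread.{u, v})
    (hIt : SpecIter.{u, v}) (hCr : SpecCross.{u, v})
    {M : Type u} {W : Type v} [MetricSpace M] [CompactSpace M] [ConnectedSpace M]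
    [NormedAddCommGroup W] [InnerProductSpace ℝ W] [FiniteDimensional ℝ W]
    {E : Emb M W} {f : M ≃ₜ M} {s : Split E f}
    {c : Conf s} {ε C l : ℝ} {ψ : M → M → W} {Q : M → M → W →L[ℝ] W} {q : M → M → ℝ}
    {P : M → M → W →L[ℝ] W} {p : M → M → ℝ} {ε₁ ε₂ C' e : ℝ} {b : M → M → W} {u : ℕ} {d : ℝ}
    (hP : Pack c ε C l ψ Q q P p) (hK : Crd s.swap ε C) (hε₁ : ε₁ ≤ ε)
    (hM : Mob c ψ P p ε₁ ε₂ C' e b) (hu : 2 ≤ u)
    (hU : ∀ x, Module.finrank ℝ (s.U x).range = u) (hd : 0 ≤ d)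
    (hvol : ∀ δ : ℝ, 0 < δ → SumOn f c.an univ δ d 1)
    (hform : ∀ U, Trap f U → MobForm c ψ P p ε₁ ε₂ b U) : ChainTransitive f := by
  by_contra hcon
  obtain ⟨U, hT, hne, hB, hTA⟩ := hTr M W E f s hP.hyp hcon
  have hUne : ∀ x, s.U x ≠ 0 := by
    intro x h0
    have h1 := hU x
    have h2 : (s.U x).range = ⊥ := by
      rw [h0]; ext w; simp
    rw [h2, finrank_bot] at h1
    omega
  have hAA := hAcc M W E f s c ε C l ψ Q q P p U hP hK hUne hT hTA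
  have hCP := hCr M W E f s c ε C l ψ Q q P p ε₁ ε₂ C' e b U hP hε₁ hM hT (hform U hT)
  obtain ⟨ρ₁, δ₁, hρ₁, hδ₁, hpath⟩ := hPath M W E f s c ε C l ψ Q q P p ε₁ ε₂ C' e b U u
    hP hK hε₁ hM hu
  obtain ⟨x, ρ, r, θ, Ψ, v, ρ₀, r₁, ω, hρ, hE⟩ := hExit M W E f s c ε C l ψ Q q P p ε₁ ε₂ C' e b U u
    hP hK hε₁ hM hT hne hB hAA hCP hU ρ₁ hρ₁
  have hpath' := hpath x ρ r θ Ψ v ρ₀ r₁ ω hρ hE
  set T : Set M := {y | ∃ τ, ‖τ‖ ≤ ρ₀ ∧ ∃ a ∈ Icc (0 : ℝ) 1, y = Ψ (τ + a • v)} with hTdef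
  have hTc : IsCompact T := by
    have h1 : IsCompact (Metric.closedBall (0 : EuclideanSpace ℝ (Fin u)) ρ₀ ×ˢ Icc (0 : ℝ) 1) :=
      (isCompact_closedBall _ _).prod isCompact_Icc
    have h2 : ContinuousOn (fun q : EuclideanSpace ℝ (Fin u) × ℝ => Ψ (q.1 + q.2 • v))
        (Metric.closedBall (0 : EuclideanSpace ℝ (Fin u)) ρ₀ ×ˢ Icc (0 : ℝ) 1) := by
      refine hE.cont.comp (f := fun q : EuclideanSpace ℝ (Fin u) × ℝ => q.1 + q.2 • v) ?_ ?_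
      · exact (continuous_fst.add (continuous_snd.smul continuous_const)).continuousOn
      · rintro ⟨τ, a⟩ ⟨h3, h4⟩
        rw [mem_closedBall_zero_iff] at h3 ⊢
        exact (hE.tube τ h3 a h4).1
    have h3 : T = (fun q : EuclideanSpace ℝ (Fin u) × ℝ => Ψ (q.1 + q.2 • v)) ''
        (Metric.closedBall (0 : EuclideanSpace ℝ (Fin u)) ρ₀ ×ˢ Icc (0 : ℝ) 1) := by
      ext y
      constructor
      · rintro ⟨τ, h4, a, h5, rfl⟩
        exact ⟨(τ, a), ⟨by rw [mem_closedBall_zero_iff]; exact h4, h5⟩, rfl⟩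
      · rintro ⟨⟨τ, a⟩, ⟨h4, h5⟩, rfl⟩
        rw [mem_closedBall_zero_iff] at h4
        exact ⟨τ, h4, a, h5, rfl⟩
    rw [h3]
    exact h1.image_of_continuousOn h2
  have hTB : T ⊆ Bas f U := by
    rintro y ⟨τ, h4, a, h5, rfl⟩
    exact (hE.tube τ h4 a h5).2.1
  have hxA : x ∉ Att f U := by
    have h1 := (hE.tube 0 (by rw [norm_zero]; exact hE.ρ₀_pos.le) 0 ⟨le_rfl, zero_le_one⟩).2.2
    rw [zero_smul, add_zero, hE.zero] at h1
    exact h1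
  obtain ⟨δ', hδ', hns⟩ := hNsum M W E f s c ε C l ψ Q q P p U T hP hT hTc hTB δ₁ hδ₁
  obtain ⟨ε₀, hε₀, hspr⟩ := hSpr M W E f s c ε C l ψ Q q P p ε₁ ε₂ C' e b U x ω r₁ hP hε₁ hM hT hTA
    hxA hE.ω_mem hE.ω_ne hE.r₁_pos hE.hit
  obtain ⟨ε₀', hε₀', hit⟩ := hIt M W E f s c ε C l ψ Q q P p U hP hT δ' hδ'
  have hstep : ∀ t κ : ℝ, 0 ≤ t → 0 < κ → κ * l < 1 → SumOn f c.an (Att f U) δ' t κ →
      ∃ κ' : ℝ, 0 < κ' ∧ κ' < 1 ∧ SumOn f c.an (Att f U) δ' t κ' := by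
    intro t κ ht hκ hκl hs
    have h1 := hpath' t κ ht hκ hκl (hns t κ ht hκ hs)
    have h2 := hspr t ht h1 (min ε₀ ε₀') (lt_min hε₀ hε₀') (min_le_left _ _)
    exact hit (min ε₀ ε₀') t (lt_min hε₀ hε₀') (min_le_right _ _) ht h2
  obtain ⟨Ka, hKa, hKa'⟩ := c.exists_a_bound hP.S_ne
  have hKa0 : 0 < Ka := by linarith
  have han : ∀ n y, (Ka⁻¹) ^ n ≤ c.an n y := by
    intro n y
    unfold Conf.an
    have h0 : ∏ _k ∈ Finset.range n, Ka⁻¹ = Ka⁻¹ ^ n := by simp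
    rw [← h0]
    refine Finset.prod_le_prod (fun _ _ => (inv_pos.2 hKa0).le) fun k _ => ?_
    rw [inv_le_iff_one_le_mul₀ hKa0, mul_comm]
    exact (hKa' _).2
  obtain ⟨κ, hκ0, hκ1, hs0⟩ := descent hP.grow.l_pos hP.grow.l_lt (inv_pos.2 hKa0) han hstep hd
    ((hvol δ' hδ').mono_set (subset_univ _))
  have hκl : κ * l < 1 := by
    have := hP.grow.l_pos
    have := hP.grow.l_lt
    nlinarith
  have h1 := hpath' 0 κ le_rfl hκ0 hκl (hns 0 κ le_rfl hκ0 hs0)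
  obtain ⟨J, -, hJ2, hJ3⟩ := h1 (1 / 2) (by norm_num)
  obtain ⟨j, hj, -⟩ := hJ3 ω hE.ω_mem (by rw [sub_self, norm_zero]; exact hE.r₁_pos) hE.hit
  have h2 : (1 : ℝ) ≤ ∑ j ∈ J, j.2 ^ (0 : ℝ) := by
    have h3 : j.2 ^ (0 : ℝ) ≤ ∑ j ∈ J, j.2 ^ (0 : ℝ) :=
      Finset.single_le_sum (f := fun j : W × ℝ => j.2 ^ (0 : ℝ))
        (fun i _ => by rw [Real.rpow_zero]; norm_num) hj
    rwa [Real.rpow_zero] at h3
  linarith

end Pool.Agent.Lib.MP610fe3.Cf
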