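import Pool.Agent.Lib.MP_610fe3_an.Cf.Assembly3
import Pool.Agent.Lib.MP_610fe3_an.Cf.Final4

/-!
# Assembly of the modules of the fourth phase
-/

open Set Filter Function MeasureTheory Bundle
open scoped Topology Manifold ContDiff

namespace Pool.Agent.Lib.MP610fe3.Cf

universe u v

/-- All the abstract modules of the fourth phase. -/
structure Mods4 : Prop where
  hTr : SpecTrans.{u, v}
  hAcc : SpecAcc.{u, v}
  hExit : SpecExit.{u, v}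
  hPath : SpecPath.{u, v}
  hNsum : SpecNsum.{u, v}
  hSpr : SpecSpread.{u, v}
  hIt : SpecIter.{u, v}
  hCr : SpecCross.{u, v}
  hHM : SpecHoloM.{u, v}
  hBc : SpecBcoc.{u, v}
  hMV : SpecMobVan.{u, v}
  hX2 : ConfX 2 1
  hX : ∀ d : ℕ, 3 ≤ d → ConfX d 0

/-- The abstract theorem of the fourth phase. -/
theorem abstract_main4 (H4 : Mods4.{u, v})
    {M : Type u} {W : Type v} [MetricSpace M] [CompactSpace M] [ConnectedSpace M]
    [MeasurableSpace M] [BorelSpace M]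
    [NormedAddCommGroup W] [InnerProductSpace ℝ W] [FiniteDimensional ℝ W]
    (μ : Measure M) [IsFiniteMeasure μ] {E : Emb M W} {f : M ≃ₜ M} (s : Split E f)
    (hs : s.Hyperbolic) {C₀ : ℝ} (hsq : Sq s C₀) (c : Conf s) {d : ℕ} (hd : 2 ≤ d)
    (u : ℕ) (hu : 2 ≤ u) (hS : ∀ x, Module.finrank ℝ (s.S x).range = d)
    (hU : ∀ x, Module.finrank ℝ (s.U x).range = u) {κ : ℝ} (hκ : 0 < κ)
    (hμ : ∀ x, ∀ r : ℝ, 0 < r → r ≤ 1 → κ * r ^ (d + u) ≤ μ.real (Metric.ball x r)) :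
    ChainTransitive f := by
  have hSne : ∀ x, s.S x ≠ 0 := by
    intro x h0
    have h1 := hS x
    have h2 : (s.S x).range = ⊥ := by
      rw [h0]; ext w; simp
    rw [h2, finrank_bot] at h1
    omega
  obtain ⟨e1, C1, l1, hG⟩ := exists_grow c hs hsq hSne
  obtain ⟨e3, C3, ψ, Q, q, hF⟩ := specFlat M W E f s C₀ c e1 C1 l1 hs hsq hSne hG
  obtain ⟨e4, C4, hK⟩ := specCrd M W E f.symm s.swap hs.swap
  obtain ⟨e5, C5, hB⟩ := br M W E f s hs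
  obtain ⟨e7, C7, P, p, hL⟩ := specLinHol M W E f s C₀ c hs hsq hSne
  obtain ⟨e8, C8, l8, hD⟩ := exists_dec s.swap hs.swap
  -- common constants
  obtain ⟨ε, hε, g1, g3, g4, g5, g7, g8⟩ : ∃ ε : ℝ, 0 < ε ∧ ε ≤ e1 ∧ ε ≤ e3 ∧
      ε ≤ e4 ∧ ε ≤ e5 ∧ ε ≤ e7 ∧ ε ≤ e8 := by
    refine ⟨min e1 (min e3 (min e4 (min e5 (min e7 e8)))), ?_, ?_, ?_, ?_, ?_, ?_, ?_⟩
    · simp only [lt_min_iff]
      exact ⟨hG.ε_pos, hF.ε_pos, hK.ε_pos, hB.ε_pos, hL.ε_pos, hD.ε_pos⟩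
    all_goals simp
  obtain ⟨C, k1, k3, k4, k5, k7, k8⟩ : ∃ C : ℝ, C1 ≤ C ∧ C3 ≤ C ∧
      C4 ≤ C ∧ C5 ≤ C ∧ C7 ≤ C ∧ C8 ≤ C := by
    refine ⟨max C1 (max C3 (max C4 (max C5 (max C7 C8)))), ?_, ?_, ?_, ?_, ?_, ?_⟩
    all_goals simp
  obtain ⟨l, m1, m8, hl1⟩ : ∃ l : ℝ, l1 ≤ l ∧ l8 ≤ l ∧ l < 1 := by
    refine ⟨max l1 l8, ?_, ?_, ?_⟩
    · simp
    · simp
    · simp only [max_lt_iff]
      exact ⟨hG.l_lt, hD.l_lt⟩
  have hG' := hG.mono hε g1 k1 m1 hl1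
  have hF' := hF.mono hε g3 k3
  have hK' := hK.mono hε g4 k4
  have hB' := hB.mono hε g5 k5
  have hL' := hL.mono hε g7 k7
  have hD' := hD.mono hε g8 k8 m8 hl1
  have hSj := surj M W E f s c ε C l ψ Q q hs hG' hF' hB'
  have hP : Pack c ε C l ψ Q q P p := ⟨hs, hSne, hG', hD', hF', hSj, hL', hB'⟩
  obtain ⟨ε', -, hDif⟩ := exists_dif hP
  have hbox := specBox2 M W μ E f s C₀ c ε C l ψ Q q P p κ (d + u) u hsq hP hK' hU
    (by omega) hκ hμ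
  rw [Nat.add_sub_cancel] at hbox
  have hvol : ∀ δ : ℝ, 0 < δ → SumOn f c.an univ δ (d : ℝ) 1 := fun δ hδ =>
    specVol M μ f c.an d (fun n y => (c.an_pos n y).le) hbox δ hδ
  rcases Nat.lt_or_ge d 3 with h3 | h3
  · have hd2 : d = 2 := by omega
    subst hd2
    have hsum := sum M μ f c.an 2 (fun n y => (c.an_pos n y).le) hbox
    obtain ⟨ε₁, ε₂, C', b, hε₁, hMb⟩ := H4.hHM M W E f s c ε C l ε' ψ Q q P p 2 1 hP hDif hS
      zero_le_one H4.hX2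
    obtain ⟨ε₂', C'', -, hMob⟩ := H4.hBc M W E f s c ε C l ψ Q q P p ε₁ ε₂ C' 1 b hP hε₁
      zero_le_one hMb
    exact core4 H4.hTr H4.hAcc H4.hExit H4.hPath H4.hNsum H4.hSpr H4.hIt H4.hCr hP hK' hε₁ hMob
      hu hU (by positivity) hvol
      (H4.hMV M W E f s c ε C l ψ Q q P p ε₁ ε₂' C'' b hP hε₁ hMob hsum)
  · obtain ⟨ε₁, ε₂, C', b, hε₁, hMb⟩ := H4.hHM M W E f s c ε C l ε' ψ Q q P p d 0 hP hDif hS
      le_rfl (H4.hX d h3)
    obtain ⟨ε₂', C'', -, hMob⟩ := H4.hBc M W E f s c ε C l ψ Q q P p ε₁ ε₂ C' 0 b hP hε₁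
      le_rfl hMb
    refine core4 H4.hTr H4.hAcc H4.hExit H4.hPath H4.hNsum H4.hSpr H4.hIt H4.hCr hP hK' hε₁ hMob
      hu hU (by positivity) hvol ?_
    intro U _ x N _ _ hN _ _ y hy z hz hzx z' h1 h2
    have h4 := hMob.expand x y (hN hy) z hz hzx z' h1 h2
    rw [zero_mul, zero_mul] at h4
    exact sub_eq_zero.1 (norm_le_zero_iff.1 h4)

/-- The manifold theorem with a given embedding. -/
theorem mfd_aux4 (H4 : Mods4.{u, 0})
    {V : Type v} [NormedAddCommGroup V] [NormedSpace ℝ V]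
    [FiniteDimensional ℝ V] {M : Type u} [MetricSpace M] [CompactSpace M]
    [ConnectedSpace M] [ChartedSpace V M] [IsManifold 𝓘(ℝ, V) ∞ M]
    [RiemannianBundle (fun x : M => TangentSpace 𝓘(ℝ, V) x)]
    [IsContinuousRiemannianBundle V (fun x : M => TangentSpace 𝓘(ℝ, V) x)]
    {N : ℕ} (e : M → EuclideanSpace ℝ (Fin N)) (hiso : Isometry e)
    (he : ContMDiff 𝓘(ℝ, V) (𝓡 N) ∞ e)
    (hinj : ∀ x, Injective (mfderiv 𝓘(ℝ, V) (𝓡 N) e x))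
    (f : M ≃ₘ^1⟮𝓘(ℝ, V), 𝓘(ℝ, V)⟯ M) (hf : ContMDiff 𝓘(ℝ, V) 𝓘(ℝ, V) 2 f)
    (hf' : ContMDiff 𝓘(ℝ, V) 𝓘(ℝ, V) 2 f.symm)
    (Es Eu : ∀ x : M, Submodule ℝ (TangentSpace 𝓘(ℝ, V) x)) (hA : Gen.IsAnosovSplitting f Es Eu)
    {d : ℕ} (hd : 2 ≤ d) (hcs : ConformalOn f Es)
    (h2 : ∀ x, Module.finrank ℝ (Es x) = d) (hu : ∀ x, 2 ≤ Module.finrank ℝ (Eu x)) :
    TopTransitive f := by
  let : MeasurableSpace M := borel M
  have : BorelSpace M := ⟨rfl⟩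
  obtain ⟨E, hE, hEP, hr⟩ := Gen.exists_emb e hiso he hinj
  subst hE
  obtain ⟨s, hs, hsS, hsU⟩ := Gen.exists_split E he hinj hr f Es Eu hA
  obtain ⟨C₀, hsq⟩ := specSq V N M E he hinj hEP f.toHomeomorph hf hf' s
  obtain ⟨c⟩ := specConf V N M E he hinj hEP f.toHomeomorph f.contMDiff s hs Es hsS hcs
  obtain ⟨μ, κ, hμf, hκ, hμ⟩ := specMeas V N M E.e hiso he hinj
  have hdim : ∀ x, Module.finrank ℝ (Eu x) = Module.finrank ℝ V - d := by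
    intro x
    have h3 : Module.finrank ℝ (Es x) + Module.finrank ℝ (Eu x) = Module.finrank ℝ V :=
      finrank_compl_aux (hA.isCompl x) ‹FiniteDimensional ℝ V›
    have := h2 x
    omega
  have hrank : ∀ (F : ∀ x : M, Submodule ℝ (TangentSpace 𝓘(ℝ, V) x)) (x : M)
      (G : Submodule ℝ (EuclideanSpace ℝ (Fin N))),
      G = (F x).map (mfderiv 𝓘(ℝ, V) (𝓡 N) E.e x).toLinearMap →
      Module.finrank ℝ G = Module.finrank ℝ (F x) := by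
    intro F x G hG
    have h1 := congrArg (fun G : Submodule ℝ (EuclideanSpace ℝ (Fin N)) => Module.finrank ℝ G) hG
    exact h1.trans (finrank_map_aux (mfderiv 𝓘(ℝ, V) (𝓡 N) E.e x).toLinearMap (hinj x) (F x))
  set u := Module.finrank ℝ V - d with hudef
  obtain ⟨x₀⟩ : Nonempty M := inferInstance
  have hV : Module.finrank ℝ V = d + u := by
    have h3 : Module.finrank ℝ (Es x₀) + Module.finrank ℝ (Eu x₀) = Module.finrank ℝ V :=
      finrank_compl_aux (hA.isCompl x₀) ‹FiniteDimensional ℝ V›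
    have := h2 x₀
    omega
  have hu2 : 2 ≤ u := by
    have h3 := hu x₀
    rw [hdim x₀] at h3
    exact h3
  have hct := abstract_main4 H4 μ s hs hsq c hd u hu2
    (fun x => (hrank Es x _ (hsS x)).trans (h2 x)) (fun x => (hrank Eu x _ (hsU x)).trans (hdim x))
    hκ (by rw [← hV]; exact hμ)
  exact topTransitive_of_shadowing (s.shadowing hs) hct

/-- The manifold theorem. -/
theorem mfd_main4 (H4 : Mods4.{u, 0})
    {V : Type v} [NormedAddCommGroup V] [NormedSpace ℝ V]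
    [FiniteDimensional ℝ V] {M : Type u} [TopologicalSpace M] [CompactSpace M] [T2Space M]
    [ConnectedSpace M] [ChartedSpace V M] [IsManifold 𝓘(ℝ, V) ∞ M]
    [RiemannianBundle (fun x : M => TangentSpace 𝓘(ℝ, V) x)]
    [IsContinuousRiemannianBundle V (fun x : M => TangentSpace 𝓘(ℝ, V) x)]
    (f : M ≃ₘ^1⟮𝓘(ℝ, V), 𝓘(ℝ, V)⟯ M) (hf : ContMDiff 𝓘(ℝ, V) 𝓘(ℝ, V) 2 f)
    (hf' : ContMDiff 𝓘(ℝ, V) 𝓘(ℝ, V) 2 f.symm)
    (Es Eu : ∀ x : M, Submodule ℝ (TangentSpace 𝓘(ℝ, V) x)) (hA : Gen.IsAnosovSplitting f Es Eu)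
    {d : ℕ} (hd : 2 ≤ d) (hcs : ConformalOn f Es)
    (h2 : ∀ x, Module.finrank ℝ (Es x) = d) (hu : ∀ x, 2 ≤ Module.finrank ℝ (Eu x)) :
    TopTransitive f := by
  obtain ⟨N, e, he, hemb, hinj⟩ := exists_embedding_euclidean_of_compact (I := 𝓘(ℝ, V)) (M := M)
  let : MetricSpace M := hemb.isEmbedding.comapMetricSpace e
  have hiso : Isometry e := hemb.isEmbedding.to_isometry
  exact mfd_aux4 H4 e hiso he hinj f hf hf' Es Eu hA hd hcs h2 hu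

end Pool.Agent.Lib.MP610fe3.Cf
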