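import Pool.Agent.Lib.MP_610fe3_an.Cf.Spec

/-!
# Conformal cocycles and their holonomies

A general conformal cocycle over a homeomorphism `g`, and the limit of
`A_n(z)⁻¹ S(z_n) A_n(x)` for points `z` in the local stable set of `x` with respect to `g`.
It is applied to `g = f` (transition maps of the linearizations) and to `g = f.symm`
(linear holonomies).
-/

open Set Filter Function
open scoped Topology

namespace Pool.Agent.Lib.MP610fe3.Cf

/-- A conformal cocycle over `g` on a bundle of subspaces of `W` (images of the projections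
`S x`). -/
structure Coc {M : Type*} (W : Type*) [MetricSpace M] [NormedAddCommGroup W] [NormedSpace ℝ W]
    (g : M ≃ₜ M) where
  D : M → W →L[ℝ] W
  Di : M → W →L[ℝ] W
  S : M → W →L[ℝ] W
  B : M → W →L[ℝ] W →L[ℝ] ℝ
  a : M → ℝ
  K : ℝ
  one_le : 1 ≤ K
  D_cont : Continuous D
  Di_cont : Continuous Di
  S_cont : Continuous S
  B_cont : Continuous B
  SS : ∀ x w, S x (S x w) = S x w
  DS : ∀ x w, D x (S x w) = S (g x) (D x w)
  inv1 : ∀ x w, Di (g x) (D x (S x w)) = S x w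
  inv2 : ∀ x w, D (g.symm x) (Di x (S x w)) = S x w
  S_ne : ∀ x, ∃ w, S x w ≠ 0
  symm : ∀ x v w, B x v w = B x w v
  proj : ∀ x v w, B x (S x v) w = B x v w
  lower : ∀ x w, ‖S x w‖ ^ 2 ≤ K ^ 2 * B x w w
  upper : ∀ x w, B x w w ≤ K ^ 2 * ‖w‖ ^ 2
  S_le : ∀ x w, ‖S x w‖ ≤ K * ‖w‖
  Di_le : ∀ x w, ‖Di x w‖ ≤ K * ‖w‖
  lip : ∀ x z w, ‖D z w - D x w‖ ≤ K * dist z x * ‖w‖
  a_pos : ∀ x, 0 < a x
  conf : ∀ x v w, B (g x) (D x v) (D x w) = a x ^ 2 * B x v w

namespace Coc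

variable {M W : Type*} [MetricSpace M] [NormedAddCommGroup W] [NormedSpace ℝ W]
  {g : M ≃ₜ M} (c : Coc W g)

/-- the conformal factor of the iterate -/
noncomputable def an (n : ℕ) (x : M) : ℝ := ∏ k ∈ Finset.range n, c.a (g^[k] x)

/-- the iterated cocycle -/
noncomputable def A (n : ℕ) (x : M) : W →L[ℝ] W := iterD c.D g n x

/-- the inverse of the iterated cocycle -/
noncomputable def I (n : ℕ) (x : M) : W →L[ℝ] W := iterD c.Di g.symm n (g^[n] x)

theorem K_pos : 0 < c.K := one_pos.trans_le c.one_le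

@[simp] theorem an_zero (x : M) : c.an 0 x = 1 := by simp [an]

theorem an_succ (n : ℕ) (x : M) : c.an (n + 1) x = c.an n x * c.a (g^[n] x) := by
  simp [an, Finset.prod_range_succ]

theorem an_succ' (n : ℕ) (x : M) : c.an (n + 1) x = c.a x * c.an n (g x) := by
  simp [an, Finset.prod_range_succ', mul_comm]

theorem an_pos (n : ℕ) (x : M) : 0 < c.an n x := Finset.prod_pos fun _ _ => c.a_pos _

@[simp] theorem A_zero (x : M) (w : W) : c.A 0 x w = w := rfl

@[simp] theorem I_zero (x : M) (w : W) : c.I 0 x w = w := rfl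

theorem A_succ (n : ℕ) (x : M) (w : W) : c.A (n + 1) x w = c.D (g^[n] x) (c.A n x w) := by
  have := congrArg (fun L => L w) (iterD_succ' c.D g n x)
  exact this

theorem A_succ' (n : ℕ) (x : M) (w : W) : c.A (n + 1) x w = c.A n (g x) (c.D x w) := rfl

theorem I_succ (n : ℕ) (x : M) (w : W) :
    c.I (n + 1) x w = c.I n x (c.Di (g^[n + 1] x) w) := by
  have h : g.symm (g^[n + 1] x) = g^[n] x := by
    rw [iterate_succ_apply', g.symm_apply_apply]
  change iterD c.Di g.symm n (g.symm (g^[n + 1] x)) (c.Di (g^[n + 1] x) w) = _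
  rw [h]
  rfl

theorem I_succ' (n : ℕ) (x : M) (w : W) :
    c.I (n + 1) x w = c.Di (g x) (c.I n (g x) w) := by
  have h := congrArg (fun L => L w) (iterD_succ' c.Di g.symm n (g^[n + 1] x))
  have h2 : g.symm^[n] (g^[n + 1] x) = g x := by
    rw [iterate_succ_apply]
    have hl : LeftInverse g.symm g := fun y => g.symm_apply_apply y
    exact hl.iterate n (g x)
  rw [h2] at h
  exact h

theorem DiS (x : M) (w : W) : c.S (g.symm x) (c.Di x (c.S x w)) = c.Di x (c.S x w) := by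
  have h1 := c.inv1 (g.symm x) (c.Di x (c.S x w))
  rw [g.apply_symm_apply] at h1
  have h2 := c.DS (g.symm x) (c.Di x (c.S x w))
  rw [g.apply_symm_apply, c.inv2, c.SS] at h2
  rw [h2] at h1
  exact h1.symm

theorem S_A (n : ℕ) (x : M) (w : W) : c.A n x (c.S x w) = c.S (g^[n] x) (c.A n x w) := by
  induction n with
  | zero => simp
  | succ n ih =>
    rw [A_succ, ih, c.DS, A_succ, iterate_succ_apply']

theorem I_A (n : ℕ) (x : M) (w : W) : c.I n x (c.A n x (c.S x w)) = c.S x w := by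
  induction n with
  | zero => simp
  | succ n ih =>
    rw [I_succ, A_succ, S_A, iterate_succ_apply', c.inv1, ← S_A, ih]

theorem S_I (n : ℕ) (x : M) (w : W) :
    c.S x (c.I n x (c.S (g^[n] x) w)) = c.I n x (c.S (g^[n] x) w) := by
  induction n generalizing w with
  | zero => simp [c.SS]
  | succ n ih =>
    have h : g.symm (g^[n + 1] x) = g^[n] x := by
      rw [iterate_succ_apply', g.symm_apply_apply]
    have h2 := c.DiS (g^[n + 1] x) w
    rw [h] at h2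
    rw [I_succ, ← h2, ih]

theorem A_I (n : ℕ) (x : M) (w : W) :
    c.A n x (c.I n x (c.S (g^[n] x) w)) = c.S (g^[n] x) w := by
  induction n generalizing w with
  | zero => simp
  | succ n ih =>
    have h : g.symm (g^[n + 1] x) = g^[n] x := by
      rw [iterate_succ_apply', g.symm_apply_apply]
    have h2 := c.DiS (g^[n + 1] x) w
    have h3 := c.inv2 (g^[n + 1] x) w
    rw [h] at h2 h3
    rw [I_succ, ← h2, A_succ, ih, h2, h3]

theorem conf_iter (n : ℕ) (x : M) (v w : W) :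
    c.B (g^[n] x) (c.A n x v) (c.A n x w) = c.an n x ^ 2 * c.B x v w := by
  induction n with
  | zero => simp
  | succ n ih =>
    rw [A_succ, A_succ, iterate_succ_apply', c.conf, ih, an_succ]
    ring

theorem proj' (x : M) (v w : W) : c.B x v (c.S x w) = c.B x v w := by
  rw [c.symm, c.proj, c.symm]

theorem upper' (x : M) (w : W) : c.B x w w ≤ c.K ^ 2 * ‖c.S x w‖ ^ 2 := by
  have := c.upper x (c.S x w)
  rwa [c.proj, c.proj'] at this

theorem A_upper (n : ℕ) (x : M) (w : W) :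
    ‖c.A n x (c.S x w)‖ ≤ c.K ^ 2 * c.an n x * ‖c.S x w‖ := by
  have hK := c.K_pos
  have ha := c.an_pos n x
  have h1 := c.lower (g^[n] x) (c.A n x w)
  rw [← S_A, conf_iter] at h1
  have h2 := c.upper' x w
  have h3 : ‖c.A n x (c.S x w)‖ ^ 2 ≤ (c.K ^ 2 * c.an n x * ‖c.S x w‖) ^ 2 := by
    calc ‖c.A n x (c.S x w)‖ ^ 2 ≤ c.K ^ 2 * (c.an n x ^ 2 * c.B x w w) := h1
      _ ≤ c.K ^ 2 * (c.an n x ^ 2 * (c.K ^ 2 * ‖c.S x w‖ ^ 2)) := by gcongr
      _ = _ := by ring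
  exact (pow_le_pow_iff_left₀ (norm_nonneg _) (by positivity) two_ne_zero).1 h3

theorem A_lower (n : ℕ) (x : M) (w : W) :
    c.an n x * ‖c.S x w‖ ≤ c.K ^ 2 * ‖c.A n x (c.S x w)‖ := by
  have hK := c.K_pos
  have ha := c.an_pos n x
  have h1 := c.lower x w
  have h2 := c.upper' (g^[n] x) (c.A n x w)
  rw [← S_A, conf_iter] at h2
  have h3 : (c.an n x * ‖c.S x w‖) ^ 2 ≤ (c.K ^ 2 * ‖c.A n x (c.S x w)‖) ^ 2 := by
    calc (c.an n x * ‖c.S x w‖) ^ 2 = c.an n x ^ 2 * ‖c.S x w‖ ^ 2 := by ring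
      _ ≤ c.an n x ^ 2 * (c.K ^ 2 * c.B x w w) := by gcongr
      _ = c.K ^ 2 * (c.an n x ^ 2 * c.B x w w) := by ring
      _ ≤ c.K ^ 2 * (c.K ^ 2 * ‖c.A n x (c.S x w)‖ ^ 2) := by gcongr
      _ = _ := by ring
  exact (pow_le_pow_iff_left₀ (by positivity) (by positivity) two_ne_zero).1 h3

theorem I_upper (n : ℕ) (x : M) (w : W) :
    c.an n x * ‖c.I n x (c.S (g^[n] x) w)‖ ≤ c.K ^ 2 * ‖c.S (g^[n] x) w‖ := by
  have h := c.A_lower n x (c.I n x (c.S (g^[n] x) w))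
  rwa [S_I, A_I] at h

theorem I_lower (n : ℕ) (x : M) (w : W) :
    ‖c.S (g^[n] x) w‖ ≤ c.K ^ 2 * c.an n x * ‖c.I n x (c.S (g^[n] x) w)‖ := by
  have h := c.A_upper n x (c.I n x (c.S (g^[n] x) w))
  rwa [S_I, A_I] at h

theorem a_lower (x : M) : 1 ≤ c.K ^ 3 * c.a x := by
  obtain ⟨w, hw⟩ := c.S_ne x
  have hK := c.K_pos
  have h0 : 0 < ‖c.S x w‖ := norm_pos_iff.2 hw
  have h1 := c.Di_le (g x) (c.D x (c.S x w))
  rw [c.inv1] at h1
  have h2 := c.A_upper 1 x w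
  have h3 : c.A 1 x (c.S x w) = c.D x (c.S x w) := rfl
  have h4 : c.an 1 x = c.a x := by simp [an]
  rw [h3, h4] at h2
  have h5 : 1 * ‖c.S x w‖ ≤ (c.K ^ 3 * c.a x) * ‖c.S x w‖ := by
    calc 1 * ‖c.S x w‖ = ‖c.S x w‖ := one_mul _
      _ ≤ c.K * ‖c.D x (c.S x w)‖ := h1
      _ ≤ c.K * (c.K ^ 2 * c.a x * ‖c.S x w‖) := by gcongr
      _ = _ := by ring
  exact le_of_mul_le_mul_right h5 h0

/-- The approximations of the holonomy. -/
noncomputable def T (n : ℕ) (x z : M) : W →L[ℝ] W :=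
  c.I n z ∘L c.S (g^[n] z) ∘L c.A n x ∘L c.S x

theorem T_apply (n : ℕ) (x z : M) (w : W) :
    c.T n x z w = c.I n z (c.S (g^[n] z) (c.A n x (c.S x w))) := rfl

theorem I_succ_S (n : ℕ) (z : M) (u : W) :
    c.I (n + 1) z (c.S (g^[n + 1] z) (c.D (g^[n] z) u)) = c.I n z (c.S (g^[n] z) u) := by
  rw [I_succ, iterate_succ_apply', ← c.DS, c.inv1]

theorem T_diff (n : ℕ) (x z : M) (w : W) :
    c.T (n + 1) x z w - c.T n x z w = c.I (n + 1) z (c.S (g^[n + 1] z)
      (c.D (g^[n] x) (c.A n x (c.S x w)) - c.D (g^[n] z) (c.A n x (c.S x w)))) := by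
  rw [map_sub, map_sub, I_succ_S, T_apply, T_apply, A_succ]

theorem an_le_succ (n : ℕ) (z : M) : c.an n z ≤ c.K ^ 3 * c.an (n + 1) z := by
  rw [an_succ]
  have h := c.a_lower (g^[n] z)
  have h2 := c.an_pos n z
  calc c.an n z = c.an n z * 1 := (mul_one _).symm
    _ ≤ c.an n z * (c.K ^ 3 * c.a (g^[n] z)) := by gcongr
    _ = _ := by ring

theorem T_diff_le (n : ℕ) (x z : M) (w : W) :
    c.an n z * ‖c.T (n + 1) x z w - c.T n x z w‖
      ≤ c.K ^ 9 * dist (g^[n] z) (g^[n] x) * (c.an n x * ‖c.S x w‖) := by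
  have hK := c.K_pos
  have h1 := c.I_upper (n + 1) z
    (c.D (g^[n] x) (c.A n x (c.S x w)) - c.D (g^[n] z) (c.A n x (c.S x w)))
  rw [← T_diff] at h1
  have h2 := c.S_le (g^[n + 1] z)
    (c.D (g^[n] x) (c.A n x (c.S x w)) - c.D (g^[n] z) (c.A n x (c.S x w)))
  have h3 := c.lip (g^[n] z) (g^[n] x) (c.A n x (c.S x w))
  rw [dist_comm] at h3
  have h4 := c.A_upper n x w
  have h5 := c.an_le_succ n z
  have hd : 0 ≤ dist (g^[n] z) (g^[n] x) := dist_nonneg
  calc c.an n z * ‖c.T (n + 1) x z w - c.T n x z w‖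
      ≤ (c.K ^ 3 * c.an (n + 1) z) * ‖c.T (n + 1) x z w - c.T n x z w‖ := by gcongr
    _ = c.K ^ 3 * (c.an (n + 1) z * ‖c.T (n + 1) x z w - c.T n x z w‖) := by ring
    _ ≤ c.K ^ 3 * (c.K ^ 2 * (c.K * (c.K * dist (g^[n] z) (g^[n] x)
        * (c.K ^ 2 * c.an n x * ‖c.S x w‖)))) := by
        refine mul_le_mul_of_nonneg_left (h1.trans ?_) (by positivity)
        refine mul_le_mul_of_nonneg_left (h2.trans ?_) (by positivity)
        refine mul_le_mul_of_nonneg_left (h3.trans ?_) (by positivity)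
        exact mul_le_mul_of_nonneg_left h4 (by positivity)
    _ = _ := by ring

theorem T_lower {ε : ℝ} (hε : ∀ x z : M, dist z x ≤ ε → ∀ w, ‖c.S z w - c.S x w‖ ≤ 1 / 2 * ‖w‖)
    (n : ℕ) {x z : M} (hd : dist (g^[n] z) (g^[n] x) ≤ ε) (w : W) :
    c.an n x * ‖c.S x w‖ ≤ 2 * c.K ^ 4 * (c.an n z * ‖c.T n x z w‖) := by
  have hK := c.K_pos
  set u := c.A n x (c.S x w) with hu
  have hu2 : c.S (g^[n] x) u = u := by rw [hu, S_A, c.SS]
  have h1 := hε _ _ hd u
  rw [hu2] at h1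
  have h2 : ‖u‖ ≤ 2 * ‖c.S (g^[n] z) u‖ := by
    have : ‖u‖ ≤ ‖c.S (g^[n] z) u‖ + ‖c.S (g^[n] z) u - u‖ := by
      calc ‖u‖ = ‖c.S (g^[n] z) u - (c.S (g^[n] z) u - u)‖ := by congr 1; abel
        _ ≤ _ := norm_sub_le _ _
    linarith
  have h3 := c.A_lower n x w
  have h4 := c.I_lower n z u
  have h5 : c.I n z (c.S (g^[n] z) u) = c.T n x z w := rfl
  rw [h5] at h4
  calc c.an n x * ‖c.S x w‖ ≤ c.K ^ 2 * ‖u‖ := h3
    _ ≤ c.K ^ 2 * (2 * (c.K ^ 2 * c.an n z * ‖c.T n x z w‖)) := by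
        refine mul_le_mul_of_nonneg_left (h2.trans ?_) (by positivity)
        exact mul_le_mul_of_nonneg_left h4 (by norm_num)
    _ = _ := by ring

theorem T_upper (n : ℕ) (x z : M) (w : W) :
    c.an n z * ‖c.T n x z w‖ ≤ c.K ^ 5 * (c.an n x * ‖c.S x w‖) := by
  have hK := c.K_pos
  have h1 := c.I_upper n z (c.A n x (c.S x w))
  have h2 := c.S_le (g^[n] z) (c.A n x (c.S x w))
  have h3 := c.A_upper n x w
  calc c.an n z * ‖c.T n x z w‖ ≤ c.K ^ 2 * ‖c.S (g^[n] z) (c.A n x (c.S x w))‖ := h1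
    _ ≤ c.K ^ 2 * (c.K * (c.K ^ 2 * c.an n x * ‖c.S x w‖)) := by
        refine mul_le_mul_of_nonneg_left (h2.trans ?_) (by positivity)
        exact mul_le_mul_of_nonneg_left h3 (by positivity)
    _ = _ := by ring

/-! ### Local stable sets -/

section Wl

variable {ε : ℝ}

theorem Wl_symm {x z : M} (h : z ∈ Wl g ε x) : x ∈ Wl g ε z := fun k => by
  rw [dist_comm]; exact h k

theorem Wl_self (hε : 0 ≤ ε) (x : M) : x ∈ Wl g ε x := fun k => by
  rw [dist_self]; exact hε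

theorem Wl_map {x z : M} (h : z ∈ Wl g ε x) : g z ∈ Wl g ε (g x) := fun k => by
  have := h (k + 1)
  rwa [iterate_succ_apply, iterate_succ_apply] at this

theorem Wl_iter {x z : M} (h : z ∈ Wl g ε x) (n : ℕ) : g^[n] z ∈ Wl g ε (g^[n] x) := fun k => by
  have := h (k + n)
  rwa [iterate_add_apply, iterate_add_apply] at this

theorem Wl_mono {ε' : ℝ} (h : ε' ≤ ε) (x : M) : Wl g ε' x ⊆ Wl g ε x :=
  fun _ hz k => (hz k).trans h

theorem Wl_trans {ε' : ℝ} {x y z : M} (h : y ∈ Wl g ε x) (h' : z ∈ Wl g ε' y) :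
    z ∈ Wl g (ε + ε') x := fun k => by
  have := dist_triangle (g^[k] z) (g^[k] y) (g^[k] x)
  have h1 := h k
  have h2 := h' k
  linarith

end Wl

end Coc

end Pool.Agent.Lib.MP610fe3.Cf
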