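import Pool.Agent.Lib.MP_610fe3_an.Cf.Coc

/-!
# Conformal cocycles: the limit holonomy
-/

open Set Filter Function
open scoped Topology

namespace Pool.Agent.Lib.MP610fe3.Cf

/-! ### A general lemma on uniform limits -/

section Lim

variable {X F : Type*} [TopologicalSpace X] [NormedAddCommGroup F] [CompleteSpace F]

/-- the limit of a sequence, written as a telescoping series -/
noncomputable def lim' (t : ℕ → F) : F := t 0 + ∑' n, (t (n + 1) - t n)

theorem lim'_summable {t : ℕ → F} {K l : ℝ} (hl : 0 ≤ l) (hl1 : l < 1)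
    (h : ∀ n, ‖t (n + 1) - t n‖ ≤ K * l ^ n) : Summable (fun n => t (n + 1) - t n) :=
  Summable.of_norm_bounded ((summable_geometric_of_lt_one hl hl1).mul_left K) h

theorem lim'_tendsto {t : ℕ → F} {K l : ℝ} (hl : 0 ≤ l) (hl1 : l < 1)
    (h : ∀ n, ‖t (n + 1) - t n‖ ≤ K * l ^ n) : Tendsto t atTop (𝓝 (lim' t)) := by
  have hs := (lim'_summable hl hl1 h).hasSum.tendsto_sum_nat
  have h2 := hs.const_add (t 0)
  refine h2.congr fun n => ?_
  rw [Finset.sum_range_sub]
  abel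

omit [CompleteSpace F] in
theorem lim'_sub_le {t : ℕ → F} {K l : ℝ} (hl : 0 ≤ l) (hl1 : l < 1)
    (h : ∀ n, ‖t (n + 1) - t n‖ ≤ K * l ^ n) : ‖lim' t - t 0‖ ≤ K * (1 - l)⁻¹ := by
  have : lim' t - t 0 = ∑' n, (t (n + 1) - t n) := by rw [lim']; abel
  rw [this]
  have hg := (hasSum_geometric_of_lt_one hl hl1).mul_left K
  exact tsum_of_norm_bounded hg h

theorem lim'_continuousOn {t : ℕ → X → F} {A : Set X} {K l : ℝ} (hl : 0 ≤ l) (hl1 : l < 1)
    (hc : ∀ n, ContinuousOn (t n) A)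
    (h : ∀ n, ∀ x ∈ A, ‖t (n + 1) x - t n x‖ ≤ K * l ^ n) :
    ContinuousOn (fun x => lim' (fun n => t n x)) A := by
  refine (hc 0).add ?_
  exact continuousOn_tsum (fun n => (hc (n + 1)).sub (hc n))
    ((summable_geometric_of_lt_one hl hl1).mul_left K) h

end Lim

theorem tendsto_clm_apply {X Y : Type*} [NormedAddCommGroup X] [NormedSpace ℝ X]
    [NormedAddCommGroup Y] [NormedSpace ℝ Y] {u : ℕ → X →L[ℝ] Y} {L : X →L[ℝ] Y} {v : ℕ → X}
    {y : X} (h1 : Tendsto u atTop (𝓝 L)) (h2 : Tendsto v atTop (𝓝 y)) :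
    Tendsto (fun n => u n (v n)) atTop (𝓝 (L y)) :=
  ((isBoundedBilinearMap_apply (𝕜 := ℝ) (E := X) (F := Y)).continuous.tendsto (L, y)).comp
    (h1.prodMk_nhds h2)

namespace Coc

variable {M W : Type*} [MetricSpace M] [NormedAddCommGroup W] [NormedSpace ℝ W]
  {g : M ≃ₜ M} (c : Coc W g)

/-- smallness of the scale `ε` for the cocycle. -/
def Small (ε : ℝ) : Prop :=
  ∀ x z : M, dist z x ≤ ε → ∀ w, ‖c.S z w - c.S x w‖ ≤ 1 / 2 * ‖w‖

variable {ε C l : ℝ}

theorem T_step (hd : Dec g ε C l) (hS : c.Small ε) {x z : M} (hz : z ∈ Wl g ε x) (w : W)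
    (n : ℕ) : ‖c.T (n + 1) x z w‖
      ≤ (1 + 2 * c.K ^ 13 * (C * ε) * l ^ n) * ‖c.T n x z w‖ := by
  have hK := c.K_pos
  have h1 := c.T_diff_le n x z w
  have h2 := c.T_lower hS n (hz n) w
  have h3 := hd.dec x z hz n
  have h4 := hz 0
  simp only [iterate_zero, id_eq] at h4
  have hC : 0 < C := one_pos.trans_le hd.one_le
  have hl := hd.l_pos
  have hln : 0 < l ^ n := pow_pos hl n
  have ha := c.an_pos n z
  have h5 : dist (g^[n] z) (g^[n] x) ≤ C * ε * l ^ n := by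
    calc dist (g^[n] z) (g^[n] x) ≤ C * l ^ n * dist z x := h3
      _ ≤ C * l ^ n * ε := by gcongr
      _ = _ := by ring
  have h6 : c.an n z * ‖c.T (n + 1) x z w - c.T n x z w‖
      ≤ c.an n z * (2 * c.K ^ 13 * (C * ε) * l ^ n * ‖c.T n x z w‖) := by
    calc c.an n z * ‖c.T (n + 1) x z w - c.T n x z w‖
        ≤ c.K ^ 9 * dist (g^[n] z) (g^[n] x) * (c.an n x * ‖c.S x w‖) := h1
      _ ≤ c.K ^ 9 * (C * ε * l ^ n) * (2 * c.K ^ 4 * (c.an n z * ‖c.T n x z w‖)) := by
          have : 0 ≤ c.an n x * ‖c.S x w‖ := mul_nonneg (c.an_pos n x).le (norm_nonneg _)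
          have h7 : 0 ≤ C * ε * l ^ n := by
            have := hd.ε_pos
            positivity
          gcongr
      _ = _ := by ring
  have h8 := le_of_mul_le_mul_left h6 ha
  calc ‖c.T (n + 1) x z w‖ = ‖(c.T (n + 1) x z w - c.T n x z w) + c.T n x z w‖ := by
        congr 1; abel
    _ ≤ ‖c.T (n + 1) x z w - c.T n x z w‖ + ‖c.T n x z w‖ := norm_add_le _ _
    _ ≤ _ := by linarith

theorem T_bound (hd : Dec g ε C l) (hS : c.Small ε) {x z : M} (hz : z ∈ Wl g ε x) (w : W)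
    (n : ℕ) : ‖c.T n x z w‖
      ≤ Real.exp (2 * c.K ^ 13 * (C * ε) * ∑ k ∈ Finset.range n, l ^ k) * ‖c.T 0 x z w‖ := by
  induction n with
  | zero => simp
  | succ n ih =>
    have h := c.T_step hd hS hz w n
    have hK := c.K_pos
    have hC : 0 < C := one_pos.trans_le hd.one_le
    have hl := hd.l_pos
    have he := hd.ε_pos
    rw [Finset.sum_range_succ, mul_add, Real.exp_add]
    calc ‖c.T (n + 1) x z w‖ ≤ (1 + 2 * c.K ^ 13 * (C * ε) * l ^ n) * ‖c.T n x z w‖ := h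
      _ ≤ Real.exp (2 * c.K ^ 13 * (C * ε) * l ^ n)
          * (Real.exp (2 * c.K ^ 13 * (C * ε) * ∑ k ∈ Finset.range n, l ^ k)
            * ‖c.T 0 x z w‖) := by
          have h1 : 1 + 2 * c.K ^ 13 * (C * ε) * l ^ n
              ≤ Real.exp (2 * c.K ^ 13 * (C * ε) * l ^ n) := by
            rw [add_comm]; exact Real.add_one_le_exp _
          have h2 : 0 ≤ ‖c.T n x z w‖ := norm_nonneg _
          exact mul_le_mul h1 ih h2 (Real.exp_pos _).le
      _ = _ := by ring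

/-- bounded distortion constant -/
noncomputable def R (ε C l : ℝ) : ℝ :=
  2 * c.K ^ 5 * Real.exp (2 * c.K ^ 13 * (C * ε) * (1 - l)⁻¹)

theorem R_one_le (hd : Dec g ε C l) : 1 ≤ c.R ε C l := by
  have hK := c.one_le
  have hC : 0 < C := one_pos.trans_le hd.one_le
  have he := hd.ε_pos
  have hl : 0 < 1 - l := sub_pos.2 hd.l_lt
  have h1 : 1 ≤ c.K ^ 5 := one_le_pow₀ hK
  have h2 : 1 ≤ Real.exp (2 * c.K ^ 13 * (C * ε) * (1 - l)⁻¹) := by
    apply Real.one_le_exp
    positivity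
  unfold R
  nlinarith

theorem ratio (hd : Dec g ε C l) (hS : c.Small ε) {x z : M} (hz : z ∈ Wl g ε x) (n : ℕ) :
    c.an n x ≤ c.R ε C l * c.an n z := by
  obtain ⟨w, hw⟩ := c.S_ne x
  have hK := c.K_pos
  have hC : 0 < C := one_pos.trans_le hd.one_le
  have he := hd.ε_pos
  have hl0 := hd.l_pos
  have hl1 := hd.l_lt
  have h0 : 0 < ‖c.S x w‖ := norm_pos_iff.2 hw
  have h1 := c.T_lower hS n (hz n) w
  have h2 := c.T_bound hd hS hz w n
  have h3 : ‖c.T 0 x z w‖ ≤ c.K * ‖c.S x w‖ := c.S_le z _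
  have h4 : ∑ k ∈ Finset.range n, l ^ k ≤ (1 - l)⁻¹ := by
    rw [← tsum_geometric_of_lt_one hl0.le hl1]
    exact (summable_geometric_of_lt_one hl0.le hl1).sum_le_tsum _ (fun _ _ => by positivity)
  have h5 : Real.exp (2 * c.K ^ 13 * (C * ε) * ∑ k ∈ Finset.range n, l ^ k)
      ≤ Real.exp (2 * c.K ^ 13 * (C * ε) * (1 - l)⁻¹) := by
    apply Real.exp_le_exp.2
    gcongr
  have ha := c.an_pos n z
  have h6 : c.an n x * ‖c.S x w‖ ≤ (c.R ε C l * c.an n z) * ‖c.S x w‖ := by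
    calc c.an n x * ‖c.S x w‖ ≤ 2 * c.K ^ 4 * (c.an n z * ‖c.T n x z w‖) := h1
      _ ≤ 2 * c.K ^ 4 * (c.an n z * (Real.exp (2 * c.K ^ 13 * (C * ε) * (1 - l)⁻¹)
          * (c.K * ‖c.S x w‖))) := by
          refine mul_le_mul_of_nonneg_left ?_ (by positivity)
          refine mul_le_mul_of_nonneg_left ?_ ha.le
          refine h2.trans (mul_le_mul h5 h3 (norm_nonneg _) (Real.exp_pos _).le)
      _ = _ := by unfold R; ring
  exact le_of_mul_le_mul_right h6 h0

theorem T_incr (hd : Dec g ε C l) (hS : c.Small ε) {x z : M} (hz : z ∈ Wl g ε x) (n : ℕ) :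
    ‖c.T (n + 1) x z - c.T n x z‖ ≤ (c.K ^ 10 * (C * ε) * c.R ε C l) * l ^ n := by
  have hK := c.K_pos
  have hC : 0 < C := one_pos.trans_le hd.one_le
  have he := hd.ε_pos
  have hl0 := hd.l_pos
  have hR := c.R_one_le hd
  refine ContinuousLinearMap.opNorm_le_bound _ (by positivity) fun w => ?_
  have h1 := c.T_diff_le n x z w
  have h2 := c.ratio hd hS hz n
  have h3 := hd.dec x z hz n
  have h4 := hz 0
  simp only [iterate_zero, id_eq] at h4
  have ha := c.an_pos n z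
  have hSl := c.S_le x w
  have h6 : c.an n z * ‖(c.T (n + 1) x z - c.T n x z) w‖
      ≤ c.an n z * ((c.K ^ 10 * (C * ε) * c.R ε C l) * l ^ n * ‖w‖) := by
    calc c.an n z * ‖(c.T (n + 1) x z - c.T n x z) w‖
        ≤ c.K ^ 9 * dist (g^[n] z) (g^[n] x) * (c.an n x * ‖c.S x w‖) := h1
      _ ≤ c.K ^ 9 * (C * l ^ n * ε) * (c.R ε C l * c.an n z * (c.K * ‖w‖)) := by
          have h5 : dist (g^[n] z) (g^[n] x) ≤ C * l ^ n * ε := by
            calc dist (g^[n] z) (g^[n] x) ≤ C * l ^ n * dist z x := h3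
              _ ≤ C * l ^ n * ε := by gcongr
          have h9 : 0 ≤ c.an n x * ‖c.S x w‖ := mul_nonneg (c.an_pos n x).le (norm_nonneg _)
          gcongr
      _ = _ := by ring
  exact le_of_mul_le_mul_left h6 ha

/-- the holonomy -/
noncomputable def Q (x z : M) : W →L[ℝ] W := lim' (fun n => c.T n x z)

/-- the conformal factor of the holonomy -/
noncomputable def q (x z : M) : ℝ := limUnder atTop (fun n => c.an n x / c.an n z)

theorem Q_tendsto [CompleteSpace W] (hd : Dec g ε C l) (hS : c.Small ε) {x z : M}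
    (hz : z ∈ Wl g ε x) : Tendsto (fun n => c.T n x z) atTop (𝓝 (c.Q x z)) :=
  lim'_tendsto hd.l_pos.le hd.l_lt (c.T_incr hd hS hz)

/-! ### Continuity of the approximations -/

theorem A_cont (n : ℕ) : Continuous (c.A n) := by
  induction n with
  | zero => exact continuous_const
  | succ n ih =>
    have : c.A (n + 1) = fun x => c.A n (g x) ∘L c.D x := rfl
    rw [this]
    exact (ih.comp g.continuous).clm_comp c.D_cont

theorem iterDi_cont (n : ℕ) : Continuous (iterD c.Di g.symm n) := by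
  induction n with
  | zero => exact continuous_const
  | succ n ih =>
    have : iterD c.Di g.symm (n + 1) = fun x => iterD c.Di g.symm n (g.symm x) ∘L c.Di x := rfl
    rw [this]
    exact (ih.comp g.symm.continuous).clm_comp c.Di_cont

theorem I_cont (n : ℕ) : Continuous (c.I n) :=
  (c.iterDi_cont n).comp (g.continuous.iterate n)

theorem T_cont (n : ℕ) : Continuous (fun p : M × M => c.T n p.1 p.2) := by
  unfold T
  refine ((c.I_cont n).comp continuous_snd).clm_comp ?_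
  refine (c.S_cont.comp ((g.continuous.iterate n).comp continuous_snd)).clm_comp ?_
  exact ((c.A_cont n).comp continuous_fst).clm_comp (c.S_cont.comp continuous_fst)

theorem Q_cont [CompleteSpace W] (hd : Dec g ε C l) (hS : c.Small ε) :
    ContinuousOn (fun p : M × M => c.Q p.1 p.2) {p | p.2 ∈ Wl g ε p.1} :=
  lim'_continuousOn hd.l_pos.le hd.l_lt (fun n => (c.T_cont n).continuousOn)
    (fun n _ hp => c.T_incr hd hS hp n)

theorem Q_tendsto_apply [CompleteSpace W] (hd : Dec g ε C l) (hS : c.Small ε) {x z : M}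
    (hz : z ∈ Wl g ε x) (w : W) : Tendsto (fun n => c.T n x z w) atTop (𝓝 (c.Q x z w)) :=
  ((ContinuousLinearMap.apply ℝ W w).continuous.tendsto _).comp (c.Q_tendsto hd hS hz)

theorem Q_self [CompleteSpace W] (hd : Dec g ε C l) (hS : c.Small ε) (x : M) :
    c.Q x x = c.S x := by
  have h := c.Q_tendsto hd hS (Wl_self hd.ε_pos.le x)
  have h2 : (fun n => c.T n x x) = fun _ => c.S x := by
    funext n
    ext w
    rw [T_apply, ← S_A, c.SS, I_A]
  rw [h2] at h
  exact (tendsto_nhds_unique h tendsto_const_nhds)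

theorem Q_S_apply [CompleteSpace W] (hd : Dec g ε C l) (hS : c.Small ε) {x z : M}
    (hz : z ∈ Wl g ε x) (w : W) : c.Q x z (c.S x w) = c.Q x z w := by
  have h1 := c.Q_tendsto_apply hd hS hz w
  have h2 := c.Q_tendsto_apply hd hS hz (c.S x w)
  refine tendsto_nhds_unique h2 (h1.congr fun n => ?_)
  rw [T_apply, T_apply, c.SS]

theorem S_Q_apply [CompleteSpace W] (hd : Dec g ε C l) (hS : c.Small ε) {x z : M}
    (hz : z ∈ Wl g ε x) (w : W) : c.S z (c.Q x z w) = c.Q x z w := by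
  have h1 := c.Q_tendsto_apply hd hS hz w
  have h2 := ((c.S z).continuous.tendsto _).comp h1
  refine tendsto_nhds_unique h2 (h1.congr fun n => ?_)
  simp only [Function.comp_apply]
  rw [T_apply, S_I]

theorem Q_equiv_apply [CompleteSpace W] (hd : Dec g ε C l) (hS : c.Small ε) {x z : M}
    (hz : z ∈ Wl g ε x) (w : W) : c.Q (g x) (g z) (c.D x w) = c.D z (c.Q x z w) := by
  have h1 := c.Q_tendsto_apply hd hS (Wl_map hz) (c.D x w)
  have h2 := ((c.D z).continuous.tendsto _).comp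
    ((c.Q_tendsto_apply hd hS hz w).comp (tendsto_add_atTop_nat 1))
  refine tendsto_nhds_unique h1 (h2.congr fun n => ?_)
  simp only [Function.comp_apply]
  rw [T_apply, T_apply, I_succ', ← c.DS, ← A_succ', iterate_succ_apply]
  -- `D z (Di (g z) v) = v` for `v` in the image of `S (g z)`
  rw [← c.S_I n (g z)]
  have h3 := c.inv2 (g z) (c.I n (g z) (c.S (g^[n] (g z)) (c.A (n + 1) x (c.S x w))))
  rw [g.symm_apply_apply] at h3
  rw [h3]

/-! ### Bounds for `T` -/

theorem T_le (hd : Dec g ε C l) (hS : c.Small ε) {x z : M} (hz : z ∈ Wl g ε x) (n : ℕ) (w : W) :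
    ‖c.T n x z w‖ ≤ (c.K ^ 6 * c.R ε C l) * ‖w‖ := by
  have hK := c.K_pos
  have ha := c.an_pos n z
  have hR := c.R_one_le hd
  have h1 := c.T_upper n x z w
  have h2 := c.ratio hd hS hz n
  have h3 := c.S_le x w
  have h4 : c.an n z * ‖c.T n x z w‖ ≤ c.an n z * ((c.K ^ 6 * c.R ε C l) * ‖w‖) := by
    calc c.an n z * ‖c.T n x z w‖ ≤ c.K ^ 5 * (c.an n x * ‖c.S x w‖) := h1
      _ ≤ c.K ^ 5 * ((c.R ε C l * c.an n z) * (c.K * ‖w‖)) := by
          have := c.an_pos n x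
          gcongr
      _ = _ := by ring
  exact le_of_mul_le_mul_left h4 ha

theorem dist_iter_tendsto (hd : Dec g ε C l) {x z : M} (hz : z ∈ Wl g ε x) :
    Tendsto (fun n => dist (g^[n] z) (g^[n] x)) atTop (𝓝 0) := by
  have h1 : Tendsto (fun n : ℕ => C * l ^ n * dist z x) atTop (𝓝 0) := by
    have := ((tendsto_pow_atTop_nhds_zero_of_lt_one hd.l_pos.le hd.l_lt).const_mul C).mul_const
      (dist z x)
    simpa using this
  exact squeeze_zero (fun _ => dist_nonneg) (fun n => hd.dec x z hz n) h1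

/-- uniform continuity in terms of sequences -/
theorem unif_tendsto [CompactSpace M] {F : Type*} [NormedAddCommGroup F] {φ : M → F}
    (hφ : Continuous φ) {u v : ℕ → M} (h : Tendsto (fun n => dist (u n) (v n)) atTop (𝓝 0)) :
    Tendsto (fun n => ‖φ (u n) - φ (v n)‖) atTop (𝓝 0) := by
  have hu := CompactSpace.uniformContinuous_of_continuous hφ
  rw [Metric.tendsto_atTop]
  intro η hη
  obtain ⟨r, hr, H⟩ := Metric.uniformContinuous_iff.1 hu η hη
  obtain ⟨N, hN⟩ := (Metric.tendsto_atTop.1 h) r hr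
  refine ⟨N, fun n hn => ?_⟩
  have h1 := hN n hn
  rw [Real.dist_0_eq_abs, abs_of_nonneg dist_nonneg] at h1
  have h2 := H h1
  rw [dist_eq_norm] at h2
  rw [Real.dist_0_eq_abs, abs_of_nonneg (norm_nonneg _)]
  exact h2

theorem Q_comp_apply [CompactSpace M] [CompleteSpace W] (hd : Dec g ε C l) (hS : c.Small ε)
    {x z z' : M} (hz : z ∈ Wl g ε x) (hz' : z' ∈ Wl g ε x) (hzz : z' ∈ Wl g ε z) (w : W) :
    c.Q z z' (c.Q x z w) = c.Q x z' w := by
  have h1 := c.Q_tendsto hd hS hzz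
  have h2 := c.Q_tendsto_apply hd hS hz w
  have h3 := c.Q_tendsto_apply hd hS hz' w
  have h4 : Tendsto (fun n => c.T n z z' (c.T n x z w)) atTop (𝓝 (c.Q z z' (c.Q x z w))) :=
    tendsto_clm_apply h1 h2
  refine tendsto_nhds_unique h4 ?_
  -- the difference tends to zero
  have h5 : Tendsto (fun n => c.T n z z' (c.T n x z w) - c.T n x z' w) atTop (𝓝 0) := by
    have hK := c.K_pos
    have hR := c.R_one_le hd
    have h6 := unif_tendsto c.S_cont (dist_iter_tendsto hd hz)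
    have h7 : Tendsto (fun n => (c.K ^ 6 * c.R ε C l) * (‖c.S (g^[n] z) - c.S (g^[n] x)‖ * ‖w‖))
        atTop (𝓝 0) := by
      have := (h6.mul_const ‖w‖).const_mul (c.K ^ 6 * c.R ε C l)
      simpa using this
    refine squeeze_zero_norm (fun n => ?_) h7
    set u := c.A n x (c.S x w) with hu
    have hu2 : c.S (g^[n] x) u = u := by rw [hu, S_A, c.SS]
    have e1 : c.T n z z' (c.T n x z w) = c.I n z' (c.S (g^[n] z') (c.S (g^[n] z) u)) := by
      rw [T_apply, T_apply, S_I, A_I]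
    have e2 : c.T n x z' w = c.I n z' (c.S (g^[n] z') (c.S (g^[n] x) u)) := by
      rw [hu2, T_apply]
    rw [e1, e2, ← map_sub, ← map_sub]
    have h8 := c.I_upper n z' (c.S (g^[n] z) u - c.S (g^[n] x) u)
    have h9 := c.S_le (g^[n] z') (c.S (g^[n] z) u - c.S (g^[n] x) u)
    have h10 : ‖c.S (g^[n] z) u - c.S (g^[n] x) u‖ ≤ ‖c.S (g^[n] z) - c.S (g^[n] x)‖ * ‖u‖ :=
      (c.S (g^[n] z) - c.S (g^[n] x)).le_opNorm u
    have h11 := c.A_upper n x w
    have h12 := c.S_le x w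
    have h13 := c.ratio hd hS hz' n
    have ha := c.an_pos n z'
    have ha2 := c.an_pos n x
    have h14 : c.an n z' * ‖c.I n z' (c.S (g^[n] z') (c.S (g^[n] z) u - c.S (g^[n] x) u))‖
        ≤ c.an n z' * ((c.K ^ 6 * c.R ε C l) * (‖c.S (g^[n] z) - c.S (g^[n] x)‖ * ‖w‖)) := by
      calc _ ≤ c.K ^ 2 * ‖c.S (g^[n] z') (c.S (g^[n] z) u - c.S (g^[n] x) u)‖ := h8
        _ ≤ c.K ^ 2 * (c.K * (‖c.S (g^[n] z) - c.S (g^[n] x)‖
            * (c.K ^ 2 * (c.R ε C l * c.an n z') * (c.K * ‖w‖)))) := by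
            refine mul_le_mul_of_nonneg_left (h9.trans ?_) (by positivity)
            refine mul_le_mul_of_nonneg_left (h10.trans ?_) (by positivity)
            refine mul_le_mul_of_nonneg_left (h11.trans ?_) (norm_nonneg _)
            gcongr
        _ = _ := by ring
    exact le_of_mul_le_mul_left h14 ha
  have h15 := h5.add h3
  simpa using h15

/-! ### The conformal factor -/

theorem conf_T (n : ℕ) (x z : M) (v w : W) :
    c.an n z ^ 2 * c.B z (c.T n x z v) (c.T n x z w)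
      = c.B (g^[n] z) (c.A n x (c.S x v)) (c.A n x (c.S x w)) := by
  rw [← conf_iter, T_apply, T_apply, A_I, A_I, c.proj, c.proj']

theorem conf_T' (n : ℕ) (x z : M) (v w : W) :
    c.B z (c.T n x z v) (c.T n x z w) - (c.an n x / c.an n z) ^ 2 * c.B x v w
      = (c.an n z)⁻¹ ^ 2 * ((c.B (g^[n] z) - c.B (g^[n] x))
        (c.A n x (c.S x v)) (c.A n x (c.S x w))) := by
  have ha := (c.an_pos n z).ne'
  have h1 := c.conf_T n x z v w
  have h2 := c.conf_iter n x (c.S x v) (c.S x w)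
  rw [c.proj, c.proj'] at h2
  have h3 : (c.B (g^[n] z) - c.B (g^[n] x)) (c.A n x (c.S x v)) (c.A n x (c.S x w))
      = c.B (g^[n] z) (c.A n x (c.S x v)) (c.A n x (c.S x w))
        - c.B (g^[n] x) (c.A n x (c.S x v)) (c.A n x (c.S x w)) := rfl
  rw [h3, ← h1, h2]
  field_simp

theorem conf_err [CompactSpace M] (hd : Dec g ε C l) (hS : c.Small ε) {x z : M}
    (hz : z ∈ Wl g ε x) (v w : W) :
    Tendsto (fun n => c.B z (c.T n x z v) (c.T n x z w)
      - (c.an n x / c.an n z) ^ 2 * c.B x v w) atTop (𝓝 0) := by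
  have hK := c.K_pos
  have hR := c.R_one_le hd
  have h6 := unif_tendsto (F := W →L[ℝ] W →L[ℝ] ℝ) c.B_cont (dist_iter_tendsto hd hz)
  have h7 : Tendsto (fun n => (c.K ^ 6 * c.R ε C l ^ 2 * (‖v‖ * ‖w‖))
      * ‖c.B (g^[n] z) - c.B (g^[n] x)‖) atTop (𝓝 0) := by
    have := h6.const_mul (c.K ^ 6 * c.R ε C l ^ 2 * (‖v‖ * ‖w‖))
    simpa using this
  refine squeeze_zero_norm (fun n => ?_) h7
  rw [conf_T']
  have ha := c.an_pos n z
  have ha2 := c.an_pos n x
  have h1 := c.ratio hd hS hz n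
  have hv : ‖c.A n x (c.S x v)‖ ≤ c.K ^ 3 * (c.R ε C l * c.an n z) * ‖v‖ := by
    calc _ ≤ c.K ^ 2 * c.an n x * ‖c.S x v‖ := c.A_upper n x v
      _ ≤ c.K ^ 2 * (c.R ε C l * c.an n z) * (c.K * ‖v‖) := by
        have := c.S_le x v
        gcongr
      _ = _ := by ring
  have hw : ‖c.A n x (c.S x w)‖ ≤ c.K ^ 3 * (c.R ε C l * c.an n z) * ‖w‖ := by
    calc _ ≤ c.K ^ 2 * c.an n x * ‖c.S x w‖ := c.A_upper n x w
      _ ≤ c.K ^ 2 * (c.R ε C l * c.an n z) * (c.K * ‖w‖) := by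
        have := c.S_le x w
        gcongr
      _ = _ := by ring
  rw [norm_mul]
  have h3 : ‖(c.an n z)⁻¹ ^ 2‖ = (c.an n z)⁻¹ ^ 2 := by
    rw [Real.norm_eq_abs, abs_of_nonneg (by positivity)]
  rw [h3]
  calc (c.an n z)⁻¹ ^ 2 * ‖(c.B (g^[n] z) - c.B (g^[n] x))
        (c.A n x (c.S x v)) (c.A n x (c.S x w))‖
      ≤ (c.an n z)⁻¹ ^ 2 * (‖c.B (g^[n] z) - c.B (g^[n] x)‖
        * ‖c.A n x (c.S x v)‖ * ‖c.A n x (c.S x w)‖) := by
        refine mul_le_mul_of_nonneg_left ?_ (by positivity)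
        exact (c.B (g^[n] z) - c.B (g^[n] x)).le_opNorm₂ _ _
    _ ≤ (c.an n z)⁻¹ ^ 2 * (‖c.B (g^[n] z) - c.B (g^[n] x)‖
        * (c.K ^ 3 * (c.R ε C l * c.an n z) * ‖v‖)
        * (c.K ^ 3 * (c.R ε C l * c.an n z) * ‖w‖)) := by
        gcongr
    _ = _ := by
        field_simp

theorem exists_B_pos (x : M) : ∃ w, 0 < c.B x w w := by
  obtain ⟨w, hw⟩ := c.S_ne x
  refine ⟨w, ?_⟩
  have h0 : 0 < ‖c.S x w‖ := norm_pos_iff.2 hw
  have h1 := c.lower x w
  have hK := c.K_pos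
  by_contra h
  push Not at h
  nlinarith [pow_pos h0 2, pow_pos hK 2]

theorem ratio_sq_tendsto [CompactSpace M] [CompleteSpace W] (hd : Dec g ε C l) (hS : c.Small ε)
    {x z : M} (hz : z ∈ Wl g ε x) {w : W} (hw : 0 < c.B x w w) :
    Tendsto (fun n => (c.an n x / c.an n z) ^ 2) atTop
      (𝓝 (c.B z (c.Q x z w) (c.Q x z w) / c.B x w w)) := by
  have h1 := c.conf_err hd hS hz w w
  have h2 := c.Q_tendsto_apply hd hS hz w
  have h3 : Tendsto (fun n => c.B z (c.T n x z w) (c.T n x z w)) atTop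
      (𝓝 (c.B z (c.Q x z w) (c.Q x z w))) :=
    tendsto_clm_apply (((c.B z).continuous.tendsto _).comp h2) h2
  have h4 := (h3.sub h1).div_const (c.B x w w)
  rw [sub_zero] at h4
  refine h4.congr fun n => ?_
  field_simp
  ring

theorem q_tendsto [CompactSpace M] [CompleteSpace W] (hd : Dec g ε C l) (hS : c.Small ε)
    {x z : M} (hz : z ∈ Wl g ε x) :
    Tendsto (fun n => c.an n x / c.an n z) atTop (𝓝 (c.q x z)) := by
  obtain ⟨w, hw⟩ := c.exists_B_pos x
  have h1 := (Real.continuous_sqrt.tendsto _).comp (c.ratio_sq_tendsto hd hS hz hw)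
  have h2 : Tendsto (fun n => c.an n x / c.an n z) atTop
      (𝓝 (Real.sqrt (c.B z (c.Q x z w) (c.Q x z w) / c.B x w w))) := by
    refine h1.congr fun n => ?_
    simp only [Function.comp_apply]
    exact Real.sqrt_sq (div_pos (c.an_pos n x) (c.an_pos n z)).le
  exact tendsto_nhds_limUnder ⟨_, h2⟩

theorem q_sq [CompactSpace M] [CompleteSpace W] (hd : Dec g ε C l) (hS : c.Small ε)
    {x z : M} (hz : z ∈ Wl g ε x) {w : W} (hw : 0 < c.B x w w) :
    c.q x z ^ 2 = c.B z (c.Q x z w) (c.Q x z w) / c.B x w w :=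
  tendsto_nhds_unique ((c.q_tendsto hd hS hz).pow 2) (c.ratio_sq_tendsto hd hS hz hw)

theorem Q_conf [CompactSpace M] [CompleteSpace W] (hd : Dec g ε C l) (hS : c.Small ε)
    {x z : M} (hz : z ∈ Wl g ε x) (v w : W) :
    c.B z (c.Q x z v) (c.Q x z w) = c.q x z ^ 2 * c.B x v w := by
  have h1 := c.conf_err hd hS hz v w
  have h2 := c.Q_tendsto_apply hd hS hz v
  have h3 := c.Q_tendsto_apply hd hS hz w
  have h4 : Tendsto (fun n => c.B z (c.T n x z v) (c.T n x z w)) atTop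
      (𝓝 (c.B z (c.Q x z v) (c.Q x z w))) :=
    tendsto_clm_apply (((c.B z).continuous.tendsto _).comp h2) h3
  have h5 := h4.sub (((c.q_tendsto hd hS hz).pow 2).mul_const (c.B x v w))
  have h6 := tendsto_nhds_unique h5 h1
  linarith

theorem q_lower [CompactSpace M] [CompleteSpace W] (hd : Dec g ε C l) (hS : c.Small ε)
    {x z : M} (hz : z ∈ Wl g ε x) : (c.R ε C l)⁻¹ ≤ c.q x z := by
  refine ge_of_tendsto (c.q_tendsto hd hS hz) (Eventually.of_forall fun n => ?_)
  have h1 := c.ratio hd hS (Wl_symm hz) n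
  have hR := c.R_one_le hd
  have ha := c.an_pos n z
  rw [le_div_iff₀ ha, inv_mul_le_iff₀ (by linarith)]
  exact h1

theorem q_upper [CompactSpace M] [CompleteSpace W] (hd : Dec g ε C l) (hS : c.Small ε)
    {x z : M} (hz : z ∈ Wl g ε x) : c.q x z ≤ c.R ε C l := by
  refine le_of_tendsto (c.q_tendsto hd hS hz) (Eventually.of_forall fun n => ?_)
  have h1 := c.ratio hd hS hz n
  have ha := c.an_pos n z
  rw [div_le_iff₀ ha]
  exact h1

theorem q_pos [CompactSpace M] [CompleteSpace W] (hd : Dec g ε C l) (hS : c.Small ε)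
    {x z : M} (hz : z ∈ Wl g ε x) : 0 < c.q x z := by
  have hR := c.R_one_le hd
  have : 0 < (c.R ε C l)⁻¹ := by positivity
  exact this.trans_le (c.q_lower hd hS hz)

theorem q_self [CompactSpace M] [CompleteSpace W] (hd : Dec g ε C l) (hS : c.Small ε) (x : M) :
    c.q x x = 1 := by
  have h := c.q_tendsto hd hS (Wl_self hd.ε_pos.le x)
  refine tendsto_nhds_unique h (tendsto_const_nhds.congr fun n => ?_)
  exact (div_self (c.an_pos n x).ne').symm

theorem q_comp [CompactSpace M] [CompleteSpace W] (hd : Dec g ε C l) (hS : c.Small ε)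
    {x z z' : M} (hz : z ∈ Wl g ε x) (hz' : z' ∈ Wl g ε x) (hzz : z' ∈ Wl g ε z) :
    c.q z z' * c.q x z = c.q x z' := by
  have h1 := (c.q_tendsto hd hS hzz).mul (c.q_tendsto hd hS hz)
  refine tendsto_nhds_unique h1 ((c.q_tendsto hd hS hz').congr fun n => ?_)
  have h1 := (c.an_pos n x).ne'
  have h2 := (c.an_pos n z).ne'
  have h3 := (c.an_pos n z').ne'
  field_simp

theorem q_equiv [CompactSpace M] [CompleteSpace W] (hd : Dec g ε C l) (hS : c.Small ε)
    {x z : M} (hz : z ∈ Wl g ε x) : c.q (g x) (g z) * c.a x = c.q x z * c.a z := by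
  have h1 := (c.q_tendsto hd hS (Wl_map hz)).mul_const (c.a x)
  have h2 := ((c.q_tendsto hd hS hz).comp (tendsto_add_atTop_nat 1)).mul_const (c.a z)
  refine tendsto_nhds_unique h1 (h2.congr fun n => ?_)
  simp only [Function.comp_apply]
  rw [an_succ', an_succ']
  have h1 := (c.a_pos z).ne'
  have h2 := (c.an_pos n (g z)).ne'
  field_simp

theorem q_cont [CompactSpace M] [CompleteSpace W] (hd : Dec g ε C l) (hS : c.Small ε) :
    ContinuousOn (fun p : M × M => c.q p.1 p.2) {p | p.2 ∈ Wl g ε p.1} := by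
  rintro ⟨x, z⟩ hp
  obtain ⟨w, hw⟩ := c.exists_B_pos x
  have hQ := c.Q_cont hd hS (x, z) hp
  have hQw : ContinuousWithinAt (fun p : M × M => c.Q p.1 p.2 w) {p | p.2 ∈ Wl g ε p.1} (x, z) :=
    hQ.clm_apply continuousWithinAt_const
  have hB : ContinuousWithinAt (fun p : M × M => c.B p.2) {p | p.2 ∈ Wl g ε p.1} (x, z) :=
    (c.B_cont.comp continuous_snd).continuousWithinAt
  have hB1 : Continuous (fun p : M × M => c.B p.1 w w) :=
    ((c.B_cont.comp continuous_fst).clm_apply continuous_const).clm_apply continuous_const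
  have h1 : ContinuousWithinAt (fun p : M × M => Real.sqrt
      (c.B p.2 (c.Q p.1 p.2 w) (c.Q p.1 p.2 w) / c.B p.1 w w)) {p | p.2 ∈ Wl g ε p.1} (x, z) := by
    refine ContinuousWithinAt.sqrt ?_
    refine ContinuousWithinAt.div ((hB.clm_apply hQw).clm_apply hQw) hB1.continuousWithinAt ?_
    exact hw.ne'
  have hev : ∀ᶠ p in 𝓝[{p : M × M | p.2 ∈ Wl g ε p.1}] (x, z), 0 < c.B p.1 w w :=
    (hB1.continuousWithinAt).eventually (lt_mem_nhds hw)
  have hfin : (fun p : M × M => c.q p.1 p.2) =ᶠ[𝓝[{p : M × M | p.2 ∈ Wl g ε p.1}] (x, z)]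
      (fun p : M × M => Real.sqrt
      (c.B p.2 (c.Q p.1 p.2 w) (c.Q p.1 p.2 w) / c.B p.1 w w)) := by
    filter_upwards [hev, self_mem_nhdsWithin] with p hp1 hp2
    rw [← c.q_sq hd hS hp2 hp1, Real.sqrt_sq (c.q_pos hd hS hp2).le]
  refine h1.congr_of_eventuallyEq hfin ?_
  have h2 : (0 : ℝ) < c.B (x, z).1 w w := hw
  rw [← c.q_sq hd hS hp h2, Real.sqrt_sq (c.q_pos hd hS hp).le]

end Coc

end Pool.Agent.Lib.MP610fe3.Cf
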