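import Pool.Agent.Lib.MP_610fe3_an.Cf.CocLim

/-!
# The two conformal cocycles of a conformal splitting
-/

open Set Filter Function
open scoped Topology

namespace Pool.Agent.Lib.MP610fe3.Cf

variable {M W : Type*} [MetricSpace M] [NormedAddCommGroup W] [NormedSpace ℝ W]
  {E : Emb M W} {f : M ≃ₜ M} {s : Split E f}

/-- All the bounds, with one constant. -/
structure Bd (s : Split E f) (c : Conf s) (K : ℝ) : Prop where
  one_le : 1 ≤ K
  S_cont : Continuous s.S
  lower : ∀ x w, ‖s.S x w‖ ^ 2 ≤ K ^ 2 * c.B x w w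
  upper : ∀ x w, c.B x w w ≤ K ^ 2 * ‖w‖ ^ 2
  S_le : ∀ x w, ‖s.S x w‖ ≤ K * ‖w‖
  D_le : ∀ x w, ‖s.D x w‖ ≤ K * ‖w‖
  Di_le : ∀ x w, ‖s.Di x w‖ ≤ K * ‖w‖
  sq : Sq s K
  S_ne : ∀ x, ∃ w, s.S x w ≠ 0

theorem split_continuous_S [CompactSpace M] (s : Split E f) (hs : s.Hyperbolic) :
    Continuous s.S := by
  rw [Metric.continuous_iff]
  intro x η hη
  obtain ⟨r, hr, H⟩ := s.swap.exists_unifU hs.swap (half_pos hη)
  refine ⟨r, hr, fun z hz => ?_⟩
  rw [dist_eq_norm]
  refine lt_of_le_of_lt (ContinuousLinearMap.opNorm_le_bound _ (half_pos hη).le fun w => ?_)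
    (half_lt_self hη)
  exact H x z hz w

theorem exists_Bd [CompactSpace M] (c : Conf s) (hs : s.Hyperbolic) {C₀ : ℝ} (hq : Sq s C₀)
    (hne : ∀ x, s.S x ≠ 0) : ∃ K : ℝ, Bd s c K := by
  obtain ⟨K₁, hK₁, H₁⟩ := exists_norm_bound s.hD.cont
  obtain ⟨K₂, hK₂, H₂⟩ := exists_norm_bound s.hDi.cont
  obtain ⟨K₃, hK₃, H₃⟩ := s.exists_bdd
  obtain ⟨K₄, H₄⟩ := isCompact_univ.exists_bound_of_continuousOn (f := c.B)
    c.cont.continuousOn
  set K := max K₁ (max K₂ (max K₃ (max K₄ (max c.K C₀)))) with hK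
  have h1 : K₁ ≤ K := le_max_left _ _
  have h2 : K₂ ≤ K := (le_max_left _ _).trans (le_max_right _ _)
  have h3 : K₃ ≤ K :=
    ((le_max_left _ _).trans (le_max_right _ _)).trans (le_max_right _ _)
  have h4 : K₄ ≤ K :=
    (((le_max_left _ _).trans (le_max_right _ _)).trans (le_max_right _ _)).trans
      (le_max_right _ _)
  have h5 : c.K ≤ K :=
    ((((le_max_left _ _).trans (le_max_right _ _)).trans (le_max_right _ _)).trans
      (le_max_right _ _)).trans (le_max_right _ _)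
  have h6 : C₀ ≤ K :=
    ((((le_max_right _ _).trans (le_max_right _ _)).trans (le_max_right _ _)).trans
      (le_max_right _ _)).trans (le_max_right _ _)
  have hK1 : 1 ≤ K := hK₁.trans h1
  have hKK : K ≤ K ^ 2 := by nlinarith
  have hpos : ∀ x w, 0 ≤ c.B x w w := fun x w => by
    have := c.lower x w
    have h0 := c.K_pos
    by_contra h
    push Not at h
    nlinarith [sq_nonneg ‖s.S x w‖]
  refine ⟨K, hK1, split_continuous_S s hs, ?_, ?_, ?_, ?_, ?_, ?_, ?_⟩
  · intro x w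
    refine (c.lower x w).trans ?_
    exact mul_le_mul_of_nonneg_right (h5.trans hKK) (hpos x w)
  · intro x w
    calc c.B x w w ≤ ‖c.B x w w‖ := le_abs_self _
      _ ≤ ‖c.B x‖ * ‖w‖ * ‖w‖ := (c.B x).le_opNorm₂ w w
      _ ≤ K ^ 2 * ‖w‖ * ‖w‖ := by
          have := (H₄ x (mem_univ x)).trans (h4.trans hKK)
          gcongr
      _ = _ := by ring
  · intro x w
    exact (s.S x).le_of_opNorm_le ((H₃ x).1.trans h3) w
  · intro x w
    exact (s.D x).le_of_opNorm_le ((H₁ x).trans h1) w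
  · intro x w
    exact (s.Di x).le_of_opNorm_le ((H₂ x).trans h2) w
  · refine ⟨fun x z => (hq.fwd x z).trans ?_, fun x z => (hq.bwd x z).trans ?_,
      fun x z => (hq.tan x z).trans ?_, fun x z => (hq.lipD x z).trans ?_,
      fun x z => (hq.lipDi x z).trans ?_⟩
    all_goals gcongr
  · intro x
    by_contra h
    push Not at h
    exact hne x (ContinuousLinearMap.ext h)

/-- The cocycle of `f` on the stable bundle. -/
def cocF {c : Conf s} {K : ℝ} (h : Bd s c K) : Coc W f where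
  D := s.D
  Di := s.Di
  S := s.S
  B := c.B
  a := c.a
  K := K
  one_le := h.one_le
  D_cont := s.hD.cont
  Di_cont := s.hDi.cont
  S_cont := h.S_cont
  B_cont := c.cont
  SS := fun x w => congrArg (fun L => L w) (s.SS x)
  DS := fun x w => congrArg (fun L => L w) (s.DS x)
  inv1 := fun x w => by
    have h1 := congrArg (fun L => L (s.S x w)) (s.inv1 x)
    have h2 := congrArg (fun L => L w) (s.PS x)
    exact h1.trans h2
  inv2 := fun x w => by
    have h1 := congrArg (fun L => L (s.S x w)) (s.inv2 x)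
    have h2 := congrArg (fun L => L w) (s.PS x)
    exact h1.trans h2
  S_ne := h.S_ne
  symm := c.symm
  proj := c.proj
  lower := h.lower
  upper := h.upper
  S_le := h.S_le
  Di_le := h.Di_le
  lip := fun x z w => (s.D z - s.D x).le_of_opNorm_le (h.sq.lipD x z) w
  a_pos := c.a_pos
  conf := c.conf

/-- The cocycle of `f.symm` on the stable bundle. -/
noncomputable def cocB {c : Conf s} {K : ℝ} (h : Bd s c K) : Coc W f.symm where
  D := s.Di
  Di := s.D
  S := s.S
  B := c.B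
  a := fun x => (c.a (f.symm x))⁻¹
  K := K
  one_le := h.one_le
  D_cont := s.hDi.cont
  Di_cont := s.hD.cont
  S_cont := h.S_cont
  B_cont := c.cont
  SS := fun x w => congrArg (fun L => L w) (s.SS x)
  DS := fun x w => congrArg (fun L => L w) (s.DiS x)
  inv1 := fun x w => by
    have h1 := congrArg (fun L => L (s.S x w)) (s.inv2 x)
    have h2 := congrArg (fun L => L w) (s.PS x)
    exact h1.trans h2
  inv2 := fun x w => by
    have h1 := congrArg (fun L => L (s.S x w)) (s.inv1 x)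
    have h2 := congrArg (fun L => L w) (s.PS x)
    exact h1.trans h2
  S_ne := h.S_ne
  symm := c.symm
  proj := c.proj
  lower := h.lower
  upper := h.upper
  S_le := h.S_le
  Di_le := h.D_le
  lip := fun x z w => (s.Di z - s.Di x).le_of_opNorm_le (h.sq.lipDi x z) w
  a_pos := fun x => inv_pos.2 (c.a_pos _)
  conf := fun x v w => by
    have h1 := c.conf (f.symm x) (s.Di x v) (s.Di x w)
    have h2 : ∀ v, s.D (f.symm x) (s.Di x v) = E.P x v :=
      fun v => congrArg (fun L => L v) (s.inv2 x)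
    have h3 : ∀ v, s.S x (E.P x v) = s.S x v := fun v => congrArg (fun L => L v) (s.SP x)
    have h4 : ∀ v w, c.B x (E.P x v) w = c.B x v w := fun v w => by
      rw [← c.proj, h3, c.proj]
    have h5 : c.B x (E.P x v) (E.P x w) = c.B x v w := by
      rw [h4, c.symm, h4, c.symm]
    rw [f.apply_symm_apply, h2, h2, h5] at h1
    have h6 := (c.a_pos (f.symm x)).ne'
    rw [h1]
    field_simp

theorem Coc.exists_small [CompactSpace M] {g : M ≃ₜ M} (c : Coc W g) :
    ∃ ε₀ : ℝ, 0 < ε₀ ∧ ∀ ε ≤ ε₀, c.Small ε := by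
  obtain ⟨r, hr, H⟩ := exists_unif c.S_cont (show (0 : ℝ) < 1 / 2 by norm_num)
  refine ⟨r / 2, half_pos hr, fun ε hε x z hz w => ?_⟩
  exact (c.S z - c.S x).le_of_opNorm_le (H x z (by linarith)) w

theorem Coc.dec_mono {ε ε' C l : ℝ} (h : Dec f ε C l) (h0 : 0 < ε') (h1 : ε' ≤ ε) :
    Dec f ε' C l :=
  ⟨h0, h.one_le, h.l_pos, h.l_lt, fun x z hz n => h.dec x z (Coc.Wl_mono h1 x hz) n⟩

end Pool.Agent.Lib.MP610fe3.Cf
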