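import Pool.Agent.Lib.MP_610fe3_an.Cf.Spec3
import Pool.Agent.Lib.MP_610fe3_an.Cf.AssemblyM

/-!
# Module CONFPIN: a conformal unstable bundle of dimension at least `d` is determinant pinched
-/

open Set Filter Function Bundle
open scoped Manifold ContDiff Topology

namespace Pool.Agent.Lib.MP610fe3.Cf

universe u v

namespace CP

variable {V : Type v} [NormedAddCommGroup V] [NormedSpace ℝ V] {M : Type u} [TopologicalSpace M]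
  [ChartedSpace V M]

theorem contMDiff_iterate {h : M → M} (hh : ContMDiff 𝓘(ℝ, V) 𝓘(ℝ, V) 1 h) (k : ℕ) :
    ContMDiff 𝓘(ℝ, V) 𝓘(ℝ, V) 1 (h^[k]) := by
  induction k with
  | zero => exact contMDiff_id
  | succ k ih => rw [Function.iterate_succ]; exact ih.comp hh

theorem mfderiv_succ {h : M → M} (hh : ContMDiff 𝓘(ℝ, V) 𝓘(ℝ, V) 1 h) (k : ℕ) (x : M)
    (v : TangentSpace 𝓘(ℝ, V) x) :
    mfderiv 𝓘(ℝ, V) 𝓘(ℝ, V) (h^[k + 1]) x v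
        = mfderiv 𝓘(ℝ, V) 𝓘(ℝ, V) (h^[k]) (h x) (mfderiv 𝓘(ℝ, V) 𝓘(ℝ, V) h x v) := by
  have h1 : MDifferentiableAt 𝓘(ℝ, V) 𝓘(ℝ, V) (h^[k]) (h x) :=
    ((contMDiff_iterate hh k).mdifferentiable (by simp)) (h x)
  have h2 : MDifferentiableAt 𝓘(ℝ, V) 𝓘(ℝ, V) h x := (hh.mdifferentiable (by simp)) x
  have h3 := mfderiv_comp x h1 h2
  rw [Function.iterate_succ, h3]
  rfl

theorem mfderiv_zero {h : M → M} (x : M) (v : TangentSpace 𝓘(ℝ, V) x) :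
    mfderiv 𝓘(ℝ, V) 𝓘(ℝ, V) (h^[0]) x v = v := by
  rw [Function.iterate_zero, mfderiv_id]
  rfl

/-- The derivatives of the iterates preserve the subspaces. -/
theorem mem_iterate {h : M → M} (hh : ContMDiff 𝓘(ℝ, V) 𝓘(ℝ, V) 1 h)
    {F : ∀ x : M, Submodule ℝ (TangentSpace 𝓘(ℝ, V) x)}
    (hF : ∀ x, ∀ v ∈ F x, mfderiv 𝓘(ℝ, V) 𝓘(ℝ, V) h x v ∈ F (h x)) (k : ℕ) (x : M)
    (v : TangentSpace 𝓘(ℝ, V) x) (hv : v ∈ F x) :
    mfderiv 𝓘(ℝ, V) 𝓘(ℝ, V) (h^[k]) x v ∈ F (h^[k] x) := by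
  induction k generalizing x with
  | zero =>
    rw [mfderiv_zero]
    exact hv
  | succ k ih =>
    rw [mfderiv_succ hh]
    exact ih (h x) _ (hF x v hv)

variable [RiemannianBundle (fun x : M => TangentSpace 𝓘(ℝ, V) x)]

theorem norm_symm_iterate (f : M ≃ₘ^1⟮𝓘(ℝ, V), 𝓘(ℝ, V)⟯ M) (n : ℕ) (x : M)
    (v : TangentSpace 𝓘(ℝ, V) x) :
    ‖mfderiv 𝓘(ℝ, V) 𝓘(ℝ, V) (f.symm^[n]) (f^[n] x)
      (mfderiv 𝓘(ℝ, V) 𝓘(ℝ, V) (f^[n]) x v)‖ = ‖v‖ := by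
  have h1 : MDifferentiableAt 𝓘(ℝ, V) 𝓘(ℝ, V) (f.symm^[n]) (f^[n] x) :=
    (contMDiff_iterate f.symm.contMDiff n).mdifferentiable (by norm_num) _
  have h2 : MDifferentiableAt 𝓘(ℝ, V) 𝓘(ℝ, V) (f^[n]) x :=
    (contMDiff_iterate f.contMDiff n).mdifferentiable (by norm_num) _
  have h3 := mfderiv_comp x h1 h2
  have hl : LeftInverse (f.symm^[n]) (f^[n]) := LeftInverse.iterate f.left_inv n
  have h4 : f.symm^[n] ∘ f^[n] = id := by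
    funext y
    exact hl y
  rw [h4, mfderiv_id] at h3
  have h5 : (show V from mfderiv 𝓘(ℝ, V) 𝓘(ℝ, V) (f.symm^[n]) (f^[n] x)
      (mfderiv 𝓘(ℝ, V) 𝓘(ℝ, V) (f^[n]) x v)) = (show V from v) :=
    (congrArg (fun L : V →L[ℝ] V => L v) h3).symm
  have h6 := norm_transport (V := V) (hl x) (show V from mfderiv 𝓘(ℝ, V) 𝓘(ℝ, V) (f.symm^[n])
    (f^[n] x) (mfderiv 𝓘(ℝ, V) 𝓘(ℝ, V) (f^[n]) x v))
  refine Eq.trans h6 ?_
  rw [h5]

/-- The forward iterates expand the unstable bundle. -/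
theorem exists_expand {f : M ≃ₘ^1⟮𝓘(ℝ, V), 𝓘(ℝ, V)⟯ M}
    {Es Eu : ∀ x : M, Submodule ℝ (TangentSpace 𝓘(ℝ, V) x)}
    (hA : Gen.IsAnosovSplitting f Es Eu) :
    ∃ c : ℝ, 0 < c ∧ c ≤ 1 ∧ ∀ (n : ℕ) (x : M), ∀ v ∈ Eu x,
      c * ‖v‖ ≤ ‖mfderiv 𝓘(ℝ, V) 𝓘(ℝ, V) (f^[n]) x v‖ := by
  obtain ⟨C, l, hC, hl, hl1, H⟩ := hA.estimate
  have hFu : ∀ x, ∀ v ∈ Eu x, mfderiv 𝓘(ℝ, V) 𝓘(ℝ, V) f x v ∈ Eu (f x) := by
    intro x v hv
    rw [← hA.map_u x]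
    exact ⟨v, hv, rfl⟩
  refine ⟨min 1 C⁻¹, lt_min one_pos (inv_pos.2 hC), min_le_left _ _, fun n x v hv => ?_⟩
  have h1 := mem_iterate f.contMDiff hFu n x v hv
  have h2 := (H n (f^[n] x)).2 _ h1
  rw [norm_symm_iterate] at h2
  have h3 : C * l ^ n ≤ C := by
    have : l ^ n ≤ 1 := pow_le_one₀ hl.le hl1.le
    nlinarith
  have h4 : ‖v‖ ≤ C * ‖mfderiv 𝓘(ℝ, V) 𝓘(ℝ, V) (f^[n]) x v‖ :=
    h2.trans (mul_le_mul_of_nonneg_right h3 (norm_nonneg _))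
  calc min 1 C⁻¹ * ‖v‖ ≤ C⁻¹ * ‖v‖ :=
        mul_le_mul_of_nonneg_right (min_le_right _ _) (norm_nonneg _)
    _ ≤ C⁻¹ * (C * ‖mfderiv 𝓘(ℝ, V) 𝓘(ℝ, V) (f^[n]) x v‖) :=
        mul_le_mul_of_nonneg_left h4 (inv_pos.2 hC).le
    _ = _ := by rw [inv_mul_cancel_left₀ hC.ne']

/-- Conformality of the iterates. -/
theorem conformal_iterate {f : M → M} (hf : ContMDiff 𝓘(ℝ, V) 𝓘(ℝ, V) 1 f)
    {F : ∀ x : M, Submodule ℝ (TangentSpace 𝓘(ℝ, V) x)} (hc : ConformalOn f F)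
    (hF : ∀ x, ∀ v ∈ F x, mfderiv 𝓘(ℝ, V) 𝓘(ℝ, V) f x v ∈ F (f x)) (n : ℕ) (x : M) :
    ∃ a : ℝ, 0 < a ∧ ∀ v ∈ F x, ‖mfderiv 𝓘(ℝ, V) 𝓘(ℝ, V) (f^[n]) x v‖ = a * ‖v‖ := by
  induction n generalizing x with
  | zero =>
    refine ⟨1, one_pos, fun v _ => ?_⟩
    rw [mfderiv_zero, one_mul]
    rfl
  | succ n ih =>
    obtain ⟨a, ha, h1⟩ := hc x
    obtain ⟨b, hb, h2⟩ := ih (f x)
    refine ⟨b * a, mul_pos hb ha, fun v hv => ?_⟩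
    rw [mfderiv_succ hf]
    have h3 := h2 _ (hF x v hv)
    rw [h1 v hv, ← mul_assoc] at h3
    exact h3

end CP

/-- The Jacobian of a similarity. -/
theorem normDet_of_sim {X Y : Type*} [NormedAddCommGroup X] [InnerProductSpace ℝ X]
    [FiniteDimensional ℝ X] [NormedAddCommGroup Y] [InnerProductSpace ℝ Y]
    (A : X →ₗ[ℝ] Y) {a : ℝ} (ha : 0 < a) (h : ∀ v, ‖A v‖ = a * ‖v‖) :
    A.normDet = a ^ Module.finrank ℝ X := by
  let L : X →ₗᵢ[ℝ] Y := ⟨a⁻¹ • A, fun v => by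
    rw [LinearMap.smul_apply, norm_smul, h v, Real.norm_eq_abs, abs_of_pos (inv_pos.2 ha),
      inv_mul_cancel_left₀ ha.ne']⟩
  have h1 : A = a • L.toLinearMap := by
    ext v
    show A v = a • (a⁻¹ • A v)
    rw [smul_inv_smul₀ ha.ne']
  rw [h1, LinearMap.normDet_smul, L.normDet_eq_one, mul_one, Real.norm_eq_abs, abs_of_pos ha]

theorem specConfPin : SpecConfPin.{u, v} := by
  intro V _ _ _ M _ _ _ _ _ _ _ f Es Eu d hA hc hd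
  obtain ⟨c, hc0, hc1, hex⟩ := CP.exists_expand hA
  have hFu : ∀ x, ∀ v ∈ Eu x, mfderiv 𝓘(ℝ, V) 𝓘(ℝ, V) f x v ∈ Eu (f x) := by
    intro x v hv
    rw [← hA.map_u x]
    exact ⟨v, hv, rfl⟩
  refine ⟨(c⁻¹) ^ Module.finrank ℝ V, fun n x v hv => ?_⟩
  obtain ⟨a, ha, h1⟩ := CP.conformal_iterate f.contMDiff hc hFu n x
  have hfin : FiniteDimensional ℝ (TangentSpace 𝓘(ℝ, V) x) :=
    inferInstanceAs (FiniteDimensional ℝ V)
  have h2 : ((mfderiv 𝓘(ℝ, V) 𝓘(ℝ, V) (f^[n]) x).toLinearMap.domRestrict (Eu x)).normDet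
      = a ^ Module.finrank ℝ (Eu x) :=
    normDet_of_sim _ ha fun w => h1 w w.2
  have hle : Module.finrank ℝ (Eu x) ≤ Module.finrank ℝ V := Submodule.finrank_le (Eu x)
  -- the lower bound of `a`
  have h3 : Module.finrank ℝ (Eu x) = 0 ∨ c ≤ a := by
    rcases Nat.eq_zero_or_pos (Module.finrank ℝ (Eu x)) with h | h
    · exact Or.inl h
    · right
      have : Nontrivial (Eu x) := Module.nontrivial_of_finrank_pos (R := ℝ) h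
      obtain ⟨w, hw⟩ := exists_ne (0 : Eu x)
      have hw0 : 0 < ‖(w : TangentSpace 𝓘(ℝ, V) x)‖ := by
        have : 0 < ‖w‖ := norm_pos_iff.2 hw
        exact this
      have h4 := hex n x w w.2
      rw [h1 w w.2] at h4
      exact le_of_mul_le_mul_right h4 hw0
  have h4 : a ^ d ≤ (c⁻¹) ^ Module.finrank ℝ V * a ^ Module.finrank ℝ (Eu x) := by
    have hdx := hd x
    rcases h3 with h | h
    · have hd0 : d = 0 := by omega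
      rw [h, hd0]
      simp only [pow_zero, mul_one]
      exact one_le_pow₀ ((one_le_inv₀ hc0).2 hc1)
    · obtain ⟨k, hk⟩ := Nat.exists_eq_add_of_le hdx
      have h5 : 1 ≤ c⁻¹ * a := by
        rw [inv_mul_eq_div, one_le_div hc0]
        exact h
      calc a ^ d = a ^ d * 1 := (mul_one _).symm
        _ ≤ a ^ d * (c⁻¹ * a) ^ k := by
            gcongr
            exact one_le_pow₀ h5
        _ = (c⁻¹) ^ k * a ^ Module.finrank ℝ (Eu x) := by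
            rw [hk, mul_pow, pow_add]
            ring
        _ ≤ (c⁻¹) ^ Module.finrank ℝ V * a ^ Module.finrank ℝ (Eu x) := by
            gcongr
            · exact (one_le_inv₀ hc0).2 hc1
            · omega
  have h5 : ‖mfderiv 𝓘(ℝ, V) 𝓘(ℝ, V) (f^[n]) x v‖ = a * ‖v‖ := h1 v hv
  rw [h5]
  refine le_trans ?_ (le_of_eq (congrArg (fun t => (c⁻¹) ^ Module.finrank ℝ V * ‖v‖ ^ d * t)
    h2.symm))
  calc (a * ‖v‖) ^ d = ‖v‖ ^ d * a ^ d := by ring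
    _ ≤ ‖v‖ ^ d * ((c⁻¹) ^ Module.finrank ℝ V * a ^ Module.finrank ℝ (Eu x)) := by gcongr
    _ = _ := by ring

end Pool.Agent.Lib.MP610fe3.Cf
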