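import Pool.Agent.Lib.MP_610fe3_an.Cf.Basic

/-!
# Module DIFF: the holonomy is differentiable at the base point
-/

open Set Filter Function MeasureTheory
open scoped Topology

namespace Pool.Agent.Lib.MP610fe3.Cf

universe u v

section

variable {M : Type u} {W : Type v} [MetricSpace M] [CompactSpace M] [NormedAddCommGroup W]
  [NormedSpace ℝ W] {E : Emb M W} {f : M ≃ₜ M} {s : Split E f}
  {c : Conf s} {ε C l : ℝ} {ψ : M → M → W} {Q : M → M → W →L[ℝ] W} {q : M → M → ℝ}
  {P : M → M → W →L[ℝ] W} {p : M → M → ℝ}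

theorem Flat.self (h : Flat c ε C ψ Q q) (x : M) : ψ x x = 0 := by
  have h1 := h.upper x x (mem_Wl_self h.ε_pos.le)
  rw [dist_self, mul_zero] at h1
  exact norm_le_zero_iff.1 h1

theorem Flat.equiv_iter (h : Flat c ε C ψ Q q) (n : ℕ) {x z : M} (hz : z ∈ Wl f ε x) :
    ψ (f^[n] x) (f^[n] z) = iterD s.D f n x (ψ x z) := by
  induction n with
  | zero => simp [iterD]
  | succ n ih =>
    rw [iterate_succ_apply', iterate_succ_apply', h.equiv _ _ (Wl_iter hz n), ih, iterD_succ',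
      ContinuousLinearMap.comp_apply]

theorem LinHol.equiv_iter (h : LinHol c ε C P p) (n : ℕ) {x y : M}
    (hy : ∀ k ≤ n, f^[k] y ∈ Wl f.symm ε (f^[k] x)) (v : W) :
    P (f^[n] x) (f^[n] y) (iterD s.D f n x v) = iterD s.D f n y (P x y v) := by
  induction n with
  | zero => simp [iterD]
  | succ n ih =>
    have h1 := h.P_equiv _ _ (hy n (Nat.le_succ n))
      (by have h0 := hy (n + 1) le_rfl; rwa [iterate_succ_apply', iterate_succ_apply'] at h0)
    have h2 := congrArg (fun L => L (iterD s.D f n x v)) h1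
    simp only [ContinuousLinearMap.comp_apply] at h2
    rw [iterate_succ_apply', iterate_succ_apply', iterD_succ', ContinuousLinearMap.comp_apply, h2,
      ih fun k hk => hy k (hk.trans (Nat.le_succ n)), iterD_succ', ContinuousLinearMap.comp_apply]

/-- Uniform continuity of the holonomy at the identity. -/
theorem exists_delta (hfl : Flat c ε C ψ Q q) (hl : LinHol c ε C P p) (hbr : Br f ε C)
    {η : ℝ} (hη : 0 < η) : ∃ r : ℝ, 0 < r ∧ ∀ x, ∀ y ∈ Wl f.symm ε x, ∀ z ∈ Wl f ε x,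
      ∀ z', z' ∈ Wl f ε y → z' ∈ Wl f.symm ε z → dist x y ≤ r →
      ‖ψ y z' - P x y (ψ x z)‖ < η := by
  -- points are `(x, y, z, z')`
  set K : Set (M × M × M × M) := {a | a.2.1 ∈ Wl f.symm ε a.1 ∧ a.2.2.1 ∈ Wl f ε a.1 ∧
    a.2.2.2 ∈ Wl f ε a.2.1 ∧ a.2.2.2 ∈ Wl f.symm ε a.2.2.1} with hK
  have hKc : IsClosed K := by
    have h1 : IsClosed {a : M × M × M × M | a.2.1 ∈ Wl f.symm ε a.1} :=
      (isClosed_Wl_prod f.symm ε).preimage
        (f := fun a : M × M × M × M => (a.1, a.2.1)) (by fun_prop)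
    have h2 : IsClosed {a : M × M × M × M | a.2.2.1 ∈ Wl f ε a.1} :=
      (isClosed_Wl_prod f ε).preimage
        (f := fun a : M × M × M × M => (a.1, a.2.2.1)) (by fun_prop)
    have h3 : IsClosed {a : M × M × M × M | a.2.2.2 ∈ Wl f ε a.2.1} :=
      (isClosed_Wl_prod f ε).preimage
        (f := fun a : M × M × M × M => (a.2.1, a.2.2.2)) (by fun_prop)
    have h4 : IsClosed {a : M × M × M × M | a.2.2.2 ∈ Wl f.symm ε a.2.2.1} :=
      (isClosed_Wl_prod f.symm ε).preimage
        (f := fun a : M × M × M × M => (a.2.2.1, a.2.2.2)) (by fun_prop)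
    exact h1.inter (h2.inter (h3.inter h4))
  set Δ : M × M × M × M → W := fun a => ψ a.2.1 a.2.2.2 - P a.1 a.2.1 (ψ a.1 a.2.2.1) with hΔ
  have hΔc : ContinuousOn Δ K := by
    have h1 : ContinuousOn (fun a : M × M × M × M => ψ a.2.1 a.2.2.2) K :=
      hfl.cont.comp (f := fun a : M × M × M × M => (a.2.1, a.2.2.2))
        (by fun_prop) fun a ha => ha.2.2.1
    have h2 : ContinuousOn (fun a : M × M × M × M => ψ a.1 a.2.2.1) K :=
      hfl.cont.comp (f := fun a : M × M × M × M => (a.1, a.2.2.1))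
        (by fun_prop) fun a ha => ha.2.1
    have h3 : ContinuousOn (fun a : M × M × M × M => P a.1 a.2.1) K :=
      hl.P_cont.comp (f := fun a : M × M × M × M => (a.1, a.2.1))
        (by fun_prop) fun a ha => ha.1
    exact h1.sub (h3.clm_apply h2)
  set T : Set (M × M × M × M) := K ∩ {a | η ≤ ‖Δ a‖} with hT
  have hTc : IsCompact T := by
    have h1 : IsClosed T :=
      (hΔc.norm).preimage_isClosed_of_isClosed hKc (isClosed_Ici (a := η))
    exact h1.isCompact
  rcases T.eq_empty_or_nonempty with hemp | hne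
  · refine ⟨1, one_pos, fun x y hy z hz z' h1 h2 _ => ?_⟩
    by_contra hcon
    push Not at hcon
    have : (x, y, z, z') ∈ T := ⟨⟨hy, hz, h1, h2⟩, hcon⟩
    rw [hemp] at this
    exact this
  · obtain ⟨a, haT, hmin⟩ := hTc.exists_isMinOn hne
      (f := fun a : M × M × M × M => dist a.1 a.2.1) (by fun_prop)
    have hpos : 0 < dist a.1 a.2.1 := by
      rw [dist_pos]
      intro heq
      obtain ⟨⟨-, h2, h3, h4⟩, h5⟩ := haT
      have h6 : a.2.2.1 = a.2.2.2 := by
        refine hbr.unique a.1 a.2.2.1 _ _ h2 (mem_Wl_self hbr.ε_pos.le) ?_ h4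
        rw [heq]; exact h3
      have h7 : Δ a = 0 := by
        rw [hΔ]
        simp only
        rw [← heq, ← h6, hl.P_self, hfl.mem _ _ h2, sub_self]
      rw [mem_ofPred_eq, h7, norm_zero] at h5
      linarith
    refine ⟨dist a.1 a.2.1 / 2, by positivity, fun x y hy z hz z' h1 h2 hxy => ?_⟩
    by_contra hcon
    push Not at hcon
    have h3 : (x, y, z, z') ∈ T := ⟨⟨hy, hz, h1, h2⟩, hcon⟩
    have h4 := hmin h3
    simp only [mem_ofPred_eq] at h4
    linarith

theorem exists_dif (h : Pack c ε C l ψ Q q P p) : ∃ ε' : ℝ, ε' ≤ ε ∧ Dif f ψ P ε' := by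
  have hε := h.flat.ε_pos
  have hC := h.flat.one_le
  obtain ⟨K, hK, hiter⟩ := c.exists_iter_bound
  -- scales
  set e : ℝ := ε / 3 with he
  have he0 : 0 < e := by positivity
  obtain ⟨c₀, hc₀, huc⟩ := Metric.uniformContinuous_iff.1
    (CompactSpace.uniformContinuous_of_continuous f.symm.continuous) e he0
  refine ⟨e, by rw [he]; linarith, he0, fun η hη => ?_⟩
  set η' : ℝ := η * c₀ / (2 * K ^ 2 * C) with hη'
  have hη'0 : 0 < η' := by positivity
  obtain ⟨r₁, hr₁, hdel⟩ := exists_delta h.flat h.lin h.br hη'0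
  -- choose the number of steps
  obtain ⟨m₀, hm₀⟩ : ∃ m₀ : ℕ, ∀ m ≥ m₀, C * l ^ m * e ≤ r₁ := by
    have h1 : Tendsto (fun m : ℕ => C * l ^ m * e) atTop (𝓝 (C * 0 * e)) :=
      ((tendsto_pow_atTop_nhds_zero_of_lt_one h.decu.l_pos.le h.decu.l_lt).const_mul C).mul_const e
    rw [mul_zero, zero_mul] at h1
    obtain ⟨m₀, hm⟩ := eventually_atTop.1 (h1.eventually (gt_mem_nhds hr₁))
    exact ⟨m₀, fun m hmm => (hm m hmm).le⟩
  obtain ⟨r, hr, hunif⟩ := exists_unif_iter f.symm.continuous (m₀ + 1) he0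
  refine ⟨r / 2, by positivity, fun x y hy z hz hzx z' hz'y hz'z => ?_⟩
  have hee : e ≤ ε := by rw [he]; linarith
  rcases eq_or_ne z x with rfl | hne
  · -- trivial case
    have h1 : z' = y := h.br.unique y z _ _ (Wl_mono hee hz'y) (Wl_mono hee hz'z)
      (mem_Wl_self hε.le) (Wl_mono hee hy)
    rw [h1, h.flat.self, h.flat.self, map_zero, sub_self, norm_zero, mul_zero]
  -- first exit time
  have hex : ∃ k : ℕ, e < dist (f.symm^[k] z) (f.symm^[k] x) := by
    by_contra hcon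
    push Not at hcon
    apply hne
    exact h.br.unique x x z x (Wl_mono hee hz) (Wl_mono hee (fun k => hcon k))
      (mem_Wl_self hε.le) (mem_Wl_self hε.le)
  classical
  set n := Nat.find hex with hn
  have hn1 : e < dist (f.symm^[n] z) (f.symm^[n] x) := Nat.find_spec hex
  have hn2 : ∀ k < n, dist (f.symm^[k] z) (f.symm^[k] x) ≤ e := fun k hk => by
    have := Nat.find_min hex hk
    push Not at this
    exact this
  have hn3 : m₀ + 1 < n := by
    by_contra hcon
    push Not at hcon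
    have := hunif z x (by linarith) n hcon
    linarith
  obtain ⟨m, hm⟩ : ∃ m, n = m + 1 := ⟨n - 1, by omega⟩
  have hmm : m₀ ≤ m := by omega
  set X := f.symm^[m] x with hX
  set Y := f.symm^[m] y with hY
  set Z := f.symm^[m] z with hZ
  set Z' := f.symm^[m] z' with hZ'
  have hfX : f^[m] X = x := iterate_symm_iterate f m x
  have hfY : f^[m] Y = y := iterate_symm_iterate f m y
  have hfZ : f^[m] Z = z := iterate_symm_iterate f m z
  have hfZ' : f^[m] Z' = z' := iterate_symm_iterate f m z'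
  have hYX : Y ∈ Wl f.symm e X := Wl_iter hy m
  have hZZ' : Z' ∈ Wl f.symm e Z := Wl_iter hz'z m
  have hback : ∀ k ≤ m, ∀ w, f^[k] (f.symm^[m] w) = f.symm^[m - k] w := fun k hk w =>
    iterate_symm_iterate_of_le f hk w
  have hZX : Z ∈ Wl f e X := by
    refine Wl_of_iter (n := m) (by rw [hfZ, hfX]; exact hz) fun k hk => ?_
    rw [hZ, hX, hback k hk.le, hback k hk.le]
    exact hn2 _ (by omega)
  have hZ'Y : Z' ∈ Wl f ε Y := by
    refine Wl_of_iter (n := m) (by rw [hfZ', hfY]; exact Wl_mono hee hz'y) fun k hk => ?_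
    rw [hZ', hY, hback k hk.le, hback k hk.le]
    have a1 := hz'z (m - k)
    have a2 := hn2 (m - k) (by omega)
    have a3 := hy (m - k)
    rw [dist_comm] at a3
    have a4 := dist_triangle (f.symm^[m - k] z') (f.symm^[m - k] z) (f.symm^[m - k] x)
    have a5 := dist_triangle (f.symm^[m - k] z') (f.symm^[m - k] x) (f.symm^[m - k] y)
    rw [he] at a1 a2 a3
    linarith
  have hdist : c₀ ≤ dist Z X := by
    by_contra hcon
    push Not at hcon
    have := huc hcon
    rw [hm, iterate_succ_apply', iterate_succ_apply'] at hn1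
    linarith
  have hXY : dist X Y ≤ r₁ := by
    rw [dist_comm]
    have a1 := h.decu.dec x y (Wl_mono hee hy) m
    refine a1.trans (le_trans ?_ (hm₀ m hmm))
    have a2 : dist y x ≤ e := Wl_dist hy
    have a3 := h.decu.l_pos
    gcongr
  have hD := (hdel X Y (Wl_mono hee hYX) Z (Wl_mono hee hZX) Z' hZ'Y (Wl_mono hee hZZ') hXY).le
  set δ := ψ Y Z' - P X Y (ψ X Z) with hδ
  -- equivariance
  have e1 : ψ y z' = iterD s.D f m Y (ψ Y Z') := by
    rw [← hfY, ← hfZ', h.flat.equiv_iter m hZ'Y]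
  have e2 : ψ x z = iterD s.D f m X (ψ X Z) := by
    rw [← hfX, ← hfZ, h.flat.equiv_iter m (Wl_mono hee hZX)]
  have e3 : P x y (ψ x z) = iterD s.D f m Y (P X Y (ψ X Z)) := by
    rw [e2]
    have := h.lin.equiv_iter m (x := X) (y := Y) (fun k hk => ?_) (ψ X Z)
    · rwa [hfX, hfY] at this
    · rw [hX, hY, hback k hk, hback k hk]
      exact Wl_mono hee (Wl_iter hy _)
  have e4 : s.S Y δ = δ := by
    have a1 := h.flat.mem Y Z' hZ'Y
    have a2 := congrArg (fun L => L (ψ X Z)) (h.lin.S_P X Y (Wl_mono hee hYX))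
    simp only [ContinuousLinearMap.comp_apply] at a2
    rw [hδ, map_sub, a1, a2]
  have e5 : ψ y z' - P x y (ψ x z) = iterD s.D f m Y δ := by
    rw [e1, e3, hδ, map_sub]
  rw [e5]
  have f1 := (hiter m Y δ).1
  rw [e4] at f1
  have f2 := (hiter m X (ψ X Z)).2.1
  rw [h.flat.mem X Z (Wl_mono hee hZX), ← e2] at f2
  have f3 := h.flat.lower X Z (Wl_mono hee hZX)
  have f4 := h.lin.dist_le x y (Wl_mono hee hy) m
  have haX := c.an_pos m X
  have haY := c.an_pos m Y
  have hψ : 0 ≤ ‖ψ x z‖ := norm_nonneg _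
  have f5 : c.an m X * c₀ ≤ 2 * K * ‖ψ x z‖ := by
    calc c.an m X * c₀ ≤ c.an m X * dist Z X := by gcongr
      _ ≤ c.an m X * (2 * ‖ψ X Z‖) := by gcongr
      _ = 2 * (c.an m X * ‖ψ X Z‖) := by ring
      _ ≤ 2 * (K * ‖ψ x z‖) := by gcongr
      _ = _ := by ring
  calc ‖iterD s.D f m Y δ‖ ≤ K * c.an m Y * ‖δ‖ := f1
    _ ≤ K * (C * c.an m X) * η' := by gcongr
    _ = (η / (2 * K)) * (c.an m X * c₀) := by
        rw [hη']
        field_simp
    _ ≤ (η / (2 * K)) * (2 * K * ‖ψ x z‖) := by gcongr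
    _ = η * ‖ψ x z‖ := by field_simp

end

theorem specDif : SpecDif.{u, v} := fun _ _ _ _ _ _ _ _ _ _ _ _ _ _ _ _ _ _ _ h => exists_dif h

end Pool.Agent.Lib.MP610fe3.Cf
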