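import Pool.Agent.Lib.MP_610fe3_an.Cf.Spec
import Pool.Agent.Lib.MP_610fe3_an.TopA
import Pool.Agent.Lib.MP_610fe3_an.Cf.H1Wl

/-!
# Trapping regions, basins and attractors (helper1)
-/

open Set Filter Function MeasureTheory
open scoped Topology

namespace Pool.Agent.Lib.MP610fe3.Cf.H1

variable {M : Type*} [MetricSpace M] {f : M ≃ₜ M} {U : Set M}

theorem trap_maps (hU : Trap f U) {x : M} (hx : x ∈ U) : f x ∈ U := hU.2 (subset_closure hx)

theorem trap_iter (hU : Trap f U) {x : M} (hx : x ∈ U) (n : ℕ) : f^[n] x ∈ U := by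
  induction n with
  | zero => exact hx
  | succ n ih =>
    rw [iterate_succ_apply']
    exact trap_maps hU ih

theorem trap_iter_le (hU : Trap f U) {x : M} {m n : ℕ} (hmn : m ≤ n) (hx : f^[m] x ∈ U) :
    f^[n] x ∈ U := by
  obtain ⟨k, rfl⟩ := Nat.exists_eq_add_of_le hmn
  rw [add_comm, iterate_add_apply]
  exact trap_iter hU hx k

theorem trap_symm_le (hU : Trap f U) {x : M} {m n : ℕ} (hmn : m ≤ n) (hx : f.symm^[n] x ∈ U) :
    f.symm^[m] x ∈ U := by
  obtain ⟨k, rfl⟩ := Nat.exists_eq_add_of_le hmn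
  have h := trap_iter hU hx k
  rw [add_comm, iterate_add_apply, iter_symm_iter] at h
  exact h

theorem mem_bas_iter (hU : Trap f U) {x : M} {k : ℕ} : f^[k] x ∈ Bas f U ↔ x ∈ Bas f U := by
  constructor
  · rintro ⟨n, hn⟩
    exact ⟨n + k, by rwa [iterate_add_apply]⟩
  · rintro ⟨n, hn⟩
    refine ⟨n, ?_⟩
    rw [← iterate_add_apply]
    exact trap_iter_le hU (by omega) hn

theorem mem_att_iter (hU : Trap f U) {x : M} {k : ℕ} : f^[k] x ∈ Att f U ↔ x ∈ Att f U := by
  constructor
  · intro h n
    have h1 := h (n + k)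
    rw [iterate_add_apply, symm_iter_iter] at h1
    exact h1
  · intro h n
    have h1 := trap_iter hU (h n) k
    have h2 : f^[k] (f.symm^[n] x) = f.symm^[n] (f^[k] x) := by
      have hc : Function.Commute f.symm f := fun y => by
        rw [f.symm_apply_apply, f.apply_symm_apply]
      exact ((hc.iterate_iterate n k) x).symm
    rwa [h2] at h1

theorem att_subset_bas (f : M ≃ₜ M) (U : Set M) : Att f U ⊆ Bas f U := fun _ hx => ⟨0, hx 0⟩

theorem isOpen_bas (hU : Trap f U) : IsOpen (Bas f U) := by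
  have : Bas f U = ⋃ n : ℕ, (f^[n]) ⁻¹' U := by
    ext x; simp [Bas]
  rw [this]
  exact isOpen_iUnion fun n => hU.1.preimage (f.continuous.iterate n)

theorem att_eq (hU : Trap f U) : Att f U = {x | ∀ n : ℕ, f.symm^[n] x ∈ closure U} := by
  ext x
  refine ⟨fun h n => subset_closure (h n), fun h n => ?_⟩
  have h1 := hU.2 (h (n + 1))
  rw [iterate_succ_apply', f.apply_symm_apply] at h1
  exact h1

theorem isClosed_att (hU : Trap f U) : IsClosed (Att f U) := by
  rw [att_eq hU]
  have : {x | ∀ n : ℕ, f.symm^[n] x ∈ closure U} = ⋂ n : ℕ, (f.symm^[n]) ⁻¹' closure U := by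
    ext x; simp
  rw [this]
  exact isClosed_iInter fun n => isClosed_closure.preimage (f.symm.continuous.iterate n)

/-- A uniform neighbourhood of `f (closure U)` is in `U`. -/
theorem exists_margin [CompactSpace M] (hU : Trap f U) :
    ∃ r : ℝ, 0 < r ∧ ∀ x ∈ closure U, ∀ y, dist y (f x) < r → y ∈ U := by
  have hK : IsCompact (f '' closure U) := isClosed_closure.isCompact.image f.continuous
  have hsub : f '' closure U ⊆ U := by
    rintro _ ⟨x, hx, rfl⟩
    exact hU.2 hx
  obtain ⟨r, hr, hr'⟩ := hK.exists_thickening_subset_open hU.1 hsub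
  refine ⟨r, hr, fun x hx y hy => hr' ?_⟩
  rw [Metric.mem_thickening_iff]
  exact ⟨f x, mem_image_of_mem f hx, hy⟩

/-- The basin is saturated by stable sets. -/
theorem bas_of_asymp [CompactSpace M] (hU : Trap f U) {x y : M} (hx : x ∈ Bas f U)
    (h : Tendsto (fun n : ℕ => dist (f^[n] y) (f^[n] x)) atTop (𝓝 0)) : y ∈ Bas f U := by
  obtain ⟨r, hr, hr'⟩ := exists_margin hU
  obtain ⟨n, hn⟩ := hx
  obtain ⟨N, hN⟩ := eventually_atTop.1 (h.eventually (gt_mem_nhds hr))
  refine ⟨max n N + 1, hr' (f^[max n N] x) (subset_closure (trap_iter_le hU (le_max_left _ _) hn))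
    _ ?_⟩
  rw [← iterate_succ_apply' f]
  exact hN _ (by omega)

/-- The attractor is saturated by unstable sets. -/
theorem att_of_asymp [CompactSpace M] (hU : Trap f U) {x y : M} (hx : x ∈ Att f U)
    (h : Tendsto (fun n : ℕ => dist (f.symm^[n] y) (f.symm^[n] x)) atTop (𝓝 0)) :
    y ∈ Att f U := by
  obtain ⟨r, hr, hr'⟩ := exists_margin hU
  obtain ⟨N, hN⟩ := eventually_atTop.1 (h.eventually (gt_mem_nhds hr))
  have h1 : ∀ n, N ≤ n → f.symm^[n] y ∈ U := by
    intro n hn
    refine hr' (f.symm^[n + 1] x) (subset_closure (hx _)) _ ?_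
    rw [iterate_succ_apply', f.apply_symm_apply]
    exact hN n hn
  intro n
  exact trap_symm_le hU (le_max_left n N) (h1 _ (le_max_right _ _))

theorem bas_ne_univ [CompactSpace M] (hU : Trap f U) (hne : U ≠ univ) : Bas f U ≠ univ := by
  intro h
  have hcov : (univ : Set M) ⊆ ⋃ n : ℕ, (f^[n]) ⁻¹' U := by
    rw [← h]
    intro x hx
    obtain ⟨n, hn⟩ := hx
    exact mem_iUnion.2 ⟨n, hn⟩
  obtain ⟨t, ht⟩ := isCompact_univ.elim_finite_subcover (fun n : ℕ => (f^[n]) ⁻¹' U)
    (fun n => hU.1.preimage (f.continuous.iterate n)) hcov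
  obtain ⟨N, hN⟩ := t.bddAbove
  apply hne
  rw [eq_univ_iff_forall]
  intro y
  have h1 := ht (mem_univ (f.symm^[N] y))
  simp only [mem_iUnion] at h1
  obtain ⟨n, hn, h2⟩ := h1
  have h3 := trap_iter_le hU (hN hn) h2
  rwa [iter_symm_iter] at h3

/-- If `f` is not chain transitive then there is a nontrivial trapping region. -/
theorem exists_trap (h : ¬ ChainTransitive f) : ∃ U, Trap f U ∧ U.Nonempty ∧ U ≠ univ := by
  unfold ChainTransitive at h
  push Not at h
  obtain ⟨x, y, ε, hε, hno⟩ := h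
  refine ⟨{z | Chain f ε x z}, ⟨?_, ?_⟩, ⟨f x, ?_⟩, ?_⟩
  · rw [Metric.isOpen_iff]
    rintro z ⟨m, c, hm, h0, hl, hc⟩
    have h1 : dist (f (c (m - 1))) z < ε := by
      have := hc (m - 1) (by omega)
      rwa [show m - 1 + 1 = m by omega, hl] at this
    refine ⟨ε - dist (f (c (m - 1))) z, by linarith, fun w hw => ?_⟩
    rw [Metric.mem_ball] at hw
    refine ⟨m, fun i => if i = m then w else c i, hm, ?_, by simp, fun i hi => ?_⟩
    · have : ¬ (0 = m) := by omega
      simp [this, h0]
    · have h2 : ¬ (i = m) := by omega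
      simp only [h2, if_false]
      by_cases h3 : i + 1 = m
      · simp only [h3, if_true]
        have h4 : i = m - 1 := by omega
        rw [h4]
        have := dist_triangle (f (c (m - 1))) z w
        rw [dist_comm z w] at this
        linarith
      · simp only [h3, if_false]
        exact hc i hi
  · intro z hz
    obtain ⟨r, hr, hfr⟩ := Metric.continuous_iff.1 f.continuous z ε hε
    obtain ⟨z', hz', hd⟩ := Metric.mem_closure_iff.1 hz r hr
    have h1 : dist (f z') (f z) < ε := hfr z' (by rwa [dist_comm])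
    have h2 : Chain f ε z' (f z) := ⟨1, fun i => if i = 0 then z' else f z, one_pos, by simp,
      by simp, fun i hi => by
        have : i = 0 := by omega
        subst this
        simpa using h1⟩
    exact Chain.trans hz' h2
  · exact chain_iterate hε x (m := 1) one_pos
  · intro hall
    have : y ∈ {z | Chain f ε x z} := by rw [hall]; exact mem_univ y
    exact hno this

end Pool.Agent.Lib.MP610fe3.Cf.H1
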