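import Mathlib

/-!
# Module HOLO: the argument in the complex plane
-/

open Set Filter Function Metric Complex
open scoped Topology

namespace Pool.Agent.Lib.MP610fe3.Cf

theorem lin_of_I {L : ℂ →L[ℝ] ℂ} (h : L I = I * L 1) (v : ℂ) : L v = v * L 1 := by
  have h1 : v = v.re • (1 : ℂ) + v.im • I := by
    apply Complex.ext <;> simp
  conv_lhs => rw [h1]
  rw [map_add, map_smul, map_smul, h]
  conv_rhs => rw [h1]
  simp only [Complex.real_smul]
  ring

theorem sq_of_sim {L : ℂ →L[ℝ] ℂ} {lam : ℝ} (h : ∀ v, ‖L v‖ = lam * ‖v‖) :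
    (L I) ^ 2 = (I * L 1) ^ 2 := by
  have h1 := h 1
  have h2 := h I
  have h3 := h (1 + I)
  rw [map_add] at h3
  rw [norm_one, mul_one] at h1
  rw [norm_I, mul_one] at h2
  have h4 : ‖(1 : ℂ) + I‖ ^ 2 = 2 := by
    rw [← Complex.normSq_eq_norm_sq]
    simp [Complex.normSq_apply]
    norm_num
  have e1 : ‖L 1‖ ^ 2 = lam ^ 2 := by rw [h1]
  have e2 : ‖L I‖ ^ 2 = lam ^ 2 := by rw [h2]
  have e3 : ‖L 1 + L I‖ ^ 2 = lam ^ 2 * 2 := by rw [h3, mul_pow, h4]
  rw [← Complex.normSq_eq_norm_sq, Complex.normSq_apply] at e1 e2 e3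
  rw [Complex.add_re, Complex.add_im] at e3
  set a := (L 1).re
  set b := (L 1).im
  set c := (L I).re
  set d := (L I).im
  have k1 : a * c + b * d = 0 := by nlinarith
  have k2 : a * a + b * b = c * c + d * d := by linarith
  have k3 : c * c - d * d = b * b - a * a := by
    have : (c * c + d * d) * ((c * c - d * d) - (b * b - a * a)) = 0 := by
      have h5 : (c * c + d * d) * (c * c) = (c * c + d * d) * (b * b) := by
        calc (c * c + d * d) * (c * c) = (a * a + b * b) * (c * c) := by rw [k2]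
          _ = (a * c) * (a * c) + b * b * (c * c) := by ring
          _ = (b * d) * (b * d) + b * b * (c * c) := by
              have : a * c = - (b * d) := by linarith
              rw [this]; ring
          _ = (c * c + d * d) * (b * b) := by ring
      have h6 : (c * c + d * d) * (d * d) = (c * c + d * d) * (a * a) := by
        calc (c * c + d * d) * (d * d) = (a * a + b * b) * (d * d) := by rw [k2]
          _ = a * a * (d * d) + (b * d) * (b * d) := by ring
          _ = a * a * (d * d) + (a * c) * (a * c) := by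
              have : b * d = - (a * c) := by linarith
              rw [this]; ring
          _ = (c * c + d * d) * (a * a) := by ring
      linear_combination h5 - h6
    rcases mul_eq_zero.1 this with h7 | h7
    · have hc : c = 0 := by nlinarith [mul_self_nonneg c, mul_self_nonneg d]
      have hd : d = 0 := by nlinarith [mul_self_nonneg c, mul_self_nonneg d]
      have ha : a = 0 := by nlinarith [mul_self_nonneg a, mul_self_nonneg b]
      have hb : b = 0 := by nlinarith [mul_self_nonneg a, mul_self_nonneg b]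
      rw [ha, hb, hc, hd]
    · linarith
  have k4 : c * d = - (a * b) := by
    have : (c * c + d * d) * (c * d + a * b) = 0 := by
      have h5 : (a * a + b * b) * (c * d + a * b) = (a * d + b * c) * (a * c + b * d)
          + a * b * ((a * a + b * b) - (c * c + d * d)) := by ring
      rw [← k2, h5, k1, k2]
      ring
    rcases mul_eq_zero.1 this with h7 | h7
    · have hc : c = 0 := by nlinarith [mul_self_nonneg c, mul_self_nonneg d]
      have ha : a = 0 := by nlinarith [mul_self_nonneg a, mul_self_nonneg b, mul_self_nonneg d]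
      rw [ha, hc]
      ring
    · linarith
  apply Complex.ext
  · simp only [pow_two, Complex.mul_re, Complex.mul_im, Complex.I_re, Complex.I_im]
    change c * c - d * d = _
    rw [k3]
    change _ = (0 * a - 1 * b) * (0 * a - 1 * b) - (0 * b + 1 * a) * (0 * b + 1 * a)
    ring
  · simp only [pow_two, Complex.mul_re, Complex.mul_im, Complex.I_re, Complex.I_im]
    change c * d + d * c = (0 * a - 1 * b) * (0 * b + 1 * a) + (0 * b + 1 * a) * (0 * a - 1 * b)
    linear_combination 2 * k4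

theorem log_sub_le {a b m : ℝ} (hm : 0 < m) (ha : m ≤ a) (hb : m ≤ b) :
    |Real.log a - Real.log b| ≤ |a - b| / m := by
  wlog h : b ≤ a generalizing a b
  · rw [abs_sub_comm, abs_sub_comm a b]
    exact this hb ha (le_of_not_ge h)
  have ha0 : 0 < a := hm.trans_le ha
  have hb0 : 0 < b := hm.trans_le hb
  have h1 : Real.log b ≤ Real.log a := Real.log_le_log hb0 h
  rw [abs_of_nonneg (by linarith), abs_of_nonneg (by linarith), ← Real.log_div ha0.ne' hb0.ne']
  have h2 := Real.log_le_sub_one_of_pos (div_pos ha0 hb0)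
  calc Real.log (a / b) ≤ a / b - 1 := h2
    _ = (a - b) / b := by field_simp
    _ ≤ (a - b) / m := by
        apply div_le_div_of_nonneg_left (by linarith) hm hb

/-- The case of a holomorphic map. -/
theorem hc_lin {r m Mx : ℝ} (hr : 0 < r) (hm : 0 < m) (H : ℂ → ℂ) (L : ℂ → ℂ →L[ℝ] ℂ)
    (lam : ℂ → ℝ) (hH : ∀ ζ ∈ ball (0 : ℂ) r, HasFDerivAt H (L ζ) ζ)
    (hsim : ∀ ζ ∈ ball (0 : ℂ) r, ∀ v, ‖L ζ v‖ = lam ζ * ‖v‖)
    (hlam : ∀ ζ ∈ ball (0 : ℂ) r, m ≤ lam ζ ∧ lam ζ ≤ Mx)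
    (hlin : ∀ ζ ∈ ball (0 : ℂ) r, L ζ I = I * L ζ 1) :
    (∀ ζ ∈ ball (0 : ℂ) r, |Real.log (lam ζ) - Real.log (lam 0)| ≤ 2 * Mx / (m * r) * ‖ζ‖) ∧
    ((∀ ζ ∈ ball (0 : ℂ) r, lam ζ = lam 0) → ∀ ζ ∈ ball (0 : ℂ) r, H ζ = H 0 + L 0 ζ) := by
  have h0 : (0 : ℂ) ∈ ball (0 : ℂ) r := mem_ball_self hr
  have hd : ∀ ζ ∈ ball (0 : ℂ) r, HasDerivAt H (L ζ 1) ζ := by
    intro ζ hζ
    refine hasFDerivAt_of_restrictScalars (𝕜 := ℝ) (hH ζ hζ) ?_
    ext v
    simp only [ContinuousLinearMap.coe_restrictScalars', ContinuousLinearMap.toSpanSingleton_apply,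
      smul_eq_mul]
    exact (lin_of_I (hlin ζ hζ) v).symm
  have hdiff : DifferentiableOn ℂ H (ball 0 r) := fun ζ hζ =>
    (hd ζ hζ).differentiableAt.differentiableWithinAt
  have hD : DifferentiableOn ℂ (deriv H) (ball 0 r) := hdiff.deriv isOpen_ball
  have hDe : ∀ ζ ∈ ball (0 : ℂ) r, deriv H ζ = L ζ 1 := fun ζ hζ => (hd ζ hζ).deriv
  have hDn : ∀ ζ ∈ ball (0 : ℂ) r, ‖deriv H ζ‖ = lam ζ := by
    intro ζ hζ
    rw [hDe ζ hζ, hsim ζ hζ, norm_one, mul_one]
  constructor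
  · intro ζ hζ
    have hmaps : MapsTo (deriv H) (ball 0 r) (closedBall (deriv H 0) (2 * Mx)) := by
      intro w hw
      rw [mem_closedBall, dist_eq_norm]
      calc ‖deriv H w - deriv H 0‖ ≤ ‖deriv H w‖ + ‖deriv H 0‖ := norm_sub_le _ _
        _ ≤ Mx + Mx := by
            rw [hDn w hw, hDn 0 h0]
            exact add_le_add (hlam w hw).2 (hlam 0 h0).2
        _ = 2 * Mx := by ring
    have h1 := Complex.dist_le_div_mul_dist_of_mapsTo_ball hD hmaps hζ
    rw [dist_zero_right, dist_eq_norm] at h1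
    have h2 : |lam ζ - lam 0| ≤ ‖deriv H ζ - deriv H 0‖ := by
      rw [← hDn ζ hζ, ← hDn 0 h0]
      exact abs_norm_sub_norm_le _ _
    refine (log_sub_le hm (hlam ζ hζ).1 (hlam 0 h0).1).trans ?_
    rw [div_le_iff₀ hm]
    calc |lam ζ - lam 0| ≤ 2 * Mx / r * ‖ζ‖ := h2.trans h1
      _ = 2 * Mx / (m * r) * ‖ζ‖ * m := by field_simp
  · intro hconst ζ hζ
    have hmax : IsMaxOn (norm ∘ deriv H) (ball 0 r) 0 := by
      intro w hw
      simp only [Set.mem_ofPred_eq, comp_apply]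
      rw [hDn w hw, hDn 0 h0, hconst w hw]
    have hpre : IsPreconnected (ball (0 : ℂ) r) := (convex_ball _ _).isPreconnected
    have hD0 := Complex.eqOn_of_isPreconnected_of_isMaxOn_norm hpre isOpen_ball hD h0 hmax
    have hF : ∀ w ∈ ball (0 : ℂ) r, HasDerivAt (fun z => H z - z * L 0 1) 0 w := by
      intro w hw
      have h1 := (hd w hw).sub ((hasDerivAt_id w).mul_const (L 0 1))
      have h2 : L w 1 - 1 * L 0 1 = 0 := by
        rw [one_mul, ← hDe w hw, ← hDe 0 h0, hD0 hw]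
        simp
      rw [h2] at h1
      exact h1
    have h3 := isOpen_ball.is_const_of_deriv_eq_zero hpre
      (fun w hw => (hF w hw).differentiableAt.differentiableWithinAt)
      (fun w hw => (hF w hw).deriv) hζ h0
    simp only [zero_mul, sub_zero] at h3
    rw [lin_of_I (hlin 0 h0) ζ, ← h3]
    ring

/-- The general case. -/
theorem hc_core {r m Mx : ℝ} (hr : 0 < r) (hm : 0 < m) (H : ℂ → ℂ) (L : ℂ → ℂ →L[ℝ] ℂ)
    (lam : ℂ → ℝ) (hH : ∀ ζ ∈ ball (0 : ℂ) r, HasFDerivAt H (L ζ) ζ)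
    (hL : ContinuousOn L (ball (0 : ℂ) r))
    (hsim : ∀ ζ ∈ ball (0 : ℂ) r, ∀ v, ‖L ζ v‖ = lam ζ * ‖v‖)
    (hlam : ∀ ζ ∈ ball (0 : ℂ) r, m ≤ lam ζ ∧ lam ζ ≤ Mx) :
    (∀ ζ ∈ ball (0 : ℂ) r, |Real.log (lam ζ) - Real.log (lam 0)| ≤ 2 * Mx / (m * r) * ‖ζ‖) ∧
    ((∀ ζ ∈ ball (0 : ℂ) r, lam ζ = lam 0) → ∀ ζ ∈ ball (0 : ℂ) r, H ζ = H 0 + L 0 ζ) := by
  have hpre : IsPreconnected (ball (0 : ℂ) r) := (convex_ball _ _).isPreconnected
  have hc1 : ContinuousOn (fun ζ => L ζ I) (ball (0 : ℂ) r) := hL.clm_apply continuousOn_const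
  have hc2 : ContinuousOn (fun ζ => I * L ζ 1) (ball (0 : ℂ) r) :=
    continuousOn_const.mul (hL.clm_apply continuousOn_const)
  have hne : ∀ {ζ : ℂ}, ζ ∈ ball (0 : ℂ) r → (fun ζ => I * L ζ 1) ζ ≠ 0 := by
    intro ζ hζ h
    have h1 : ‖I * L ζ 1‖ = lam ζ := by
      rw [norm_mul, norm_I, one_mul, hsim ζ hζ, norm_one, mul_one]
    have h2 : ‖I * L ζ 1‖ = 0 := by
      rw [show I * L ζ 1 = 0 from h, norm_zero]
    have := (hlam ζ hζ).1
    linarith
  have hsq : EqOn ((fun ζ => L ζ I) ^ 2) ((fun ζ => I * L ζ 1) ^ 2) (ball (0 : ℂ) r) := by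
    intro ζ hζ
    exact sq_of_sim (hsim ζ hζ)
  rcases hpre.eq_or_eq_neg_of_sq_eq hc1 hc2 hsq hne with h | h
  · exact hc_lin hr hm H L lam hH hsim hlam (fun ζ hζ => h hζ)
  · -- the antiholomorphic case
    let J : ℂ →L[ℝ] ℂ := (conjCLE : ℂ →L[ℝ] ℂ)
    have hJ : ∀ z, J z = (starRingEnd ℂ) z := fun z => rfl
    have hJn : ∀ z, ‖J z‖ = ‖z‖ := fun z => by rw [hJ]; exact Complex.norm_conj z
    have h1 := hc_lin hr hm (fun ζ => J (H ζ)) (fun ζ => J ∘L L ζ) lam
      (fun ζ hζ => J.hasFDerivAt.comp ζ (hH ζ hζ))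
      (fun ζ hζ v => by
        rw [ContinuousLinearMap.comp_apply, hJn]
        exact hsim ζ hζ v) hlam
      (fun ζ hζ => by
        have h2 : L ζ I = -(I * L ζ 1) := h hζ
        rw [ContinuousLinearMap.comp_apply, ContinuousLinearMap.comp_apply, h2, hJ, hJ, map_neg,
          map_mul, Complex.conj_I]
        ring)
    refine ⟨h1.1, fun hconst ζ hζ => ?_⟩
    have h3 := h1.2 hconst ζ hζ
    have h4 : J (H ζ) = J (H 0 + L 0 ζ) := by
      rw [map_add]
      exact h3
    have h5 := congrArg (starRingEnd ℂ) h4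
    rw [hJ, hJ, Complex.conj_conj, Complex.conj_conj] at h5
    exact h5

end Pool.Agent.Lib.MP610fe3.Cf
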