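import Pool.Agent.Lib.MP_610fe3_an.Cf.Len
import Pool.Agent.Lib.MP_610fe3_an.Cf.HoloCore

/-!
# Module HOLO: complex frames of the stable bundle
-/

open Set Filter Function Metric
open scoped Topology

namespace Pool.Agent.Lib.MP610fe3.Cf

variable {M W : Type*} [MetricSpace M] [NormedAddCommGroup W] [NormedSpace ℝ W]
  {E : Emb M W} {f : M ≃ₜ M} {s : Split E f}

/-- An isometric parametrization of the stable space of `x` by the complex plane. -/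
structure Frame (c : Conf s) (x : M) where
  T : ℂ →L[ℝ] W
  R : W →L[ℝ] ℂ
  RT : ∀ ζ, R (T ζ) = ζ
  TR : ∀ w, s.S x w = w → T (R w) = w
  ST : ∀ ζ, s.S x (T ζ) = T ζ
  gT : ∀ ζ, c.g x (T ζ) = ‖ζ‖

theorem Frame.gR {c : Conf s} {x : M} (F : Frame c x) {w : W} (hw : s.S x w = w) :
    ‖F.R w‖ = c.g x w := by
  rw [← F.gT, F.TR w hw]

theorem exists_frame (c : Conf s) (x : M) (h2 : Module.finrank ℝ (s.S x).range = 2) :
    Nonempty (Frame c x) := by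
  set V : Submodule ℝ W := (s.S x).range with hV
  have hVmem : ∀ v : V, s.S x (v : W) = v := by
    rintro ⟨v, w, rfl⟩
    exact s.SS_apply x w
  have hfin : FiniteDimensional ℝ V := Module.finite_of_finrank_pos (by rw [h2]; norm_num)
  have hpos : ∀ v : W, s.S x v = v → v ≠ 0 → 0 < c.g x v := by
    intro v hv hv0
    exact c.g_pos (by rw [hv]; exact hv0)
  -- first vector
  have hnt : Nontrivial V := Module.nontrivial_of_finrank_pos (R := ℝ) (by rw [h2]; norm_num)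
  obtain ⟨v₁, hv₁⟩ := exists_ne (0 : V)
  have hv₁' : (v₁ : W) ≠ 0 := fun h => hv₁ (Subtype.ext h)
  have hg₁ := hpos v₁ (hVmem v₁) hv₁'
  obtain ⟨e₁, he₁⟩ : ∃ e : W, e = (c.g x v₁)⁻¹ • (v₁ : W) := ⟨_, rfl⟩
  have hSe₁ : s.S x e₁ = e₁ := by rw [he₁, map_smul, hVmem]
  have hge₁ : c.g x e₁ = 1 := by
    rw [he₁, c.g_smul, abs_of_pos (inv_pos.2 hg₁), inv_mul_cancel₀ hg₁.ne']
  have hB₁ : c.B x e₁ e₁ = 1 := by rw [← c.g_sq, hge₁]; norm_num
  -- second vector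
  obtain ⟨v₂, hv₂S, hv₂⟩ : ∃ v₂ : W, s.S x v₂ = v₂ ∧ ∀ t : ℝ, t • e₁ ≠ v₂ := by
    by_contra hcon
    push Not at hcon
    have h1 : Module.finrank ℝ V ≤ 1 := by
      refine finrank_le_one (⟨e₁, e₁, hSe₁⟩ : V) ?_
      intro w
      obtain ⟨t, ht⟩ := hcon w (hVmem w)
      exact ⟨t, Subtype.ext ht⟩
    omega
  obtain ⟨w₂, hw₂⟩ : ∃ w : W, w = v₂ - c.B x e₁ v₂ • e₁ := ⟨_, rfl⟩
  have hw₂0 : w₂ ≠ 0 := by
    intro h
    rw [hw₂] at h
    exact hv₂ _ (sub_eq_zero.1 h).symm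
  have hSw₂ : s.S x w₂ = w₂ := by rw [hw₂, map_sub, map_smul, hv₂S, hSe₁]
  have hBw₂ : c.B x e₁ w₂ = 0 := by
    rw [hw₂, map_sub, map_smul, hB₁, smul_eq_mul, mul_one, sub_self]
  have hg₂ := hpos w₂ hSw₂ hw₂0
  obtain ⟨e₂, he₂⟩ : ∃ e : W, e = (c.g x w₂)⁻¹ • w₂ := ⟨_, rfl⟩
  have hSe₂ : s.S x e₂ = e₂ := by rw [he₂, map_smul, hSw₂]
  have hge₂ : c.g x e₂ = 1 := by
    rw [he₂, c.g_smul, abs_of_pos (inv_pos.2 hg₂), inv_mul_cancel₀ hg₂.ne']
  have hB₂ : c.B x e₂ e₂ = 1 := by rw [← c.g_sq, hge₂]; norm_num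
  have hB₁₂ : c.B x e₁ e₂ = 0 := by rw [he₂, map_smul, hBw₂, smul_zero]
  have hB₂₁ : c.B x e₂ e₁ = 0 := by rw [c.symm, hB₁₂]
  let T : ℂ →L[ℝ] W := Complex.reCLM.smulRight e₁ + Complex.imCLM.smulRight e₂
  let R : W →L[ℝ] ℂ := (c.B x e₁).smulRight (1 : ℂ) + (c.B x e₂).smulRight Complex.I
  have hT : ∀ ζ, T ζ = ζ.re • e₁ + ζ.im • e₂ := fun ζ => by simp [T]
  have hR : ∀ w, R w = c.B x e₁ w • (1 : ℂ) + c.B x e₂ w • Complex.I := fun w => by simp [R]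
  have hRT : ∀ ζ, R (T ζ) = ζ := by
    intro ζ
    rw [hR, hT]
    simp only [map_add, map_smul, hB₁, hB₂, hB₁₂, hB₂₁, smul_eq_mul, mul_one, mul_zero, add_zero,
      zero_add]
    apply Complex.ext <;> simp
  have hST : ∀ ζ, s.S x (T ζ) = T ζ := by
    intro ζ
    rw [hT, map_add, map_smul, map_smul, hSe₁, hSe₂]
  refine ⟨⟨T, R, hRT, ?_, hST, ?_⟩⟩
  · let T' : ℂ →ₗ[ℝ] V := T.toLinearMap.codRestrict V (fun ζ => ⟨T ζ, hST ζ⟩)
    have hinj : Injective T' := by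
      intro a b hab
      have h1 : T a = T b := congrArg Subtype.val hab
      rw [← hRT a, ← hRT b, h1]
    have hsurj : Surjective T' := by
      refine (LinearMap.injective_iff_surjective_of_finrank_eq_finrank ?_).1 hinj
      rw [h2, Complex.finrank_real_complex]
    intro w hw
    obtain ⟨ζ, hζ⟩ := hsurj ⟨w, w, hw⟩
    have h1 : T ζ = w := congrArg Subtype.val hζ
    rw [← h1, hRT]
  · intro ζ
    unfold Conf.g
    rw [hT]
    simp only [map_add, map_smul, add_apply, smul_apply, hB₁, hB₂, hB₁₂,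
      hB₂₁, smul_eq_mul, mul_one, mul_zero, add_zero, zero_add]
    rw [Complex.norm_def, Complex.normSq_apply]

end Pool.Agent.Lib.MP610fe3.Cf
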