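import Pool.Agent.Lib.MP_610fe3_an.Cf.Spec

/-!
# Module MFD3: a measure with a lower bound for the measure of balls (helper35)
-/

open Set Filter Function MeasureTheory Bundle
open scoped Topology Manifold ContDiff

namespace Pool.Agent.Lib.MP610fe3.Cf

universe u v

/-- The measure of balls from below, locally. -/
theorem meas_local (V : Type v) [NormedAddCommGroup V] [NormedSpace ℝ V] [FiniteDimensional ℝ V]
    (N : ℕ) (M : Type u) [MetricSpace M] [CompactSpace M] [ChartedSpace V M]
    [IsManifold 𝓘(ℝ, V) ∞ M] [MeasurableSpace M] [BorelSpace M]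
    (e : M → EuclideanSpace ℝ (Fin N)) (hiso : Isometry e) (he : ContMDiff 𝓘(ℝ, V) (𝓡 N) ∞ e)
    (x0 : M) :
    ∃ U ∈ 𝓝 x0, ∃ (μ : Measure M) (κ : ℝ), IsFiniteMeasure μ ∧ 0 < κ ∧
      ∀ x ∈ U, ∀ r : ℝ, 0 < r → r ≤ 1 →
        κ * r ^ (Module.finrank ℝ V) ≤ μ.real (Metric.ball x r) := by
  have he1 : ContMDiff 𝓘(ℝ, V) (𝓡 N) 1 e := he.of_le (by exact_mod_cast le_top)
  let _ : MeasurableSpace V := borel V
  have _ : BorelSpace V := ⟨rfl⟩
  set φ := extChartAt 𝓘(ℝ, V) x0 with hφ
  obtain ⟨K, t, ht, hK⟩ := (Gen.contDiffAt_loc he1 x0 x0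
    (mem_extChartAt_source x0)).exists_lipschitzOnWith
  have htarget : φ.target ∈ 𝓝 (φ x0) := extChartAt_target_mem_nhds x0
  obtain ⟨ρ₁, hρ₁, hball⟩ := Metric.mem_nhds_iff.1 (inter_mem ht htarget)
  set ρ : ℝ := ρ₁ / 2 with hρdef
  have hρ : 0 < ρ := by positivity
  set B : Set V := Metric.ball (φ x0) ρ₁ with hB
  set lam : Measure V := Measure.addHaar with hlam
  have hcont : ContinuousOn φ.symm B :=
    (continuousOn_extChartAt_symm x0).mono fun v hv => (hball hv).2
  have hBm : MeasurableSet B := measurableSet_ball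
  have hae : AEMeasurable φ.symm (lam.restrict B) := hcont.aemeasurable hBm
  have hBfin : lam B < ⊤ := measure_ball_lt_top
  set μ : Measure M := Measure.map φ.symm (lam.restrict B) with hμ
  have _ : IsFiniteMeasure (lam.restrict B) := ⟨by
    rw [Measure.restrict_apply_univ]; exact hBfin⟩
  have _ : IsFiniteMeasure μ := Measure.isFiniteMeasure_map _ _
  set L : ℝ := (K : ℝ) + 1 with hL
  have hLpos : 0 < L := by positivity
  set c0 : ℝ := lam.real (Metric.ball (0 : V) 1) with hc0
  have hc0pos : 0 < c0 := by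
    rw [hc0, measureReal_def]
    exact ENNReal.toReal_pos (Metric.measure_ball_pos lam 0 one_pos).ne' measure_ball_lt_top.ne
  set b : ℝ := min (1 / L) ρ with hb
  have hbpos : 0 < b := lt_min (by positivity) hρ
  set m := Module.finrank ℝ V with hm
  refine ⟨φ.source ∩ φ ⁻¹' (Metric.ball (φ x0) ρ), ?_, μ, b ^ m * c0, inferInstance,
    by positivity, ?_⟩
  · refine inter_mem (extChartAt_source_mem_nhds x0) ?_
    exact (continuousAt_extChartAt x0).preimage_mem_nhds (Metric.ball_mem_nhds _ hρ)
  · rintro x ⟨hxs, hxb⟩ r hr hr1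
    have hxb' : dist (φ x) (φ x0) < ρ := hxb
    have hsub1 : Metric.ball (φ x) (r * b) ⊆ B := by
      intro v hv
      rw [hB, Metric.mem_ball]
      have h1 : dist v (φ x) < r * b := hv
      have h2 : r * b ≤ ρ := by
        calc r * b ≤ 1 * b := by gcongr
          _ = b := one_mul b
          _ ≤ ρ := min_le_right _ _
      calc dist v (φ x0) ≤ dist v (φ x) + dist (φ x) (φ x0) := dist_triangle _ _ _
        _ < ρ + ρ := by linarith
        _ = ρ₁ := by rw [hρdef]; ring
    have hsub2 : Metric.ball (φ x) (r * b) ⊆ φ.symm ⁻¹' (Metric.ball x r) ∩ B := by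
      intro v hv
      refine ⟨?_, hsub1 hv⟩
      rw [mem_preimage, Metric.mem_ball]
      have hx' : φ.symm (φ x) = x := φ.left_inv hxs
      have hvt : v ∈ t := (hball (hsub1 hv)).1
      have hxt : φ x ∈ t := (hball (hsub1 (Metric.mem_ball_self (by positivity)))).1
      have h1 := hK.dist_le_mul v hvt (φ x) hxt
      have h2 : dist (Gen.loc e x0 v) (Gen.loc e x0 (φ x)) = dist (φ.symm v) x := by
        unfold Gen.loc
        rw [comp_apply, comp_apply, ← hφ, hx', hiso.dist_eq]
      rw [h2] at h1
      have h3 : dist v (φ x) < r * b := hv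
      have h4 : b ≤ 1 / L := min_le_left _ _
      calc dist (φ.symm v) x ≤ K * dist v (φ x) := h1
        _ ≤ L * dist v (φ x) := by
            gcongr
            rw [hL]; linarith
        _ < L * (r * b) := by gcongr
        _ ≤ L * (r * (1 / L)) := by gcongr
        _ = r := by field_simp
    have h1 : μ.real (Metric.ball x r) = lam.real (φ.symm ⁻¹' (Metric.ball x r) ∩ B) := by
      rw [measureReal_def, measureReal_def, hμ, Measure.map_apply_of_aemeasurable hae
        measurableSet_ball, Measure.restrict_apply' hBm]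
    rw [h1]
    have h2 : lam.real (Metric.ball (φ x) (r * b)) = (r * b) ^ m * c0 := by
      rw [measureReal_def, Measure.addHaar_ball_of_pos _ _ (by positivity), ENNReal.toReal_mul,
        ENNReal.toReal_ofReal (by positivity)]
      rfl
    calc b ^ m * c0 * r ^ m = (r * b) ^ m * c0 := by rw [mul_pow]; ring
      _ = lam.real (Metric.ball (φ x) (r * b)) := h2.symm
      _ ≤ _ := by
          refine measureReal_mono hsub2 ?_
          exact (lt_of_le_of_lt (measure_mono inter_subset_right) hBfin).ne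

/-- Module MFD3 -/
theorem specMeas : SpecMeas.{u, v} := by
  intro V _ _ _ N M _ _ _ _ _ _ e hiso he _
  choose U hU μ κ hfin hκ hest using fun x0 : M => meas_local V N M e hiso he x0
  obtain ⟨t, -, ht⟩ := isCompact_univ.elim_nhds_subcover U fun x _ => hU x
  set μ' : Measure M := ∑ x ∈ t, μ x with hμ'
  have _ : IsFiniteMeasure μ' := by
    rw [hμ']
    have := hfin
    infer_instance
  rcases t.eq_empty_or_nonempty with h0 | hne
  · refine ⟨μ', 1, inferInstance, one_pos, fun x => ?_⟩
    have := ht (mem_univ x)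
    rw [h0] at this
    simp at this
  refine ⟨μ', t.inf' hne κ, inferInstance, ?_, fun x r hr hr1 => ?_⟩
  · rw [Finset.lt_inf'_iff]
    exact fun x _ => hκ x
  · obtain ⟨y, hy, hxy⟩ : ∃ y ∈ t, x ∈ U y := by
      have := ht (mem_univ x)
      simpa using this
    have h1 : t.inf' hne κ ≤ κ y := Finset.inf'_le _ hy
    have h2 : (μ y).real (Metric.ball x r) ≤ μ'.real (Metric.ball x r) := by
      have := hfin y
      rw [measureReal_def, measureReal_def]
      refine ENNReal.toReal_mono (measure_ne_top _ _) ?_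
      rw [hμ', Measure.finsetSum_apply]
      exact Finset.single_le_sum (f := fun z => μ z (Metric.ball x r)) (fun _ _ => zero_le) hy
    calc t.inf' hne κ * r ^ (Module.finrank ℝ V) ≤ κ y * r ^ (Module.finrank ℝ V) := by gcongr
      _ ≤ (μ y).real (Metric.ball x r) := hest y x hxy r hr hr1
      _ ≤ _ := h2

end Pool.Agent.Lib.MP610fe3.Cf
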