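import Pool.Agent.Lib.MP_610fe3_an.Cf.Defs
import Pool.Agent.Lib.MP_610fe3_an.Gen.Main
import Pool.Agent.Lib.MP_610fe3_an.Gen.Public

/-!
# Conformal Anosov diffeomorphisms are transitive: exact statements of the modules

The statements are given as Props; a module proves `theorem xxx : SpecXxx.{u, v}` (or the same
statement as a theorem with the hypotheses as arguments), in its own file.
-/

open Set Filter Function MeasureTheory Bundle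
open scoped Topology Manifold ContDiff

namespace Pool.Agent.Lib.MP610fe3.Cf

universe u v

/-! ### Further definitions -/

/-- Exponential decay in local stable sets. -/
structure Dec {M : Type*} [MetricSpace M] (f : M ≃ₜ M) (ε C l : ℝ) : Prop where
  ε_pos : 0 < ε
  one_le : 1 ≤ C
  l_pos : 0 < l
  l_lt : l < 1
  dec : ∀ x, ∀ z ∈ Wl f ε x, ∀ n : ℕ, dist (f^[n] z) (f^[n] x) ≤ C * l ^ n * dist z x

section

variable {M W : Type*} [MetricSpace M] [NormedAddCommGroup W] [NormedSpace ℝ W]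
  {E : Emb M W} {f : M ≃ₜ M} {s : Split E f}

/-- Everything about the stable sets, at a common scale. -/
structure Pack (c : Conf s) (ε C l : ℝ) (ψ : M → M → W) (Q : M → M → W →L[ℝ] W)
    (q : M → M → ℝ) (P : M → M → W →L[ℝ] W) (p : M → M → ℝ) : Prop where
  hyp : s.Hyperbolic
  S_ne : ∀ x, s.S x ≠ 0
  grow : Grow c ε C l
  decu : Dec f.symm ε C l
  flat : Flat c ε C ψ Q q
  surj : Surj s ψ
  lin : LinHol c ε C P p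
  br : Br f ε C

/-- Everything about the unstable sets, at a common scale (apply `UPack` to `s.swap`). -/
structure UPack (c : Conf s) (ε C l : ℝ) (ψ : M → M → W) (Q : M → M → W →L[ℝ] W)
    (q : M → M → ℝ) : Prop where
  grow : Grow c ε C l
  flat : Flat c ε C ψ Q q
  surj : Surj s ψ

/-- The holonomy between stable sets is differentiable at the base point. -/
def Dif (f : M ≃ₜ M) (ψ : M → M → W) (P : M → M → W →L[ℝ] W) (ε : ℝ) : Prop :=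
  0 < ε ∧ ∀ η : ℝ, 0 < η → ∃ r : ℝ, 0 < r ∧ ∀ x, ∀ y ∈ Wl f.symm ε x, ∀ z ∈ Wl f ε x,
    dist z x ≤ r → ∀ z', z' ∈ Wl f ε y → z' ∈ Wl f.symm ε z →
    ‖ψ y z' - P x y (ψ x z)‖ ≤ η * ‖ψ x z‖

/-- The consequences of holomorphy of the holonomies. Scales `ε₃ ≤ ε₂ ≤ ε₁`. -/
structure Hlo (f : M ≃ₜ M) (ψ : M → M → W) (P : M → M → W →L[ℝ] W) (p q : M → M → ℝ)
    (ε₁ ε₂ ε₃ C : ℝ) : Prop where
  pos : 0 < ε₃
  le32 : ε₃ ≤ ε₂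
  le21 : 4 * ε₂ ≤ ε₁
  one_le : 1 ≤ C
  exist : ∀ x, ∀ y ∈ Wl f.symm ε₂ x, ∀ z ∈ Wl f ε₂ x,
    ∃ z', z' ∈ Wl f (ε₁ / 4) y ∧ z' ∈ Wl f.symm (ε₁ / 4) z
  bound : ∀ x, ∀ y ∈ Wl f.symm ε₂ x, ∀ z ∈ Wl f ε₂ x, ∀ z', z' ∈ Wl f ε₁ y →
    z' ∈ Wl f.symm ε₁ z → |RR p q x y z z'| ≤ C * dist z x
  affine : ∀ x, ∀ y ∈ Wl f.symm ε₂ x,
    (∀ z ∈ Wl f ε₂ x, ∀ z', z' ∈ Wl f ε₁ y → z' ∈ Wl f.symm ε₁ z → RR p q x y z z' = 0) →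
    ∀ z ∈ Wl f ε₃ x, ∀ z', z' ∈ Wl f ε₁ y → z' ∈ Wl f.symm ε₁ z → ψ y z' = P x y (ψ x z)

end

section

variable {M : Type*} [MetricSpace M]

/-- Lower bound for the measure of backward Bowen balls. -/
def BoxLe [MeasurableSpace M] (μ : Measure M) (f : M ≃ₜ M) (α : ℕ → M → ℝ) (sd : ℕ) : Prop :=
  ∀ δ : ℝ, 0 < δ → ∃ κ : ℝ, 0 < κ ∧ ∀ (n : ℕ) (w : M),
    κ * α n (f.symm^[n] w) ^ sd ≤ μ.real (Box f δ n w)

/-- Trapping region. -/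
def Trap (f : M ≃ₜ M) (U : Set M) : Prop := IsOpen U ∧ MapsTo f (closure U) U

/-- The attractor of a trapping region. -/
def Att (f : M ≃ₜ M) (U : Set M) : Set M := {x | ∀ n : ℕ, f.symm^[n] x ∈ U}

/-- The basin of a trapping region. -/
def Bas (f : M ≃ₜ M) (U : Set M) : Set M := {x | ∃ n : ℕ, f^[n] x ∈ U}

/-- `Y` is `(n, δ)`-separated. -/
def Sep (f : M ≃ₜ M) (δ : ℝ) (n : ℕ) (Y : Finset M) : Prop :=
  ∀ y ∈ Y, ∀ y' ∈ Y, y ≠ y' → ∃ k ≤ n, δ < dist (f^[k] y) (f^[k] y')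

/-- Sums over separated sets in the ball tend to zero. -/
def SumZero (f : M ≃ₜ M) (α : ℕ → M → ℝ) (sd : ℕ) (ρ : ℝ) (x : M) : Prop :=
  ∀ δ : ℝ, 0 < δ → δ ≤ ρ → ∀ η : ℝ, 0 < η → ∀ᶠ n in atTop, ∀ Y : Finset M,
    (∀ y ∈ Y, dist y x ≤ ρ) → Sep f δ n Y → ∑ y ∈ Y, α n y ^ sd ≤ η

/-- Conclusion of SUM. -/
def SumProp (f : M ≃ₜ M) (α : ℕ → M → ℝ) (sd : ℕ) : Prop :=
  ∀ U, Trap f U → ∀ x, x ∈ Bas f U → x ∉ Att f U → ∃ ρ : ℝ, 0 < ρ ∧ SumZero f α sd ρ x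

/-- Conclusion of LEN: `F` is locally constant along the unstable set. -/
def LenProp (f : M ≃ₜ M) (sd : ℕ) : Prop :=
  ∃ ρ₀ : ℝ, 0 < ρ₀ ∧ ∀ ρ : ℝ, 0 < ρ → ρ ≤ ρ₀ → ∃ ρ' : ℝ, 0 < ρ' ∧ ρ' ≤ ρ ∧
    ∀ (x : M) (α : ℕ → M → ℝ) (F : M → ℝ) (C₀ l' δ : ℝ), 0 < δ → δ ≤ ρ₀ → 0 < l' → l' < 1 →
    (∀ n y, 0 ≤ α n y ∧ α n y ≤ C₀ * l' ^ n) →
    (∀ᶠ n in atTop, ∀ y ∈ Wl f.symm ρ x, ∀ y' ∈ Wl f.symm ρ x,
      (∀ k ≤ n, dist (f^[k] y) (f^[k] y') ≤ δ) → |F y' - F y| ≤ C₀ * α n y) →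
    (∀ η : ℝ, 0 < η → ∀ᶠ n in atTop, ∀ Y : Finset M, (∀ y ∈ Y, y ∈ Wl f.symm ρ x) →
      Sep f δ n Y → ∑ y ∈ Y, α n y ^ sd ≤ η) →
    ∀ y ∈ Wl f.symm ρ' x, F y = F x

/-- Conclusion of VANISH. -/
def VanProp (f : M ≃ₜ M) (p q : M → M → ℝ) (ε₁ ε₂ : ℝ) : Prop :=
  ∀ U, Trap f U → ∀ x, x ∈ Bas f U → x ∉ Att f U → ∃ ρ : ℝ, 0 < ρ ∧ ρ ≤ ε₂ ∧
    ∀ y ∈ Wl f.symm ρ x, ∀ z ∈ Wl f ε₂ x, ∀ z', z' ∈ Wl f ε₁ y → z' ∈ Wl f.symm ε₁ z →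
      RR p q x y z z' = 0

end

/-! ### Statements of the modules -/

/-- DEC -/
def SpecDec : Prop :=
  ∀ (M : Type u) (W : Type v) [MetricSpace M] [CompactSpace M] [NormedAddCommGroup W]
    [NormedSpace ℝ W] (E : Emb M W) (f : M ≃ₜ M) (s : Split E f), s.Hyperbolic →
    (∃ ε C l : ℝ, Dec f ε C l) ∧
    (∀ η : ℝ, 0 < η → ∃ ε : ℝ, 0 < ε ∧ ∀ x, ∀ z ∈ Wl f ε x,
      ‖E.e z - E.e x - s.S x (E.e z - E.e x)‖ ≤ η * dist z x)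

/-- GROW -/
def SpecGrow : Prop :=
  ∀ (M : Type u) (W : Type v) [MetricSpace M] [CompactSpace M] [NormedAddCommGroup W]
    [NormedSpace ℝ W] [FiniteDimensional ℝ W] (E : Emb M W) (f : M ≃ₜ M) (s : Split E f)
    (C₀ : ℝ) (c : Conf s), s.Hyperbolic → Sq s C₀ → (∀ x, s.S x ≠ 0) →
    ∃ ε C l : ℝ, Grow c ε C l

/-- FLAT -/
def SpecFlat : Prop :=
  ∀ (M : Type u) (W : Type v) [MetricSpace M] [CompactSpace M] [NormedAddCommGroup W]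
    [NormedSpace ℝ W] [FiniteDimensional ℝ W] (E : Emb M W) (f : M ≃ₜ M) (s : Split E f)
    (C₀ : ℝ) (c : Conf s) (ε C l : ℝ), s.Hyperbolic → Sq s C₀ → (∀ x, s.S x ≠ 0) →
    Grow c ε C l →
    ∃ (ε' C' : ℝ) (ψ : M → M → W) (Q : M → M → W →L[ℝ] W) (q : M → M → ℝ),
      Flat c ε' C' ψ Q q

/-- BR -/
def SpecBr : Prop :=
  ∀ (M : Type u) (W : Type v) [MetricSpace M] [CompactSpace M] [NormedAddCommGroup W]
    [NormedSpace ℝ W] (E : Emb M W) (f : M ≃ₜ M) (s : Split E f), s.Hyperbolic →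
    ∃ ε C : ℝ, Br f ε C

/-- SURJ -/
def SpecSurj : Prop :=
  ∀ (M : Type u) (W : Type v) [MetricSpace M] [CompactSpace M] [NormedAddCommGroup W]
    [NormedSpace ℝ W] [FiniteDimensional ℝ W] (E : Emb M W) (f : M ≃ₜ M) (s : Split E f)
    (c : Conf s) (ε C l : ℝ) (ψ : M → M → W) (Q : M → M → W →L[ℝ] W)
    (q : M → M → ℝ), s.Hyperbolic → Grow c ε C l → Flat c ε C ψ Q q →
    Br f ε C → Surj s ψ

/-- LINHOL -/
def SpecLinHol : Prop :=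
  ∀ (M : Type u) (W : Type v) [MetricSpace M] [CompactSpace M] [NormedAddCommGroup W]
    [NormedSpace ℝ W] [FiniteDimensional ℝ W] (E : Emb M W) (f : M ≃ₜ M) (s : Split E f)
    (C₀ : ℝ) (c : Conf s), s.Hyperbolic → Sq s C₀ → (∀ x, s.S x ≠ 0) →
    ∃ (ε C : ℝ) (P : M → M → W →L[ℝ] W) (p : M → M → ℝ), LinHol c ε C P p

/-- DIFF -/
def SpecDif : Prop :=
  ∀ (M : Type u) (W : Type v) [MetricSpace M] [CompactSpace M] [NormedAddCommGroup W]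
    [NormedSpace ℝ W] [FiniteDimensional ℝ W] (E : Emb M W) (f : M ≃ₜ M) (s : Split E f)
    (c : Conf s) (ε C l : ℝ) (ψ : M → M → W) (Q : M → M → W →L[ℝ] W) (q : M → M → ℝ)
    (P : M → M → W →L[ℝ] W) (p : M → M → ℝ), Pack c ε C l ψ Q q P p →
    ∃ ε' : ℝ, ε' ≤ ε ∧ Dif f ψ P ε'

/-- HOLO -/
def SpecHolo : Prop :=
  ∀ (M : Type u) (W : Type v) [MetricSpace M] [CompactSpace M] [NormedAddCommGroup W]
    [NormedSpace ℝ W] [FiniteDimensional ℝ W] (E : Emb M W) (f : M ≃ₜ M) (s : Split E f)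
    (c : Conf s) (ε C l ε' : ℝ) (ψ : M → M → W) (Q : M → M → W →L[ℝ] W) (q : M → M → ℝ)
    (P : M → M → W →L[ℝ] W) (p : M → M → ℝ), Pack c ε C l ψ Q q P p → Dif f ψ P ε' →
    (∀ x, Module.finrank ℝ (s.S x).range = 2) →
    ∃ ε₁ ε₂ ε₃ C' : ℝ, ε₁ ≤ ε ∧ Hlo f ψ P p q ε₁ ε₂ ε₃ C'

/-- BOX -/
def SpecBox : Prop :=
  ∀ (M : Type u) (W : Type v) [MetricSpace M] [CompactSpace M] [MeasurableSpace M]
    [BorelSpace M] [NormedAddCommGroup W] [NormedSpace ℝ W] [FiniteDimensional ℝ W]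
    (μ : Measure M) [IsFiniteMeasure μ] (E : Emb M W) (f : M ≃ₜ M) (s : Split E f)
    (C₀ : ℝ) (c : Conf s) (cu : Conf s.swap) (ε C l : ℝ) (ψ : M → M → W)
    (Q : M → M → W →L[ℝ] W) (q : M → M → ℝ) (P : M → M → W →L[ℝ] W) (p : M → M → ℝ)
    (ψu : M → M → W) (Qu : M → M → W →L[ℝ] W) (qu : M → M → ℝ) (κ : ℝ) (m u : ℕ),
    Sq s C₀ → Pack c ε C l ψ Q q P p → UPack cu ε C l ψu Qu qu →
    (∀ x, Module.finrank ℝ (s.U x).range = u) → u ≤ m → 0 < κ →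
    (∀ x, ∀ r : ℝ, 0 < r → r ≤ 1 → κ * r ^ m ≤ μ.real (Metric.ball x r)) →
    BoxLe μ f c.an (m - u)

/-- SUM -/
def SpecSum : Prop :=
  ∀ (M : Type u) [MetricSpace M] [CompactSpace M] [MeasurableSpace M]
    [BorelSpace M] (μ : Measure M) [IsFiniteMeasure μ] (f : M ≃ₜ M) (α : ℕ → M → ℝ) (sd : ℕ),
    (∀ n y, 0 ≤ α n y) → BoxLe μ f α sd → SumProp f α sd

/-- LEN -/
def SpecLen : Prop :=
  ∀ (M : Type u) (W : Type v) [MetricSpace M] [CompactSpace M] [NormedAddCommGroup W]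
    [NormedSpace ℝ W] [FiniteDimensional ℝ W] (E : Emb M W) (f : M ≃ₜ M) (s : Split E f)
    (cu : Conf s.swap) (ε C l : ℝ) (ψu : M → M → W) (Qu : M → M → W →L[ℝ] W)
    (qu : M → M → ℝ) (u sd : ℕ), s.Hyperbolic → UPack cu ε C l ψu Qu qu →
    (∀ x, Module.finrank ℝ (s.U x).range = u) → sd ≤ u → 1 ≤ u →
    LenProp f sd

/-- VANISH -/
def SpecVanish : Prop :=
  ∀ (M : Type u) (W : Type v) [MetricSpace M] [CompactSpace M] [NormedAddCommGroup W]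
    [NormedSpace ℝ W] [FiniteDimensional ℝ W] (E : Emb M W) (f : M ≃ₜ M) (s : Split E f)
    (c : Conf s) (ε C l : ℝ) (ψ : M → M → W) (Q : M → M → W →L[ℝ] W) (q : M → M → ℝ)
    (P : M → M → W →L[ℝ] W) (p : M → M → ℝ) (ε₁ ε₂ ε₃ C' : ℝ) (sd : ℕ),
    Pack c ε C l ψ Q q P p → ε₁ ≤ ε → Hlo f ψ P p q ε₁ ε₂ ε₃ C' →
    SumProp f c.an sd → LenProp f sd → VanProp f p q ε₁ ε₂

/-- FINAL -/
def SpecFinal : Prop :=
  ∀ (M : Type u) (W : Type v) [MetricSpace M] [CompactSpace M] [ConnectedSpace M]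
    [NormedAddCommGroup W] [NormedSpace ℝ W] [FiniteDimensional ℝ W] (E : Emb M W)
    (f : M ≃ₜ M) (s : Split E f)
    (c : Conf s) (cu : Conf s.swap) (ε C l : ℝ) (ψ : M → M → W)
    (Q : M → M → W →L[ℝ] W) (q : M → M → ℝ) (P : M → M → W →L[ℝ] W) (p : M → M → ℝ)
    (ψu : M → M → W) (Qu : M → M → W →L[ℝ] W) (qu : M → M → ℝ) (ε₁ ε₂ ε₃ C' : ℝ),
    Pack c ε C l ψ Q q P p → UPack cu ε C l ψu Qu qu → ε₁ ≤ ε →
    Hlo f ψ P p q ε₁ ε₂ ε₃ C' → VanProp f p q ε₁ ε₂ → ChainTransitive f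

section Manifold

/-- MFD1 -/
def SpecSq : Prop :=
  ∀ (V : Type v) [NormedAddCommGroup V] [NormedSpace ℝ V] [FiniteDimensional ℝ V] (N : ℕ)
    (M : Type u) [MetricSpace M] [CompactSpace M] [ChartedSpace V M] [IsManifold 𝓘(ℝ, V) ∞ M]
    (E : Emb M (EuclideanSpace ℝ (Fin N))), ContMDiff 𝓘(ℝ, V) (𝓡 N) ∞ E.e →
    (∀ x, Injective (mfderiv 𝓘(ℝ, V) (𝓡 N) E.e x)) →
    (∀ x, E.P x = Gen.KF V E.e E.e x) →
    ∀ (f : M ≃ₜ M), ContMDiff 𝓘(ℝ, V) 𝓘(ℝ, V) 2 f → ContMDiff 𝓘(ℝ, V) 𝓘(ℝ, V) 2 f.symm →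
    ∀ (s : Split E f), ∃ C : ℝ, Sq s C

/-- MFD2 -/
def SpecConf : Prop :=
  ∀ (V : Type v) [NormedAddCommGroup V] [NormedSpace ℝ V] [FiniteDimensional ℝ V] (N : ℕ)
    (M : Type u) [MetricSpace M] [CompactSpace M] [ChartedSpace V M] [IsManifold 𝓘(ℝ, V) ∞ M]
    [RiemannianBundle (fun x : M => TangentSpace 𝓘(ℝ, V) x)]
    [IsContinuousRiemannianBundle V (fun x : M => TangentSpace 𝓘(ℝ, V) x)]
    (E : Emb M (EuclideanSpace ℝ (Fin N))), ContMDiff 𝓘(ℝ, V) (𝓡 N) ∞ E.e →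
    (∀ x, Injective (mfderiv 𝓘(ℝ, V) (𝓡 N) E.e x)) →
    (∀ x, E.P x = Gen.KF V E.e E.e x) →
    ∀ (f : M ≃ₜ M), ContMDiff 𝓘(ℝ, V) 𝓘(ℝ, V) 1 f →
    ∀ (s : Split E f), s.Hyperbolic → ∀ (F : ∀ x : M, Submodule ℝ (TangentSpace 𝓘(ℝ, V) x)),
    (∀ x, (s.S x).range = (F x).map (mfderiv 𝓘(ℝ, V) (𝓡 N) E.e x).toLinearMap) →
    (∀ x, ∃ a : ℝ, 0 < a ∧ ∀ v ∈ F x, ‖mfderiv 𝓘(ℝ, V) 𝓘(ℝ, V) f x v‖ = a * ‖v‖) →
    Nonempty (Conf s)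

/-- MFD3 -/
def SpecMeas : Prop :=
  ∀ (V : Type v) [NormedAddCommGroup V] [NormedSpace ℝ V] [FiniteDimensional ℝ V] (N : ℕ)
    (M : Type u) [MetricSpace M] [CompactSpace M] [ChartedSpace V M] [IsManifold 𝓘(ℝ, V) ∞ M]
    [MeasurableSpace M] [BorelSpace M]
    (e : M → EuclideanSpace ℝ (Fin N)), Isometry e → ContMDiff 𝓘(ℝ, V) (𝓡 N) ∞ e →
    (∀ x, Injective (mfderiv 𝓘(ℝ, V) (𝓡 N) e x)) →
    ∃ (μ : Measure M) (κ : ℝ), IsFiniteMeasure μ ∧ 0 < κ ∧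
      ∀ x, ∀ r : ℝ, 0 < r → r ≤ 1 → κ * r ^ (Module.finrank ℝ V) ≤ μ.real (Metric.ball x r)

end Manifold

end Pool.Agent.Lib.MP610fe3.Cf
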