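import Pool.Agent.Lib.MP_610fe3_an.Cf.Spec3

/-!
# Fourth phase: no assumption on the unstable bundle

If the stable bundle is conformal of dimension `d ≥ 2` and the unstable bundle has dimension
`u ≥ 2` then the diffeomorphism is transitive.

Idea: the holonomies between stable leaves are Möbius maps in the flat coordinates (for `d ≥ 3` by
Liouville, for `d = 2` over `Bas \ Att`, because their deviation from Möbius maps is multiplied by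
`(c.an n) ^ 2` under `f^n` and the sums of `(c.an n) ^ 2` over separated sets tend to zero).
In inverted coordinates `c.iv x (ψ x z)` the holonomy is affine, `κ ↦ p⁻² P (κ + b x y)`, and
`-b x y` is the position (seen from `x`) of the point at infinity of the leaf of `y`.  A point of
the attractor in the leaf of `x` can be followed along a path of the unstable set as long as
`-b x y` does not meet it; near the boundary of the basin it is lost; so every path from `x` to a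
point near the boundary meets `-b x y = ω` for every `ω` in an open piece of the attractor.
The variation of `b x y` over Bowen balls is at most `C * c.an n`, so a generic path gives a cover
of this piece by balls with `∑ ρ_j ^ t` at most `C * l ^ n * (sum over the separated sets of
(c.an n) ^ t)`.  By transitivity of the attractor and self-similarity this forces exponential
decay of the sums for the exponent `t`, hence boundedness by `C * l ^ (-n / 2)` for a slightly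
smaller exponent; starting from `t = d` (volume) one arrives at `t = 0`: contradiction.
-/

open Set Filter Function MeasureTheory
open scoped Topology InnerProductSpace

namespace Pool.Agent.Lib.MP610fe3.Cf

universe u v

/-! ### Möbius cocycle -/

section

variable {M W : Type*} [MetricSpace M] [NormedAddCommGroup W] [NormedSpace ℝ W]
  {E : Emb M W} {f : M ≃ₜ M} {s : Split E f}

/-- The inversion of the stable space of `x`. -/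
noncomputable def Conf.iv (c : Conf s) (x : M) (v : W) : W := (c.B x v v)⁻¹ • v

/-- Expansion of the holonomies in inverted coordinates: `b x y` is the constant term; the error
is at most `e * C * dist z x` (`e = 1`: second order expansion, `e = 0`: exact formula). -/
structure Mb (c : Conf s) (ψ : M → M → W) (P : M → M → W →L[ℝ] W) (p : M → M → ℝ)
    (ε₁ ε₂ C e : ℝ) (b : M → M → W) : Prop where
  pos : 0 < ε₂
  le21 : 4 * ε₂ ≤ ε₁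
  one_le : 1 ≤ C
  exist : ∀ x, ∀ y ∈ Wl f.symm ε₂ x, ∀ z ∈ Wl f ε₂ x,
    ∃ z', z' ∈ Wl f (ε₁ / 4) y ∧ z' ∈ Wl f.symm (ε₁ / 4) z
  lip : ∀ x, ∀ y ∈ Wl f.symm ε₂ x, ∀ z₁ ∈ Wl f ε₂ x, ∀ z₂ ∈ Wl f ε₂ x, ∀ z₁' z₂',
    z₁' ∈ Wl f ε₁ y → z₁' ∈ Wl f.symm ε₁ z₁ → z₂' ∈ Wl f ε₁ y → z₂' ∈ Wl f.symm ε₁ z₂ →
    dist z₁' z₂' ≤ C * dist z₁ z₂
  mem : ∀ x y, s.S x (b x y) = b x y
  bound : ∀ x, ∀ y ∈ Wl f.symm ε₂ x, ‖b x y‖ ≤ C
  expand : ∀ x, ∀ y ∈ Wl f.symm ε₂ x, ∀ z ∈ Wl f ε₂ x, z ≠ x → ∀ z', z' ∈ Wl f ε₁ y →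
    z' ∈ Wl f.symm ε₁ z →
    ‖p x y ^ 2 • c.iv y (ψ y z') - P x y (c.iv x (ψ x z) + b x y)‖ ≤ e * C * dist z x

/-- The cocycle `b`, with its properties. -/
structure Mob (c : Conf s) (ψ : M → M → W) (P : M → M → W →L[ℝ] W) (p : M → M → ℝ)
    (ε₁ ε₂ C e : ℝ) (b : M → M → W) : Prop extends Mb c ψ P p ε₁ ε₂ C e b where
  self : ∀ x, b x x = 0
  comp : ∀ x, ∀ y ∈ Wl f.symm ε₂ x, ∀ y' ∈ Wl f.symm ε₂ x, y' ∈ Wl f.symm ε₂ y →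
    p x y ^ 2 • b y y' = P x y (b x y' - b x y)
  equiv : ∀ x, ∀ y ∈ Wl f.symm ε₂ x, f y ∈ Wl f.symm ε₂ (f x) →
    s.D x (b x y) = c.a x ^ 2 • b (f x) (f y)
  bowen : ∀ x, ∀ y ∈ Wl f.symm ε₂ x, ∀ n : ℕ, (∀ k ≤ n, f^[k] y ∈ Wl f.symm ε₂ (f^[k] x)) →
    ‖b x y‖ ≤ C * c.an n x
  small : ∀ η : ℝ, 0 < η → ∃ r : ℝ, 0 < r ∧ ∀ x, ∀ y ∈ Wl f.symm ε₂ x, dist y x < r →
    ‖b x y‖ ≤ η

/-- The holonomies over `Bas \ Att` are Möbius maps. -/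
def MobForm (c : Conf s) (ψ : M → M → W) (P : M → M → W →L[ℝ] W) (p : M → M → ℝ)
    (ε₁ ε₂ : ℝ) (b : M → M → W) (U : Set M) : Prop :=
  ∀ x, ∀ N : Set M, IsCompact N → IsPreconnected N → N ⊆ Wl f.symm ε₂ x → x ∈ N →
    (∀ q ∈ N, q ∈ Bas f U ∧ q ∉ Att f U) → ∀ y ∈ N, ∀ z ∈ Wl f ε₂ x, z ≠ x → ∀ z',
    z' ∈ Wl f ε₁ y → z' ∈ Wl f.symm ε₁ z →
    p x y ^ 2 • c.iv y (ψ y z') = P x y (c.iv x (ψ x z) + b x y)

/-- The point of the leaf of `y` with coordinate `ω` seen from `x` belongs to the attractor. -/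
def Hit (c : Conf s) (ψ : M → M → W) (P : M → M → W →L[ℝ] W) (p : M → M → ℝ)
    (ε₂ : ℝ) (b : M → M → W) (U : Set M) (x y : M) (ω : W) : Prop :=
  ∃ (n : ℕ) (a : M), a ∈ Att f U ∧ a ∈ Wl f ε₂ (f^[n] y) ∧
    ψ (f^[n] y) a = iterD s.D f n y (c.iv y ((p x y ^ 2)⁻¹ • P x y (ω + b x y)))

/-- A point of the attractor can be followed along a path as long as it is not at infinity. -/
def CrossProp (c : Conf s) (ψ : M → M → W) (P : M → M → W →L[ℝ] W) (p : M → M → ℝ)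
    (ε₂ : ℝ) (b : M → M → W) (U : Set M) : Prop :=
  ∀ (x : M) (γ : ℝ → M), ContinuousOn γ (Icc 0 1) →
    (∀ t ∈ Icc (0 : ℝ) 1, γ t ∈ Wl f.symm (ε₂ / 4) x ∧ γ t ∈ Bas f U ∧ γ t ∉ Att f U) →
    ∀ ω : W, s.S x ω = ω → (∀ t ∈ Icc (0 : ℝ) 1, ω + b x (γ t) ≠ 0) →
    Hit c ψ P p ε₂ b U x (γ 0) ω → Hit c ψ P p ε₂ b U x (γ 1) ω

/-- Covers of a piece of the attractor (in inverted coordinates) with small sums of the powers of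
the radii. -/
def LocCov (c : Conf s) (ψ : M → M → W) (P : M → M → W →L[ℝ] W) (p : M → M → ℝ)
    (ε₂ : ℝ) (b : M → M → W) (U : Set M) (x : M) (ω : W) (r₁ t : ℝ) : Prop :=
  ∀ η : ℝ, 0 < η → ∃ J : Finset (W × ℝ), (∀ j ∈ J, 0 < j.2 ∧ j.2 ≤ η) ∧
    ∑ j ∈ J, j.2 ^ t ≤ η ∧ ∀ ω' : W, s.S x ω' = ω' → ‖ω' - ω‖ < r₁ →
    Hit c ψ P p ε₂ b U x x ω' → ∃ j ∈ J, ‖ω' - j.1‖ ≤ j.2

end

section

variable {M W : Type*} [MetricSpace M] [NormedAddCommGroup W] [InnerProductSpace ℝ W]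
  {E : Emb M W} {f : M ≃ₜ M} {s : Split E f}

/-- Crossing data: a tube of parallel segments `τ + t • v`, `t ∈ [0,1]`, in an unstable set over
`Bas \ Att`, and a piece of the attractor such that each segment meets all its points. -/
structure ExitData (c : Conf s) (ψ : M → M → W) (P : M → M → W →L[ℝ] W) (p : M → M → ℝ)
    (ε₂ : ℝ) (b : M → M → W) (U : Set M) {u : ℕ} (x : M) (ρ r : ℝ)
    (θ : EuclideanSpace ℝ (Fin u) →ₗᵢ[ℝ] W) (Ψ : EuclideanSpace ℝ (Fin u) → M)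
    (v : EuclideanSpace ℝ (Fin u)) (ρ₀ r₁ : ℝ) (ω : W) : Prop where
  ρ_pos : 0 < ρ
  chart : UChart s x ρ r θ Ψ
  cont : ContinuousOn Ψ (Metric.closedBall 0 r)
  zero : Ψ 0 = x
  ρ₀_pos : 0 < ρ₀
  r₁_pos : 0 < r₁
  tube : ∀ τ, ‖τ‖ ≤ ρ₀ → ∀ t ∈ Icc (0 : ℝ) 1, ‖τ + t • v‖ ≤ r ∧
    Ψ (τ + t • v) ∈ Bas f U ∧ Ψ (τ + t • v) ∉ Att f U
  ω_mem : s.S x ω = ω
  ω_ne : ω ≠ 0
  hit : Hit c ψ P p ε₂ b U x x ω
  cross : ∀ ω' : W, s.S x ω' = ω' → ‖ω' - ω‖ < r₁ → Hit c ψ P p ε₂ b U x x ω' →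
    ∀ τ, ‖τ‖ ≤ ρ₀ → ∃ t ∈ Icc (0 : ℝ) 1, ω' + b x (Ψ (τ + t • v)) = 0

end

section

variable {M : Type*} [MetricSpace M]

/-- Transitivity of the attractor. -/
def TransAtt (f : M ≃ₜ M) (U : Set M) : Prop :=
  ∀ δ : ℝ, 0 < δ → ∃ n₀ : ℕ, ∀ x ∈ Att f U, ∀ y ∈ Att f U, ∃ n ≤ n₀, ∃ w,
    w ∈ Wl f.symm δ x ∧ f^[n] w ∈ Wl f δ y

/-- The attractor accumulates on each of its points inside the stable sets. -/
def AccAtt (f : M ≃ₜ M) (U : Set M) : Prop :=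
  ∀ x ∈ Att f U, ∀ δ : ℝ, 0 < δ → ∃ a ∈ Att f U, a ≠ x ∧ a ∈ Wl f δ x

/-- Exponential bound for the sums over separated subsets of `K`. -/
def SumOn (f : M ≃ₜ M) (α : ℕ → M → ℝ) (K : Set M) (δ t κ : ℝ) : Prop :=
  ∃ C : ℝ, ∀ (n : ℕ) (Y : Finset M), (∀ y ∈ Y, y ∈ K) → Sep f δ n Y →
    ∑ y ∈ Y, α n y ^ t ≤ C * κ ^ n

/-- Covers of the traces of the attractor on stable sets by images of stable sets. -/
def CovA (f : M ≃ₜ M) (α : ℕ → M → ℝ) (U : Set M) (ε' t : ℝ) : Prop :=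
  ∀ η : ℝ, 0 < η → ∃ k₀ : ℕ, ∀ x ∈ Att f U, ∃ J : Finset (ℕ × M),
    (∀ j ∈ J, 1 ≤ j.1 ∧ j.1 ≤ k₀ ∧ j.2 ∈ Att f U) ∧ ∑ j ∈ J, α j.1 j.2 ^ t ≤ η ∧
    ∀ z ∈ Att f U, z ∈ Wl f ε' x → ∃ j ∈ J, ∃ z₀ ∈ Wl f ε' j.2, f^[j.1] z₀ = z

end

/-! ### Conformal maps of Euclidean balls -/

/-- Inversion of Euclidean space. -/
noncomputable def ei {d : ℕ} (v : EV d) : EV d := (‖v‖ ^ 2)⁻¹ • v

/-- Expansion of conformal maps in inverted coordinates, with error `e * C * ‖z‖` (`e = 1`: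
second order expansion, `e = 0`: Möbius maps). -/
def ConfX (d : ℕ) (e : ℝ) : Prop :=
  ∀ r m Mx : ℝ, 0 < r → 0 < m → ∃ C r' : ℝ, 0 < r' ∧ r' ≤ r ∧
    ∀ (H : EV d → EV d) (H' : EV d → EV d →L[ℝ] EV d) (lam : EV d → ℝ),
    CMap d r m Mx H H' lam → H 0 = 0 →
    ∃ β : EV d, ‖β‖ ≤ C ∧ ∀ z, z ≠ 0 → ‖z‖ < r' →
      ‖lam 0 ^ 2 • ei (H z) - H' 0 (ei z + β)‖ ≤ e * C * ‖z‖

/-! ### Statements of the modules -/

/-- CX2 -/
def SpecCx2 : Prop := ConfX 2 1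

/-- QUADP (the polynomial form of QUAD) -/
def SpecQuadP : Prop :=
  ∀ (d : ℕ) (ρ : ℝ) (w : EV d → ℝ), 2 ≤ d → 0 < ρ → ContinuousOn w (Metric.ball 0 ρ) →
    MixZero d ρ w → ∃ (A c₀ : ℝ) (β₀ : EV d), ∀ z ∈ Metric.ball (0 : EV d) ρ,
      w z = A * ‖z‖ ^ 2 + ⟪β₀, z⟫_ℝ + c₀

/-- RADL -/
def SpecRadl : Prop :=
  ∀ (d : ℕ) (r m Mx A c₀ : ℝ) (H : EV d → EV d) (H' : EV d → EV d →L[ℝ] EV d)
    (lam : EV d → ℝ), 2 ≤ d → CMap d r m Mx H H' lam →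
    (∀ z ∈ Metric.ball (0 : EV d) r, (lam z)⁻¹ = A * ‖z‖ ^ 2 + c₀) → A = 0

/-- CMOBA -/
def SpecCmoba : Prop :=
  SpecWeak → SpecCacc → SpecMoll → SpecAlg → SpecQuadP → SpecRadl → SpecIsom →
    ∀ d : ℕ, 3 ≤ d → ConfX d 0

/-- HOLOM -/
def SpecHoloM : Prop :=
  ∀ (M : Type u) (W : Type v) [MetricSpace M] [CompactSpace M] [NormedAddCommGroup W]
    [NormedSpace ℝ W] [FiniteDimensional ℝ W] (E : Emb M W) (f : M ≃ₜ M) (s : Split E f)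
    (c : Conf s) (ε C l ε' : ℝ) (ψ : M → M → W) (Q : M → M → W →L[ℝ] W) (q : M → M → ℝ)
    (P : M → M → W →L[ℝ] W) (p : M → M → ℝ) (d : ℕ) (e : ℝ), Pack c ε C l ψ Q q P p →
    Dif f ψ P ε' → (∀ x, Module.finrank ℝ (s.S x).range = d) → 0 ≤ e → ConfX d e →
    ∃ (ε₁ ε₂ C' : ℝ) (b : M → M → W), ε₁ ≤ ε ∧ Mb c ψ P p ε₁ ε₂ C' e b

/-- BCOC -/
def SpecBcoc : Prop :=
  ∀ (M : Type u) (W : Type v) [MetricSpace M] [CompactSpace M] [NormedAddCommGroup W]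
    [NormedSpace ℝ W] [FiniteDimensional ℝ W] (E : Emb M W) (f : M ≃ₜ M) (s : Split E f)
    (c : Conf s) (ε C l : ℝ) (ψ : M → M → W) (Q : M → M → W →L[ℝ] W) (q : M → M → ℝ)
    (P : M → M → W →L[ℝ] W) (p : M → M → ℝ) (ε₁ ε₂ C' e : ℝ) (b : M → M → W),
    Pack c ε C l ψ Q q P p → ε₁ ≤ ε → 0 ≤ e → Mb c ψ P p ε₁ ε₂ C' e b →
    ∃ ε₂' C'' : ℝ, ε₂' ≤ ε₂ ∧ Mob c ψ P p ε₁ ε₂' C'' e b

/-- MOBVAN -/
def SpecMobVan : Prop :=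
  ∀ (M : Type u) (W : Type v) [MetricSpace M] [CompactSpace M] [NormedAddCommGroup W]
    [NormedSpace ℝ W] [FiniteDimensional ℝ W] (E : Emb M W) (f : M ≃ₜ M) (s : Split E f)
    (c : Conf s) (ε C l : ℝ) (ψ : M → M → W) (Q : M → M → W →L[ℝ] W) (q : M → M → ℝ)
    (P : M → M → W →L[ℝ] W) (p : M → M → ℝ) (ε₁ ε₂ C' : ℝ) (b : M → M → W),
    Pack c ε C l ψ Q q P p → ε₁ ≤ ε → Mob c ψ P p ε₁ ε₂ C' 1 b → SumProp f c.an 2 →
    ∀ U, Trap f U → MobForm c ψ P p ε₁ ε₂ b U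

/-- CROSS -/
def SpecCross : Prop :=
  ∀ (M : Type u) (W : Type v) [MetricSpace M] [CompactSpace M] [NormedAddCommGroup W]
    [NormedSpace ℝ W] [FiniteDimensional ℝ W] (E : Emb M W) (f : M ≃ₜ M) (s : Split E f)
    (c : Conf s) (ε C l : ℝ) (ψ : M → M → W) (Q : M → M → W →L[ℝ] W) (q : M → M → ℝ)
    (P : M → M → W →L[ℝ] W) (p : M → M → ℝ) (ε₁ ε₂ C' e : ℝ) (b : M → M → W) (U : Set M),
    Pack c ε C l ψ Q q P p → ε₁ ≤ ε → Mob c ψ P p ε₁ ε₂ C' e b → Trap f U →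
    MobForm c ψ P p ε₁ ε₂ b U → CrossProp c ψ P p ε₂ b U

/-- TRANS -/
def SpecTrans : Prop :=
  ∀ (M : Type u) (W : Type v) [MetricSpace M] [CompactSpace M] [NormedAddCommGroup W]
    [NormedSpace ℝ W] [FiniteDimensional ℝ W] (E : Emb M W) (f : M ≃ₜ M) (s : Split E f),
    s.Hyperbolic → ¬ ChainTransitive f →
    ∃ U, Trap f U ∧ (Att f U).Nonempty ∧ (∃ x, x ∉ Bas f U) ∧ TransAtt f U

/-- ACC -/
def SpecAcc : Prop :=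
  ∀ (M : Type u) (W : Type v) [MetricSpace M] [CompactSpace M] [NormedAddCommGroup W]
    [NormedSpace ℝ W] [FiniteDimensional ℝ W] (E : Emb M W) (f : M ≃ₜ M) (s : Split E f)
    (c : Conf s) (ε C l : ℝ) (ψ : M → M → W) (Q : M → M → W →L[ℝ] W) (q : M → M → ℝ)
    (P : M → M → W →L[ℝ] W) (p : M → M → ℝ) (U : Set M),
    Pack c ε C l ψ Q q P p → Crd s.swap ε C → (∀ x, s.U x ≠ 0) → Trap f U →
    TransAtt f U → AccAtt f U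

/-- EXIT -/
def SpecExit : Prop :=
  ∀ (M : Type u) (W : Type v) [MetricSpace M] [CompactSpace M] [ConnectedSpace M]
    [NormedAddCommGroup W] [InnerProductSpace ℝ W] [FiniteDimensional ℝ W] (E : Emb M W)
    (f : M ≃ₜ M) (s : Split E f)
    (c : Conf s) (ε C l : ℝ) (ψ : M → M → W) (Q : M → M → W →L[ℝ] W) (q : M → M → ℝ)
    (P : M → M → W →L[ℝ] W) (p : M → M → ℝ) (ε₁ ε₂ C' e : ℝ) (b : M → M → W) (U : Set M)
    (u : ℕ),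
    Pack c ε C l ψ Q q P p → Crd s.swap ε C → ε₁ ≤ ε → Mob c ψ P p ε₁ ε₂ C' e b →
    Trap f U → (Att f U).Nonempty → (∃ x, x ∉ Bas f U) → AccAtt f U →
    CrossProp c ψ P p ε₂ b U → (∀ x, Module.finrank ℝ (s.U x).range = u) →
    ∀ ρ₁ : ℝ, 0 < ρ₁ → ∃ (x : M) (ρ r : ℝ) (θ : EuclideanSpace ℝ (Fin u) →ₗᵢ[ℝ] W)
      (Ψ : EuclideanSpace ℝ (Fin u) → M) (v : EuclideanSpace ℝ (Fin u)) (ρ₀ r₁ : ℝ) (ω : W),
      ρ ≤ ρ₁ ∧ ExitData c ψ P p ε₂ b U x ρ r θ Ψ v ρ₀ r₁ ω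

/-- PATH -/
def SpecPath : Prop :=
  ∀ (M : Type u) (W : Type v) [MetricSpace M] [CompactSpace M]
    [NormedAddCommGroup W] [InnerProductSpace ℝ W] [FiniteDimensional ℝ W] (E : Emb M W)
    (f : M ≃ₜ M) (s : Split E f)
    (c : Conf s) (ε C l : ℝ) (ψ : M → M → W) (Q : M → M → W →L[ℝ] W) (q : M → M → ℝ)
    (P : M → M → W →L[ℝ] W) (p : M → M → ℝ) (ε₁ ε₂ C' e : ℝ) (b : M → M → W) (U : Set M)
    (u : ℕ),
    Pack c ε C l ψ Q q P p → Crd s.swap ε C → ε₁ ≤ ε → Mob c ψ P p ε₁ ε₂ C' e b → 2 ≤ u →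
    ∃ ρ₁ δ₁ : ℝ, 0 < ρ₁ ∧ 0 < δ₁ ∧
      ∀ (x : M) (ρ r : ℝ) (θ : EuclideanSpace ℝ (Fin u) →ₗᵢ[ℝ] W)
      (Ψ : EuclideanSpace ℝ (Fin u) → M) (v : EuclideanSpace ℝ (Fin u)) (ρ₀ r₁ : ℝ) (ω : W),
      ρ ≤ ρ₁ → ExitData c ψ P p ε₂ b U x ρ r θ Ψ v ρ₀ r₁ ω →
      ∀ t κ : ℝ, 0 ≤ t → 0 < κ → κ * l < 1 →
      SumOn f c.an {y | ∃ τ, ‖τ‖ ≤ ρ₀ ∧ ∃ a ∈ Icc (0 : ℝ) 1, y = Ψ (τ + a • v)} δ₁ t κ →
      LocCov c ψ P p ε₂ b U x ω r₁ t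

/-- NSUM -/
def SpecNsum : Prop :=
  ∀ (M : Type u) (W : Type v) [MetricSpace M] [CompactSpace M] [NormedAddCommGroup W]
    [NormedSpace ℝ W] [FiniteDimensional ℝ W] (E : Emb M W) (f : M ≃ₜ M) (s : Split E f)
    (c : Conf s) (ε C l : ℝ) (ψ : M → M → W) (Q : M → M → W →L[ℝ] W) (q : M → M → ℝ)
    (P : M → M → W →L[ℝ] W) (p : M → M → ℝ) (U T : Set M),
    Pack c ε C l ψ Q q P p → Trap f U → IsCompact T → T ⊆ Bas f U →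
    ∀ δ : ℝ, 0 < δ → ∃ δ' : ℝ, 0 < δ' ∧ ∀ t κ : ℝ, 0 ≤ t → 0 < κ →
      SumOn f c.an (Att f U) δ' t κ → SumOn f c.an T δ t κ

/-- SPREAD -/
def SpecSpread : Prop :=
  ∀ (M : Type u) (W : Type v) [MetricSpace M] [CompactSpace M] [NormedAddCommGroup W]
    [NormedSpace ℝ W] [FiniteDimensional ℝ W] (E : Emb M W) (f : M ≃ₜ M) (s : Split E f)
    (c : Conf s) (ε C l : ℝ) (ψ : M → M → W) (Q : M → M → W →L[ℝ] W) (q : M → M → ℝ)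
    (P : M → M → W →L[ℝ] W) (p : M → M → ℝ) (ε₁ ε₂ C' e : ℝ) (b : M → M → W) (U : Set M)
    (x : M) (ω : W) (r₁ : ℝ),
    Pack c ε C l ψ Q q P p → ε₁ ≤ ε → Mob c ψ P p ε₁ ε₂ C' e b → Trap f U → TransAtt f U →
    x ∉ Att f U → s.S x ω = ω → ω ≠ 0 → 0 < r₁ → Hit c ψ P p ε₂ b U x x ω →
    ∃ ε₀ : ℝ, 0 < ε₀ ∧ ∀ t : ℝ, 0 ≤ t → LocCov c ψ P p ε₂ b U x ω r₁ t →
      ∀ ε' : ℝ, 0 < ε' → ε' ≤ ε₀ → CovA f c.an U ε' t

/-- ITER -/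
def SpecIter : Prop :=
  ∀ (M : Type u) (W : Type v) [MetricSpace M] [CompactSpace M] [NormedAddCommGroup W]
    [NormedSpace ℝ W] [FiniteDimensional ℝ W] (E : Emb M W) (f : M ≃ₜ M) (s : Split E f)
    (c : Conf s) (ε C l : ℝ) (ψ : M → M → W) (Q : M → M → W →L[ℝ] W) (q : M → M → ℝ)
    (P : M → M → W →L[ℝ] W) (p : M → M → ℝ) (U : Set M),
    Pack c ε C l ψ Q q P p → Trap f U → ∀ δ : ℝ, 0 < δ → ∃ ε₀ : ℝ, 0 < ε₀ ∧
    ∀ ε' t : ℝ, 0 < ε' → ε' ≤ ε₀ → 0 ≤ t → CovA f c.an U ε' t →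
    ∃ κ : ℝ, 0 < κ ∧ κ < 1 ∧ SumOn f c.an (Att f U) δ t κ

/-- VOL -/
def SpecVol : Prop :=
  ∀ (M : Type u) [MetricSpace M] [CompactSpace M] [MeasurableSpace M]
    [BorelSpace M] (μ : Measure M) [IsFiniteMeasure μ] (f : M ≃ₜ M) (α : ℕ → M → ℝ) (sd : ℕ),
    (∀ n y, 0 ≤ α n y) → BoxLe μ f α sd → ∀ δ : ℝ, 0 < δ → SumOn f α univ δ sd 1

end Pool.Agent.Lib.MP610fe3.Cf
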