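import Pool.Agent.Lib.MP_610fe3_an.Cf.Spec4
import Pool.Agent.Lib.MP_610fe3_an.Cf.H1Trap
import Pool.Agent.Lib.MP_610fe3_an.Cf.Dec
import Pool.Agent.Lib.MP_610fe3_an.Shadow
import Pool.Agent.Lib.MP_610fe3_an.Transitive

/-!
# Module TRANS: a trapping region whose attractor is transitive
-/

open Set Filter Function MeasureTheory
open scoped Topology

namespace Pool.Agent.Lib.MP610fe3.Cf

universe u v

namespace Tr

theorem exists_seq {M : Type*} {r : M → M → Prop} {v v' : M} (h : Relation.TransGen r v v') :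
    ∃ (m : ℕ) (c : ℕ → M), 0 < m ∧ c 0 = v ∧ c m = v' ∧ ∀ i < m, r (c i) (c (i + 1)) := by
  induction h with
  | @single w h =>
    refine ⟨1, fun i => if i = 0 then v else w, one_pos, by simp, by simp, fun i hi => ?_⟩
    have : i = 0 := by omega
    subst this
    simpa using h
  | @tail a w h1 h2 ih =>
    obtain ⟨m, c, hm, h0, hl, hc⟩ := ih
    refine ⟨m + 1, fun i => if i ≤ m then c i else w, Nat.succ_pos m, by simp [h0], by simp,
      fun i hi => ?_⟩
    rcases Nat.lt_succ_iff_lt_or_eq.1 hi with h | h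
    · have h3 : i ≤ m := h.le
      have h4 : i + 1 ≤ m := h
      simp only [h3, h4, if_true]
      exact hc i h
    · subst h
      simp only [le_refl, if_true, Nat.not_succ_le_self, if_false, hl]
      exact h2

variable {M : Type*} [MetricSpace M]

/-- The finite terminal class. -/
theorem exists_class [CompactSpace M] [Nonempty M] (f : M ≃ₜ M) {ε : ℝ} (hε : 0 < ε) :
    ∃ (T : Finset M) (η : ℝ), 0 < η ∧ η ≤ ε / 4 ∧ T.Nonempty ∧
      (∀ a b, dist a b ≤ η → dist (f a) (f b) < ε / 4) ∧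
      (∀ z, ∀ v ∈ T, dist z v ≤ η → ∃ v' ∈ T, dist (f z) v' < η) ∧
      ∀ v ∈ T, ∀ v' ∈ T, Relation.TransGen (fun a b => dist (f a) b < ε / 2) v v' := by
  classical
  obtain ⟨η₁, hη₁, hf⟩ := Metric.uniformContinuous_iff.1
    (CompactSpace.uniformContinuous_of_continuous f.continuous) (ε / 4) (by positivity)
  obtain ⟨η, hη, hη2, hη3⟩ : ∃ η : ℝ, 0 < η ∧ η ≤ ε / 4 ∧ η < η₁ :=
    ⟨min (ε / 4) (η₁ / 2), lt_min (by positivity) (by positivity), min_le_left _ _,
      lt_of_le_of_lt (min_le_right _ _) (by linarith)⟩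
  have hf' : ∀ a b, dist a b ≤ η → dist (f a) (f b) < ε / 4 := fun a b h =>
    hf (lt_of_le_of_lt h hη3)
  obtain ⟨t, -, htf, ht⟩ := finite_cover_balls_of_compact (isCompact_univ (X := M)) hη
  set F : Finset M := htf.toFinset with hF
  have hcov : ∀ z : M, ∃ v ∈ F, dist z v < η := by
    intro z
    have := ht (mem_univ z)
    simp only [mem_iUnion, Metric.mem_ball] at this
    obtain ⟨v, hv, hd⟩ := this
    exact ⟨v, by simpa [hF] using hv, hd⟩
  have hFne : F.Nonempty := by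
    obtain ⟨v, hv, -⟩ := hcov (Classical.arbitrary M)
    exact ⟨v, hv⟩
  set r : M → M → Prop := fun a b => b ∈ F ∧ dist (f a) b < ε / 2 with hr
  set R : M → Finset M := fun v => F.filter (fun w => Relation.TransGen r v w) with hR
  obtain ⟨v₀, hv₀, hmin⟩ := F.exists_min_image (fun v => (R v).card) hFne
  have hmem : ∀ {v w}, w ∈ R v ↔ w ∈ F ∧ Relation.TransGen r v w := by
    intro v w
    simp [hR]
  have hRT : ∀ v ∈ R v₀, R v = R v₀ := by
    intro v hv
    have hsub : R v ⊆ R v₀ := by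
      intro w hw
      rw [hmem] at hw hv ⊢
      exact ⟨hw.1, hv.2.trans hw.2⟩
    exact Finset.eq_of_subset_of_card_le hsub (hmin v (hmem.1 hv).1)
  have hstep : ∀ z v, dist z v ≤ η → ∃ v' ∈ F, dist (f z) v' < η ∧ r v v' := by
    intro z v hzv
    obtain ⟨v', hv', hd⟩ := hcov (f z)
    refine ⟨v', hv', hd, hv', ?_⟩
    have h1 := hf' z v hzv
    have h2 := dist_triangle (f v) (f z) v'
    rw [dist_comm (f v) (f z)] at h2
    linarith
  refine ⟨R v₀, η, hη, hη2, ?_, hf', ?_, ?_⟩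
  · obtain ⟨v', hv', -, h⟩ := hstep v₀ v₀ (by rw [dist_self]; exact hη.le)
    exact ⟨v', hmem.2 ⟨hv', Relation.TransGen.single h⟩⟩
  · intro z v hv hzv
    obtain ⟨v', hv', hd, h⟩ := hstep z v hzv
    exact ⟨v', hmem.2 ⟨hv', (hmem.1 hv).2.tail h⟩, hd⟩
  · intro v hv v' hv'
    rw [← hRT v hv] at hv'
    have hmono : ∀ a b, r a b → dist (f a) b < ε / 2 := fun a b h => h.2
    exact Relation.TransGen.mono hmono _ _ (hmem.1 hv').2

theorem att_nonempty [CompactSpace M] {f : M ≃ₜ M} {U : Set M} (hU : Trap f U)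
    (hne : U.Nonempty) : (Att f U).Nonempty := by
  obtain ⟨x, hx⟩ := hne
  obtain ⟨a, -, φ, hφ, hlim⟩ := isCompact_univ.tendsto_subseq (x := fun n : ℕ => f^[n] x)
    (fun n => mem_univ _)
  refine ⟨a, ?_⟩
  rw [H1.att_eq hU]
  intro n
  have h1 : Tendsto (fun k => f.symm^[n] (f^[φ k] x)) atTop (𝓝 (f.symm^[n] a)) :=
    ((f.symm.continuous.iterate n).tendsto a).comp hlim
  refine mem_closure_of_tendsto h1 ?_
  filter_upwards [hφ.tendsto_atTop.eventually_ge_atTop n] with k hk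
  rw [symm_iterate_iterate_of_le f hk]
  exact H1.trap_iter hU hx _

theorem Wl_dec {f : M ≃ₜ M} {ε C l δ : ℝ} (h : Dec f ε C l) {x z : M} (hδ : δ ≤ ε)
    (hz : z ∈ Wl f δ x) (p : ℕ) : f^[p] z ∈ Wl f (C * l ^ p * δ) (f^[p] x) := by
  intro k
  rw [← iterate_add_apply, ← iterate_add_apply]
  have h1 := h.dec x z (Wl_mono hδ hz) (k + p)
  have h2 : l ^ (k + p) ≤ l ^ p := pow_le_pow_of_le_one h.l_pos.le h.l_lt.le (by omega)
  have h3 : 0 ≤ C := le_trans zero_le_one h.one_le
  have h4 : (0 : ℝ) ≤ l ^ p := pow_nonneg h.l_pos.le _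
  calc _ ≤ C * l ^ (k + p) * dist z x := h1
    _ ≤ C * l ^ p * dist z x := by gcongr
    _ ≤ C * l ^ p * δ := by
      have := Wl_dist hz
      gcongr

theorem orbit_neg {f : M ≃ₜ M} {y : ℤ → M} (hy : ∀ k, f (y k) = y (k + 1)) (i : ℕ) :
    y (-(i : ℤ)) = f.symm^[i] (y 0) := by
  induction i with
  | zero => simp
  | succ i ih =>
    rw [iterate_succ_apply', ← ih]
    have h := hy (-((i + 1 : ℕ) : ℤ))
    rw [show (-((i + 1 : ℕ) : ℤ)) + 1 = -(i : ℤ) by push_cast; ring] at h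
    rw [← h, f.symm_apply_apply]

theorem orbit_add {f : M ≃ₜ M} {y : ℤ → M} (hy : ∀ k, f (y k) = y (k + 1)) (j : ℤ) (i : ℕ) :
    y (j + i) = f^[i] (y j) := by
  induction i with
  | zero => simp
  | succ i ih =>
    rw [iterate_succ_apply', ← ih, hy]
    congr 1
    push_cast
    ring

theorem ext_neg {f : M ≃ₜ M} {c : ℕ → M} {m : ℕ} (i : ℕ) :
    extendChain f c m (-(i : ℤ)) = f.symm^[i] (c 0) := by
  rcases Nat.eq_zero_or_pos i with h | h
  · subst h
    simp [extendChain]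
  · unfold extendChain
    rw [if_pos (by omega)]
    congr 1
    omega

theorem ext_add {f : M ≃ₜ M} {c : ℕ → M} {m : ℕ} (i : ℕ) :
    extendChain f c m ((m : ℤ) + i) = f^[i] (c m) := by
  rcases Nat.eq_zero_or_pos i with h | h
  · subst h
    simp [extendChain]
  · unfold extendChain
    rw [if_neg (by omega), if_neg (by omega)]
    congr 1
    omega

end Tr

open Tr in
theorem exists_transAtt {M : Type u} {W : Type v} [MetricSpace M] [CompactSpace M]
    [NormedAddCommGroup W] [NormedSpace ℝ W] {E : Emb M W} {f : M ≃ₜ M} (s : Split E f)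
    (hs : s.Hyperbolic) (hc : ¬ ChainTransitive f) :
    ∃ U, Trap f U ∧ (Att f U).Nonempty ∧ (∃ x, x ∉ Bas f U) ∧ TransAtt f U := by
  classical
  obtain ⟨εa, Ca, la, ha⟩ := exists_dec s hs
  obtain ⟨εb, Cb, lb, hb⟩ := exists_dec s.swap hs.swap
  set δ₀ : ℝ := min εa εb with hδ₀
  have hδ₀pos : 0 < δ₀ := lt_min ha.ε_pos hb.ε_pos
  obtain ⟨ε₀, hε₀, hsh⟩ := s.shadowing hs δ₀ hδ₀pos
  unfold ChainTransitive at hc
  push Not at hc
  obtain ⟨x₁, y₁, ε₁, hε₁, hno⟩ := hc
  have : Nonempty M := ⟨x₁⟩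
  set ε : ℝ := min ε₀ ε₁ with hεdef
  have hε : 0 < ε := lt_min hε₀ hε₁
  obtain ⟨T, η, hη, hη4, hTne, hf, hstep, hT⟩ := exists_class f hε
  -- chains inside the region
  have hchain : ∀ v ∈ T, ∀ v' ∈ T, ∃ m : ℕ, 0 < m ∧ ∀ x y, dist x v < η → dist y v' < η →
      ∃ c : ℕ → M, c 0 = x ∧ c m = y ∧ ∀ i < m, dist (f (c i)) (c (i + 1)) < ε := by
    intro v hv v' hv'
    obtain ⟨m, c, hm, h0, hl, hcc⟩ := exists_seq (hT v hv v' hv')
    refine ⟨m, hm, fun x y hx hy =>
      ⟨fun i => if i = 0 then x else if i = m then y else c i, by simp, by simp [hm.ne'],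
      fun i hi => ?_⟩⟩
    have hi' : i ≠ m := by omega
    have hA : dist (f (if i = 0 then x else if i = m then y else c i)) (f (c i)) < ε / 4 := by
      by_cases h : i = 0
      · subst h
        simp only [if_true, h0]
        exact hf x v hx.le
      · simp only [h, hi', if_false, dist_self]
        positivity
    have hB : dist (c (i + 1)) (if i + 1 = 0 then x else if i + 1 = m then y else c (i + 1))
        < ε / 4 := by
      have h0' : i + 1 ≠ 0 := by omega
      by_cases h : i + 1 = m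
      · rw [if_neg h0', if_pos h, h, hl, dist_comm]
        exact lt_of_lt_of_le hy hη4
      · simp only [h0', h, if_false, dist_self]
        positivity
    have hC := hcc i hi
    have h5 := dist_triangle (f (if i = 0 then x else if i = m then y else c i)) (f (c i))
      (if i + 1 = 0 then x else if i + 1 = m then y else c (i + 1))
    have h6 := dist_triangle (f (c i)) (c (i + 1))
      (if i + 1 = 0 then x else if i + 1 = m then y else c (i + 1))
    show dist (f (if i = 0 then x else if i = m then y else c i))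
      (if i + 1 = 0 then x else if i + 1 = m then y else c (i + 1)) < ε
    linarith
  set U : Set M := ⋃ v ∈ T, Metric.ball v η with hU
  have hmemU : ∀ {z}, z ∈ U ↔ ∃ v ∈ T, dist z v < η := by
    intro z
    simp [hU]
  have hclU : ∀ z ∈ closure U, ∃ v ∈ T, dist z v ≤ η := by
    intro z hz
    have h1 : closure U ⊆ ⋃ v ∈ T, Metric.closedBall v η := by
      refine closure_minimal ?_ ?_
      · exact iUnion₂_mono fun v _ => Metric.ball_subset_closedBall
      · exact T.finite_toSet.isClosed_biUnion fun v _ => Metric.isClosed_closedBall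
    have h2 := h1 hz
    simpa using h2
  have hTrap : Trap f U := by
    refine ⟨isOpen_biUnion fun v _ => Metric.isOpen_ball, fun z hz => ?_⟩
    obtain ⟨v, hv, hd⟩ := hclU z hz
    exact hmemU.2 (hstep z v hv hd)
  have hUne : U.Nonempty := by
    obtain ⟨v, hv⟩ := hTne
    exact ⟨v, hmemU.2 ⟨v, hv, by rw [dist_self]; exact hη⟩⟩
  have hUuniv : U ≠ univ := by
    intro hall
    obtain ⟨v, hv, hxv⟩ := hmemU.1 (hall ▸ mem_univ x₁ : x₁ ∈ U)
    obtain ⟨v', hv', hyv⟩ := hmemU.1 (hall ▸ mem_univ y₁ : y₁ ∈ U)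
    obtain ⟨m, hm, hch⟩ := hchain v hv v' hv'
    obtain ⟨c, h0, hl, hcc⟩ := hch x₁ y₁ hxv hyv
    exact hno ⟨m, c, hm, h0, hl, fun i hi => lt_of_lt_of_le (hcc i hi) (min_le_right _ _)⟩
  refine ⟨U, hTrap, att_nonempty hTrap hUne, ?_, ?_⟩
  · have := H1.bas_ne_univ hTrap hUuniv
    rw [Ne, eq_univ_iff_forall] at this
    push Not at this
    exact this
  -- transitivity at the scale `δ₀`
  have hbase : ∃ n₀ : ℕ, ∀ x ∈ Att f U, ∀ y ∈ Att f U, ∃ n ≤ n₀, ∃ w,
      w ∈ Wl f.symm δ₀ x ∧ f^[n] w ∈ Wl f δ₀ y := by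
    choose! m hm hch using hchain
    refine ⟨T.sup fun v => T.sup fun v' => m v v', fun x hx y hy => ?_⟩
    obtain ⟨v, hv, hxv⟩ := hmemU.1 (hx 0 : x ∈ U)
    obtain ⟨v', hv', hyv⟩ := hmemU.1 (hy 0 : y ∈ U)
    refine ⟨m v v', ?_, ?_⟩
    · have h1 : m v v' ≤ T.sup fun v' => m v v' := Finset.le_sup (f := fun v' => m v v') hv'
      have h2 : (T.sup fun v' => m v v') ≤ T.sup fun v => T.sup fun v' => m v v' :=
        Finset.le_sup (f := fun v => T.sup fun v' => m v v') hv
      exact h1.trans h2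
    · obtain ⟨c, h0, hl, hcc⟩ := hch v hv v' hv' x y hxv hyv
      obtain ⟨z, hz1, hz2⟩ := hsh (extendChain f c (m v v')) (extendChain_pseudo hε₀
        fun i hi => lt_of_lt_of_le (hcc i hi) (min_le_left _ _))
      refine ⟨z 0, fun k => ?_, fun k => ?_⟩
      · have h1 := hz2 (-(k : ℤ))
        rw [ext_neg, h0, orbit_neg hz1] at h1
        exact h1.le
      · have h1 := hz2 ((m v v' : ℤ) + k)
        rw [ext_add, hl, orbit_add hz1, show z (m v v' : ℤ) = f^[m v v'] (z 0) from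
          orbit_nat hz1 _] at h1
        exact h1.le
  intro δ hδ
  obtain ⟨n₀, hn₀⟩ := hbase
  have hlim : ∀ C l : ℝ, 0 < l → l < 1 → ∃ p₀ : ℕ, ∀ p ≥ p₀, C * l ^ p * δ₀ ≤ δ := by
    intro C l hl hl1
    have h1 : Tendsto (fun p : ℕ => C * l ^ p * δ₀) atTop (𝓝 (C * 0 * δ₀)) :=
      ((tendsto_pow_atTop_nhds_zero_of_lt_one hl.le hl1).const_mul C).mul_const δ₀
    rw [mul_zero, zero_mul] at h1
    obtain ⟨p₀, hp₀⟩ := eventually_atTop.1 (h1.eventually (gt_mem_nhds hδ))
    exact ⟨p₀, fun p hp => (hp₀ p hp).le⟩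
  obtain ⟨pa, hpa⟩ := hlim Ca la ha.l_pos ha.l_lt
  obtain ⟨pb, hpb⟩ := hlim Cb lb hb.l_pos hb.l_lt
  set p := max pa pb with hp
  refine ⟨n₀ + 2 * p, fun x hx y hy => ?_⟩
  have hx' : f^[p] x ∈ Att f U := (H1.mem_att_iter hTrap).2 hx
  have hy' : f.symm^[p] y ∈ Att f U := by
    rw [← H1.mem_att_iter hTrap (k := p), iterate_symm_iterate]
    exact hy
  obtain ⟨n, hn, w, hw1, hw2⟩ := hn₀ _ hx' _ hy'
  refine ⟨n + 2 * p, by omega, f.symm^[p] w, ?_, ?_⟩
  · have h1 := Wl_dec hb (min_le_right _ _) hw1 p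
    rw [symm_iterate_iterate] at h1
    exact Wl_mono (hpb p (le_max_right _ _)) h1
  · have h1 := Wl_dec ha (min_le_left _ _) hw2 p
    rw [iterate_symm_iterate, ← iterate_add_apply] at h1
    rw [show n + 2 * p = (p + n) + p by ring, iterate_add_apply, iterate_symm_iterate]
    exact Wl_mono (hpa p (le_max_left _ _)) h1

theorem specTrans : SpecTrans.{u, v} := fun _ _ _ _ _ _ _ _ _ s hs hc =>
  exists_transAtt s hs hc

end Pool.Agent.Lib.MP610fe3.Cf
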